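import Pool.Agent.Lib.H53M.S0

/-!
# H53M, chunk SA2: the binomial estimate

Size S/M, real analysis.

PROOF. (n+d choose d) ≤ (n+d)^d / d! (`Nat.choose_le_pow_div`) and d^d / d! ≤ exp d
(`Real.pow_div_factorial_le_exp`), so for d ≥ 1
  (n+d choose d) ≤ ((n+d)/d)^d exp d = exp (d (1 + log (1 + n/d))).
The coefficient of (1-X)^{-d} is choose(d-1+n, d-1) ≤ choose (d+n, d) (d ≥ 1).
With d = R W, R, W ≥ 1: 1 + n/d ≤ 1 + n/W ≤ 2 + n/W, and 1 ≤ 2 log 2 ≤ 2 log (2 + n/W)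
(`Real.log_two_gt_d9`), so the exponent is at most 3 R W log (2 + n/W).
-/

namespace H53M

open PowerSeries

theorem SA2_log (x : ℝ) (hx : 0 ≤ x) : 1 ≤ 2 * Real.log (2 + x) := by
  have h1 := Real.log_two_gt_d9
  have h2 : Real.log 2 ≤ Real.log (2 + x) := Real.log_le_log (by norm_num) (by linarith)
  linarith

theorem m_le_exp (R W n : ℕ) (hR : 1 ≤ R) (hW : 1 ≤ W) :
    coeff n ((invOneSubPow ℝ (R * W)).val) ≤
      Real.exp (3 * R * W * Real.log (2 + (n : ℝ) / W)) := by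
  have hd : 1 ≤ R * W := Nat.mul_pos hR hW
  obtain ⟨e, he⟩ : ∃ e, R * W = e + 1 := ⟨R * W - 1, by omega⟩
  have hWr : (1 : ℝ) ≤ W := by exact_mod_cast hW
  have hRr : (1 : ℝ) ≤ R := by exact_mod_cast hR
  have hdr : ((e : ℝ) + 1) = (R : ℝ) * W := by
    have : ((e + 1 : ℕ) : ℝ) = ((R * W : ℕ) : ℝ) := by rw [he]
    push_cast at this
    exact this
  have hn : (0 : ℝ) ≤ n := Nat.cast_nonneg n
  have hd1 : (1 : ℝ) ≤ (R : ℝ) * W := by nlinarith
  have hd0 : (0 : ℝ) < (R : ℝ) * W := by linarith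
  rw [he, invOneSubPow_val_succ_eq_mk_add_choose, coeff_mk]
  have h1 : (e + n).choose e ≤ (e + 1 + n).choose (e + 1) := by
    have h2 : e + 1 + n = (e + n) + 1 := by omega
    rw [h2, Nat.choose_succ_succ]
    omega
  have h2 : (((e + 1 + n).choose (e + 1) : ℕ) : ℝ) ≤
      (((e + 1 + n : ℕ) : ℝ)) ^ (e + 1) / ((e + 1).factorial : ℝ) :=
    Nat.choose_le_pow_div _ _
  have h3 := Real.pow_div_factorial_le_exp (x := (R : ℝ) * W) hd0.le (e + 1)
  have h4 : (((e + 1 + n : ℕ) : ℝ)) ^ (e + 1) / ((e + 1).factorial : ℝ) =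
      (1 + n / ((R : ℝ) * W)) ^ (e + 1) * (((R : ℝ) * W) ^ (e + 1) / ((e + 1).factorial : ℝ)) := by
    rw [← mul_div_assoc, ← mul_pow]
    congr 2
    push_cast
    rw [hdr]
    field_simp
  have hx0 : 0 ≤ (n : ℝ) / W := by positivity
  have h5 : 1 + n / ((R : ℝ) * W) ≤ 2 + (n : ℝ) / W := by
    have h6 : (n : ℝ) / ((R : ℝ) * W) ≤ n / W := by
      apply div_le_div_of_nonneg_left hn (by linarith)
      nlinarith
    linarith
  have h6 : (1 + n / ((R : ℝ) * W)) ^ (e + 1) ≤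
      Real.exp ((R : ℝ) * W * Real.log (2 + (n : ℝ) / W)) := by
    have h7 : (1 + n / ((R : ℝ) * W)) ^ (e + 1) ≤ (2 + (n : ℝ) / W) ^ (e + 1) :=
      pow_le_pow_left₀ (by positivity) h5 _
    refine h7.trans (le_of_eq ?_)
    have h8 : Real.exp ((R : ℝ) * W * Real.log (2 + (n : ℝ) / W)) =
        Real.exp (((e + 1 : ℕ) : ℝ) * Real.log (2 + (n : ℝ) / W)) := by
      congr 2
      push_cast
      exact hdr.symm
    rw [h8, Real.exp_nat_mul, Real.exp_log (by positivity)]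
  have h7 := SA2_log _ hx0
  calc (((e + n).choose e : ℕ) : ℝ) ≤ (((e + 1 + n).choose (e + 1) : ℕ) : ℝ) := by
        exact_mod_cast h1
    _ ≤ _ := h2
    _ = _ := h4
    _ ≤ Real.exp ((R : ℝ) * W * Real.log (2 + (n : ℝ) / W)) * Real.exp ((R : ℝ) * W) :=
        mul_le_mul h6 h3 (by positivity) (Real.exp_pos _).le
    _ = Real.exp ((R : ℝ) * W * Real.log (2 + (n : ℝ) / W) + (R : ℝ) * W) := by
        rw [Real.exp_add]
    _ ≤ _ := by
        apply Real.exp_le_exp.2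
        have h8 : (R : ℝ) * W * 1 ≤ (R : ℝ) * W * (2 * Real.log (2 + (n : ℝ) / W)) :=
          mul_le_mul_of_nonneg_left h7 hd0.le
        linarith

end H53M
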