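import Pool.Agent.Lib.H53M.Defs

/-!
# H53M, chunk Q1: the integral series e2, e4, e6, dl; the operator th

Size S/M, elementary.

PROOF.
* `coeff_zero_e2`, `coeff_zero_e4`, `coeff_zero_e6` : by definition (simp with `coeff_mk`).
* `dl_eq` : put a = Σ_{n>0} σ₃(n) qⁿ, b = Σ_{n>0} σ₅(n) qⁿ in ℤ⟦X⟧, e4 = 1 + 240 a, e6 = 1 - 504 b.
  e4³ - e6² = 720 a + 3·240² a² + 240³ a³ + 1008 b - 504² b², and
  3·240² = 1728·100, 240³ = 1728·8000, 504² = 1728·147, while
  720 a + 1008 b = 144 (5 a + 7 b) and 5 d³ + 7 d⁵ ≡ 0 mod 12 for every d, because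
  5 d³ + 7 d⁵ ≡ 7 d³ (d² - 1) mod 12 and 12 ∣ d³ (d² - 1) (decide modulo 12: reduce d to
  `ZMod 12`, or `Int.emod_emod_of_dvd` and `interval_cases`); σ_k(n) = Σ_{d ∣ n} d^k
  (`ArithmeticFunction.sigma_apply`, `Finset.dvd_sum`). Hence 5 a + 7 b = 12 c for some c in ℤ⟦X⟧
  (coefficientwise), e4³ - e6² = 1728 (c + 100 a² + 8000 a³ - 147 b²), and by definition of `dl`
  (coefficientwise integer division) the claim follows.
* `coeff_zero_dl`, `coeff_one_dl` : from `dl_eq`, coefficients 0 and 1 (`coeff_mul`,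
  `Finset.Nat.antidiagonal_succ`; σ₃(1) = σ₅(1) = 1): 1728 x = 0, 1728 x = 720 + 1008 = 1728.
* `dl_factor` : `PowerSeries.X_dvd_iff`.
* `th_*` : coefficientwise; for `th_mul` : n = i + j on the antidiagonal.
-/

namespace H53M

open PowerSeries

theorem coeff_zero_e2 : coeff 0 e2 = 1 := by
  simp [e2]

theorem coeff_zero_e4 : coeff 0 e4 = 1 := by
  simp [e4]

theorem coeff_zero_e6 : coeff 0 e6 = 1 := by
  simp [e6]

theorem Q1_dvd (d : ℤ) : (12 : ℤ) ∣ 5 * d ^ 3 + 7 * d ^ 5 := by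
  have h : ∀ x : ZMod 12, 5 * x ^ 3 + 7 * x ^ 5 = 0 := by decide
  have h2 := h (d : ZMod 12)
  have h3 := (ZMod.intCast_zmod_eq_zero_iff_dvd (5 * d ^ 3 + 7 * d ^ 5) 12).1 (by
    push_cast
    exact h2)
  exact_mod_cast h3

theorem Q1_c : ∃ c : PowerSeries ℤ,
    (5 : PowerSeries ℤ) * (PowerSeries.mk fun n => if n = 0 then 0 else
      (ArithmeticFunction.sigma 3 n : ℤ)) + 7 * (PowerSeries.mk fun n => if n = 0 then 0 else
      (ArithmeticFunction.sigma 5 n : ℤ)) = 12 * c := by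
  have h : ∀ n : ℕ, (12 : ℤ) ∣ 5 * (if n = 0 then 0 else (ArithmeticFunction.sigma 3 n : ℤ)) +
      7 * (if n = 0 then 0 else (ArithmeticFunction.sigma 5 n : ℤ)) := by
    intro n
    by_cases hn : n = 0
    · simp [hn]
    · simp only [hn, if_false]
      rw [ArithmeticFunction.sigma_apply, ArithmeticFunction.sigma_apply]
      push_cast
      rw [Finset.mul_sum, Finset.mul_sum, ← Finset.sum_add_distrib]
      exact Finset.dvd_sum fun d _ => Q1_dvd d
  choose c hc using h
  refine ⟨PowerSeries.mk c, ?_⟩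
  have e5 : (5 : PowerSeries ℤ) = C (5 : ℤ) := by simp
  have e7 : (7 : PowerSeries ℤ) = C (7 : ℤ) := by simp
  have e12 : (12 : PowerSeries ℤ) = C (12 : ℤ) := by simp
  rw [e5, e7, e12]
  ext n
  simp only [map_add, coeff_C_mul, coeff_mk]
  exact hc n

theorem Q1_exists : ∃ d : PowerSeries ℤ, e4 ^ 3 - e6 ^ 2 = 1728 * d := by
  obtain ⟨c, hc⟩ := Q1_c
  set a : PowerSeries ℤ := PowerSeries.mk fun n => if n = 0 then 0 else
      (ArithmeticFunction.sigma 3 n : ℤ) with ha
  set b : PowerSeries ℤ := PowerSeries.mk fun n => if n = 0 then 0 else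
      (ArithmeticFunction.sigma 5 n : ℤ) with hb
  have e240 : (240 : PowerSeries ℤ) = C (240 : ℤ) := by simp
  have e504 : (504 : PowerSeries ℤ) = C (504 : ℤ) := by simp
  have h4 : e4 = 1 + 240 * a := by
    rw [e240, ha]
    ext n
    by_cases hn : n = 0
    · subst hn; simp [e4]
    · rw [map_add, coeff_C_mul]; simp [e4, hn, coeff_one]
  have h6 : e6 = 1 - 504 * b := by
    rw [e504, hb]
    ext n
    by_cases hn : n = 0
    · subst hn; simp [e6]
    · rw [map_sub, coeff_C_mul]; simp [e6, hn, coeff_one]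
  refine ⟨c + 100 * a ^ 2 + 8000 * a ^ 3 - 147 * b ^ 2, ?_⟩
  rw [h4, h6]
  linear_combination 144 * hc

theorem dl_eq : (1728 : PowerSeries ℤ) * dl = e4 ^ 3 - e6 ^ 2 := by
  obtain ⟨d, hd⟩ := Q1_exists
  have e : (1728 : PowerSeries ℤ) = C (1728 : ℤ) := by simp
  rw [hd]
  congr 1
  ext n
  rw [dl, coeff_mk, hd, e, coeff_C_mul]
  omega

theorem Q1_coeff_dl (n : ℕ) : (1728 : ℤ) * coeff n dl = coeff n (e4 ^ 3 - e6 ^ 2) := by
  rw [← dl_eq]
  have e : (1728 : PowerSeries ℤ) = C (1728 : ℤ) := by simp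
  rw [e, coeff_C_mul]

theorem coeff_zero_dl : coeff 0 dl = 0 := by
  have h := Q1_coeff_dl 0
  have h1 : coeff 0 (e4 ^ 3 - e6 ^ 2) = 0 := by
    have h4 := coeff_zero_e4
    have h6 := coeff_zero_e6
    rw [coeff_zero_eq_constantCoeff_apply] at *
    simp [h4, h6]
  omega

theorem Q1_coeff_one_mul (f g : PowerSeries ℤ) : coeff 1 (f * g) =
    coeff 0 f * coeff 1 g + coeff 1 f * coeff 0 g := by
  rw [coeff_mul]
  simp [Finset.Nat.antidiagonal_succ]

theorem coeff_one_dl : coeff 1 dl = 1 := by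
  have h := Q1_coeff_dl 1
  have h4 := coeff_zero_e4
  have h6 := coeff_zero_e6
  have h41 : coeff 1 e4 = 240 := by simp [e4]
  have h61 : coeff 1 e6 = -504 := by simp [e6]
  have h402 : coeff 0 (e4 * e4) = 1 := by
    rw [coeff_zero_eq_constantCoeff_apply] at *
    simp [h4]
  have h1 : coeff 1 (e4 ^ 3 - e6 ^ 2) = 1728 := by
    rw [map_sub, pow_succ, pow_two, pow_two, Q1_coeff_one_mul, Q1_coeff_one_mul,
      Q1_coeff_one_mul, h402, h4, h6, h41, h61]
    norm_num
  omega

theorem dl_factor : ∃ u : PowerSeries ℤ, constantCoeff u = 1 ∧ dl = X * u := by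
  have h : (X : PowerSeries ℤ) ∣ dl := by
    rw [X_dvd_iff]
    have := coeff_zero_dl
    rwa [coeff_zero_eq_constantCoeff_apply] at this
  obtain ⟨u, hu⟩ := h
  refine ⟨u, ?_, hu⟩
  have h1 := coeff_one_dl
  rw [hu, show (1 : ℕ) = 0 + 1 from rfl, coeff_succ_X_mul,
    coeff_zero_eq_constantCoeff_apply] at h1
  exact h1

theorem th_add {R : Type*} [CommSemiring R] (f g : PowerSeries R) :
    th (f + g) = th f + th g := by
  ext n
  simp [th, mul_add]

theorem th_smul {R : Type*} [CommSemiring R] (a : R) (f : PowerSeries R) :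
    th (a • f) = a • th f := by
  ext n
  simp [th]
  ring

theorem th_mul {R : Type*} [CommSemiring R] (f g : PowerSeries R) :
    th (f * g) = th f * g + f * th g := by
  ext n
  simp only [th, coeff_mk, map_add, coeff_mul, Finset.mul_sum]
  rw [← Finset.sum_add_distrib]
  refine Finset.sum_congr rfl fun x hx => ?_
  have hx2 : x.1 + x.2 = n := by simpa using hx
  rw [← hx2]
  push_cast
  ring

theorem th_pow {R : Type*} [CommSemiring R] (f : PowerSeries R) (n : ℕ) :
    th (f ^ n) = (n : PowerSeries R) * f ^ (n - 1) * th f := by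
  induction n with
  | zero =>
    ext n
    by_cases hn : n = 0
    · simp [th, hn]
    · simp [th, coeff_one, hn]
  | succ n ih =>
    rw [pow_succ, th_mul, ih]
    rcases n with _ | n
    · simp
    · simp only [Nat.add_sub_cancel]
      push_cast
      ring

theorem th_map {R S : Type*} [CommSemiring R] [CommSemiring S] (φ : R →+* S)
    (f : PowerSeries R) : th (PowerSeries.map φ f) = PowerSeries.map φ (th f) := by
  ext n
  simp [th]

end H53M
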