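import Pool.Agent.Lib.H53M.SA1
import Pool.Agent.Lib.H53M.Q1

/-!
# H53M, chunk SA3: majorants of e2, e4, dl

Size S/M.

PROOF. σ_k(n) ≤ n^(k+1) (`ArithmeticFunction.sigma_le_pow_succ`), so |coeff n e2| ≤ 24 (n+1)^2,
|coeff n e4| ≤ 240 (n+1)^4, |coeff n e6| ≤ 504 (n+1)^6: `Maj_base`. For dl:
toQ dl = (1/1728) • (toQ e4 ^ 3 - toQ e6 ^ 2) by `dl_eq`; sum of two majorised series is
majorised (triangle inequality, after `Maj_mono` to a common d), and a factor of absolute value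
≤ 1 does not matter. Finally enlarge d and K to common values with `Maj_mono`.
-/

namespace H53M

open PowerSeries

theorem SA3_eis (k : ℕ) (c : ℝ) (hc : 1 ≤ c) (f : PowerSeries ℤ) (C : ℤ) (hC : |(C : ℝ)| ≤ c)
    (h0 : coeff 0 f = 1) (hf : ∀ n, n ≠ 0 → coeff n f = C * (ArithmeticFunction.sigma k n : ℤ)) :
    ∀ n, |((coeff n (toQ f) : ℚ) : ℝ)| ≤ c * ((n : ℝ) + 1) ^ (k + 1) := by
  intro n
  rw [coeff_map]
  by_cases hn : n = 0
  · subst hn
    rw [h0]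
    simp
    exact hc
  · rw [hf n hn]
    have h1 : ((ArithmeticFunction.sigma k n : ℕ) : ℝ) ≤ ((n : ℝ) + 1) ^ (k + 1) := by
      have h2 : ((ArithmeticFunction.sigma k n : ℕ) : ℝ) ≤ ((n ^ (k + 1) : ℕ) : ℝ) := by
        exact_mod_cast ArithmeticFunction.sigma_le_pow_succ k n
      refine h2.trans ?_
      push_cast
      apply pow_le_pow_left₀ (Nat.cast_nonneg n)
      linarith
    have h3 : (((Int.castRingHom ℚ) (C * (ArithmeticFunction.sigma k n : ℤ)) : ℚ) : ℝ) =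
        (C : ℝ) * ((ArithmeticFunction.sigma k n : ℕ) : ℝ) := by
      simp
    rw [h3, abs_mul, abs_of_nonneg (Nat.cast_nonneg (ArithmeticFunction.sigma k n) : (0 : ℝ) ≤ _)]
    exact mul_le_mul hC h1 (Nat.cast_nonneg _) (by linarith)

theorem SA3_add {d : ℕ} {K K' : ℝ} {f g : PowerSeries ℚ} (hf : Maj d K f) (hg : Maj d K' g) :
    Maj d (K + K') (f - g) := by
  intro n
  rw [map_sub, Rat.cast_sub]
  refine (abs_sub _ _).trans ?_
  have h1 := hf n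
  have h2 := hg n
  rw [add_mul]
  linarith

theorem SA3_dl {d : ℕ} {K : ℝ} (hK : 0 ≤ K) (h : Maj d K ((toQ e4) ^ 3 - (toQ e6) ^ 2)) :
    Maj d K (toQ dl) := by
  intro n
  have h1 : (toQ e4) ^ 3 - (toQ e6) ^ 2 = (1728 : ℚ) • toQ dl := by
    have h2 := congrArg toQ dl_eq
    rw [map_mul, map_sub, map_pow, map_pow] at h2
    rw [← h2]
    have h3 : toQ (1728 : PowerSeries ℤ) = PowerSeries.C (1728 : ℚ) := by
      rw [map_ofNat, map_ofNat]
    rw [h3, PowerSeries.smul_eq_C_mul]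
  have h2 := h n
  rw [h1, PowerSeries.coeff_smul, smul_eq_mul, Rat.cast_mul, abs_mul] at h2
  have h3 : |((1728 : ℚ) : ℝ)| = 1728 := by norm_num
  rw [h3] at h2
  have h4 := abs_nonneg ((coeff n (toQ dl) : ℚ) : ℝ)
  linarith

theorem Maj_e : ∃ (d : ℕ) (K : ℝ), 1 ≤ d ∧ 1 ≤ K ∧ Maj d K (toQ e2) ∧ Maj d K (toQ e4) ∧
    Maj d K (toQ dl) := by
  have h2 : Maj (2 + 1) (24 * ((2 : ℕ).factorial : ℝ)) (toQ e2) :=
    Maj_base (by norm_num) (SA3_eis 1 24 (by norm_num) e2 (-24) (by norm_num) coeff_zero_e2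
      (fun n hn => by rw [e2, coeff_mk, if_neg hn]))
  have h4 : Maj (4 + 1) (240 * ((4 : ℕ).factorial : ℝ)) (toQ e4) :=
    Maj_base (by norm_num) (SA3_eis 3 240 (by norm_num) e4 240 (by norm_num) coeff_zero_e4
      (fun n hn => by rw [e4, coeff_mk, if_neg hn]))
  have h6 : Maj (6 + 1) (504 * ((6 : ℕ).factorial : ℝ)) (toQ e6) :=
    Maj_base (by norm_num) (SA3_eis 5 504 (by norm_num) e6 (-504) (by norm_num) coeff_zero_e6
      (fun n hn => by rw [e6, coeff_mk, if_neg hn]))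
  obtain ⟨K2, hK2⟩ : ∃ K2 : ℝ, K2 = 24 * ((2 : ℕ).factorial : ℝ) := ⟨_, rfl⟩
  obtain ⟨K4, hK4⟩ : ∃ K4 : ℝ, K4 = 240 * ((4 : ℕ).factorial : ℝ) := ⟨_, rfl⟩
  obtain ⟨K6, hK6⟩ : ∃ K6 : ℝ, K6 = 504 * ((6 : ℕ).factorial : ℝ) := ⟨_, rfl⟩
  rw [← hK2] at h2
  rw [← hK4] at h4
  rw [← hK6] at h6
  have k2 : 1 ≤ K2 := by rw [hK2]; norm_num
  have k4 : 1 ≤ K4 := by rw [hK4]; norm_num [Nat.factorial]
  have k6 : 1 ≤ K6 := by rw [hK6]; norm_num [Nat.factorial]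
  have h44 := Maj_pow (by linarith) h4 3
  have h66 := Maj_pow (by linarith) h6 2
  have p4 : 1 ≤ K4 ^ 3 := one_le_pow₀ k4
  have p6 : 1 ≤ K6 ^ 2 := one_le_pow₀ k6
  have q4 : K4 ≤ K4 ^ 3 := le_self_pow₀ k4 (by norm_num)
  have h45 : Maj 15 (K4 ^ 3) ((toQ e4) ^ 3) := Maj_mono (by linarith) (by norm_num) le_rfl h44
  have h65 : Maj 15 (K6 ^ 2) ((toQ e6) ^ 2) := Maj_mono (by linarith) (by norm_num) le_rfl h66
  have hdl := SA3_dl (by linarith) (SA3_add h45 h65)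
  refine ⟨15, K4 ^ 3 + K6 ^ 2 + K2, by norm_num, by linarith, ?_, ?_, ?_⟩
  · exact Maj_mono (by linarith) (by norm_num) (by linarith) h2
  · exact Maj_mono (by linarith) (by norm_num) (by linarith) h4
  · exact Maj_mono (by linarith) (by norm_num) (by linarith) hdl

end H53M
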