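import Pool.Agent.Lib.H53M.SA1
import Pool.Agent.Lib.H53M.SA2
import Pool.Agent.Lib.H53M.SA3

/-!
# H53M, chunk SA4: size of the coefficients of the monomials

Size M.

PROOF. Take d₀, K₀ ≥ 1 with Maj d₀ K₀ for toQ e2, toQ e4, toQ dl (`Maj_e`) and h (`Maj_base`,
`Maj_mono`). For t = (i, j, l) in Idx, B ≤ W: Ft is a product of
  M = l + 3(W - i - w'j - l) + 6 i + 6 j ≤ 3 W + 12 B ≤ 15 W
factors, so Maj (M d₀) (K₀^M) (Ft t) by `Maj_mul`, `Maj_pow` (`map_mul`, `map_pow` for toQ), hence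
Maj (15 d₀ W) (K₀^(15 W)) (Ft t) by `Maj_mono`. By `m_le_exp` with R = 15 d₀
  |coeff n (Ft t)| ≤ K₀^(15W) exp (45 d₀ W log(2+n/W)) and K₀^(15 W) = exp(15 W log K₀)
  ≤ exp (30 log K₀ W log (2+n/W)) because 1 ≤ 2 log 2 ≤ 2 log (2+n/W). C4 = 45 d₀ + 30 log K₀.
-/

namespace H53M

open PowerSeries

theorem SA4_maj {d : ℕ} {K : ℝ} (hK : 1 ≤ K) {f g h k : PowerSeries ℚ} (hf : Maj d K f)
    (hg : Maj d K g) (hh : Maj d K h) (hk : Maj d K k) (a b c e M : ℕ) (hM : a + b + c + e ≤ M) :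
    Maj (M * d) (K ^ M) (f ^ a * g ^ b * h ^ c * k ^ e) := by
  have hK0 : 0 ≤ K := by linarith
  have h1 := Maj_mul (mul_nonneg (mul_nonneg (pow_nonneg hK0 a) (pow_nonneg hK0 b))
    (pow_nonneg hK0 c)) (Maj_mul (mul_nonneg (pow_nonneg hK0 a) (pow_nonneg hK0 b))
    (Maj_mul (pow_nonneg hK0 a) (Maj_pow hK0 hf a) (Maj_pow hK0 hg b)) (Maj_pow hK0 hh c))
    (Maj_pow hK0 hk e)
  rw [← pow_add, ← pow_add, ← pow_add, ← add_mul, ← add_mul, ← add_mul] at h1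
  exact Maj_mono (pow_nonneg hK0 _) (Nat.mul_le_mul_right d hM) (pow_le_pow_right₀ hK hM) h1

theorem Ft_bound (w' A : ℕ) (hA : 1 ≤ A) (h : PowerSeries ℚ) (C : ℝ) (κ : ℕ)
    (hC : ∀ n, |((coeff n h : ℚ) : ℝ)| ≤ C * ((n : ℝ) + 1) ^ κ) :
    ∃ C4 : ℝ, 0 < C4 ∧ ∀ B W : ℕ, 1 ≤ B → B ≤ W → ∀ t ∈ Idx w' A B W, ∀ n : ℕ,
      |((coeff n (Ft w' W h t) : ℚ) : ℝ)| ≤
        Real.exp (C4 * W * Real.log (2 + (n : ℝ) / W)) := by
  obtain ⟨d, K, hd, hK, h2, h4, hdl⟩ := Maj_e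
  have hC0 : 0 ≤ C := by
    have h1 := (abs_nonneg _).trans (hC 0)
    simpa using h1
  have hh := Maj_base hC0 hC
  obtain ⟨d0, hd0⟩ : ∃ d0 : ℕ, d0 = d + (κ + 1) := ⟨_, rfl⟩
  obtain ⟨K0, hK0⟩ : ∃ K0 : ℝ, K0 = K + C * (κ.factorial : ℝ) := ⟨_, rfl⟩
  have hCf : 0 ≤ C * (κ.factorial : ℝ) := by positivity
  have hK01 : 1 ≤ K0 := by rw [hK0]; linarith
  have e2' : Maj d0 K0 (toQ e2) := Maj_mono (by linarith) (by omega) (by rw [hK0]; linarith) h2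
  have e4' : Maj d0 K0 (toQ e4) := Maj_mono (by linarith) (by omega) (by rw [hK0]; linarith) h4
  have edl' : Maj d0 K0 (toQ dl) := Maj_mono (by linarith) (by omega) (by rw [hK0]; linarith) hdl
  have eh' : Maj d0 K0 h := Maj_mono hCf (by omega) (by rw [hK0]; linarith) hh
  have hd01 : 1 ≤ d0 := by omega
  have hd01' : (1 : ℝ) ≤ d0 := by exact_mod_cast hd01
  have hlK : 0 ≤ Real.log K0 := Real.log_nonneg hK01
  refine ⟨45 * d0 + 30 * Real.log K0, by linarith, fun B W hB hBW t ht n => ?_⟩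
  have hW : 1 ≤ W := hB.trans hBW
  obtain ⟨b1, b2, b3, b4⟩ := Idx_le_B hA ht
  have hmaj : Maj (15 * W * d0) (K0 ^ (15 * W)) (Ft w' W h t) := by
    unfold Ft
    rw [map_mul, map_mul, map_pow, map_pow, map_pow]
    exact SA4_maj hK01 edl' e4' e2' eh' _ _ _ _ _ (by omega)
  refine (hmaj n).trans ?_
  have h5 : 15 * W * d0 = (15 * d0) * W := by ring
  rw [h5]
  have h6 := m_le_exp (15 * d0) W n (by omega) hW
  have h7 : K0 ^ (15 * W) ≤ Real.exp (30 * Real.log K0 * W * Real.log (2 + (n : ℝ) / W)) := by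
    have h8 : K0 ^ (15 * W) = Real.exp (((15 * W : ℕ) : ℝ) * Real.log K0) := by
      rw [Real.exp_nat_mul, Real.exp_log (by linarith)]
    rw [h8]
    apply Real.exp_le_exp.2
    have h9 := SA2_log ((n : ℝ) / W) (by positivity)
    push_cast
    have h10 : 0 ≤ 15 * (W : ℝ) * Real.log K0 := by positivity
    nlinarith
  calc K0 ^ (15 * W) * coeff n ((invOneSubPow ℝ (15 * d0 * W)).val)
      ≤ Real.exp (30 * Real.log K0 * W * Real.log (2 + (n : ℝ) / W)) *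
        Real.exp (3 * ((15 * d0 : ℕ) : ℝ) * W * Real.log (2 + (n : ℝ) / W)) :=
        mul_le_mul h7 h6 (m_nonneg _ _) (Real.exp_pos _).le
    _ = _ := by
        rw [← Real.exp_add]
        congr 1
        push_cast
        ring

end H53M
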