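import Pool.Agent.Lib.H53M.S0

/-!
# H53M, chunk SC: integrality of D(n)^(6B) times the coefficients

Size S/M.

PROOF. Say that f is (E, n)-integral if for all m ≤ n, (E : ℚ) * coeff m f is an integer.
Integral series are (1, n)-integral; if f is (E,n)-integral and g is (E',n)-integral then f g is
(E E', n)-integral (antidiagonal sum). h is (D n, n)-integral since D m ∣ D n for m ≤ n
(`Nat.le_induction`). So h^(6j) is ((D n)^(6j), n)-integral, and (D n)^(6j) ∣ (D n)^(6B).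
-/

namespace H53M

open PowerSeries

/-- `(E, n)`-integrality. -/
def SC_I (E : ℕ) (n : ℕ) (f : PowerSeries ℚ) : Prop :=
  ∀ m ≤ n, ∃ z : ℤ, (E : ℚ) * coeff m f = z

theorem SC_mul {E E' n : ℕ} {f g : PowerSeries ℚ} (hf : SC_I E n f) (hg : SC_I E' n g) :
    SC_I (E * E') n (f * g) := by
  intro m hm
  rw [coeff_mul]
  have h1 : ∀ p : ℕ × ℕ, p ∈ Finset.HasAntidiagonal.antidiagonal m →
      ∃ z : ℤ, ((E * E' : ℕ) : ℚ) * (coeff p.1 f * coeff p.2 g) = z := by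
    intro p hp
    have hp' := Finset.HasAntidiagonal.mem_antidiagonal.1 hp
    obtain ⟨a, ha⟩ := hf p.1 (by omega)
    obtain ⟨b, hb⟩ := hg p.2 (by omega)
    exact ⟨a * b, by push_cast; rw [← ha, ← hb]; ring⟩
  choose! z hz using h1
  refine ⟨∑ p ∈ Finset.HasAntidiagonal.antidiagonal m, z p, ?_⟩
  rw [Finset.mul_sum]
  push_cast
  refine Finset.sum_congr rfl fun p hp => ?_
  have := hz p hp
  push_cast at this
  exact this

theorem SC_toQ (n : ℕ) (f : PowerSeries ℤ) : SC_I 1 n (toQ f) := by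
  intro m _
  exact ⟨coeff m f, by simp⟩

theorem SC_one (n : ℕ) : SC_I 1 n (1 : PowerSeries ℚ) := by
  have h := SC_toQ n 1
  rwa [map_one] at h

theorem SC_pow {E n : ℕ} {f : PowerSeries ℚ} (hf : SC_I E n f) (k : ℕ) :
    SC_I (E ^ k) n (f ^ k) := by
  induction k with
  | zero => simpa using SC_one n
  | succ k ih => rw [pow_succ, pow_succ]; exact SC_mul ih hf

theorem SC_dvd {E E' n : ℕ} {f : PowerSeries ℚ} (hd : E ∣ E') (hf : SC_I E n f) :
    SC_I E' n f := by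
  intro m hm
  obtain ⟨c, rfl⟩ := hd
  obtain ⟨z, hz⟩ := hf m hm
  refine ⟨c * z, ?_⟩
  push_cast
  rw [← hz]
  ring

theorem SC_D (D : ℕ → ℕ) (hDd : ∀ n, D n ∣ D (n + 1)) {m n : ℕ} (hm : m ≤ n) : D m ∣ D n := by
  induction n, hm using Nat.le_induction with
  | base => exact dvd_refl _
  | succ k _ ih => exact ih.trans (hDd k)

theorem Ft_int (w' A B W : ℕ) (hA : 1 ≤ A) (h : PowerSeries ℚ) (D : ℕ → ℕ)
    (hDd : ∀ n, D n ∣ D (n + 1)) (hDh : ∀ n, ∃ z : ℤ, (D n : ℚ) * coeff n h = z)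
    (t : ℕ × ℕ × ℕ) (ht : t ∈ Idx w' A B W) (n m : ℕ) (hm : m ≤ n) :
    ∃ z : ℤ, ((D n : ℚ)) ^ (6 * B) * coeff m (Ft w' W h t) = z := by
  have hh : SC_I (D n) n h := by
    intro k hk
    obtain ⟨z, hz⟩ := hDh k
    obtain ⟨c, hc⟩ := SC_D D hDd hk
    refine ⟨c * z, ?_⟩
    rw [hc]
    push_cast
    rw [← hz]
    ring
  have hj : t.2.1 ≤ B := (Idx_le_B hA ht).2.1
  have h1 : SC_I (1 * (D n) ^ (6 * t.2.1)) n (Ft w' W h t) :=
    SC_mul (SC_toQ n _) (SC_pow hh _)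
  have h2 : SC_I ((D n) ^ (6 * B)) n (Ft w' W h t) := by
    refine SC_dvd ?_ h1
    rw [one_mul]
    exact pow_dvd_pow _ (by omega)
  obtain ⟨z, hz⟩ := h2 m hm
  refine ⟨z, ?_⟩
  rw [← hz]
  push_cast
  ring

end H53M
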