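import Mathlib

/-!
# H53M, chunk SG: the numerical contradiction

Size M, real analysis. `D` is any sequence of positive naturals with log D(n) = o(n).

PROOF. Put y = N/W. Since N ≥ U/2 - 1 (N ≥ U/2 as natural division) and U ≥ B² W/(8A), we have
N ≥ B² W/(16 A) - 1 ≥ B² W/(32 A) if B² W ≥ 32 A, so y ≥ y₀ := B²/(32 A).
Choice of B: log(2+y)/√y → 0 (y → ∞), so there is Y₀ ≥ 2 with 2 C4 log(2+y)/√y ≤
c0/(4 √(32 A)) for y ≥ Y₀; take B with B²/(32A) ≥ Y₀. Then for y ≥ y₀ = B²/(32A), √y ≥ B/√(32A), so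
  2 C4 W log(2+y) = 2 C4 N log(2+y)/y ≤ N (c0/(4√(32A))) / √y ≤ c0 N/(4B).
y ≥ 2: N - W ≥ N/2, so the natural quotient X = 2(N-W)/B satisfies X ≥ 2(N-W)/B - 1 ≥ N/B - 1
(real), c0 X ≥ c0 N/B - c0, and c0 ≤ c0 N/(8B) once N ≥ 8B.
Choice of W (B is fixed), all conditions hold for W large, since N ≥ B² W/(32A):
  2 log U ≤ 4 log(B+1) + 2 log(W+1) ≤ c0 N/(8B) (log(W+1) = o(W));
  12 B log D(N) ≤ c0 N/(8B) if N ≥ N₀ with log D(n) ≤ (c0/(96 B²)) n for n ≥ N₀;
  N ≥ 8B; X ≥ X₀; U ≥ 2; B ≤ W; 2(1+w')B ≤ W.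
Total: left side ≤ (1/8 + 1/8 + 1/4) c0 N/B < (7/8) c0 N/B ≤ c0 X.
-/

namespace H53M

open Filter

theorem SG_log (c : ℝ) (hc : 0 < c) : ∃ Y₀ : ℝ, 2 ≤ Y₀ ∧ ∀ y ≥ Y₀,
    Real.log (2 + y) ≤ c * Real.sqrt y := by
  have h1 := (isLittleO_log_rpow_atTop (r := 1 / 2) (by norm_num)).bound
    (show (0 : ℝ) < c / 2 by positivity)
  have h2 : Tendsto (fun y : ℝ ↦ 2 + y) atTop atTop := tendsto_atTop_add_const_left _ _ tendsto_id
  have h3 := h2.eventually h1
  obtain ⟨Y, hY⟩ := eventually_atTop.1 h3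
  refine ⟨max Y 2, le_max_right _ _, fun y hy ↦ ?_⟩
  have hy1 : Y ≤ y := (le_max_left _ _).trans hy
  have hy2 : 2 ≤ y := (le_max_right _ _).trans hy
  have h4 := hY y hy1
  rw [← Real.sqrt_eq_rpow, Real.norm_eq_abs, Real.norm_eq_abs,
    abs_of_nonneg (Real.sqrt_nonneg _)] at h4
  have h5 : Real.sqrt (2 + y) ≤ 2 * Real.sqrt y := by
    rw [show (2 : ℝ) * Real.sqrt y = Real.sqrt (4 * y) by
      rw [Real.sqrt_mul (by norm_num), show (4 : ℝ) = 2 ^ 2 by norm_num,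
        Real.sqrt_sq (by norm_num)]]
    exact Real.sqrt_le_sqrt (by linarith)
  calc Real.log (2 + y) ≤ |Real.log (2 + y)| := le_abs_self _
    _ ≤ c / 2 * Real.sqrt (2 + y) := h4
    _ ≤ c / 2 * (2 * Real.sqrt y) := by
      exact mul_le_mul_of_nonneg_left h5 (by positivity)
    _ = c * Real.sqrt y := by ring

theorem SG_W (B c : ℝ) (hc : 0 < c) : ∀ᶠ W : ℕ in atTop,
    4 * Real.log (B + 1) + 2 * Real.log (W + 1) ≤ c * W := by
  obtain ⟨Y, hY2, hY⟩ := SG_log (c / 4) (by positivity)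
  have h1 : ∀ᶠ W : ℕ in atTop, Y ≤ (W : ℝ) :=
    tendsto_natCast_atTop_atTop.eventually_ge_atTop Y
  have h2 : ∀ᶠ W : ℕ in atTop, 8 * Real.log (B + 1) / c ≤ (W : ℝ) :=
    tendsto_natCast_atTop_atTop.eventually_ge_atTop _
  filter_upwards [h1, h2] with W hW1 hW2
  have h3 := hY W hW1
  have hW1' : (1 : ℝ) ≤ W := by linarith
  have h4 : Real.sqrt W ≤ W := by
    rw [Real.sqrt_le_left (by linarith)]
    nlinarith
  have h5 : Real.log (W + 1) ≤ Real.log (2 + W) := Real.log_le_log (by linarith) (by linarith)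
  have h6 : c / 4 * Real.sqrt W ≤ c / 4 * W := mul_le_mul_of_nonneg_left h4 (by positivity)
  have h7 : 4 * Real.log (B + 1) ≤ c / 2 * W := by
    rw [div_le_iff₀ hc] at hW2
    linarith
  linarith

theorem numeric (w' A : ℕ) (hA : 1 ≤ A) (D : ℕ → ℕ) (hD0 : ∀ n, 0 < D n)
    (hDl : ∀ ε : ℝ, 0 < ε → ∃ N₀ : ℕ, ∀ n ≥ N₀, Real.log (D n) ≤ ε * n)
    (c0 C4 : ℝ) (hc0 : 0 < c0) (hC4 : 0 < C4) (X₀ : ℕ) :
    ∃ B W : ℕ, 1 ≤ B ∧ B ≤ W ∧ 2 * (1 + w') * B ≤ W ∧
      ∀ U : ℕ, (B : ℝ) ^ 2 * W / (8 * A) ≤ (U : ℝ) → U ≤ (B + 1) ^ 2 * (W + 1) →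
        2 ≤ U ∧ ∀ N : ℕ, U / 2 ≤ N →
          X₀ ≤ 2 * (N - W) / B ∧
          2 * Real.log U + 12 * B * Real.log (D N) +
            2 * C4 * W * Real.log (2 + (N : ℝ) / W) < c0 * ((2 * (N - W) / B : ℕ) : ℝ) := by
  have hA' : (1 : ℝ) ≤ A := by exact_mod_cast hA
  have hA0 : (0 : ℝ) < A := by linarith
  set s : ℝ := Real.sqrt (32 * A) with hs
  have hs0 : 0 < s := Real.sqrt_pos.2 (by positivity)
  have hs2 : s ^ 2 = 32 * A := Real.sq_sqrt (by positivity)
  obtain ⟨Y₀, hY2, hY⟩ := SG_log (c0 / (8 * C4 * s)) (by positivity)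
  -- choice of `B`
  obtain ⟨B, hB⟩ := exists_nat_ge (max 1 (32 * A * Y₀))
  have hB1 : (1 : ℝ) ≤ B := (le_max_left _ _).trans hB
  have hB0 : (0 : ℝ) < B := by linarith
  have hB1' : 1 ≤ B := by exact_mod_cast hB1
  have hBY : 32 * A * Y₀ ≤ (B : ℝ) ^ 2 := by
    have h1 : 32 * A * Y₀ ≤ (B : ℝ) := (le_max_right _ _).trans hB
    nlinarith
  obtain ⟨N₀, hN₀⟩ := hDl (c0 / (96 * B ^ 2)) (by positivity)
  -- choice of `W`
  have e1 := SG_W B (c0 * B / (256 * A)) (by positivity)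
  have e2 : ∀ᶠ W : ℕ in atTop, max (max (B : ℝ) (2 * (1 + w') * B))
      (max (32 * A * (N₀ + 1)) (32 * A * (B * (X₀ + 1) + 2 * B + 1))) ≤ (W : ℝ) :=
    tendsto_natCast_atTop_atTop.eventually_ge_atTop _
  obtain ⟨W, hW1, hW2⟩ := (e1.and e2).exists
  have w1 : (B : ℝ) ≤ W := (le_max_left _ _).trans ((le_max_left _ _).trans hW2)
  have w2 : (2 * (1 + w') * B : ℝ) ≤ W := (le_max_right _ _).trans ((le_max_left _ _).trans hW2)
  have w3 : 32 * A * ((N₀ : ℝ) + 1) ≤ W := (le_max_left _ _).trans ((le_max_right _ _).trans hW2)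
  have w4 : 32 * A * ((B : ℝ) * (X₀ + 1) + 2 * B + 1) ≤ W :=
    (le_max_right _ _).trans ((le_max_right _ _).trans hW2)
  have hW0 : (0 : ℝ) < W := by linarith
  have hBsq : (1 : ℝ) ≤ (B : ℝ) ^ 2 := by nlinarith
  refine ⟨B, W, hB1', by exact_mod_cast w1, by exact_mod_cast w2, fun U hU1 hU2 ↦ ?_⟩
  have hBW : (W : ℝ) ≤ (B : ℝ) ^ 2 * W := by nlinarith
  have hU1' : (B : ℝ) ^ 2 * W ≤ U * (8 * A) := by
    rwa [div_le_iff₀ (by positivity)] at hU1
  have hX0 : (0 : ℝ) ≤ X₀ := Nat.cast_nonneg _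
  have hN0' : (0 : ℝ) ≤ N₀ := Nat.cast_nonneg _
  have hU4 : (4 : ℝ) ≤ U := by
    have h1 : 32 * (A : ℝ) ≤ U * (8 * A) := by nlinarith
    nlinarith
  refine ⟨?_, fun N hN ↦ ?_⟩
  · have : (2 : ℝ) ≤ U := by linarith
    exact_mod_cast this
  have hNU : (U : ℝ) ≤ 2 * N + 1 := by
    have : U ≤ 2 * N + 1 := by omega
    exact_mod_cast this
  -- lower bound for `N`
  have hNlow : (B : ℝ) ^ 2 * W ≤ 32 * A * N := by
    have h1 : U * (8 * A : ℝ) ≤ (2 * N + 1) * (8 * A) :=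
      mul_le_mul_of_nonneg_right hNU (by positivity)
    have h2 : (1.5 : ℝ) ≤ N := by linarith
    nlinarith
  have hN_W : (W : ℝ) * Y₀ ≤ N := by
    have h1 : 32 * A * Y₀ * W ≤ 32 * A * N := (mul_le_mul_of_nonneg_right hBY hW0.le).trans hNlow
    have h2 : (32 * A : ℝ) * (W * Y₀) ≤ 32 * A * N := by linarith
    exact le_of_mul_le_mul_left h2 (by positivity)
  have hN2W : 2 * (W : ℝ) ≤ N := by nlinarith
  have hWN : W ≤ N := by
    have : (W : ℝ) ≤ N := by linarith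
    exact_mod_cast this
  have hN3 : (N₀ : ℝ) ≤ N := by
    have h1 : 32 * A * ((N₀ : ℝ) + 1) ≤ 32 * A * N := w3.trans (hBW.trans hNlow)
    have h2 := le_of_mul_le_mul_left h1 (by positivity)
    linarith
  have hN4 : (B : ℝ) * (X₀ + 1) + 2 * B + 1 ≤ N := by
    have h1 := w4.trans (hBW.trans hNlow)
    exact le_of_mul_le_mul_left h1 (by positivity)
  have hNpos : (0 : ℝ) < N := by nlinarith
  -- the natural quotient
  set X : ℕ := 2 * (N - W) / B with hX
  have hXr : (N : ℝ) / B - 1 ≤ X := by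
    have h1 := Nat.div_add_mod (2 * (N - W)) B
    have h2 := Nat.mod_lt (2 * (N - W)) (show 0 < B from hB1')
    have h3 : 2 * (N - W) < B * X + B := by
      rw [hX]
      omega
    have h4 : (2 * ((N : ℝ) - W)) < B * X + B := by
      have h5 : ((2 * (N - W) : ℕ) : ℝ) < ((B * X + B : ℕ) : ℝ) := by exact_mod_cast h3
      push_cast [Nat.cast_sub hWN] at h5
      exact h5
    rw [sub_le_iff_le_add, div_le_iff₀ hB0]
    linarith
  have hXB : (N : ℝ) - B ≤ B * X := by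
    have h1 : B * ((N : ℝ) / B - 1) ≤ B * X := mul_le_mul_of_nonneg_left hXr hB0.le
    have h2 : B * ((N : ℝ) / B - 1) = N - B := by
      field_simp
    linarith
  constructor
  · have h1 : (B : ℝ) * X₀ ≤ B * X := by linarith
    have h2 := le_of_mul_le_mul_left h1 hB0
    exact_mod_cast h2
  -- the three terms
  have t1 : 2 * Real.log U ≤ c0 * N / (8 * B) := by
    have h1 : Real.log U ≤ 2 * Real.log (B + 1) + Real.log (W + 1) := by
      have h2 : (U : ℝ) ≤ ((B : ℝ) + 1) ^ 2 * (W + 1) := by exact_mod_cast hU2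
      calc Real.log U ≤ Real.log (((B : ℝ) + 1) ^ 2 * (W + 1)) :=
            Real.log_le_log (by linarith) h2
        _ = 2 * Real.log (B + 1) + Real.log (W + 1) := by
          rw [Real.log_mul (by positivity) (by positivity), Real.log_pow]
          norm_num
    have h3 : 2 * Real.log U ≤ c0 * B / (256 * A) * W := by linarith
    have h4 : c0 * B / (256 * A) * W ≤ c0 * N / (8 * B) := by
      rw [div_mul_eq_mul_div, div_le_div_iff₀ (by positivity) (by positivity)]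
      have h5 : c0 * 8 * ((B : ℝ) ^ 2 * W) ≤ c0 * 8 * (32 * A * N) :=
        mul_le_mul_of_nonneg_left hNlow (by positivity)
      nlinarith
    linarith
  have t2 : 12 * B * Real.log (D N) ≤ c0 * N / (8 * B) := by
    have h1 := hN₀ N (by exact_mod_cast hN3)
    have h2 : 12 * B * Real.log (D N) ≤ 12 * B * (c0 / (96 * B ^ 2) * N) :=
      mul_le_mul_of_nonneg_left h1 (by positivity)
    have h3 : 12 * B * (c0 / (96 * B ^ 2) * N) = c0 * N / (8 * B) := by
      field_simp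
      ring
    linarith
  have t3 : 2 * C4 * W * Real.log (2 + (N : ℝ) / W) ≤ c0 * N / (4 * B) := by
    set y : ℝ := (N : ℝ) / W with hy
    have hyY : Y₀ ≤ y := by
      rw [hy, le_div_iff₀ hW0]
      linarith
    have hy0 : 0 < y := by positivity
    have h1 := hY y hyY
    have hNy : (N : ℝ) = W * y := by
      rw [hy]
      field_simp
    have h2 : (B : ℝ) ≤ s * Real.sqrt y := by
      rw [hs, ← Real.sqrt_mul (by positivity)]
      apply Real.le_sqrt_of_sq_le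
      have h3 : (B : ℝ) ^ 2 * W ≤ 32 * A * (W * y) := by rw [← hNy]; exact hNlow
      have h4 : W * (B : ℝ) ^ 2 ≤ W * (32 * A * y) := by linarith
      exact le_of_mul_le_mul_left h4 hW0
    have h3 : 2 * C4 * W * Real.log (2 + y) ≤ 2 * C4 * W * (c0 / (8 * C4 * s) * Real.sqrt y) :=
      mul_le_mul_of_nonneg_left h1 (by positivity)
    have h4 : 2 * C4 * W * (c0 / (8 * C4 * s) * Real.sqrt y) = c0 * W * Real.sqrt y / (4 * s) := by
      field_simp
      ring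
    have h5 : c0 * W * Real.sqrt y / (4 * s) ≤ c0 * N / (4 * B) := by
      rw [div_le_div_iff₀ (by positivity) (by positivity), hNy]
      have h6 : Real.sqrt y * B ≤ s * y := by
        have h7 : Real.sqrt y * B ≤ Real.sqrt y * (s * Real.sqrt y) :=
          mul_le_mul_of_nonneg_left h2 (Real.sqrt_nonneg _)
        have h8 : Real.sqrt y * (s * Real.sqrt y) = s * y := by
          rw [mul_left_comm, Real.mul_self_sqrt hy0.le]
        linarith
      have h9 : c0 * W * 4 * (Real.sqrt y * B) ≤ c0 * W * 4 * (s * y) :=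
        mul_le_mul_of_nonneg_left h6 (by positivity)
      nlinarith
    linarith
  have hfin : c0 * N / (8 * B) + c0 * N / (8 * B) + c0 * N / (4 * B) = c0 * N / (2 * B) := by
    field_simp
    ring
  have hlast : c0 * N / (2 * B) < c0 * X := by
    rw [div_lt_iff₀ (by positivity)]
    have h1 : c0 * (2 * ((N : ℝ) - B)) ≤ c0 * (2 * (B * X)) :=
      mul_le_mul_of_nonneg_left (by linarith) hc0.le
    have h2 : (N : ℝ) < 2 * (N - B) := by nlinarith
    have h3 : c0 * N < c0 * (2 * ((N : ℝ) - B)) := mul_lt_mul_of_pos_left h2 hc0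
    linarith
  linarith

end H53M
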