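import Pool.Agent.Lib.H53M.K0

/-!
# H53M, chunk KMF (size M): a q-series with `f(-1/z) = z^w f(z)` is a Mathlib modular form

Let `F τ = ev f τ` on `ℍ`.
* slash invariance: `𝒮ℒ` is generated by `S` and `T` (`SpecialLinearGroup.SL2Z_generators`; see also
  `Mathlib/NumberTheory/ModularForms/Identities.lean`, and the proof of
  `EisensteinSeries.G2_slash_action`); `T`: the `q`-series is invariant under `z ↦ z + 1`; `S`:
  `SlashInvariantForm.slash_S_apply`, `modular_S_smul` (`S • τ = -1/τ = -τ⁻¹`), hypothesis.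
* holomorphy: `MDifferentiable` iff differentiable on the upper half plane
  (`UpperHalfPlane.mdifferentiable_iff`), and `F z = P(e(z))` with the power series `P` of radius
  `≥ 1` (or `differentiableOn_tsum_of_summable_norm` on `Im z > ε`).
* bounded at the cusps: `isBoundedAtImInfty_of_hasSum_qExpansion`, and
  `OnePoint.isBoundedAt_iff_forall_SL2Z` with slash invariance.
* `qExpansion 1 F = f`: uniqueness lemma at the end of `ModularForms/QExpansion.lean`
  (`qExpansion_coeff_unique` or similar).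
-/

namespace H53M

open PowerSeries UpperHalfPlane ModularForm
open scoped MatrixGroups ModularForm

theorem KMF_norm (f : PowerSeries ℂ) (n : ℕ) (z : ℂ) :
    ‖PowerSeries.coeff n f * Complex.exp (2 * Real.pi * Complex.I * (n * z))‖ =
      ‖PowerSeries.coeff n f‖ * Real.exp (-(2 * Real.pi * (n * z.im))) := by
  rw [norm_mul, Complex.norm_exp]
  congr 2
  simp [Complex.mul_re, Complex.mul_im]

theorem KMF_diff (f : PowerSeries ℂ) (hf : Cv f) : DifferentiableOn ℂ (ev f) {z | 0 < z.im} := by
  intro z hz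
  have hz' : 0 < z.im := hz
  set ε : ℝ := z.im / 2 with hε
  have hε0 : 0 < ε := half_pos hz'
  have hε1 : ε < z.im := half_lt_self hz'
  have hU : IsOpen {w : ℂ | ε < w.im} := isOpen_lt continuous_const Complex.continuous_im
  have h := Complex.differentiableOn_tsum_of_summable_norm
    (F := fun (n : ℕ) (w : ℂ) =>
      PowerSeries.coeff n f * Complex.exp (2 * Real.pi * Complex.I * (n * w)))
    (hf ((ε : ℂ) * Complex.I) (by simpa using hε0))
    (U := {w : ℂ | ε < w.im})
    (fun n => by
      refine Differentiable.differentiableOn ?_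
      fun_prop) hU
    (fun n w hw => by
      rw [KMF_norm, KMF_norm]
      refine mul_le_mul_of_nonneg_left ?_ (norm_nonneg _)
      rw [Real.exp_le_exp]
      have h1 : ε ≤ w.im := le_of_lt hw
      have h2 : (n : ℝ) * ε ≤ n * w.im := mul_le_mul_of_nonneg_left h1 (Nat.cast_nonneg n)
      have h3 : ((ε : ℂ) * Complex.I).im = ε := by simp
      rw [h3]
      have h4 : 0 < 2 * Real.pi := by positivity
      nlinarith [mul_le_mul_of_nonneg_left h2 h4.le])
  exact (h.differentiableAt (hU.mem_nhds hε1)).differentiableWithinAt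

theorem KMF_add_one (f : PowerSeries ℂ) (z : ℂ) : ev f (z + 1) = ev f z := by
  unfold ev
  refine tsum_congr fun n => ?_
  congr 1
  rw [show (2 : ℂ) * Real.pi * Complex.I * (n * (z + 1)) =
    2 * Real.pi * Complex.I * (n * z) + n * (2 * Real.pi * Complex.I) by ring, Complex.exp_add,
    Complex.exp_nat_mul_two_pi_mul_I, mul_one]

theorem KMF_hasSum (f : PowerSeries ℂ) (hf : Cv f) (τ : ℍ) :
    HasSum (fun m : ℕ => (PowerSeries.coeff m f) • Function.Periodic.qParam 1 τ ^ m)
      (ev f (τ : ℂ)) := by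
  have h := (hf τ τ.im_pos).of_norm.hasSum
  refine h.congr_fun ?_
  intro m
  rw [smul_eq_mul, Function.Periodic.qParam, ← Complex.exp_nat_mul]
  congr 2
  push_cast
  ring

set_option backward.isDefEq.respectTransparency.types false in
theorem KMF_T (f : PowerSeries ℂ) (w : ℕ) :
    (fun τ : ℍ => ev f (τ : ℂ)) ∣[(w : ℤ)] ModularGroup.T = fun τ : ℍ => ev f (τ : ℂ) := by
  ext z
  rw [ModularForm.SL_slash_apply, denom, modular_T_smul, ModularGroup.T]
  have h1 := KMF_add_one f (z : ℂ)
  simp only [coe_vadd]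
  rw [add_comm] at h1
  simp [h1]

theorem KMF (f : PowerSeries ℂ) (hf : Cv f) (w : ℕ)
    (h : ∀ z : ℂ, 0 < z.im → ev f (-1 / z) = z ^ w * ev f z) :
    ∃ F : ModularForm 𝒮ℒ (w : ℤ), qExpansion 1 F = f := by
  have hS : (fun τ : ℍ => ev f (τ : ℂ)) ∣[(w : ℤ)] ModularGroup.S = fun τ : ℍ => ev f (τ : ℂ) := by
    ext z
    rw [SlashInvariantForm.slash_S_apply]
    have h1 := h z z.im_pos
    have h2 : ((UpperHalfPlane.mk _ z.im_inv_neg_coe_pos : ℍ) : ℂ) = -1 / (z : ℂ) := by
      simp [neg_div]
    rw [h2, h1, zpow_neg, zpow_natCast]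
    have h3 : (z : ℂ) ^ w ≠ 0 := pow_ne_zero _ z.ne_zero
    field_simp
  have hT := KMF_T f w
  have hinv := SlashInvariantForm.slash_action_generators_SL2Z hS hT
  have hbdd : IsBoundedAtImInfty (fun τ : ℍ => ev f (τ : ℂ)) :=
    isBoundedAtImInfty_of_hasSum_qExpansion one_pos (KMF_hasSum f hf)
  let F : ModularForm 𝒮ℒ (w : ℤ) :=
    { toFun := fun τ : ℍ => ev f (τ : ℂ)
      slash_action_eq' := by
        rintro A ⟨A, rfl⟩
        exact hinv A
      holo' := by
        rw [UpperHalfPlane.mdifferentiable_iff]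
        refine (KMF_diff f hf).congr fun z hz => ?_
        simp [ofComplex_apply_of_im_pos hz]
      bdd_at_cusps' := by
        intro c hc
        rw [Subgroup.IsArithmetic.isCusp_iff_isCusp_SL2Z] at hc
        rw [OnePoint.isBoundedAt_iff_forall_SL2Z hc]
        intro γ _
        have h1 : (fun τ : ℍ => ev f (τ : ℂ)) ∣[(w : ℤ)] γ = fun τ : ℍ => ev f (τ : ℂ) := hinv γ
        change IsBoundedAtImInfty ((fun τ : ℍ => ev f (τ : ℂ)) ∣[(w : ℤ)] γ)
        rw [h1]
        exact hbdd }
  refine ⟨F, ?_⟩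
  ext m
  refine (ModularFormClass.qExpansion_coeff_unique (F := ModularForm 𝒮ℒ (w : ℤ)) (k := (w : ℤ))
    one_pos one_mem_strictPeriods_SL (f := F) (c := fun m => PowerSeries.coeff m f)
    (fun τ => KMF_hasSum f hf τ) m).symm

end H53M
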