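import Pool.Agent.Lib.H53M.Defs

/-!
# H53M, chunk Q4C: p-integral rational power series and their reduction

Size S/M, elementary.

PROOF. The rationals a with ¬ p ∣ a.den form a subring, on which the cast to `ZMod p` is a ring
homomorphism: `Rat.cast_add_of_ne_zero`, `Rat.cast_mul_of_ne_zero` (the denominators are nonzero
in `ZMod p` : `ZMod.natCast_eq_zero_iff`), `Rat.add_den_dvd`, `Rat.mul_den_dvd`. For sums over
the antidiagonal use a small induction (`Finset.sum_induction`, or prove once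
`Rat.cast` of a Finset sum of p-integral numbers = sum of casts). `redQ_toQ`, `PInt_toQ` : the
denominator of an integer is 1.
-/

namespace H53M

open PowerSeries

/-- `p`-integrality of a rational power series. -/
def PInt (p : ℕ) (h : PowerSeries ℚ) : Prop := ∀ n, ¬ p ∣ (coeff n h).den

theorem Q4C_add {p : ℕ} (hp : p.Prime) {a b : ℚ} (ha : ¬ p ∣ a.den) (hb : ¬ p ∣ b.den) :
    ¬ p ∣ (a + b).den := by
  intro h
  have h2 := h.trans (Rat.add_den_dvd a b)
  rcases hp.dvd_mul.1 h2 with h3 | h3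
  · exact ha h3
  · exact hb h3

theorem Q4C_mul {p : ℕ} (hp : p.Prime) {a b : ℚ} (ha : ¬ p ∣ a.den) (hb : ¬ p ∣ b.den) :
    ¬ p ∣ (a * b).den := by
  intro h
  have h2 := h.trans (Rat.mul_den_dvd a b)
  rcases hp.dvd_mul.1 h2 with h3 | h3
  · exact ha h3
  · exact hb h3

theorem Q4C_zero {p : ℕ} (hp : p.Prime) : ¬ p ∣ (0 : ℚ).den := by
  simp [hp.one_lt.ne']

theorem Q4C_int {p : ℕ} (hp : p.Prime) (z : ℤ) : ¬ p ∣ (z : ℚ).den := by
  rw [Rat.den_intCast]
  simp [hp.one_lt.ne']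

theorem Q4C_den_ne {p : ℕ} {a : ℚ} (ha : ¬ p ∣ a.den) : (a.den : ZMod p) ≠ 0 := by
  rwa [Ne, ZMod.natCast_eq_zero_iff]

theorem Q4C_cast_add {p : ℕ} [Fact p.Prime] {a b : ℚ} (ha : ¬ p ∣ a.den) (hb : ¬ p ∣ b.den) :
    ((a + b : ℚ) : ZMod p) = a + b :=
  Rat.cast_add_of_ne_zero (Q4C_den_ne ha) (Q4C_den_ne hb)

theorem Q4C_cast_mul {p : ℕ} [Fact p.Prime] {a b : ℚ} (ha : ¬ p ∣ a.den) (hb : ¬ p ∣ b.den) :
    ((a * b : ℚ) : ZMod p) = a * b :=
  Rat.cast_mul_of_ne_zero (Q4C_den_ne ha) (Q4C_den_ne hb)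

theorem Q4C_sum {p : ℕ} [hp : Fact p.Prime] {ι : Type*} (s : Finset ι) {f : ι → ℚ}
    (hf : ∀ i ∈ s, ¬ p ∣ (f i).den) : (¬ p ∣ (∑ i ∈ s, f i).den) ∧
      ((∑ i ∈ s, f i : ℚ) : ZMod p) = ∑ i ∈ s, ((f i : ℚ) : ZMod p) := by
  classical
  induction s using Finset.induction_on with
  | empty => exact ⟨by simpa using Q4C_zero hp.out, by simp⟩
  | insert a s ha ih =>
    obtain ⟨h1, h2⟩ := ih fun i hi => hf i (Finset.mem_insert_of_mem hi)
    have h3 := hf a (Finset.mem_insert_self a s)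
    rw [Finset.sum_insert ha, Finset.sum_insert ha]
    exact ⟨Q4C_add hp.out h3 h1, by rw [Q4C_cast_add h3 h1, h2]⟩

theorem PInt_add {p : ℕ} [Fact p.Prime] {f g : PowerSeries ℚ} (hf : PInt p f) (hg : PInt p g) :
    PInt p (f + g) := by
  intro n
  rw [map_add]
  exact Q4C_add Fact.out (hf n) (hg n)

theorem PInt_mul {p : ℕ} [Fact p.Prime] {f g : PowerSeries ℚ} (hf : PInt p f) (hg : PInt p g) :
    PInt p (f * g) := by
  intro n
  rw [coeff_mul]
  exact (Q4C_sum _ fun i _ => Q4C_mul Fact.out (hf i.1) (hg i.2)).1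

theorem PInt_smul {p : ℕ} [Fact p.Prime] {a : ℚ} {f : PowerSeries ℚ} (ha : ¬ p ∣ a.den)
    (hf : PInt p f) : PInt p (a • f) := by
  intro n
  rw [coeff_smul, smul_eq_mul]
  exact Q4C_mul Fact.out ha (hf n)

theorem PInt_toQ {p : ℕ} [Fact p.Prime] (f : PowerSeries ℤ) : PInt p (toQ f) := by
  intro n
  rw [coeff_map]
  exact Q4C_int Fact.out _

theorem redQ_add {p : ℕ} [Fact p.Prime] {f g : PowerSeries ℚ} (hf : PInt p f) (hg : PInt p g) :
    redQ p (f + g) = redQ p f + redQ p g := by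
  ext n
  rw [map_add]
  simp only [redQ, coeff_mk]
  rw [map_add]
  exact Q4C_cast_add (hf n) (hg n)

theorem redQ_mul {p : ℕ} [Fact p.Prime] {f g : PowerSeries ℚ} (hf : PInt p f) (hg : PInt p g) :
    redQ p (f * g) = redQ p f * redQ p g := by
  ext n
  rw [coeff_mul]
  simp only [redQ, coeff_mk]
  rw [coeff_mul, (Q4C_sum _ fun i _ => Q4C_mul Fact.out (hf i.1) (hg i.2)).2]
  exact Finset.sum_congr rfl fun i _ => Q4C_cast_mul (hf i.1) (hg i.2)

theorem redQ_smul {p : ℕ} [Fact p.Prime] {a : ℚ} {f : PowerSeries ℚ} (ha : ¬ p ∣ a.den)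
    (hf : PInt p f) : redQ p (a • f) = (a : ZMod p) • redQ p f := by
  ext n
  rw [coeff_smul, smul_eq_mul]
  simp only [redQ, coeff_mk]
  rw [coeff_smul, smul_eq_mul]
  exact Q4C_cast_mul ha (hf n)

theorem redQ_toQ {p : ℕ} [Fact p.Prime] (f : PowerSeries ℤ) : redQ p (toQ f) = redZ p f := by
  ext n
  simp [redQ]

theorem PInt_sum {p : ℕ} [Fact p.Prime] {ι : Type*} (s : Finset ι) {f : ι → PowerSeries ℚ}
    (hf : ∀ i ∈ s, PInt p (f i)) : PInt p (∑ i ∈ s, f i) := by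
  intro n
  rw [map_sum]
  exact (Q4C_sum _ fun i hi => hf i hi n).1

theorem redQ_sum {p : ℕ} [Fact p.Prime] {ι : Type*} (s : Finset ι) {f : ι → PowerSeries ℚ}
    (hf : ∀ i ∈ s, PInt p (f i)) : redQ p (∑ i ∈ s, f i) = ∑ i ∈ s, redQ p (f i) := by
  ext n
  rw [map_sum]
  simp only [redQ, coeff_mk]
  rw [map_sum]
  exact (Q4C_sum _ fun i hi => hf i hi n).2

theorem Q4C_PInt_one {p : ℕ} [Fact p.Prime] : PInt p (1 : PowerSeries ℚ) := by
  have h := PInt_toQ (p := p) 1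
  simpa using h

theorem PInt_pow {p : ℕ} [Fact p.Prime] {f : PowerSeries ℚ} (hf : PInt p f) (n : ℕ) :
    PInt p (f ^ n) := by
  induction n with
  | zero => simpa using Q4C_PInt_one
  | succ n ih => rw [pow_succ]; exact PInt_mul ih hf

theorem redQ_pow {p : ℕ} [Fact p.Prime] {f : PowerSeries ℚ} (hf : PInt p f) (n : ℕ) :
    redQ p (f ^ n) = redQ p f ^ n := by
  induction n with
  | zero =>
    have h := redQ_toQ (p := p) 1
    simpa using h
  | succ n ih => rw [pow_succ, pow_succ, redQ_mul (PInt_pow hf n) hf, ih]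

end H53M
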