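import Pool.Agent.Lib.H53M.K0

/-!
# H53M, chunk KE2 (size S/M): `E₂`

`EisensteinSeries.hasSum_qExpansion_E2` gives `ev (ktoC (toQ e2)) z = E2 z`; absolute convergence:
a summable family in `ℂ` is absolutely summable (or `|σ₁(n)| ≤ n²`).
Transformation: `EisensteinSeries.G2_S_transform`,
`G2 z = z⁻² G2(S•z) + 2πi/z` and `E2 = G2 / (2ζ(2))`, `2 ζ(2) = π²/3` (`riemannZeta_two`), so
`E2(-1/z) = z² (E2 z - (3/π²) 2πi/z) = z² E2(z) + 12 z/(2πi)`  (`-6i/π = 12/(2πi)`).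
Hence with `e2q = E₂/12`: `ev (ktoC e2q) (-1/z) = z² (ev (ktoC e2q) z + 1/(2πi z))`.
-/

namespace H53M

open UpperHalfPlane EisensteinSeries

theorem KE2_coeff (n : ℕ) : PowerSeries.coeff n (ktoC e2q) =
    (1 / 12 : ℂ) * (if n = 0 then 1 else -24 * (ArithmeticFunction.sigma 1 n : ℂ)) := by
  unfold e2q e2 ktoC toQ
  rw [PowerSeries.coeff_map, PowerSeries.coeff_smul, PowerSeries.coeff_map, PowerSeries.coeff_mk]
  split_ifs with h
  · simp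
  · simp

theorem KE2_hasSum (τ : ℍ) : HasSum (fun n : ℕ => PowerSeries.coeff n (ktoC e2q) *
    Complex.exp (2 * Real.pi * Complex.I * (n * (τ : ℂ)))) ((1 / 12 : ℂ) * E2 τ) := by
  have h := (hasSum_qExpansion_E2 (z := τ)).mul_left (1 / 12 : ℂ)
  refine h.congr_fun fun n => ?_
  rw [KE2_coeff, smul_eq_mul, ← Complex.exp_nat_mul, mul_assoc]
  congr 3
  ring

theorem KE2_Cv : Cv (ktoC e2q) := by
  intro z hz
  exact (KE2_hasSum ⟨z, hz⟩).summable.norm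

theorem KE2_ev (τ : ℍ) : ev (ktoC e2q) (τ : ℂ) = (1 / 12 : ℂ) * E2 τ :=
  (KE2_hasSum τ).tsum_eq

theorem KE2_E2 (τ : ℍ) : E2 (ModularGroup.S • τ) =
    (τ : ℂ) ^ 2 * (E2 τ + 12 * (1 / (2 * Real.pi * Complex.I * τ))) := by
  have h := G2_S_transform τ
  have hτ : (τ : ℂ) ≠ 0 := τ.ne_zero
  have hpi : (Real.pi : ℂ) ≠ 0 := by exact_mod_cast Real.pi_ne_zero
  have h2 : G2 (ModularGroup.S • τ) = (τ : ℂ) ^ 2 * (G2 τ - 2 * Real.pi * Complex.I / τ) := by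
    rw [h]
    field_simp
    ring
  unfold E2
  simp only [Pi.smul_apply, smul_eq_mul]
  rw [h2, riemannZeta_two]
  have hI : Complex.I ≠ 0 := Complex.I_ne_zero
  field_simp
  linear_combination (-12 * (Real.pi : ℂ)) * Complex.I_sq

theorem KE2_trans (z : ℂ) (hz : 0 < z.im) :
    ev (ktoC e2q) (-1 / z) = z ^ 2 * (ev (ktoC e2q) z + 1 / (2 * Real.pi * Complex.I * z)) := by
  have h1 := KE2_ev ⟨z, hz⟩
  have h2 := KE2_ev (ModularGroup.S • (⟨z, hz⟩ : ℍ))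
  rw [KE2_E2] at h2
  rw [modular_S_smul] at h2
  have h3 : ((UpperHalfPlane.mk _ (UpperHalfPlane.im_inv_neg_coe_pos ⟨z, hz⟩) : ℍ) : ℂ) =
      -1 / z := by
    simp [neg_div]
  rw [h3] at h2
  rw [h2]
  change _ = z ^ 2 * (ev (ktoC e2q) ((⟨z, hz⟩ : ℍ) : ℂ) + _)
  rw [h1]
  change (1 / 12 : ℂ) * (z ^ 2 * (_ + 12 * (1 / (2 * Real.pi * Complex.I * z)))) = _
  ring

end H53M
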