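import Pool.Agent.Lib.H53M.K0

/-!
# H53M, chunk KEV (size M): evaluation of convergent q-series is a ring homomorphism

`coeff n f * exp(2πi n z)`: products by
`tsum_mul_tsum_eq_tsum_sum_antidiagonal_of_summable_norm`,
`summable_norm_sum_mul_antidiagonal_of_summable_norm`
(`exp(2πi i z) exp(2πi j z) = exp(2πi (i+j) z)`).
-/

namespace H53M

open PowerSeries

theorem KEV_exp (z : ℂ) (i j : ℕ) :
    Complex.exp (2 * Real.pi * Complex.I * (i * z)) * Complex.exp (2 * Real.pi * Complex.I * (j * z))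
      = Complex.exp (2 * Real.pi * Complex.I * (((i + j : ℕ) : ℂ) * z)) := by
  rw [← Complex.exp_add]
  congr 1
  push_cast
  ring

theorem KEV_coeff (f g : PowerSeries ℂ) (z : ℂ) (n : ℕ) :
    PowerSeries.coeff n (f * g) * Complex.exp (2 * Real.pi * Complex.I * (n * z)) =
      ∑ kl ∈ Finset.HasAntidiagonal.antidiagonal n,
        (PowerSeries.coeff kl.1 f * Complex.exp (2 * Real.pi * Complex.I * (kl.1 * z))) *
        (PowerSeries.coeff kl.2 g * Complex.exp (2 * Real.pi * Complex.I * (kl.2 * z))) := by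
  rw [PowerSeries.coeff_mul, Finset.sum_mul]
  refine Finset.sum_congr rfl fun kl hkl => ?_
  rw [Finset.HasAntidiagonal.mem_antidiagonal] at hkl
  rw [← hkl, ← KEV_exp]
  ring

theorem KEV_one (n : ℕ) (z : ℂ) :
    PowerSeries.coeff n (1 : PowerSeries ℂ) * Complex.exp (2 * Real.pi * Complex.I * (n * z)) =
      if n = 0 then 1 else 0 := by
  rw [PowerSeries.coeff_one]
  split_ifs with h
  · subst h
    simp
  · simp

theorem Cv_zero : Cv 0 := by
  intro z _
  simp only [map_zero, zero_mul, norm_zero]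
  exact summable_zero

theorem Cv_one : Cv 1 := by
  intro z _
  refine summable_of_ne_finset_zero (s := {0}) fun n hn => ?_
  rw [KEV_one, if_neg (by simpa using hn), norm_zero]

theorem Cv_add {f g : PowerSeries ℂ} (hf : Cv f) (hg : Cv g) : Cv (f + g) := by
  intro z hz
  refine Summable.of_nonneg_of_le (fun _ => norm_nonneg _) (fun n => ?_) ((hf z hz).add (hg z hz))
  rw [map_add, add_mul]
  exact norm_add_le _ _

theorem Cv_mul {f g : PowerSeries ℂ} (hf : Cv f) (hg : Cv g) : Cv (f * g) := by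
  intro z hz
  have h := summable_norm_sum_mul_antidiagonal_of_summable_norm (hf z hz) (hg z hz)
  exact h.congr fun n => by rw [KEV_coeff]

theorem Cv_smul (r : ℂ) {f : PowerSeries ℂ} (hf : Cv f) : Cv (r • f) := by
  intro z hz
  refine ((hf z hz).mul_left ‖r‖).congr fun n => ?_
  rw [PowerSeries.coeff_smul, smul_eq_mul, ← norm_mul]
  congr 1
  ring

theorem Cv_neg {f : PowerSeries ℂ} (hf : Cv f) : Cv (-f) := by
  intro z hz
  refine (hf z hz).congr fun n => ?_
  rw [map_neg, neg_mul, norm_neg]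

theorem Cv_natCast (n : ℕ) : Cv (n : PowerSeries ℂ) := by
  induction n with
  | zero =>
    rw [Nat.cast_zero]
    exact Cv_zero
  | succ n ih =>
    rw [Nat.cast_succ]
    exact Cv_add ih Cv_one

theorem Cv_pow {f : PowerSeries ℂ} (hf : Cv f) (n : ℕ) : Cv (f ^ n) := by
  induction n with
  | zero =>
    rw [pow_zero]
    exact Cv_one
  | succ n ih =>
    rw [pow_succ]
    exact Cv_mul ih hf

theorem Cv_sum {ι : Type*} (s : Finset ι) (f : ι → PowerSeries ℂ) (h : ∀ i ∈ s, Cv (f i)) :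
    Cv (∑ i ∈ s, f i) := by
  classical
  induction s using Finset.induction_on with
  | empty =>
    rw [Finset.sum_empty]
    exact Cv_zero
  | insert a s ha ih =>
    rw [Finset.sum_insert ha]
    exact Cv_add (h a (Finset.mem_insert_self a s))
      (ih fun i hi => h i (Finset.mem_insert_of_mem hi))

variable {z : ℂ}

theorem ev_zero (hz : 0 < z.im) : ev 0 z = 0 := by
  unfold ev
  simp

theorem ev_one (hz : 0 < z.im) : ev 1 z = 1 := by
  unfold ev
  rw [tsum_eq_single 0]
  · rw [KEV_one, if_pos rfl]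
  · intro n hn
    rw [KEV_one, if_neg hn]

theorem ev_add {f g : PowerSeries ℂ} (hf : Cv f) (hg : Cv g) (hz : 0 < z.im) :
    ev (f + g) z = ev f z + ev g z := by
  unfold ev
  rw [← Summable.tsum_add (hf z hz).of_norm (hg z hz).of_norm]
  refine tsum_congr fun n => ?_
  rw [map_add, add_mul]

theorem ev_mul {f g : PowerSeries ℂ} (hf : Cv f) (hg : Cv g) (hz : 0 < z.im) :
    ev (f * g) z = ev f z * ev g z := by
  unfold ev
  rw [tsum_mul_tsum_eq_tsum_sum_antidiagonal_of_summable_norm (hf z hz) (hg z hz)]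
  exact tsum_congr fun n => KEV_coeff f g z n

theorem ev_smul (r : ℂ) {f : PowerSeries ℂ} (hf : Cv f) (hz : 0 < z.im) :
    ev (r • f) z = r * ev f z := by
  unfold ev
  rw [← tsum_mul_left]
  refine tsum_congr fun n => ?_
  rw [PowerSeries.coeff_smul, smul_eq_mul, mul_assoc]

theorem ev_neg {f : PowerSeries ℂ} (hf : Cv f) (hz : 0 < z.im) : ev (-f) z = -ev f z := by
  unfold ev
  rw [← tsum_neg]
  refine tsum_congr fun n => ?_
  rw [map_neg, neg_mul]

theorem ev_natCast (n : ℕ) (hz : 0 < z.im) : ev (n : PowerSeries ℂ) z = n := by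
  induction n with
  | zero =>
    rw [Nat.cast_zero, Nat.cast_zero]
    exact ev_zero hz
  | succ n ih =>
    rw [Nat.cast_succ, ev_add (Cv_natCast n) Cv_one hz, ih, ev_one hz, Nat.cast_succ]

theorem ev_pow {f : PowerSeries ℂ} (hf : Cv f) (n : ℕ) (hz : 0 < z.im) :
    ev (f ^ n) z = ev f z ^ n := by
  induction n with
  | zero =>
    rw [pow_zero, pow_zero]
    exact ev_one hz
  | succ n ih =>
    rw [pow_succ, pow_succ, ev_mul (Cv_pow hf n) hf hz, ih]

theorem ev_sum {ι : Type*} (s : Finset ι) (f : ι → PowerSeries ℂ) (h : ∀ i ∈ s, Cv (f i))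
    (hz : 0 < z.im) : ev (∑ i ∈ s, f i) z = ∑ i ∈ s, ev (f i) z := by
  classical
  induction s using Finset.induction_on with
  | empty =>
    rw [Finset.sum_empty, Finset.sum_empty]
    exact ev_zero hz
  | insert a s ha ih =>
    rw [Finset.sum_insert ha, Finset.sum_insert ha,
      ev_add (h a (Finset.mem_insert_self a s))
        (Cv_sum s f fun i hi => h i (Finset.mem_insert_of_mem hi)) hz,
      ih fun i hi => h i (Finset.mem_insert_of_mem hi)]

theorem KEV_term {s : PowerSeries ℂ} (hs : Cv s) {t : PowerSeries ℂ}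
    (ht : Cv t) (x y l : ℕ) : Cv ((x : PowerSeries ℂ) * (y : PowerSeries ℂ) * s ^ l * t) :=
  Cv_mul (Cv_mul (Cv_mul (Cv_natCast x) (Cv_natCast y)) (Cv_pow hs l)) ht

theorem Cv_low (k : ℕ) {s : PowerSeries ℂ} (hs : Cv s) {t : ℕ → ℕ → PowerSeries ℂ}
    (ht : ∀ a b, Cv (t a b)) (a b : ℕ) : Cv (low k s t a b) := by
  unfold low
  exact Cv_sum _ _ fun i _ => Cv_sum _ _ fun j _ => KEV_term hs (ht _ _) _ _ _

theorem ev_low (k : ℕ) {s : PowerSeries ℂ} (hs : Cv s) {t : ℕ → ℕ → PowerSeries ℂ}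
    (ht : ∀ a b, Cv (t a b)) (a b : ℕ) (hz : 0 < z.im) :
    ev (low k s t a b) z = low k (ev s z) (fun a' b' => ev (t a' b') z) a b := by
  unfold low
  rw [ev_sum _ _ (fun i _ => Cv_sum _ _ fun j _ => KEV_term hs (ht _ _) _ _ _) hz]
  refine Finset.sum_congr rfl fun i _ => ?_
  rw [ev_sum _ _ (fun j _ => KEV_term hs (ht _ _) _ _ _) hz]
  refine Finset.sum_congr rfl fun j _ => ?_
  rw [ev_mul (Cv_mul (Cv_mul (Cv_natCast _) (Cv_natCast _)) (Cv_pow hs _)) (ht _ _) hz,
    ev_mul (Cv_mul (Cv_natCast _) (Cv_natCast _)) (Cv_pow hs _) hz,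
    ev_mul (Cv_natCast _) (Cv_natCast _) hz, ev_natCast _ hz, ev_natCast _ hz, ev_pow hs _ hz]

end H53M
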