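import Pool.Agent.Lib.H53M.Q1

/-!
# H53M, chunk Q4A: the q-expansions of E₄, E₆, Δ in Mathlib

Size S/M.

PROOF. `qExp_E4`, `qExp_E6` : `EisensteinSeries.E_qExpansion_coeff` with
`bernoulli 4 = -1/30`, `bernoulli 6 = 1/42` (`by decide +kernel`, as in Mathlib
`ModularForm.E₄_qExpansion_coeff_one`). `qExp_dl` : Mathlib
`ModularForm.discriminant_eq_E₄_cube_sub_E₆_sq` (LevelOne/GradedRing.lean) expresses Δ as
(E₄³ - E₆²)/1728 pointwise; the q-expansion is multiplicative (`ModularForm.qExpansion_mul`,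
`ModularForm.qExpansion_pow`, `ModularForm.qExpansion_sub`, `ModularForm.qExpansion_smul` with
`one_pos`, `one_mem_strictPeriods_SL`; or directly `UpperHalfPlane.qExpansion_mul` etc with
`ModularFormClass.analyticAt_cuspFunction_zero`). So 1728 • qExpansion 1 Δ = toC (e4^3 - e6^2) =
1728 • toC dl by `dl_eq`; cancel 1728 in ℂ⟦X⟧.
-/

namespace H53M

open PowerSeries UpperHalfPlane MatrixGroups

/-- The complex version of an integral series. -/
noncomputable abbrev toC : PowerSeries ℤ →+* PowerSeries ℂ :=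
  PowerSeries.map (Int.castRingHom ℂ)

theorem qExp_E4 : qExpansion 1 (ModularForm.E₄ : ℍ → ℂ) = toC e4 := by
  ext m
  have h := EisensteinSeries.E_qExpansion_coeff (k := 4) (by norm_num) ⟨2, rfl⟩ m
  have hb : bernoulli 4 = -1 / 30 := by decide +kernel
  rw [hb] at h
  rw [coeff_map, e4, coeff_mk]
  refine h.trans ?_
  by_cases hm : m = 0
  · simp [hm]
  · simp only [hm, if_false]
    push_cast
    norm_num

theorem qExp_E6 : qExpansion 1 (ModularForm.E₆ : ℍ → ℂ) = toC e6 := by
  ext m
  have h := EisensteinSeries.E_qExpansion_coeff (k := 6) (by norm_num) ⟨3, rfl⟩ m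
  have hb : bernoulli 6 = 1 / 42 := by decide +kernel
  rw [hb] at h
  rw [coeff_map, e6, coeff_mk]
  refine h.trans ?_
  by_cases hm : m = 0
  · simp [hm]
  · simp only [hm, if_false]
    push_cast
    norm_num

theorem qExp_dl : qExpansion 1 (ModularForm.discriminant : ℍ → ℂ) = toC dl := by
  have h1 : ((1728 : ℂ) • CuspForm.discriminant : ℍ → ℂ) =
      ((ModularForm.mcast (by decide) (ModularForm.E₄.pow 3) -
        ModularForm.mcast (by decide) (ModularForm.E₆.pow 2) : ModularForm 𝒮ℒ 12) : ℍ → ℂ) := by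
    ext z
    have := ModularForm.discriminant_eq_E₄_cube_sub_E₆_sq z
    simp only [FunLike.coe_sub, ModularForm.coe_mcast, ModularForm.coe_pow, Pi.sub_apply, Pi.pow_apply]
    change (1728 : ℂ) * ModularForm.discriminant z = _
    rw [this]
    ring
  have h2 : qExpansion 1 ((1728 : ℂ) • CuspForm.discriminant : ℍ → ℂ) =
      (1728 : ℂ) • qExpansion 1 (ModularForm.discriminant : ℍ → ℂ) :=
    ModularForm.qExpansion_smul one_pos one_mem_strictPeriods_SL _ CuspForm.discriminant
  have h3 : qExpansion 1 ((1728 : ℂ) • CuspForm.discriminant : ℍ → ℂ) = toC (e4 ^ 3 - e6 ^ 2) := by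
    rw [h1]
    simp only [FunLike.coe_sub, ModularForm.coe_mcast,
      ModularForm.qExpansion_sub one_pos one_mem_strictPeriods_SL,
      ModularForm.qExpansion_pow one_pos one_mem_strictPeriods_SL, qExp_E4, qExp_E6]
    simp
  rw [h2, ← dl_eq, map_mul] at h3
  have h4 : toC (1728 : PowerSeries ℤ) = C (1728 : ℂ) :=
    (map_ofNat toC 1728).trans (map_ofNat (C : ℂ →+* PowerSeries ℂ) 1728).symm
  rw [h4] at h3
  ext m
  have h5 := congrArg (coeff m) h3
  rw [coeff_smul, coeff_C_mul, smul_eq_mul] at h5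
  exact mul_left_cancel₀ (by norm_num) h5

end H53M
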