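import Pool.Agent.Lib.H53M.X0
import Pool.Agent.Lib.H53M.KEV
import Pool.Agent.Lib.H53M.KE2
import Pool.Agent.Lib.H53M.Q1
import Pool.Agent.Lib.H53M.Q4A

/-!
# Chunk X16 (M): `E₂, E₄, E₆, Δ` at `q = e(z)`

From the `q`-expansions of `Q4A.lean` and `KE2.lean`.
-/

namespace H53M

namespace X

open UpperHalfPlane MatrixGroups
open scoped ModularForm

theorem X16_coeff (g : PowerSeries ℤ) (n : ℕ) :
    PowerSeries.coeff n (ktoC (toQ g)) = PowerSeries.coeff n (H53M.toC g) := by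
  rw [PowerSeries.coeff_map, PowerSeries.coeff_map, PowerSeries.coeff_map]
  simp

theorem X16_hasSum {F : Type*} [FunLike F ℍ ℂ] {k : ℤ} [ModularFormClass F 𝒮ℒ k] (f : F)
    (g : PowerSeries ℤ) (h : qExpansion 1 (f : ℍ → ℂ) = H53M.toC g) (τ : ℍ) :
    HasSum (fun n : ℕ => PowerSeries.coeff n (ktoC (toQ g)) *
      Complex.exp (2 * Real.pi * Complex.I * (n * (τ : ℂ)))) (f τ) := by
  have h1 := ModularForm.hasSum_qExpansion (f := f) one_pos (k := k) one_mem_strictPeriods_SL τ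
  refine h1.congr_fun fun n => ?_
  rw [h, X16_coeff, Function.Periodic.qParam, ← Complex.exp_nat_mul]
  congr 2
  push_cast
  ring

theorem X16_Cv {F : Type*} [FunLike F ℍ ℂ] {k : ℤ} [ModularFormClass F 𝒮ℒ k] (f : F)
    (g : PowerSeries ℤ) (h : qExpansion 1 (f : ℍ → ℂ) = H53M.toC g) : Cv (ktoC (toQ g)) := by
  intro z hz
  exact (X16_hasSum (k := k) f g h ⟨z, hz⟩).summable.norm

theorem X16_ev {F : Type*} [FunLike F ℍ ℂ] {k : ℤ} [ModularFormClass F 𝒮ℒ k] (f : F)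
    (g : PowerSeries ℤ) (h : qExpansion 1 (f : ℍ → ℂ) = H53M.toC g) (τ : ℍ) :
    ev (ktoC (toQ g)) (τ : ℂ) = f τ :=
  (X16_hasSum (k := k) f g h τ).tsum_eq

theorem X16_trans {F : Type*} [FunLike F ℍ ℂ] (w : ℕ) [ModularFormClass F 𝒮ℒ (w : ℤ)] (f : F)
    (g : PowerSeries ℤ) (h : qExpansion 1 (f : ℍ → ℂ) = H53M.toC g) {z : ℂ} (hz : 0 < z.im) :
    ev (ktoC (toQ g)) (-1 / z) = z ^ w * ev (ktoC (toQ g)) z := by
  have h1 : (f : ℍ → ℂ) ∣[(w : ℤ)] ModularGroup.S = (f : ℍ → ℂ) :=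
    SlashInvariantForm.slash_action_eqn f _ ⟨ModularGroup.S, rfl⟩
  have h2 := congrFun h1 ⟨z, hz⟩
  rw [SlashInvariantForm.slash_S_apply] at h2
  have h3 : ((UpperHalfPlane.mk _ (UpperHalfPlane.im_inv_neg_coe_pos ⟨z, hz⟩) : ℍ) : ℂ) =
      -1 / z := by
    simp [neg_div]
  have h4 := X16_ev (k := (w : ℤ)) f g h (UpperHalfPlane.mk _ (UpperHalfPlane.im_inv_neg_coe_pos ⟨z, hz⟩))
  have h5 := X16_ev (k := (w : ℤ)) f g h ⟨z, hz⟩
  rw [h3] at h4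
  rw [← h4, ← h5] at h2
  have h6 : ((⟨z, hz⟩ : ℍ) : ℂ) = z := rfl
  rw [h6, zpow_neg, zpow_natCast] at h2
  have hz0 : z ≠ 0 := by
    rintro rfl
    simp at hz
  have h7 : z ^ w ≠ 0 := pow_ne_zero _ hz0
  rw [← h2]
  field_simp

theorem X16_e2 : ktoC (toQ e2) = (12 : ℂ) • ktoC e2q := by
  ext n
  unfold e2q
  simp only [PowerSeries.coeff_smul, PowerSeries.coeff_map, smul_eq_mul, map_mul]
  have : (Rat.castHom ℂ) (1 / 12 : ℚ) = 1 / 12 := by simp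
  rw [this]
  ring

theorem Cv_e2 : Cv (ktoC (toQ e2)) := by
  rw [X16_e2]
  exact Cv_smul _ KE2_Cv

theorem Cv_e4 : Cv (ktoC (toQ e4)) :=
  X16_Cv (k := 4) ModularForm.E₄ e4 qExp_E4

theorem Cv_e6 : Cv (ktoC (toQ e6)) :=
  X16_Cv (k := 6) ModularForm.E₆ e6 qExp_E6

theorem Cv_dl : Cv (ktoC (toQ dl)) :=
  X16_Cv (k := 12) CuspForm.discriminant dl qExp_dl

theorem e2_trans {z : ℂ} (hz : 0 < z.im) :
    ev (ktoC (toQ e2)) (-1 / z) =
      z ^ 2 * (ev (ktoC (toQ e2)) z + 12 / (2 * Real.pi * Complex.I) * z⁻¹) := by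
  have hz0 : z ≠ 0 := by
    rintro rfl
    simp at hz
  have hz' : 0 < (-1 / z).im := by
    have h := UpperHalfPlane.im_inv_neg_coe_pos ⟨z, hz⟩
    have h3 : (-((⟨z, hz⟩ : ℍ) : ℂ))⁻¹ = -1 / z := by
      simp [neg_div]
    rwa [h3] at h
  rw [X16_e2, ev_smul _ KE2_Cv hz, ev_smul _ KE2_Cv hz', KE2_trans z hz]
  have hpi : (Real.pi : ℂ) ≠ 0 := by exact_mod_cast Real.pi_ne_zero
  have hI : Complex.I ≠ 0 := Complex.I_ne_zero
  field_simp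

theorem e4_trans {z : ℂ} (hz : 0 < z.im) :
    ev (ktoC (toQ e4)) (-1 / z) = z ^ 4 * ev (ktoC (toQ e4)) z :=
  X16_trans 4 ModularForm.E₄ e4 qExp_E4 hz

theorem e6_trans {z : ℂ} (hz : 0 < z.im) :
    ev (ktoC (toQ e6)) (-1 / z) = z ^ 6 * ev (ktoC (toQ e6)) z :=
  X16_trans 6 ModularForm.E₆ e6 qExp_E6 hz

theorem dl_trans {z : ℂ} (hz : 0 < z.im) :
    ev (ktoC (toQ dl)) (-1 / z) = z ^ 12 * ev (ktoC (toQ dl)) z :=
  X16_trans 12 CuspForm.discriminant dl qExp_dl hz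

end X

end H53M
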