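import Pool.Agent.Lib.H53M.Defs

/-!
# H53M, chunk Q2: MP p w is a graded ring

Size S.

PROOF. `MP_mono` is `Submodule.subset_span`. `MP_mul` : `Submodule.span_induction` twice (or
`Submodule.span_mul_span` and `Submodule.mul_mem_mul`): the product of
redZ p (dl^c e4^a e6^b) and redZ p (dl^c' e4^a' e6^b') is redZ p (dl^(c+c') e4^(a+a') e6^(b+b')),
and the weights add. `MP_pow` : induction. `MP_shift` : 1 ∈ MP p w₁ gives 1 = 1^j ∈ MP p (j w₁).
-/

namespace H53M

open PowerSeries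

theorem MP_mono (p a b c : ℕ) :
    redZ p (dl ^ c * e4 ^ a * e6 ^ b) ∈ MP p (4 * a + 6 * b + 12 * c) :=
  Submodule.subset_span ⟨a, b, c, rfl, rfl⟩

theorem one_mem_MP_zero (p : ℕ) : (1 : PowerSeries (ZMod p)) ∈ MP p 0 := by
  have h := MP_mono p 0 0 0
  simpa using h

theorem MP_mul {p w w' : ℕ} {f g : PowerSeries (ZMod p)} (hf : f ∈ MP p w) (hg : g ∈ MP p w') :
    f * g ∈ MP p (w + w') := by
  have h := Submodule.mul_mem_mul hf hg
  rw [MP, MP, Submodule.span_mul_span] at h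
  refine Submodule.span_mono ?_ h
  rintro x hx
  rw [Set.mem_mul] at hx
  obtain ⟨y, ⟨a, b, c, h1, rfl⟩, z, ⟨a', b', c', h2, rfl⟩, rfl⟩ := hx
  refine ⟨a + a', b + b', c + c', by omega, ?_⟩
  rw [← map_mul]
  congr 1
  ring

theorem MP_pow {p w : ℕ} {f : PowerSeries (ZMod p)} (hf : f ∈ MP p w) (n : ℕ) :
    f ^ n ∈ MP p (n * w) := by
  induction n with
  | zero => simpa using one_mem_MP_zero p
  | succ n ih =>
    rw [pow_succ, Nat.succ_mul]
    exact MP_mul ih hf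

theorem MP_shift {p w w₁ : ℕ} (h1 : (1 : PowerSeries (ZMod p)) ∈ MP p w₁) (j : ℕ)
    {f : PowerSeries (ZMod p)} (hf : f ∈ MP p w) : f ∈ MP p (w + j * w₁) := by
  have h := MP_mul hf (MP_pow h1 j)
  simpa using h

theorem MP_cast {p w w' : ℕ} (h : w = w') {f : PowerSeries (ZMod p)} (hf : f ∈ MP p w) :
    f ∈ MP p w' := h ▸ hf

end H53M
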