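import Pool.Agent.Lib.H53M.Q4A
import Pool.Agent.Lib.H53M.Q2
import Pool.Agent.Lib.H53M.Q4C

/-!
# H53M, chunk Q4B: reduction of modular forms with p-integral q-expansion

Size M/L. Strong induction on the weight.

PROOF (`PInt` and the additivity of `redQ` are in Q4C). Strong induction on w.
* w odd: F = 0 (`ModularForm.levelOne_odd_weight_eq_zero`), so a = 0 and the series is 0.
* w = 2: F = 0 (`ModularForm.levelOne_weight_two_rank_zero`).
* w = 0: F is constant (`ModularFormClass.levelOne_weight_zero_const`, or via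
  `sturm_bound_levelOne_nat` applied to F - a_0): qExpansion 1 F = C (a 0), and
  1 ∈ MP p 0.
* w ≥ 4 even: choose naturals x, y with 4 x + 6 y = w. The modular form
  G = F - a_0 E₄^x E₆^y of weight w (`ModularForm.mul`, `ModularForm.pow`, `ModularForm.mcast`)
  has q-expansion g = a - a_0 (toC (e4^x e6^y)), with coefficient 0 equal to 0, so by
  `ModularForm.qExpansion_eq_qExpansion_discriminant_mul` it is
  toC dl * qExpansion 1 F₁ with F₁ = discriminantEquiv (toCuspForm G _) of weight w - 12 (as an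
  integer). If w < 12 then F₁ = 0 (`ModularForm.levelOne_neg_weight_rank_zero` or
  `ModularFormClass.levelOne_neg_weight_eq_zero`), so a = a_0 (e4^x e6^y) and the reduction is
  (a_0 mod p) • redZ p (e4^x e6^y) ∈ MP p w.
  If w ≥ 12: let b = coefficients of the rational series (a - a_0 e4^x e6^y)/dl, i.e. dl = X u
  with u ∈ ℤ⟦X⟧ of constant coefficient 1, v = u⁻¹ ∈ ℤ⟦X⟧ (`PowerSeries.invOfUnit`), and
  b = v * (shift of a - a_0 e4^x e6^y) ∈ ℚ⟦X⟧; b is p-integral (sums and products of p-integral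
  numbers) and its complexification is qExpansion 1 F₁. By the induction hypothesis for w - 12
  the reduction of b is in MP p (w-12), and
  red a = (a_0 mod p) • redZ p (e4^x e6^y) + redZ p dl * red b ∈ MP p w
  (`redQ` is additive and multiplicative on p-integral series).
-/

namespace H53M

open PowerSeries UpperHalfPlane MatrixGroups

theorem Q4B_toC (f : PowerSeries ℤ) : toC f = PowerSeries.map (algebraMap ℚ ℂ) (toQ f) := by
  ext n
  simp

theorem Q4B_inj {a b : PowerSeries ℚ}
    (h : PowerSeries.map (algebraMap ℚ ℂ) a = PowerSeries.map (algebraMap ℚ ℂ) b) : a = b := by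
  ext n
  have h1 := congrArg (PowerSeries.coeff n) h
  rw [coeff_map, coeff_map] at h1
  exact (algebraMap ℚ ℂ).injective h1

theorem Q4B_zero {p w : ℕ} [Fact p.Prime] {F : ModularForm 𝒮ℒ (w : ℤ)}
    {a : PowerSeries ℚ} (ha : qExpansion 1 (F : ℍ → ℂ) = PowerSeries.map (algebraMap ℚ ℂ) a)
    (hF : F = 0) : redQ p a ∈ MP p w := by
  have h1 : a = 0 := by
    apply Q4B_inj
    rw [← ha, hF]
    simp [qExpansion_zero]
  have h2 : redQ p a = 0 := by
    rw [h1]
    ext n
    simp [redQ]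
  rw [h2]
  exact Submodule.zero_mem _

/-- the monomial -/
theorem Q4B_mono {w x y : ℕ} (h : 4 * x + 6 * y = w) : ∃ M : ModularForm 𝒮ℒ (w : ℤ),
    qExpansion 1 (M : ℍ → ℂ) = toC (e4 ^ x * e6 ^ y) := by
  have hw : ((x : ℤ) * 4 + (y : ℤ) * 6) = (w : ℤ) := by
    rw [← h]
    push_cast
    ring
  refine ⟨ModularForm.mcast hw ((ModularForm.E₄.pow x).mul (ModularForm.E₆.pow y)), ?_⟩
  rw [ModularForm.coe_mcast, ModularForm.qExpansion_mul one_pos one_mem_strictPeriods_SL,
    ModularForm.qExpansion_pow one_pos one_mem_strictPeriods_SL,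
    ModularForm.qExpansion_pow one_pos one_mem_strictPeriods_SL, qExp_E4, qExp_E6, map_mul,
    map_pow, map_pow]

theorem Q4B_den_neg {p : ℕ} {a : ℚ} (h : ¬ p ∣ a.den) : ¬ p ∣ (-a).den := by
  rwa [Rat.den_neg_eq_den]

/-- division of a series with `toC dl * q = map c` -/
theorem Q4B_div {p : ℕ} [Fact p.Prime] {c : PowerSeries ℚ} (hc : PInt p c)
    (hc0 : coeff 0 c = 0) :
    ∃ b : PowerSeries ℚ, PInt p b ∧ c = toQ dl * b := by
  obtain ⟨u, hu, hdl⟩ := dl_factor
  obtain ⟨v, hv⟩ : ∃ v : PowerSeries ℤ, u * v = 1 :=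
    ⟨PowerSeries.invOfUnit u 1, PowerSeries.mul_invOfUnit u 1 (by rw [hu]; rfl)⟩
  have hX : c = X * PowerSeries.mk (fun n => coeff (n + 1) c) := by
    ext n
    rcases n with _ | n
    · rw [coeff_zero_X_mul, hc0]
    · rw [coeff_succ_X_mul, coeff_mk]
  refine ⟨toQ v * PowerSeries.mk (fun n => coeff (n + 1) c),
    PInt_mul (PInt_toQ v) (fun n => by rw [coeff_mk]; exact hc _), ?_⟩
  rw [hdl, map_mul, mul_assoc, ← mul_assoc (toQ u), ← map_mul, hv, map_one, one_mul]
  conv_lhs => rw [hX]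
  congr 1
  ext n
  rw [map_X]


theorem Q4B_aux (p : ℕ) [Fact p.Prime] (w : ℕ) : ∀ (F : ModularForm 𝒮ℒ (w : ℤ))
    (a : PowerSeries ℚ), qExpansion 1 (F : ℍ → ℂ) = PowerSeries.map (algebraMap ℚ ℂ) a →
    PInt p a → redQ p a ∈ MP p w := by
  induction w using Nat.strong_induction_on with
  | _ w ih =>
  intro F a ha hden
  rcases Nat.even_or_odd w with hev | hodd
  swap
  · exact Q4B_zero ha (ModularForm.levelOne_odd_weight_eq_zero (by exact_mod_cast hodd) F)
  by_cases h2 : w = 2
  · subst h2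
    exact Q4B_zero ha (rank_zero_iff_forall_zero.mp ModularForm.levelOne_weight_two_rank_zero F)
  obtain ⟨x, y, hxy⟩ : ∃ x y : ℕ, 4 * x + 6 * y = w := by
    rcases Nat.even_iff.mp hev with h3
    rcases Nat.lt_or_ge (w % 4) 2 with h4 | h4
    · exact ⟨w / 4, 0, by omega⟩
    · exact ⟨(w - 6) / 4, 1, by omega⟩
  obtain ⟨M, hM⟩ := Q4B_mono hxy
  set e : PowerSeries ℤ := e4 ^ x * e6 ^ y with he
  have he0 : coeff 0 e = 1 := by
    rw [he, coeff_zero_eq_constantCoeff_apply, map_mul, map_pow, map_pow,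
      ← coeff_zero_eq_constantCoeff_apply, ← coeff_zero_eq_constantCoeff_apply, coeff_zero_e4,
      coeff_zero_e6]
    simp
  set a0 : ℚ := coeff 0 a with ha0
  set c : PowerSeries ℚ := a - a0 • toQ e with hc
  have hG : qExpansion 1 ((F - (a0 : ℂ) • M : ModularForm 𝒮ℒ (w : ℤ)) : ℍ → ℂ) =
      PowerSeries.map (algebraMap ℚ ℂ) c := by
    rw [FunLike.coe_sub, ModularForm.qExpansion_sub one_pos one_mem_strictPeriods_SL,
      FunLike.coe_smul, ModularForm.qExpansion_smul one_pos one_mem_strictPeriods_SL, ha, hM, hc,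
      Q4B_toC]
    ext n
    simp
  have hc0 : coeff 0 c = 0 := by
    rw [hc, map_sub, coeff_smul, coeff_map, he0, ← ha0]
    simp
  have hcP : PInt p c := by
    have h3 : c = a + (-a0) • toQ e := by
      rw [hc]
      ext n
      rw [map_sub, map_add, coeff_smul, coeff_smul]
      ring
    rw [h3]
    exact PInt_add hden (PInt_smul (Q4B_den_neg (hden 0)) (PInt_toQ e))
  obtain ⟨b, hbP, hcb⟩ := Q4B_div hcP hc0
  have hcusp : (qExpansion 1 ((F - (a0 : ℂ) • M : ModularForm 𝒮ℒ (w : ℤ)) : ℍ → ℂ)).coeff 0 = 0 := by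
    rw [hG, coeff_map, hc0, map_zero]
  have h5 := ModularForm.qExpansion_eq_qExpansion_discriminant_mul _ hcusp
  set F₁ := CuspForm.discriminantEquiv
    (ModularForm.toCuspForm (F - (a0 : ℂ) • M : ModularForm 𝒮ℒ (w : ℤ)) hcusp) with hF₁
  have h6 : qExpansion 1 (F₁ : ℍ → ℂ) = PowerSeries.map (algebraMap ℚ ℂ) b := by
    rw [hG, hcb, map_mul, ← Q4B_toC, qExp_dl] at h5
    have h7 : toC dl ≠ 0 := by
      intro h8
      have h9 := congrArg (coeff 1) h8
      rw [coeff_map, coeff_one_dl] at h9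
      simp at h9
    exact (mul_left_cancel₀ h7 h5).symm
  have hred : redQ p a = (a0 : ZMod p) • redZ p e + redZ p dl * redQ p b := by
    have h8 : a = a0 • toQ e + toQ dl * b := by
      rw [← hcb, hc]
      ring
    conv_lhs => rw [h8]
    rw [redQ_add (PInt_smul (hden 0) (PInt_toQ e)) (PInt_mul (PInt_toQ dl) hbP),
      redQ_smul (hden 0) (PInt_toQ e), redQ_mul (PInt_toQ dl) hbP, redQ_toQ, redQ_toQ]
  have hm1 : redZ p e ∈ MP p w := by
    have h8 := MP_mono p x y 0
    rw [pow_zero, one_mul, ← he] at h8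
    refine MP_cast ?_ h8
    omega
  have hm2 : redZ p dl ∈ MP p 12 := by
    have h8 := MP_mono p 0 0 1
    simp only [pow_zero, pow_one, mul_one] at h8
    refine MP_cast ?_ h8
    omega
  rw [hred]
  refine Submodule.add_mem _ (Submodule.smul_mem _ _ hm1) ?_
  rcases Nat.lt_or_ge w 12 with h12 | h12
  · have hF0 : F₁ = 0 :=
      by
      refine rank_zero_iff_forall_zero.mp (ModularForm.levelOne_neg_weight_rank_zero ?_) F₁
      omega
    have hb0 : b = 0 := by
      apply Q4B_inj
      rw [← h6, hF0]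
      simp [qExpansion_zero]
    have h10 : redQ p b = 0 := by
      rw [hb0]
      ext n
      simp [redQ]
    rw [h10, mul_zero]
    exact Submodule.zero_mem _
  · have h10 : redQ p b ∈ MP p (w - 12) := by
      have hw : ((w : ℤ) - 12) = ((w - 12 : ℕ) : ℤ) := by omega
      refine ih (w - 12) (by omega) (ModularForm.mcast hw F₁) b ?_ hbP
      rw [ModularForm.coe_mcast, h6]
    refine MP_cast ?_ (MP_mul hm2 h10)
    omega

/-- Reduction modulo `p` of a modular form of level one with rational `p`-integral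
`q`-expansion. -/
theorem red_mem (p : ℕ) [Fact p.Prime] (w : ℕ) (F : ModularForm 𝒮ℒ (w : ℤ))
    (a : PowerSeries ℚ) (ha : qExpansion 1 (F : ℍ → ℂ) = PowerSeries.map (algebraMap ℚ ℂ) a)
    (hden : PInt p a) : redQ p a ∈ MP p w :=
  Q4B_aux p w F a ha hden

end H53M
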