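import Pool.Agent.Lib.H53M.Q4A

/-!
# H53M, chunk Q6A: the Serre derivative as a modular form, with its q-expansion

Size M, analytic (Mathlib NumberTheory/ModularForms/Derivative.lean).

PROOF. Let F be a modular form of level one and weight k (an integer), f = qExpansion 1 F.
* `Derivative.serreDerivative k F` is invariant under the slash action of weight k + 2
  (`Derivative.serreDerivative_slash_invariant`, F is MDifferentiable: `F.holo'`), it is
  MDifferentiable (`Derivative.serreDerivative_mdifferentiable`).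
* q-expansion: for τ in ℍ, F(τ) = Σ f_m q^m with q = exp(2πiτ) (`ModularForm.hasSum_qExpansion`).
  D F(τ) = (2πi)⁻¹ d/dτ F = Σ m f_m q^m: the function is G(q) with
  G(z) = cuspFunction 1 F z = Σ f_m z^m analytic on the unit disc, so
  D F (τ) = q G'(q) by the chain rule and q G'(q) = Σ m f_m q^m
  (`HasFPowerSeriesOnBall` derivative, or `hasSum_deriv...`, or termwise differentiation
  `hasDerivAt_tsum`; the coefficient bound follows from summability at a larger radius). With
  `EisensteinSeries.hasSum_qExpansion_E2` : E₂(τ) = Σ (e2)_m q^m and the Cauchy product of the two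
  absolutely convergent series E₂ F = Σ (toC e2 * f)_m q^m
  (`tsum_mul_tsum_eq_tsum_sum_antidiagonal_of_summable_norm`) we get
  serreDerivative k F τ = Σ_m (th f - C(k/12) toC e2 f)_m q^m (HasSum).
* Boundedness at the cusp: `UpperHalfPlane.isBoundedAtImInfty_of_hasSum_qExpansion` (h = 1) and
  the same trick as in Mathlib's `CuspForm.discriminantEquiv` (bdd_at_cusps': rewrite
  `Subgroup.IsArithmetic.isCusp_iff_isCusp_SL2Z`, `isBoundedAt_iff_forall_SL2Z`, slash
  invariance).
* The q-expansion of G is the given series by `ModularFormClass.qExpansion_coeff_unique`.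
-/

namespace H53M

open PowerSeries UpperHalfPlane MatrixGroups

theorem Q6A_coeff_th {R : Type*} [Semiring R] (f : PowerSeries R) (n : ℕ) :
    coeff n (th f) = (n : R) * coeff n f := by
  rw [th, coeff_mk]

open Derivative in
/-- the `q`-expansion of the normalized derivative -/
theorem Q6A_D (k : ℤ) (F : ModularForm 𝒮ℒ k) (τ : ℍ) :
    HasSum (fun m : ℕ ↦ (PowerSeries.coeff m (th (qExpansion 1 (F : ℍ → ℂ)))) *
      Function.Periodic.qParam 1 τ ^ m) (normalizedDerivOfComplex F τ) := by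
  set g : ℂ → ℂ := cuspFunction 1 (F : ℍ → ℂ) with hg
  set q : ℂ := Function.Periodic.qParam 1 τ with hq
  have hq1 : ‖q‖ < 1 := Function.Periodic.norm_qParam_lt_one one_pos τ.im_pos
  have hper : Function.Periodic ((F : ℍ → ℂ) ∘ ofComplex) (1 : ℝ) :=
    SlashInvariantFormClass.periodic_comp_ofComplex F one_mem_strictPeriods_SL
  have hdiff : DifferentiableOn ℂ g (Metric.ball 0 1) :=
    differentiableOn_cuspFunction_ball one_pos hper (ModularFormClass.holo F)
      (ModularFormClass.bdd_at_infty F)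
  have hd' : DifferentiableOn ℂ (deriv g) (Metric.ball 0 1) :=
    hdiff.deriv Metric.isOpen_ball
  have h1 := Complex.hasSum_taylorSeries_on_ball hd' (z := q) (by simpa using hq1)
  have h2 : HasSum (fun m : ℕ => ((m + 1 : ℕ) : ℂ) *
      PowerSeries.coeff (m + 1) (qExpansion 1 (F : ℍ → ℂ)) * q ^ m) (deriv g q) := by
    have e : (fun m : ℕ => ((m + 1 : ℕ) : ℂ) *
      PowerSeries.coeff (m + 1) (qExpansion 1 (F : ℍ → ℂ)) * q ^ m) =
      fun n => ((n.factorial : ℕ) : ℂ)⁻¹ • (q - 0) ^ n • iteratedDeriv n (deriv g) 0 := by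
      funext m
      rw [qExpansion_coeff, iteratedDeriv_succ', Nat.factorial_succ, sub_zero, ← hg]
      simp only [smul_eq_mul]
      have h3 : ((m : ℂ) + 1) ≠ 0 := by exact_mod_cast Nat.succ_ne_zero m
      have h4 : ((m.factorial : ℕ) : ℂ) ≠ 0 := by exact_mod_cast Nat.factorial_ne_zero m
      push_cast
      field_simp
    rw [e]
    exact h1
  have h3 : HasSum (fun m : ℕ ↦ (PowerSeries.coeff m (th (qExpansion 1 (F : ℍ → ℂ)))) * q ^ m)
      (q * deriv g q) := by
    rw [← hasSum_nat_add_iff' 1]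
    have e : (fun m : ℕ => coeff (m + 1) (th (qExpansion 1 (F : ℍ → ℂ))) * q ^ (m + 1)) =
        fun m : ℕ => q * (((m + 1 : ℕ) : ℂ) *
      PowerSeries.coeff (m + 1) (qExpansion 1 (F : ℍ → ℂ)) * q ^ m) := by
      funext m
      rw [Q6A_coeff_th, pow_succ]
      ring
    rw [e]
    have e2 : q * deriv g q - ∑ i ∈ Finset.range 1,
        coeff i (th (qExpansion 1 (F : ℍ → ℂ))) * q ^ i = q * deriv g q := by
      rw [Finset.sum_range_one, Q6A_coeff_th]
      simp
    rw [e2]
    exact h2.mul_left q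
  have h5 : HasDerivAt g (deriv g q) q :=
    (hdiff.differentiableAt (Metric.isOpen_ball.mem_nhds (by simpa using hq1))).hasDerivAt
  have h6 : HasDerivAt (fun w : ℂ => Function.Periodic.qParam 1 w)
      (q * (2 * Real.pi * Complex.I)) (τ : ℂ) := by
    have h7 : HasDerivAt (fun w : ℂ => 2 * Real.pi * Complex.I * w / ((1 : ℝ) : ℂ))
        (2 * Real.pi * Complex.I) (τ : ℂ) := by
      have h8 := ((hasDerivAt_id (τ : ℂ)).const_mul (2 * Real.pi * Complex.I)).div_const
        (((1 : ℝ) : ℂ))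
      simpa using h8
    exact h7.cexp
  have h7 : HasDerivAt (g ∘ fun w : ℂ => Function.Periodic.qParam 1 w)
      (deriv g q * (q * (2 * Real.pi * Complex.I))) (τ : ℂ) :=
    HasDerivAt.comp (τ : ℂ) h5 h6
  have h8 : (F : ℍ → ℂ) ∘ ofComplex =ᶠ[nhds (τ : ℂ)] (g ∘ fun w : ℂ => Function.Periodic.qParam 1 w) := by
    filter_upwards [isOpen_upperHalfPlaneSet.mem_nhds τ.im_pos] with w hw
    have h9 := eq_cuspFunction (f := (F : ℍ → ℂ)) (h := 1) ⟨w, hw⟩ one_ne_zero hper
    rw [Function.comp_apply, ofComplex_apply_of_im_pos hw, ← h9]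
    rfl
  have h11 : normalizedDerivOfComplex (F : ℍ → ℂ) τ = q * deriv g q := by
    rw [normalizedDerivOfComplex, h8.deriv_eq, h7.deriv]
    have h10 : (2 * Real.pi * Complex.I : ℂ) ≠ 0 := Complex.two_pi_I_ne_zero
    field_simp
  rw [h11]
  exact h3

theorem Q6A_E2 (τ : ℍ) : HasSum (fun m : ℕ ↦ (PowerSeries.coeff m (toC e2)) *
      Function.Periodic.qParam 1 τ ^ m) (EisensteinSeries.E2 τ) := by
  have h := EisensteinSeries.hasSum_qExpansion_E2 (z := τ)
  have e : (fun m : ℕ ↦ (PowerSeries.coeff m (toC e2)) * Function.Periodic.qParam 1 τ ^ m) =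
    (fun m : ℕ ↦ (if m = 0 then 1 else -24 * ArithmeticFunction.sigma 1 m : ℂ) •
      Complex.exp (2 * Real.pi * Complex.I * τ) ^ m) := by
    funext m
    rw [coeff_map, e2, coeff_mk, Function.Periodic.qParam, Complex.ofReal_one, div_one, smul_eq_mul]
    congr 1
    split_ifs with h0
    · simp
    · simp
  rw [e]
  exact h

theorem Q6A_mul {f g : PowerSeries ℂ} {q A B : ℂ} (hf : HasSum (fun m => coeff m f * q ^ m) A)
    (hg : HasSum (fun m => coeff m g * q ^ m) B) :
    HasSum (fun m => coeff m (f * g) * q ^ m) (A * B) := by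
  have h1 := hasSum_sum_range_mul_of_summable_norm hf.summable.norm hg.summable.norm
  rw [hf.tsum_eq, hg.tsum_eq] at h1
  have e : (fun m => coeff m (f * g) * q ^ m) = fun n => ∑ k ∈ Finset.range (n + 1),
      coeff k f * q ^ k * (coeff (n - k) g * q ^ (n - k)) := by
    funext n
    rw [coeff_mul, Finset.Nat.sum_antidiagonal_eq_sum_range_succ_mk, Finset.sum_mul]
    refine Finset.sum_congr rfl fun k hk => ?_
    have hk' : k + (n - k) = n := by
      have := Finset.mem_range.mp hk
      omega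
    conv_lhs => rw [← hk', pow_add, hk']
    ring
  rw [e]
  exact h1

open Derivative in
theorem Q6A_S (k : ℤ) (F : ModularForm 𝒮ℒ k) (τ : ℍ) :
    HasSum (fun m : ℕ ↦ (PowerSeries.coeff m (th (qExpansion 1 (F : ℍ → ℂ)) -
      ((k : ℂ) / 12) • (toC e2 * qExpansion 1 (F : ℍ → ℂ)))) *
      Function.Periodic.qParam 1 τ ^ m) (serreDerivative k F τ) := by
  have h1 := Q6A_D k F τ
  have h2 := Q6A_mul (Q6A_E2 τ) (ModularForm.hasSum_qExpansion F one_pos one_mem_strictPeriods_SL τ)
  have h3 := h1.sub (h2.mul_left ((k : ℂ) / 12))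
  have e : (fun m : ℕ ↦ (PowerSeries.coeff m (th (qExpansion 1 (F : ℍ → ℂ)) -
      ((k : ℂ) / 12) • (toC e2 * qExpansion 1 (F : ℍ → ℂ)))) *
      Function.Periodic.qParam 1 τ ^ m) = fun m : ℕ =>
      coeff m (th (qExpansion 1 (F : ℍ → ℂ))) * Function.Periodic.qParam 1 τ ^ m -
      (k : ℂ) / 12 * (coeff m (toC e2 * qExpansion 1 (F : ℍ → ℂ)) *
        Function.Periodic.qParam 1 τ ^ m) := by
    funext m
    rw [map_sub, coeff_smul, smul_eq_mul]
    ring
  have e3 : serreDerivative k F τ = normalizedDerivOfComplex F τ -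
      (k : ℂ) / 12 * (EisensteinSeries.E2 τ * F τ) := by
    rw [serreDerivative_apply]
    ring
  rw [e, e3]
  exact h3

open Derivative ModularForm in
theorem Q6A_slash (k : ℤ) (F : ModularForm 𝒮ℒ k) (γ : SL(2, ℤ)) :
    serreDerivative k F ∣[k + 2] γ = serreDerivative k F := by
  refine serreDerivative_slash_invariant F.holo' ?_
  exact F.slash_action_eq' _ ⟨γ, rfl⟩

open Derivative in
/-- the Serre derivative as a modular form -/
noncomputable def Q6A_form (k : ℤ) (F : ModularForm 𝒮ℒ k) : ModularForm 𝒮ℒ (k + 2) where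
  toFun := serreDerivative k F
  slash_action_eq' := fun _ ⟨γ, hγ⟩ ↦ hγ ▸ Q6A_slash k F γ
  holo' := serreDerivative_mdifferentiable _ F.holo'
  bdd_at_cusps' {c} hc := by
    rw [Subgroup.IsArithmetic.isCusp_iff_isCusp_SL2Z] at hc
    rw [OnePoint.isBoundedAt_iff_forall_SL2Z hc]
    intro γ _
    rw [Q6A_slash k F γ]
    exact isBoundedAtImInfty_of_hasSum_qExpansion one_pos (Q6A_S k F)

theorem exists_serre (k : ℤ) (F : ModularForm 𝒮ℒ k) :
    ∃ G : ModularForm 𝒮ℒ (k + 2), qExpansion 1 (G : ℍ → ℂ) =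
      th (qExpansion 1 (F : ℍ → ℂ)) - ((k : ℂ) / 12) • (toC e2 * qExpansion 1 (F : ℍ → ℂ)) := by
  refine ⟨Q6A_form k F, ?_⟩
  ext m
  exact (ModularFormClass.qExpansion_coeff_unique one_pos one_mem_strictPeriods_SL
    (f := Q6A_form k F) (Q6A_S k F) m).symm

end H53M
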