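import Pool.Agent.Lib.H53M.Q5
import Pool.Agent.Lib.H53M.Q6A

/-!
# H53M, chunk Q6: E₂ mod p has weight p + 1

Size S/M.

PROOF. p ≥ 5 prime. Apply `exists_serre` to F = ModularForm.E of weight p - 1: G of weight
p + 1 with q-expansion th f - ((p-1)/12) e2 f, f = map (eisQ (p-1)) (`qExp_eisQ`). So G has the
rational q-expansion g = th (eisQ (p-1)) - ((p-1)/12) • (toQ e2 * eisQ (p-1)) which is p-integral
(`PInt_add`, `PInt_mul`, ...; 12 is prime to p). `red_mem` gives redQ p g ∈ MP p (p+1). And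
redQ p (eisQ (p-1)) = 1 (`redQ_eisQ`), so redQ p (th (eisQ (p-1))) = th 1 = 0 and
redQ p g = - ((p-1)/12 mod p) • redZ p e2 = (1/12) • redZ p e2 in ZMod p. Multiply by 12.
-/

namespace H53M

open PowerSeries UpperHalfPlane MatrixGroups

theorem Q6_cast {a b : ℤ} (h : a = b) (G : ModularForm 𝒮ℒ a) :
    ∃ G' : ModularForm 𝒮ℒ b, (G' : ℍ → ℂ) = G := by
  subst h
  exact ⟨G, rfl⟩

theorem Q6_den (p : ℕ) [Fact p.Prime] (hp : 3 < p) (n : ℤ) : ¬ p ∣ ((n : ℚ) / 12).den := by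
  have hP : p.Prime := Fact.out
  intro h
  have h1 : ((p : ℕ) : ℤ) ∣ 12 := by
    have e : ((n : ℚ) / 12) = ((n : ℤ) : ℚ) / ((12 : ℤ) : ℚ) := by norm_num
    rw [e, ← Rat.divInt_eq_div] at h
    exact (Int.natCast_dvd_natCast.2 h).trans (Rat.den_dvd _ _)
  have h2 : p ∣ 3 * 4 := by exact_mod_cast h1
  rcases (Nat.Prime.dvd_mul hP).1 h2 with h3 | h3
  · have := Nat.le_of_dvd (by norm_num) h3
    omega
  · have h4 := Nat.le_of_dvd (by norm_num) h3
    have h5 : p = 4 := by omega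
    rw [h5] at hP
    exact absurd hP (by norm_num)

theorem Q6_PInt_th (p : ℕ) [Fact p.Prime] {f : PowerSeries ℚ} (hf : PInt p f) :
    PInt p (th f) := by
  intro n
  unfold th
  rw [coeff_mk]
  have := Q5_mul (Fact.out : p.Prime) (Q5_int Fact.out (n : ℤ)) (hf n)
  exact_mod_cast this

theorem Q6_redQ_th (p : ℕ) [Fact p.Prime] {f : PowerSeries ℚ} (hf : PInt p f) :
    redQ p (th f) = th (redQ p f) := by
  ext n
  unfold redQ th
  rw [coeff_mk, coeff_mk, coeff_mk, coeff_mk]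
  have h := Rat.cast_mul_of_ne_zero (Q5_ne (Q5_int (Fact.out : p.Prime) (n : ℤ))) (Q5_ne (hf n))
  rw [Rat.cast_intCast] at h
  exact_mod_cast h

theorem e2_mem (p : ℕ) [Fact p.Prime] (hp : 3 < p) : redZ p e2 ∈ MP p (p + 1) := by
  have hP : p.Prime := Fact.out
  have hodd : p % 2 = 1 := by
    rcases hP.eq_two_or_odd with h | h
    · omega
    · exact h
  have h3 : 3 ≤ p - 1 := by omega
  obtain ⟨G0, hG0⟩ := exists_serre ((p - 1 : ℕ) : ℤ) (ModularForm.E h3)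
  obtain ⟨G, hG⟩ := Q6_cast (show (((p - 1 : ℕ) : ℤ) + 2) = ((p + 1 : ℕ) : ℤ) by omega) G0
  obtain ⟨f, hf⟩ : ∃ f, f = eisQ (p - 1) := ⟨_, rfl⟩
  have hfI : PInt p f := hf ▸ eisQ_PInt p hp
  have hfr : redQ p f = 1 := hf ▸ redQ_eisQ p hp
  have hfq := qExp_eisQ h3 (by rw [Nat.even_iff]; omega)
  rw [← hf] at hfq
  rw [hfq] at hG0
  obtain ⟨a, ha⟩ : ∃ a : ℚ, a = ((-((p - 1 : ℕ) : ℤ) : ℤ) : ℚ) / 12 := ⟨_, rfl⟩
  have haI : ¬ p ∣ a.den := ha ▸ Q6_den p hp _
  have hg : qExpansion 1 (G : ℍ → ℂ) =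
      PowerSeries.map (algebraMap ℚ ℂ) (th f + a • (toQ e2 * f)) := by
    have h1 : toC e2 * PowerSeries.map (algebraMap ℚ ℂ) f =
        PowerSeries.map (algebraMap ℚ ℂ) (toQ e2 * f) := by
      rw [map_mul]
      congr 1
    have h2 : PowerSeries.map (algebraMap ℚ ℂ) (a • (toQ e2 * f)) =
        (a : ℂ) • PowerSeries.map (algebraMap ℚ ℂ) (toQ e2 * f) := by
      ext m
      rw [coeff_map, coeff_smul, coeff_smul, coeff_map, smul_eq_mul, smul_eq_mul, RingHom.map_mul]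
      simp
    have h3 : (a : ℂ) = -((((p - 1 : ℕ) : ℤ) : ℂ) / 12) := by
      rw [ha]
      push_cast
      ring
    rw [hG, hG0, h1, th_map, RingHom.map_add, h2, h3, _root_.neg_smul, sub_eq_add_neg]
  have hgI : PInt p (th f + a • (toQ e2 * f)) :=
    PInt_add (Q6_PInt_th p hfI) (PInt_smul haI (PInt_mul (PInt_toQ e2) hfI))
  have hmem := red_mem p (p + 1) G _ hg hgI
  have hred : redQ p (th f + a • (toQ e2 * f)) = (a : ZMod p) • redZ p e2 := by
    rw [redQ_add (Q6_PInt_th p hfI) (PInt_smul haI (PInt_mul (PInt_toQ e2) hfI)),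
      redQ_smul haI (PInt_mul (PInt_toQ e2) hfI), redQ_mul (PInt_toQ e2) hfI, redQ_toQ,
      Q6_redQ_th p hfI, hfr, mul_one]
    have h1 : th (1 : PowerSeries (ZMod p)) = 0 := by
      ext n
      unfold th
      rw [coeff_mk, coeff_one]
      split_ifs with h
      · rw [h]
        simp
      · simp
    rw [h1, zero_add]
  rw [hred] at hmem
  have h12 : (12 : ZMod p) * (a : ZMod p) = 1 := by
    have h1 := Rat.cast_mul_of_ne_zero (Q5_ne (Q5_int hP 12)) (Q5_ne haI)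
    have h2 : (((12 : ℤ) : ℚ) * a) = ((-((p - 1 : ℕ) : ℤ) : ℤ) : ℚ) := by
      rw [ha]
      push_cast
      ring
    rw [h2, Rat.cast_intCast, Rat.cast_intCast] at h1
    have h3 : (((-((p - 1 : ℕ) : ℤ) : ℤ)) : ZMod p) = 1 := by
      have h4 : ((p - 1 : ℕ) : ℤ) = (p : ℤ) - 1 := by omega
      rw [h4]
      push_cast
      rw [CharP.cast_eq_zero]
      ring
    rw [h3] at h1
    exact_mod_cast h1.symm
  have hfin := Submodule.smul_mem _ (12 : ZMod p) hmem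
  rwa [smul_smul, h12, one_smul] at hfin

end H53M
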