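import Pool.Agent.Lib.H53M.Q4B

/-!
# H53M, chunk Q5: 1 is a modular form mod p of weight p - 1

Size M.

PROOF. p ≥ 5 prime, w = p - 1 ≥ 4 even. F = ModularForm.E (3 ≤ p - 1) of weight p - 1,
`EisensteinSeries.E_qExpansion_coeff`: coefficients 1 and -(2w/B_w) σ_{w-1}(m) (m ≥ 1), all
rational: a = mk (fun m => if m = 0 then 1 else -(2 w / bernoulli w) σ). By von Staudt-Clausen
(Mathlib `Bernoulli.vonStaudt_clausen` or the lemmas of Mathlib/NumberTheory/Bernoulli*.lean: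
look at the file for the p-adic valuation of B_{p-1}, or for B_w + Σ_{q-1 ∣ w} 1/q ∈ ℤ), with
w = p - 1: B_w = -1/p + (p-integral), so padicValRat p (B_w) = -1, so
padicValRat p (2 w / B_w) ≥ 1 : the coefficients of index m ≥ 1 are p-integral and ≡ 0 mod p.
Hence `PInt p a`, redQ p a = 1, and `red_mem` gives the claim.
-/

namespace H53M

open PowerSeries UpperHalfPlane MatrixGroups

/-- The rational q-expansion of the Eisenstein series of weight `w`. -/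
noncomputable def eisQ (w : ℕ) : PowerSeries ℚ :=
  PowerSeries.mk fun m => if m = 0 then 1 else
    -(2 * (w : ℚ) / bernoulli w) * (ArithmeticFunction.sigma (w - 1) m : ℚ)

theorem Q5_mul {p : ℕ} (hp : p.Prime) {x y : ℚ} (hx : ¬ p ∣ x.den) (hy : ¬ p ∣ y.den) :
    ¬ p ∣ (x * y).den := by
  intro h
  rcases (Nat.Prime.dvd_mul hp).1 (h.trans (Rat.mul_den_dvd x y)) with h | h
  · exact hx h
  · exact hy h

theorem Q5_add {p : ℕ} (hp : p.Prime) {x y : ℚ} (hx : ¬ p ∣ x.den) (hy : ¬ p ∣ y.den) :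
    ¬ p ∣ (x + y).den := by
  intro h
  rcases (Nat.Prime.dvd_mul hp).1 (h.trans (Rat.add_den_dvd x y)) with h | h
  · exact hx h
  · exact hy h

theorem Q5_int {p : ℕ} (hp : p.Prime) (n : ℤ) : ¬ p ∣ (n : ℚ).den := by
  rw [Rat.den_intCast]
  exact hp.one_lt.ne' ∘ Nat.dvd_one.1

theorem Q5_ne {p : ℕ} {x : ℚ} (hx : ¬ p ∣ x.den) : (x.den : ZMod p) ≠ 0 := by
  rwa [Ne, ZMod.natCast_eq_zero_iff]

theorem Q5_sum {p : ℕ} (hp : p.Prime) (S : Finset ℕ) (h : ∀ q ∈ S, ¬ p ∣ ((1 : ℚ) / q).den) :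
    ¬ p ∣ (∑ q ∈ S, (1 : ℚ) / q).den := by
  classical
  induction S using Finset.induction_on with
  | empty => simpa using Q5_int hp 0
  | insert a S ha ih =>
    rw [Finset.sum_insert ha]
    exact Q5_add hp (h a (Finset.mem_insert_self _ _))
      (ih fun q hq => h q (Finset.mem_insert_of_mem hq))

/-- von Staudt-Clausen at `p` -/
theorem Q5_bern (p : ℕ) [Fact p.Prime] (hp : 3 < p) :
    ∃ y : ℚ, ¬ p ∣ y.den ∧ (p : ℚ) * bernoulli (p - 1) = -1 + p * y := by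
  have hP : p.Prime := Fact.out
  have hodd : p % 2 = 1 := by
    rcases hP.eq_two_or_odd with h | h
    · omega
    · exact h
  obtain ⟨k, hk⟩ : ∃ k, p - 1 = 2 * k := ⟨(p - 1) / 2, by omega⟩
  obtain ⟨z, hz⟩ := Bernoulli.vonStaudt_clausen k
  have hmem : p ∈ (Finset.range (2 * k + 2)).filter (fun q => q.Prime ∧ (q - 1) ∣ 2 * k) := by
    rw [Finset.mem_filter, Finset.mem_range]
    exact ⟨by omega, hP, by rw [hk]⟩
  rw [← Finset.add_sum_erase _ _ hmem] at hz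
  obtain ⟨R, hR⟩ : ∃ R : ℚ, R = ∑ q ∈ ((Finset.range (2 * k + 2)).filter
    (fun q => q.Prime ∧ (q - 1) ∣ 2 * k)).erase p, (1 : ℚ) / q := ⟨_, rfl⟩
  have hRd : ¬ p ∣ R.den := by
    rw [hR]
    apply Q5_sum hP
    intro q hq h
    rw [Finset.mem_erase, Finset.mem_filter] at hq
    have h1 : ((1 : ℚ) / q).den = q := by simp [hq.2.2.1.ne_zero]
    rw [h1] at h
    exact hq.1 ((Nat.prime_dvd_prime_iff_eq hP hq.2.2.1).1 h).symm
  rw [← hR] at hz
  have hp0 : (p : ℚ) ≠ 0 := by exact_mod_cast hP.ne_zero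
  refine ⟨(z : ℚ) + (-1 : ℤ) * R, Q5_add hP (Q5_int hP z) (Q5_mul hP (Q5_int hP (-1)) hRd), ?_⟩
  rw [hk]
  have h2 : bernoulli (2 * k) = z - 1 / p - R := by
    have h3 : (z : ℚ) = bernoulli (2 * k) + (1 / p + R) := hz
    linarith
  rw [h2]
  push_cast
  field_simp
  ring

/-- the inverse of `p B_{p-1}` is `p`-integral -/
theorem Q5_inv (p : ℕ) [Fact p.Prime] (hp : 3 < p) :
    bernoulli (p - 1) ≠ 0 ∧ ¬ p ∣ (((p : ℚ) * bernoulli (p - 1))⁻¹).den := by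
  have hP : p.Prime := Fact.out
  obtain ⟨y, hy, h⟩ := Q5_bern p hp
  obtain ⟨u, hu⟩ : ∃ u : ℚ, u = (p : ℚ) * bernoulli (p - 1) := ⟨_, rfl⟩
  rw [← hu] at h ⊢
  have h1 : (u : ZMod p) = -1 := by
    have h2 : u = ((-1 : ℤ) : ℚ) + ((p : ℤ) : ℚ) * y := by
      rw [h]
      push_cast
      ring
    rw [h2, Rat.cast_add_of_ne_zero (Q5_ne (Q5_int hP _)) (Q5_ne (Q5_mul hP (Q5_int hP _) hy)),
      Rat.cast_mul_of_ne_zero (Q5_ne (Q5_int hP _)) (Q5_ne hy), Rat.cast_intCast,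
      Rat.cast_intCast]
    push_cast
    rw [CharP.cast_eq_zero, zero_mul, add_zero]
  have h3 : (u.num : ZMod p) ≠ 0 := by
    intro h4
    rw [Rat.cast_def, h4, zero_div] at h1
    have h5 : (1 : ZMod p) = 0 := by
      rw [← neg_eq_zero]
      exact h1.symm
    exact one_ne_zero h5
  have hu0 : u ≠ 0 := by
    rintro rfl
    simp at h3
  refine ⟨?_, ?_⟩
  · rintro h4
    rw [h4, mul_zero] at hu
    exact hu0 hu
  · intro hd
    apply h3
    have h4 : u⁻¹ = ((u.den : ℤ) : ℚ) / ((u.num : ℤ) : ℚ) := by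
      rw [inv_eq_iff_eq_inv, inv_div]
      exact (Rat.num_div_den u).symm
    rw [h4, ← Rat.divInt_eq_div] at hd
    have h5 : ((p : ℕ) : ℤ) ∣ u.num :=
      (Int.natCast_dvd_natCast.2 hd).trans (Rat.den_dvd _ _)
    exact (ZMod.intCast_zmod_eq_zero_iff_dvd _ _).2 h5

/-- the positive coefficients are `p` times a `p`-integral number -/
theorem Q5_coeff (p : ℕ) [Fact p.Prime] (hp : 3 < p) (m : ℕ) (hm : m ≠ 0) :
    ∃ y : ℚ, ¬ p ∣ y.den ∧ coeff m (eisQ (p - 1)) = ((p : ℤ) : ℚ) * y := by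
  have hP : p.Prime := Fact.out
  obtain ⟨h1, h2⟩ := Q5_inv p hp
  refine ⟨((-(2 * ((p - 1 : ℕ) : ℤ)) * (ArithmeticFunction.sigma (p - 1 - 1) m : ℤ) : ℤ) : ℚ) *
    ((p : ℚ) * bernoulli (p - 1))⁻¹, Q5_mul hP (Q5_int hP _) h2, ?_⟩
  unfold eisQ
  rw [coeff_mk, if_neg hm]
  have hp0 : (p : ℚ) ≠ 0 := by exact_mod_cast hP.ne_zero
  push_cast
  field_simp

theorem eisQ_PInt (p : ℕ) [Fact p.Prime] (hp : 3 < p) : PInt p (eisQ (p - 1)) := by
  have hP : p.Prime := Fact.out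
  intro m
  rcases Nat.eq_zero_or_pos m with rfl | hm
  · unfold eisQ
    rw [coeff_mk, if_pos rfl]
    exact_mod_cast Q5_int hP 1
  · obtain ⟨y, hy, h⟩ := Q5_coeff p hp m hm.ne'
    rw [h]
    exact Q5_mul hP (Q5_int hP _) hy

theorem redQ_eisQ (p : ℕ) [Fact p.Prime] (hp : 3 < p) : redQ p (eisQ (p - 1)) = 1 := by
  have hP : p.Prime := Fact.out
  ext m
  unfold redQ
  rw [coeff_mk, coeff_one]
  rcases Nat.eq_zero_or_pos m with rfl | hm
  · unfold eisQ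
    rw [coeff_mk, if_pos rfl, if_pos rfl]
    exact_mod_cast Rat.cast_one
  · obtain ⟨y, hy, h⟩ := Q5_coeff p hp m hm.ne'
    rw [h, if_neg hm.ne', Rat.cast_mul_of_ne_zero (Q5_ne (Q5_int hP _)) (Q5_ne hy),
      Rat.cast_intCast]
    push_cast
    rw [CharP.cast_eq_zero, zero_mul]

theorem qExp_eisQ {w : ℕ} (hw : 3 ≤ w) (hw2 : Even w) :
    qExpansion 1 (ModularForm.E hw : ℍ → ℂ) =
      PowerSeries.map (algebraMap ℚ ℂ) (eisQ w) := by
  ext m
  rw [EisensteinSeries.E_qExpansion_coeff hw hw2, coeff_map]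
  unfold eisQ
  rw [coeff_mk]
  split_ifs
  · simp
  · simp

theorem one_mem (p : ℕ) [Fact p.Prime] (hp : 3 < p) :
    (1 : PowerSeries (ZMod p)) ∈ MP p (p - 1) := by
  have hP : p.Prime := Fact.out
  have hodd : p % 2 = 1 := by
    rcases hP.eq_two_or_odd with h | h
    · omega
    · exact h
  rw [← redQ_eisQ p hp]
  exact red_mem p (p - 1) (ModularForm.E (show 3 ≤ p - 1 by omega)) (eisQ (p - 1))
    (qExp_eisQ (by omega) (by rw [Nat.even_iff]; omega)) (eisQ_PInt p hp)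

end H53M
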