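import Pool.Agent.Lib.H53M.TP0

/-!
# H53M, module T: Poisson summation for `ℤⁿ`
-/

namespace H53M

open MeasureTheory

theorem TP_summable_one (ε : ℝ) (hε : 0 < ε) :
    Summable fun k : ℤ => Real.exp (-(ε * |(k : ℝ)|)) := by
  have h1 : Summable fun k : ℕ => Real.exp (-ε) ^ k :=
    summable_geometric_of_lt_one (Real.exp_pos _).le (by rw [Real.exp_lt_one_iff]; linarith)
  refine Summable.of_nat_of_neg ?_ ?_
  · refine h1.congr fun k => ?_
    rw [← Real.exp_nat_mul]
    congr 1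
    simp
    ring
  · refine h1.congr fun k => ?_
    rw [← Real.exp_nat_mul]
    congr 1
    simp
    ring

/-- summability of `exp(-ε |m|₁)` over `ℤⁿ` -/
theorem TP_summable (n : ℕ) (ε : ℝ) (hε : 0 < ε) :
    Summable fun m : Fin n → ℤ => Real.exp (-(ε * ∑ j, |(m j : ℝ)|)) := by
  have h1 := TP_summable_one ε hε
  have h2 : ∀ m : Fin n → ℤ, Real.exp (-(ε * ∑ j, |(m j : ℝ)|)) =
      ∏ j, Real.exp (-(ε * |(m j : ℝ)|)) := by
    intro m
    rw [← Real.exp_sum, Finset.mul_sum, Finset.sum_neg_distrib]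
  refine summable_of_sum_le (c := ∏ _j : Fin n, ∑' k : ℤ, Real.exp (-(ε * |(k : ℝ)|)))
    (fun m => (Real.exp_pos _).le) fun u => ?_
  let t : Fin n → Finset ℤ := fun j => u.image fun m : Fin n → ℤ => m j
  have hsub : u ⊆ Fintype.piFinset t := by
    intro m hm
    rw [Fintype.mem_piFinset]
    exact fun j => Finset.mem_image_of_mem (fun m : Fin n → ℤ => m j) hm
  calc ∑ m ∈ u, Real.exp (-(ε * ∑ j, |(m j : ℝ)|))
      ≤ ∑ m ∈ Fintype.piFinset t, Real.exp (-(ε * ∑ j, |(m j : ℝ)|)) :=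
        Finset.sum_le_sum_of_subset_of_nonneg hsub fun _ _ _ => (Real.exp_pos _).le
    _ = ∑ m ∈ Fintype.piFinset t, ∏ j, Real.exp (-(ε * |(m j : ℝ)|)) :=
        Finset.sum_congr rfl fun m _ => h2 m
    _ = ∏ j, ∑ k ∈ t j, Real.exp (-(ε * |(k : ℝ)|)) :=
        (Finset.prod_univ_sum t (fun _ (k : ℤ) => Real.exp (-(ε * |(k : ℝ)|)))).symm
    _ ≤ ∏ _j : Fin n, ∑' k : ℤ, Real.exp (-(ε * |(k : ℝ)|)) :=
        Finset.prod_le_prod (fun j _ => Finset.sum_nonneg fun _ _ => (Real.exp_pos _).le)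
          fun j _ => h1.sum_le_tsum _ fun _ _ => (Real.exp_pos _).le

theorem TP_bound {n : ℕ} {f : (Fin n → ℝ) → ℂ} {C ε : ℝ} (hε : 0 < ε)
    (hb : ∀ x, ‖f x‖ ≤ C * Real.exp (-(ε * ∑ j, |x j|))) (R : ℝ) (c : Fin n → ℝ)
    (hc : ∑ j, |c j| ≤ R) (m : Fin n → ℤ) :
    ‖f (fun j => c j + m j)‖ ≤ |C| * Real.exp (ε * R) * Real.exp (-(ε * ∑ j, |(m j : ℝ)|)) := by
  refine (hb _).trans ?_
  rw [mul_assoc, ← Real.exp_add]
  refine mul_le_mul (le_abs_self C) ?_ (Real.exp_pos _).le (abs_nonneg C)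
  rw [Real.exp_le_exp]
  have h1 : ∑ j, |(m j : ℝ)| ≤ ∑ j, |c j + m j| + ∑ j, |c j| := by
    rw [← Finset.sum_add_distrib]
    refine Finset.sum_le_sum fun j _ => ?_
    have : |(m j : ℝ)| = |(c j + m j) + (-(c j))| := by congr 1; ring
    rw [this]
    exact (abs_add_le _ _).trans (by rw [abs_neg])
  nlinarith

theorem TP_summable_shift {n : ℕ} {f : (Fin n → ℝ) → ℂ} (hb : EDec f) (c : Fin n → ℝ) :
    Summable fun m : Fin n → ℤ => f (fun j => c j + m j) := by
  obtain ⟨C, ε, hε, hb⟩ := hb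
  exact Summable.of_norm_bounded ((TP_summable n ε hε).mul_left _)
    fun m => TP_bound hε hb _ c le_rfl m

theorem TP_integrable_abs (ε : ℝ) (hε : 0 < ε) : Integrable fun x : ℝ => Real.exp (-(ε * |x|)) := by
  have h1 : IntegrableOn (fun x : ℝ => Real.exp (-(ε * |x|))) (Set.Iic 0) := by
    refine (integrableOn_exp_mul_Iic hε 0).congr_fun (fun x hx => ?_) measurableSet_Iic
    have hx' : x ≤ 0 := hx
    simp only
    rw [abs_of_nonpos hx']
    congr 1
    ring
  have h2 : IntegrableOn (fun x : ℝ => Real.exp (-(ε * |x|))) (Set.Ioi 0) := by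
    refine (exp_neg_integrableOn_Ioi 0 hε).congr_fun (fun x hx => ?_) measurableSet_Ioi
    have hx' : 0 < x := hx
    simp only
    rw [abs_of_pos hx']
    congr 1
    ring
  have h3 := h1.union h2
  rwa [Set.Iic_union_Ioi, integrableOn_univ] at h3

theorem TP_integrable {n : ℕ} {f : (Fin n → ℝ) → ℂ} (hf : Continuous f) (hb : EDec f) :
    Integrable f := by
  obtain ⟨C, ε, hε, hb⟩ := hb
  have h1 : Integrable (fun x : Fin n → ℝ => ∏ j, Real.exp (-(ε * |x j|))) := by
    have := Integrable.fintype_prod (μ := fun _ : Fin n => (volume : Measure ℝ))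
      (f := fun (_ : Fin n) (x : ℝ) => Real.exp (-(ε * |x|))) fun _ => TP_integrable_abs ε hε
    exact this
  refine (h1.const_mul C).mono' hf.aestronglyMeasurable ?_
  refine Filter.Eventually.of_forall fun x => ?_
  refine (hb x).trans (le_of_eq ?_)
  rw [← Real.exp_sum, Finset.mul_sum, Finset.sum_neg_distrib]

/-- the periodised function -/
noncomputable def TP_S {n : ℕ} (f : (Fin n → ℝ) → ℂ) (x : Fin n → ℝ) : ℂ :=
  ∑' m : Fin n → ℤ, f (fun j => x j + m j)

theorem TP_S_cont {n : ℕ} {f : (Fin n → ℝ) → ℂ} (hf : Continuous f) (hb : EDec f) :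
    Continuous (TP_S f) := by
  obtain ⟨C, ε, hε, hb⟩ := hb
  rw [continuous_iff_continuousAt]
  intro x₀
  set R : ℝ := ∑ j, |x₀ j| + 1 with hR
  have hopen : IsOpen {x : Fin n → ℝ | ∑ j, |x j| < R} :=
    isOpen_lt (by fun_prop) continuous_const
  have hmem : x₀ ∈ {x : Fin n → ℝ | ∑ j, |x j| < R} := by
    change ∑ j, |x₀ j| < R
    rw [hR]
    linarith
  have h : ContinuousOn (TP_S f) {x : Fin n → ℝ | ∑ j, |x j| < R} := by
    refine continuousOn_tsum (fun m => ?_) ((TP_summable n ε hε).mul_left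
      (|C| * Real.exp (ε * R))) fun m x hx => TP_bound hε hb R x (le_of_lt hx) m
    refine Continuous.continuousOn (hf.comp ?_)
    fun_prop
  exact h.continuousAt (hopen.mem_nhds hmem)

theorem TP_S_add {n : ℕ} (f : (Fin n → ℝ) → ℂ) (x : Fin n → ℝ) (k : Fin n → ℤ) :
    TP_S f (fun j => x j + k j) = TP_S f x := by
  unfold TP_S
  rw [← (Equiv.addLeft k).tsum_eq fun m : Fin n → ℤ => f (fun j => x j + m j)]
  refine tsum_congr fun m => ?_
  congr 1
  funext j
  simp only [Equiv.coe_addLeft, Pi.add_apply, Int.cast_add]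
  ring

/-- the quotient map -/
noncomputable def TP_pi (n : ℕ) (x : Fin n → ℝ) : UnitAddTorus (Fin n) :=
  fun j => (x j : UnitAddCircle)

theorem TP_pi_quot (n : ℕ) : IsOpenQuotientMap (TP_pi n) := by
  have h : IsOpenQuotientMap (Pi.map (fun (_ : Fin n) (x : ℝ) => (x : UnitAddCircle))) :=
    IsOpenQuotientMap.piMap fun _ => QuotientAddGroup.isOpenQuotientMap_mk
  exact h

/-- section of the quotient map -/
noncomputable def TP_sec (n : ℕ) (t : UnitAddTorus (Fin n)) : Fin n → ℝ :=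
  fun j => (AddCircle.equivIoc 1 0 (t j)).1

theorem TP_pi_sec (n : ℕ) (t : UnitAddTorus (Fin n)) : TP_pi n (TP_sec n t) = t := by
  funext j
  exact (AddCircle.equivIoc 1 0).symm_apply_apply (t j)

theorem TP_sec_pi {n : ℕ} (x : Fin n → ℝ) : ∃ k : Fin n → ℤ,
    x = fun j => TP_sec n (TP_pi n x) j + k j := by
  have h := TP_pi_sec n (TP_pi n x)
  have h1 : ∀ j, ∃ k : ℤ, x j = TP_sec n (TP_pi n x) j + k := by
    intro j
    have h2 : ((TP_sec n (TP_pi n x) j : ℝ) : UnitAddCircle) = ((x j : ℝ) : UnitAddCircle) :=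
      congrFun h j
    have h3 : ((x j - TP_sec n (TP_pi n x) j : ℝ) : UnitAddCircle) = 0 := by
      rw [AddCircle.coe_sub, h2, sub_self]
    obtain ⟨k, hk⟩ := (AddCircle.coe_eq_zero_iff (1 : ℝ)).1 h3
    refine ⟨k, ?_⟩
    rw [zsmul_eq_mul, mul_one] at hk
    linarith
  choose k hk using h1
  exact ⟨k, funext hk⟩

/-- the function on the torus -/
noncomputable def TP_F {n : ℕ} (f : (Fin n → ℝ) → ℂ) (t : UnitAddTorus (Fin n)) : ℂ :=
  TP_S f (TP_sec n t)

theorem TP_F_pi {n : ℕ} (f : (Fin n → ℝ) → ℂ) (x : Fin n → ℝ) :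
    TP_F f (TP_pi n x) = TP_S f x := by
  obtain ⟨k, hk⟩ := TP_sec_pi x
  unfold TP_F
  conv_rhs => rw [hk]
  rw [TP_S_add]

theorem TP_F_cont {n : ℕ} {f : (Fin n → ℝ) → ℂ} (hf : Continuous f) (hb : EDec f) :
    Continuous (TP_F f) := by
  rw [(TP_pi_quot n).isQuotientMap.continuous_iff]
  have h : TP_F f ∘ TP_pi n = TP_S f := funext fun x => TP_F_pi f x
  rw [h]
  exact TP_S_cont hf hb

theorem TP_mFourier {n : ℕ} (m : Fin n → ℤ) (x : Fin n → ℝ) :
    UnitAddTorus.mFourier m (TP_pi n x) =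
      Complex.exp (2 * Real.pi * Complex.I * ∑ j, (m j : ℂ) * (x j : ℂ)) := by
  change ∏ j : Fin n, fourier (m j) ((x j : ℝ) : UnitAddCircle) = _
  rw [Finset.mul_sum, Complex.exp_sum]
  refine Finset.prod_congr rfl fun j _ => ?_
  rw [fourier_coe_apply]
  congr 1
  push_cast
  ring

/-- the unit boxes -/
def TP_Q {n : ℕ} (k : Fin n → ℤ) : Set (Fin n → ℝ) :=
  {x | ∀ i, x i ∈ Set.Ioc (k i : ℝ) ((k i : ℝ) + 1)}

theorem TP_Q_meas {n : ℕ} (k : Fin n → ℤ) : MeasurableSet (TP_Q k) := by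
  have : TP_Q k = Set.univ.pi fun i => Set.Ioc (k i : ℝ) ((k i : ℝ) + 1) := by
    ext x
    simp [TP_Q]
  rw [this]
  exact MeasurableSet.univ_pi fun i => measurableSet_Ioc

theorem TP_Q_mem {n : ℕ} (k : Fin n → ℤ) (x : Fin n → ℝ) :
    x ∈ TP_Q k ↔ k = fun i => ⌈x i⌉ - 1 := by
  constructor
  · intro h
    funext i
    obtain ⟨h1, h2⟩ := h i
    have : ⌈x i⌉ = k i + 1 := by
      rw [Int.ceil_eq_iff]
      push_cast
      constructor
      · linarith
      · exact h2
    omega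
  · rintro rfl i
    constructor
    · have := Int.ceil_lt_add_one (x i)
      push_cast
      linarith
    · have := Int.le_ceil (x i)
      push_cast
      linarith

theorem TP_Q_disj {n : ℕ} : Pairwise (Function.onFun Disjoint fun k : Fin n → ℤ => TP_Q k) := by
  intro k l hkl
  rw [Function.onFun, Set.disjoint_left]
  intro x h1 h2
  exact hkl (((TP_Q_mem k x).1 h1).trans ((TP_Q_mem l x).1 h2).symm)

theorem TP_Q_union {n : ℕ} : (⋃ k : Fin n → ℤ, TP_Q k) = Set.univ := by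
  ext x
  simp only [Set.mem_iUnion, Set.mem_univ, iff_true]
  exact ⟨_, (TP_Q_mem _ x).2 rfl⟩

theorem TP_shift {n : ℕ} {E : Type*} [NormedAddCommGroup E] [NormedSpace ℝ E]
    (h : (Fin n → ℝ) → E) (k : Fin n → ℤ) :
    ∫ x in TP_Q k, h x = ∫ x in TP_Q (0 : Fin n → ℤ), h (fun j => x j + k j) := by
  have hmp : MeasurePreserving (fun x : Fin n → ℝ => x + fun j => (k j : ℝ)) volume volume :=
    measurePreserving_add_right volume _
  have hme : MeasurableEmbedding (fun x : Fin n → ℝ => x + fun j => (k j : ℝ)) :=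
    (Homeomorph.addRight (fun j => (k j : ℝ))).measurableEmbedding
  rw [← hmp.setIntegral_preimage_emb hme h (TP_Q k)]
  have hpre : (fun x : Fin n → ℝ => x + fun j => (k j : ℝ)) ⁻¹' (TP_Q k) = TP_Q 0 := by
    ext x
    simp only [TP_Q, Set.mem_preimage, Set.mem_ofPred_eq, Pi.add_apply, Pi.zero_apply,
      Int.cast_zero, Set.mem_Ioc]
    refine forall_congr' fun i => ?_
    constructor
    · rintro ⟨h1, h2⟩
      constructor <;> linarith
    · rintro ⟨h1, h2⟩
      constructor <;> linarith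
  rw [hpre]
  rfl

theorem TP_exp_int {n : ℕ} (m k : Fin n → ℤ) (x : Fin n → ℝ) :
    Complex.exp (-(2 * Real.pi * Complex.I * ∑ j, (m j : ℂ) * ((x j + k j : ℝ) : ℂ))) =
      Complex.exp (-(2 * Real.pi * Complex.I * ∑ j, (m j : ℂ) * (x j : ℂ))) := by
  have h : -(2 * Real.pi * Complex.I * ∑ j, (m j : ℂ) * ((x j + k j : ℝ) : ℂ)) =
      -(2 * Real.pi * Complex.I * ∑ j, (m j : ℂ) * (x j : ℂ)) +
        ((-∑ j, m j * k j : ℤ) : ℂ) * (2 * Real.pi * Complex.I) := by
    push_cast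
    simp only [mul_add, Finset.sum_add_distrib]
    ring
  rw [h, Complex.exp_add, Complex.exp_int_mul_two_pi_mul_I, mul_one]

theorem TP_coeff {n : ℕ} {f : (Fin n → ℝ) → ℂ} (hf : Continuous f) (hb : EDec f)
    (m : Fin n → ℤ) :
    UnitAddTorus.mFourierCoeff (TP_F f) m = FT f (fun j => (m j : ℝ)) := by
  set h : (Fin n → ℝ) → ℂ := fun x =>
    f x * Complex.exp (-(2 * Real.pi * Complex.I * ∑ j, (m j : ℂ) * (x j : ℂ))) with hh
  have hInt : Integrable h := by
    refine (TP_integrable hf hb).mul_bdd (c := 1) ?_ ?_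
    · refine Continuous.aestronglyMeasurable ?_
      fun_prop
    · refine Filter.Eventually.of_forall fun x => ?_
      rw [Complex.norm_exp]
      have : (-(2 * Real.pi * Complex.I * ∑ j, (m j : ℂ) * (x j : ℂ))).re = 0 := by
        have e : ∑ j, (m j : ℂ) * (x j : ℂ) = ((∑ j, (m j : ℝ) * x j : ℝ) : ℂ) := by
          push_cast
          rfl
        rw [e]
        simp
      rw [this, Real.exp_zero]
  have hsum := hasSum_integral_iUnion (s := fun k : Fin n → ℤ => TP_Q k) (μ := volume)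
    TP_Q_meas TP_Q_disj (f := h) hInt.integrableOn
  have hsumn := hasSum_integral_iUnion (s := fun k : Fin n → ℤ => TP_Q k) (μ := volume)
    TP_Q_meas TP_Q_disj (f := fun x => ‖h x‖) hInt.norm.integrableOn
  rw [TP_Q_union, setIntegral_univ] at hsum hsumn
  rw [UnitAddTorus.mFourierCoeff_eq_integral _ _ (fun _ => 0)]
  have hset : {x : Fin n → ℝ | ∀ i, x i ∈ Set.Ioc (0 : ℝ) (0 + 1)} = TP_Q 0 := by
    ext x
    simp [TP_Q]
  rw [hset]
  have e1 : ∫ x in TP_Q (0 : Fin n → ℤ), UnitAddTorus.mFourier (-m) (fun i => (x i : UnitAddCircle)) •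
      TP_F f (fun i => (x i : UnitAddCircle)) =
      ∫ x in TP_Q (0 : Fin n → ℤ), ∑' k : Fin n → ℤ, h (fun j => x j + k j) := by
    refine integral_congr_ae (Filter.Eventually.of_forall fun x => ?_)
    simp only
    have e2 : (fun i => (x i : UnitAddCircle)) = TP_pi n x := rfl
    rw [e2, TP_F_pi, TP_mFourier, TP_S, smul_eq_mul, ← tsum_mul_left]
    refine tsum_congr fun k => ?_
    rw [hh]
    simp only
    rw [TP_exp_int, mul_comm]
    congr 2
    simp
  rw [e1, ← integral_tsum_of_summable_integral_norm]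
  · have e3 : ∀ k : Fin n → ℤ, ∫ x in TP_Q (0 : Fin n → ℤ), h (fun j => x j + k j) =
        ∫ x in TP_Q k, h x := fun k => (TP_shift h k).symm
    rw [tsum_congr e3, hsum.tsum_eq, hh, FT]
    simp
  · intro k
    have hmp : MeasurePreserving (fun x : Fin n → ℝ => x + fun j => (k j : ℝ)) volume volume :=
      measurePreserving_add_right volume _
    exact (hmp.integrable_comp_of_integrable hInt).integrableOn
  · have e3 : ∀ k : Fin n → ℤ, ∫ x in TP_Q (0 : Fin n → ℤ), ‖h (fun j => x j + k j)‖ =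
        ∫ x in TP_Q k, ‖h x‖ := fun k => (TP_shift (fun x => ‖h x‖) k).symm
    refine hsumn.summable.congr fun k => (e3 k).symm

/-- **Poisson summation.** -/
theorem TP {n : ℕ} {f : (Fin n → ℝ) → ℂ} (hf : Continuous f) (hb : EDec f)
    (hs : Summable fun m : Fin n → ℤ => FT f (fun j => (m j : ℝ))) (c : Fin n → ℝ) :
    ∑' m : Fin n → ℤ, f (fun j => c j + m j) =
      ∑' m : Fin n → ℤ, FT f (fun j => (m j : ℝ)) *
        Complex.exp (2 * Real.pi * Complex.I * ∑ j, (m j : ℂ) * (c j : ℂ)) := by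
  let F : C(UnitAddTorus (Fin n), ℂ) := ⟨TP_F f, TP_F_cont hf hb⟩
  have h1 : Summable (UnitAddTorus.mFourierCoeff F) :=
    hs.congr fun m => (TP_coeff hf hb m).symm
  have h2 := UnitAddTorus.hasSum_mFourier_series_apply_of_summable h1 (TP_pi n c)
  have h3 : F (TP_pi n c) = ∑' m : Fin n → ℤ, f (fun j => c j + m j) := TP_F_pi f c
  rw [h3] at h2
  rw [← h2.tsum_eq]
  refine tsum_congr fun m => ?_
  rw [TP_mFourier, smul_eq_mul]
  congr 1
  exact TP_coeff hf hb m

end H53M
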