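import Mathlib

/-!
# H53M, module T, common analytic part: definitions

`FT f w = ∫ f(x) exp(-2πi w·x) dx` on `Fin n → ℝ`.
-/

namespace H53M

open MeasureTheory

/-- Fourier transform on `ℝⁿ = (Fin n → ℝ)`. -/
noncomputable def FT {n : ℕ} (f : (Fin n → ℝ) → ℂ) (w : Fin n → ℝ) : ℂ :=
  ∫ x : Fin n → ℝ, f x * Complex.exp (-(2 * Real.pi * Complex.I * ∑ j, (w j : ℂ) * (x j : ℂ)))

/-- `f` is dominated by `C exp(-ε |x|₁)`. -/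
def EDec {n : ℕ} (f : (Fin n → ℝ) → ℂ) : Prop :=
  ∃ C ε : ℝ, 0 < ε ∧ ∀ x, ‖f x‖ ≤ C * Real.exp (-(ε * ∑ j, |x j|))

end H53M
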