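import Mathlib

/-!
# H53M, common definitions of Part II

Part II is purely about a double array `c : ℕ → ℤ → ℤ` (the coefficients of the base change of a
cusp form to `ℚ(√5)`, supplied by Part I) and formal power series.

* `e2 e4 e6 dl` : integral `q`-expansions of `E₂, E₄, E₆, Δ`;
* `MP p w` : modular forms modulo `p` of level one and weight `w` (span of the reductions of
  `Δ^c E₄^a E₆^b`, `12 c + 4 a + 6 b = w`);
* `th` : the operator `θ = q d/dq` on power series;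
* `Arr k c` : the properties of the array proved in Part I;
* `hser c` : the series `h = Σ_n n (Σ_m c(n,m) / (u v)) q^n`, `u v = (5 n² - m²)/20`;
* `Rel w' h` : a nontrivial isobaric polynomial relation between `E₂⁶`, `h⁶`, `E₄³`, `Δ`.
-/

namespace H53M

open PowerSeries

/-- `E₂ = 1 - 24 Σ σ₁(n) qⁿ`. -/
noncomputable def e2 : PowerSeries ℤ :=
  PowerSeries.mk fun n => if n = 0 then 1 else -24 * (ArithmeticFunction.sigma 1 n : ℤ)

/-- `E₄ = 1 + 240 Σ σ₃(n) qⁿ`. -/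
noncomputable def e4 : PowerSeries ℤ :=
  PowerSeries.mk fun n => if n = 0 then 1 else 240 * (ArithmeticFunction.sigma 3 n : ℤ)

/-- `E₆ = 1 - 504 Σ σ₅(n) qⁿ`. -/
noncomputable def e6 : PowerSeries ℤ :=
  PowerSeries.mk fun n => if n = 0 then 1 else -504 * (ArithmeticFunction.sigma 5 n : ℤ)

/-- `Δ = (E₄³ - E₆²) / 1728`, integral coefficients (chunk `QDL` proves that the division is
exact). -/
noncomputable def dl : PowerSeries ℤ :=
  PowerSeries.mk fun n => (PowerSeries.coeff n (e4 ^ 3 - e6 ^ 2)) / 1728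

/-- Reduction of an integral power series modulo `p`. -/
noncomputable abbrev redZ (p : ℕ) : PowerSeries ℤ →+* PowerSeries (ZMod p) :=
  PowerSeries.map (Int.castRingHom (ZMod p))

/-- Coefficientwise reduction of a rational power series (meaningful if `p` is prime and divides
no denominator). -/
noncomputable def redQ (p : ℕ) [Fact p.Prime] (h : PowerSeries ℚ) : PowerSeries (ZMod p) :=
  PowerSeries.mk fun n => ((PowerSeries.coeff n h : ℚ) : ZMod p)

/-- Modular forms modulo `p`, of level one and weight `w`. -/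
noncomputable def MP (p w : ℕ) : Submodule (ZMod p) (PowerSeries (ZMod p)) :=
  Submodule.span (ZMod p)
    {f | ∃ a b c : ℕ, 4 * a + 6 * b + 12 * c = w ∧ f = redZ p (dl ^ c * e4 ^ a * e6 ^ b)}

/-- `θ = q d/dq`. -/
noncomputable def th {R : Type*} [Semiring R] (f : PowerSeries R) : PowerSeries R :=
  PowerSeries.mk fun n => (n : R) * PowerSeries.coeff n f

/-- `u(n,m) = (n + m/√5)/2`. -/
noncomputable def uu (n : ℕ) (m : ℤ) : ℝ := ((n : ℝ) + (m : ℝ) / Real.sqrt 5) / 2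

/-- `v(n,m) = (n - m/√5)/2`. -/
noncomputable def vv (n : ℕ) (m : ℤ) : ℝ := ((n : ℝ) - (m : ℝ) / Real.sqrt 5) / 2

/-- `N(n,m) = (5 n² - m²)/4` (exact when `n ≡ m mod 2`); `u v = N/5`. -/
def NN (n : ℕ) (m : ℤ) : ℤ := (5 * (n : ℤ) ^ 2 - m ^ 2) / 4

/-- The finite set of indices `m` which may occur for given `n` (`m² < 5 n²`). -/
noncomputable def ms (n : ℕ) : Finset ℤ := Finset.Icc (-(3 * (n : ℤ))) (3 * (n : ℤ))

/-- Exponential double series attached to an array `f`. -/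
noncomputable def GS (f : ℕ → ℤ → ℂ) (z₁ z₂ : ℂ) : ℂ :=
  ∑' n : ℕ, ∑ m ∈ ms n, f n m *
    Complex.exp (2 * Real.pi * Complex.I * ((uu n m : ℂ) * z₁ + (vv n m : ℂ) * z₂))

/-- What Part I supplies: the coefficients of a Hilbert cusp form of parallel weight `k` for
`ℚ(√5)`, of which only the behaviour under the diagonal `SL₂(ℤ)` is used. -/
structure Arr (k : ℕ) (c : ℕ → ℤ → ℤ) : Prop where
  /-- support: `ν = u` totally positive in the inverse different -/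
  supp : ∀ n m, c n m ≠ 0 → m ^ 2 < 5 * (n : ℤ) ^ 2 ∧ Even ((n : ℤ) - m)
  /-- growth -/
  bound : ∃ C : ℝ, ∀ n m, c n m ≠ 0 →
    |(c n m : ℝ)| ≤ C * (n : ℝ) ^ 4 * (NN n m : ℝ) ^ (k / 2 - 1)
  /-- modularity under `z ↦ -1/z` (diagonal) -/
  trans : ∀ z₁ z₂ : ℂ, 0 < z₁.im → 0 < z₂.im →
    GS (fun n m => (c n m : ℂ)) (-1 / z₁) (-1 / z₂) =
      (z₁ * z₂) ^ k * GS (fun n m => (c n m : ℂ)) z₁ z₂
  /-- non-triviality -/
  ne : c 1 1 + c 1 (-1) ≠ 0

/-- `h = Σ_n n (Σ_m c(n,m)/(u v)) qⁿ`. -/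
noncomputable def hser (c : ℕ → ℤ → ℤ) : PowerSeries ℚ :=
  PowerSeries.mk fun n => 5 * (n : ℚ) * ∑ m ∈ ms n, (c n m : ℚ) / (NN n m : ℚ)

/-- The rational version of an integral series. -/
noncomputable abbrev toQ : PowerSeries ℤ →+* PowerSeries ℚ :=
  PowerSeries.map (Int.castRingHom ℚ)

/-- The auxiliary function `Σ g(i,j,l) Δ^l E₄^{3(W-i-w'j-l)} E₂^{6i} h^{6j}`, isobaric of weight
`12 W` if `h` has weight `2 w'`. -/
noncomputable def Phi (w' W : ℕ) (S : Finset (ℕ × ℕ × ℕ)) (g : ℕ × ℕ × ℕ → ℤ)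
    (h : PowerSeries ℚ) : PowerSeries ℚ :=
  ∑ t ∈ S, (g t : ℚ) • (toQ (dl ^ t.2.2 * e4 ^ (3 * (W - t.1 - w' * t.2.1 - t.2.2)) *
    e2 ^ (6 * t.1)) * h ^ (6 * t.2.1))

/-- A nontrivial isobaric relation. -/
def Rel (w' : ℕ) (h : PowerSeries ℚ) : Prop :=
  ∃ (W : ℕ) (S : Finset (ℕ × ℕ × ℕ)) (g : ℕ × ℕ × ℕ → ℤ),
    (∀ t ∈ S, t.1 + w' * t.2.1 + t.2.2 ≤ W) ∧ (∃ t ∈ S, g t ≠ 0) ∧ Phi w' W S g h = 0

end H53M
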