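import Pool.Agent.Lib.H53M.SC

/-!
# H53M, chunk SD: Siegel's lemma

Size M.

PROOF. U = card Idx ≥ 2, T = U/2 (natural division), 1 ≤ T < U. Matrix a with rows n < T
(`Fin T`) and columns t ∈ Idx (the subtype), a n t = the integer D(T)^(6B) * coeff n (Ft t)
(`Ft_int` with n := T, m := n). Its entries are bounded by M = D(T)^(6B) * E, E ≥ 1 where E bounds
|coeff n (Ft t)|, n < T. Mathlib `Int.Matrix.exists_ne_zero_int_vec_norm_le`: x ≠ 0, a x = 0,
‖x‖ ≤ (U max(1,‖a‖))^(T/(U-T)) ≤ U * M, since T ≤ U - T and U M ≥ 1 (`Real.rpow_le_rpow_of_exponent_le`,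
‖a‖ ≤ M by `Matrix.norm_le_iff`, the norm used there is the sup norm: see the file
Mathlib/NumberTheory/SiegelsLemma.lean). Extend x by 0 outside Idx. a x = 0 says
D(T)^(6B) * coeff n (Phi) = 0 (`coeff_Phi`), and D(T) ≠ 0.
-/

namespace H53M

open PowerSeries

attribute [local instance] Matrix.seminormedAddCommGroup

/-- Siegel's lemma for a rational system with common denominator. -/
theorem SD_siegel {ι : Type*} [DecidableEq ι] (S : Finset ι) (T : ℕ) (hT : 1 ≤ T)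
    (hTS : 2 * T ≤ S.card) (f : ℕ → ι → ℚ) (R : ℕ) (hR : 0 < R) (E : ℝ) (hE : 1 ≤ E)
    (hint : ∀ n, n < T → ∀ t ∈ S, ∃ z : ℤ, (R : ℚ) * f n t = z)
    (hb : ∀ n, n < T → ∀ t ∈ S, |((f n t : ℚ) : ℝ)| ≤ E) :
    ∃ x : ι → ℤ, (∃ t ∈ S, x t ≠ 0) ∧
      (∀ t, |(x t : ℝ)| ≤ S.card * ((R : ℝ) * E)) ∧
      ∀ n, n < T → ∑ t ∈ S, (x t : ℚ) * f n t = 0 := by
  choose z hz using hint
  let a : Matrix (Fin T) {t // t ∈ S} ℤ := fun n t => z n.1 n.2 t.1 t.2
  have hcard : Fintype.card {t // t ∈ S} = S.card := Fintype.card_coe S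
  have hR1 : (1 : ℝ) ≤ R := by exact_mod_cast hR
  have hM1 : 1 ≤ (R : ℝ) * E := one_le_mul_of_one_le_of_one_le hR1 hE
  have hU : (1 : ℝ) ≤ S.card := by
    have : 1 ≤ S.card := by omega
    exact_mod_cast this
  have ha : ‖a‖ ≤ (R : ℝ) * E := by
    rw [Matrix.norm_le_iff (by positivity)]
    intro n t
    have h1 := hz n.1 n.2 t.1 t.2
    have h2 : ((z n.1 n.2 t.1 t.2 : ℤ) : ℝ) = (R : ℝ) * ((f n.1 t.1 : ℚ) : ℝ) := by
      exact_mod_cast h1.symm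
    change ‖z n.1 n.2 t.1 t.2‖ ≤ _
    rw [Int.norm_eq_abs, h2, abs_mul, abs_of_nonneg (by positivity : (0 : ℝ) ≤ R)]
    exact mul_le_mul_of_nonneg_left (hb n.1 n.2 t.1 t.2) (by positivity)
  obtain ⟨v, hv0, hv1, hv2⟩ := Int.Matrix.exists_ne_zero_int_vec_norm_le a
    (by rw [Fintype.card_fin, hcard]; omega) (by rw [Fintype.card_fin]; omega)
  rw [hcard, Fintype.card_fin] at hv2
  have hv3 : ‖v‖ ≤ S.card * ((R : ℝ) * E) := by
    refine hv2.trans ?_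
    have hbase : 1 ≤ (S.card : ℝ) * max 1 ‖a‖ :=
      one_le_mul_of_one_le_of_one_le hU (le_max_left _ _)
    have hexp : (T : ℝ) / ((S.card : ℝ) - T) ≤ 1 := by
      have hTS' : 2 * (T : ℝ) ≤ S.card := by exact_mod_cast hTS
      have hT' : (1 : ℝ) ≤ T := by exact_mod_cast hT
      rw [div_le_one (by linarith)]
      linarith
    calc ((S.card : ℝ) * max 1 ‖a‖) ^ ((T : ℝ) / ((S.card : ℝ) - T))
        ≤ ((S.card : ℝ) * max 1 ‖a‖) ^ (1 : ℝ) := Real.rpow_le_rpow_of_exponent_le hbase hexp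
      _ = (S.card : ℝ) * max 1 ‖a‖ := Real.rpow_one _
      _ ≤ S.card * ((R : ℝ) * E) := by
        refine mul_le_mul_of_nonneg_left (max_le hM1 ha) (by positivity)
  refine ⟨fun t => if h : t ∈ S then v ⟨t, h⟩ else 0, ?_, ?_, ?_⟩
  · by_contra hcon
    push Not at hcon
    apply hv0
    funext t
    have := hcon t.1 t.2
    rw [dif_pos t.2] at this
    exact this
  · intro t
    simp only []
    by_cases h : t ∈ S
    · rw [dif_pos h]
      have := norm_le_pi_norm v ⟨t, h⟩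
      rw [Int.norm_eq_abs] at this
      exact this.trans hv3
    · rw [dif_neg h]
      simp only [Int.cast_zero, abs_zero]
      positivity
  · intro n hn
    have h1 := congrFun hv1 ⟨n, hn⟩
    have h2 : ∑ t : {t // t ∈ S}, z n hn t.1 t.2 * v t = 0 := h1
    have h3 : (R : ℚ) * ∑ t ∈ S, (((if h : t ∈ S then v ⟨t, h⟩ else 0 : ℤ)) : ℚ) * f n t = 0 := by
      rw [Finset.mul_sum, ← Finset.sum_coe_sort S]
      have h4 : ((∑ t : {t // t ∈ S}, z n hn t.1 t.2 * v t : ℤ) : ℚ) = 0 := by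
        rw [h2]
        simp
      rw [Int.cast_sum] at h4
      rw [← h4]
      refine Finset.sum_congr rfl fun t _ => ?_
      rw [dif_pos t.2, Int.cast_mul, ← hz n hn t.1 t.2]
      ring
    have hR0 : (R : ℚ) ≠ 0 := by exact_mod_cast hR.ne'
    exact (mul_eq_zero.1 h3).resolve_left hR0

theorem siegel (w' A B W : ℕ) (hA : 1 ≤ A) (h : PowerSeries ℚ) (D : ℕ → ℕ) (hD0 : ∀ n, 0 < D n)
    (hDd : ∀ n, D n ∣ D (n + 1)) (hDh : ∀ n, ∃ z : ℤ, (D n : ℚ) * coeff n h = z)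
    (hU : 2 ≤ (Idx w' A B W).card) (E : ℝ) (hE : 1 ≤ E)
    (hb : ∀ t ∈ Idx w' A B W, ∀ n : ℕ, n ≤ (Idx w' A B W).card / 2 →
      |((coeff n (Ft w' W h t) : ℚ) : ℝ)| ≤ E) :
    ∃ x : ℕ × ℕ × ℕ → ℤ, (∃ t ∈ Idx w' A B W, x t ≠ 0) ∧
      (∀ t, |(x t : ℝ)| ≤ (Idx w' A B W).card *
        ((D ((Idx w' A B W).card / 2) : ℝ) ^ (6 * B) * E)) ∧
      ∀ n, n < (Idx w' A B W).card / 2 → coeff n (Phi w' W (Idx w' A B W) x h) = 0 := by
  obtain ⟨x, h1, h2, h3⟩ := SD_siegel (Idx w' A B W) ((Idx w' A B W).card / 2) (by omega) (by omega)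
    (fun n t => coeff n (Ft w' W h t)) (D ((Idx w' A B W).card / 2) ^ (6 * B))
    (pow_pos (hD0 _) _) E hE
    (fun n hn t ht => by
      obtain ⟨z, hz⟩ := Ft_int w' A B W hA h D hDd hDh t ht ((Idx w' A B W).card / 2) n hn.le
      exact ⟨z, by rw [Nat.cast_pow]; exact hz⟩)
    (fun n hn t ht => hb t ht n hn.le)
  refine ⟨x, h1, ?_, ?_⟩
  · intro t
    have := h2 t
    rwa [Nat.cast_pow] at this
  · intro n hn
    rw [coeff_Phi]
    exact h3 n hn

end H53M
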