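import Pool.Agent.Lib.H53M.Defs

/-!
# H53M, module X (transcendence), definitions

The abstract analytic object is `F c u v s z w = Σ_i c_i v_i^{-s} e(u_i z + v_i w)`, a family of
exponential series in two variables, indexed by an arbitrary type, absolutely convergent because
of `Fam.sum`.  The final theorem of the module is `not_rel` in `XFin.lean`.
-/

namespace H53M

namespace X

open Filter Topology

/-- `e(z) = exp(2πiz)` (literally as in `GS`). -/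
noncomputable def ex (z : ℂ) : ℂ := Complex.exp (2 * Real.pi * Complex.I * z)

/-- Families of positive frequencies `u_i, v_i` with `Σ |c_i| v_i^{-K} exp(-2π u_i y) < ∞` for
every `y > 0`. -/
structure Fam {ι : Type*} (K : ℕ) (c : ι → ℂ) (u v : ι → ℝ) : Prop where
  pos : ∀ i, c i ≠ 0 → 0 < u i ∧ 0 < v i
  sum : ∀ y : ℝ, 0 < y →
    Summable fun i => ‖c i‖ * (v i)⁻¹ ^ K * Real.exp (-(2 * Real.pi * u i * y))

/-- `F_s(z,w) = Σ c_i v_i^{-s} e(u_i z + v_i w)`. -/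
noncomputable def F {ι : Type*} (c : ι → ℂ) (u v : ι → ℝ) (s : ℕ) (z w : ℂ) : ℂ :=
  ∑' i, c i * ((v i : ℂ)⁻¹) ^ s * ex ((u i : ℂ) * z + (v i : ℂ) * w)

/-- The limit series `Σ c_i v_i^{-K} e(u_i z)`. -/
noncomputable def L {ι : Type*} (c : ι → ℂ) (u v : ι → ℝ) (K : ℕ) (z : ℂ) : ℂ :=
  ∑' i, c i * ((v i : ℂ)⁻¹) ^ K * ex ((u i : ℂ) * z)

/-- Coefficient `(-1)^j (K-1)(K-2)...(K-j) (2πi)^{-(j+1)}`. -/
noncomputable def co (K j : ℕ) : ℂ :=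
  (-1) ^ j * ((K - 1).descFactorial j : ℂ) * ((2 * Real.pi * Complex.I)⁻¹) ^ (j + 1)

/-- `A(w) = 2πi τ^{K+1} Σ_{j<K} co(K,j) w^{K-1-j} F_{j+1}(τ,w)`, a primitive of
`2πi τ^{K+1} w^{K-1} F_0(τ,w)`. -/
noncomputable def A {ι : Type*} (K : ℕ) (c : ι → ℂ) (u v : ι → ℝ) (τ w : ℂ) : ℂ :=
  2 * Real.pi * Complex.I * τ ^ (K + 1) *
    ∑ j ∈ Finset.range K, co K j * w ^ (K - 1 - j) * F c u v (j + 1) τ w

/-- The index type of the double series. -/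
abbrev Idx : Type := ℕ × ℤ

/-- Coefficients, frequencies on `Idx`. -/
noncomputable def cc (c : ℕ → ℤ → ℤ) : Idx → ℂ := fun i => (c i.1 i.2 : ℂ)

/-- `u` on `Idx` -/
noncomputable def U : Idx → ℝ := fun i => uu i.1 i.2

/-- `v` on `Idx` -/
noncomputable def V : Idx → ℝ := fun i => vv i.1 i.2

/-- `R(τ) = Σ c [v^{-K} e(uτ) + u^{-K} e(vτ)]` along `τ = τ₀ + 2N`: the function `g`,
`g(s) = Σ c [v^{-K} e(uτ₀) e(ms) + u^{-K} e(vτ₀) e(-ms)]`. -/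
noncomputable def gg (K : ℕ) (c : ℕ → ℤ → ℤ) (τ : ℂ) (s : ℝ) : ℂ :=
  ∑' i : Idx, (cc c i * ((V i : ℂ)⁻¹) ^ K * ex ((U i : ℂ) * τ) * ex ((i.2 : ℂ) * s) +
    cc c i * ((U i : ℂ)⁻¹) ^ K * ex ((V i : ℂ) * τ) * ex (-((i.2 : ℂ) * s)))

/-- `Q_s(τ) = F_s + F_s` with the roles of `u` and `v` exchanged; it has period one. -/
noncomputable def Q (c : ℕ → ℤ → ℤ) (s : ℕ) (τ : ℂ) : ℂ :=
  F (cc c) U V s τ τ + F (cc c) V U s τ τ

lemma ex_add (z w : ℂ) : ex (z + w) = ex z * ex w := by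
  unfold ex
  rw [← Complex.exp_add]
  congr 1
  ring

lemma ex_ne_zero (z : ℂ) : ex z ≠ 0 := Complex.exp_ne_zero _

lemma norm_ex (z : ℂ) : ‖ex z‖ = Real.exp (-(2 * Real.pi * z.im)) := by
  unfold ex
  rw [Complex.norm_exp]
  congr 1
  simp [Complex.mul_re, Complex.mul_im]

lemma norm_ex_lt_one {z : ℂ} (hz : 0 < z.im) : ‖ex z‖ < 1 := by
  rw [norm_ex, Real.exp_lt_one_iff]
  have := Real.pi_pos
  have h2 : 0 < 2 * Real.pi * z.im := by positivity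
  linarith

lemma ex_intCast (m : ℤ) : ex (m : ℂ) = 1 := by
  unfold ex
  rw [Complex.exp_eq_one_iff]
  exact ⟨m, by ring⟩

lemma ex_natCast (m : ℕ) : ex (m : ℂ) = 1 := by
  have := ex_intCast (m : ℤ)
  simpa using this

lemma ex_pow (z : ℂ) (n : ℕ) : ex z ^ n = ex ((n : ℂ) * z) := by
  unfold ex
  rw [← Complex.exp_nat_mul]
  congr 1
  ring

lemma GS_eq (f : ℕ → ℤ → ℂ) (z₁ z₂ : ℂ) : GS f z₁ z₂ =
    ∑' n : ℕ, ∑ m ∈ ms n, f n m * ex ((uu n m : ℂ) * z₁ + (vv n m : ℂ) * z₂) := rfl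

end X

end H53M
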