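import Pool.Agent.Lib.H53M.K0

/-!
# H53M, chunk K2 (size M): the calculus lemma

Induction on `a`.  Write `κ = 2πi`.  The right side is
`Σ_i kc(a,i) κ^(-i) z^(k+2a-i) F_{a-i}(z)` (note `(1/(κ z))^i z^(k+2a) = κ^(-i) z^(k+2a-i)`, `i ≤ a`),
with derivative `Σ_i kc(a,i) κ^(-i) [ (k+2a-i) z^(k+2a-i-1) F_{a-i} + κ z^(k+2a-i) F_{a-i+1} ]`;
the left side has derivative `κ H_{a+1}(-1/z) z^(-2)` (chain rule, `d/dz (-1/z) = z^(-2)`, and
`Im(-1/z) > 0`).  Both sides agree on the open upper half plane, so their derivatives agree: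
`H_{a+1}(-1/z) = Σ_i kc(a,i) κ^(-i) [ (k+2a-i) κ^(-1) z^(k+2a-i+1) F_{a-i} + z^(k+2a+2-i) F_{a+1-i} ]`.
The coefficient of `κ^(-l) z^(k+2a+2-l) F_{a+1-l}` is
`kc(a,l) + (k+2a-l+1) kc(a,l-1)` (first term absent for `l = a+1`, second for `l = 0`), and this is
`kc(a+1,l)`: with `D = (k+a-1)_{l-1}` one has `(k+a-1)_l = D (k+a-l)`, `(k+a)_l = (k+a) D`, and
`binom(a,l)(k+a-l) + binom(a,l-1)(k+2a-l+1) = (binom(a,l) + binom(a,l-1))(k+a)` because
`binom(a,l-1)(a-l+1) = l binom(a,l)`.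
-/

namespace H53M

/-- The numerical identity. -/
theorem kc_succ (k a l : ℕ) (hk : 1 ≤ k) (hl : l + 1 ≤ a) :
    kc k (a + 1) (l + 1) = kc k a (l + 1) + (k + 2 * a - l) * kc k a l := by
  obtain ⟨k, rfl⟩ := Nat.exists_eq_add_of_le hk
  obtain ⟨m, rfl⟩ := Nat.exists_eq_add_of_le hl
  unfold kc
  have e1 : 1 + k + (l + 1 + m + 1) - 1 = (k + (l + 1 + m)) + 1 := by omega
  have e2 : 1 + k + (l + 1 + m) - 1 = k + (l + 1 + m) := by omega
  rw [e1, e2, Nat.succ_descFactorial_succ, Nat.descFactorial_succ, Nat.choose_succ_succ]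
  have e3 : k + (l + 1 + m) - l = k + 1 + m := by omega
  have e4 : 1 + k + 2 * (l + 1 + m) - l = k + l + 2 * m + 3 := by omega
  rw [e3, e4]
  have h1 := Nat.choose_succ_right_eq (l + 1 + m) l
  have e5 : l + 1 + m - l = m + 1 := by omega
  rw [e5] at h1
  generalize (k + (l + 1 + m)).descFactorial l = D
  generalize (l + 1 + m).choose l = x at h1 ⊢
  generalize (l + 1 + m).choose (l + 1) = y at h1 ⊢
  have h2 : y * (l + 1) * D = x * (m + 1) * D := by rw [h1]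
  linear_combination h2

theorem kc_succ_last (k a : ℕ) (hk : 1 ≤ k) :
    kc k (a + 1) (a + 1) = (k + a) * kc k a a := by
  unfold kc
  have e1 : k + (a + 1) - 1 = (k + a - 1) + 1 := by omega
  have e2 : k + a - 1 + 1 = k + a := by omega
  rw [e1, Nat.succ_descFactorial_succ, Nat.choose_self, Nat.choose_self, one_mul, one_mul, e2]

/-- both cases together -/
theorem K2_kc (k a l : ℕ) (hk : 1 ≤ k) (hl : l ≤ a) :
    kc k (a + 1) (l + 1) = kc k a (l + 1) + (k + 2 * a - l) * kc k a l := by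
  rcases Nat.lt_or_ge l a with h | h
  · exact kc_succ k a l hk h
  · obtain rfl : l = a := le_antisymm hl h
    have e1 : kc k l (l + 1) = 0 := by
      unfold kc
      rw [Nat.choose_succ_self, zero_mul]
    have e2 : k + 2 * l - l = k + l := by omega
    rw [kc_succ_last k l hk, e1, e2, zero_add]

/-- the right side of `K2`, expanded -/
noncomputable def K2R (k : ℕ) (F : ℕ → ℂ → ℂ) (a : ℕ) (z : ℂ) : ℂ :=
  ∑ i ∈ Finset.range (a + 1), (kc k a i : ℂ) * ((2 * Real.pi * Complex.I)⁻¹) ^ i *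
    z ^ (k + 2 * a - i) * F (a - i) z

theorem K2_expand (k : ℕ) (F : ℕ → ℂ → ℂ) (a : ℕ) (z : ℂ) (hz : z ≠ 0) :
    z ^ (k + 2 * a) * low1 k (1 / (2 * Real.pi * Complex.I * z)) (fun a' => F a' z) a =
      K2R k F a z := by
  unfold low1 K2R
  rw [Finset.mul_sum]
  refine Finset.sum_congr rfl fun i hi => ?_
  have hia : i ≤ a := Nat.lt_succ_iff.1 (Finset.mem_range.1 hi)
  have e1 : k + 2 * a = (k + 2 * a - i) + i := by omega
  have e2 : (1 / (2 * (Real.pi : ℂ) * Complex.I * z)) ^ i =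
      ((2 * Real.pi * Complex.I)⁻¹) ^ i * (z⁻¹) ^ i := by
    rw [← mul_pow, one_div, mul_inv]
  have e3 : z ^ (k + 2 * a) * (z⁻¹) ^ i = z ^ (k + 2 * a - i) := by
    conv_lhs => rw [e1]
    rw [pow_add, mul_assoc, ← mul_pow, mul_inv_cancel₀ hz, one_pow, mul_one]
  rw [e2, ← e3]
  ring

theorem K2_deriv (k : ℕ) (hk : 1 ≤ k) (F : ℕ → ℂ → ℂ)
    (hF : ∀ a z, 0 < z.im → HasDerivAt (F a) (2 * Real.pi * Complex.I * F (a + 1) z) z)
    (a : ℕ) (z : ℂ) (hz : 0 < z.im) :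
    HasDerivAt (K2R k F a) ((2 * Real.pi * Complex.I) * (z ^ 2)⁻¹ * K2R k F (a + 1) z) z := by
  have hz0 : z ≠ 0 := by
    rintro rfl
    simp at hz
  have hκ : (2 * (Real.pi : ℂ) * Complex.I) ≠ 0 := by
    refine mul_ne_zero (mul_ne_zero two_ne_zero ?_) Complex.I_ne_zero
    exact_mod_cast Real.pi_ne_zero
  set κ : ℂ := 2 * Real.pi * Complex.I with hκd
  have h1 : ∀ i ∈ Finset.range (a + 1), HasDerivAt
      (fun z => (kc k a i : ℂ) * (κ⁻¹) ^ i * z ^ (k + 2 * a - i) * F (a - i) z)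
      ((kc k a i : ℂ) * (κ⁻¹) ^ i * (((k + 2 * a - i : ℕ) : ℂ) * z ^ (k + 2 * a - i - 1)) *
        F (a - i) z + (kc k a i : ℂ) * (κ⁻¹) ^ i * z ^ (k + 2 * a - i) *
          (κ * F (a - i + 1) z)) z := by
    intro i _
    exact ((hasDerivAt_pow (k + 2 * a - i) z).const_mul _).mul (hF (a - i) z hz)
  have h2 := HasDerivAt.fun_sum h1
  have h3 : K2R k F a = fun z => ∑ i ∈ Finset.range (a + 1),
      (kc k a i : ℂ) * (κ⁻¹) ^ i * z ^ (k + 2 * a - i) * F (a - i) z := rfl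
  rw [h3]
  refine h2.congr_deriv ?_
  -- the algebraic identity
  have hzz : (z ^ 2)⁻¹ * z ^ 2 = 1 := inv_mul_cancel₀ (pow_ne_zero 2 hz0)
  have hkk : κ * κ⁻¹ = 1 := mul_inv_cancel₀ hκ
  rw [Finset.sum_add_distrib]
  have h4 : K2R k F (a + 1) z = ∑ m ∈ Finset.range (a + 1), ((kc k (a + 1) (m + 1) : ℕ) : ℂ) *
      (κ⁻¹) ^ (m + 1) * z ^ (k + 2 * a + 1 - m) * F (a - m) z + z ^ (k + 2 * a + 2) * F (a + 1) z := by
    unfold K2R
    rw [Finset.sum_range_succ']
    congr 1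
    · refine Finset.sum_congr rfl fun m _ => ?_
      have e1 : k + 2 * (a + 1) - (m + 1) = k + 2 * a + 1 - m := by omega
      have e2 : a + 1 - (m + 1) = a - m := by omega
      rw [e1, e2]
    · have e1 : kc k (a + 1) 0 = 1 := by
        unfold kc
        rw [Nat.choose_zero_right, Nat.descFactorial_zero]
      rw [e1, Nat.cast_one, pow_zero, one_mul, one_mul, Nat.sub_zero, Nat.sub_zero]
      have e3 : k + 2 * (a + 1) = k + 2 * a + 2 := by omega
      rw [e3]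
  have h5 : ∑ i ∈ Finset.range (a + 1), (kc k a i : ℂ) * (κ⁻¹) ^ i * z ^ (k + 2 * a - i) *
      (κ * F (a - i + 1) z) = κ * (z ^ 2)⁻¹ * (∑ m ∈ Finset.range (a + 1),
        ((kc k a (m + 1) : ℕ) : ℂ) * (κ⁻¹) ^ (m + 1) * z ^ (k + 2 * a + 1 - m) * F (a - m) z +
        z ^ (k + 2 * a + 2) * F (a + 1) z) := by
    have e0 : kc k a (a + 1) = 0 := by
      unfold kc
      rw [Nat.choose_succ_self, zero_mul]
    rw [Finset.sum_range_succ', Finset.sum_range_succ (fun m => ((kc k a (m + 1) : ℕ) : ℂ) *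
      (κ⁻¹) ^ (m + 1) * z ^ (k + 2 * a + 1 - m) * F (a - m) z) a, e0, Nat.cast_zero, zero_mul,
      zero_mul, zero_mul, add_zero, mul_add, Finset.mul_sum]
    congr 1
    · refine Finset.sum_congr rfl fun m hm => ?_
      have hma : m < a := Finset.mem_range.1 hm
      have e1 : k + 2 * a + 1 - m = (k + 2 * a - (m + 1)) + 2 := by omega
      have e2 : a - (m + 1) + 1 = a - m := by omega
      rw [e1, e2, pow_add z _ 2]
      linear_combination (-((kc k a (m + 1) : ℂ) * (κ⁻¹) ^ (m + 1) *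
        z ^ (k + 2 * a - (m + 1)) * (κ * F (a - m) z))) * hzz
    · have e1 : kc k a 0 = 1 := by
        unfold kc
        rw [Nat.choose_zero_right, Nat.descFactorial_zero]
      rw [e1, Nat.cast_one, pow_zero, one_mul, one_mul, Nat.sub_zero, Nat.sub_zero, pow_add]
      linear_combination (-(z ^ k * z ^ (2 * a) * (κ * F (a + 1) z))) * hzz
  have h6 : ∑ i ∈ Finset.range (a + 1), (kc k a i : ℂ) * (κ⁻¹) ^ i *
      (((k + 2 * a - i : ℕ) : ℂ) * z ^ (k + 2 * a - i - 1)) * F (a - i) z =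
      κ * (z ^ 2)⁻¹ * ∑ m ∈ Finset.range (a + 1),
        (((k + 2 * a - m) * kc k a m : ℕ) : ℂ) * (κ⁻¹) ^ (m + 1) * z ^ (k + 2 * a + 1 - m) *
          F (a - m) z := by
    rw [Finset.mul_sum]
    refine Finset.sum_congr rfl fun m hm => ?_
    have hma : m ≤ a := Nat.lt_succ_iff.1 (Finset.mem_range.1 hm)
    have e1 : k + 2 * a + 1 - m = (k + 2 * a - m - 1) + 2 := by omega
    rw [e1, pow_add z _ 2, Nat.cast_mul, pow_succ]
    linear_combination (-((kc k a m : ℂ) * (κ⁻¹) ^ m * (((k + 2 * a - m : ℕ) : ℂ) *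
      z ^ (k + 2 * a - m - 1)) * F (a - m) z * ((z ^ 2)⁻¹ * z ^ 2))) * hkk -
      (kc k a m : ℂ) * (κ⁻¹) ^ m * (((k + 2 * a - m : ℕ) : ℂ) *
      z ^ (k + 2 * a - m - 1)) * F (a - m) z * hzz
  rw [h5, h6, h4, ← mul_add, ← add_assoc, ← Finset.sum_add_distrib]
  congr 1
  congr 1
  refine Finset.sum_congr rfl fun m hm => ?_
  have hma : m ≤ a := Nat.lt_succ_iff.1 (Finset.mem_range.1 hm)
  rw [K2_kc k a m hk hma, Nat.cast_add]
  ring

theorem K2 (k : ℕ) (hk : 1 ≤ k) (F H : ℕ → ℂ → ℂ)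
    (hF : ∀ a z, 0 < z.im → HasDerivAt (F a) (2 * Real.pi * Complex.I * F (a + 1) z) z)
    (hH : ∀ a z, 0 < z.im → HasDerivAt (H a) (2 * Real.pi * Complex.I * H (a + 1) z) z)
    (h0 : ∀ z : ℂ, 0 < z.im → H 0 (-1 / z) = z ^ k * F 0 z) (a : ℕ) (z : ℂ) (hz : 0 < z.im) :
    H a (-1 / z) =
      z ^ (k + 2 * a) * low1 k (1 / (2 * Real.pi * Complex.I * z)) (fun a' => F a' z) a := by
  have hne : ∀ z : ℂ, 0 < z.im → z ≠ 0 := by
    rintro z hz rfl
    simp at hz
  have hκ : (2 * (Real.pi : ℂ) * Complex.I) ≠ 0 := by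
    refine mul_ne_zero (mul_ne_zero two_ne_zero ?_) Complex.I_ne_zero
    exact_mod_cast Real.pi_ne_zero
  rw [K2_expand k F a z (hne z hz)]
  revert z
  induction a with
  | zero =>
    intro z hz
    rw [h0 z hz]
    unfold K2R
    rw [Finset.sum_range_one]
    have e1 : kc k 0 0 = 1 := by
      unfold kc
      rw [Nat.choose_zero_right, Nat.descFactorial_zero]
    rw [e1, Nat.cast_one, pow_zero, one_mul, one_mul, Nat.sub_zero, Nat.sub_zero]
    rfl
  | succ a ih =>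
    intro z hz
    have hz0 := hne z hz
    have him : 0 < (-1 / z).im := by
      rw [neg_div, one_div, Complex.neg_im, Complex.inv_im]
      have : 0 < Complex.normSq z := Complex.normSq_pos.2 hz0
      rw [neg_div, neg_neg]
      positivity
    have h1 : HasDerivAt (fun z : ℂ => -1 / z) ((z ^ 2)⁻¹) z := by
      have h2 := (hasDerivAt_inv hz0).neg
      rw [neg_neg] at h2
      refine h2.congr_of_eventuallyEq ?_
      filter_upwards with w
      rw [neg_div, one_div]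
      rfl
    have h3 : HasDerivAt (fun z : ℂ => H a (-1 / z))
        (2 * Real.pi * Complex.I * H (a + 1) (-1 / z) * (z ^ 2)⁻¹) z :=
      (hH a (-1 / z) him).comp z h1
    have h4 := K2_deriv k hk F hF a z hz
    have h5 : (fun z : ℂ => H a (-1 / z)) =ᶠ[nhds z] K2R k F a := by
      have hopen : IsOpen {w : ℂ | 0 < w.im} := isOpen_lt continuous_const Complex.continuous_im
      filter_upwards [hopen.mem_nhds hz] with w hw
      exact ih w hw
    have h6 := (h4.congr_of_eventuallyEq h5).unique h3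
    have h7 : (z ^ 2)⁻¹ ≠ 0 := inv_ne_zero (pow_ne_zero 2 hz0)
    have h8 : 2 * (Real.pi : ℂ) * Complex.I * (z ^ 2)⁻¹ * K2R k F (a + 1) z =
        2 * Real.pi * Complex.I * (z ^ 2)⁻¹ * H (a + 1) (-1 / z) := by
      rw [h6]
      ring
    exact (mul_left_cancel₀ (mul_ne_zero hκ h7) h8).symm

end H53M
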