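import Pool.Agent.Lib.H53M.K3S

/-!
# H53M, chunk K3 (size M/L): convergence and derivatives of `G_ab(z₁,z₂)`

If `c(n,m) ≠ 0` then `m² < 5 n²`, so `|m| < 3 n`, `0 < u < n`, `0 < v < n`, `u + v = n`,
`0 < N(n,m) ≤ 5 n²/4`, `|c(n,m)| ≤ C n^4 N^(k/2-1) ≤ C' n^(k+2)`.  Hence, if `Im z₁, Im z₂ ≥ ε > 0`,
`|c u^a v^b e(u z₁ + v z₂)| ≤ C' n^(k+2+a+b) exp(-2π ε n)`, and the inner sum has at most `6n+1`
terms: `Σ_n` converges absolutely and locally uniformly (`K3_bound` is the majorant).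
Differentiate termwise (`hasDerivAt_tsum_of_isPreconnected` or
`Complex.hasSum_deriv_of_summable_norm` on the open set `Im > ε`).
-/

namespace H53M

open Complex

variable {k : ℕ} {c : ℕ → ℤ → ℤ}

theorem K3_norm_exp (x y : ℝ) (z₁ z₂ : ℂ) :
    ‖Complex.exp (2 * Real.pi * Complex.I * ((x : ℂ) * z₁ + (y : ℂ) * z₂))‖ =
      Real.exp (-(2 * Real.pi * (x * z₁.im + y * z₂.im))) := by
  rw [Complex.norm_exp]
  congr 1
  simp [Complex.mul_re, Complex.mul_im]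

/-- The terms of `GG`, `0 < ε ≤ Im z₁, Im z₂`, have a summable majorant depending on `ε` only. -/
theorem K3_bound (hA : Arr k c) (a b : ℕ) (ε : ℝ) (hε : 0 < ε) :
    ∃ M : ℕ → ℝ, Summable M ∧ ∀ n : ℕ, ∀ z₁ z₂ : ℂ, ε ≤ z₁.im → ε ≤ z₂.im →
      ∑ m ∈ ms n, ‖(c n m : ℂ) * (uu n m : ℂ) ^ a * (vv n m : ℂ) ^ b *
        Complex.exp (2 * Real.pi * Complex.I * ((uu n m : ℂ) * z₁ + (vv n m : ℂ) * z₂))‖ ≤ M n := by
  obtain ⟨C, hC⟩ := hA.bound
  set e := k / 2 - 1 with he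
  set r : ℝ := Real.exp (-(2 * Real.pi * ε)) with hr
  have hr0 : 0 < r := Real.exp_pos _
  have hr1 : ‖r‖ < 1 := by
    rw [Real.norm_of_nonneg hr0.le, hr, Real.exp_lt_one_iff]
    have := mul_pos (mul_pos (by norm_num : (0 : ℝ) < 2) Real.pi_pos) hε
    linarith
  refine ⟨fun n => (6 * (n : ℝ) + 1) *
    ((|C| * (n : ℝ) ^ 4 * (5 * (n : ℝ) ^ 2 / 4) ^ e) * (n : ℝ) ^ a * (n : ℝ) ^ b * r ^ n), ?_, ?_⟩
  · have h1 := (summable_pow_mul_geometric_of_norm_lt_one (4 + 2 * e + a + b + 1) hr1).mul_left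
      (6 * |C| * (5 / 4) ^ e)
    have h2 := (summable_pow_mul_geometric_of_norm_lt_one (4 + 2 * e + a + b) hr1).mul_left
      (|C| * (5 / 4) ^ e)
    refine (h1.add h2).congr fun n => ?_
    have h3 : (5 * (n : ℝ) ^ 2 / 4) ^ e = (5 / 4) ^ e * (n : ℝ) ^ (2 * e) := by
      rw [show 5 * (n : ℝ) ^ 2 / 4 = (5 / 4) * (n : ℝ) ^ 2 by ring, mul_pow, ← pow_mul]
    rw [h3]
    ring
  · intro n z₁ z₂ h1 h2
    have hcard : ((ms n).card : ℝ) = 6 * n + 1 := by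
      have : (ms n).card = 6 * n + 1 := by
        rw [ms, Int.card_Icc]
        omega
      rw [this]
      push_cast
      ring
    have key : ∀ m ∈ ms n, ‖(c n m : ℂ) * (uu n m : ℂ) ^ a * (vv n m : ℂ) ^ b *
        Complex.exp (2 * Real.pi * Complex.I * ((uu n m : ℂ) * z₁ + (vv n m : ℂ) * z₂))‖ ≤
        (|C| * (n : ℝ) ^ 4 * (5 * (n : ℝ) ^ 2 / 4) ^ e) * (n : ℝ) ^ a * (n : ℝ) ^ b * r ^ n := by
      intro m _
      by_cases h0 : c n m = 0
      · rw [h0]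
        simp only [Int.cast_zero, zero_mul, norm_zero]
        positivity
      · obtain ⟨hu, hv, huv, -, hN, hN', -, -⟩ := supp_facts hA h0
        rw [norm_mul, norm_mul, norm_mul, norm_pow, norm_pow, K3_norm_exp]
        have e1 : ‖(c n m : ℂ)‖ ≤ |C| * (n : ℝ) ^ 4 * (5 * (n : ℝ) ^ 2 / 4) ^ e := by
          rw [Complex.norm_intCast]
          refine (hC n m h0).trans ?_
          have hNN : (0 : ℝ) ≤ (NN n m : ℝ) := by exact_mod_cast hN.le
          refine mul_le_mul (mul_le_mul_of_nonneg_right (le_abs_self C) (by positivity))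
            (pow_le_pow_left₀ hNN hN' _) (by positivity) (by positivity)
        have e2 : ‖(uu n m : ℂ)‖ ≤ n := by
          rw [Complex.norm_real, Real.norm_of_nonneg hu.le]
          linarith
        have e3 : ‖(vv n m : ℂ)‖ ≤ n := by
          rw [Complex.norm_real, Real.norm_of_nonneg hv.le]
          linarith
        have e4 : Real.exp (-(2 * Real.pi * (uu n m * z₁.im + vv n m * z₂.im))) ≤ r ^ n := by
          rw [hr, ← Real.exp_nat_mul, Real.exp_le_exp]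
          have h5 : (n : ℝ) * ε ≤ uu n m * z₁.im + vv n m * z₂.im := by
            rw [← huv, add_mul]
            exact add_le_add (mul_le_mul_of_nonneg_left h1 hu.le)
              (mul_le_mul_of_nonneg_left h2 hv.le)
          have hp : 0 < 2 * Real.pi := by positivity
          nlinarith [mul_le_mul_of_nonneg_left h5 hp.le]
        refine mul_le_mul (mul_le_mul (mul_le_mul e1 (pow_le_pow_left₀ (norm_nonneg _) e2 a)
          (by positivity) (by positivity)) (pow_le_pow_left₀ (norm_nonneg _) e3 b)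
          (by positivity) (by positivity)) e4 (Real.exp_pos _).le (by positivity)
    refine (Finset.sum_le_card_nsmul _ _ _ key).trans ?_
    rw [nsmul_eq_mul, hcard]

theorem K3_term_left (c : ℕ → ℤ → ℤ) (a b : ℕ) (n : ℕ) (z₁ z₂ : ℂ) :
    HasDerivAt (fun z => ∑ m ∈ ms n, (c n m : ℂ) * (uu n m : ℂ) ^ a * (vv n m : ℂ) ^ b *
        Complex.exp (2 * Real.pi * Complex.I * ((uu n m : ℂ) * z + (vv n m : ℂ) * z₂)))
      (2 * Real.pi * Complex.I * ∑ m ∈ ms n, (c n m : ℂ) * (uu n m : ℂ) ^ (a + 1) *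
        (vv n m : ℂ) ^ b *
        Complex.exp (2 * Real.pi * Complex.I * ((uu n m : ℂ) * z₁ + (vv n m : ℂ) * z₂))) z₁ := by
  rw [Finset.mul_sum]
  refine HasDerivAt.fun_sum fun m _ => ?_
  have h1 : HasDerivAt (fun z : ℂ => 2 * Real.pi * Complex.I *
      ((uu n m : ℂ) * z + (vv n m : ℂ) * z₂)) (2 * Real.pi * Complex.I * (uu n m : ℂ)) z₁ := by
    have h2 : HasDerivAt (fun z : ℂ => (uu n m : ℂ) * z + (vv n m : ℂ) * z₂) (uu n m : ℂ) z₁ := by
      simpa using ((hasDerivAt_id z₁).const_mul (uu n m : ℂ)).add_const ((vv n m : ℂ) * z₂)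
    exact h2.const_mul _
  have h3 := (h1.cexp).const_mul ((c n m : ℂ) * (uu n m : ℂ) ^ a * (vv n m : ℂ) ^ b)
  refine h3.congr_deriv ?_
  ring

theorem K3_term_right (c : ℕ → ℤ → ℤ) (a b : ℕ) (n : ℕ) (z₁ z₂ : ℂ) :
    HasDerivAt (fun z => ∑ m ∈ ms n, (c n m : ℂ) * (uu n m : ℂ) ^ a * (vv n m : ℂ) ^ b *
        Complex.exp (2 * Real.pi * Complex.I * ((uu n m : ℂ) * z₁ + (vv n m : ℂ) * z)))
      (2 * Real.pi * Complex.I * ∑ m ∈ ms n, (c n m : ℂ) * (uu n m : ℂ) ^ a *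
        (vv n m : ℂ) ^ (b + 1) *
        Complex.exp (2 * Real.pi * Complex.I * ((uu n m : ℂ) * z₁ + (vv n m : ℂ) * z₂))) z₂ := by
  rw [Finset.mul_sum]
  refine HasDerivAt.fun_sum fun m _ => ?_
  have h1 : HasDerivAt (fun z : ℂ => 2 * Real.pi * Complex.I *
      ((uu n m : ℂ) * z₁ + (vv n m : ℂ) * z)) (2 * Real.pi * Complex.I * (vv n m : ℂ)) z₂ := by
    have h2 : HasDerivAt (fun z : ℂ => (uu n m : ℂ) * z₁ + (vv n m : ℂ) * z) (vv n m : ℂ) z₂ := by
      simpa using ((hasDerivAt_id z₂).const_mul (vv n m : ℂ)).const_add ((uu n m : ℂ) * z₁)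
    exact h2.const_mul _
  have h3 := (h1.cexp).const_mul ((c n m : ℂ) * (uu n m : ℂ) ^ a * (vv n m : ℂ) ^ b)
  refine h3.congr_deriv ?_
  ring

theorem K3_isPreconnected (ε : ℝ) : IsPreconnected {z : ℂ | ε < z.im} :=
  (convex_halfSpace_im_gt ε).isPreconnected

theorem K3_isOpen (ε : ℝ) : IsOpen {z : ℂ | ε < z.im} :=
  isOpen_lt continuous_const Complex.continuous_im

theorem K3_norm_le (c : ℕ → ℤ → ℤ) (a b : ℕ) (n : ℕ) (z₁ z₂ : ℂ) :
    ‖∑ m ∈ ms n, (c n m : ℂ) * (uu n m : ℂ) ^ a * (vv n m : ℂ) ^ b *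
        Complex.exp (2 * Real.pi * Complex.I * ((uu n m : ℂ) * z₁ + (vv n m : ℂ) * z₂))‖ ≤
    ∑ m ∈ ms n, ‖(c n m : ℂ) * (uu n m : ℂ) ^ a * (vv n m : ℂ) ^ b *
        Complex.exp (2 * Real.pi * Complex.I * ((uu n m : ℂ) * z₁ + (vv n m : ℂ) * z₂))‖ :=
  norm_sum_le _ _

theorem K3_summable (hA : Arr k c) (a b : ℕ) (z₁ z₂ : ℂ) (h₁ : 0 < z₁.im) (h₂ : 0 < z₂.im) :
    Summable fun n : ℕ => ∑ m ∈ ms n, (c n m : ℂ) * (uu n m : ℂ) ^ a * (vv n m : ℂ) ^ b *
        Complex.exp (2 * Real.pi * Complex.I * ((uu n m : ℂ) * z₁ + (vv n m : ℂ) * z₂)) := by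
  obtain ⟨M, hM, hb⟩ := K3_bound hA a b (min z₁.im z₂.im) (lt_min h₁ h₂)
  refine Summable.of_norm_bounded hM fun n => ?_
  exact (K3_norm_le c a b n z₁ z₂).trans (hb n z₁ z₂ (min_le_left _ _) (min_le_right _ _))

theorem K3_left (hA : Arr k c) (a b : ℕ) (z₁ z₂ : ℂ) (h₁ : 0 < z₁.im) (h₂ : 0 < z₂.im) :
    HasDerivAt (fun z => GG c a b z z₂) (2 * Real.pi * Complex.I * GG c (a + 1) b z₁ z₂) z₁ := by
  set ε : ℝ := min z₁.im z₂.im / 2 with hε
  have hε0 : 0 < ε := half_pos (lt_min h₁ h₂)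
  have hε1 : ε < z₁.im := (half_lt_self (lt_min h₁ h₂)).trans_le (min_le_left _ _)
  have hε2 : ε < z₂.im := (half_lt_self (lt_min h₁ h₂)).trans_le (min_le_right _ _)
  obtain ⟨M, hM, hb⟩ := K3_bound hA (a + 1) b ε hε0
  have h := hasDerivAt_tsum_of_isPreconnected (hM.mul_left ‖(2 * Real.pi * Complex.I : ℂ)‖)
    (K3_isOpen ε) (K3_isPreconnected ε)
    (fun n y _ => K3_term_left c a b n y z₂)
    (fun n y hy => by
      rw [norm_mul]
      refine mul_le_mul_of_nonneg_left ?_ (norm_nonneg _)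
      exact (K3_norm_le c (a + 1) b n y z₂).trans (hb n y z₂ (le_of_lt hy) hε2.le))
    (show z₁ ∈ {z : ℂ | ε < z.im} from hε1) (K3_summable hA a b z₁ z₂ h₁ h₂)
    (show z₁ ∈ {z : ℂ | ε < z.im} from hε1)
  rw [tsum_mul_left] at h
  exact h

theorem K3_right (hA : Arr k c) (a b : ℕ) (z₁ z₂ : ℂ) (h₁ : 0 < z₁.im) (h₂ : 0 < z₂.im) :
    HasDerivAt (fun z => GG c a b z₁ z) (2 * Real.pi * Complex.I * GG c a (b + 1) z₁ z₂) z₂ := by
  set ε : ℝ := min z₁.im z₂.im / 2 with hε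
  have hε0 : 0 < ε := half_pos (lt_min h₁ h₂)
  have hε1 : ε < z₁.im := (half_lt_self (lt_min h₁ h₂)).trans_le (min_le_left _ _)
  have hε2 : ε < z₂.im := (half_lt_self (lt_min h₁ h₂)).trans_le (min_le_right _ _)
  obtain ⟨M, hM, hb⟩ := K3_bound hA a (b + 1) ε hε0
  have h := hasDerivAt_tsum_of_isPreconnected (hM.mul_left ‖(2 * Real.pi * Complex.I : ℂ)‖)
    (K3_isOpen ε) (K3_isPreconnected ε)
    (fun n y _ => K3_term_right c a b n z₁ y)
    (fun n y hy => by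
      rw [norm_mul]
      refine mul_le_mul_of_nonneg_left ?_ (norm_nonneg _)
      exact (K3_norm_le c a (b + 1) n z₁ y).trans (hb n z₁ y hε1.le (le_of_lt hy)))
    (show z₂ ∈ {z : ℂ | ε < z.im} from hε2) (K3_summable hA a b z₁ z₂ h₁ h₂)
    (show z₂ ∈ {z : ℂ | ε < z.im} from hε2)
  rw [tsum_mul_left] at h
  exact h

theorem K3_term_diag (hA : Arr k c) (a b : ℕ) (n : ℕ) (z : ℂ) :
    PowerSeries.coeff n (tser c a b) * Complex.exp (2 * Real.pi * Complex.I * (n * z)) =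
      ∑ m ∈ ms n, (c n m : ℂ) * (uu n m : ℂ) ^ a * (vv n m : ℂ) ^ b *
        Complex.exp (2 * Real.pi * Complex.I * ((uu n m : ℂ) * z + (vv n m : ℂ) * z)) := by
  rw [tser, PowerSeries.coeff_mk, Finset.sum_mul]
  refine Finset.sum_congr rfl fun m _ => ?_
  by_cases h0 : c n m = 0
  · rw [h0]
    simp
  · obtain ⟨-, -, huv, -⟩ := supp_facts hA h0
    have : (n : ℂ) = (uu n m : ℂ) + (vv n m : ℂ) := by
      rw [← Complex.ofReal_add, huv]
      simp
    rw [this, add_mul]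

/-- The `q`-series of `G_ab(z,z)` converges absolutely and represents it. -/
theorem K3_tser (hA : Arr k c) (a b : ℕ) : Cv (tser c a b) := by
  intro z hz
  obtain ⟨M, hM, hb⟩ := K3_bound hA a b z.im hz
  refine Summable.of_nonneg_of_le (fun n => norm_nonneg _) (fun n => ?_) hM
  rw [K3_term_diag hA a b n z]
  exact (K3_norm_le c a b n z z).trans (hb n z z le_rfl le_rfl)

theorem K3_ev (hA : Arr k c) (a b : ℕ) (z : ℂ) (hz : 0 < z.im) :
    ev (tser c a b) z = GG c a b z z := by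
  unfold ev GG GS
  exact tsum_congr fun n => K3_term_diag hA a b n z

end H53M
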