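import Pool.Agent.Lib.H53M.KA
import Pool.Agent.Lib.H53M.K2
import Pool.Agent.Lib.H53M.K3

/-!
# H53M, chunk K4 (size S/M): transformation of `G_ab(z,z)`

Apply `K2` twice.  Fix `z₂`.  With `F_a(z₁) = z₂^k G_{a0}(z₁,z₂)`, `H_a(z₁) = G_{a0}(z₁,-1/z₂)`:
`H_0(-1/z₁) = (z₁ z₂)^k G(z₁,z₂) = z₁^k F_0(z₁)` (`Arr.trans`; `GG c 0 0 = GS c`), so
`G_{a0}(-1/z₁,-1/z₂) = z₁^(k+2a) z₂^k (E_{1/(2πi z₁)} G_{.0}(z₁,z₂))_a`.
Then fix `z₁` and `a`, put `s = 1/(2πi z₁)`,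
`F_b(z₂) = z₁^(k+2a) (E_s G_{.b}(z₁,z₂))_a`, `H_b(z₂) = G_{ab}(-1/z₁,z₂)`; both satisfy
`d/dz₂ = 2πi (b+1)` (`K3_right`, finite sums) and `H_0(-1/z₂) = z₂^k F_0(z₂)`.  `K2` gives
`G_ab(-1/z₁,-1/z₂) = z₂^(k+2b) z₁^(k+2a) low1 (1/(2πi z₂)) (fun b' => low1 s (fun a' => G_{a'b'}) a) b`;
put `z₁ = z₂ = z` and use `low_eq_low1'`.
-/

namespace H53M

theorem K4_im {z : ℂ} (hz : 0 < z.im) : 0 < (-1 / z).im := by
  have hz0 : z ≠ 0 := by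
    rintro rfl
    simp at hz
  rw [neg_div, one_div, Complex.neg_im, Complex.inv_im]
  have : 0 < Complex.normSq z := Complex.normSq_pos.2 hz0
  rw [neg_div, neg_neg]
  positivity

theorem K4_low1_mul (k : ℕ) (s w : ℂ) (t : ℕ → ℂ) (a : ℕ) :
    low1 k s (fun a' => w * t a') a = w * low1 k s t a := by
  unfold low1
  rw [Finset.mul_sum]
  refine Finset.sum_congr rfl fun i _ => ?_
  ring

theorem K4_GG0 (c : ℕ → ℤ → ℤ) (z₁ z₂ : ℂ) :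
    GG c 0 0 z₁ z₂ = GS (fun n m => (c n m : ℂ)) z₁ z₂ := by
  unfold GG
  congr 1
  funext n m
  rw [pow_zero, pow_zero, mul_one, mul_one]

theorem K4_first {k : ℕ} (hk : 1 ≤ k) {c : ℕ → ℤ → ℤ} (hA : Arr k c) (a : ℕ) (z₁ z₂ : ℂ)
    (h₁ : 0 < z₁.im) (h₂ : 0 < z₂.im) :
    GG c a 0 (-1 / z₁) (-1 / z₂) = z₂ ^ k * (z₁ ^ (k + 2 * a) *
      low1 k (1 / (2 * Real.pi * Complex.I * z₁)) (fun a' => GG c a' 0 z₁ z₂) a) := by
  have h := K2 k hk (fun a z => z₂ ^ k * GG c a 0 z z₂) (fun a z => GG c a 0 z (-1 / z₂))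
    (fun a z hz => by
      have h1 := (K3_left hA a 0 z z₂ hz h₂).const_mul (z₂ ^ k)
      refine h1.congr_deriv ?_
      ring)
    (fun a z hz => K3_left hA a 0 z (-1 / z₂) hz (K4_im h₂))
    (fun z hz => by
      change GG c 0 0 (-1 / z) (-1 / z₂) = z ^ k * (z₂ ^ k * GG c 0 0 z z₂)
      rw [K4_GG0, K4_GG0, hA.trans z z₂ hz h₂, mul_pow]
      ring) a z₁ h₁
  change GG c a 0 (-1 / z₁) (-1 / z₂) = _ at h
  rw [h, K4_low1_mul]
  ring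

theorem K4_second {k : ℕ} (hk : 1 ≤ k) {c : ℕ → ℤ → ℤ} (hA : Arr k c) (a b : ℕ) (z₁ z₂ : ℂ)
    (h₁ : 0 < z₁.im) (h₂ : 0 < z₂.im) :
    GG c a b (-1 / z₁) (-1 / z₂) = z₂ ^ (k + 2 * b) * (z₁ ^ (k + 2 * a) *
      low1 k (1 / (2 * Real.pi * Complex.I * z₂)) (fun b' =>
        low1 k (1 / (2 * Real.pi * Complex.I * z₁)) (fun a' => GG c a' b' z₁ z₂) a) b) := by
  have h := K2 k hk (fun b z => z₁ ^ (k + 2 * a) *
      low1 k (1 / (2 * Real.pi * Complex.I * z₁)) (fun a' => GG c a' b z₁ z) a)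
    (fun b z => GG c a b (-1 / z₁) z)
    (fun b z hz => by
      have h1 : ∀ i ∈ Finset.range (a + 1), HasDerivAt
          (fun z => (kc k a i : ℂ) * (1 / (2 * Real.pi * Complex.I * z₁)) ^ i *
            GG c (a - i) b z₁ z)
          ((kc k a i : ℂ) * (1 / (2 * Real.pi * Complex.I * z₁)) ^ i *
            (2 * Real.pi * Complex.I * GG c (a - i) (b + 1) z₁ z)) z := by
        intro i _
        exact (K3_right hA (a - i) b z₁ z h₁ hz).const_mul _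
      have h2 := (HasDerivAt.fun_sum h1).const_mul (z₁ ^ (k + 2 * a))
      refine h2.congr_deriv ?_
      unfold low1
      rw [Finset.mul_sum, Finset.mul_sum, Finset.mul_sum]
      refine Finset.sum_congr rfl fun i _ => ?_
      ring)
    (fun b z hz => K3_right hA a b (-1 / z₁) z (K4_im h₁) hz)
    (fun z hz => K4_first hk hA a z₁ z h₁ hz) b z₂ h₂
  change GG c a b (-1 / z₁) (-1 / z₂) = _ at h
  rw [h, K4_low1_mul]

theorem K4 {k : ℕ} (hk : 1 ≤ k) {c : ℕ → ℤ → ℤ} (hA : Arr k c) (a b : ℕ) (z : ℂ) (hz : 0 < z.im) :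
    GG c a b (-1 / z) (-1 / z) = z ^ (2 * k + 2 * a + 2 * b) *
      low k (1 / (2 * Real.pi * Complex.I * z)) (fun a' b' => GG c a' b' z z) a b := by
  rw [K4_second hk hA a b z z hz hz, low_eq_low1', ← mul_assoc, ← pow_add]
  congr 2
  omega

end H53M
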