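import Pool.Agent.Lib.H53M.X2

/-!
# Chunk X4 (M): the limits along `w = iy`, `y → 0+`

`lim_B`: `-1/(iy) = i/y`. The terms of `F_1(z, i/y)` have norm
`‖c_i‖ v_i^{-1} exp(-2πu_i Im z) exp(-2πv_i/y)`, tend to `0` as `y → 0+` for each `i`
(`v_i > 0` if `c_i ≠ 0`) and are, for `0 < y ≤ 1`, bounded by the value at `y = 1`:
`‖c_i‖ v_i^{-1} exp(-2πu_i Im z) exp(-2πv_i) ≤ C ‖c_i‖ v_i^{-K} exp(-2πu_i Im z)` (`bound1` with
`y₀ = 1`, `s = 1 ≤ K`). Use `tendsto_tsum_of_dominated_convergence`.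

`lim_A_term`: for `s ≤ K`, `(iy)^{K-s} F_s(τ, iy)` has terms of norm
`y^{K-s} ‖c_i‖ v_i^{-s} exp(-2πu_i Im τ) exp(-2πv_i y) ≤ C ‖c_i‖ v_i^{-K} exp(-2πu_i Im τ)` by
`bound2`, summable, and as `y → 0+` each term tends to `0` if `s < K` and to
`c_i v_i^{-K} e(u_i τ)` if `s = K`. Dominated convergence again.
-/

namespace H53M

namespace X

open Filter Topology

variable {ι : Type*} {K : ℕ} {c : ι → ℂ} {u v : ι → ℝ}

theorem X4_im (y : ℝ) (hy : 0 < y) : (-1 / (Complex.I * (y : ℂ))).im = 1 / y := by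
  have h1 : (-1 / (Complex.I * (y : ℂ))) = ((1 / y : ℝ) : ℂ) * Complex.I := by
    have hyc : (y : ℂ) ≠ 0 := by exact_mod_cast hy.ne'
    push_cast
    field_simp
    rw [Complex.I_sq]
  rw [h1]
  simp

theorem lim_B (h : Fam K c u v) (hK : 1 ≤ K) {z : ℂ} (hz : 0 < z.im) :
    Tendsto (fun y : ℝ => F c u v 1 z (-1 / (Complex.I * (y : ℂ)))) (𝓝[>] 0) (𝓝 0) := by
  obtain ⟨C, hC, hb⟩ := X2_bd h (one_pos : (0 : ℝ) < 1)
  have key := tendsto_tsum_of_dominated_convergence (𝓕 := 𝓝[>] (0 : ℝ))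
    (f := fun (y : ℝ) i => c i * ((v i : ℂ)⁻¹) ^ 1 * ex ((u i : ℂ) * z + (v i : ℂ) * (-1 / (Complex.I * (y : ℂ)))))
    (g := fun _ => (0 : ℂ)) ((h.sum z.im hz).mul_left C) ?_ ?_
  · simpa [F] using key
  · intro i
    by_cases hc : c i = 0
    · simp [hc]
    · obtain ⟨hu, hv⟩ := h.pos i hc
      rw [tendsto_zero_iff_norm_tendsto_zero]
      have h1 : Tendsto (fun y : ℝ => Real.exp (-(2 * Real.pi * v i * (1 / y)))) (𝓝[>] 0) (𝓝 0) := by
        apply Real.tendsto_exp_neg_atTop_nhds_zero.comp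
        refine Tendsto.const_mul_atTop (by have := Real.pi_pos; positivity) ?_
        refine tendsto_inv_nhdsGT_zero.congr fun y => ?_
        rw [one_div]
      have h2 : Tendsto (fun y : ℝ => ‖c i‖ * (v i)⁻¹ ^ 1 * (Real.exp (-(2 * Real.pi * u i * z.im)) *
          Real.exp (-(2 * Real.pi * v i * (1 / y))))) (𝓝[>] 0) (𝓝 0) := by
        have := (h1.const_mul (Real.exp (-(2 * Real.pi * u i * z.im)))).const_mul (‖c i‖ * (v i)⁻¹ ^ 1)
        simpa using this
      refine h2.congr' ?_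
      filter_upwards [self_mem_nhdsWithin] with y hy
      have hy0 : (0 : ℝ) < y := hy
      rw [X2_norm _ hv, X4_im y hy0]
  · filter_upwards [Ioc_mem_nhdsGT (one_pos : (0 : ℝ) < 1)] with y hy i
    apply hb 1 hK z _ _ i
    rw [X4_im y hy.1, le_div_iff₀ hy.1]
    linarith [hy.2]

theorem lim_A_term (h : Fam K c u v) {s : ℕ} (hs : s ≤ K) {τ : ℂ} (hτ : 0 < τ.im) :
    Tendsto (fun y : ℝ => (Complex.I * (y : ℂ)) ^ (K - s) * F c u v s τ (Complex.I * (y : ℂ)))
      (𝓝[>] 0) (𝓝 (if s = K then L c u v K τ else 0)) := by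
  obtain ⟨C, hC, hb⟩ := bound2 K
  have key := tendsto_tsum_of_dominated_convergence (𝓕 := 𝓝[>] (0 : ℝ))
    (f := fun (y : ℝ) i => (Complex.I * (y : ℂ)) ^ (K - s) *
      (c i * ((v i : ℂ)⁻¹) ^ s * ex ((u i : ℂ) * τ + (v i : ℂ) * (Complex.I * (y : ℂ)))))
    (g := fun i => if s = K then c i * ((v i : ℂ)⁻¹) ^ K * ex ((u i : ℂ) * τ) else 0)
    ((h.sum τ.im hτ).mul_left C) ?_ ?_
  · simp only [tsum_mul_left] at key
    by_cases hsK : s = K
    · simp only [hsK, if_true] at key ⊢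
      exact key
    · simp only [hsK, if_false, tsum_zero] at key ⊢
      exact key
  · intro i
    have c0 : Continuous (fun y : ℝ => (Complex.I * (y : ℂ))) := by fun_prop
    have c1 : Continuous (fun y : ℝ => (c i * ((v i : ℂ)⁻¹) ^ s * ex ((u i : ℂ) * τ + (v i : ℂ) * (Complex.I * (y : ℂ))))) := by
      unfold ex; fun_prop
    have c2 := ((c0.pow (K - s)).mul c1).tendsto 0
    have e : (Complex.I * ((0 : ℝ) : ℂ)) ^ (K - s) *
        (c i * ((v i : ℂ)⁻¹) ^ s * ex ((u i : ℂ) * τ + (v i : ℂ) * (Complex.I * ((0 : ℝ) : ℂ)))) =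
        (if s = K then c i * ((v i : ℂ)⁻¹) ^ K * ex ((u i : ℂ) * τ) else 0) := by
      by_cases hsK : s = K
      · simp [hsK]
      · have : K - s ≠ 0 := by omega
        simp [hsK, this]
    simp only [Pi.mul_apply, Pi.pow_apply] at c2
    rw [e] at c2
    exact tendsto_nhdsWithin_of_tendsto_nhds c2
  · filter_upwards [self_mem_nhdsWithin] with y hy i
    have hy0 : (0 : ℝ) < y := hy
    by_cases hc : c i = 0
    · simp [hc]
    · obtain ⟨hu, hv⟩ := h.pos i hc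
      rw [norm_mul, X2_norm _ hv, norm_pow, norm_mul, Complex.norm_I, one_mul, Complex.norm_real,
        Real.norm_of_nonneg hy0.le]
      have e1 : (Complex.I * (y : ℂ)).im = y := by simp
      rw [e1]
      have h1 := hb s hs (v i) y hv hy0
      calc y ^ (K - s) * (‖c i‖ * (v i)⁻¹ ^ s * (Real.exp (-(2 * Real.pi * u i * τ.im)) *
            Real.exp (-(2 * Real.pi * v i * y))))
          = (‖c i‖ * Real.exp (-(2 * Real.pi * u i * τ.im))) *
            (y ^ (K - s) * ((v i)⁻¹ ^ s * Real.exp (-(2 * Real.pi * v i * y)))) := by ring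
        _ ≤ (‖c i‖ * Real.exp (-(2 * Real.pi * u i * τ.im))) * (C * (v i)⁻¹ ^ K) :=
            mul_le_mul_of_nonneg_left h1 (by positivity)
        _ = _ := by ring

end X

end H53M
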