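import Pool.Agent.Lib.H53M.X3
import Pool.Agent.Lib.H53M.X4

/-!
# Chunk X5 (S/M): the transformation of the partial integral

`lim_A`: `A(iy) → 2πiτ^{K+1} co(K,K-1) L(τ)` as `y → 0+`: sum over `j < K` of `lim_A_term` with
`s = j+1` (`K-1-j = K-(j+1)`), only `j = K-1` contributes.

`transB`: by `AB_const`, `B(τ) - A(τ) = B(iy) - A(iy)` for all `y > 0`; let `y → 0+` and use
`lim_B`, `lim_A`, uniqueness of limits.
-/

namespace H53M

namespace X

open Filter Topology

variable {ι : Type*} {K : ℕ} {c : ι → ℂ} {u v : ι → ℝ}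

theorem lim_A (h : Fam K c u v) (hK : 1 ≤ K) {τ : ℂ} (hτ : 0 < τ.im) :
    Tendsto (fun y : ℝ => A K c u v τ (Complex.I * (y : ℂ))) (𝓝[>] 0)
      (𝓝 (2 * Real.pi * Complex.I * τ ^ (K + 1) * (co K (K - 1) * L c u v K τ))) := by
  unfold A
  apply Tendsto.const_mul
  have h1 : ∀ j ∈ Finset.range K, Tendsto (fun y : ℝ => co K j *
      (Complex.I * (y : ℂ)) ^ (K - 1 - j) * F c u v (j + 1) τ (Complex.I * (y : ℂ))) (𝓝[>] 0)
      (𝓝 (co K j * (if j + 1 = K then L c u v K τ else 0))) := by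
    intro j hj
    have hj' : j + 1 ≤ K := Finset.mem_range.1 hj
    have h2 := (lim_A_term h hj' hτ).const_mul (co K j)
    have h3 : K - 1 - j = K - (j + 1) := by omega
    rw [h3]
    refine h2.congr fun y => ?_
    ring
  have h2 := tendsto_finset_sum (Finset.range K) h1
  have h3 : ∑ j ∈ Finset.range K, co K j * (if j + 1 = K then L c u v K τ else 0) =
      co K (K - 1) * L c u v K τ := by
    rw [Finset.sum_eq_single (K - 1)]
    · rw [if_pos (by omega)]
    · intro j _ hj
      rw [if_neg (by omega), mul_zero]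
    · intro h4
      exact absurd (Finset.mem_range.2 (by omega)) h4
  rw [h3] at h2
  exact h2

theorem transB (h : Fam K c u v) (hK : 1 ≤ K)
    (htr : ∀ z w : ℂ, 0 < z.im → 0 < w.im →
      F c u v 0 (-1 / z) (-1 / w) = (z * w) ^ (K + 1) * F c u v 0 z w)
    {τ : ℂ} (hτ : 0 < τ.im) :
    F c u v 1 (-1 / τ) (-1 / τ) = A K c u v τ τ -
      2 * Real.pi * Complex.I * τ ^ (K + 1) * (co K (K - 1) * L c u v K τ) := by
  have h1 := (lim_B h hK (X3_im hτ)).sub (lim_A h hK hτ)
  have h2 : Tendsto (fun _ : ℝ => F c u v 1 (-1 / τ) (-1 / τ) - A K c u v τ τ) (𝓝[>] 0)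
      (𝓝 (0 - 2 * Real.pi * Complex.I * τ ^ (K + 1) * (co K (K - 1) * L c u v K τ))) := by
    refine h1.congr' ?_
    filter_upwards [self_mem_nhdsWithin] with y hy
    have hy' : 0 < (Complex.I * (y : ℂ)).im := by
      rw [Complex.mul_im, Complex.I_re, Complex.I_im, Complex.ofReal_re, Complex.ofReal_im]
      simpa using hy
    exact AB_const h hK htr hτ hy' hτ
  have h3 := tendsto_nhds_unique h2 tendsto_const_nhds
  linear_combination -h3

end X

end H53M
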