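import Pool.Agent.Lib.H53M.Defs

/-!
# H53M, module K (Cohen-Kuznetsov), definitions

* `kc k a i = binom(a,i) (k+a-1)(k+a-2)...(k+a-i)`; `low1`, `low` : the lowering exponentials in one
  and in two variables;
* `PI p f` : the rational power series `f` has `p`-integral coefficients;
* `Cv f`, `ev f z` : the complex power series `f` converges absolutely in the unit disc, and its value
  at `q = e(z)`;
* `tser c a b` : the `q`-series `T_ab = Σ_n (Σ_m c(n,m) u^a v^b) q^n` of `G_ab(z,z)`;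
* `tq c a b` : the rational `q`-series `T_ab + T_ba`;
* `Mq k c a b` : the rational series `M_ab + M_ba`, `M_ab = (E_{-E₂/12} E_{-E₂/12} T)_ab`.
-/

namespace H53M

open PowerSeries

/-- `binom(a,i) (k+a-1)(k+a-2)...(k+a-i)`. -/
def kc (k a i : ℕ) : ℕ := a.choose i * (k + a - 1).descFactorial i

/-- The lowering exponential `(E_s t)_a = Σ_i kc(k,a,i) s^i t_{a-i}`. -/
noncomputable def low1 {R : Type*} [CommSemiring R] (k : ℕ) (s : R) (t : ℕ → R) (a : ℕ) : R :=
  ∑ i ∈ Finset.range (a + 1), (kc k a i : R) * s ^ i * t (a - i)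

/-- The lowering exponential in two variables. -/
noncomputable def low {R : Type*} [CommSemiring R] (k : ℕ) (s : R) (t : ℕ → ℕ → R) (a b : ℕ) : R :=
  ∑ i ∈ Finset.range (a + 1), ∑ j ∈ Finset.range (b + 1),
    (kc k a i : R) * (kc k b j : R) * s ^ (i + j) * t (a - i) (b - j)

/-- `p`-integral rational power series. -/
def PI (p : ℕ) (f : PowerSeries ℚ) : Prop := ∀ n, ¬ p ∣ (PowerSeries.coeff n f).den

/-- Absolute convergence in the unit disc. -/
def Cv (f : PowerSeries ℂ) : Prop :=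
  ∀ z : ℂ, 0 < z.im → Summable fun n : ℕ =>
    ‖PowerSeries.coeff n f * Complex.exp (2 * Real.pi * Complex.I * (n * z))‖

/-- The value at `q = e(z)`. -/
noncomputable def ev (f : PowerSeries ℂ) (z : ℂ) : ℂ :=
  ∑' n : ℕ, PowerSeries.coeff n f * Complex.exp (2 * Real.pi * Complex.I * (n * z))

/-- The complexification of a rational series. -/
noncomputable abbrev ktoC : PowerSeries ℚ →+* PowerSeries ℂ :=
  PowerSeries.map (Rat.castHom ℂ)

/-- `G_ab(z₁,z₂) = Σ c(n,m) u^a v^b e(u z₁ + v z₂)`. -/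
noncomputable def GG (c : ℕ → ℤ → ℤ) (a b : ℕ) (z₁ z₂ : ℂ) : ℂ :=
  GS (fun n m => (c n m : ℂ) * (uu n m : ℂ) ^ a * (vv n m : ℂ) ^ b) z₁ z₂

/-- The `q`-series of `G_ab(z,z)`. -/
noncomputable def tser (c : ℕ → ℤ → ℤ) (a b : ℕ) : PowerSeries ℂ :=
  PowerSeries.mk fun n => ∑ m ∈ ms n, (c n m : ℂ) * (uu n m : ℂ) ^ a * (vv n m : ℂ) ^ b

/-- Lucas sequence: `luc s P j = x^j + y^j` if `x + y = s`, `x y = P`. -/
def luc (s P : ℚ) : ℕ → ℚ
  | 0 => 2
  | 1 => s
  | (j + 2) => s * luc s P (j + 1) - P * luc s P j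

/-- `sy s P a b = x^a y^b + x^b y^a` if `x + y = s`, `x y = P`. -/
def sy (s P : ℚ) (a b : ℕ) : ℚ := P ^ (min a b) * luc s P (max a b - min a b)

/-- The rational series `T_ab + T_ba`. -/
noncomputable def tq (c : ℕ → ℤ → ℤ) (a b : ℕ) : PowerSeries ℚ :=
  PowerSeries.mk fun n => ∑ m ∈ ms n, (c n m : ℚ) * sy (n : ℚ) ((NN n m : ℚ) / 5) a b

/-- The series `E₂/12` over `ℚ`. -/
noncomputable def e2q : PowerSeries ℚ := (1 / 12 : ℚ) • toQ e2

/-- The rational series `M_ab + M_ba`. -/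
noncomputable def Mq (k : ℕ) (c : ℕ → ℤ → ℤ) (a b : ℕ) : PowerSeries ℚ :=
  low k (-e2q) (tq c) a b

/-- The series of Theorem K, `Σ_n (Σ_m c(n,m) N(n,m)^(p-2)) q^n`. -/
noncomputable def nser (p : ℕ) (c : ℕ → ℤ → ℤ) : PowerSeries ℤ :=
  PowerSeries.mk fun n => ∑ m ∈ ms n, c n m * NN n m ^ (p - 2)

end H53M
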