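import Pool.Agent.Lib.H53M.KA
import Pool.Agent.Lib.H53M.K4
import Pool.Agent.Lib.H53M.KEV
import Pool.Agent.Lib.H53M.KE2

/-!
# H53M, chunk K5 (size S/M): modularity of `M_ab = (E_{-E₂/12} E_{-E₂/12} T)_ab`

`ev` of `low k (-(ktoC e2q)) (tser c) a b` at `-1/z` is (by `ev_low`, `K3_ev`, `K4`, `KE2_trans`), with
`s = 1/(2πi z)`, `e = ev (ktoC e2q) z`:
`low k (z² (-(e + s))) (fun a' b' => z^(2k+2a'+2b') low k s (GG z z) a' b') a b`
`= z^(2k+2a+2b) low k (-(e+s)) (low k s (GG z z)) a b` (`low_homog`)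
`= z^(2k+2a+2b) low k (-e) (GG z z) a b` (`low_low`).
-/

namespace H53M

theorem K5_Cv {k : ℕ} {c : ℕ → ℤ → ℤ} (hA : Arr k c) (a b : ℕ) :
    Cv (low k (-(ktoC e2q)) (tser c) a b) := by
  exact Cv_low k (Cv_neg KE2_Cv) (fun a b => K3_tser hA a b) a b

theorem K5 {k : ℕ} (hk : 1 ≤ k) {c : ℕ → ℤ → ℤ} (hA : Arr k c) (a b : ℕ) (z : ℂ)
    (hz : 0 < z.im) :
    ev (low k (-(ktoC e2q)) (tser c) a b) (-1 / z) =
      z ^ (2 * k + 2 * a + 2 * b) * ev (low k (-(ktoC e2q)) (tser c) a b) z := by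
  have hz0 : z ≠ 0 := by
    rintro rfl
    simp at hz
  have hz' : 0 < (-1 / z).im := by
    rw [Complex.div_im]
    simp only [Complex.neg_re, Complex.one_re, Complex.neg_im, Complex.one_im]
    have h1 : 0 < Complex.normSq z := Complex.normSq_pos.2 hz0
    have h2 : 0 < z.im / Complex.normSq z := div_pos hz h1
    have h3 : -0 * z.re / Complex.normSq z - -1 * z.im / Complex.normSq z =
        z.im / Complex.normSq z := by ring
    rw [h3]
    exact h2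
  obtain ⟨e, he⟩ : ∃ e, e = ev (ktoC e2q) z := ⟨_, rfl⟩
  obtain ⟨s, hs⟩ : ∃ s : ℂ, s = 1 / (2 * Real.pi * Complex.I * z) := ⟨_, rfl⟩
  rw [ev_low k (Cv_neg KE2_Cv) (fun a b => K3_tser hA a b) a b hz',
    ev_low k (Cv_neg KE2_Cv) (fun a b => K3_tser hA a b) a b hz, ev_neg KE2_Cv hz',
    ev_neg KE2_Cv hz, KE2_trans z hz]
  have h1 : (fun a' b' => ev (tser c a' b') (-1 / z)) = fun a' b' =>
      z ^ (2 * k + 2 * a' + 2 * b') * low k s (fun a' b' => GG c a' b' z z) a' b' := by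
    funext a' b'
    rw [K3_ev hA a' b' _ hz', K4 hk hA a' b' z hz, hs]
  have h2 : (fun a' b' => ev (tser c a' b') z) = fun a' b' => GG c a' b' z z := by
    funext a' b'
    exact K3_ev hA a' b' z hz
  rw [h1, h2, ← he, ← hs]
  have h3 : -(z ^ 2 * (e + s)) = z ^ 2 * (-(e + s)) := by ring
  rw [h3, low_homog, low_low k hk]
  congr 2
  ring

end H53M
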