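import Pool.Agent.Lib.H53M.K0

/-!
# H53M, chunk K3S (size S): elementary facts for indices in the support of `c`

`c(n,m) ≠ 0` gives `m² < 5n²` and `n ≡ m mod 2`, so `4 ∣ 5n² - m²` (`5n² - m² = 4n² + (n-m)(n+m)`),
`4 N = 5n² - m² > 0`, `|m|/√5 < n` and so `u, v > 0`; `u v = (n² - m²/5)/4 = N/5`;
`m² < 9 n²` gives `|m| ≤ 3n`.
-/

namespace H53M

variable {k : ℕ} {c : ℕ → ℤ → ℤ}

/-- elementary facts for indices in the support -/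
theorem supp_facts (hA : Arr k c) {n : ℕ} {m : ℤ} (h : c n m ≠ 0) :
    0 < uu n m ∧ 0 < vv n m ∧ uu n m + vv n m = n ∧ uu n m * vv n m = (NN n m : ℝ) / 5 ∧
      0 < NN n m ∧ (NN n m : ℝ) ≤ 5 * (n : ℝ) ^ 2 / 4 ∧ 4 * NN n m = 5 * (n : ℤ) ^ 2 - m ^ 2 ∧
      m ∈ ms n := by
  obtain ⟨h1, h2⟩ := hA.supp n m h
  obtain ⟨r, hr⟩ := h2
  have e1 : 5 * (n : ℤ) ^ 2 - m ^ 2 = 4 * ((n : ℤ) ^ 2 + r * (n - r)) := by
    have hm : m = n - 2 * r := by linarith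
    rw [hm]; ring
  have e2 : NN n m = (n : ℤ) ^ 2 + r * (n - r) := by
    unfold NN
    rw [e1]
    exact Int.mul_ediv_cancel_left _ (by norm_num)
  have e3 : 4 * NN n m = 5 * (n : ℤ) ^ 2 - m ^ 2 := by rw [e2, e1]
  have e3' : 4 * (NN n m : ℝ) = 5 * (n : ℝ) ^ 2 - (m : ℝ) ^ 2 := by exact_mod_cast e3
  have hN : 0 < NN n m := by
    have : 0 < 4 * NN n m := by rw [e3]; linarith
    linarith
  have hn0 : (0 : ℝ) ≤ n := Nat.cast_nonneg n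
  have h5 : Real.sqrt 5 ^ 2 = 5 := Real.sq_sqrt (by norm_num)
  have h50 : 0 < Real.sqrt 5 := Real.sqrt_pos.mpr (by norm_num)
  have hq : ((m : ℝ) / Real.sqrt 5) ^ 2 < (n : ℝ) ^ 2 := by
    rw [div_pow, h5]
    have : (m : ℝ) ^ 2 < 5 * (n : ℝ) ^ 2 := by exact_mod_cast h1
    linarith
  have hab := abs_lt_of_sq_lt_sq hq hn0
  rw [abs_lt] at hab
  refine ⟨by unfold uu; linarith [hab.1], by unfold vv; linarith [hab.2], by unfold uu vv; ring,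
    ?_, hN, ?_, e3, ?_⟩
  · unfold uu vv
    have : ((n : ℝ) + (m : ℝ) / Real.sqrt 5) / 2 * (((n : ℝ) - (m : ℝ) / Real.sqrt 5) / 2) =
        ((n : ℝ) ^ 2 - ((m : ℝ) / Real.sqrt 5) ^ 2) / 4 := by ring
    rw [this, div_pow, h5]
    linarith
  · have := sq_nonneg (m : ℝ)
    linarith
  · unfold ms
    rw [Finset.mem_Icc]
    have h6 : m ^ 2 < (3 * (n : ℤ)) ^ 2 := by nlinarith [sq_nonneg (n : ℤ)]
    have h7 := abs_lt_of_sq_lt_sq h6 (by positivity)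
    rw [abs_lt] at h7
    exact ⟨h7.1.le, h7.2.le⟩

end H53M
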