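import Pool.Agent.Lib.H53M.KR
import Pool.Agent.Lib.H53M.K3S

/-!
# H53M, chunk K6 (size M): the symmetrised series are rational and p-integral

* `luc s P j = x^j + y^j` and `sy s P a b = x^a y^b + x^b y^a` whenever `x + y = s`, `x y = P`
  (induction; `x^a y^b + x^b y^a = (xy)^min (x^|a-b| + y^|a-b|)`).
* On the support `u + v = n`, `u v = N/5` (`supp_facts`), hence `ktoC (tq c a b) = tser a b + tser b a`.
* `p ∤ 5` prime, `c, n, N` integers: `sy n (N/5) a b` is `p`-integral (luc: strong induction).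
* `tq c a a` has the coefficients `2 Σ c (N/5)^a`.
-/

namespace H53M

open PowerSeries

theorem luc_eq {s P : ℚ} {x y : ℂ} (h1 : x + y = s) (h2 : x * y = P) (j : ℕ) :
    ((luc s P j : ℚ) : ℂ) = x ^ j + y ^ j := by
  induction j using Nat.twoStepInduction with
  | zero => simp [luc]; norm_num
  | one => simp [luc, h1]
  | more j ih1 ih2 =>
    rw [luc]
    push_cast
    rw [ih1, ih2, ← h1, ← h2]
    ring

theorem sy_eq {s P : ℚ} {x y : ℂ} (h1 : x + y = s) (h2 : x * y = P) (a b : ℕ) :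
    ((sy s P a b : ℚ) : ℂ) = x ^ a * y ^ b + x ^ b * y ^ a := by
  unfold sy
  push_cast
  rw [luc_eq h1 h2, ← h2]
  rcases le_total a b with h | h
  · obtain ⟨d, rfl⟩ := Nat.exists_eq_add_of_le h
    rw [min_eq_left h, max_eq_right h, Nat.add_sub_cancel_left]
    ring
  · obtain ⟨d, rfl⟩ := Nat.exists_eq_add_of_le h
    rw [min_eq_right h, max_eq_left h, Nat.add_sub_cancel_left]
    ring

theorem K6_uv {k : ℕ} {c : ℕ → ℤ → ℤ} (hA : Arr k c) {n : ℕ} {m : ℤ} (h : c n m ≠ 0) :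
    (uu n m : ℂ) + (vv n m : ℂ) = ((n : ℚ) : ℂ) ∧
      (uu n m : ℂ) * (vv n m : ℂ) = (((NN n m : ℚ) / 5 : ℚ) : ℂ) := by
  obtain ⟨-, -, h1, h2, -⟩ := supp_facts hA h
  constructor
  · have h3 := congrArg (fun x : ℝ => (x : ℂ)) h1
    push_cast at h3 ⊢
    exact h3
  · have h3 := congrArg (fun x : ℝ => (x : ℂ)) h2
    push_cast at h3 ⊢
    exact h3

theorem K6_toC {k : ℕ} {c : ℕ → ℤ → ℤ} (hA : Arr k c) (a b : ℕ) :
    ktoC (tq c a b) = tser c a b + tser c b a := by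
  ext n
  unfold tq tser
  rw [coeff_map, coeff_mk, map_add, coeff_mk, coeff_mk, map_sum, ← Finset.sum_add_distrib]
  apply Finset.sum_congr rfl
  intro m _
  by_cases h : c n m = 0
  · simp [h]
  · obtain ⟨h1, h2⟩ := K6_uv hA h
    rw [map_mul]
    have h3 := sy_eq (s := (n : ℚ)) (P := (NN n m : ℚ) / 5) h1 h2 a b
    change ((c n m : ℚ) : ℂ) * ((sy (n : ℚ) ((NN n m : ℚ) / 5) a b : ℚ) : ℂ) = _
    rw [h3]
    push_cast
    ring

theorem K6_luc (p : ℕ) [Fact p.Prime] {s P : ℚ} (hs : ¬ p ∣ s.den) (hP : ¬ p ∣ P.den) (j : ℕ) :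
    ¬ p ∣ (luc s P j).den := by
  induction j using Nat.twoStepInduction with
  | zero => exact pi_nat 2
  | one => exact hs
  | more j ih1 ih2 =>
    rw [luc, sub_eq_add_neg]
    exact pi_add (pi_mul hs ih2) (pi_neg (pi_mul hP ih1))

theorem K6_five (p : ℕ) [Fact p.Prime] (hp : 5 < p) (N : ℤ) : ¬ p ∣ ((N : ℚ) / 5).den := by
  have h := pi_div (p := p) N 5 (by
    intro h
    have := Nat.le_of_dvd (by norm_num) h
    omega)
  exact_mod_cast h

theorem K6_PI (p : ℕ) [Fact p.Prime] (hp : 5 < p) (c : ℕ → ℤ → ℤ) (a b : ℕ) :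
    PI p (tq c a b) := by
  intro n
  unfold tq
  rw [coeff_mk]
  apply pi_sum
  intro m _
  apply pi_mul (pi_int _)
  unfold sy
  exact pi_mul (pi_pow (K6_five p hp _) _) (K6_luc p (pi_nat n) (K6_five p hp _) _)

theorem K6_diag (c : ℕ → ℤ → ℤ) (a : ℕ) :
    tq c a a = PowerSeries.mk fun n => 2 * ∑ m ∈ ms n, (c n m : ℚ) * ((NN n m : ℚ) / 5) ^ a := by
  ext n
  unfold tq
  rw [coeff_mk, coeff_mk, Finset.mul_sum]
  apply Finset.sum_congr rfl
  intro m _
  unfold sy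
  rw [min_self, max_self, Nat.sub_self, luc]
  ring

theorem K6_e2q (p : ℕ) [Fact p.Prime] (hp : 5 ≤ p) : PI p e2q := by
  unfold e2q
  apply PI_smul _ (PI_toQ _)
  have hP : p.Prime := Fact.out
  have h := pi_div (p := p) 1 12 (by
    intro h
    have h1 : p ∣ 3 * 4 := h
    rcases (Nat.Prime.dvd_mul hP).1 h1 with h2 | h2
    · have := Nat.le_of_dvd (by norm_num) h2
      omega
    · have := Nat.le_of_dvd (by norm_num) h2
      omega)
  have e : (1 / 12 : ℚ) = ((1 : ℤ) : ℚ) / ((12 : ℕ) : ℚ) := by norm_num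
  rw [e]
  exact h

end H53M
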