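import Pool.Agent.Lib.H53M.K0

/-!
# H53M, chunk KA (size M): algebra of the lowering exponential

Pure algebra over a commutative (semi)ring.  For `k ≥ 1` the falling product
`(k+a-1)(k+a-2)...(k+a-i)` is `(k+a-1).descFactorial i`.

Group law in one variable: the coefficient of `t_{a-i-j}` in `(E_s (E_r t))_a` is
`kc(a,i) kc(a-i,j) s^i r^j`, and `binom(a,i) binom(a-i,j) = binom(a,i+j) binom(i+j,i)`,
`(k+a-1)_i (k+a-i-1)_j = (k+a-1)_{i+j}` (falling factorials; `Nat.descFactorial`), so summing over
`i + j = l` gives `kc(a,l) t_{a-l} Σ_i binom(l,i) s^i r^{l-i} = kc(a,l) (s+r)^l t_{a-l}`.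
In two variables `low` is the composite of the two commuting one-variable operators
(`low_eq_low1`, `low_eq_low1'`), so `low_low` follows from `low1_low1` applied twice.
-/

namespace H53M

open Finset

variable {R S : Type*} [CommSemiring R] [CommSemiring S]

theorem kc_zero (k a : ℕ) : kc k a 0 = 1 := by
  unfold kc
  rw [Nat.choose_zero_right, Nat.descFactorial_zero]

/-- The cocycle identity of the coefficients. -/
theorem KA_kc (k a i l : ℕ) (hk : 1 ≤ k) (hil : i ≤ l) (hla : l ≤ a) :
    kc k a l * l.choose i = kc k a i * kc k (a - i) (l - i) := by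
  unfold kc
  have h1 := Nat.choose_mul (n := a) hil
  have h2 := Nat.descFactorial_mul_descFactorial (n := k + a - 1) hil
  have h3 : k + (a - i) - 1 = k + a - 1 - i := by omega
  rw [h3]
  calc a.choose l * (k + a - 1).descFactorial l * l.choose i
      = (a.choose l * l.choose i) * (k + a - 1).descFactorial l := by ring
    _ = (a.choose i * (a - i).choose (l - i)) *
        ((k + a - 1 - i).descFactorial (l - i) * (k + a - 1).descFactorial i) := by rw [h1, h2]
    _ = _ := by ring

/-- `low` as a composite, first index outside. -/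
theorem low_eq_low1 (k : ℕ) (s : R) (t : ℕ → ℕ → R) (a b : ℕ) :
    low k s t a b = low1 k s (fun a' => low1 k s (fun b' => t a' b') b) a := by
  unfold low low1
  refine sum_congr rfl fun i _ => ?_
  rw [mul_sum]
  refine sum_congr rfl fun j _ => ?_
  rw [pow_add]
  ring

/-- The two one-variable operators commute. -/
theorem KA_comm (k : ℕ) (s u : R) (t : ℕ → ℕ → R) (a b : ℕ) :
    low1 k s (fun a' => low1 k u (fun b' => t a' b') b) a =
      low1 k u (fun b' => low1 k s (fun a' => t a' b') a) b := by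
  unfold low1
  simp only [mul_sum]
  rw [sum_comm]
  refine sum_congr rfl fun i _ => sum_congr rfl fun j _ => ?_
  ring

/-- `low` as a composite, second index outside. -/
theorem low_eq_low1' (k : ℕ) (s : R) (t : ℕ → ℕ → R) (a b : ℕ) :
    low k s t a b = low1 k s (fun b' => low1 k s (fun a' => t a' b') a) b := by
  rw [low_eq_low1, KA_comm]

theorem low1_low1 (k : ℕ) (hk : 1 ≤ k) (s r : R) (t : ℕ → R) (a : ℕ) :
    low1 k s (fun a' => low1 k r t a') a = low1 k (s + r) t a := by
  unfold low1
  have h1 : ∀ i ∈ range (a + 1), (kc k a i : R) * s ^ i *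
      ∑ j ∈ range (a - i + 1), (kc k (a - i) j : R) * r ^ j * t (a - i - j) =
      ∑ l ∈ Ico i (a + 1), (kc k a l : R) * (l.choose i : R) * s ^ i * r ^ (l - i) * t (a - l) := by
    intro i hi
    have hia : i ≤ a := Nat.lt_succ_iff.1 (mem_range.1 hi)
    rw [sum_Ico_eq_sum_range, mul_sum]
    have h2 : a + 1 - i = a - i + 1 := by omega
    rw [h2]
    refine sum_congr rfl fun j hj => ?_
    have hja : j ≤ a - i := Nat.lt_succ_iff.1 (mem_range.1 hj)
    have h3 := KA_kc k a i (i + j) hk (Nat.le_add_right _ _) (by omega)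
    have h4 : i + j - i = j := by omega
    rw [h4] at h3 ⊢
    have h5 : a - i - j = a - (i + j) := by omega
    rw [h5]
    have h6 : (kc k a (i + j) : R) * ((i + j).choose i : R) = (kc k a i : R) * (kc k (a - i) j : R) := by
      rw [← Nat.cast_mul, h3, Nat.cast_mul]
    rw [h6]
    ring
  rw [sum_congr rfl h1]
  have h2 : ∑ i ∈ range (a + 1), ∑ l ∈ Ico i (a + 1),
      (kc k a l : R) * (l.choose i : R) * s ^ i * r ^ (l - i) * t (a - l) =
      ∑ l ∈ range (a + 1), ∑ i ∈ range (l + 1),
        (kc k a l : R) * (l.choose i : R) * s ^ i * r ^ (l - i) * t (a - l) := by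
    apply sum_comm'
    intro x y
    simp only [mem_range, mem_Ico]
    omega
  rw [h2]
  refine sum_congr rfl fun l _ => ?_
  rw [add_pow, mul_sum, sum_mul]
  refine sum_congr rfl fun i _ => ?_
  ring

theorem low1_zero (k : ℕ) (t : ℕ → R) (a : ℕ) : low1 k 0 t a = t a := by
  unfold low1
  rw [sum_eq_single 0]
  · rw [kc_zero, Nat.cast_one, pow_zero, one_mul, one_mul, Nat.sub_zero]
  · intro i _ hi
    rw [zero_pow hi, mul_zero, zero_mul]
  · intro h
    exact absurd (mem_range.2 (Nat.succ_pos a)) h

theorem low_low (k : ℕ) (hk : 1 ≤ k) (s r : R) (t : ℕ → ℕ → R) (a b : ℕ) :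
    low k s (fun a' b' => low k r t a' b') a b = low k (s + r) t a b := by
  have h1 : ∀ a', low1 k s (fun b' => low k r t a' b') b =
      low1 k (s + r) (fun b'' => low1 k r (fun a'' => t a'' b'') a') b := by
    intro a'
    rw [← low1_low1 k hk s r]
    congr 1
    funext b'
    rw [low_eq_low1']
  rw [low_eq_low1]
  have h2 : (fun a' => low1 k s (fun b' => low k r t a' b') b) =
      fun a' => low1 k (s + r) (fun b'' => low1 k r (fun a'' => t a'' b'') a') b := funext h1
  rw [h2, KA_comm, low_eq_low1']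
  congr 1
  funext b'
  exact low1_low1 k hk s r _ a

theorem low_zero (k : ℕ) (t : ℕ → ℕ → R) (a b : ℕ) : low k 0 t a b = t a b := by
  rw [low_eq_low1, low1_zero, low1_zero]

/-- `low` commutes with ring homomorphisms. -/
theorem map_low (φ : R →+* S) (k : ℕ) (s : R) (t : ℕ → ℕ → R) (a b : ℕ) :
    φ (low k s t a b) = low k (φ s) (fun a' b' => φ (t a' b')) a b := by
  unfold low
  simp only [map_sum, map_mul, map_pow, map_natCast]

/-- Symmetrisation commutes with `low`. -/
theorem low_symm (k : ℕ) (s : R) (t : ℕ → ℕ → R) (a b : ℕ) :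
    low k s t a b + low k s t b a = low k s (fun a' b' => t a' b' + t b' a') a b := by
  unfold low
  rw [sum_comm (s := range (b + 1)) (t := range (a + 1)), ← sum_add_distrib]
  refine sum_congr rfl fun i _ => ?_
  rw [← sum_add_distrib]
  refine sum_congr rfl fun j _ => ?_
  rw [add_comm j i]
  ring

/-- Homogeneity: `z^(n+2a+2b) E_s` of `t` versus `E_{z² s}` of `z^(n+2a+2b) t`. -/
theorem low_homog (k : ℕ) (s z : R) (n : ℕ) (t : ℕ → ℕ → R) (a b : ℕ) :
    low k (z ^ 2 * s) (fun a' b' => z ^ (n + 2 * a' + 2 * b') * t a' b') a b =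
      z ^ (n + 2 * a + 2 * b) * low k s t a b := by
  unfold low
  rw [mul_sum]
  refine sum_congr rfl fun i hi => ?_
  rw [mul_sum]
  refine sum_congr rfl fun j hj => ?_
  have hia : i ≤ a := Nat.lt_succ_iff.1 (mem_range.1 hi)
  have hjb : j ≤ b := Nat.lt_succ_iff.1 (mem_range.1 hj)
  have h1 : n + 2 * a + 2 * b = 2 * (i + j) + (n + 2 * (a - i) + 2 * (b - j)) := by omega
  rw [mul_pow, ← pow_mul, h1, pow_add z (2 * (i + j))]
  ring

end H53M
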