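import Pool.Agent.Lib.H53M.K0

/-!
# H53M, chunk KR (size M): p-integral rational power series and their reduction

`PI p f`: no denominator of a coefficient is divisible by the prime `p`.  The `p`-integral rationals
form a ring: `(x + y).den ∣ x.den * y.den` (`Rat.add_den_dvd`), `(x * y).den ∣ x.den * y.den`
(`Rat.mul_den_dvd`), and the cast `ℚ → ZMod p` is additive and multiplicative on them
(`Rat.cast_add_of_ne_zero`, `Rat.cast_mul_of_ne_zero`; `(x.den : ZMod p) ≠ 0` iff `¬ p ∣ x.den`).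
Coefficients of products are finite sums over the antidiagonal.
-/

namespace H53M

open PowerSeries

variable {p : ℕ} [Fact p.Prime]

theorem pi_add {x y : ℚ} (hx : ¬ p ∣ x.den) (hy : ¬ p ∣ y.den) : ¬ p ∣ (x + y).den := by
  intro h
  rcases (Nat.Prime.dvd_mul Fact.out).1 (h.trans (Rat.add_den_dvd x y)) with h | h
  · exact hx h
  · exact hy h

theorem pi_mul {x y : ℚ} (hx : ¬ p ∣ x.den) (hy : ¬ p ∣ y.den) : ¬ p ∣ (x * y).den := by
  intro h
  rcases (Nat.Prime.dvd_mul Fact.out).1 (h.trans (Rat.mul_den_dvd x y)) with h | h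
  · exact hx h
  · exact hy h

theorem pi_neg {x : ℚ} (hx : ¬ p ∣ x.den) : ¬ p ∣ (-x).den := by
  rwa [Rat.den_neg_eq_den]

theorem pi_int (n : ℤ) : ¬ p ∣ (n : ℚ).den := by
  rw [Rat.den_intCast]
  exact (Fact.out : p.Prime).one_lt.ne' ∘ Nat.dvd_one.1

theorem pi_nat (n : ℕ) : ¬ p ∣ (n : ℚ).den := by
  rw [Rat.den_natCast]
  exact (Fact.out : p.Prime).one_lt.ne' ∘ Nat.dvd_one.1

/-- an integer divided by a natural number prime to `p` -/
theorem pi_div (n : ℤ) (d : ℕ) (hd : ¬ p ∣ d) : ¬ p ∣ ((n : ℚ) / (d : ℚ)).den := by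
  intro h
  apply hd
  refine h.trans ?_
  have := Rat.den_dvd n (d : ℤ)
  rw [Rat.divInt_eq_div] at this
  push_cast at this
  exact Int.natCast_dvd_natCast.1 this

theorem pi_pow {x : ℚ} (hx : ¬ p ∣ x.den) (n : ℕ) : ¬ p ∣ (x ^ n).den := by
  rw [Rat.den_pow]
  exact fun h => hx ((Fact.out : p.Prime).dvd_of_dvd_pow h)

theorem pi_sum {ι : Type*} (s : Finset ι) (f : ι → ℚ) (h : ∀ i ∈ s, ¬ p ∣ (f i).den) :
    ¬ p ∣ (∑ i ∈ s, f i).den := by
  classical
  induction s using Finset.induction_on with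
  | empty => exact pi_int (p := p) 0
  | insert a s ha ih =>
    rw [Finset.sum_insert ha]
    exact pi_add (h a (Finset.mem_insert_self a s))
      (ih fun i hi => h i (Finset.mem_insert_of_mem hi))

theorem KR_ne {x : ℚ} (hx : ¬ p ∣ x.den) : (x.den : ZMod p) ≠ 0 := by
  rwa [Ne, ZMod.natCast_eq_zero_iff]

theorem cast_add_pi {x y : ℚ} (hx : ¬ p ∣ x.den) (hy : ¬ p ∣ y.den) :
    ((x + y : ℚ) : ZMod p) = x + y :=
  Rat.cast_add_of_ne_zero (KR_ne hx) (KR_ne hy)

theorem cast_mul_pi {x y : ℚ} (hx : ¬ p ∣ x.den) (hy : ¬ p ∣ y.den) :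
    ((x * y : ℚ) : ZMod p) = x * y :=
  Rat.cast_mul_of_ne_zero (KR_ne hx) (KR_ne hy)

theorem cast_sum_pi {ι : Type*} (s : Finset ι) (f : ι → ℚ) (h : ∀ i ∈ s, ¬ p ∣ (f i).den) :
    ((∑ i ∈ s, f i : ℚ) : ZMod p) = ∑ i ∈ s, (f i : ZMod p) := by
  classical
  induction s using Finset.induction_on with
  | empty => simp
  | insert a s ha ih =>
    rw [Finset.sum_insert ha, Finset.sum_insert ha,
      cast_add_pi (h a (Finset.mem_insert_self a s))
        (pi_sum s f fun i hi => h i (Finset.mem_insert_of_mem hi)),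
      ih fun i hi => h i (Finset.mem_insert_of_mem hi)]

theorem PI_add {f g : PowerSeries ℚ} (hf : PI p f) (hg : PI p g) : PI p (f + g) := by
  intro n
  rw [map_add]
  exact pi_add (hf n) (hg n)

theorem PI_neg {f : PowerSeries ℚ} (hf : PI p f) : PI p (-f) := by
  intro n
  rw [map_neg]
  exact pi_neg (hf n)

theorem PI_mul {f g : PowerSeries ℚ} (hf : PI p f) (hg : PI p g) : PI p (f * g) := by
  intro n
  rw [PowerSeries.coeff_mul]
  exact pi_sum _ _ fun i _ => pi_mul (hf _) (hg _)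

theorem PI_smul {r : ℚ} (hr : ¬ p ∣ r.den) {f : PowerSeries ℚ} (hf : PI p f) : PI p (r • f) := by
  intro n
  rw [PowerSeries.coeff_smul, smul_eq_mul]
  exact pi_mul hr (hf n)

theorem PI_toQ (f : PowerSeries ℤ) : PI p (toQ f) := by
  intro n
  rw [PowerSeries.coeff_map, eq_intCast]
  exact pi_int _

theorem PI_natCast (n : ℕ) : PI p (n : PowerSeries ℚ) := by
  have h := PI_toQ (p := p) (n : PowerSeries ℤ)
  rwa [map_natCast] at h

theorem PI_pow {f : PowerSeries ℚ} (hf : PI p f) (n : ℕ) : PI p (f ^ n) := by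
  induction n with
  | zero =>
    rw [pow_zero]
    have h := PI_natCast (p := p) 1
    rwa [Nat.cast_one] at h
  | succ n ih =>
    rw [pow_succ]
    exact PI_mul ih hf

theorem PI_sum {ι : Type*} (s : Finset ι) (f : ι → PowerSeries ℚ) (h : ∀ i ∈ s, PI p (f i)) :
    PI p (∑ i ∈ s, f i) := by
  intro n
  rw [map_sum]
  exact pi_sum _ _ fun i hi => h i hi n

theorem kredQ_add {f g : PowerSeries ℚ} (hf : PI p f) (hg : PI p g) :
    redQ p (f + g) = redQ p f + redQ p g := by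
  ext n
  rw [map_add]
  simp only [redQ, PowerSeries.coeff_mk]
  rw [map_add]
  exact cast_add_pi (hf n) (hg n)

theorem kredQ_mul {f g : PowerSeries ℚ} (hf : PI p f) (hg : PI p g) :
    redQ p (f * g) = redQ p f * redQ p g := by
  ext n
  rw [PowerSeries.coeff_mul]
  simp only [redQ, PowerSeries.coeff_mk]
  rw [PowerSeries.coeff_mul, cast_sum_pi _ _ fun i _ => pi_mul (hf _) (hg _)]
  exact Finset.sum_congr rfl fun i _ => cast_mul_pi (hf _) (hg _)

theorem kredQ_smul {r : ℚ} (hr : ¬ p ∣ r.den) {f : PowerSeries ℚ} (hf : PI p f) :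
    redQ p (r • f) = (r : ZMod p) • redQ p f := by
  ext n
  rw [PowerSeries.coeff_smul, smul_eq_mul]
  simp only [redQ, PowerSeries.coeff_mk]
  rw [PowerSeries.coeff_smul, smul_eq_mul]
  exact cast_mul_pi hr (hf n)

theorem kredQ_toQ (f : PowerSeries ℤ) : redQ p (toQ f) = redZ p f := by
  ext n
  simp only [redQ, PowerSeries.coeff_mk, PowerSeries.coeff_map, eq_intCast, Rat.cast_intCast]

theorem kredQ_natCast (n : ℕ) : redQ p (n : PowerSeries ℚ) = (n : PowerSeries (ZMod p)) := by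
  have h := kredQ_toQ (p := p) (n : PowerSeries ℤ)
  rwa [map_natCast, map_natCast] at h

theorem kredQ_pow {f : PowerSeries ℚ} (hf : PI p f) (n : ℕ) : redQ p (f ^ n) = redQ p f ^ n := by
  induction n with
  | zero =>
    rw [pow_zero, pow_zero]
    have h := kredQ_natCast (p := p) 1
    rwa [Nat.cast_one, Nat.cast_one] at h
  | succ n ih =>
    rw [pow_succ, pow_succ, kredQ_mul (PI_pow hf n) hf, ih]

theorem kredQ_sum {ι : Type*} (s : Finset ι) (f : ι → PowerSeries ℚ) (h : ∀ i ∈ s, PI p (f i)) :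
    redQ p (∑ i ∈ s, f i) = ∑ i ∈ s, redQ p (f i) := by
  ext n
  rw [map_sum]
  simp only [redQ, PowerSeries.coeff_mk]
  rw [map_sum]
  exact cast_sum_pi _ _ fun i hi => h i hi n

theorem KR_term (k : ℕ) {s : PowerSeries ℚ} (hs : PI p s) {t : PowerSeries ℚ}
    (ht : PI p t) (x y l : ℕ) : PI p ((x : PowerSeries ℚ) * (y : PowerSeries ℚ) * s ^ l * t) :=
  PI_mul (PI_mul (PI_mul (PI_natCast x) (PI_natCast y)) (PI_pow hs l)) ht

theorem PI_low (k : ℕ) {s : PowerSeries ℚ} (hs : PI p s) {t : ℕ → ℕ → PowerSeries ℚ}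
    (ht : ∀ a b, PI p (t a b)) (a b : ℕ) : PI p (low k s t a b) := by
  unfold low
  exact PI_sum _ _ fun i _ => PI_sum _ _ fun j _ => KR_term k hs (ht _ _) _ _ _

theorem kredQ_low (k : ℕ) {s : PowerSeries ℚ} (hs : PI p s) {t : ℕ → ℕ → PowerSeries ℚ}
    (ht : ∀ a b, PI p (t a b)) (a b : ℕ) :
    redQ p (low k s t a b) = low k (redQ p s) (fun a' b' => redQ p (t a' b')) a b := by
  unfold low
  rw [kredQ_sum _ _ fun i _ => PI_sum _ _ fun j _ => KR_term k hs (ht _ _) _ _ _]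
  refine Finset.sum_congr rfl fun i _ => ?_
  rw [kredQ_sum _ _ fun j _ => KR_term k hs (ht _ _) _ _ _]
  refine Finset.sum_congr rfl fun j _ => ?_
  rw [kredQ_mul (PI_mul (PI_mul (PI_natCast _) (PI_natCast _)) (PI_pow hs _)) (ht _ _),
    kredQ_mul (PI_mul (PI_natCast _) (PI_natCast _)) (PI_pow hs _),
    kredQ_mul (PI_natCast _) (PI_natCast _), kredQ_natCast, kredQ_natCast, kredQ_pow hs]

end H53M
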