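import Pool.Agent.Lib.H53M.KQ
import Pool.Agent.Lib.H53M.KA
import Pool.Agent.Lib.H53M.KR
import Pool.Agent.Lib.H53M.KMF
import Pool.Agent.Lib.H53M.K5
import Pool.Agent.Lib.H53M.K6

/-!
# H53M, chunk K7 (size M/L): Theorem K

(1) `Mq k c a b` is `p`-integral (`PI_low`, `K6_PI`, `K6_e2q`, `PI_neg`), and
`ktoC (Mq k c a b) = low k (-(ktoC e2q)) (fun a b => tser a b + tser b a) a b = M_ab + M_ba`
(`map_low`, `K6_toC`, `low_symm`), which transforms with weight `2k+2a+2b` (`K5`, `ev_add`), so it is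
the `q`-expansion of a modular form (`KMF`) and `redQ p (Mq k c a b) ∈ MP p (2k+2a+2b)` (`KQ_red`).

(2) `tq c a b = low k e2q (Mq k c) a b` (`low_low` with `e2q + (-e2q) = 0`, `low_zero`).

(3) `a = b = p - 2`: `redQ p (tq c (p-2) (p-2)) = Σ_{i,j ≤ p-2} kc(k,p-2,i) kc(k,p-2,j)
(redQ e2q)^(i+j) redQ (Mq k c (p-2-i) (p-2-j))` (`kredQ_low`).  In `ZMod p`, `kc(k,p-2,i) = 0` for
`i ≥ k-2`: the product `(k+p-3)(k+p-4)...(k+p-2-i)` contains the factor `p` (it is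
`k+p-3-(k-3)`, with `k ≥ 3`; `Nat.descFactorial`: `(k+p-3).descFactorial i` is divisible by
`(k+p-3).descFactorial (k-2)`, whose last factor is `p`).  For `i, j ≤ k-3` the term lies in
`MP` of weight `(p+1)(i+j) + 2k + 2(p-2-i) + 2(p-2-j) = (2k-4) + (p-1)(4+i+j)`
(`KQ_e2`, `KQ_mul`, scalars), `i + j ≤ 2k-6`; multiply by `1 ∈ MP p (p-1)` to the power
`2k-6-i-j` (`KQ_one`, `KQ_mul`) to get weight `2k-4+(p-1)(2k-2)`.

(4) `tq c (p-2) (p-2) = 2 Σ c (N/5)^(p-2)` (`K6_diag`), so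
`redZ p (nser p c) = unit • redQ p (tq c (p-2) (p-2))`.
-/

namespace H53M

open PowerSeries

theorem K7_PI {k : ℕ} (p : ℕ) [Fact p.Prime] (hp : 5 < p) (c : ℕ → ℤ → ℤ) (a b : ℕ) :
    PI p (Mq k c a b) :=
  PI_low k (PI_neg (K6_e2q p (by omega))) (K6_PI p hp c) a b

theorem K7_toC {k : ℕ} {c : ℕ → ℤ → ℤ} (hA : Arr k c) (a b : ℕ) :
    ktoC (Mq k c a b) =
      low k (-(ktoC e2q)) (tser c) a b + low k (-(ktoC e2q)) (tser c) b a := by
  rw [low_symm]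
  unfold Mq
  rw [map_low, map_neg]
  congr 1
  funext a' b'
  exact K6_toC hA a' b'

theorem K7_MP {k : ℕ} (hk : 1 ≤ k) {c : ℕ → ℤ → ℤ} (hA : Arr k c) (p : ℕ) [Fact p.Prime]
    (hp : 5 < p) (a b : ℕ) : redQ p (Mq k c a b) ∈ MP p (2 * k + 2 * a + 2 * b) := by
  have hC : Cv (ktoC (Mq k c a b)) := by
    rw [K7_toC hA]
    exact Cv_add (K5_Cv hA a b) (K5_Cv hA b a)
  obtain ⟨F, hF⟩ := KMF (ktoC (Mq k c a b)) hC (2 * k + 2 * a + 2 * b) (by
    intro z hz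
    have hz' : 0 < (-1 / z).im := by
      rw [neg_div, one_div, Complex.neg_im, Complex.inv_im, neg_div, neg_neg]
      exact div_pos hz (Complex.normSq_pos.2 (fun h => by simp [h] at hz))
    rw [K7_toC hA, ev_add (K5_Cv hA a b) (K5_Cv hA b a) hz',
      ev_add (K5_Cv hA a b) (K5_Cv hA b a) hz, K5 hk hA a b z hz, K5 hk hA b a z hz]
    have e : 2 * k + 2 * b + 2 * a = 2 * k + 2 * a + 2 * b := by omega
    rw [e]
    ring)
  exact KQ_red p (by omega) _ _ (K7_PI p hp c a b) F hF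

theorem K7_inv {k : ℕ} (hk : 1 ≤ k) (c : ℕ → ℤ → ℤ) (a b : ℕ) :
    tq c a b = low k e2q (Mq k c) a b := by
  have h := low_low k hk e2q (-e2q) (tq c) a b
  rw [add_neg_cancel, low_zero] at h
  exact h.symm

theorem K7_kc (k : ℕ) (hk : 3 ≤ k) (p : ℕ) [Fact p.Prime] (hp : 5 < p) (i : ℕ) (hi : k - 2 ≤ i) :
    ((kc k (p - 2) i : ℕ) : ZMod p) = 0 := by
  rw [ZMod.natCast_eq_zero_iff]
  unfold kc
  apply Dvd.dvd.mul_left
  obtain ⟨j, rfl⟩ : ∃ j, k = j + 3 := ⟨k - 3, by omega⟩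
  have e : j + 3 + (p - 2) - 1 = j + p := by omega
  rw [e]
  have h1 : (j + p).descFactorial (j + 1) ∣ (j + p).descFactorial i := by
    have := Nat.descFactorial_mul_descFactorial (n := j + p) (k := j + 1) (m := i) (by omega)
    exact ⟨_, by rw [mul_comm]; exact this.symm⟩
  refine dvd_trans ?_ h1
  rw [Nat.descFactorial_succ]
  have e2 : j + p - j = p := by omega
  rw [e2]
  exact Dvd.intro _ rfl

theorem K7_pow {p w : ℕ} [Fact p.Prime] {f : PowerSeries (ZMod p)} (hf : f ∈ MP p w) (n : ℕ) :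
    f ^ n ∈ MP p (n * w) := by
  induction n with
  | zero =>
    rw [pow_zero, zero_mul]
    exact Submodule.subset_span ⟨0, 0, 0, by simp, by simp⟩
  | succ n ih =>
    rw [pow_succ, add_mul, one_mul]
    exact KQ_mul ih hf

theorem K7_e2q (p : ℕ) [Fact p.Prime] (hp : 5 < p) : redQ p e2q ∈ MP p (p + 1) := by
  have h12 : ¬ p ∣ (1 / 12 : ℚ).den := by
    have e : (1 / 12 : ℚ).den = 12 := by norm_num
    rw [e]
    intro h
    have h2 : p ∣ 2 ^ 2 * 3 := by simpa using h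
    have hpp : p.Prime := Fact.out
    rcases (Nat.Prime.dvd_mul hpp).1 h2 with h3 | h3
    · have := Nat.le_of_dvd (by norm_num) (hpp.dvd_of_dvd_pow h3)
      omega
    · have := Nat.le_of_dvd (by norm_num) h3
      omega
  unfold e2q
  rw [kredQ_smul h12 (PI_toQ e2), kredQ_toQ]
  exact Submodule.smul_mem _ _ (KQ_e2 p (by omega))

theorem K7_tq {k : ℕ} (hk : 3 ≤ k) {c : ℕ → ℤ → ℤ} (hA : Arr k c) (p : ℕ) [Fact p.Prime]
    (hp : 5 < p) : redQ p (tq c (p - 2) (p - 2)) ∈ MP p (2 * k - 4 + (p - 1) * (2 * k - 2)) := by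
  rw [K7_inv (by omega : 1 ≤ k) c, kredQ_low k (K6_e2q p (by omega)) (fun a b => K7_PI p hp c a b)]
  unfold low
  have hcast : ∀ i, k - 2 ≤ i → ((kc k (p - 2) i : ℕ) : PowerSeries (ZMod p)) = 0 := by
    intro i hi
    rw [← map_natCast (PowerSeries.C (R := ZMod p)), K7_kc k hk p hp i hi, map_zero]
  refine Submodule.sum_mem _ fun i hi => Submodule.sum_mem _ fun j hj => ?_
  rw [Finset.mem_range] at hi hj
  by_cases h1 : k - 2 ≤ i
  · rw [hcast i h1]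
    simp
  by_cases h2 : k - 2 ≤ j
  · rw [hcast j h2]
    simp
  have hM := K7_MP (by omega : 1 ≤ k) hA p hp (p - 2 - i) (p - 2 - j)
  have h3 := KQ_mul (K7_pow (K7_e2q p hp) (i + j)) hM
  have h4 := KQ_mul h3 (K7_pow (KQ_one p (by omega)) (2 * k - 6 - (i + j)))
  rw [one_pow, mul_one] at h4
  have hw : (i + j) * (p + 1) + (2 * k + 2 * (p - 2 - i) + 2 * (p - 2 - j)) +
      (2 * k - 6 - (i + j)) * (p - 1) = 2 * k - 4 + (p - 1) * (2 * k - 2) := by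
    obtain ⟨l, hl⟩ : ∃ l, 2 * k - 6 - (i + j) = l := ⟨_, rfl⟩
    obtain ⟨q, rfl⟩ : ∃ q, p = q + 1 := ⟨p - 1, by omega⟩
    obtain ⟨x, hx⟩ : ∃ x, q + 1 - 2 - i = x := ⟨_, rfl⟩
    obtain ⟨y, hy⟩ : ∃ y, q + 1 - 2 - j = y := ⟨_, rfl⟩
    have ek : 2 * k - 2 = l + (i + j) + 4 := by omega
    have ek2 : 2 * k - 4 = l + (i + j) + 2 := by omega
    have ekk : 2 * k = l + (i + j) + 6 := by omega
    have hq1 : q = x + i + 1 := by omega
    have hq2 : q = y + j + 1 := by omega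
    rw [hl, hx, hy, ek, ek2, ekk, Nat.add_sub_cancel]
    have : 2 * q = x + i + 1 + (y + j + 1) := by omega
    nlinarith [this]
  rw [hw] at h4
  have h5 : ((kc k (p - 2) i : ℕ) : PowerSeries (ZMod p)) *
      ((kc k (p - 2) j : ℕ) : PowerSeries (ZMod p)) * redQ p e2q ^ (i + j) *
        redQ p (Mq k c (p - 2 - i) (p - 2 - j)) =
      ((kc k (p - 2) i * kc k (p - 2) j : ℕ) : ZMod p) •
        (redQ p e2q ^ (i + j) * redQ p (Mq k c (p - 2 - i) (p - 2 - j))) := by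
    rw [PowerSeries.smul_eq_C_mul, map_natCast]
    push_cast
    ring
  rw [h5]
  exact Submodule.smul_mem _ _ h4

/-- **Theorem K.** -/
theorem K7 {k : ℕ} (hk : 3 ≤ k) {c : ℕ → ℤ → ℤ} (hA : Arr k c) (p : ℕ) [Fact p.Prime]
    (hp : 5 < p) : redZ p (nser p c) ∈ MP p (2 * k - 4 + (p - 1) * (2 * k - 2)) := by
  have hpp : p.Prime := Fact.out
  have h1 : ((5 ^ (p - 2) : ℤ) : ℚ) • tq c (p - 2) (p - 2) = ((2 : ℤ) : ℚ) • toQ (nser p c) := by
    rw [K6_diag]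
    ext n
    simp only [PowerSeries.coeff_smul, PowerSeries.coeff_mk, nser, PowerSeries.coeff_map,
      smul_eq_mul, Finset.mul_sum, Finset.sum_mul, map_sum, eq_intCast]
    refine Finset.sum_congr rfl fun m _ => ?_
    push_cast
    rw [div_pow]
    field_simp
  have h2 : redQ p (((5 ^ (p - 2) : ℤ) : ℚ) • tq c (p - 2) (p - 2)) =
      redQ p (((2 : ℤ) : ℚ) • toQ (nser p c)) := by rw [h1]
  rw [kredQ_smul (pi_int _) (K6_PI p hp c _ _), kredQ_smul (pi_int _) (PI_toQ _), kredQ_toQ] at h2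
  have h3 := Submodule.smul_mem _ ((((5 ^ (p - 2) : ℤ) : ℚ)) : ZMod p) (K7_tq hk hA p hp)
  rw [h2] at h3
  have h4 : ((((2 : ℤ) : ℚ)) : ZMod p) ≠ 0 := by
    have e : ((((2 : ℤ) : ℚ)) : ZMod p) = ((2 : ℕ) : ZMod p) := by
      rw [Rat.cast_intCast]
      norm_num
    rw [e, Ne, ZMod.natCast_eq_zero_iff]
    intro h
    have := Nat.le_of_dvd (by norm_num) h
    omega
  have h5 := Submodule.smul_mem _ ((((2 : ℤ) : ℚ)) : ZMod p)⁻¹ h3
  rwa [smul_smul, inv_mul_cancel₀ h4, one_smul] at h5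

end H53M
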