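import Pool.Agent.Lib.H53M.Q6A

/-!
# H53M, chunk Q7A: Ramanujan's identities as identities of integral power series

Size M.

PROOF. `exists_serre` for E₄ (weight 4): G of weight 6 with q-expansion
th e4 - (1/3) e2 e4, whose coefficient 0 is -1/3. The space of modular forms of weight 6 is one
dimensional (`ModularForm.levelOne_weight_six_rank_one`; or `ModularForm.sturm_bound_levelOne`:
G + (1/3) E₆ has vanishing coefficient 0 and weight 6 < 12, so it is 0). Hence
th e4 - (1/3) e2 e4 = -(1/3) e6 over ℂ (`qExp_E4`, `qExp_E6`), so 3 th e4 = e2 e4 - e6 in ℤ⟦X⟧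
(toC is injective). E₆: weight 8, th e6 - (1/2) e2 e6 = -(1/2) e4², with the form E₄² of weight 8
(`ModularForm.mul`, `ModularForm.mcast`), again by `sturm_bound_levelOne`. dl: from
1728 dl = e4³ - e6² : 1728 th dl = 3 e4² th e4 - 2 e6 th e6 = e4² (e2 e4 - e6) - e6 (e2 e6 - e4²)
= e2 (e4³ - e6²) = 1728 e2 dl.
-/

namespace H53M

open PowerSeries UpperHalfPlane MatrixGroups

theorem Q7A_eq {w : ℕ} (hw : w < 12) {a b : ℤ} (ha : a = (w : ℤ)) (hb : b = (w : ℤ))
    (A : ModularForm 𝒮ℒ a) (B : ModularForm 𝒮ℒ b)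
    (h0 : coeff 0 (qExpansion 1 (A : ℍ → ℂ)) = coeff 0 (qExpansion 1 (B : ℍ → ℂ))) :
    qExpansion 1 (A : ℍ → ℂ) = qExpansion 1 (B : ℍ → ℂ) := by
  subst ha
  subst hb
  have h1 : qExpansion 1 ((A - B : ModularForm 𝒮ℒ (w : ℤ)) : ℍ → ℂ) =
      qExpansion 1 (A : ℍ → ℂ) - qExpansion 1 (B : ℍ → ℂ) :=
    ModularForm.qExpansion_sub one_pos one_mem_strictPeriods_SL A B
  have h2 : A - B = 0 := by
    apply ModularForm.sturm_bound_levelOne_nat
    rw [h1]
    have h3 : w / 12 = 0 := Nat.div_eq_of_lt hw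
    rw [h3]
    have h4 : ((1 : ℕ) : ℕ∞) ≤ (qExpansion 1 (A : ℍ → ℂ) - qExpansion 1 (B : ℍ → ℂ)).order := by
      apply PowerSeries.nat_le_order
      intro i hi
      have : i = 0 := by omega
      rw [this, map_sub, h0, sub_self]
    exact lt_of_lt_of_le (by norm_num) h4
  rw [sub_eq_zero.1 h2]

theorem Q7A_toC_inj {f g : PowerSeries ℤ} (h : toC f = toC g) : f = g := by
  ext n
  have h1 := congrArg (coeff n) h
  rw [coeff_map, coeff_map] at h1
  simpa using h1

theorem Q7A_th_coeff_zero (f : PowerSeries ℂ) : coeff 0 (th f) = 0 := by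
  unfold th
  rw [coeff_mk]
  simp

theorem Q7A_c0 (f g : PowerSeries ℂ) : coeff 0 (f * g) = coeff 0 f * coeff 0 g := by
  rw [coeff_mul]
  simp

theorem Q7A_th_C (a : ℤ) : th (C a : PowerSeries ℤ) = 0 := by
  ext n
  unfold th
  rw [coeff_mk, coeff_C]
  split_ifs with h
  · rw [h]
    simp
  · simp

theorem Q7A_th_sub (f g : PowerSeries ℤ) : th (f - g) = th f - th g := by
  ext n
  unfold th
  rw [map_sub, coeff_mk, coeff_mk, coeff_mk, map_sub]
  ring

theorem th_e4 : 3 * th e4 = e2 * e4 - e6 := by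
  obtain ⟨G, hG⟩ := exists_serre 4 ModularForm.E₄
  rw [qExp_E4] at hG
  have hB : qExpansion 1 (((-1 / 3 : ℂ) • ModularForm.E₆ : ModularForm 𝒮ℒ 6) : ℍ → ℂ) =
      (-1 / 3 : ℂ) • toC e6 := by
    rw [← qExp_E6]
    exact ModularForm.qExpansion_smul one_pos one_mem_strictPeriods_SL (-1 / 3 : ℂ)
      ModularForm.E₆
  have h := Q7A_eq (w := 6) (by norm_num) (by norm_num) (by norm_num) G
    ((-1 / 3 : ℂ) • ModularForm.E₆ : ModularForm 𝒮ℒ 6) (by
      rw [hG, hB, map_sub, Q7A_th_coeff_zero, coeff_smul, coeff_smul, Q7A_c0, coeff_map,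
        coeff_map, coeff_map, coeff_zero_e2, coeff_zero_e4, coeff_zero_e6]
      simp
      norm_num)
  rw [hG, hB] at h
  apply Q7A_toC_inj
  rw [map_mul, map_sub, map_mul, ← th_map, map_ofNat]
  ext n
  have h1 := congrArg (coeff n) h
  rw [map_sub, coeff_smul, coeff_smul, smul_eq_mul, smul_eq_mul] at h1
  have h2 : (3 : PowerSeries ℂ) * th (toC e4) = (3 : ℂ) • th (toC e4) := by
    rw [smul_eq_C_mul, map_ofNat]
  rw [h2, coeff_smul, smul_eq_mul, map_sub]
  push_cast at h1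
  linear_combination 3 * h1

theorem th_e6 : 2 * th e6 = e2 * e6 - e4 ^ 2 := by
  obtain ⟨G, hG⟩ := exists_serre 6 ModularForm.E₆
  rw [qExp_E6] at hG
  have hB : qExpansion 1 (((-1 / 2 : ℂ) • (ModularForm.E₄.mul ModularForm.E₄) :
      ModularForm 𝒮ℒ (4 + 4)) : ℍ → ℂ) = (-1 / 2 : ℂ) • (toC e4 * toC e4) := by
    rw [← qExp_E4, ← ModularForm.qExpansion_mul one_pos one_mem_strictPeriods_SL]
    exact ModularForm.qExpansion_smul one_pos one_mem_strictPeriods_SL (-1 / 2 : ℂ)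
      (ModularForm.E₄.mul ModularForm.E₄)
  have h := Q7A_eq (w := 8) (by norm_num) (by norm_num) (by norm_num) G
    ((-1 / 2 : ℂ) • (ModularForm.E₄.mul ModularForm.E₄) : ModularForm 𝒮ℒ (4 + 4)) (by
      rw [hG, hB, map_sub, Q7A_th_coeff_zero, coeff_smul, coeff_smul, Q7A_c0,
        Q7A_c0, coeff_map, coeff_map, coeff_map, coeff_zero_e2, coeff_zero_e4,
        coeff_zero_e6]
      simp
      norm_num)
  rw [hG, hB] at h
  apply Q7A_toC_inj
  rw [map_mul, map_sub, map_mul, ← th_map, map_pow, map_ofNat]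
  ext n
  have h1 := congrArg (coeff n) h
  rw [map_sub, coeff_smul, coeff_smul, smul_eq_mul, smul_eq_mul] at h1
  have h2 : (2 : PowerSeries ℂ) * th (toC e6) = (2 : ℂ) • th (toC e6) := by
    rw [smul_eq_C_mul, map_ofNat]
  rw [h2, coeff_smul, smul_eq_mul, map_sub, pow_two]
  push_cast at h1
  linear_combination 2 * h1

theorem th_dl : th dl = e2 * dl := by
  have hC : (1728 : PowerSeries ℤ) = C (1728 : ℤ) := (map_ofNat C 1728).symm
  have h := congrArg th dl_eq
  have h1 : th ((1728 : PowerSeries ℤ) * dl) = 1728 * th dl := by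
    rw [th_mul, hC, Q7A_th_C, zero_mul, zero_add]
  have h2 : th (e4 ^ 3 - e6 ^ 2) = 3 * e4 ^ 2 * th e4 - 2 * e6 * th e6 := by
    rw [Q7A_th_sub, th_pow, th_pow]
    push_cast
    ring
  rw [h1, h2] at h
  have h3 : (1728 : PowerSeries ℤ) * th dl = 1728 * (e2 * dl) := by
    have e4' := th_e4
    have e6' := th_e6
    have e0 := dl_eq
    linear_combination h + e4 ^ 2 * e4' - e6 * e6' - e2 * e0
  apply mul_left_cancel₀ _ h3
  intro h0
  rw [hC] at h0
  have h4 := congrArg (coeff 0) h0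
  rw [coeff_C, if_pos rfl] at h4
  norm_num at h4

end H53M
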