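import Pool.Agent.Lib.H53M.Q6
import Pool.Agent.Lib.H53M.Q7A

/-!
# H53M, chunk Q7: theta maps MP p w to MP p (w + p + 1)

Size S/M.

PROOF. p > 3. By linearity (`Submodule.span_induction`) take f = redZ p (dl^c e4^a e6^b) with
4a + 6b + 12c = w; th f = redZ p (th (dl^c e4^a e6^b)) (`th_map`) and by Leibniz (`th_mul`,
`th_pow`) and Q7A
  th (dl^c e4^a e6^b) = c e2 dl^c e4^a e6^b + a dl^c e4^(a-1) e6^b th e4
                          + b dl^c e4^a e6^(b-1) th e6,
where in ZMod p: th e4 = (1/3)(e2 e4 - e6), th e6 = (1/2)(e2 e6 - e4²) (2, 3 are invertible). So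
th f = (w/12) e2 f - (a/3) dl^c e4^(a-1) e6^(b+1) - (b/2) dl^c e4^(a+2) e6^(b-1) (second term
absent if a = 0, third if b = 0). The first is in MP p (w + p + 1) by `e2_mem` and `MP_mul`; the
others are in MP p (w + 2), and w + 2 + (p - 1) = w + p + 1 by `MP_shift` with `one_mem`.
(It is enough to prove 12 • th f ∈ MP, or to do an induction: the set of f in MP p w with
th f ∈ MP p (w+p+1) for the generators, using the product rule: if f ∈ MP p w, g ∈ MP p w' both
satisfy the claim so does f g; the claim holds for redZ p dl, redZ p e4, redZ p e6 and 1.)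
-/

namespace H53M

open PowerSeries

/-- the property of the claim -/
def Q7_G (p w : ℕ) (f : PowerSeries (ZMod p)) : Prop := f ∈ MP p w ∧ th f ∈ MP p (w + p + 1)

theorem Q7_mul {p w w' : ℕ} {f g : PowerSeries (ZMod p)} (hf : Q7_G p w f) (hg : Q7_G p w' g) :
    Q7_G p (w + w') (f * g) := by
  refine ⟨MP_mul hf.1 hg.1, ?_⟩
  rw [th_mul]
  refine Submodule.add_mem _ ?_ ?_
  · exact MP_cast (by ring) (MP_mul hf.2 hg.1)
  · exact MP_cast (by ring) (MP_mul hf.1 hg.2)

theorem Q7_one (p : ℕ) : Q7_G p 0 1 := by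
  refine ⟨one_mem_MP_zero p, ?_⟩
  have h : th (1 : PowerSeries (ZMod p)) = 0 := by
    ext n
    unfold th
    rw [coeff_mk, coeff_one]
    split_ifs with h
    · simp [h]
    · simp
  rw [h]
  exact Submodule.zero_mem _

theorem Q7_pow {p w : ℕ} {f : PowerSeries (ZMod p)} (hf : Q7_G p w f) (n : ℕ) :
    Q7_G p (n * w) (f ^ n) := by
  induction n with
  | zero => simpa using Q7_one p
  | succ n ih =>
    rw [pow_succ, Nat.succ_mul]
    exact Q7_mul ih hf

theorem Q7_unit (p : ℕ) [Fact p.Prime] (hp : 3 < p) {k : ℕ} (hk : k = 2 ∨ k = 3)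
    {w : ℕ} {f : PowerSeries (ZMod p)} (h : (k : PowerSeries (ZMod p)) * f ∈ MP p w) :
    f ∈ MP p w := by
  have hk0 : (k : ZMod p) ≠ 0 := by
    intro h0
    rw [ZMod.natCast_eq_zero_iff] at h0
    have := Nat.le_of_dvd (by omega) h0
    omega
  have e : f = (k : ZMod p)⁻¹ • ((k : PowerSeries (ZMod p)) * f) := by
    have h1 : (k : PowerSeries (ZMod p)) = C (k : ZMod p) := (map_natCast (C (R := ZMod p)) k).symm
    rw [h1, ← smul_eq_C_mul, smul_smul, inv_mul_cancel₀ hk0, one_smul]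
  rw [e]
  exact Submodule.smul_mem _ _ h

theorem Q7_dl (p : ℕ) [Fact p.Prime] (hp : 3 < p) : Q7_G p 12 (redZ p dl) := by
  have h1 : redZ p dl ∈ MP p 12 := by
    have := MP_mono p 0 0 1
    simpa using this
  refine ⟨h1, ?_⟩
  rw [redZ, th_map, th_dl, map_mul]
  exact MP_cast (by ring) (MP_mul (e2_mem p hp) h1)

theorem Q7_e4' (p : ℕ) : redZ p e4 ∈ MP p 4 := by
  have := MP_mono p 1 0 0
  simpa using this

theorem Q7_e6' (p : ℕ) : redZ p e6 ∈ MP p 6 := by
  have := MP_mono p 0 1 0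
  simpa using this

theorem Q7_e4 (p : ℕ) [Fact p.Prime] (hp : 3 < p) : Q7_G p 4 (redZ p e4) := by
  refine ⟨Q7_e4' p, Q7_unit p hp (k := 3) (Or.inr rfl) ?_⟩
  have h1 : ((3 : ℕ) : PowerSeries (ZMod p)) * th (redZ p e4) =
      redZ p e2 * redZ p e4 - redZ p e6 := by
    rw [redZ, th_map, ← map_mul, ← map_sub, ← th_e4, map_mul]
    congr 1
    rw [Nat.cast_ofNat]
    exact (map_ofNat _ _).symm
  rw [h1]
  refine Submodule.sub_mem _ (MP_cast (by ring) (MP_mul (e2_mem p hp) (Q7_e4' p))) ?_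
  have h2 := MP_shift (one_mem p hp) 1 (Q7_e6' p)
  exact MP_cast (by omega) h2

theorem Q7_e6 (p : ℕ) [Fact p.Prime] (hp : 3 < p) : Q7_G p 6 (redZ p e6) := by
  refine ⟨Q7_e6' p, Q7_unit p hp (k := 2) (Or.inl rfl) ?_⟩
  have h1 : ((2 : ℕ) : PowerSeries (ZMod p)) * th (redZ p e6) =
      redZ p e2 * redZ p e6 - redZ p e4 ^ 2 := by
    rw [redZ, th_map, ← map_mul, ← map_pow, ← map_sub, ← th_e6, map_mul]
    congr 1
    rw [Nat.cast_ofNat]
    exact (map_ofNat _ _).symm
  rw [h1]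
  refine Submodule.sub_mem _ (MP_cast (by ring) (MP_mul (e2_mem p hp) (Q7_e6' p))) ?_
  have h2 := MP_shift (one_mem p hp) 1 (MP_pow (Q7_e4' p) 2)
  exact MP_cast (by omega) h2

theorem th_mem (p : ℕ) [Fact p.Prime] (hp : 3 < p) {w : ℕ} {f : PowerSeries (ZMod p)}
    (hf : f ∈ MP p w) : th f ∈ MP p (w + p + 1) := by
  unfold MP at hf
  induction hf using Submodule.span_induction with
  | mem x hx =>
    obtain ⟨a, b, c, h, rfl⟩ := hx
    rw [map_mul, map_mul, map_pow, map_pow, map_pow]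
    have h1 := Q7_mul (Q7_mul (Q7_pow (Q7_dl p hp) c) (Q7_pow (Q7_e4 p hp) a))
      (Q7_pow (Q7_e6 p hp) b)
    exact MP_cast (by omega) h1.2
  | zero =>
    have : th (0 : PowerSeries (ZMod p)) = 0 := by
      ext n
      simp [th]
    rw [this]
    exact Submodule.zero_mem _
  | add x y _ _ hx hy =>
    rw [th_add]
    exact Submodule.add_mem _ hx hy
  | smul a x _ hx =>
    rw [th_smul]
    exact Submodule.smul_mem _ _ hx

end H53M
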