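import Pool.Agent.Lib.H53M.K0
import Pool.Agent.Lib.H53M.Q7

/-!
# H53M, module K: the interface with module Q (modular forms modulo p)
-/

namespace H53M

open PowerSeries UpperHalfPlane
open scoped MatrixGroups

theorem KQ_mul {p w w' : ℕ} [Fact p.Prime] {f g : PowerSeries (ZMod p)} (hf : f ∈ MP p w)
    (hg : g ∈ MP p w') : f * g ∈ MP p (w + w') :=
  MP_mul hf hg

theorem KQ_one (p : ℕ) [Fact p.Prime] (hp : 5 ≤ p) : (1 : PowerSeries (ZMod p)) ∈ MP p (p - 1) :=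
  one_mem p (by omega)

theorem KQ_e2 (p : ℕ) [Fact p.Prime] (hp : 5 ≤ p) : redZ p e2 ∈ MP p (p + 1) :=
  e2_mem p (by omega)

theorem KQ_th {p w : ℕ} [Fact p.Prime] (hp : 5 ≤ p) {f : PowerSeries (ZMod p)} (hf : f ∈ MP p w) :
    th f ∈ MP p (w + p + 1) :=
  th_mem p (by omega) hf

/-- Reduction of modular forms with rational `p`-integral `q`-expansion. -/
theorem KQ_red (p : ℕ) [Fact p.Prime] (hp : 5 ≤ p) (w : ℕ) (f : PowerSeries ℚ) (hf : PI p f)
    (F : ModularForm 𝒮ℒ (w : ℤ)) (hF : qExpansion 1 F = ktoC f) : redQ p f ∈ MP p w :=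
  red_mem p w F f hF hf

end H53M
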