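import Pool.Agent.Lib.H53M.X14

/-!
# Chunk X15 (M): `g` is not constant for `τ = iy`, `y` large

`fourier_ne`: put `b_n = (c(n,1) + c(n,-1)) v(n,1)^{-K}`, `x_n = u(n,1)`, `S(y) = Σ b_n exp(-2πx_n y)`
(this is the right side of `gg_fourier` at `τ = iy`). `b_0 = 0` (`Sp`: `1 < 0` is false),
`b_1 ≠ 0` (`hne`; `v(1,1) = (1 - 1/√5)/2 > 0`). For `n ≥ 1`, `x_n ≥ x_1`. So
`exp(2πx_1 y) S(y) = Σ b_n exp(-2π(x_n - x_1)y)`, for `y ≥ 1` dominated by `|b_n| exp(-2π(x_n - x_1))`,
which is summable because `|b_n| exp(-2πx_n)` is (the families of `fam`, `fam_swap` restricted along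
the injections `n ↦ (n,1)`, `n ↦ (n,-1)`, with `y = 1`), tends to `b_1` as `y → ∞`
(`tendsto_tsum_of_dominated_convergence`). Hence `S(y) ≠ 0` for large `y`.

`gg_nonconst`: if `g` were constant `= C` then its Fourier coefficient would be
`C ∫₀¹ e(-s) ds = 0`, contradicting `gg_fourier`, `fourier_ne`.
-/

namespace H53M

namespace X

open Filter Topology

/-- `b_n` -/
noncomputable def X15_b (K : ℕ) (c : ℕ → ℤ → ℤ) (n : ℕ) : ℂ :=
  ((c n 1 : ℂ) + (c n (-1) : ℂ)) * ((vv n 1 : ℂ)⁻¹) ^ K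

theorem X15_x (n : ℕ) : uu n 1 - uu 1 1 = ((n : ℝ) - 1) / 2 := by
  unfold uu
  push_cast
  ring

theorem X15_v : 0 < vv 1 1 := by
  unfold vv
  have h5 : (1 : ℝ) < Real.sqrt 5 := by
    rw [show (1 : ℝ) = Real.sqrt 1 by simp]
    exact Real.sqrt_lt_sqrt (by norm_num) (by norm_num)
  have h : (1 : ℝ) / Real.sqrt 5 < 1 := by
    rw [div_lt_one (by linarith)]
    exact h5
  push_cast
  linarith

theorem X15_b0 {K : ℕ} {c : ℕ → ℤ → ℤ} (hs : Sp c) : X15_b K c 0 = 0 := by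
  have h1 : c 0 1 = 0 := by
    by_contra h
    have := (hs 0 1 h).1
    norm_num at this
  have h2 : c 0 (-1) = 0 := by
    by_contra h
    have := (hs 0 (-1) h).1
    norm_num at this
  unfold X15_b
  rw [h1, h2]
  simp

theorem X15_b1 {K : ℕ} {c : ℕ → ℤ → ℤ} (hne : c 1 1 + c 1 (-1) ≠ 0) : X15_b K c 1 ≠ 0 := by
  unfold X15_b
  refine mul_ne_zero ?_ (pow_ne_zero _ (inv_ne_zero ?_))
  · exact_mod_cast hne
  · exact_mod_cast X15_v.ne'

theorem X15_sum {k : ℕ} (hk : 12 ≤ k) (hke : Even k) {c : ℕ → ℤ → ℤ} (hs : Sp c)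
    (hg : Gr k c) {τ : ℂ} (hτ : 0 < τ.im) :
    Summable fun n : ℕ => X15_b (k - 1) c n * ex ((uu n 1 : ℂ) * τ) := by
  have i1 : Function.Injective (fun n : ℕ => ((n, 1) : Idx)) := by
    intro a b h
    simpa using h
  have i2 : Function.Injective (fun n : ℕ => ((n, -1) : Idx)) := by
    intro a b h
    simpa using h
  have h1 := (summable_L (fam hk hke hs hg) hτ).comp_injective i1
  have h2 := (summable_L (fam_swap hk hke hs hg) hτ).comp_injective i2
  refine (h1.add h2).congr fun n => ?_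
  have hV : V ((n, 1) : Idx) = vv n 1 := rfl
  have hU : U ((n, 1) : Idx) = uu n 1 := rfl
  have hV' : V ((n, -1) : Idx) = uu n 1 := by
    have := vv_neg n 1
    exact this
  have hU' : U ((n, -1) : Idx) = vv n 1 := by
    have := uu_neg n 1
    exact this
  simp only [Function.comp_apply, hV, hU, hV', hU', cc, X15_b]
  ring

theorem X15_norm (x y : ℝ) : ‖ex ((x : ℂ) * (Complex.I * (y : ℂ)))‖ =
    Real.exp (-(2 * Real.pi * (x * y))) := by
  rw [norm_ex]
  congr 1
  simp [Complex.mul_im, Complex.mul_re]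

theorem X15_lim {k : ℕ} (hk : 12 ≤ k) (hke : Even k) {c : ℕ → ℤ → ℤ} (hs : Sp c)
    (hg : Gr k c) : Tendsto (fun y : ℝ => ∑' n : ℕ, X15_b (k - 1) c n *
      ex (((uu n 1 - uu 1 1 : ℝ) : ℂ) * (Complex.I * (y : ℂ)))) atTop (𝓝 (X15_b (k - 1) c 1)) := by
  have hI : (0 : ℝ) < (Complex.I).im := by simp
  have hsum := (X15_sum hk hke hs hg hI).norm.mul_right (Real.exp (2 * Real.pi * uu 1 1))
  have e : ∑' n : ℕ, (if n = 1 then X15_b (k - 1) c 1 else 0) = X15_b (k - 1) c 1 :=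
    tsum_ite_eq 1 (fun _ => X15_b (k - 1) c 1)
  have key : Tendsto (fun y : ℝ => ∑' n : ℕ, X15_b (k - 1) c n *
      ex (((uu n 1 - uu 1 1 : ℝ) : ℂ) * (Complex.I * (y : ℂ)))) atTop
      (𝓝 (∑' n : ℕ, (if n = 1 then X15_b (k - 1) c 1 else 0))) := by
    refine tendsto_tsum_of_dominated_convergence hsum ?_ ?_
    · intro n
      by_cases h0 : n = 0
      · subst h0
        rw [X15_b0 hs]
        simp
      by_cases h1 : n = 1
      · subst h1
        simp [ex]
      · rw [if_neg h1, tendsto_zero_iff_norm_tendsto_zero]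
        have hpos : 0 < 2 * Real.pi * (uu n 1 - uu 1 1) := by
          rw [X15_x]
          have : (2 : ℝ) ≤ n := by
            exact_mod_cast (by omega : 2 ≤ n)
          have hp := Real.pi_pos
          have h3 : (0 : ℝ) < ((n : ℝ) - 1) / 2 := by linarith
          positivity
        have h2 : Tendsto (fun y : ℝ => ‖X15_b (k - 1) c n‖ *
            Real.exp (-(2 * Real.pi * (uu n 1 - uu 1 1) * y))) atTop
            (𝓝 (‖X15_b (k - 1) c n‖ * 0)) := by
          refine Tendsto.const_mul _ ?_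
          refine Real.tendsto_exp_neg_atTop_nhds_zero.comp ?_
          exact tendsto_id.const_mul_atTop hpos
        rw [mul_zero] at h2
        refine h2.congr fun y => ?_
        rw [norm_mul, X15_norm]
        congr 2
        ring
    · filter_upwards [eventually_ge_atTop (1 : ℝ)] with y hy n
      by_cases h0 : n = 0
      · subst h0
        rw [X15_b0 hs]
        simp
      · rw [norm_mul, norm_mul, X15_norm]
        have h3 : ‖ex ((uu n 1 : ℂ) * Complex.I)‖ = Real.exp (-(2 * Real.pi * uu n 1)) := by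
          have := X15_norm (uu n 1) 1
          simpa using this
        rw [h3, mul_assoc ‖X15_b (k - 1) c n‖, ← Real.exp_add]
        refine mul_le_mul_of_nonneg_left (Real.exp_le_exp.mpr ?_) (norm_nonneg _)
        have h4 : 0 ≤ uu n 1 - uu 1 1 := by
          rw [X15_x]
          have : (1 : ℝ) ≤ n := by
            exact_mod_cast (by omega : 1 ≤ n)
          linarith
        have hp := Real.pi_pos
        have h5 : 0 ≤ 2 * Real.pi * ((uu n 1 - uu 1 1) * (y - 1)) := by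
          have : 0 ≤ y - 1 := by linarith
          positivity
        nlinarith [h5]
  rw [e] at key
  exact key

theorem fourier_ne {k : ℕ} (hk : 12 ≤ k) (hke : Even k) {c : ℕ → ℤ → ℤ} (hs : Sp c)
    (hg : Gr k c) (hne : c 1 1 + c 1 (-1) ≠ 0) :
    ∀ᶠ y : ℝ in atTop, ∑' n : ℕ, ((c n 1 : ℂ) + (c n (-1) : ℂ)) * ((vv n 1 : ℂ)⁻¹) ^ (k - 1) *
        ex ((uu n 1 : ℂ) * (Complex.I * (y : ℂ))) ≠ 0 := by
  have h := (X15_lim hk hke hs hg).eventually_ne (X15_b1 (K := k - 1) hne)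
  filter_upwards [h] with y hy
  have e : ∑' n : ℕ, ((c n 1 : ℂ) + (c n (-1) : ℂ)) * ((vv n 1 : ℂ)⁻¹) ^ (k - 1) *
        ex ((uu n 1 : ℂ) * (Complex.I * (y : ℂ))) =
      (∑' n : ℕ, X15_b (k - 1) c n *
      ex (((uu n 1 - uu 1 1 : ℝ) : ℂ) * (Complex.I * (y : ℂ)))) *
        ex ((uu 1 1 : ℂ) * (Complex.I * (y : ℂ))) := by
    rw [← tsum_mul_right]
    refine tsum_congr fun n => ?_
    rw [mul_assoc _ _ (ex ((uu 1 1 : ℂ) * (Complex.I * (y : ℂ)))), ← ex_add]
    unfold X15_b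
    congr 2
    push_cast
    ring
  rw [e]
  exact mul_ne_zero hy (ex_ne_zero _)

theorem gg_nonconst {k : ℕ} (hk : 12 ≤ k) (hke : Even k) {c : ℕ → ℤ → ℤ} (hs : Sp c)
    (hg : Gr k c) (hne : c 1 1 + c 1 (-1) ≠ 0) :
    ∀ᶠ y : ℝ in atTop, ∃ s t : ℝ,
      gg (k - 1) c (Complex.I * (y : ℂ)) s ≠ gg (k - 1) c (Complex.I * (y : ℂ)) t := by
  filter_upwards [fourier_ne hk hke hs hg hne, eventually_gt_atTop (0 : ℝ)] with y hy hy0
  by_contra hcon
  push Not at hcon
  apply hy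
  have him : 0 < (Complex.I * (y : ℂ)).im := by simpa using hy0
  rw [← gg_fourier hk hke hs hg him]
  have h1 : ∀ s : ℝ, gg (k - 1) c (Complex.I * (y : ℂ)) s * ex (-(s : ℂ)) =
      gg (k - 1) c (Complex.I * (y : ℂ)) 0 * ex (((-1 : ℤ) : ℂ) * (s : ℂ)) := by
    intro s
    rw [hcon s 0]
    congr 2
    push_cast
    ring
  simp_rw [h1]
  rw [intervalIntegral.integral_const_mul, X14_int0]
  simp

end X

end H53M
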