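import Pool.Agent.Lib.H53M.X16

/-!
# Chunk X17 (S/M): behaviour at `i∞`, periodicity

`ev_tendsto`: for `f` with `Cv f`, `ev f (iy) = Σ a_n exp(-2πny) → a_0` as `y → ∞`: dominated
convergence (`tendsto_tsum_of_dominated_convergence`), for `y ≥ 1` the norms are at most those at
`y = 1`.
`dl_ne`: `dl = X u` with `constantCoeff u = 1` (`dl_factor`). `Cv u` (the coefficients of `u` are the
shifted coefficients of `dl`: divide by `e(z) ≠ 0`), so `ev dl (z) = ex z * ev u z` and `ev u (iy) → 1`.
`ev_period`: `e(n(z + N)) = e(nz)` (compare `KMF_add_one`).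
-/

namespace H53M

namespace X

open Filter Topology

theorem X17_norm (f : PowerSeries ℂ) (n : ℕ) (y : ℝ) :
    ‖PowerSeries.coeff n f * Complex.exp (2 * Real.pi * Complex.I * (n * (Complex.I * (y : ℂ))))‖ =
      ‖PowerSeries.coeff n f‖ * Real.exp (-(2 * Real.pi * (n * y))) := by
  rw [norm_mul, Complex.norm_exp]
  congr 2
  simp [Complex.mul_re, Complex.mul_im]

theorem X17_exp (n : ℕ) (y : ℝ) :
    Complex.exp (2 * Real.pi * Complex.I * (n * (Complex.I * (y : ℂ)))) =
      ((Real.exp (-(2 * Real.pi * (n * y))) : ℝ) : ℂ) := by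
  rw [Complex.ofReal_exp]
  congr 1
  push_cast
  linear_combination (2 * Real.pi * (n : ℂ) * (y : ℂ)) * Complex.I_mul_I

theorem ev_tendsto {f : PowerSeries ℂ} (hf : Cv f) :
    Tendsto (fun y : ℝ => ev f (Complex.I * (y : ℂ))) atTop (𝓝 (PowerSeries.coeff 0 f)) := by
  have hs : (∑' n : ℕ, if n = 0 then PowerSeries.coeff 0 f else 0) = PowerSeries.coeff 0 f := by
    rw [tsum_eq_single 0]
    · simp
    · intro n hn
      simp [hn]
  rw [← hs]
  unfold ev
  refine tendsto_tsum_of_dominated_convergence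
    (bound := fun n => ‖PowerSeries.coeff n f *
      Complex.exp (2 * Real.pi * Complex.I * (n * (Complex.I * ((1 : ℝ) : ℂ))))‖)
    (hf _ (by simp)) ?_ ?_
  · intro n
    by_cases hn : n = 0
    · subst hn
      simp
    · simp only [hn, if_false]
      have h1 : Tendsto (fun y : ℝ => Real.exp (-(2 * Real.pi * (n * y)))) atTop (𝓝 0) := by
        rw [Real.tendsto_exp_comp_nhds_zero]
        refine tendsto_neg_atTop_atBot.comp ?_
        have hp : (0 : ℝ) < 2 * Real.pi * n := by
          have : (0 : ℝ) < n := Nat.cast_pos.2 (Nat.pos_of_ne_zero hn)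
          have := Real.pi_pos
          positivity
        refine (Filter.Tendsto.const_mul_atTop hp tendsto_id).congr fun y => ?_
        simp only [id]
        ring
      have h2 : Tendsto (fun y : ℝ => PowerSeries.coeff n f *
          ((Real.exp (-(2 * Real.pi * (n * y))) : ℝ) : ℂ)) atTop
          (𝓝 (PowerSeries.coeff n f * ((0 : ℝ) : ℂ))) :=
        Tendsto.const_mul _ ((Complex.continuous_ofReal.tendsto _).comp h1)
      rw [Complex.ofReal_zero, mul_zero] at h2
      refine h2.congr fun y => ?_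
      rw [X17_exp]
  · filter_upwards [eventually_ge_atTop (1 : ℝ)] with y hy n
    rw [X17_norm, X17_norm]
    refine mul_le_mul_of_nonneg_left ?_ (norm_nonneg _)
    rw [Real.exp_le_exp]
    have h2 : (n : ℝ) * 1 ≤ n * y := mul_le_mul_of_nonneg_left hy (Nat.cast_nonneg n)
    have h4 : 0 < 2 * Real.pi := by positivity
    nlinarith [mul_le_mul_of_nonneg_left h2 h4.le]

theorem ev_period (f : PowerSeries ℂ) (z : ℂ) (N : ℕ) : ev f (z + 2 * (N : ℂ)) = ev f z := by
  unfold ev
  refine tsum_congr fun n => ?_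
  congr 1
  rw [show (2 : ℂ) * Real.pi * Complex.I * (n * (z + 2 * (N : ℂ))) =
    2 * Real.pi * Complex.I * (n * z) + ((n * (2 * N) : ℕ) : ℂ) * (2 * Real.pi * Complex.I) by
      push_cast
      ring, Complex.exp_add, Complex.exp_nat_mul_two_pi_mul_I, mul_one]

theorem X17_coeff (f : PowerSeries ℤ) (n : ℕ) :
    PowerSeries.coeff n (ktoC (toQ f)) = ((PowerSeries.coeff n f : ℤ) : ℂ) := by
  simp [PowerSeries.coeff_map]

theorem dl_tendsto : Tendsto (fun y : ℝ => ev (ktoC (toQ dl)) (Complex.I * (y : ℂ))) atTop (𝓝 0) := by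
  have h := ev_tendsto Cv_dl
  rw [X17_coeff, coeff_zero_dl, Int.cast_zero] at h
  exact h

/-- `u` converges, `dl = X u`. -/
theorem X17_Cv {u : PowerSeries ℂ} (h : Cv (PowerSeries.X * u)) : Cv u := by
  intro z hz
  have h1 := h z hz
  rw [← summable_nat_add_iff 1] at h1
  have h2 := h1.mul_left ‖(Complex.exp (2 * Real.pi * Complex.I * z))⁻¹‖
  refine h2.congr fun n => ?_
  rw [← norm_mul, PowerSeries.coeff_succ_X_mul]
  congr 1
  have h3 : Complex.exp (2 * Real.pi * Complex.I * (((n + 1 : ℕ) : ℂ) * z)) =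
      Complex.exp (2 * Real.pi * Complex.I * z) *
        Complex.exp (2 * Real.pi * Complex.I * (n * z)) := by
    rw [← Complex.exp_add]
    congr 1
    push_cast
    ring
  rw [h3]
  have h4 := Complex.exp_ne_zero (2 * Real.pi * Complex.I * z)
  field_simp

theorem X17_evX (z : ℂ) : ev PowerSeries.X z = ex z := by
  unfold ev
  rw [tsum_eq_single 1]
  · simp [ex]
  · intro n hn
    rw [PowerSeries.coeff_X, if_neg hn, zero_mul]

theorem X17_CvX : Cv (PowerSeries.X : PowerSeries ℂ) := by
  intro z _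
  refine summable_of_ne_finset_zero (s := {1}) fun n hn => ?_
  rw [PowerSeries.coeff_X, if_neg (by simpa using hn), zero_mul, norm_zero]

theorem dl_ne : ∀ᶠ y : ℝ in atTop, ev (ktoC (toQ dl)) (Complex.I * (y : ℂ)) ≠ 0 := by
  obtain ⟨u, hu, hd⟩ := dl_factor
  have h1 : ktoC (toQ dl) = PowerSeries.X * ktoC (toQ u) := by
    rw [hd, map_mul, map_mul]
    congr 1
    simp
  have hc : Cv (ktoC (toQ u)) := by
    apply X17_Cv
    rw [← h1]
    exact Cv_dl
  have h2 := ev_tendsto hc
  rw [X17_coeff, PowerSeries.coeff_zero_eq_constantCoeff_apply, hu, Int.cast_one] at h2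
  have h3 := h2.eventually_ne one_ne_zero
  filter_upwards [h3, eventually_gt_atTop (0 : ℝ)] with y hy hy0
  have hz : 0 < (Complex.I * (y : ℂ)).im := by simpa using hy0
  rw [h1, ev_mul X17_CvX hc hz, X17_evX]
  exact mul_ne_zero (ex_ne_zero _) hy

theorem e4_tendsto :
    Tendsto (fun y : ℝ => ev (ktoC (toQ e4)) (Complex.I * (y : ℂ))) atTop (𝓝 1) := by
  have h := ev_tendsto Cv_e4
  rw [X17_coeff, coeff_zero_e4, Int.cast_one] at h
  exact h

end X

end H53M
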