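import Pool.Agent.Lib.H53M.X16

/-!
# Chunk X18 (S/M): evaluation of the relation

If `Phi w' W S g h = 0` and `h` converges absolutely in the disc, then for every `z` in the upper half
plane `Σ_t g_t Δ(z)^l E₄(z)^{3(W-i-w'j-l)} E₂(z)^{6i} h(z)^{6j} = 0`: apply the ring homomorphism `ktoC`
to the relation and evaluate (`ev_sum`, `ev_smul`, `ev_mul`, `ev_pow`, `Cv_*`; `ktoC`, `toQ` are ring
homomorphisms; `ktoC (a • f) = (a : ℂ) • ktoC f`).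
-/

namespace H53M

namespace X

theorem X18_smul (a : ℚ) (f : PowerSeries ℚ) : ktoC (a • f) = (a : ℂ) • ktoC f := by
  ext n
  simp [PowerSeries.coeff_map]

theorem rel_eval {w' W : ℕ} {S : Finset (ℕ × ℕ × ℕ)} {g : ℕ × ℕ × ℕ → ℤ} {h : PowerSeries ℚ}
    (hh : Cv (ktoC h)) (h0 : Phi w' W S g h = 0) {z : ℂ} (hz : 0 < z.im) :
    ∑ t ∈ S, (g t : ℂ) * (ev (ktoC (toQ dl)) z ^ t.2.2 *
      ev (ktoC (toQ e4)) z ^ (3 * (W - t.1 - w' * t.2.1 - t.2.2)) *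
      ev (ktoC (toQ e2)) z ^ (6 * t.1) * ev (ktoC h) z ^ (6 * t.2.1)) = 0 := by
  have h1 : ktoC (Phi w' W S g h) = 0 := by rw [h0, map_zero]
  unfold Phi at h1
  rw [map_sum] at h1
  have hc : ∀ t : ℕ × ℕ × ℕ, Cv (ktoC (toQ dl) ^ t.2.2 *
      ktoC (toQ e4) ^ (3 * (W - t.1 - w' * t.2.1 - t.2.2)) * ktoC (toQ e2) ^ (6 * t.1)) := fun t =>
    Cv_mul (Cv_mul (Cv_pow Cv_dl _) (Cv_pow Cv_e4 _)) (Cv_pow Cv_e2 _)
  have hc1 : ∀ t : ℕ × ℕ × ℕ, Cv (ktoC (toQ dl) ^ t.2.2 *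
      ktoC (toQ e4) ^ (3 * (W - t.1 - w' * t.2.1 - t.2.2)) * ktoC (toQ e2) ^ (6 * t.1) *
      ktoC h ^ (6 * t.2.1)) := fun t => Cv_mul (hc t) (Cv_pow hh _)
  have h2 : ∑ t ∈ S, (g t : ℂ) • (ktoC (toQ dl) ^ t.2.2 *
      ktoC (toQ e4) ^ (3 * (W - t.1 - w' * t.2.1 - t.2.2)) * ktoC (toQ e2) ^ (6 * t.1) *
      ktoC h ^ (6 * t.2.1)) = 0 := by
    rw [← h1]
    refine Finset.sum_congr rfl fun t _ => ?_
    rw [X18_smul]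
    simp only [map_mul, map_pow]
    congr 1
  have h3 := congrArg (fun f => ev f z) h2
  rw [ev_zero hz, ev_sum _ _ (fun t _ => Cv_smul _ (hc1 t)) hz] at h3
  rw [← h3]
  refine Finset.sum_congr rfl fun t _ => ?_
  rw [ev_smul _ (hc1 t) hz, ev_mul (hc t) (Cv_pow hh _) hz,
    ev_mul (Cv_mul (Cv_pow Cv_dl _) (Cv_pow Cv_e4 _)) (Cv_pow Cv_e2 _) hz,
    ev_mul (Cv_pow Cv_dl _) (Cv_pow Cv_e4 _) hz, ev_pow Cv_dl _ hz, ev_pow Cv_e4 _ hz,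
    ev_pow Cv_e2 _ hz, ev_pow hh _ hz]

end X

end H53M
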