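import Pool.Agent.Lib.H53M.X0

/-!
# Chunk X6 (M), PURE MATHLIB: limit points of `g(N/√5)`

`g` continuous with period `1`, not constant. Then the set of limit points of `N ↦ g(N/√5)`
is infinite.

(1) Density: for every real `s`, every `N₀` and `ε > 0` there are `N ≥ N₀` and `l : ℤ` with
`|N/√5 - l - s| < ε`. (`1/√5` is irrational: `Nat.Prime.irrational_sqrt`; use a Mathlib density
theorem, for instance `dense_addSubgroupClosure_pair_iff`, or for the additive circle; to get
`N ≥ N₀` from an integer multiple: by density choose an integer `M ≥ 1` with `M/√5` within `ε/2` of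
an integer... or simply use that `{a/√5 + b}` is dense, so that it contains infinitely many
elements close to `0`; or pigeonhole (`Real.exists_int_int_abs_mul_sub_le`, Dirichlet): there is
`q ≥ 1` with `0 < |q/√5 - p| < ε`, and the multiples `k q`, `k ≥ N₀`, step through the circle in
steps `< ε`, in one direction.)
(2) Every value `g s` is a limit point (`MapClusterPt`): by continuity of `g` at `s` and
periodicity (`g (N/√5) = g (N/√5 - l)`).
(3) `Set.range g` is connected (`isPreconnected_range`) and has two different points, so it is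
infinite (`IsPreconnected.infinite_of_nontrivial` or a similar lemma; or compose with
`z ↦ dist z (g s₀)`, intermediate value theorem).
-/

namespace H53M

namespace X

open Filter Topology

theorem clusters (g : ℝ → ℂ) (hg : Continuous g) (hp : ∀ s, g (s + 1) = g s)
    (hne : ∃ s t, g s ≠ g t) :
    {z : ℂ | MapClusterPt z atTop (fun N : ℕ => g ((N : ℝ) / Real.sqrt 5))}.Infinite := by
  have hper : Function.Periodic g 1 := hp
  set G : AddCircle (1 : ℝ) → ℂ := hper.lift with hGdef
  have hGc : ∀ x : ℝ, G (x : AddCircle (1 : ℝ)) = g x := fun x => hper.lift_coe x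
  have hG : Continuous G := by
    refine continuous_coinduced_dom.2 ?_
    exact hg
  set α : AddCircle (1 : ℝ) := ((1 / Real.sqrt 5 : ℝ) : AddCircle (1 : ℝ)) with hα
  have hirr : Irrational (1 / Real.sqrt 5 / 1) := by
    have h5 : Irrational (Real.sqrt ((5 : ℕ) : ℝ)) := Nat.Prime.irrational_sqrt (by norm_num)
    have h5' : Irrational (Real.sqrt 5) := by exact_mod_cast h5
    rw [div_one, one_div]
    exact h5'.inv
  have hd : DenseRange (· • α : ℤ → AddCircle (1 : ℝ)) :=
    AddCircle.denseRange_zsmul_coe_iff.2 hirr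
  have hcl : ∀ x : AddCircle (1 : ℝ), MapClusterPt x atTop (· • α : ℕ → AddCircle (1 : ℝ)) := by
    intro x
    exact ((mapClusterPt_atTop_nsmul_tfae x α).out 0 3).2 (hd x)
  have hseq : (fun N : ℕ => g ((N : ℝ) / Real.sqrt 5)) =
      G ∘ (· • α : ℕ → AddCircle (1 : ℝ)) := by
    funext N
    show g ((N : ℝ) / Real.sqrt 5) = G (N • α)
    rw [hα, ← AddCircle.coe_nsmul, hGc]
    congr 1
    rw [nsmul_eq_mul]
    ring
  have hsub : Set.range G ⊆
      {z : ℂ | MapClusterPt z atTop (fun N : ℕ => g ((N : ℝ) / Real.sqrt 5))} := by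
    rintro _ ⟨x, rfl⟩
    show MapClusterPt (G x) atTop (fun N : ℕ => g ((N : ℝ) / Real.sqrt 5))
    rw [hseq]
    exact (hcl x).continuousAt_comp hG.continuousAt
  have hinf : (Set.range g).Infinite := by
    refine (isPreconnected_range hg).infinite_of_nontrivial ?_
    obtain ⟨s, t, hst⟩ := hne
    exact ⟨g s, ⟨s, rfl⟩, g t, ⟨t, rfl⟩, hst⟩
  refine hinf.mono ?_
  rintro _ ⟨s, rfl⟩
  exact hsub ⟨(s : AddCircle (1 : ℝ)), hGc s⟩

end X

end H53M
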