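import Pool.Agent.Lib.H53M.X7

/-!
# Chunk X8 (M), PURE MATHLIB: elimination

Suppose `Σ_{t ∈ S} b_t (e₀ + c₁ x_N)^{6i} (P(x_N) + κ x_N^r y_N)^{6j} = 0` for all `N`
(`t = (i,j,l)`), with `c₁ ≠ 0`, `κ ≠ 0`, `x_N → 0`, `x_N ≠ 0`, infinitely many limit points of
`y_N`. Then for all `i, j` the sum of the `b_t` over the `t ∈ S` with `t.1 = i`, `t.2.1 = j` is `0`.

Proof. (1) Put `R = Σ b_t (e₀ + c₁ X)^{6i} (P(X) + κ X^r Y)^{6j} ∈ ℂ[Y][X]` (`X = Polynomial.X`,
`Y = Polynomial.C Polynomial.X`, `P(X) = P.map Polynomial.C`); `R = 0` by `poly_zero`.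
(2) So the identity holds for all `x, y ∈ ℂ`. Given `z₁ ≠ e₀` and `z₂`, take `x = (z₁-e₀)/c₁ ≠ 0` and
`y = (z₂ - P(x))/(κ x^r)`: `Σ b_t z₁^{6i} z₂^{6j} = 0`.
(3) For fixed `z₁ ≠ e₀` the polynomial `Σ b_t z₁^{6i} Y^{6j}` vanishes at all `z₂`, so it is `0`,
its coefficient of `Y^{6j}` gives `Σ_{t.2.1 = j} b_t z₁^{6i} = 0` for all `z₁ ≠ e₀` (infinitely many),
so the polynomial `Σ_{t.2.1=j} b_t Z^{6i}` is `0` and its coefficient of `Z^{6i}` is the claim.
-/

namespace H53M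

namespace X

open Filter Topology

theorem elim (S : Finset (ℕ × ℕ × ℕ)) (b : ℕ × ℕ × ℕ → ℂ) (e₀ c₁ κ : ℂ) (hc₁ : c₁ ≠ 0)
    (hκ : κ ≠ 0) (P : Polynomial ℂ) (r : ℕ) (x y : ℕ → ℂ) (hx0 : ∀ N, x N ≠ 0)
    (hx : Tendsto x atTop (𝓝 0)) (hy : {z : ℂ | MapClusterPt z atTop y}.Infinite)
    (h : ∀ N, ∑ t ∈ S, b t * (e₀ + c₁ * x N) ^ (6 * t.1) *
      (P.eval (x N) + κ * x N ^ r * y N) ^ (6 * t.2.1) = 0) (i j : ℕ) :
    ∑ t ∈ S.filter (fun t => t.1 = i ∧ t.2.1 = j), b t = 0 := by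
  set R : Polynomial (Polynomial ℂ) := ∑ t ∈ S, Polynomial.C (Polynomial.C (b t)) *
    (Polynomial.C (Polynomial.C e₀) + Polynomial.C (Polynomial.C c₁) * Polynomial.X) ^ (6 * t.1) *
    (P.map Polynomial.C + Polynomial.C (Polynomial.C κ) * Polynomial.X ^ r *
      Polynomial.C Polynomial.X) ^ (6 * t.2.1) with hR
  have hev : ∀ a c : ℂ, (R.eval (Polynomial.C a)).eval c = ∑ t ∈ S, b t *
      (e₀ + c₁ * a) ^ (6 * t.1) * (P.eval a + κ * a ^ r * c) ^ (6 * t.2.1) := by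
    intro a c
    have hP : (P.map Polynomial.C).eval (Polynomial.C a) = Polynomial.C (P.eval a) := by
      rw [Polynomial.eval_map, Polynomial.eval₂_at_apply]
    rw [hR]
    simp only [Polynomial.eval_finsetSum, Polynomial.eval_mul, Polynomial.eval_pow,
      Polynomial.eval_add, Polynomial.eval_C, Polynomial.eval_X, hP]
  have hR0 : R = 0 := poly_zero R x y hx0 hx hy fun N => by rw [hev]; exact h N
  have h2 : ∀ z₁ z₂ : ℂ, z₁ ≠ e₀ → ∑ t ∈ S, b t * z₁ ^ (6 * t.1) * z₂ ^ (6 * t.2.1) = 0 := by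
    intro z₁ z₂ hz
    have ha : (z₁ - e₀) / c₁ ≠ 0 := div_ne_zero (sub_ne_zero.2 hz) hc₁
    have h3 := hev ((z₁ - e₀) / c₁)
      ((z₂ - P.eval ((z₁ - e₀) / c₁)) / (κ * ((z₁ - e₀) / c₁) ^ r))
    rw [hR0, Polynomial.eval_zero, Polynomial.eval_zero] at h3
    rw [h3]
    refine Finset.sum_congr rfl fun t _ => ?_
    have h4 : e₀ + c₁ * ((z₁ - e₀) / c₁) = z₁ := by
      rw [mul_div_cancel₀ _ hc₁]
      ring
    have h5 : P.eval ((z₁ - e₀) / c₁) + κ * ((z₁ - e₀) / c₁) ^ r *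
        ((z₂ - P.eval ((z₁ - e₀) / c₁)) / (κ * ((z₁ - e₀) / c₁) ^ r)) = z₂ := by
      rw [mul_div_cancel₀ _ (mul_ne_zero hκ (pow_ne_zero r ha))]
      ring
    rw [h4, h5]
  have h6 : ∀ z₁ : ℂ, z₁ ≠ e₀ → ∑ t ∈ S.filter (fun t => t.2.1 = j), b t * z₁ ^ (6 * t.1) = 0 := by
    intro z₁ hz
    have h7 : (∑ t ∈ S, Polynomial.C (b t * z₁ ^ (6 * t.1)) * Polynomial.X ^ (6 * t.2.1) :
        Polynomial ℂ) = 0 := by
      refine Polynomial.funext fun z₂ => ?_
      simp only [Polynomial.eval_finsetSum, Polynomial.eval_mul, Polynomial.eval_pow,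
        Polynomial.eval_C, Polynomial.eval_X, Polynomial.eval_zero]
      exact h2 z₁ z₂ hz
    have h8 := congrArg (fun p : Polynomial ℂ => p.coeff (6 * j)) h7
    simp only [Polynomial.finsetSum_coeff, Polynomial.coeff_C_mul, Polynomial.coeff_X_pow,
      Polynomial.coeff_zero] at h8
    rw [Finset.sum_filter]
    refine Eq.trans (Finset.sum_congr rfl fun t _ => ?_) h8
    by_cases htj : t.2.1 = j
    · rw [if_pos htj, if_pos (by rw [htj]), mul_one]
    · rw [if_neg htj, if_neg (by omega), mul_zero]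
  have h9 : (∑ t ∈ S.filter (fun t => t.2.1 = j), Polynomial.C (b t) *
      Polynomial.X ^ (6 * t.1) : Polynomial ℂ) = 0 := by
    have h10 : ((Polynomial.X - Polynomial.C e₀) * ∑ t ∈ S.filter (fun t => t.2.1 = j),
        Polynomial.C (b t) * Polynomial.X ^ (6 * t.1) : Polynomial ℂ) = 0 := by
      refine Polynomial.funext fun z => ?_
      rw [Polynomial.eval_mul, Polynomial.eval_zero]
      by_cases hz : z = e₀
      · rw [hz, Polynomial.eval_sub, Polynomial.eval_X, Polynomial.eval_C, sub_self, zero_mul]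
      · have h11 := h6 z hz
        simp only [Polynomial.eval_finsetSum, Polynomial.eval_mul, Polynomial.eval_pow,
          Polynomial.eval_C, Polynomial.eval_X]
        rw [h11, mul_zero]
    exact (mul_eq_zero.1 h10).resolve_left (Polynomial.X_sub_C_ne_zero e₀)
  have h12 := congrArg (fun p : Polynomial ℂ => p.coeff (6 * i)) h9
  simp only [Polynomial.finsetSum_coeff, Polynomial.coeff_C_mul, Polynomial.coeff_X_pow,
    Polynomial.coeff_zero] at h12
  rw [Finset.sum_filter] at h12 ⊢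
  refine Eq.trans (Finset.sum_congr rfl fun t _ => ?_) h12
  by_cases htj : t.2.1 = j
  · by_cases hti : t.1 = i
    · rw [if_pos ⟨hti, htj⟩, if_pos htj, if_pos (by rw [hti]), mul_one]
    · rw [if_neg (fun h => hti h.1), if_pos htj, if_neg (by omega), mul_zero]
  · rw [if_neg (fun h => htj h.2), if_neg htj]

end X

end H53M
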