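import Pool.Agent.Lib.H53M.X0

/-!
# Chunk X9 (M), PURE MATHLIB: triangularity

`D(y) → 0`, `D(y) ≠ 0` for large `y`, `E(y) → 1` (`y → ∞`). `S` is a finite set of triples
`t = (i,j,l)` with `i + w' j + l ≤ W`, and for all large `y` and all `i, j`
`Σ_{t ∈ S, t.1 = i, t.2.1 = j} g_t D(y)^l E(y)^{3(W-i-w'j-l)} = 0`. Then all `g_t`, `t ∈ S`, vanish.

Proof. Fix `t₀ = (i,j,l₀) ∈ S`, `M = W-i-w'j`; `l ≤ M` for the `t` in the sum, so for large `y`
(`E(y) ≠ 0`) dividing by `E(y)^{3M}` gives `Σ g_t X(y)^l = 0`, `X = D/E³`, `X(y) → 0`, `X(y) ≠ 0`.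
So the polynomial `p = Σ_t g_t X^{t.2.2} ∈ ℂ[X]` vanishes at the points `X(y)`, `y` large; these are
infinitely many (if `p ≠ 0` its finitely many nonzero roots keep a positive distance from `0`, but
`X(y) → 0`). Hence `p = 0` and its coefficient at `l₀`, which is `g_{t₀}` (only the triple
`(i,j,l₀)` contributes), is `0`.
-/

namespace H53M

namespace X

open Filter Topology

theorem X9_poly (p : Polynomial ℂ) (X : ℝ → ℂ) (hX : Tendsto X atTop (𝓝 0))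
    (hX0 : ∀ᶠ y in atTop, X y ≠ 0) (h : ∀ᶠ y in atTop, p.eval (X y) = 0) : p = 0 := by
  by_contra hp
  have hfin : ({z : ℂ | p.IsRoot z} \ {0}).Finite :=
    (Polynomial.finite_setOfPred_isRoot hp).subset Set.sdiff_subset
  have hnb : ({z : ℂ | p.IsRoot z} \ {0})ᶜ ∈ 𝓝 (0 : ℂ) :=
    hfin.isClosed.isOpen_compl.mem_nhds (by simp)
  have h1 : ∀ᶠ y in atTop, X y ∈ ({z : ℂ | p.IsRoot z} \ {0})ᶜ := hX hnb
  obtain ⟨y, hy1, hy2, hy3⟩ := (h1.and (hX0.and h)).exists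
  exact hy1 ⟨hy3, hy2⟩

theorem triang (W w' : ℕ) (S : Finset (ℕ × ℕ × ℕ)) (g : ℕ × ℕ × ℕ → ℤ)
    (hS : ∀ t ∈ S, t.1 + w' * t.2.1 + t.2.2 ≤ W) (D E : ℝ → ℂ) (hD : Tendsto D atTop (𝓝 0))
    (hD0 : ∀ᶠ y in atTop, D y ≠ 0) (hE : Tendsto E atTop (𝓝 1))
    (h : ∀ᶠ y in atTop, ∀ i j : ℕ, ∑ t ∈ S.filter (fun t => t.1 = i ∧ t.2.1 = j),
      (g t : ℂ) * (D y ^ t.2.2 * E y ^ (3 * (W - t.1 - w' * t.2.1 - t.2.2))) = 0) :
    ∀ t ∈ S, g t = 0 := by
  intro t₀ ht₀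
  set M : ℕ := W - t₀.1 - w' * t₀.2.1 with hM
  set T : Finset (ℕ × ℕ × ℕ) := S.filter (fun t => t.1 = t₀.1 ∧ t.2.1 = t₀.2.1) with hT
  set p : Polynomial ℂ := ∑ t ∈ T, Polynomial.C (g t : ℂ) * Polynomial.X ^ t.2.2 with hp
  have hE0 : ∀ᶠ y in atTop, E y ≠ 0 := hE.eventually_ne one_ne_zero
  have hX : Tendsto (fun y => D y / E y ^ 3) atTop (𝓝 0) := by
    have h1 := hD.div (hE.pow 3) (by simp)
    rw [zero_div] at h1
    exact h1
  have hX0 : ∀ᶠ y in atTop, D y / E y ^ 3 ≠ 0 := by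
    filter_upwards [hD0, hE0] with y h1 h2
    exact div_ne_zero h1 (pow_ne_zero 3 h2)
  have hp0 : p = 0 := by
    refine X9_poly p (fun y => D y / E y ^ 3) hX hX0 ?_
    filter_upwards [h, hE0] with y h1 h2
    have h3 := h1 t₀.1 t₀.2.1
    have h4 : ∑ t ∈ T, (g t : ℂ) * (D y ^ t.2.2 * E y ^ (3 * (W - t.1 - w' * t.2.1 - t.2.2))) =
        E y ^ (3 * M) * p.eval (D y / E y ^ 3) := by
      rw [hp, Polynomial.eval_finsetSum, Finset.mul_sum]
      refine Finset.sum_congr rfl fun t ht => ?_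
      obtain ⟨htS, ht1, ht2⟩ := Finset.mem_filter.1 ht
      have h5 := hS t htS
      have h6 : W - t.1 - w' * t.2.1 - t.2.2 = M - t.2.2 := by rw [hM, ht1, ht2]
      have h7 : t.2.2 ≤ M := by
        rw [hM, ← ht1, ← ht2]
        omega
      rw [h6, Polynomial.eval_mul, Polynomial.eval_pow, Polynomial.eval_X, Polynomial.eval_C,
        div_pow, ← pow_mul]
      have h8 : E y ^ (3 * M) = E y ^ (3 * (M - t.2.2)) * E y ^ (3 * t.2.2) := by
        rw [← pow_add]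
        congr 1
        omega
      rw [h8]
      field_simp
    rw [h4] at h3
    exact (mul_eq_zero.1 h3).resolve_left (pow_ne_zero _ h2)
  have h9 := congrArg (fun q : Polynomial ℂ => q.coeff t₀.2.2) hp0
  simp only [hp, Polynomial.finsetSum_coeff, Polynomial.coeff_C_mul, Polynomial.coeff_X_pow,
    Polynomial.coeff_zero] at h9
  rw [Finset.sum_eq_single t₀] at h9
  · rw [if_pos rfl, mul_one] at h9
    exact_mod_cast h9
  · intro t ht hne
    obtain ⟨htS, ht1, ht2⟩ := Finset.mem_filter.1 ht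
    rw [if_neg, mul_zero]
    intro h10
    exact hne (Prod.ext ht1 (Prod.ext ht2 h10.symm))
  · intro hn
    exact absurd (Finset.mem_filter.2 ⟨ht₀, rfl, rfl⟩) hn

end X

end H53M
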