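import Pool.Agent.Lib.H53M.X13
import Pool.Agent.Lib.H53M.X15
import Pool.Agent.Lib.H53M.X17
import Pool.Agent.Lib.H53M.X18
import Pool.Agent.Lib.H53M.X6
import Pool.Agent.Lib.H53M.X8
import Pool.Agent.Lib.H53M.X9

/-!
# H53M, module X, assembly: `h` satisfies no isobaric relation with `E₂, E₄, Δ`
-/

namespace H53M

namespace X

open Filter Topology

/-- the polynomial `P` of the proof -/
noncomputable def Pp (K : ℕ) (c : ℕ → ℤ → ℤ) (τ : ℂ) : Polynomial ℂ :=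
  ∑ j ∈ Finset.range K,
    Polynomial.C (2 * Real.pi * Complex.I * co K j * Q c (j + 1) τ) * Polynomial.X ^ j

/-- the constant `κ` of the proof -/
noncomputable def kap (K : ℕ) : ℂ := -(2 * Real.pi * Complex.I * co K (K - 1))

theorem two_pi_I_ne : (2 * Real.pi * Complex.I : ℂ) ≠ 0 := by
  simp [Real.pi_ne_zero, Complex.I_ne_zero]

theorem kap_ne (K : ℕ) : kap K ≠ 0 := by
  unfold kap co
  have h1 := two_pi_I_ne
  have h2 : ((K - 1).descFactorial (K - 1) : ℂ) ≠ 0 := by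
    rw [Nat.descFactorial_self]
    exact_mod_cast (K - 1).factorial_ne_zero
  refine neg_ne_zero.mpr (mul_ne_zero h1 (mul_ne_zero (mul_ne_zero ?_ h2) (pow_ne_zero _ ?_)))
  · exact pow_ne_zero _ (by norm_num)
  · exact inv_ne_zero h1

theorem h_shift {k : ℕ} (hk : 12 ≤ k) (hke : Even k) {c : ℕ → ℤ → ℤ} (hA : Arr k c)
    {τ : ℂ} (hτ : 0 < τ.im) (N : ℕ) :
    ev (ktoC (hser c)) (-1 / (τ + 2 * (N : ℂ))) = (τ + 2 * (N : ℂ)) ^ (2 * (k - 1)) *
      ((Pp (k - 1) c τ).eval (τ + 2 * (N : ℂ))⁻¹ +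
        kap (k - 1) * (τ + 2 * (N : ℂ))⁻¹ ^ (k - 2) * gg (k - 1) c τ ((N : ℝ) / Real.sqrt 5)) := by
  have ht : 0 < (τ + 2 * (N : ℂ)).im := by simpa using hτ
  have ht0 : τ + 2 * (N : ℂ) ≠ 0 := by
    intro h
    rw [h] at ht
    simp at ht
  rw [ev_trans hk hke hA ht, ← L_shift hk hke hA.supp hA.bound hτ N]
  simp only [Q_shift (hA.supp) _ τ N]
  generalize τ + 2 * (N : ℂ) = t at *
  have e1 : (Pp (k - 1) c τ).eval t⁻¹ =
      ∑ j ∈ Finset.range (k - 1), 2 * Real.pi * Complex.I * co (k - 1) j * Q c (j + 1) τ *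
        t⁻¹ ^ j := by
    unfold Pp
    rw [Polynomial.eval_finset_sum]
    refine Finset.sum_congr rfl fun j _ => ?_
    simp
  rw [e1, mul_sub, mul_add (t ^ (2 * (k - 1))), Finset.mul_sum, Finset.mul_sum, sub_eq_add_neg]
  congr 1
  · refine Finset.sum_congr rfl fun j hj => ?_
    have hj' : j ≤ k - 2 := by
      have := Finset.mem_range.mp hj
      omega
    have e2 : t ^ (2 * (k - 1)) = t ^ (k - 1 + 1) * t ^ (k - 1 - 1 - j) * t ^ j := by
      rw [← pow_add, ← pow_add]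
      congr 1
      omega
    rw [e2]
    have e3 : t ^ j * t⁻¹ ^ j = 1 := by
      rw [← mul_pow, mul_inv_cancel₀ ht0, one_pow]
    linear_combination (-(t ^ (k - 1 + 1) * t ^ (k - 1 - 1 - j) * (2 * Real.pi * Complex.I *
      co (k - 1) j * Q c (j + 1) τ))) * e3
  · have e2 : t ^ (2 * (k - 1)) = t ^ (k - 1 + 1) * t ^ (k - 2) := by
      rw [← pow_add]
      congr 1
      omega
    rw [e2]
    have e3 : t ^ (k - 2) * t⁻¹ ^ (k - 2) = 1 := by
      rw [← mul_pow, mul_inv_cancel₀ ht0, one_pow]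
    unfold kap
    linear_combination (t ^ (k - 1 + 1) * (2 * Real.pi * Complex.I *
      co (k - 1) (k - 1 - 1)) * (L (cc c) U V (k - 1) t + L (cc c) V U (k - 1) t)) * e3

theorem inv_tendsto (τ : ℂ) :
    Tendsto (fun N : ℕ => (τ + 2 * (N : ℂ))⁻¹) atTop (𝓝 0) := by
  refine tendsto_inv₀_cobounded.comp ?_
  rw [← tendsto_norm_atTop_iff_cobounded]
  refine tendsto_atTop_mono (f := fun N : ℕ => (N : ℝ) - ‖τ‖) ?_ ?_
  · intro N
    have h1 : ‖(2 * (N : ℂ))‖ ≤ ‖τ + 2 * (N : ℂ)‖ + ‖τ‖ := by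
      calc ‖(2 * (N : ℂ))‖ = ‖(τ + 2 * (N : ℂ)) - τ‖ := by ring_nf
        _ ≤ _ := norm_sub_le _ _
    have h2 : ‖(2 * (N : ℂ))‖ = 2 * (N : ℝ) := by simp
    have h3 : (0 : ℝ) ≤ N := Nat.cast_nonneg N
    rw [h2] at h1
    linarith
  · exact tendsto_atTop_add_const_right _ _ tendsto_natCast_atTop_atTop

end X

open X Filter Topology

/-- **Module X.** -/
theorem not_rel {k : ℕ} (hk : 12 ≤ k) (hke : Even k) {c : ℕ → ℤ → ℤ} (hA : Arr k c) :
    ¬ Rel (k - 1) (hser c) := by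
  rintro ⟨W, S, g, hS, ⟨t₀, ht₀, hg₀⟩, h0⟩
  refine hg₀ (triang W (k - 1) S g hS (fun y => ev (ktoC (toQ dl)) (Complex.I * (y : ℂ)))
    (fun y => ev (ktoC (toQ e4)) (Complex.I * (y : ℂ))) dl_tendsto dl_ne e4_tendsto ?_ t₀ ht₀)
  filter_upwards [gg_nonconst hk hke hA.supp hA.bound hA.ne, eventually_gt_atTop (0 : ℝ)]
    with y hy hy0
  intro i j
  set τ : ℂ := Complex.I * (y : ℂ) with hτdef
  have hτ : 0 < τ.im := by
    rw [hτdef]
    simpa using hy0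
  have hne : ∀ N : ℕ, τ + 2 * (N : ℂ) ≠ 0 := by
    intro N h
    have : (τ + 2 * (N : ℂ)).im = 0 := by rw [h]; simp
    have h2 : (τ + 2 * (N : ℂ)).im = τ.im := by simp
    rw [h2] at this
    exact hτ.ne' this
  refine elim S (fun t => (g t : ℂ) * (ev (ktoC (toQ dl)) τ ^ t.2.2 *
      ev (ktoC (toQ e4)) τ ^ (3 * (W - t.1 - (k - 1) * t.2.1 - t.2.2))))
    (ev (ktoC (toQ e2)) τ) (12 / (2 * Real.pi * Complex.I)) (kap (k - 1))
    (div_ne_zero (by norm_num) two_pi_I_ne) (kap_ne _) (Pp (k - 1) c τ) (k - 2)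
    (fun N => (τ + 2 * (N : ℂ))⁻¹) (fun N => gg (k - 1) c τ ((N : ℝ) / Real.sqrt 5))
    (fun N => inv_ne_zero (hne N)) (inv_tendsto τ)
    (clusters (gg (k - 1) c τ) (gg_continuous hk hke hA.supp hA.bound hτ)
      (fun s => gg_periodic (k - 1) c τ s) hy) ?_ i j
  intro N
  have ht : 0 < (τ + 2 * (N : ℂ)).im := by simpa using hτ
  have ht' : 0 < (-1 / (τ + 2 * (N : ℂ))).im := by
    have h := UpperHalfPlane.im_inv_neg_coe_pos ⟨τ + 2 * (N : ℂ), ht⟩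
    have e : (-1 / (τ + 2 * (N : ℂ))) = (-(τ + 2 * (N : ℂ)))⁻¹ := by
      rw [neg_div, one_div, inv_neg]
    rw [e]
    exact h
  have hr := rel_eval (Cv_hser hk hke hA.supp hA.bound) h0 ht'
  simp only [dl_trans ht, e4_trans ht, e2_trans ht, h_shift hk hke hA hτ N, ev_period] at hr
  have hW : (τ + 2 * (N : ℂ)) ^ (12 * W) ≠ 0 := pow_ne_zero _ (hne N)
  apply mul_left_cancel₀ hW
  rw [mul_zero, ← hr, Finset.mul_sum]
  refine Finset.sum_congr rfl fun t htS => ?_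
  have hle := hS t htS
  generalize (Pp (k - 1) c τ).eval (τ + 2 * (N : ℂ))⁻¹ + kap (k - 1) *
    (τ + 2 * (N : ℂ))⁻¹ ^ (k - 2) * gg (k - 1) c τ ((N : ℝ) / Real.sqrt 5) = A1
  generalize (ev (ktoC (toQ e2)) τ + 12 / (2 * Real.pi * Complex.I) * (τ + 2 * (N : ℂ))⁻¹) = A2
  generalize ev (ktoC (toQ dl)) τ = A3
  generalize ev (ktoC (toQ e4)) τ = A4
  generalize τ + 2 * (N : ℂ) = u
  rw [mul_pow, mul_pow, mul_pow, mul_pow, ← pow_mul, ← pow_mul, ← pow_mul, ← pow_mul]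
  have e : 12 * W = 12 * t.2.2 + 4 * (3 * (W - t.1 - (k - 1) * t.2.1 - t.2.2)) + 2 * (6 * t.1) +
      2 * (k - 1) * (6 * t.2.1) := by
    generalize hq : (k - 1) * t.2.1 = q at *
    have : 2 * (k - 1) * (6 * t.2.1) = 12 * q := by rw [← hq]; ring
    rw [this]
    omega
  rw [e, pow_add, pow_add, pow_add]
  ring

end H53M
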