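import Pool.Agent.Lib.H53M.Main

/-!
Helper file for MP_251428_co: the array of coefficients of the Pell chain and its
log-concavity along lines.
-/

namespace Pool.Agent.Lib.H53M

open Finset

/-- inner coefficients of level `s` for the numerator with index `N`. -/
def cc (N : ℕ) : ℕ → ℕ → ℚ
  | 0, p => if p = N then 1 else 0
  | s + 1, p => if p + 1 ≤ N then ((N - 1 - p).choose s : ℚ) * ((s + 1 + p).choose (s + 1) : ℚ)
      else 0

lemma cc_succ (n s : ℕ) : cc (n + 1) (s + 1) = KK (s + 1) s n := by
  funext p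
  simp only [cc, KK]
  by_cases h : p ≤ n
  · rw [if_pos (by omega), if_pos h]
    have : n + 1 - 1 - p = n - p := by omega
    rw [this]
  · rw [if_neg (by omega), if_neg h]

lemma cc_LC (n s : ℕ) : LC (cc (n + 1) s) := by
  rcases s with _ | s
  · refine ⟨fun i => ?_, fun i j hij => ?_⟩
    · simp only [cc]; split_ifs <;> norm_num
    · simp only [cc]
      by_cases h1 : i = n + 1
      · rw [if_neg (by omega : ¬ j + 1 = n + 1), mul_zero]
        split_ifs <;> norm_num
      · rw [if_neg h1, zero_mul]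
        split_ifs <;> norm_num
  · rw [cc_succ]; exact KK_LC _ _ _

/-- the coefficient of `x^(2i) y^(2j) z^(2(2n+2-i-j))`. -/
def AA (n i j : ℕ) : ℚ :=
  if n + 1 ≤ i + j then E (cc (n + 1) (i + j - (n + 1))) (2 * (i + j - (n + 1))) j else 0

lemma AA_eq (n i j s : ℕ) (h : i + j = n + 1 + s) : AA n i j = E (cc (n + 1) s) (2 * s) j := by
  unfold AA
  rw [if_pos (by omega)]
  have : i + j - (n + 1) = s := by omega
  rw [this]

lemma AA_low (n i j : ℕ) (h : i + j < n + 1) : AA n i j = 0 := by
  unfold AA; rw [if_neg (by omega)]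

lemma AA_nonneg (n i j : ℕ) : 0 ≤ AA n i j := by
  unfold AA
  split_ifs
  · exact E_nonneg _ (cc_LC _ _).1 _ _
  · exact le_refl _

theorem AA_diag (n i j : ℕ) : AA n i (j + 2) * AA n (i + 2) j ≤ AA n (i + 1) (j + 1) ^ 2 := by
  rcases Nat.lt_or_ge (i + j + 2) (n + 1) with h | h
  · rw [AA_low n i (j + 2) (by omega), zero_mul]; positivity
  · obtain ⟨s, hs⟩ : ∃ s, i + j + 2 = n + 1 + s := ⟨i + j + 2 - (n + 1), by omega⟩
    rw [AA_eq n i (j + 2) s (by omega), AA_eq n (i + 2) j s (by omega),
      AA_eq n (i + 1) (j + 1) s (by omega)]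
    have := (LC_E _ (cc_LC n s) (2 * s)).2 j (j + 1) (by omega)
    rw [show j + 1 + 1 = j + 2 from rfl] at this
    nlinarith

theorem AA_horiz (n i j : ℕ) (hj : j ≤ n) : AA n i j * AA n (i + 2) j ≤ AA n (i + 1) j ^ 2 := by
  rcases Nat.lt_or_ge (i + j) (n + 1) with h | h
  · rw [AA_low n i j h, zero_mul]; positivity
  · obtain ⟨s, hs⟩ : ∃ s, i + j = n + 1 + s := ⟨i + j - (n + 1), by omega⟩
    rw [AA_eq n i j s hs, AA_eq n (i + 2) j (s + 2) (by omega),
      AA_eq n (i + 1) j (s + 1) (by omega)]
    rcases s with _ | s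
    · rw [show 2 * 0 = 0 from rfl, E_row_zero]
      have : cc (n + 1) 0 j = 0 := by simp only [cc]; rw [if_neg (by omega)]
      rw [this, zero_mul]; positivity
    · rw [cc_succ, cc_succ, cc_succ]
      have := level (s + 1) s n j hj (by omega)
      have e1 : s + 1 + s + 1 = 2 * (s + 1) := by ring
      have e2 : s + 1 + s + 5 = 2 * (s + 1 + 2) := by ring
      have e3 : s + 1 + s + 3 = 2 * (s + 1 + 1) := by ring
      rw [e1, e2, e3] at this
      exact this

/-- binomial coefficient extended by zero. -/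
def mk (m j p : ℕ) : ℚ := if p ≤ j then (m.choose (j - p) : ℚ) else 0

lemma E_eq_mk (K : ℕ → ℚ) (m j t : ℕ) (h : ∀ p, t < p → K p = 0) :
    E K m j = ∑ p ∈ range (t + 1), K p * mk m j p := by
  have e1 : E K m j = ∑ p ∈ range (j + t + 1), K p * mk m j p := by
    unfold E
    have : ∑ p ∈ range (j + 1), K p * (m.choose (j - p) : ℚ) =
        ∑ p ∈ range (j + 1), K p * mk m j p := by
      refine sum_congr rfl fun p hp => ?_
      unfold mk
      rw [if_pos (by have := mem_range.1 hp; omega)]
    rw [this]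
    refine sum_subset (range_subset_range.2 (by omega)) fun p _ hp => ?_
    unfold mk
    rw [if_neg (by intro hcon; apply hp; rw [mem_range]; omega)]
    simp
  rw [e1]
  symm
  refine sum_subset (range_subset_range.2 (by omega)) fun p _ hp => ?_
  rw [h p (by by_contra hcon; apply hp; rw [mem_range]; omega)]
  simp

/-- reflection: exchange of the roles of `x` and `y`. -/
lemma reflect (s n i j : ℕ) (h : i + j = n + 1 + (s + 1)) :
    E (KK (s + 1) s n) (2 * s + 2) j = E (KK s (s + 1) (n + 1)) (2 * s + 2) i := by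
  rcases Nat.lt_or_ge n s with hs | hs
  · have z1 : ∀ p, KK (s + 1) s n p = 0 := by
      intro p; unfold KK; split_ifs
      · rw [Nat.choose_eq_zero_of_lt (by omega : n - p < s)]; simp
      · rfl
    have z2 : ∀ p, KK s (s + 1) (n + 1) p = 0 := by
      intro p; unfold KK; split_ifs
      · rw [Nat.choose_eq_zero_of_lt (by omega : n + 1 - p < s + 1)]; simp
      · rfl
    unfold E
    simp [z1, z2]
  · obtain ⟨t, ht⟩ : ∃ t, n = s + t := ⟨n - s, by omega⟩
    subst ht
    rw [E_eq_mk (KK (s + 1) s (s + t)) _ _ t, E_eq_mk (KK s (s + 1) (s + t + 1)) _ _ t,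
      ← sum_range_reflect]
    · refine sum_congr rfl fun q hq => ?_
      have hq' : q ≤ t := by have := mem_range.1 hq; omega
      have e0 : t + 1 - 1 - q = t - q := by omega
      rw [e0]
      have e1 : KK (s + 1) s (s + t) (t - q) = KK s (s + 1) (s + t + 1) q := by
        unfold KK
        rw [if_pos (by omega), if_pos (by omega)]
        have a1 : s + t - (t - q) = s + q := by omega
        have a2 : s + 1 + (t - q) = s + t + 1 - q := by omega
        rw [a1, a2]; ring
      rw [e1]
      congr 1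
      unfold mk
      rcases Nat.lt_or_ge j (t - q) with h1 | h1
      · rw [if_neg (by omega), if_pos (by omega),
          Nat.choose_eq_zero_of_lt (by omega : 2 * s + 2 < i - q)]
        simp
      · rw [if_pos h1]
        rcases Nat.lt_or_ge (2 * s + 2) (j - (t - q)) with h2 | h2
        · rw [if_neg (by omega), Nat.choose_eq_zero_of_lt h2]; simp
        · rw [if_pos (by omega)]
          have : i - q = 2 * s + 2 - (j - (t - q)) := by omega
          rw [this, Nat.choose_symm h2]
    · intro p hp
      unfold KK; split_ifs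
      · rw [Nat.choose_eq_zero_of_lt (by omega)]; simp
      · rfl
    · intro p hp
      unfold KK; split_ifs
      · rw [Nat.choose_eq_zero_of_lt (by omega)]; simp
      · rfl

theorem AA_vert (n i j : ℕ) (hi : i ≤ n + 1) :
    AA n i j * AA n i (j + 2) ≤ AA n i (j + 1) ^ 2 := by
  rcases Nat.lt_or_ge (i + j) (n + 1) with h | h
  · rw [AA_low n i j h, zero_mul]; positivity
  · obtain ⟨s, hs⟩ : ∃ s, i + j = n + 1 + s := ⟨i + j - (n + 1), by omega⟩
    rw [AA_eq n i j s hs, AA_eq n i (j + 2) (s + 2) (by omega),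
      AA_eq n i (j + 1) (s + 1) (by omega)]
    rw [cc_succ, cc_succ]
    have r1 : E (KK (s + 1) s n) (2 * (s + 1)) (j + 1) =
        E (KK s (s + 1) (n + 1)) (2 * s + 2) i := by
      have := reflect s n i (j + 1) (by omega)
      rw [← this]; rfl
    have r2 : E (KK (s + 1 + 1) (s + 1) n) (2 * (s + 2)) (j + 2) =
        E (KK (s + 1) (s + 2) (n + 1)) (2 * (s + 1) + 2) i := by
      have := reflect (s + 1) n i (j + 2) (by omega)
      rw [← this]; rfl
    rw [r1, r2]
    rcases s with _ | s
    · rw [show 2 * 0 = 0 from rfl, E_row_zero]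
      simp only [cc]
      by_cases hj : j = n + 1
      · have hi0 : i = 0 := by omega
        subst hi0
        rw [if_pos hj, E_idx_zero, E_idx_zero]
        unfold KK
        rw [if_pos (by omega), if_pos (by omega)]
        simp only [zero_add, Nat.sub_zero, Nat.add_zero, Nat.choose_self, Nat.choose_one_right,
          Nat.choose_zero_right]
        have := q3 (n + 1) 1
        push_cast at this ⊢
        rw [Nat.choose_one_right] at this
        push_cast at this
        have hn : (0 : ℚ) ≤ n := by positivity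
        nlinarith
      · rw [if_neg hj, zero_mul]; positivity
    · rw [cc_succ]
      have r0 : E (KK (s + 1) s n) (2 * (s + 1)) j =
          E (KK s (s + 1) (n + 1)) (2 * s + 2) i := by
        have := reflect s n i j (by omega)
        rw [← this]; rfl
      rw [r0]
      have := level s (s + 1) (n + 1) i hi (by omega)
      have e1 : s + (s + 1) + 1 = 2 * s + 2 := by ring
      have e2 : s + (s + 1) + 5 = 2 * (s + 1 + 1) + 2 := by ring
      have e3 : s + (s + 1) + 3 = 2 * (s + 1) + 2 := by ring
      rw [e1, e2, e3] at this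
      exact this

lemma AA_corner_x (n : ℕ) : AA n (2 * n + 2) 0 = 1 := by
  rw [AA_eq n (2 * n + 2) 0 (n + 1) (by omega), E_idx_zero]
  simp [cc]

lemma AA_corner_y (n : ℕ) : AA n 0 (2 * n + 2) ≠ 0 := by
  rw [AA_eq n 0 (2 * n + 2) (n + 1) (by omega)]
  unfold E
  have h1 : cc (n + 1) (n + 1) 0 * ((2 * (n + 1)).choose (2 * n + 2 - 0) : ℚ) ≤
      ∑ p ∈ range (2 * n + 2 + 1), cc (n + 1) (n + 1) p *
        ((2 * (n + 1)).choose (2 * n + 2 - p) : ℚ) := by
    refine single_le_sum (f := fun p => cc (n + 1) (n + 1) p *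
        ((2 * (n + 1)).choose (2 * n + 2 - p) : ℚ)) (fun p _ => ?_) (mem_range.2 (by omega))
    exact mul_nonneg ((cc_LC n (n + 1)).1 p) (by positivity)
  have h2 : cc (n + 1) (n + 1) 0 * ((2 * (n + 1)).choose (2 * n + 2 - 0) : ℚ) = 1 := by
    have : 2 * (n + 1) = 2 * n + 2 := by ring
    rw [this]
    simp [cc]
  rw [h2] at h1
  linarith

lemma AA_high (n i j : ℕ) (h : 2 * n + 2 < i + j) : AA n i j = 0 := by
  obtain ⟨s, hs⟩ : ∃ s, i + j = n + 1 + (s + 1) := ⟨i + j - (n + 1) - 1, by omega⟩
  rw [AA_eq n i j (s + 1) hs, cc_succ]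
  unfold E
  refine sum_eq_zero fun p _ => ?_
  unfold KK
  split_ifs
  · rw [Nat.choose_eq_zero_of_lt (by omega : n - p < s)]; simp
  · simp

end Pool.Agent.Lib.H53M
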