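import Pool.Agent.Lib.H53M.Arr

/-!
Helper file for MP_251428_co: the numerators of the Pell chain.
-/

namespace Pool.Agent.Lib.H53M

open Finset Polynomial

lemma cc_high (N s p : ℕ) (h : N < p + s) : cc N s p = 0 := by
  rcases s with _ | s
  · simp only [cc]; rw [if_neg (by omega)]
  · simp only [cc]
    split_ifs
    · rw [Nat.choose_eq_zero_of_lt (by omega : N - 1 - p < s)]; simp
    · rfl

lemma cc_rec0 (N s : ℕ) : cc (N + 2) (s + 1) 0 = cc (N + 1) (s + 1) 0 + cc (N + 1) s 0 := by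
  rcases s with _ | s
  · simp [cc]
  · simp only [cc]
    rw [if_pos (by omega), if_pos (by omega), if_pos (by omega)]
    have e1 : N + 2 - 1 - 0 = N + 1 := by omega
    have e2 : N + 1 - 1 - 0 = N := by omega
    rw [e1, e2, Nat.choose_succ_succ N s]
    simp only [Nat.add_zero, Nat.choose_self]
    push_cast
    ring

lemma cc_rec (N s p : ℕ) : cc (N + 2) (s + 1) (p + 1) =
    cc (N + 1) (s + 1) (p + 1) + cc (N + 1) (s + 1) p + cc (N + 1) s (p + 1) -
      cc N (s + 1) p := by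
  rcases Nat.lt_trichotomy N p with h | h | h
  · rw [cc_high _ _ _ (by omega), cc_high _ _ _ (by omega), cc_high _ _ _ (by omega),
      cc_high _ _ _ (by omega), cc_high _ _ _ (by omega)]
    ring
  · subst h
    rcases s with _ | s
    · have a1 : cc (N + 2) (0 + 1) (N + 1) = (N + 2 : ℚ) := by
        simp only [cc]
        rw [if_pos (by omega)]
        simp
        ring
      have a2 : cc (N + 1) (0 + 1) N = (N + 1 : ℚ) := by
        simp only [cc]
        rw [if_pos (by omega)]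
        simp
        ring
      have a3 : cc (N + 1) 0 (N + 1) = 1 := by simp [cc]
      rw [cc_high N (0 + 1) N (by omega), cc_high (N + 1) (0 + 1) (N + 1) (by omega), a1, a2, a3]
      ring
    · rw [cc_high N (s + 1 + 1) N (by omega), cc_high (N + 1) (s + 1 + 1) (N + 1) (by omega),
        cc_high (N + 1) (s + 1) (N + 1) (by omega), cc_high (N + 1) (s + 1 + 1) N (by omega),
        cc_high (N + 2) (s + 1 + 1) (N + 1) (by omega)]
      norm_num
  · obtain ⟨b, hb⟩ : ∃ b, N = p + b + 1 := ⟨N - p - 1, by omega⟩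
    subst hb
    rcases s with _ | s
    · simp only [cc]
      rw [if_pos (by omega), if_pos (by omega), if_pos (by omega), if_neg (by omega),
        if_pos (by omega)]
      simp
    · simp only [cc]
      rw [if_pos (by omega), if_pos (by omega), if_pos (by omega), if_pos (by omega),
        if_pos (by omega)]
      have e1 : p + b + 1 + 2 - 1 - (p + 1) = b + 1 := by omega
      have e2 : p + b + 1 + 1 - 1 - (p + 1) = b := by omega
      have e3 : p + b + 1 + 1 - 1 - p = b + 1 := by omega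
      have e4 : p + b + 1 - 1 - p = b := by omega
      have e5 : s + 1 + 1 + (p + 1) = (s + 1 + 1 + p) + 1 := by omega
      have e6 : s + 1 + (p + 1) = s + 1 + 1 + p := by omega
      rw [e1, e2, e3, e4, e5, e6, Nat.choose_succ_succ b s,
        Nat.choose_succ_succ (s + 1 + 1 + p) (s + 1)]
      push_cast
      ring

/-- the inner polynomial of level `s`. -/
noncomputable def cp (N s : ℕ) : ℚ[X] := ∑ p ∈ range (N + 1), monomial p (cc N s p)

lemma coeff_cp (N s p : ℕ) : (cp N s).coeff p = cc N s p := by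
  unfold cp
  rw [finsetSum_coeff]
  simp only [coeff_monomial]
  rw [sum_ite_eq' (range (N + 1)) p]
  split_ifs with h
  · rfl
  · rw [cc_high]
    have : ¬ p < N + 1 := fun hc => h (mem_range.2 hc)
    omega

lemma cp_rec (N s : ℕ) :
    cp (N + 2) (s + 1) = (1 + X) * cp (N + 1) (s + 1) + cp (N + 1) s - X * cp N (s + 1) := by
  ext p
  rcases p with _ | p
  · simp only [coeff_sub, coeff_add, add_mul, one_mul, mul_coeff_zero, coeff_X_zero, zero_mul,
      coeff_cp, add_zero, sub_zero]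
    exact cc_rec0 N s
  · simp only [coeff_sub, coeff_add, add_mul, one_mul, coeff_X_mul, coeff_cp]
    rw [cc_rec]

lemma cp_high (N s : ℕ) (h : N < s) : cp N s = 0 := by
  ext p
  rw [coeff_cp, cc_high N s p (by omega), coeff_zero]

lemma cp_zero (N : ℕ) : cp N 0 = X ^ N := by
  ext p
  rw [coeff_cp, coeff_X_pow]
  simp only [cc]

lemma cp_one_one : cp 1 1 = 1 := by
  ext p
  rw [coeff_cp, coeff_one]
  rcases p with _ | p
  · simp [cc]
  · simp [cc]

lemma coeff_mul_row (P : ℚ[X]) (m i : ℕ) : (P * (1 + X) ^ m).coeff i = E P.coeff m i := by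
  induction m generalizing i with
  | zero => rw [E_row_zero]; simp
  | succ m ih =>
    rw [pow_succ, ← mul_assoc, mul_add, mul_one, coeff_add, ih]
    rcases i with _ | i
    · rw [E_idx_zero, E_idx_zero]; simp
    · rw [coeff_mul_X, ih, E_succ]

section field

variable {K : Type*} [Field K] [Algebra ℚ K]

/-- dehomogenised numerator. -/
noncomputable def Qf (N : ℕ) (u ζ : K) : K :=
  ∑ s ∈ range (N + 1), ζ ^ (N - s) * (1 + u) ^ (2 * s) * aeval u (cp N s)

lemma Qf_zero (u ζ : K) : Qf 0 u ζ = 1 := by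
  unfold Qf
  simp [cp_zero]

lemma Qf_one (u ζ : K) : Qf 1 u ζ = ζ * u + (1 + u) ^ 2 := by
  unfold Qf
  rw [sum_range_succ, sum_range_one, cp_zero, cp_one_one]
  simp

lemma Qf_rec (N : ℕ) (u ζ : K) :
    Qf (N + 2) u ζ = (1 + u) * (1 + u + ζ) * Qf (N + 1) u ζ - u * ζ ^ 2 * Qf N u ζ := by
  have h2 : Qf (N + 2) u ζ = ∑ s ∈ range (N + 2), ζ ^ (N + 1 - s) * (1 + u) ^ (2 * (s + 1)) *
      aeval u (cp (N + 2) (s + 1)) + ζ ^ (N + 2) * u ^ (N + 2) := by
    unfold Qf
    rw [sum_range_succ']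
    congr 1
    · refine sum_congr rfl fun s _ => ?_
      have : N + 2 - (s + 1) = N + 1 - s := by omega
      rw [this]
    · rw [cp_zero]; simp
  have h1 : ζ * Qf (N + 1) u ζ = ∑ s ∈ range (N + 2), ζ ^ (N + 1 - s) *
      (1 + u) ^ (2 * (s + 1)) * aeval u (cp (N + 1) (s + 1)) + ζ ^ (N + 2) * u ^ (N + 1) := by
    unfold Qf
    rw [sum_range_succ', sum_range_succ (fun s => ζ ^ (N + 1 - s) *
      (1 + u) ^ (2 * (s + 1)) * aeval u (cp (N + 1) (s + 1))), cp_high (N + 1) (N + 1 + 1) (by omega),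
      mul_add, mul_sum]
    congr 1
    · rw [map_zero, mul_zero, add_zero]
      refine sum_congr rfl fun s hs => ?_
      have hs' : s < N + 1 := mem_range.1 hs
      have : N + 1 - s = (N + 1 - (s + 1)) + 1 := by omega
      rw [this, pow_succ ζ]
      ring
    · rw [cp_zero]; simp; ring
  have h0 : ζ ^ 2 * Qf N u ζ = ∑ s ∈ range (N + 2), ζ ^ (N + 1 - s) *
      (1 + u) ^ (2 * (s + 1)) * aeval u (cp N (s + 1)) + ζ ^ (N + 2) * u ^ N := by
    unfold Qf
    rw [sum_range_succ', sum_range_succ (fun s => ζ ^ (N + 1 - s) *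
      (1 + u) ^ (2 * (s + 1)) * aeval u (cp N (s + 1))),
      sum_range_succ (fun s => ζ ^ (N + 1 - s) *
      (1 + u) ^ (2 * (s + 1)) * aeval u (cp N (s + 1))),
      cp_high N (N + 1 + 1) (by omega), cp_high N (N + 1) (by omega), mul_add, mul_sum]
    congr 1
    · rw [map_zero, mul_zero, add_zero, mul_zero, add_zero]
      refine sum_congr rfl fun s hs => ?_
      have hs' : s < N := mem_range.1 hs
      have : N + 1 - s = (N - (s + 1)) + 2 := by omega
      rw [this, pow_add ζ]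
      ring
    · rw [cp_zero]; simp; ring
  have hm : (1 + u) ^ 2 * Qf (N + 1) u ζ = ∑ s ∈ range (N + 2), ζ ^ (N + 1 - s) *
      (1 + u) ^ (2 * (s + 1)) * aeval u (cp (N + 1) s) := by
    unfold Qf
    rw [mul_sum]
    refine sum_congr rfl fun s _ => ?_
    ring
  have hrec : ∑ s ∈ range (N + 2), ζ ^ (N + 1 - s) * (1 + u) ^ (2 * (s + 1)) *
      aeval u (cp (N + 2) (s + 1)) =
      (1 + u) * ∑ s ∈ range (N + 2), ζ ^ (N + 1 - s) *
      (1 + u) ^ (2 * (s + 1)) * aeval u (cp (N + 1) (s + 1)) +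
      ∑ s ∈ range (N + 2), ζ ^ (N + 1 - s) *
      (1 + u) ^ (2 * (s + 1)) * aeval u (cp (N + 1) s) -
      u * ∑ s ∈ range (N + 2), ζ ^ (N + 1 - s) *
      (1 + u) ^ (2 * (s + 1)) * aeval u (cp N (s + 1)) := by
    rw [mul_sum, mul_sum, ← sum_add_distrib, ← sum_sub_distrib]
    refine sum_congr rfl fun s _ => ?_
    rw [cp_rec]
    simp only [map_sub, map_add, map_mul, map_one, aeval_X]
    ring
  rw [h2, hrec, ← hm]
  have h1' := h1.symm
  have h0' := h0.symm
  rw [← sub_eq_zero]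
  have e1 : ∑ s ∈ range (N + 2), ζ ^ (N + 1 - s) *
      (1 + u) ^ (2 * (s + 1)) * aeval u (cp (N + 1) (s + 1)) =
      ζ * Qf (N + 1) u ζ - ζ ^ (N + 2) * u ^ (N + 1) := by rw [h1]; ring
  have e0 : ∑ s ∈ range (N + 2), ζ ^ (N + 1 - s) *
      (1 + u) ^ (2 * (s + 1)) * aeval u (cp N (s + 1)) =
      ζ ^ 2 * Qf N u ζ - ζ ^ (N + 2) * u ^ N := by rw [h0]; ring
  rw [e1, e0]
  ring

/-- homogeneous numerator. -/
noncomputable def GG (N : ℕ) (x y z : K) : K := (x ^ 2) ^ (2 * N) * Qf N (y ^ 2 / x ^ 2) (z ^ 2 / x ^ 2)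

lemma GG_rec (N : ℕ) (x y z : K) (hx : x ≠ 0) :
    GG (N + 2) x y z = (x ^ 2 + y ^ 2) * (x ^ 2 + y ^ 2 + z ^ 2) * GG (N + 1) x y z -
      x ^ 2 * y ^ 2 * (z ^ 2) ^ 2 * GG N x y z := by
  unfold GG
  rw [Qf_rec]
  have e : x ^ 2 ≠ 0 := pow_ne_zero _ hx
  generalize Qf (N + 1) (y ^ 2 / x ^ 2) (z ^ 2 / x ^ 2) = a
  generalize Qf N (y ^ 2 / x ^ 2) (z ^ 2 / x ^ 2) = b
  have e1 : (x ^ 2) ^ (2 * (N + 2)) = (x ^ 2) ^ (2 * N) * (x ^ 2) ^ 4 := by
    rw [← pow_add]; congr 1
  have e2 : (x ^ 2) ^ (2 * (N + 1)) = (x ^ 2) ^ (2 * N) * (x ^ 2) ^ 2 := by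
    rw [← pow_add]; congr 1
  rw [e1, e2]
  field_simp

/-- the numerators of a chain. -/
theorem chain_formula (x y z w : K) (v : ℕ → K) (hx : x ≠ 0) (hy : y ≠ 0)
    (hw : w * z = x ^ 2 + y ^ 2) (h0 : v 0 = x) (h1 : v 1 = y) (hne : ∀ m, v m ≠ 0)
    (hv : ∀ m, v (m + 2) * v m = v (m + 1) ^ 2 + w ^ 2) (N : ℕ) :
    v (N + 1) * (x ^ N * y ^ N * z ^ (2 * N)) = y * GG N x y z := by
  -- the linear recurrence
  have hinv : ∀ m, (v m ^ 2 + v (m + 1) ^ 2 + w ^ 2) * (x * y) =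
      (x ^ 2 + y ^ 2 + w ^ 2) * (v m * v (m + 1)) := by
    intro m
    induction m with
    | zero => rw [h0, zero_add, h1]
    | succ m ih =>
      have hm := hne m
      have hm1 := hne (m + 1)
      have hvm := hv m
      refine mul_left_cancel₀ hm (mul_left_cancel₀ hm ?_)
      rw [show m + 1 + 1 = m + 2 from rfl]
      have e1 : v m * (v m * ((v (m + 1) ^ 2 + v (m + 2) ^ 2 + w ^ 2) * (x * y))) =
          (v m ^ 2 * (v (m + 1) ^ 2 + w ^ 2) + (v (m + 2) * v m) ^ 2) * (x * y) := by ring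
      have e2 : v m * (v m * ((x ^ 2 + y ^ 2 + w ^ 2) * (v (m + 1) * v (m + 2)))) =
          ((x ^ 2 + y ^ 2 + w ^ 2) * (v m * v (m + 1))) * (v (m + 2) * v m) := by ring
      rw [e1, e2, ← ih, hvm]
      ring
  have hlin : ∀ m, v (m + 2) * (x * y) = (x ^ 2 + y ^ 2 + w ^ 2) * v (m + 1) - v m * (x * y) := by
    intro m
    have hm := hne m
    refine mul_right_cancel₀ hm ?_
    have e1 : v (m + 2) * (x * y) * v m = (v (m + 2) * v m) * (x * y) := by ring
    rw [e1, hv m]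
    have := hinv m
    linear_combination this
  have key : ∀ N, v (N + 1) * (x ^ N * y ^ N * z ^ (2 * N)) = y * GG N x y z ∧
      v (N + 2) * (x ^ (N + 1) * y ^ (N + 1) * z ^ (2 * (N + 1))) = y * GG (N + 1) x y z := by
    intro N
    induction N with
    | zero =>
      constructor
      · unfold GG; rw [Qf_zero, zero_add, h1]; simp
      · have hv0 := hv 0
        rw [h0, zero_add, h1] at hv0
        unfold GG
        rw [zero_add, Qf_one]
        have e : v 2 * (x ^ 1 * y ^ 1 * z ^ (2 * 1)) = (v 2 * x) * y * z ^ 2 := by ring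
        rw [zero_add, e, hv0]
        have hwz : w ^ 2 * z ^ 2 = (x ^ 2 + y ^ 2) ^ 2 := by rw [← hw]; ring
        have e2 : (y ^ 2 + w ^ 2) * y * z ^ 2 = y * (y ^ 2 * z ^ 2 + w ^ 2 * z ^ 2) := by ring
        rw [e2, hwz]
        field_simp
        ring
    | succ N ih =>
      obtain ⟨ih1, ih2⟩ := ih
      refine ⟨ih2, ?_⟩
      rw [show N + 1 + 1 = N + 2 from rfl, GG_rec N x y z hx]
      have hl := hlin (N + 1)
      rw [show N + 1 + 2 = N + 3 from rfl, show N + 1 + 1 = N + 2 from rfl] at hl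
      have e1 : v (N + 1 + 2) * (x ^ (N + 2) * y ^ (N + 2) * z ^ (2 * (N + 2))) =
          (v (N + 3) * (x * y)) * (x ^ (N + 1) * y ^ (N + 1) * z ^ (2 * (N + 1)) * z ^ 2) := by
        rw [show N + 1 + 2 = N + 3 from rfl]; ring
      rw [e1, hl]
      have hwz : w ^ 2 * z ^ 2 = (x ^ 2 + y ^ 2) ^ 2 := by rw [← hw]; ring
      have e2 : ((x ^ 2 + y ^ 2 + w ^ 2) * v (N + 2) - v (N + 1) * (x * y)) *
          (x ^ (N + 1) * y ^ (N + 1) * z ^ (2 * (N + 1)) * z ^ 2) =
          ((x ^ 2 + y ^ 2) * z ^ 2 + w ^ 2 * z ^ 2) *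
            (v (N + 2) * (x ^ (N + 1) * y ^ (N + 1) * z ^ (2 * (N + 1)))) -
          x ^ 2 * y ^ 2 * (z ^ 2) ^ 2 * (v (N + 1) * (x ^ N * y ^ N * z ^ (2 * N))) := by ring
      rw [e2, ih1, ih2, hwz]
      ring
  exact (key N).1

end field

end Pool.Agent.Lib.H53M
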