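import Mathlib

/-!
Helper file for MP_251428_co (Pell chain of Markov polynomials): the polynomial inequality
behind the pairing of terms, and the pairing lemma itself.
-/

namespace Pool.Agent.Lib.H53M

open Finset

/-- four nonnegative numbers with the same products: the pair with the largest member has the
larger sum. -/
lemma four_numbers (X1 X2 X3 X4 : ℚ) (h1 : 0 ≤ X1) (h2 : 0 ≤ X2) (h3 : 0 ≤ X3) (h4 : 0 ≤ X4)
    (hp : X1 * X2 = X3 * X4) (h13 : X3 ≤ X1) (h14 : X4 ≤ X1) : X3 + X4 ≤ X1 + X2 := by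
  rcases eq_or_lt_of_le h1 with h | h
  · have : X3 = 0 := le_antisymm (h13.trans h.symm.le) h3
    have h4' : X4 = 0 := le_antisymm (h14.trans h.symm.le) h4
    rw [this, h4']; linarith
  · have key : 0 ≤ X1 * (X1 + X2 - (X3 + X4)) := by
      have : X1 * (X1 + X2 - (X3 + X4)) = (X1 - X3) * (X1 - X4) := by
        have : X1 * (X1 + X2 - (X3 + X4)) = X1 * X1 + X1 * X2 - X1 * (X3 + X4) := by ring
        rw [this, hp]; ring
      rw [this]
      exact mul_nonneg (by linarith) (by linarith)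
    have := nonneg_of_mul_nonneg_right key h
    linarith

/-- the cubic `(m + 2 - A) (m + 1 - A) (m - A)`. -/
def HH (m A : ℚ) : ℚ := (m + 2 - A) * (m + 1 - A) * (m - A)

lemma HH_nonneg (m A : ℕ) (h : A ≤ m + 2) : 0 ≤ HH m A := by
  unfold HH
  rcases Nat.lt_or_ge m A with h1 | h1
  · have : A = m + 1 ∨ A = m + 2 := by omega
    rcases this with rfl | rfl
    · push_cast; ring_nf; exact le_refl _
    · push_cast; ring_nf; exact le_refl _
  · have : (A : ℚ) ≤ m := by exact_mod_cast h1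
    exact mul_nonneg (mul_nonneg (by linarith) (by linarith)) (by linarith)

/-- `(k + p + δ) H(B + δ) ≤ (k + p) H(B)`. -/
lemma HH_mono (m B δ κ : ℕ) (h : B + δ ≤ m + 2) (h3 : m ≤ 3 * κ + (B + δ)) :
    ((κ : ℚ) + δ) * HH m ((B : ℚ) + δ) ≤ (κ : ℚ) * HH m B := by
  rcases Nat.eq_zero_or_pos δ with rfl | hδ
  · simp
  -- x = m + 1 - A, an integer at least -1
  obtain ⟨x, hx⟩ : ∃ x : ℤ, x = (m : ℤ) + 1 - (B + δ) := ⟨_, rfl⟩
  have hx1 : -1 ≤ x := by rw [hx]; omega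
  have hx3 : x - 1 ≤ 3 * κ := by rw [hx]; omega
  have hδ1 : (1 : ℤ) ≤ δ := by exact_mod_cast hδ
  have hκ : (0 : ℤ) ≤ κ := by positivity
  have key : ((κ : ℤ) + δ) * ((x + 1) * x * (x - 1)) ≤
      (κ : ℤ) * ((x + δ + 1) * (x + δ) * (x + δ - 1)) := by
    rcases lt_or_ge x 0 with h0 | h0
    · have : x = -1 := by omega
      subst this
      have e1 : 0 ≤ (-1 + (δ : ℤ) + 1) * (-1 + δ) * (-1 + δ - 1) := by
        rcases eq_or_lt_of_le hδ1 with h | h
        · rw [← h]; norm_num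
        · have : (2 : ℤ) ≤ δ := h
          exact mul_nonneg (mul_nonneg (by linarith) (by linarith)) (by linarith)
      have e2 := mul_nonneg hκ e1
      norm_num at e2 ⊢
      linarith
    · have e1 : (κ : ℤ) * ((x + δ + 1) * (x + δ) * (x + δ - 1)) -
          ((κ : ℤ) + δ) * ((x + 1) * x * (x - 1)) =
          δ * (κ * (3 * x ^ 2 + 3 * x * δ + δ ^ 2 - 1) - x * (x + 1) * (x - 1)) := by ring
      have e2 : 0 ≤ κ * (3 * x ^ 2 + 3 * x * δ + δ ^ 2 - 1) - x * (x + 1) * (x - 1) := by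
        have a1 : 3 * (x * (x + 1)) ≤ 3 * x ^ 2 + 3 * x * δ + δ ^ 2 - 1 := by nlinarith
        have a2 : (κ : ℤ) * (3 * (x * (x + 1))) ≤
            κ * (3 * x ^ 2 + 3 * x * δ + δ ^ 2 - 1) := mul_le_mul_of_nonneg_left a1 hκ
        have a3 : 0 ≤ x * (x + 1) := mul_nonneg h0 (by linarith)
        have a4 : x * (x + 1) * (x - 1) ≤ x * (x + 1) * (3 * κ) :=
          mul_le_mul_of_nonneg_left hx3 a3
        nlinarith
      have e3 : 0 ≤ (δ : ℤ) * (κ * (3 * x ^ 2 + 3 * x * δ + δ ^ 2 - 1) -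
          x * (x + 1) * (x - 1)) := mul_nonneg (by linarith) e2
      linarith
  have keyq : ((κ : ℚ) + δ) * (((x : ℚ) + 1) * x * (x - 1)) ≤
      (κ : ℚ) * (((x : ℚ) + δ + 1) * (x + δ) * (x + δ - 1)) := by exact_mod_cast key
  have hxq : (x : ℚ) = (m : ℚ) + 1 - (B + δ) := by rw [hx]; push_cast; ring
  unfold HH
  have e1 : ((m : ℚ) + 2 - (B + δ)) * (m + 1 - (B + δ)) * (m - (B + δ)) =
      ((x : ℚ) + 1) * x * (x - 1) := by rw [hxq]; ring
  have e2 : ((m : ℚ) + 2 - B) * (m + 1 - B) * (m - B) =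
      ((x : ℚ) + δ + 1) * (x + δ) * (x + δ - 1) := by rw [hxq]; ring
  rw [e1, e2]
  exact keyq

/-- The core inequality for a pair of indices. -/
lemma core (k l m Q p B δ : ℕ) (hk : 1 ≤ k) (hl : 1 ≤ l) (hkl : k + l + 1 = m)
    (hlQ : l ≤ Q) (hBQ : B ≤ Q) (hA : B + δ ≤ m + 2) (h3 : m ≤ 3 * (k + p) + (B + δ)) :
    ((m : ℚ) + 2) * l * k *
      (Q * (Q - l) * (k + (p + δ)) * (p + δ) * (B + δ) * HH m (B + δ) +
        (Q + δ) * (Q + δ - l) * (k + p) * p * B * HH m B) ≤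
    ((m : ℚ) - 1) * (l + 1) * (k + 1) *
      ((Q + δ - l) * Q * (k + p) * (p + δ) * (B + δ) * HH m B +
        (Q - l) * (Q + δ) * (k + (p + δ)) * p * B * HH m (B + δ)) := by
  have hHA : 0 ≤ HH m ((B : ℚ) + δ) := by
    have := HH_nonneg m (B + δ) hA
    push_cast at this
    exact this
  have hHB : 0 ≤ HH m (B : ℚ) := HH_nonneg m B (by omega)
  have hmono : ((k : ℚ) + (p + δ)) * HH m ((B : ℚ) + δ) ≤ ((k : ℚ) + p) * HH m B := by
    have := HH_mono m B δ (k + p) hA h3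
    push_cast at this
    have e : (k : ℚ) + (p + δ) = k + p + δ := by ring
    rw [e]
    exact this
  have hQl : (0 : ℚ) ≤ (Q : ℚ) - l := by
    have : (l : ℚ) ≤ Q := by exact_mod_cast hlQ
    linarith
  have hBQ' : (B : ℚ) ≤ Q := by exact_mod_cast hBQ
  have hδ : (0 : ℚ) ≤ δ := by positivity
  have hp : (0 : ℚ) ≤ p := by positivity
  have hB : (0 : ℚ) ≤ B := by positivity
  have hQ : (0 : ℚ) ≤ Q := by positivity
  have hk0 : (0 : ℚ) ≤ k := by positivity
  have hQδl : (0 : ℚ) ≤ (Q : ℚ) + δ - l := by linarith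
  set HA := HH m ((B : ℚ) + δ) with hHAdef
  set HB := HH m (B : ℚ) with hHBdef
  have hX1 : 0 ≤ ((Q : ℚ) + δ - l) * Q * (k + p) * (p + δ) * (B + δ) * HB := by positivity
  have hX2 : 0 ≤ ((Q : ℚ) - l) * (Q + δ) * (k + (p + δ)) * p * B * HA := by positivity
  have hX3 : 0 ≤ (Q : ℚ) * (Q - l) * (k + (p + δ)) * (p + δ) * (B + δ) * HA := by positivity
  have hX4 : 0 ≤ ((Q : ℚ) + δ) * (Q + δ - l) * (k + p) * p * B * HB := by positivity
  have h13 : (Q : ℚ) * (Q - l) * (k + (p + δ)) * (p + δ) * (B + δ) * HA ≤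
      ((Q : ℚ) + δ - l) * Q * (k + p) * (p + δ) * (B + δ) * HB := by
    have e1 : ((Q : ℚ) - l) * ((k + (p + δ)) * HA) ≤ ((Q : ℚ) + δ - l) * ((k + p) * HB) := by
      have a : ((Q : ℚ) - l) * ((k + (p + δ)) * HA) ≤ ((Q : ℚ) - l) * ((k + p) * HB) :=
        mul_le_mul_of_nonneg_left hmono hQl
      have b : ((Q : ℚ) - l) * ((k + p) * HB) ≤ ((Q : ℚ) + δ - l) * ((k + p) * HB) :=
        mul_le_mul_of_nonneg_right (by linarith) (by positivity)
      exact a.trans b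
    have e2 : 0 ≤ (Q : ℚ) * (p + δ) * (B + δ) := by positivity
    have e3 := mul_le_mul_of_nonneg_left e1 e2
    calc (Q : ℚ) * (Q - l) * (k + (p + δ)) * (p + δ) * (B + δ) * HA
        = (Q : ℚ) * (p + δ) * (B + δ) * (((Q : ℚ) - l) * ((k + (p + δ)) * HA)) := by ring
      _ ≤ _ := e3
      _ = _ := by ring
  have h14 : ((Q : ℚ) + δ) * (Q + δ - l) * (k + p) * p * B * HB ≤
      ((Q : ℚ) + δ - l) * Q * (k + p) * (p + δ) * (B + δ) * HB := by
    have e1 : ((Q : ℚ) + δ) * p * B ≤ Q * (p + δ) * (B + δ) := by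
      have : Q * ((p : ℚ) + δ) * (B + δ) - (Q + δ) * p * B =
          δ * ((Q - B) * p + Q * B + Q * δ) := by ring
      have h0 : 0 ≤ (δ : ℚ) * ((Q - B) * p + Q * B + Q * δ) := by
        have : (0 : ℚ) ≤ (Q : ℚ) - B := by linarith
        positivity
      linarith
    have e2 : 0 ≤ ((Q : ℚ) + δ - l) * (k + p) * HB := by positivity
    have e3 := mul_le_mul_of_nonneg_left e1 e2
    calc ((Q : ℚ) + δ) * (Q + δ - l) * (k + p) * p * B * HB
        = ((Q : ℚ) + δ - l) * (k + p) * HB * (((Q : ℚ) + δ) * p * B) := by ring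
      _ ≤ _ := e3
      _ = _ := by ring
  have hsum := four_numbers _ _ _ _ hX1 hX2 hX3 hX4 (by ring) h13 h14
  have hc : ((m : ℚ) + 2) * l * k ≤ ((m : ℚ) - 1) * (l + 1) * (k + 1) := by
    have hm : (m : ℚ) = k + l + 1 := by exact_mod_cast hkl.symm
    have hk1 : (1 : ℚ) ≤ k := by exact_mod_cast hk
    have hl1 : (1 : ℚ) ≤ l := by exact_mod_cast hl
    rw [hm]
    nlinarith [sq_nonneg ((k : ℚ) - l), mul_nonneg (sub_nonneg.2 hk1) (sub_nonneg.2 hl1)]
  have hc0 : 0 ≤ ((m : ℚ) + 2) * l * k := by positivity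
  calc ((m : ℚ) + 2) * l * k * _ ≤ ((m : ℚ) + 2) * l * k * _ :=
        mul_le_mul_of_nonneg_left hsum hc0
    _ ≤ _ := mul_le_mul_of_nonneg_right hc (add_nonneg hX1 hX2)

end Pool.Agent.Lib.H53M
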