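import Pool.Agent.Lib.H53M.DI2

/-!
# H53M, module D, part DI3: totally positive units are squares
-/

namespace H53M

open QuadraticAlgebra

theorem Pos_trace {a : O5} (h : Pos a) : 0 < 2 * a.re + a.im := by
  have h1 := add_pos h.1 h.2
  rw [f1_apply, f2_apply] at h1
  have h2 : (0 : ℝ) < ((2 * a.re + a.im : ℤ) : ℝ) := by
    push_cast
    linarith
  exact_mod_cast h2

theorem Pos_of {a : O5} (h1 : 0 < norm a) (h2 : 0 < 2 * a.re + a.im) : Pos a := by
  have h3 : (0 : ℝ) < f1 a * f2 a := by
    rw [f1_mul_f2]
    exact_mod_cast h1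
  have h4 : (0 : ℝ) < f1 a + f2 a := by
    have : f1 a + f2 a = ((2 * a.re + a.im : ℤ) : ℝ) := by
      rw [f1_apply, f2_apply]
      push_cast
      ring
    rw [this]
    exact_mod_cast h2
  rcases mul_pos_iff.1 h3 with h | h
  · exact h
  · linarith [h.1, h.2]

theorem isUnit_om : IsUnit om := by
  refine IsUnit.of_mul_eq_one (om - 1) ?_
  decide

theorem isUnit_om1 : IsUnit (om - 1) := by
  refine IsUnit.of_mul_eq_one om ?_
  decide

theorem pos_unit_aux (n : ℕ) : ∀ a b : ℤ, b.natAbs < n → a ^ 2 + a * b - b ^ 2 = 1 →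
    0 < 2 * a + b → ∃ f : O5, IsUnit f ∧ (⟨a, b⟩ : O5) = f ^ 2 := by
  induction n with
  | zero => intro a b h; exact absurd h (Nat.not_lt_zero _)
  | succ n ih =>
    intro a b hb hn ht
    rcases lt_trichotomy b 0 with h | h | h
    · have h1 : 0 < a + b := by
        by_contra hc
        nlinarith
      have h2 : a + 3 * b < 0 := by
        by_contra hc
        nlinarith
      have h3 : 0 < 3 * a + 4 * b := by
        by_contra hc
        nlinarith
      obtain ⟨f, hf, he⟩ := ih (a + b) (a + 2 * b) (by omega) (by linear_combination hn)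
        (by linarith)
      refine ⟨f * (om - 1), hf.mul isUnit_om1, ?_⟩
      rw [mul_pow, ← he]
      ext <;> simp [om, pow_two] <;> ring
    · subst h
      have h1 : a = 1 := by nlinarith
      subst h1
      exact ⟨1, isUnit_one, by decide⟩
    · have h1 : 0 < a := by
        by_contra hc
        nlinarith
      have h2 : a ≤ b := by
        by_contra hc
        nlinarith
      have h3 : 0 < 3 * a - b := by
        by_contra hc
        nlinarith
      obtain ⟨f, hf, he⟩ := ih (2 * a - b) (b - a) (by omega) (by linear_combination hn)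
        (by linarith)
      refine ⟨f * om, hf.mul isUnit_om, ?_⟩
      rw [mul_pow, ← he]
      ext <;> simp [om, pow_two] <;> ring

/-- totally positive units are squares of units -/
theorem pos_unit (e : O5) (h : IsUnit e) (hp : Pos e) : ∃ f : O5, IsUnit f ∧ e = f ^ 2 := by
  have h1 : norm e = 1 := by
    rcases Int.isUnit_iff.1 (isUnit_iff_norm_isUnit.1 h) with h2 | h2
    · exact h2
    · have := norm_pos_of_Pos hp
      omega
  rw [norm_O5] at h1
  exact pos_unit_aux (e.im.natAbs + 1) e.re e.im (Nat.lt_succ_self _) h1 (Pos_trace hp)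

end H53M
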