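import Pool.Agent.Lib.H53M.DL

/-!
# H53M, module D, DO: the vectors of norm 5 of `L` form one orbit under units and conjugation
-/

namespace H53M

open QuadraticAlgebra Ico

/-- For each vector `u` of norm 5 of `L` a unit `e` (and a flag) with `u = e z₀ e*` or
`u = e z̄₀ e*`. -/
def tabO : List ((ℤ × ℤ × ℤ × ℤ) × (ℤ × ℤ × ℤ × ℤ × ℤ × ℤ × ℤ × ℤ × Bool)) := [
  ((-4, -2, 1, 3), (-1, -1, 0, -1, 0, 0, 2, 0, false)),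
  ((-4, -1, 0, 3), (-1, -1, -1, -1, 0, 1, 1, 0, true)),
  ((-4, -1, 1, 2), (0, 0, -1, 0, 0, 1, -1, 0, true)),
  ((-4, 1, -1, 2), (0, 0, -1, 0, 0, 1, -1, 0, false)),
  ((-4, 1, 0, 1), (-1, -1, -1, -1, 0, 1, 1, 0, false)),
  ((-4, 2, -1, 1), (-1, -1, 0, -1, 0, 0, 2, 0, true)),
  ((-3, -3, 1, 3), (-1, 0, 1, 0, -1, 0, 1, 0, true)),
  ((-3, -3, 2, 3), (-1, -1, -1, -1, 1, 0, 1, 0, true)),
  ((-3, -2, 0, 3), (0, -1, -1, -1, 0, 1, 0, 0, false)),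
  ((-3, -2, 2, 2), (-1, 0, -1, -1, 0, 1, 0, 0, false)),
  ((-3, -1, 0, 3), (-1, 0, 0, -1, -1, 1, 1, 0, false)),
  ((-3, -1, 1, 1), (0, 0, 0, 0, -1, 1, -1, 0, false)),
  ((-3, 1, -1, 2), (-1, 0, 0, -1, 0, 0, 1, 0, true)),
  ((-3, 1, 0, 0), (-1, 0, 0, 0, 0, 0, 1, 0, true)),
  ((-3, 2, -2, 1), (0, 0, -1, 0, 1, 0, 0, 0, true)),
  ((-3, 2, 0, 0), (0, -1, -1, 0, 1, 0, 0, 0, true)),
  ((-3, 3, -2, 0), (0, -1, -1, -1, 1, 0, 1, 0, false)),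
  ((-3, 3, -1, 0), (0, 0, -1, 0, 1, 0, -1, 0, false)),
  ((-2, -4, 2, 3), (0, 0, -1, 0, 0, 0, 0, 0, false)),
  ((-2, -3, 1, 2), (-1, -1, 0, -1, -1, 1, 1, 0, false)),
  ((-2, -3, 2, 3), (0, -1, 0, 0, 1, -1, 1, 0, false)),
  ((-2, -2, 0, 3), (-1, 0, 0, 0, -1, 0, 0, 1, true)),
  ((-2, -2, 1, 1), (-1, 0, 0, 0, -1, 1, 0, 0, true)),
  ((-2, -2, 1, 3), (0, 0, 0, 0, -1, 1, 0, 0, true)),
  ((-2, -2, 2, 1), (-1, -1, -1, -1, 1, 0, 0, 1, true)),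
  ((-2, -1, -1, 2), (-1, -1, 0, -1, -1, 1, 1, 0, true)),
  ((-2, -1, 2, 1), (0, -1, 0, 0, 1, -1, 1, 0, true)),
  ((-2, 1, -2, 1), (0, -1, 0, -1, 0, 0, 1, 0, false)),
  ((-2, 1, 1, 0), (0, -1, 0, 0, 0, 0, 1, 0, false)),
  ((-2, 2, -2, 1), (0, -1, 0, 0, 0, 0, -1, 1, false)),
  ((-2, 2, -1, -1), (-1, 0, 0, 0, -1, 1, 0, 0, false)),
  ((-2, 2, -1, 1), (0, 0, 0, 0, -1, 1, 0, 0, false)),
  ((-2, 2, 0, -1), (0, -1, -1, 0, 0, 0, -1, 1, false)),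
  ((-2, 3, -2, -1), (0, -1, 0, -1, 0, 0, 1, 0, true)),
  ((-2, 3, -1, 0), (0, -1, 0, 0, 0, 0, 1, 0, true)),
  ((-2, 4, -2, -1), (0, -1, -1, -1, 2, 0, 0, 0, true)),
  ((-1, -4, 2, 2), (0, 0, 0, 0, 0, 0, -1, 1, true)),
  ((-1, -4, 2, 3), (0, 0, -1, 0, 0, 0, -1, 1, true)),
  ((-1, -3, 1, 3), (0, -1, 0, -1, 0, 1, 0, 0, false)),
  ((-1, -3, 2, 1), (-1, 0, 0, -1, 0, 1, 0, 0, false)),
  ((-1, -2, 0, 1), (0, -1, -1, -1, 0, 1, 0, 0, true)),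
  ((-1, -2, 2, 2), (-1, 0, -1, -1, 0, 1, 0, 0, true)),
  ((-1, -1, -1, 1), (-1, 0, 1, 0, -1, 0, 1, 0, false)),
  ((-1, -1, -1, 2), (-1, -1, 0, -1, -1, 1, 0, 1, false)),
  ((-1, -1, 0, 0), (-1, 0, 0, 0, 0, 0, 1, 0, false)),
  ((-1, -1, 1, 2), (-1, 0, 0, -1, 0, 0, 1, 0, false)),
  ((-1, -1, 2, 0), (0, -1, -1, 0, 1, -1, 0, 1, false)),
  ((-1, -1, 2, 1), (-1, -1, -1, -1, 1, 0, 1, 0, false)),
  ((-1, 1, -2, 0), (0, -1, -1, -1, 1, 0, 1, 0, true)),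
  ((-1, 1, -2, 1), (0, 0, 0, -1, 1, 0, 1, -1, true)),
  ((-1, 1, -1, -1), (0, 0, 0, 0, -1, 1, -1, 0, true)),
  ((-1, 1, 0, 1), (-1, 0, 0, -1, -1, 1, 1, 0, true)),
  ((-1, 1, 1, -1), (0, -1, -1, -1, 1, 0, -1, 1, true)),
  ((-1, 1, 1, 0), (0, 0, -1, 0, 1, 0, -1, 0, true)),
  ((-1, 2, -2, -1), (0, 0, -1, 0, 1, 0, 0, 0, false)),
  ((-1, 2, 0, 0), (0, -1, -1, 0, 1, 0, 0, 0, false)),
  ((-1, 3, -2, 0), (0, -1, 0, -1, 1, 0, 0, 0, true)),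
  ((-1, 3, -1, -2), (0, 0, 0, -1, 1, 0, 0, 0, true)),
  ((-1, 4, -2, -2), (0, -1, 0, 0, -1, 0, 0, 1, false)),
  ((-1, 4, -2, -1), (0, -2, -1, -1, 1, 0, 0, 1, false)),
  ((1, -4, 2, 1), (0, 0, -1, 0, 0, 0, -1, 1, false)),
  ((1, -4, 2, 2), (0, 0, 0, 0, 0, 0, -1, 1, false)),
  ((1, -3, 1, 2), (-1, -1, 0, -1, -1, 1, 0, 1, true)),
  ((1, -3, 2, 0), (0, -1, -1, 0, 1, -1, 0, 1, true)),
  ((1, -2, 0, 0), (-1, -1, -1, -1, -1, 1, 0, 1, false)),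
  ((1, -2, 2, 1), (0, -1, 0, 0, 1, -1, 0, 1, false)),
  ((1, -1, -1, 0), (-1, 0, 0, 0, -1, 0, 1, 0, true)),
  ((1, -1, -1, 1), (0, -1, 0, -1, 0, 1, 0, 0, true)),
  ((1, -1, 0, -1), (-1, -1, -1, 0, 0, 0, 0, 1, true)),
  ((1, -1, 1, 1), (-1, -1, 0, -1, 0, 0, 0, 1, true)),
  ((1, -1, 2, -1), (-1, 0, 0, -1, 0, 1, 0, 0, true)),
  ((1, -1, 2, 0), (-1, -1, 0, -1, 1, 0, 1, 0, true)),
  ((1, 1, -2, -1), (0, 0, 0, 0, -1, 0, 1, 0, false)),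
  ((1, 1, -2, 0), (0, -1, 0, -1, 1, 0, 0, 0, false)),
  ((1, 1, -1, -2), (-1, -1, -1, -1, 0, 1, -1, 1, false)),
  ((1, 1, 0, 0), (0, 0, 0, -1, 0, 1, 1, -1, false)),
  ((1, 1, 1, -2), (0, 0, 0, -1, 1, 0, 0, 0, false)),
  ((1, 1, 1, -1), (0, -1, 0, -1, 1, 0, 1, 0, false)),
  ((1, 2, -2, -2), (0, -1, -1, 0, 1, 0, -1, 1, true)),
  ((1, 2, 0, -1), (0, 0, 0, 0, -1, 0, -1, 1, true)),
  ((1, 3, -2, -1), (0, 0, 0, -1, 1, 0, 1, -1, false)),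
  ((1, 3, -1, -3), (0, -1, -1, -1, 1, 0, -1, 1, false)),
  ((1, 4, -2, -3), (0, -2, -1, -1, 1, 0, 0, 1, true)),
  ((1, 4, -2, -2), (0, -1, 0, 0, -1, 0, 0, 1, true)),
  ((2, -4, 2, 1), (0, 0, -1, 0, 0, 0, 0, 0, true)),
  ((2, -3, 1, 0), (0, -1, -1, -1, 0, 1, -1, 1, true)),
  ((2, -3, 2, 1), (-1, 0, 0, -1, 0, 1, 1, -1, true)),
  ((2, -2, 0, 1), (-1, 0, 0, 0, -1, 0, 0, 1, false)),
  ((2, -2, 1, -1), (0, 0, 0, -1, 0, 1, -1, 0, false)),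
  ((2, -2, 1, 1), (-1, -1, 0, -2, 0, 1, 1, 0, false)),
  ((2, -2, 2, -1), (-1, -1, -1, -1, 1, 0, 0, 1, false)),
  ((2, -1, -1, 0), (0, -1, -1, -1, 0, 1, -1, 1, false)),
  ((2, -1, 2, -1), (-1, 0, 0, -1, 0, 1, 1, -1, false)),
  ((2, 1, -2, -1), (0, -1, -1, 0, 0, 0, 0, 1, true)),
  ((2, 1, 1, -2), (0, -1, 0, -1, 0, 0, 0, 1, true)),
  ((2, 2, -2, -1), (0, -1, 0, 0, 0, 0, -1, 1, true)),
  ((2, 2, -1, -3), (0, 0, 0, -1, 0, 1, -1, 0, true)),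
  ((2, 2, -1, -1), (-1, -1, 0, -2, 0, 1, 1, 0, true)),
  ((2, 2, 0, -3), (0, -1, -1, 0, 0, 0, -1, 1, true)),
  ((2, 3, -2, -3), (0, -1, -1, 0, 0, 0, 0, 1, false)),
  ((2, 3, -1, -2), (0, -1, 0, -1, 0, 0, 0, 1, false)),
  ((2, 4, -2, -3), (0, -1, -1, -1, 2, 0, 0, 0, false)),
  ((3, -3, 1, 0), (-1, 0, 0, 0, -1, 0, 1, 0, false)),
  ((3, -3, 2, 0), (-1, -1, 0, -1, 1, 0, 1, 0, false)),
  ((3, -2, 0, 0), (-1, -1, -1, -1, -1, 1, 0, 1, true)),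
  ((3, -2, 2, -1), (0, -1, 0, 0, 1, -1, 0, 1, true)),
  ((3, -1, 0, 0), (0, 0, 0, -1, 0, 1, 1, -1, true)),
  ((3, -1, 1, -2), (-1, -1, -1, -1, 0, 1, -1, 1, true)),
  ((3, 1, -1, -1), (-1, -1, 0, -1, 0, 0, 0, 1, false)),
  ((3, 1, 0, -3), (-1, -1, -1, 0, 0, 0, 0, 1, false)),
  ((3, 2, -2, -2), (0, -1, -1, 0, 1, 0, -1, 1, false)),
  ((3, 2, 0, -3), (0, 0, 0, 0, -1, 0, -1, 1, false)),
  ((3, 3, -2, -3), (0, 0, 0, 0, -1, 0, 1, 0, true)),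
  ((3, 3, -1, -3), (0, -1, 0, -1, 1, 0, 1, 0, true)),
  ((4, -2, 1, -1), (-1, 0, 0, 0, 0, 0, 0, 0, true)),
  ((4, -1, 0, -1), (0, 0, 0, -1, -1, 1, 0, 0, false)),
  ((4, -1, 1, -2), (-1, 0, 0, -1, -1, 1, 0, 0, false)),
  ((4, 1, -1, -2), (-1, 0, 0, -1, -1, 1, 0, 0, true)),
  ((4, 1, 0, -3), (0, 0, 0, -1, -1, 1, 0, 0, true)),
  ((4, 2, -1, -3), (-1, 0, 0, 0, 0, 0, 0, 0, false))]

/-- `z₀ = 2 + k` -/
def z0 : Ico := lp 4 2 (-1) (-3)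

/-- unpack the unit -/
def unE : (ℤ × ℤ × ℤ × ℤ × ℤ × ℤ × ℤ × ℤ × Bool) → Ico
  | (a, b, c, d, e, f, g, h, _) => ⟨⟨a, b⟩, ⟨c, d⟩, ⟨e, f⟩, ⟨g, h⟩⟩

/-- unpack the flag -/
def unF : (ℤ × ℤ × ℤ × ℤ × ℤ × ℤ × ℤ × ℤ × Bool) → Bool
  | (_, _, _, _, _, _, _, _, t) => t

theorem tabO_check : ∀ t ∈ tabO, N (unE t.2) = 1 ∧
    lp t.1.1 t.1.2.1 t.1.2.2.1 t.1.2.2.2 =
      unE t.2 * (if unF t.2 then bar z0 else z0) * st (unE t.2) := by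
  decide +kernel

/-- the ranges of the coordinates -/
def rg9 : List ℤ := [-4, -3, -2, -1, 0, 1, 2, 3, 4]

/-- the ranges of the coordinates -/
def rg11 : List ℤ := [-5, -4, -3, -2, -1, 0, 1, 2, 3, 4, 5]

theorem tabO_complete : ∀ A ∈ rg9, ∀ D ∈ rg9, ∀ e ∈ rg9, ∀ f ∈ rg11, nL A D e f = 5 →
    (A, D, e, f) ∈ tabO.map Prod.fst := by
  decide +kernel

theorem mem_rg9 {x : ℤ} (h1 : -4 ≤ x) (h2 : x ≤ 4) : x ∈ rg9 := by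
  unfold rg9
  simp only [List.mem_cons, List.not_mem_nil, or_false]
  omega

theorem mem_rg11 {x : ℤ} (h1 : -5 ≤ x) (h2 : x ≤ 5) : x ∈ rg11 := by
  unfold rg11
  simp only [List.mem_cons, List.not_mem_nil, or_false]
  omega

/-- The relation of the orbit statement. -/
def RO (z z' : Ico) : Prop := ∃ e : Ico, N e = 1 ∧ (z' = e * z * st e ∨ z' = e * bar z * st e)

theorem st_bar (x : Ico) : st (bar x) = bar (st x) := by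
  have h2 : (-2 : O5) = ⟨-2, 0⟩ := by decide
  have h3 : (2 : O5) = ⟨2, 0⟩ := by decide
  have h4 : om ^ 2 = ⟨1, 1⟩ := by decide
  obtain ⟨⟨a1, a2⟩, ⟨b1, b2⟩, ⟨c1, c2⟩, ⟨d1, d2⟩⟩ := x
  ext1 <;> simp only [st, bar, h4] <;> (ext <;> simp [om, h3] <;> ring)

theorem N_bar (x : Ico) : N (bar x) = N x := by
  apply ofO_injective
  rw [← mul_bar, bar_bar, bar_mul_self]

theorem st_one : st 1 = 1 := by decide

theorem RO_bar {e z z' : Ico} (h : z' = e * z * st e) :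
    bar z' = bar (st e) * bar z * st (bar (st e)) := by
  rw [h, bar_mul, bar_mul, st_bar, st_st, mul_assoc]

theorem RO_symm {z z' : Ico} (h : RO z z') : RO z' z := by
  obtain ⟨e, he, h | h⟩ := h
  · refine ⟨bar e, by rw [N_bar, he], Or.inl ?_⟩
    have h1 : bar e * e = 1 := by rw [bar_mul_self, he, map_one]
    rw [h]
    calc z = 1 * z * st 1 := by rw [st_one, one_mul, mul_one]
      _ = (bar e * e) * z * st (bar e * e) := by rw [h1]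
      _ = _ := by rw [st_mul]; simp only [mul_assoc]
  · refine ⟨st e, by rw [N_st, he, star_one], Or.inr ?_⟩
    have h1 := RO_bar h
    rw [bar_bar] at h1
    have h2 : st e * bar (st e) = 1 := by rw [mul_bar, N_st, he, star_one, map_one]
    rw [h1]
    calc z = 1 * z * st 1 := by rw [st_one, one_mul, mul_one]
      _ = (st e * bar (st e)) * z * st (st e * bar (st e)) := by rw [h2]
      _ = _ := by rw [st_mul]; simp only [mul_assoc]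

theorem RO_trans {z z' z'' : Ico} (h : RO z z') (h' : RO z' z'') : RO z z'' := by
  obtain ⟨e, he, h⟩ := h
  obtain ⟨f, hf, h'⟩ := h'
  rcases h' with h' | h'
  · refine ⟨f * e, by rw [N_mul, hf, he, one_mul], ?_⟩
    rcases h with h | h
    · left
      rw [h', h, st_mul]
      simp only [mul_assoc]
    · right
      rw [h', h, st_mul]
      simp only [mul_assoc]
  · refine ⟨f * bar (st e), by rw [N_mul, hf, one_mul, N_bar, N_st, he, star_one], ?_⟩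
    rcases h with h | h
    · right
      rw [h', RO_bar h, st_mul]
      simp only [mul_assoc]
    · left
      rw [h', RO_bar h, st_mul, bar_bar]
      simp only [mul_assoc]

theorem RO_z0 {z : Ico} (h : st z = z) (hN : z.N = 5) : RO z0 z := by
  obtain ⟨A, D, e, f, rfl⟩ := lp_surj h
  have h5 : (5 : O5) = ⟨5, 0⟩ := by decide
  rw [lp_N, h5, QuadraticAlgebra.mk.injEq] at hN
  obtain ⟨h1, h2, h3, h4⟩ := nL_small hN.1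
  have h6 := tabO_complete A (mem_rg9 h1.1 h1.2) D (mem_rg9 h2.1 h2.2) e (mem_rg9 h3.1 h3.2) f
    (mem_rg11 h4.1 h4.2) hN.1
  rw [List.mem_map] at h6
  obtain ⟨t, ht, htt⟩ := h6
  obtain ⟨h7, h8⟩ := tabO_check t ht
  rw [htt] at h8
  refine ⟨unE t.2, h7, ?_⟩
  split_ifs at h8 with h9
  · exact Or.inr h8
  · exact Or.inl h8

/-- **`orbit`** -/
theorem orbit (z z' : Ico) (hz : st z = z) (hz' : st z' = z') (hN : z.N = 5) (hN' : z'.N = 5) :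
    ∃ e : Ico, e.N = 1 ∧ (z' = e * z * st e ∨ z' = e * bar z * st e) :=
  RO_trans (RO_symm (RO_z0 hz hN)) (RO_z0 hz' hN')

end H53M
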