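import Pool.Agent.Lib.H53M.DA
import Pool.Agent.Lib.H53M.DO
import Pool.Agent.Lib.H53M.DI3

/-!
# H53M, module D, D45: Lemma F and D5 for the icosians
-/

namespace H53M

open QuadraticAlgebra Ico

/-- `O5` is central in `Ico`. -/
noncomputable instance algIco : Algebra O5 Ico :=
  RingHom.toAlgebra' ofO fun r x ↦ (mul_ofO r x).symm

theorem algIco_map (r : O5) : algebraMap O5 Ico r = ofO r := rfl

instance : Nontrivial O5 := ⟨⟨0, 1, by decide⟩⟩

instance : IsDomain O5 := by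
  have : NoZeroDivisors O5 := ⟨fun {a b} h ↦ by
    by_contra hcon
    push Not at hcon
    have h1 := norm_ne hcon.1
    have h2 := norm_ne hcon.2
    have h3 : norm (a * b) = norm a * norm b := map_mul _ _ _
    have h4 : norm (0 : O5) = 0 := by simp
    rw [h, h4] at h3
    exact (mul_ne_zero h1 h2) h3.symm⟩
  exact NoZeroDivisors.to_isDomain O5

theorem Ico_mul_eq_zero {x y : Ico} (h : x * y = 0) : x = 0 ∨ y = 0 := by
  by_contra hcon
  push Not at hcon
  have h1 : N (x * y) = N x * N y := N_mul x y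
  have h0 : N (0 : Ico) = 0 := by decide
  rw [h, h0] at h1
  exact mul_ne_zero (N_ne hcon.1) (N_ne hcon.2) h1.symm

theorem bar_add (x y : Ico) : bar (x + y) = bar x + bar y := by
  ext1 <;> simp only [bar, add_a, add_b, add_c, add_d] <;> ring

theorem bar_ofO (r : O5) : bar (ofO r) = ofO r := by
  ext1 <;> simp [bar]

theorem st_ofO (r : O5) : st (ofO r) = ofO (star r) := by
  ext1 <;> simp [st]

theorem Pos_of_mul {a b : O5} (h1 : Pos a) (h2 : Pos (a * b)) : Pos b := by
  obtain ⟨h3, h4⟩ := h1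
  obtain ⟨h5, h6⟩ := h2
  rw [map_mul] at h5 h6
  exact ⟨(pos_iff_pos_of_mul_pos h5).1 h3, (pos_iff_pos_of_mul_pos h6).1 h4⟩

/-- The icosians satisfy the hypotheses of the abstract part. -/
noncomputable def icoData : DAData O5 Ico where
  bar := bar
  N := N
  Pos := Pos
  bar_mul := bar_mul
  bar_add := bar_add
  bar_bar := bar_bar
  bar_alg := bar_ofO
  mul_bar := mul_bar
  bar_mul_self := bar_mul_self
  N_mul := N_mul
  N_alg := N_ofO
  N_ne x hx := N_ne hx
  cancel x y z hx h := by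
    have h1 : x * (y - z) = 0 := by rw [mul_sub, h, sub_self]
    exact sub_eq_zero.1 ((Ico_mul_eq_zero h1).resolve_left hx)
  cancel' x y z hx h := by
    have h1 : (y - z) * x = 0 := by rw [sub_mul, h, sub_self]
    exact sub_eq_zero.1 ((Ico_mul_eq_zero h1).resolve_right hx)
  alg_ne a ha h := by
    apply ha
    apply ofO_injective
    rw [map_zero]
    exact h
  pos_N x hx := DI1_pos x hx
  pos_mul a b := Pos_of_mul
  pos_unit := pos_unit
  principal := principal

/-- The involution `*` on the icosians. -/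
noncomputable def icoStar : DAStar O5 Ico icoData where
  st := st
  sg := star
  st_mul := st_mul
  st_st := st_st
  st_alg := st_ofO
  N_st := N_st
  sg_mul := star_O5_mul
  sg_sg := star_star
  sg_ne a ha h := by
    apply ha
    rw [← star_star a, h, star_zero]

theorem left_ex (π : O5) (x : Ico) (hpr : Prime π) (hpos : Pos π) (hd : ¬ IDvd π x)
    (hN : π ∣ x.N) : ∃ y z : Ico, y.N = π ∧ x = y * z :=
  icoData.F_exists hpr hpos hd hN

theorem left_un (π : O5) (x y z y' z' : Ico) (hpr : Prime π) (hd : ¬ IDvd π x) (hy : y.N = π)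
    (hy' : y'.N = π) (hx : x = y * z) (hx' : x = y' * z') : ∃ e : Ico, e.N = 1 ∧ y' = y * e :=
  icoData.F_unique hpr hd hy hy' hx hx'

theorem right_ex (π : O5) (x : Ico) (hpr : Prime π) (hpos : Pos π) (hd : ¬ IDvd π x)
    (hN : π ∣ x.N) : ∃ y z : Ico, y.N = π ∧ x = z * y :=
  icoData.F_exists' hpr hpos hd hN

theorem right_un (π : O5) (x y z y' z' : Ico) (hpr : Prime π) (hd : ¬ IDvd π x) (hy : y.N = π)
    (hy' : y'.N = π) (hx : x = z * y) (hx' : x = z' * y') : ∃ e : Ico, e.N = 1 ∧ y' = e * y :=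
  icoData.F_unique' hpr hd hy hy' hx hx'

theorem Pos_natCast {p : ℕ} (hp : 0 < p) : Pos (p : O5) := by
  constructor
  · rw [map_natCast]
    exact_mod_cast hp
  · rw [map_natCast]
    exact_mod_cast hp

theorem norm_eq_of_star {p : ℕ} {π : O5} (hπ : π * star π = (p : O5)) : norm π = p := by
  rw [mul_star_norm] at hπ
  have h := congrArg QuadraticAlgebra.re hπ
  simpa using h

/-- `π` and its conjugate are coprime for `p ≠ 5`. -/
theorem not_star_dvd {p : ℕ} {π : O5} (hp : p.Prime) (hp5 : p ≠ 5)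
    (hπ : π * star π = (p : O5)) : ¬ star π ∣ π := by
  rintro ⟨c, hc⟩
  have hn := norm_eq_of_star hπ
  obtain ⟨a, b⟩ := π
  have h1 : norm ((⟨a, b⟩ : O5) - star (⟨a, b⟩ : O5)) = -(5 * b ^ 2) := by
    rw [norm_O5]
    simp
    ring
  have h2 : (⟨a, b⟩ : O5) - star (⟨a, b⟩ : O5) = star (⟨a, b⟩ : O5) * (c - 1) := by
    rw [mul_sub, mul_one, ← hc]
  have h3 : norm (star (⟨a, b⟩ : O5)) = p := by
    rw [← hn, norm_O5, norm_O5]
    simp
    ring
  rw [h2, map_mul, h3] at h1
  have h4 : (p : ℤ) ∣ 5 * b ^ 2 := ⟨-norm (c - 1), by linarith⟩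
  have hpZ : Prime (p : ℤ) := Nat.prime_iff_prime_int.1 hp
  have h5 : (p : ℤ) ∣ b := by
    rcases hpZ.dvd_or_dvd h4 with h | h
    · exfalso
      have h6 : p ∣ 5 := by exact_mod_cast h
      exact hp5 ((Nat.prime_dvd_prime_iff_eq hp (by norm_num)).1 h6)
    · exact hpZ.dvd_of_dvd_pow h
  rw [norm_O5] at hn
  simp only at hn
  have h6 : (p : ℤ) ∣ a := by
    have h7 : (p : ℤ) ∣ a ^ 2 := by
      obtain ⟨t, ht⟩ := h5
      refine ⟨1 - t * a + b * t, ?_⟩
      have : a ^ 2 = p - a * b + b ^ 2 := by linarith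
      rw [this]
      nth_rewrite 1 [ht]
      rw [pow_two]
      nth_rewrite 2 [ht]
      ring
    exact hpZ.dvd_of_dvd_pow h7
  obtain ⟨t, ht⟩ := h5
  obtain ⟨r, hr⟩ := h6
  have hp0 : (p : ℤ) ≠ 0 := by exact_mod_cast hp.ne_zero
  have h8 : (p : ℤ) * (r ^ 2 + r * t - t ^ 2) = 1 := by
    apply mul_left_cancel₀ hp0
    rw [mul_one]
    nth_rewrite 3 [← hn]
    rw [hr, ht]
    ring
  have h9 : (p : ℤ) ∣ 1 := ⟨_, h8.symm⟩
  exact hpZ.not_isUnit (isUnit_of_dvd_one h9)

theorem d5_split (PS : ∀ (p : ℕ) (π : O5), p.Prime → p ≠ 5 → π * star π = (p : O5) → Prime π)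
    (p : ℕ) (π : O5) (y w z : Ico) (hp : p.Prime) (hp5 : p ≠ 5) (hpos : Pos π)
    (hπ : π * star π = (p : O5)) (hz : st z = z) (hd : ¬ IDvd π z) (hy : y.N = π)
    (hzw : z = y * w) : ∃ z' : Ico, st z' = z' ∧ z = y * z' * st y := by
  have hpr := PS p π hp hp5 hπ
  have hpr' := PS p (star π) hp hp5 (by rw [star_star, mul_comm, hπ])
  have hpos' : Pos (star π) := Pos_of_mul hpos (by rw [hπ]; exact Pos_natCast hp.pos)
  refine DAStar.D5 icoData icoStar hpr hpr' hpos' hz hy hzw ?_ ?_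
  · rintro ⟨s, hs⟩
    have hs : z = ofO (star π) * s := hs
    refine hd ⟨st s, ?_⟩
    rw [← hz, hs, st_mul, st_ofO, star_star, mul_ofO]
  · change star π ∣ N w
    have h1 : N z = π * N w := by rw [hzw, N_mul, hy]
    have h2 : star (N z) = N z := by rw [← N_st, hz]
    have h3 : star π ∣ π * N w := by
      rw [← h1, ← h2, h1, star_O5_mul]
      exact dvd_mul_right _ _
    exact (hpr'.dvd_or_dvd h3).resolve_left (not_star_dvd hp hp5 hπ)

theorem d5_inert (PI : ∀ p : ℕ, p.Prime → (p % 5 = 2 ∨ p % 5 = 3) → Prime (p : O5))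
    (p : ℕ) (y w z : Ico) (hp : p.Prime) (hp5 : p % 5 = 2 ∨ p % 5 = 3)
    (hz : st z = z) (hd : ¬ IDvd (p : O5) z) (hN : (p : O5) ^ 2 ∣ z.N) (hy : y.N = (p : O5))
    (hzw : z = y * w) : ∃ z' : Ico, st z' = z' ∧ z = y * z' * st y := by
  have hpr := PI p hp hp5
  have hs : star (p : O5) = (p : O5) := star_natCast p
  have hs' : icoStar.sg (p : O5) = (p : O5) := hs
  refine DAStar.D5 icoData icoStar (p := (p : O5)) hpr (by rw [hs']; exact hpr)
    (by rw [hs']; exact Pos_natCast hp.pos) hz hy hzw (by rw [hs']; exact hd) ?_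
  rw [hs']
  change (p : O5) ∣ N w
  have h1 : N z = p * N w := by rw [hzw, N_mul, hy]
  rw [h1, pow_two] at hN
  exact (mul_dvd_mul_iff_left hpr.ne_zero).1 hN

end H53M
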