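import Mathlib

/-!
# H53M, module D, abstract part (DA): Lemma F and D5 for rings with a norm

`R` is a (noncommutative) ring over the commutative domain `O` (think of the icosians over
`ℤ[w]`), with an anti-involution `bar` and a norm `N`, all right ideals `x R + y R` principal.
-/

namespace H53M

set_option linter.unusedSectionVars false

/-- The data used in the proofs of D4 and D5. -/
structure DAData (O R : Type*) [CommRing O] [Ring R] [Algebra O R] where
  /-- quaternion conjugation -/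
  bar : R → R
  /-- reduced norm -/
  N : R → O
  /-- totally positive elements -/
  Pos : O → Prop
  bar_mul : ∀ x y, bar (x * y) = bar y * bar x
  bar_add : ∀ x y, bar (x + y) = bar x + bar y
  bar_bar : ∀ x, bar (bar x) = x
  bar_alg : ∀ a : O, bar (algebraMap O R a) = algebraMap O R a
  mul_bar : ∀ x, x * bar x = algebraMap O R (N x)
  bar_mul_self : ∀ x, bar x * x = algebraMap O R (N x)
  N_mul : ∀ x y, N (x * y) = N x * N y
  N_alg : ∀ a : O, N (algebraMap O R a) = a ^ 2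
  N_ne : ∀ x, x ≠ 0 → N x ≠ 0
  cancel : ∀ x y z : R, x ≠ 0 → x * y = x * z → y = z
  cancel' : ∀ x y z : R, x ≠ 0 → y * x = z * x → y = z
  alg_ne : ∀ a : O, a ≠ 0 → algebraMap O R a ≠ 0
  pos_N : ∀ x, x ≠ 0 → Pos (N x)
  pos_mul : ∀ a b, Pos a → Pos (a * b) → Pos b
  pos_unit : ∀ e : O, IsUnit e → Pos e → ∃ f : O, IsUnit f ∧ e = f ^ 2
  principal : ∀ x y : R, ∃ d a b s t : R, d = x * a + y * b ∧ x = d * s ∧ y = d * t

variable {O R : Type*} [CommRing O] [IsDomain O] [Ring R] [Algebra O R] (D : DAData O R)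

include D in
theorem DAData.alg_inj {a b : O} (h : algebraMap O R a = algebraMap O R b) : a = b := by
  by_contra hab
  exact D.alg_ne (a - b) (sub_ne_zero.2 hab) (by rw [map_sub, h, sub_self])

theorem DAData.N_bar (x : R) : D.N (D.bar x) = D.N x := by
  apply D.alg_inj
  rw [← D.mul_bar, D.bar_bar, D.bar_mul_self]

theorem DAData.N_one : D.N (1 : R) = 1 := by
  have := D.N_alg 1
  rwa [map_one, one_pow] at this

theorem DAData.bar_one : D.bar (1 : R) = 1 := by
  have := D.bar_alg 1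
  rwa [map_one] at this

/-- An element of norm a unit is invertible. -/
theorem DAData.inv_of_unit {x : R} (h : IsUnit (D.N x)) : ∃ y, x * y = 1 ∧ y * x = 1 := by
  obtain ⟨u, hu⟩ := h.exists_right_inv
  refine ⟨D.bar x * algebraMap O R u, ?_, ?_⟩
  · rw [← mul_assoc, D.mul_bar, ← map_mul, hu, map_one]
  · rw [mul_assoc, Algebra.commutes, ← mul_assoc, D.bar_mul_self, ← map_mul, hu, map_one]

/-- `π ∣ x̄` implies `π ∣ x`. -/
theorem DAData.dvd_of_bar {x t : R} {p : O} (h : D.bar x = algebraMap O R p * t) :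
    ∃ s, x = algebraMap O R p * s := by
  refine ⟨D.bar t, ?_⟩
  rw [← D.bar_bar x, h, D.bar_mul, D.bar_alg, Algebra.commutes]

/-- If `p ∣ N x` and `x R + p R = R` then there is a contradiction. -/
theorem DAData.not_coprime {x : R} {p : O} (hp : ¬ ∃ s, x = algebraMap O R p * s)
    (hN : p ∣ D.N x) (a b : R) (h : x * a + algebraMap O R p * b = 1) : False := by
  obtain ⟨c, hc⟩ := hN
  refine hp (D.dvd_of_bar (t := algebraMap O R c * a + D.bar x * b) ?_)
  calc D.bar x = D.bar x * (x * a + algebraMap O R p * b) := by rw [h, mul_one]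
    _ = (D.bar x * x) * a + (D.bar x * algebraMap O R p) * b := by rw [mul_add, mul_assoc, mul_assoc]
    _ = _ := by
      rw [D.bar_mul_self, hc, map_mul, ← Algebra.commutes p (D.bar x), mul_assoc, mul_assoc,
        mul_add]

/-- **D4 (existence).**  `p` a totally positive prime element of `O`, `p ∣ N x`, `p ∤ x`: there is
`y` with `N y = p` and `x ∈ y R`. -/
theorem DAData.F_exists {x : R} {p : O} (hpr : Prime p) (hpos : D.Pos p)
    (hp : ¬ ∃ s, x = algebraMap O R p * s) (hN : p ∣ D.N x) :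
    ∃ y t, D.N y = p ∧ x = y * t := by
  obtain ⟨d, a, b, s, t, hd, hs, ht⟩ := D.principal x (algebraMap O R p)
  have hp0 : p ≠ 0 := hpr.ne_zero
  have hd0 : d ≠ 0 := by
    rintro rfl
    rw [zero_mul] at ht
    exact D.alg_ne p hp0 ht
  have hNN : D.N d * D.N t = p ^ 2 := by
    rw [← D.N_mul, ← ht, D.N_alg]
  -- the case `N d` unit
  have h1 : ¬ IsUnit (D.N d) := by
    intro hu
    obtain ⟨e, he, -⟩ := D.inv_of_unit hu
    refine D.not_coprime hp hN (a * e) (b * e) ?_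
    rw [← mul_assoc, ← mul_assoc, ← add_mul, ← hd, he]
  -- the case `N t` unit
  have h2 : ¬ IsUnit (D.N t) := by
    intro hu
    obtain ⟨e, he, -⟩ := D.inv_of_unit hu
    refine hp ⟨e * s, ?_⟩
    have : d = algebraMap O R p * e := by rw [ht, mul_assoc, he, mul_one]
    rw [← mul_assoc, ← this, ← hs]
  -- so both are associated to `p`
  have h3 : p ∣ D.N d := by
    have h4 : p ∣ D.N d * D.N t := by rw [hNN]; exact dvd_pow_self p two_ne_zero
    rcases hpr.dvd_or_dvd h4 with h5 | ⟨c, hc⟩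
    · exact h5
    · have h6 : D.N d * c = p := by
        apply mul_left_cancel₀ hp0
        rw [← pow_two, ← hNN, hc]
        ring
      rcases hpr.irreducible.isUnit_or_isUnit h6.symm with h7 | h7
      · exact absurd h7 h1
      · obtain ⟨u, hu⟩ := h7.exists_right_inv
        refine ⟨u, ?_⟩
        calc D.N d = D.N d * c * u := by rw [mul_assoc, hu, mul_one]
          _ = p * u := by rw [h6]
  obtain ⟨c, hc⟩ := h3
  have hcu : IsUnit c := by
    have h4 : c * D.N t = p := by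
      apply mul_left_cancel₀ hp0
      rw [← pow_two, ← hNN, hc]
      ring
    rcases hpr.irreducible.isUnit_or_isUnit h4.symm with h7 | h7
    · exact h7
    · exact absurd h7 h2
  have hcpos : D.Pos c := by
    refine D.pos_mul p c hpos ?_
    rw [← hc]
    exact D.pos_N d hd0
  obtain ⟨f, hf, hcf⟩ := D.pos_unit c hcu hcpos
  obtain ⟨g, hg⟩ := hf.exists_right_inv
  refine ⟨d * algebraMap O R g, algebraMap O R f * s, ?_, ?_⟩
  · rw [D.N_mul, D.N_alg, hc, hcf]
    calc p * f ^ 2 * g ^ 2 = p * (f * g) ^ 2 := by ring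
      _ = p := by rw [hg, one_pow, mul_one]
  · rw [mul_assoc, ← mul_assoc (algebraMap O R g), ← map_mul, mul_comm g f, hg, map_one, one_mul,
      hs]

/-- **D4 (uniqueness).** -/
theorem DAData.F_unique {x y₁ y₂ t₁ t₂ : R} {p : O} (hpr : Prime p)
    (hp : ¬ ∃ s, x = algebraMap O R p * s) (h1 : D.N y₁ = p) (h2 : D.N y₂ = p)
    (hx1 : x = y₁ * t₁) (hx2 : x = y₂ * t₂) : ∃ e, D.N e = 1 ∧ y₂ = y₁ * e := by
  have hp0 : p ≠ 0 := hpr.ne_zero
  obtain ⟨d, a, b, s, t, hd, hs, ht⟩ := D.principal y₁ y₂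
  have hy1 : y₁ ≠ 0 := by
    rintro rfl
    rw [hx1, zero_mul] at hp
    exact hp ⟨0, by rw [mul_zero]⟩
  have hNs : D.N d * D.N s = p := by rw [← D.N_mul, ← hs, h1]
  rcases hpr.irreducible.isUnit_or_isUnit hNs.symm with hu | hu
  · exfalso
    obtain ⟨e, he, -⟩ := D.inv_of_unit hu
    have h3 : y₁ * (a * e) + y₂ * (b * e) = 1 := by
      rw [← mul_assoc, ← mul_assoc, ← add_mul, ← hd, he]
    refine hp (D.dvd_of_bar (t := D.bar t₁ * (a * e) + D.bar t₂ * (b * e)) ?_)
    have e1 : D.bar x * y₁ = algebraMap O R p * D.bar t₁ := by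
      rw [hx1, D.bar_mul, mul_assoc, D.bar_mul_self, h1, Algebra.commutes]
    have e2 : D.bar x * y₂ = algebraMap O R p * D.bar t₂ := by
      rw [hx2, D.bar_mul, mul_assoc, D.bar_mul_self, h2, Algebra.commutes]
    calc D.bar x = D.bar x * (y₁ * (a * e) + y₂ * (b * e)) := by rw [h3, mul_one]
      _ = (D.bar x * y₁) * (a * e) + (D.bar x * y₂) * (b * e) := by
        rw [mul_add, ← mul_assoc (D.bar x), ← mul_assoc (D.bar x)]
      _ = _ := by rw [e1, e2, mul_assoc, mul_assoc, mul_add]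
  · obtain ⟨e, he, he'⟩ := D.inv_of_unit hu
    have h3 : d = y₁ * e := by rw [hs, mul_assoc, he, mul_one]
    have h4 : y₂ = y₁ * (e * t) := by rw [← mul_assoc, ← h3, ht]
    refine ⟨e * t, ?_, h4⟩
    apply mul_left_cancel₀ hp0
    rw [mul_one]
    calc p * D.N (e * t) = D.N y₁ * D.N (e * t) := by rw [h1]
      _ = p := by rw [← D.N_mul, ← h4, h2]

/-- The left version of existence. -/
theorem DAData.F_exists' {x : R} {p : O} (hpr : Prime p) (hpos : D.Pos p)
    (hp : ¬ ∃ s, x = algebraMap O R p * s) (hN : p ∣ D.N x) :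
    ∃ y t, D.N y = p ∧ x = t * y := by
  obtain ⟨y, t, hy, hx⟩ := D.F_exists (x := D.bar x) hpr hpos
    (fun ⟨s, hs⟩ ↦ hp (D.dvd_of_bar hs)) (by rwa [D.N_bar])
  refine ⟨D.bar y, D.bar t, by rw [D.N_bar, hy], ?_⟩
  rw [← D.bar_mul, ← hx, D.bar_bar]

/-- The left version of uniqueness. -/
theorem DAData.F_unique' {x y₁ y₂ t₁ t₂ : R} {p : O} (hpr : Prime p)
    (hp : ¬ ∃ s, x = algebraMap O R p * s) (h1 : D.N y₁ = p) (h2 : D.N y₂ = p)
    (hx1 : x = t₁ * y₁) (hx2 : x = t₂ * y₂) : ∃ e, D.N e = 1 ∧ y₂ = e * y₁ := by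
  obtain ⟨e, he, hy⟩ := D.F_unique (x := D.bar x) (y₁ := D.bar y₁) (y₂ := D.bar y₂)
    (t₁ := D.bar t₁) (t₂ := D.bar t₂) hpr (fun ⟨s, hs⟩ ↦ hp (D.dvd_of_bar hs))
    (by rw [D.N_bar, h1]) (by rw [D.N_bar, h2]) (by rw [hx1, D.bar_mul]) (by rw [hx2, D.bar_mul])
  refine ⟨D.bar e, by rw [D.N_bar, he], ?_⟩
  rw [← D.bar_bar y₂, hy, D.bar_mul, D.bar_bar]

/-- The involution `*`. -/
structure DAStar (O R : Type*) [CommRing O] [Ring R] [Algebra O R] (D : DAData O R) where
  /-- the involution `*` of `R` -/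
  st : R → R
  /-- conjugation of `O` -/
  sg : O → O
  st_mul : ∀ x y, st (x * y) = st y * st x
  st_st : ∀ x, st (st x) = x
  st_alg : ∀ a : O, st (algebraMap O R a) = algebraMap O R (sg a)
  N_st : ∀ x, D.N (st x) = sg (D.N x)
  sg_mul : ∀ a b, sg (a * b) = sg a * sg b
  sg_sg : ∀ a, sg (sg a) = a
  sg_ne : ∀ a, a ≠ 0 → sg a ≠ 0

variable (S : DAStar O R D)

theorem DAStar.st_zero : S.st (0 : R) = 0 := by
  have h := S.st_alg 0
  rw [map_zero] at h
  have h2 : S.sg 0 = 0 := by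
    by_contra hcon
    have h3 := S.sg_sg (0 : O)
    have h4 := S.sg_mul 0 (S.sg 0)
    rw [zero_mul, h3, mul_zero] at h4
    exact hcon h4
  rw [h, h2, map_zero]

/-- **D5.**  `z = z*`, `z ∈ y R`, `N y = p`, `p ∤ z`, `sg p ∤ z`, `p sg p` divides `N z` in the
sense that `sg p ∣ N z / p`: then `z = y u y*` with `u = u*`. -/
theorem DAStar.D5 {z y w : R} {p : O} (hpr : Prime p) (hpr' : Prime (S.sg p))
    (hpos' : D.Pos (S.sg p)) (hz : S.st z = z) (hy : D.N y = p) (hzw : z = y * w)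
    (hp : ¬ ∃ s, z = algebraMap O R (S.sg p) * s) (hN : S.sg p ∣ D.N w) :
    ∃ u, S.st u = u ∧ z = y * u * S.st y := by
  have hw : ¬ ∃ s, w = algebraMap O R (S.sg p) * s := by
    rintro ⟨s, hs⟩
    refine hp ⟨y * s, ?_⟩
    rw [hzw, hs, ← mul_assoc, ← mul_assoc, Algebra.commutes]
  obtain ⟨y₂, t, hy₂, ht⟩ := D.F_exists' hpr' hpos' hw hN
  have hz2 : z = (y * t) * y₂ := by rw [mul_assoc, ← ht, hzw]
  have hz3 : z = S.st w * S.st y := by rw [← S.st_mul, ← hzw, hz]
  obtain ⟨e, he, hye⟩ := D.F_unique' (x := z) (y₁ := S.st y) (y₂ := y₂) hpr' hp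
    (by rw [S.N_st, hy]) hy₂ hz3 hz2
  have hy0 : y ≠ 0 := by
    rintro rfl
    apply hpr.ne_zero
    rw [← hy]
    have := D.N_alg 0
    rw [map_zero] at this
    rw [this, zero_pow two_ne_zero]
  have hsy0 : S.st y ≠ 0 := by
    intro h0
    apply hy0
    rw [← S.st_st y, h0, S.st_zero]
  have hzu : z = y * (t * e) * S.st y := by
    rw [hz2, hye]
    simp only [mul_assoc]
  refine ⟨t * e, ?_, hzu⟩
  have h5 : y * (S.st (t * e)) * S.st y = y * (t * e) * S.st y := by
    rw [← hzu]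
    conv_rhs => rw [← hz, hzu]
    rw [S.st_mul (y * (t * e)), S.st_mul y, S.st_st, mul_assoc]
  exact D.cancel y _ _ hy0 (D.cancel' (S.st y) _ _ hsy0 h5)

end H53M
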