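import Pool.Agent.Lib.H53M.DI3

/-!
# H53M, module D, part DI4: primes of `O5`
-/

namespace H53M

open QuadraticAlgebra

/-! ### Bezout in `O5` -/

/-- rounding -/
theorem round_O5 (v m : ℤ) (hm : 0 < m) : ∃ p : ℤ, 2 * |v - m * p| ≤ m := by
  refine ⟨(2 * v + m) / (2 * m), ?_⟩
  have h1 := Int.emod_nonneg (2 * v + m) (show 2 * m ≠ 0 by omega)
  have h2 := Int.emod_lt_of_pos (2 * v + m) (show 0 < 2 * m by omega)
  have h3 := Int.mul_ediv_add_emod (2 * v + m) (2 * m)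
  have h4 : |2 * (v - m * ((2 * v + m) / (2 * m)))| ≤ m := by
    rw [abs_le]
    constructor <;> nlinarith
  rwa [abs_mul, abs_of_pos (by norm_num : (0 : ℤ) < 2)] at h4

theorem norm_lt_of_small {a : O5} {m : ℤ} (hm : 0 < m) (h0 : 2 * |a.re| ≤ m)
    (h1 : 2 * |a.im| ≤ m) : |norm a| < m ^ 2 := by
  rw [norm_O5, abs_lt]
  have h2 : |a.re * a.im| * 4 ≤ m ^ 2 := by
    rw [abs_mul]
    nlinarith [abs_nonneg a.re, abs_nonneg a.im]
  have h3 : 4 * a.re ^ 2 ≤ m ^ 2 := by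
    rw [← sq_abs]
    nlinarith [abs_nonneg a.re]
  have h4 : 4 * a.im ^ 2 ≤ m ^ 2 := by
    rw [← sq_abs]
    nlinarith [abs_nonneg a.im]
  have h5 := le_abs_self (a.re * a.im)
  have h6 := neg_abs_le (a.re * a.im)
  have h7 : 0 < m ^ 2 := by positivity
  constructor <;> nlinarith [sq_nonneg a.re, sq_nonneg a.im]

theorem O5_div_int (z : O5) (m : ℤ) (hm : 0 < m) : ∃ q : O5, |norm (z - (m : O5) * q)| < m ^ 2 := by
  obtain ⟨p0, h0⟩ := round_O5 z.re m hm
  obtain ⟨p1, h1⟩ := round_O5 z.im m hm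
  refine ⟨⟨p0, p1⟩, norm_lt_of_small hm ?_ ?_⟩
  · simpa using h0
  · simpa using h1

theorem O5_div (x y : O5) (hy : y ≠ 0) : ∃ q, (norm (x - y * q)).natAbs < (norm y).natAbs := by
  obtain ⟨s, m, hm, hs⟩ : ∃ s : O5, ∃ m : ℤ, 0 < m ∧ y * s = (m : O5) ∧ |norm y| = m ∧
      |norm s| = m := by
    rcases lt_or_gt_of_ne (norm_ne hy) with h | h
    · refine ⟨-star y, -norm y, by omega, ?_, ?_, ?_⟩
      · rw [mul_neg, mul_star_norm]; push_cast; ring
      · rw [abs_of_neg h]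
      · rw [QuadraticAlgebra.norm_neg, QuadraticAlgebra.norm_star, abs_of_neg h]
    · refine ⟨star y, norm y, by omega, mul_star_norm y, ?_, ?_⟩
      · rw [abs_of_pos h]
      · rw [QuadraticAlgebra.norm_star, abs_of_pos h]
  obtain ⟨hs1, hs2, hs3⟩ := hs
  obtain ⟨q, hq⟩ := O5_div_int (x * s) m hm
  refine ⟨q, ?_⟩
  have e : s * (x - y * q) = x * s - (m : O5) * q := by
    rw [← hs1]; ring
  rw [← e, map_mul, abs_mul, hs3] at hq
  have h5 : |norm (x - y * q)| < m := by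
    have : m * |norm (x - y * q)| < m * m := by rwa [← pow_two]
    exact lt_of_mul_lt_mul_left this hm.le
  rw [← hs2] at h5
  rw [Int.abs_eq_natAbs, Int.abs_eq_natAbs] at h5
  exact_mod_cast h5

theorem O5_principal (x y : O5) :
    ∃ d a b s t : O5, d = x * a + y * b ∧ x = d * s ∧ y = d * t :=
  principal_of_div (fun a : O5 => (norm a).natAbs) O5_div x y

theorem isUnit_of_norm {a : O5} (h : norm a = 1 ∨ norm a = -1) : IsUnit a :=
  isUnit_iff_norm_isUnit.2 (Int.isUnit_iff.2 h)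

theorem intCast_dvd_iff (p : ℤ) (a : O5) : (p : O5) ∣ a ↔ p ∣ a.re ∧ p ∣ a.im := by
  constructor
  · rintro ⟨c, rfl⟩
    simp
  · rintro ⟨⟨u, hu⟩, ⟨v, hv⟩⟩
    exact ⟨⟨u, v⟩, by ext <;> simp [hu, hv]⟩

theorem natCast_dvd_iff (p : ℕ) (a : O5) : (p : O5) ∣ a ↔ (p : ℤ) ∣ a.re ∧ (p : ℤ) ∣ a.im := by
  have := intCast_dvd_iff (p : ℤ) a
  rwa [Int.cast_natCast] at this

/-! ### Inert primes -/

theorem not_sq_two : ¬ IsSquare (2 : ZMod 5) := by decide

theorem not_sq_three : ¬ IsSquare (3 : ZMod 5) := by decide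

theorem is_sq_one : IsSquare (1 : ZMod 5) := by decide

theorem is_sq_four : IsSquare (4 : ZMod 5) := by decide

theorem key_two : ∀ u v : ZMod 2, u ^ 2 + u * v - v ^ 2 = 0 → u = 0 ∧ v = 0 := by decide

theorem not_square_five (p : ℕ) [Fact p.Prime] (h2 : p ≠ 2) (h : p % 5 = 2 ∨ p % 5 = 3) :
    ¬ IsSquare (5 : ZMod p) := by
  intro hs
  have : Fact (Nat.Prime 5) := ⟨by norm_num⟩
  have h1 := (ZMod.exists_sq_eq_prime_iff_of_mod_four_eq_one (p := 5) (q := p) (by norm_num) h2).2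
    (by simpa using hs)
  have h3 : ((p : ℕ) : ZMod 5) = 2 ∨ ((p : ℕ) : ZMod 5) = 3 := by
    rcases h with h | h
    · left
      have := (ZMod.natCast_eq_natCast_iff' p 2 5).2 (by simpa using h)
      simpa using this
    · right
      have := (ZMod.natCast_eq_natCast_iff' p 3 5).2 (by simpa using h)
      simpa using this
  rcases h3 with h3 | h3
  · rw [h3] at h1
    exact not_sq_two h1
  · rw [h3] at h1
    exact not_sq_three h1

theorem DI4_inert_dvd (p : ℕ) (α : O5) (hp : p.Prime) (h5 : p % 5 = 2 ∨ p % 5 = 3)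
    (hd : (p : ℤ) ∣ QuadraticAlgebra.norm α) : (p : O5) ∣ α := by
  have : Fact p.Prime := ⟨hp⟩
  rw [natCast_dvd_iff]
  rw [norm_O5] at hd
  rcases eq_or_ne p 2 with h2 | h2
  · subst h2
    obtain ⟨k, hk⟩ := hd
    generalize α.re = a at *
    generalize α.im = b at *
    have ha := Int.emod_two_eq_zero_or_one a
    have hb := Int.emod_two_eq_zero_or_one b
    have hz : ((a ^ 2 + a * b - b ^ 2 : ℤ) : ZMod 2) = 0 := by
      rw [ZMod.intCast_zmod_eq_zero_iff_dvd]
      exact ⟨k, hk⟩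
    push_cast at hz
    obtain ⟨h1, h3⟩ := key_two _ _ hz
    exact ⟨(ZMod.intCast_zmod_eq_zero_iff_dvd a 2).1 h1, (ZMod.intCast_zmod_eq_zero_iff_dvd b 2).1 h3⟩
  · have hz : ((α.re ^ 2 + α.re * α.im - α.im ^ 2 : ℤ) : ZMod p) = 0 := by
      rw [ZMod.intCast_zmod_eq_zero_iff_dvd]
      exact hd
    push_cast at hz
    have hb : (α.im : ZMod p) = 0 := by
      by_contra hb
      apply not_square_five p h2 h5
      refine ⟨(2 * (α.re : ZMod p) + α.im) / α.im, ?_⟩
      field_simp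
      linear_combination (-4 : ZMod p) * hz
    rw [hb] at hz
    have ha : (α.re : ZMod p) = 0 := by
      have : (α.re : ZMod p) ^ 2 = 0 := by linear_combination hz
      exact pow_eq_zero_iff (two_ne_zero) |>.1 this
    exact ⟨(ZMod.intCast_zmod_eq_zero_iff_dvd _ p).1 ha, (ZMod.intCast_zmod_eq_zero_iff_dvd _ p).1 hb⟩

theorem DI4_prime_inert (p : ℕ) (hp : p.Prime) (h5 : p % 5 = 2 ∨ p % 5 = 3) :
    Prime (p : O5) := by
  refine ⟨?_, ?_, ?_⟩
  · have := hp.ne_zero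
    exact_mod_cast this
  · intro h
    have h1 := isUnit_iff_norm_isUnit.1 h
    rw [QuadraticAlgebra.norm_natCast] at h1
    have h2 : IsUnit (p : ℤ) := by
      rw [pow_two] at h1
      exact isUnit_of_mul_isUnit_left h1
    have h3 := (Nat.prime_iff_prime_int.1 hp).not_isUnit
    exact h3 h2
  · intro a b hab
    obtain ⟨c, hc⟩ := hab
    have h1 := congrArg QuadraticAlgebra.norm hc
    rw [map_mul, map_mul, QuadraticAlgebra.norm_natCast] at h1
    have h2 : (p : ℤ) ∣ norm a * norm b := ⟨p * norm c, by rw [h1]; ring⟩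
    rcases (Nat.prime_iff_prime_int.1 hp).dvd_or_dvd h2 with h | h
    · exact Or.inl (DI4_inert_dvd p a hp h5 h)
    · exact Or.inr (DI4_inert_dvd p b hp h5 h)

/-! ### Split primes -/

theorem DI4_prime_split (p : ℕ) (π : O5) (hp : p.Prime) (_ : p ≠ 5)
    (h : π * star π = (p : O5)) : Prime π := by
  have hn : norm π = p := by
    rw [mul_star_norm] at h
    exact_mod_cast h
  refine ⟨?_, ?_, ?_⟩
  · rintro rfl
    rw [QuadraticAlgebra.norm_zero] at hn
    exact hp.ne_zero (by exact_mod_cast hn.symm)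
  · intro hu
    have h1 := isUnit_iff_norm_isUnit.1 hu
    rw [hn] at h1
    exact (Nat.prime_iff_prime_int.1 hp).not_isUnit h1
  · intro a b hab
    obtain ⟨d, x, y, s, t, h1, h2, h3⟩ := O5_principal π a
    have h4 : norm d * norm s = p := by rw [← map_mul, ← h2, hn]
    have h5 : IsUnit (norm d) ∨ IsUnit (norm s) :=
      (Nat.prime_iff_prime_int.1 hp).irreducible.isUnit_or_isUnit h4.symm
    rcases h5 with h5 | h5
    · right
      obtain ⟨u, hu⟩ := isUnit_iff_norm_isUnit.2 h5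
      obtain ⟨c, hc⟩ := hab
      refine ⟨(x * b + c * y) * ((u⁻¹ : O5ˣ) : O5), ?_⟩
      have h6 : d * b = π * (x * b + c * y) := by
        rw [h1]
        linear_combination y * hc
      calc b = (d * ((u⁻¹ : O5ˣ) : O5)) * b := by rw [← hu, Units.mul_inv, one_mul]
        _ = (d * b) * ((u⁻¹ : O5ˣ) : O5) := by ring
        _ = _ := by rw [h6]; ring
    · left
      obtain ⟨u, hu⟩ := isUnit_iff_norm_isUnit.2 h5
      refine ⟨((u⁻¹ : O5ˣ) : O5) * t, ?_⟩
      rw [h2, ← hu]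
      calc a = d * (((u : O5ˣ) : O5) * ((u⁻¹ : O5ˣ) : O5)) * t := by
            rw [Units.mul_inv, mul_one, ← h3]
        _ = _ := by ring

theorem exists_root (p : ℕ) (hp : p.Prime) (h5 : p % 5 = 1 ∨ p % 5 = 4) :
    ∃ t : ℤ, (p : ℤ) ∣ t ^ 2 - t - 1 := by
  have : Fact p.Prime := ⟨hp⟩
  have : Fact (Nat.Prime 5) := ⟨by norm_num⟩
  have h2 : p ≠ 2 := by rintro rfl; omega
  have h3 : ((p : ℕ) : ZMod 5) = 1 ∨ ((p : ℕ) : ZMod 5) = 4 := by
    rcases h5 with h | h
    · left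
      have := (ZMod.natCast_eq_natCast_iff' p 1 5).2 (by simpa using h)
      simpa using this
    · right
      have := (ZMod.natCast_eq_natCast_iff' p 4 5).2 (by simpa using h)
      simpa using this
  have hs : IsSquare (((p : ℕ) : ZMod 5)) := by
    rcases h3 with h3 | h3
    · rw [h3]; exact is_sq_one
    · rw [h3]; exact is_sq_four
  obtain ⟨s, hs⟩ := (ZMod.exists_sq_eq_prime_iff_of_mod_four_eq_one (p := 5) (q := p)
    (by norm_num) h2).1 hs
  have hs' : (5 : ZMod p) = s * s := by simpa using hs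
  have h20 : (2 : ZMod p) ≠ 0 := by
    intro h
    have : ((2 : ℕ) : ZMod p) = 0 := by exact_mod_cast h
    rw [ZMod.natCast_eq_zero_iff] at this
    exact h2 ((Nat.prime_dvd_prime_iff_eq hp Nat.prime_two).1 this)
  refine ⟨(((1 + s) / 2 : ZMod p).val : ℤ), ?_⟩
  rw [← ZMod.intCast_zmod_eq_zero_iff_dvd]
  push_cast
  rw [ZMod.natCast_zmod_val]
  field_simp
  linear_combination -hs'

theorem DI4_split (p : ℕ) (hp : p.Prime) (h5 : p % 5 = 1 ∨ p % 5 = 4) :
    ∃ π : O5, Pos π ∧ π * star π = (p : O5) := by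
  obtain ⟨T, hT⟩ := exists_root p hp h5
  obtain ⟨d, x, y, s, t, h1, h2, h3⟩ := O5_principal (p : O5) (⟨T, -1⟩ : O5)
  have hdiv : ∀ c : O5, IsUnit c → ∀ e : O5, (p : O5) * e = c → False := by
    intro c hc e he
    have h4 := isUnit_of_mul_isUnit_left (he ▸ hc)
    have h6 := isUnit_iff_norm_isUnit.1 h4
    rw [QuadraticAlgebra.norm_natCast, pow_two] at h6
    exact (Nat.prime_iff_prime_int.1 hp).not_isUnit (isUnit_of_mul_isUnit_left h6)
  have hn : norm d * norm s = (p : ℤ) ^ 2 := by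
    rw [← map_mul, ← h2, QuadraticAlgebra.norm_natCast]
  have hd1 : ¬ IsUnit d := by
    intro hu
    obtain ⟨u, hu⟩ := hu
    obtain ⟨k, hk⟩ := hT
    have h6 : d * (⟨T - 1, 1⟩ : O5) = (p : O5) * (x * ⟨T - 1, 1⟩ + (k : O5) * y) := by
      have h7 : (⟨T, -1⟩ : O5) * ⟨T - 1, 1⟩ = (p : O5) * (k : O5) := by
        ext
        · simp
          linarith
        · simp
      rw [h1]
      linear_combination y * h7
    have h8 : (p : O5) ∣ (⟨T - 1, 1⟩ : O5) := by
      refine ⟨(x * ⟨T - 1, 1⟩ + (k : O5) * y) * ((u⁻¹ : O5ˣ) : O5), ?_⟩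
      calc (⟨T - 1, 1⟩ : O5) = (d * ((u⁻¹ : O5ˣ) : O5)) * ⟨T - 1, 1⟩ := by
            rw [← hu, Units.mul_inv, one_mul]
        _ = (d * ⟨T - 1, 1⟩) * ((u⁻¹ : O5ˣ) : O5) := by ring
        _ = _ := by rw [h6]; ring
    have h9 := ((natCast_dvd_iff p _).1 h8).2
    have h10 : (p : ℤ) ∣ 1 := h9
    exact (Nat.prime_iff_prime_int.1 hp).not_isUnit (isUnit_of_dvd_one h10)
  have hs1 : ¬ IsUnit s := by
    intro hu
    obtain ⟨u, hu⟩ := hu
    have h8 : (p : O5) ∣ (⟨T, -1⟩ : O5) := by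
      refine ⟨((u⁻¹ : O5ˣ) : O5) * t, ?_⟩
      rw [h2, ← hu]
      calc (⟨T, -1⟩ : O5) = d * (((u : O5ˣ) : O5) * ((u⁻¹ : O5ˣ) : O5)) * t := by
            rw [Units.mul_inv, mul_one, ← h3]
        _ = _ := by ring
    have h9 := ((natCast_dvd_iff p _).1 h8).2
    have h10 : (p : ℤ) ∣ -1 := h9
    rw [Int.dvd_neg] at h10
    exact (Nat.prime_iff_prime_int.1 hp).not_isUnit (isUnit_of_dvd_one h10)
  have hna : (norm d).natAbs * (norm s).natAbs = p ^ 2 := by
    rw [← Int.natAbs_mul, hn, Int.natAbs_pow, Int.natAbs_natCast]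
  have hd2 : (norm d).natAbs = p := by
    obtain ⟨j, hj, hj2⟩ := (Nat.dvd_prime_pow hp).1 (Dvd.intro _ hna)
    have hpos := hp.pos
    interval_cases j
    · exfalso
      apply hd1
      rw [isUnit_iff_norm_isUnit, Int.isUnit_iff_natAbs_eq]
      simpa using hj2
    · simpa using hj2
    · exfalso
      apply hs1
      rw [isUnit_iff_norm_isUnit, Int.isUnit_iff_natAbs_eq]
      rw [hj2] at hna
      have : p ^ 2 * (norm s).natAbs = p ^ 2 * 1 := by rw [hna, mul_one]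
      exact Nat.eq_of_mul_eq_mul_left (by positivity) this
  obtain ⟨e, he⟩ : ∃ e : O5, norm e = p := by
    rcases Int.natAbs_eq (norm d) with h | h
    · exact ⟨d, by rw [h, hd2]⟩
    · refine ⟨om * d, ?_⟩
      have h6 : norm om = -1 := by decide
      rw [map_mul, h6, h, hd2]
      ring
  have he0 : 0 < norm e := by rw [he]; exact_mod_cast hp.pos
  have htr : 2 * e.re + e.im ≠ 0 := by
    intro h0
    rw [norm_O5] at he0
    nlinarith [sq_nonneg e.im, sq_nonneg e.re, sq_nonneg (e.re + e.im)]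
  rcases lt_or_gt_of_ne htr with h | h
  · refine ⟨-e, Pos_of (by rw [QuadraticAlgebra.norm_neg]; exact he0) ?_, ?_⟩
    · simp only [QuadraticAlgebra.re_neg, QuadraticAlgebra.im_neg]
      linarith
    · rw [mul_star_norm, QuadraticAlgebra.norm_neg, he, Int.cast_natCast]
  · exact ⟨e, Pos_of he0 h, by rw [mul_star_norm, he, Int.cast_natCast]⟩

end H53M
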