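import Pool.Agent.Lib.H53M.DO

/-!
# H53M, module D, DP: `φ(1) ≠ 0` for the six weights
-/

namespace H53M

open QuadraticAlgebra Ico

/-- The vectors of norm 5 of `L` with the value of `ψ`. -/
def tabP : List ((ℤ × ℤ × ℤ × ℤ) × ℤ) := [
  ((-4, -2, 1, 3), -1), ((-4, -1, 0, 3), 1), ((-4, -1, 1, 2), 1), ((-4, 1, -1, 2), -1),
  ((-4, 1, 0, 1), -1), ((-4, 2, -1, 1), 1), ((-3, -3, 1, 3), 1), ((-3, -3, 2, 3), 1),
  ((-3, -2, 0, 3), -1), ((-3, -2, 2, 2), -1), ((-3, -1, 0, 3), -1), ((-3, -1, 1, 1), -1),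
  ((-3, 1, -1, 2), 1), ((-3, 1, 0, 0), 1), ((-3, 2, -2, 1), 1), ((-3, 2, 0, 0), 1),
  ((-3, 3, -2, 0), -1), ((-3, 3, -1, 0), -1), ((-2, -4, 2, 3), -1), ((-2, -3, 1, 2), -1),
  ((-2, -3, 2, 3), -1), ((-2, -2, 0, 3), 1), ((-2, -2, 1, 1), 1), ((-2, -2, 1, 3), 1),
  ((-2, -2, 2, 1), 1), ((-2, -1, -1, 2), 1), ((-2, -1, 2, 1), 1), ((-2, 1, -2, 1), -1),
  ((-2, 1, 1, 0), -1), ((-2, 2, -2, 1), -1), ((-2, 2, -1, -1), -1), ((-2, 2, -1, 1), -1),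
  ((-2, 2, 0, -1), -1), ((-2, 3, -2, -1), 1), ((-2, 3, -1, 0), 1), ((-2, 4, -2, -1), 1),
  ((-1, -4, 2, 2), 1), ((-1, -4, 2, 3), 1), ((-1, -3, 1, 3), -1), ((-1, -3, 2, 1), -1),
  ((-1, -2, 0, 1), 1), ((-1, -2, 2, 2), 1), ((-1, -1, -1, 1), -1), ((-1, -1, -1, 2), -1),
  ((-1, -1, 0, 0), -1), ((-1, -1, 1, 2), -1), ((-1, -1, 2, 0), -1), ((-1, -1, 2, 1), -1),
  ((-1, 1, -2, 0), 1), ((-1, 1, -2, 1), 1), ((-1, 1, -1, -1), 1), ((-1, 1, 0, 1), 1),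
  ((-1, 1, 1, -1), 1), ((-1, 1, 1, 0), 1), ((-1, 2, -2, -1), -1), ((-1, 2, 0, 0), -1),
  ((-1, 3, -2, 0), 1), ((-1, 3, -1, -2), 1), ((-1, 4, -2, -2), -1), ((-1, 4, -2, -1), -1),
  ((1, -4, 2, 1), -1), ((1, -4, 2, 2), -1), ((1, -3, 1, 2), 1), ((1, -3, 2, 0), 1),
  ((1, -2, 0, 0), -1), ((1, -2, 2, 1), -1), ((1, -1, -1, 0), 1), ((1, -1, -1, 1), 1),
  ((1, -1, 0, -1), 1), ((1, -1, 1, 1), 1), ((1, -1, 2, -1), 1), ((1, -1, 2, 0), 1),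
  ((1, 1, -2, -1), -1), ((1, 1, -2, 0), -1), ((1, 1, -1, -2), -1), ((1, 1, 0, 0), -1),
  ((1, 1, 1, -2), -1), ((1, 1, 1, -1), -1), ((1, 2, -2, -2), 1), ((1, 2, 0, -1), 1),
  ((1, 3, -2, -1), -1), ((1, 3, -1, -3), -1), ((1, 4, -2, -3), 1), ((1, 4, -2, -2), 1),
  ((2, -4, 2, 1), 1), ((2, -3, 1, 0), 1), ((2, -3, 2, 1), 1), ((2, -2, 0, 1), -1),
  ((2, -2, 1, -1), -1), ((2, -2, 1, 1), -1), ((2, -2, 2, -1), -1), ((2, -1, -1, 0), -1),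
  ((2, -1, 2, -1), -1), ((2, 1, -2, -1), 1), ((2, 1, 1, -2), 1), ((2, 2, -2, -1), 1),
  ((2, 2, -1, -3), 1), ((2, 2, -1, -1), 1), ((2, 2, 0, -3), 1), ((2, 3, -2, -3), -1),
  ((2, 3, -1, -2), -1), ((2, 4, -2, -3), -1), ((3, -3, 1, 0), -1), ((3, -3, 2, 0), -1),
  ((3, -2, 0, 0), 1), ((3, -2, 2, -1), 1), ((3, -1, 0, 0), 1), ((3, -1, 1, -2), 1),
  ((3, 1, -1, -1), -1), ((3, 1, 0, -3), -1), ((3, 2, -2, -2), -1), ((3, 2, 0, -3), -1),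
  ((3, 3, -2, -3), 1), ((3, 3, -1, -3), 1), ((4, -2, 1, -1), 1), ((4, -1, 0, -1), -1),
  ((4, -1, 1, -2), -1), ((4, 1, -1, -2), 1), ((4, 1, 0, -3), 1), ((4, 2, -1, -3), -1)]

theorem tabP_fst : tabP.map Prod.fst = tabO.map Prod.fst := by
  decide +kernel

theorem tabP_nodup : (tabP.map Prod.fst).Nodup := by
  decide +kernel

theorem tabP_psi : ∀ t ∈ tabP, psi (lp t.1.1 t.1.2.1 t.1.2.2.1 t.1.2.2.2) = t.2 ∧
    nL t.1.1 t.1.2.1 t.1.2.2.1 t.1.2.2.2 = 5 := by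
  decide +kernel

theorem L5_eq : L5 = (tabP.map Prod.fst).toFinset := by
  ext ⟨A, D, e, f⟩
  rw [mem_L5', List.mem_toFinset, lp_N, show (5 : O5) = ⟨5, 0⟩ by decide,
    QuadraticAlgebra.mk.injEq]
  constructor
  · intro h
    obtain ⟨h1, h2, h3, h4⟩ := nL_small h.1
    rw [tabP_fst]
    exact tabO_complete A (mem_rg9 h1.1 h1.2) D (mem_rg9 h2.1 h2.2) e (mem_rg9 h3.1 h3.2) f
      (mem_rg11 h4.1 h4.2) h.1
  · intro h
    rw [List.mem_map] at h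
    obtain ⟨t, ht, htt⟩ := h
    have h2 := (tabP_psi t ht).2
    rw [htt] at h2
    exact ⟨h2, rfl⟩

/-- multiplication by `(a + b ω) + (c + d ω) i` -/
def qs (a b c d : ℤ) : ℤ × ℤ × ℤ × ℤ → ℤ × ℤ × ℤ × ℤ
  | (p, q, r, s) => (p * a + q * b - r * c - s * d,
      p * b + q * a + q * b - r * d - s * c - s * d,
      p * c + q * d + r * a + s * b,
      p * d + q * c + q * d + r * b + s * a + s * b)

/-- powers of `(a + b ω) + (c + d ω) i` -/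
def qp (a b c d : ℤ) : ℕ → ℤ × ℤ × ℤ × ℤ
  | 0 => (1, 0, 0, 0)
  | n + 1 => qs a b c d (qp a b c d n)

theorem qp_eq (a b c d : ℤ) (n : ℕ) : ((⟨⟨a, b⟩, ⟨c, d⟩⟩ : O5i) ^ n) =
    ⟨⟨(qp a b c d n).1, (qp a b c d n).2.1⟩, ⟨(qp a b c d n).2.2.1, (qp a b c d n).2.2.2⟩⟩ := by
  induction n with
  | zero => rfl
  | succ n ih =>
    rw [pow_succ, ih, qp]
    obtain ⟨p, q, r, s⟩ := qp a b c d n
    simp only [qs]
    ext <;> simp <;> ring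

theorem ell_lp (A D e f : ℤ) : ell (lp A D e f) =
    ⟨⟨-3 * D - 2 * e - 2 * f, A + D + 2 * f⟩, ⟨-A - 2 * f, 2 * A + 2 * D + 4 * f⟩⟩ := by
  have h3 : (2 : O5) = ⟨2, 0⟩ := by decide
  have h4 : om ^ 2 = ⟨1, 1⟩ := by decide
  simp only [lp, ell, h4]
  ext <;> simp [om, h3] <;> ring

/-- `P` on `L` -/
def PN (d : ℕ) (A D e f : ℤ) : ℤ :=
  let v := qp (-3 * D - 2 * e - 2 * f) (A + D + 2 * f) (-A - 2 * f) (2 * A + 2 * D + 4 * f) d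
  2 * v.1 + v.2.1

theorem PP_lp (d : ℕ) (A D e f : ℤ) : PP d (lp A D e f) = PN d A D e f := by
  rw [PP, ell_lp, qp_eq, PN]
  simp [QuadraticAlgebra.trace]

theorem phi_one_eq (k : ℕ) : phi k 1 =
    (tabP.map fun t ↦ t.2 * PN (k - 2) t.1.1 t.1.2.1 t.1.2.2.1 t.1.2.2.2).sum := by
  unfold phi
  rw [L5_eq, List.sum_toFinset _ tabP_nodup, List.map_map]
  congr 1
  apply List.map_congr_left
  intro t ht
  simp only [Function.comp]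
  rw [(tabP_psi t ht).1, st_one, one_mul, mul_one, PP_lp]

theorem phi_one_12 : phi 12 1 = 17011814400 := by
  rw [phi_one_eq]
  decide +kernel

theorem phi_one_16 : phi 16 1 = 9754282137600 := by
  rw [phi_one_eq]
  decide +kernel

theorem phi_one_18 : phi 18 1 = -1187285299200000 := by
  rw [phi_one_eq]
  decide +kernel

theorem phi_one_20 : phi 20 1 = -1917889195622400 := by
  rw [phi_one_eq]
  decide +kernel

theorem phi_one_22 : phi 22 1 = -4522439900160000000 := by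
  rw [phi_one_eq]
  decide +kernel

theorem phi_one_26 : phi 26 1 = 15479325762575431680000 := by
  rw [phi_one_eq]
  decide +kernel

/-- **`phi_one`** -/
theorem phi_one (k a b : ℕ) (h : IsSix k a b) : phi k 1 ≠ 0 := by
  obtain ⟨rfl, h⟩ := h
  rcases h with h | h | h | h | h | h <;> obtain ⟨rfl, rfl⟩ := Prod.mk.inj h
  · rw [show 12 + 4 * 0 + 6 * 0 = 12 from rfl, phi_one_12]
    norm_num
  · rw [show 12 + 4 * 1 + 6 * 0 = 16 from rfl, phi_one_16]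
    norm_num
  · rw [show 12 + 4 * 0 + 6 * 1 = 18 from rfl, phi_one_18]
    norm_num
  · rw [show 12 + 4 * 2 + 6 * 0 = 20 from rfl, phi_one_20]
    norm_num
  · rw [show 12 + 4 * 1 + 6 * 1 = 22 from rfl, phi_one_22]
    norm_num
  · rw [show 12 + 4 * 2 + 6 * 1 = 26 from rfl, phi_one_26]
    norm_num

end H53M
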