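import Pool.Agent.Lib.H53M.D45
import Pool.Agent.Lib.H53M.DI4
import Pool.Agent.Lib.H53M.DP

/-!
# H53M, module D, DFin: all facts on the icosian ring used by module H
-/

namespace H53M

open QuadraticAlgebra Ico

/-- **Module D.** -/
theorem dFacts : DFacts where
  fin := DI1_fin
  fin2 := DI1_fin2
  count := DI1_count
  pos := DI1_pos
  fixed _ h := lq_surj h
  lq_fixed _ := lp_st _ _ _ _
  lq_inj := lq_inj
  lq_norm := lq_norm
  mem_L5 := mem_L5'
  psi_conj y _ hz hy := psi_conj hz y hy
  psi_smul n z _ := psi_smul n z
  psi_supp _ h := psi_supp h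
  left_ex := left_ex
  left_un π x y z y' z' hpr _ := left_un π x y z y' z' hpr
  right_ex := right_ex
  right_un π x y z y' z' hpr _ := right_un π x y z y' z' hpr
  d5_split := d5_split DI4_prime_split
  d5_inert := d5_inert DI4_prime_inert
  orbit := orbit
  split := DI4_split
  prime_split := DI4_prime_split
  prime_inert := DI4_prime_inert
  inert_dvd := DI4_inert_dvd
  phi_one := phi_one

end H53M
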