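import Pool.Agent.Lib.H53M.HDefs

/-!
# H53M, module D, part DI1: coordinates, finiteness, positivity of the norm
-/

namespace H53M

open QuadraticAlgebra

/-- `2x = cA + cB i + c j + d k`. -/
def cA (x : Ico) : O5 := 2 * x.a + om * x.c + om ^ 2 * x.d
/-- the coefficient of `i` -/
def cB (x : Ico) : O5 := 2 * x.b + om ^ 2 * x.c + om * x.d

theorem O5_cancel_two {a b : O5} (h : 2 * a = 2 * b) : a = b := by
  rw [two_mul, two_mul] at h
  have h1 := congrArg QuadraticAlgebra.re h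
  have h2 := congrArg QuadraticAlgebra.im h
  simp only [QuadraticAlgebra.re_add, QuadraticAlgebra.im_add] at h1 h2
  ext <;> omega

theorem DI1_ext {x y : Ico} (hA : cA x = cA y) (hB : cB x = cB y) (hc : x.c = y.c)
    (hd : x.d = y.d) : x = y := by
  unfold cA at hA
  unfold cB at hB
  rw [hc, hd] at hA hB
  have h1 := O5_cancel_two (add_right_cancel (add_right_cancel hA))
  have h2 := O5_cancel_two (add_right_cancel (add_right_cancel hB))
  exact Ico.ext h1 h2 hc hd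

theorem four_N (x : Ico) : 4 * x.N = cA x ^ 2 + cB x ^ 2 + x.c ^ 2 + x.d ^ 2 := by
  have h := Ico.om_sq
  simp only [Ico.N, cA, cB]
  linear_combination (-(om ^ 2 + om - 1) * (x.c ^ 2 + x.d ^ 2)) * h

/-- the quadratic form `(a₀ + a₁)² + a₁²` on `O5` -/
def qf (a : O5) : ℤ := (a.re + a.im) ^ 2 + a.im ^ 2

theorem qf_sq (a : O5) : (a ^ 2).re + (a ^ 2).im = qf a := by
  simp [pow_two, qf]
  ring

theorem qf_nonneg (a : O5) : 0 ≤ qf a := by unfold qf; positivity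

theorem four_n (x : Ico) : 4 * (x.N.re + x.N.im) = qf (cA x) + qf (cB x) + qf x.c + qf x.d := by
  have h := four_N x
  have e : (4 : O5) * x.N = x.N + x.N + x.N + x.N := by ring
  rw [e] at h
  have h1 := congrArg QuadraticAlgebra.re h
  have h2 := congrArg QuadraticAlgebra.im h
  simp only [QuadraticAlgebra.re_add, QuadraticAlgebra.im_add] at h1 h2
  rw [← qf_sq, ← qf_sq, ← qf_sq, ← qf_sq]
  linarith

/-! ### Finiteness and counting -/

/-- the coordinates of `2x` -/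
def cv (x : Ico) : Fin 8 → ℤ :=
  ![(cA x).re + (cA x).im, (cA x).im, (cB x).re + (cB x).im, (cB x).im,
    x.c.re + x.c.im, x.c.im, x.d.re + x.d.im, x.d.im]

theorem O5_ext' {a b : O5} (h1 : a.re + a.im = b.re + b.im) (h2 : a.im = b.im) : a = b := by
  ext
  · omega
  · exact h2

theorem cv_injective : Function.Injective cv := by
  intro x y h
  have h0 := congrFun h 0
  have h1 := congrFun h 1
  have h2 := congrFun h 2
  have h3 := congrFun h 3
  have h4 := congrFun h 4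
  have h5 := congrFun h 5
  have h6 := congrFun h 6
  have h7 := congrFun h 7
  exact DI1_ext (O5_ext' h0 h1) (O5_ext' h2 h3) (O5_ext' h4 h5) (O5_ext' h6 h7)

theorem cv_sq_le (x : Ico) (i : Fin 8) : cv x i ^ 2 ≤ 4 * (x.N.re + x.N.im) := by
  rw [four_n]
  unfold qf
  have e : ∀ a b c d e f g h : ℤ, ∀ i : Fin 8, (![a, b, c, d, e, f, g, h] : Fin 8 → ℤ) i ^ 2 ≤
      (a ^ 2 + b ^ 2) + (c ^ 2 + d ^ 2) + (e ^ 2 + f ^ 2) + (g ^ 2 + h ^ 2) := by
    intro a b c d e f g h i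
    have := sq_nonneg a
    have := sq_nonneg b
    have := sq_nonneg c
    have := sq_nonneg d
    have := sq_nonneg e
    have := sq_nonneg f
    have := sq_nonneg g
    have := sq_nonneg h
    fin_cases i <;> simp <;> linarith
  exact e _ _ _ _ _ _ _ _ i

theorem cv_mem (x : Ico) (n : ℤ) (M : ℕ) (hn : 4 * n < ((M : ℤ) + 1) ^ 2)
    (hx : x.N.re + x.N.im = n) :
    cv x ∈ Fintype.piFinset (fun _ : Fin 8 => Finset.Icc (-(M : ℤ)) M) := by
  rw [Fintype.mem_piFinset]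
  intro i
  rw [Finset.mem_Icc]
  have h := cv_sq_le x i
  rw [hx] at h
  have h2 : cv x i ^ 2 < ((M : ℤ) + 1) ^ 2 := lt_of_le_of_lt h hn
  have h3 := abs_lt_of_sq_lt_sq h2 (by positivity)
  rw [abs_lt] at h3
  constructor <;> omega

theorem DI1_fin2 (n : ℤ) : {x : Ico | x.N.re + x.N.im = n}.Finite := by
  have h1 : 4 * n < (((4 * n).toNat : ℤ) + 1) ^ 2 := by
    have := Int.self_le_toNat (4 * n)
    have h0 : (0 : ℤ) ≤ ((4 * n).toNat : ℤ) := Int.natCast_nonneg _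
    nlinarith
  exact Set.Finite.of_injOn (fun x hx => cv_mem x n _ h1 hx) cv_injective.injOn
    (Finset.finite_toSet _)

theorem DI1_fin (α : O5) : (IN α).Finite := by
  refine (DI1_fin2 (α.re + α.im)).subset fun x hx => ?_
  have h : x.N = α := hx
  simp [h]

theorem DI1_count : ∃ C : ℝ, ∀ n : ℕ, 1 ≤ n →
    ({x : Ico | x.N.re + x.N.im = (n : ℤ)}.ncard : ℝ) ≤ C * (n : ℝ) ^ 4 := by
  refine ⟨3 ^ 8 * 4 ^ 4, fun n hn => ?_⟩
  have h1 : 4 * (n : ℤ) < ((Nat.sqrt (4 * n) : ℤ) + 1) ^ 2 := by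
    have := Nat.lt_succ_sqrt (4 * n)
    rw [Nat.succ_eq_add_one, ← pow_two] at this
    exact_mod_cast this
  have h2 : {x : Ico | x.N.re + x.N.im = (n : ℤ)}.ncard ≤ (2 * Nat.sqrt (4 * n) + 1) ^ 8 := by
    have h3 := Set.ncard_le_ncard_of_injOn (s := {x : Ico | x.N.re + x.N.im = (n : ℤ)})
      (t := ↑(Fintype.piFinset (fun _ : Fin 8 => Finset.Icc (-(Nat.sqrt (4 * n) : ℤ))
        (Nat.sqrt (4 * n) : ℤ)))) cv (fun x hx => cv_mem x n _ h1 hx) cv_injective.injOn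
      (Finset.finite_toSet _)
    rw [Set.ncard_coe_finset, Fintype.card_piFinset_const, Int.card_Icc] at h3
    have h4 : ((Nat.sqrt (4 * n) : ℤ) + 1 - -(Nat.sqrt (4 * n) : ℤ)).toNat
        = 2 * Nat.sqrt (4 * n) + 1 := by omega
    rwa [h4] at h3
  have h3 : (2 * Nat.sqrt (4 * n) + 1) ^ 8 ≤ 3 ^ 8 * 4 ^ 4 * n ^ 4 := by
    have h5 : 1 ≤ Nat.sqrt (4 * n) := by
      rw [Nat.le_sqrt]
      omega
    have h6 : Nat.sqrt (4 * n) * Nat.sqrt (4 * n) ≤ 4 * n := Nat.sqrt_le _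
    calc (2 * Nat.sqrt (4 * n) + 1) ^ 8 ≤ (3 * Nat.sqrt (4 * n)) ^ 8 :=
          Nat.pow_le_pow_left (by omega) 8
      _ = 3 ^ 8 * (Nat.sqrt (4 * n) * Nat.sqrt (4 * n)) ^ 4 := by ring
      _ ≤ 3 ^ 8 * (4 * n) ^ 4 := Nat.mul_le_mul_left _ (Nat.pow_le_pow_left h6 4)
      _ = _ := by ring
  calc ({x : Ico | x.N.re + x.N.im = (n : ℤ)}.ncard : ℝ)
      ≤ (((2 * Nat.sqrt (4 * n) + 1) ^ 8 : ℕ) : ℝ) := by exact_mod_cast h2
    _ ≤ ((3 ^ 8 * 4 ^ 4 * n ^ 4 : ℕ) : ℝ) := by exact_mod_cast h3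
    _ = _ := by push_cast; ring

/-! ### Positivity -/

theorem sqrt5_lin {u v : ℤ} (h : (u : ℝ) + v * Real.sqrt 5 = 0) : u = 0 ∧ v = 0 := by
  have h5 : Irrational (Real.sqrt 5) := by
    have := Nat.Prime.irrational_sqrt (show Nat.Prime 5 by norm_num)
    simpa using this
  have hv : v = 0 := by
    by_contra hv
    apply h5
    refine ⟨-(u : ℚ) / v, ?_⟩
    have hv' : (v : ℝ) ≠ 0 := by exact_mod_cast hv
    push_cast
    rw [div_eq_iff hv']
    linarith
  refine ⟨?_, hv⟩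
  rw [hv] at h
  simpa using h

theorem f1_apply (a : O5) : f1 a = a.re + a.im * ((1 + Real.sqrt 5) / 2) := rfl

theorem f2_apply (a : O5) : f2 a = a.re + a.im * ((1 - Real.sqrt 5) / 2) := rfl

theorem f1_ne {a : O5} (h : a ≠ 0) : f1 a ≠ 0 := by
  intro h0
  rw [f1_apply] at h0
  have h1 : ((2 * a.re + a.im : ℤ) : ℝ) + (a.im : ℤ) * Real.sqrt 5 = 0 := by
    push_cast
    linarith
  obtain ⟨h2, h3⟩ := sqrt5_lin h1
  apply h
  ext
  · simp only [QuadraticAlgebra.re_zero]; omega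
  · simp only [QuadraticAlgebra.im_zero]; omega

theorem f2_ne {a : O5} (h : a ≠ 0) : f2 a ≠ 0 := by
  intro h0
  rw [f2_apply] at h0
  have h1 : ((2 * a.re + a.im : ℤ) : ℝ) + ((-a.im : ℤ) : ℝ) * Real.sqrt 5 = 0 := by
    push_cast
    linarith
  obtain ⟨h2, h3⟩ := sqrt5_lin h1
  apply h
  ext
  · simp only [QuadraticAlgebra.re_zero]; omega
  · simp only [QuadraticAlgebra.im_zero]; omega

theorem pos_of_hom (φ : O5 →+* ℝ) (hφ : ∀ a : O5, a ≠ 0 → φ a ≠ 0) (x : Ico) (hx : x ≠ 0) :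
    0 < φ x.N := by
  have h := congrArg φ (four_N x)
  have h4 : φ 4 = 4 := map_ofNat φ 4
  simp only [map_mul, map_add, map_pow, h4] at h
  by_contra hn
  have hA := sq_nonneg (φ (cA x))
  have hB := sq_nonneg (φ (cB x))
  have hc := sq_nonneg (φ x.c)
  have hd := sq_nonneg (φ x.d)
  have key : ∀ a : O5, φ a ^ 2 ≤ 0 → a = 0 := by
    intro a ha
    by_contra ha0
    have := hφ a ha0
    have := sq_nonneg (φ a)
    exact (hφ a ha0) (pow_eq_zero_iff (two_ne_zero) |>.1 (le_antisymm ha this))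
  apply hx
  apply DI1_ext
  · rw [key (cA x) (by linarith)]; rfl
  · rw [key (cB x) (by linarith)]; rfl
  · rw [key x.c (by linarith)]; rfl
  · rw [key x.d (by linarith)]; rfl

/-- norms are totally positive -/
theorem DI1_pos (x : Ico) (hx : x ≠ 0) : Pos x.N :=
  ⟨pos_of_hom f1 (fun _ h => f1_ne h) x hx, pos_of_hom f2 (fun _ h => f2_ne h) x hx⟩

theorem N_ne {x : Ico} (hx : x ≠ 0) : x.N ≠ 0 := by
  intro h
  have := (DI1_pos x hx).1
  rw [h, map_zero] at this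
  exact lt_irrefl _ this

end H53M
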