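import Pool.Agent.Lib.H53M.DI1

/-!
# H53M, module D, part DI2: right ideals of the icosian ring with two generators are principal
-/

namespace H53M

open QuadraticAlgebra

/-! ### A general lemma -/

/-- Division with remainder implies that `x R + y R` is principal. -/
theorem principal_of_div {R : Type*} [Ring R] (μ : R → ℕ)
    (hdiv : ∀ x y : R, y ≠ 0 → ∃ q, μ (x - y * q) < μ y) (x y : R) :
    ∃ d a b s t : R, d = x * a + y * b ∧ x = d * s ∧ y = d * t := by
  suffices H : ∀ n : ℕ, ∀ x y : R, μ y < n →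
      ∃ d a b s t : R, d = x * a + y * b ∧ x = d * s ∧ y = d * t from H _ x y (Nat.lt_succ_self _)
  intro n
  induction n with
  | zero => intro x y h; exact absurd h (Nat.not_lt_zero _)
  | succ n ih =>
    intro x y h
    rcases eq_or_ne y 0 with hy | hy
    · exact ⟨x, 1, 0, 1, 0, by simp, by simp, by simp [hy]⟩
    · obtain ⟨q, hq⟩ := hdiv x y hy
      obtain ⟨d, a, b, s, t, h1, h2, h3⟩ := ih y (x - y * q) (by omega)
      refine ⟨d, b, a - q * b, s * q + t, s, ?_, ?_, h2⟩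
      · rw [h1]; noncomm_ring
      · rw [mul_add, ← mul_assoc, ← h2, ← h3]; abel

/-! ### The norm of `O5` -/

theorem norm_O5 (a : O5) : norm a = a.re ^ 2 + a.re * a.im - a.im ^ 2 := by
  rw [norm_def]; ring

theorem f1_mul_f2 (a : O5) : f1 a * f2 a = norm a := by
  rw [f1_apply, f2_apply, norm_O5]
  have h : Real.sqrt 5 ^ 2 = 5 := Real.sq_sqrt (by norm_num)
  push_cast
  linear_combination (-(a.im : ℝ) ^ 2 / 4) * h

theorem norm_ne {a : O5} (h : a ≠ 0) : norm a ≠ 0 := by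
  intro h0
  have h1 := f1_mul_f2 a
  rw [h0, Int.cast_zero] at h1
  exact mul_ne_zero (f1_ne h) (f2_ne h) h1

theorem norm_pos_of_Pos {a : O5} (h : Pos a) : 0 < norm a := by
  have h1 := f1_mul_f2 a
  have h2 := mul_pos h.1 h.2
  rw [h1] at h2
  exact_mod_cast h2

theorem four_norm_le (a : O5) : 4 * norm a ≤ 5 * (a.re + a.im) ^ 2 := by
  rw [norm_O5]
  nlinarith [sq_nonneg (a.re + 3 * a.im)]

theorem norm_N_nonneg (x : Ico) : 0 ≤ norm x.N := by
  rcases eq_or_ne x 0 with h | h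
  · have h0 : (0 : Ico).N = 0 := by decide
    rw [h, h0, QuadraticAlgebra.norm_zero]
  · exact (norm_pos_of_Pos (DI1_pos x h)).le

/-! ### Coordinates -/

/-- the parity conditions on the coordinates of `2x` -/
def Cd (w : Fin 8 → ℤ) : Prop :=
  2 ∣ w 0 - w 1 - w 5 - w 6 ∧ 2 ∣ w 1 - w 4 - w 6 - w 7 ∧ 2 ∣ w 2 - w 3 - w 4 - w 7 ∧
    2 ∣ w 3 - w 4 - w 5 - w 6

theorem exists_of_Cd {w : Fin 8 → ℤ} (h : Cd w) : ∃ q : Ico, cv q = w := by
  obtain ⟨⟨a0, h0⟩, ⟨a1, h1⟩, ⟨b0, h2⟩, ⟨b1, h3⟩⟩ := h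
  refine ⟨⟨⟨a0, a1⟩, ⟨b0, b1⟩, ⟨w 4 - w 5, w 5⟩, ⟨w 6 - w 7, w 7⟩⟩, ?_⟩
  funext i
  fin_cases i <;> simp [cv, cA, cB, om, pow_two] <;> omega

theorem cv_sub_mul (z q : Ico) (m : ℤ) (i : Fin 8) :
    cv (z - Ico.ofO (m : O5) * q) i = cv z i - m * cv q i := by
  rw [Ico.ofO_mul]
  fin_cases i <;> simp [cv, cA, cB, om, pow_two] <;> ring

theorem four_n_cv (x : Ico) : 4 * (x.N.re + x.N.im) = ∑ i, cv x i ^ 2 := by
  rw [four_n, Fin.sum_univ_eight]
  simp only [cv, qf]
  simp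
  ring

/-- Fixing the parities by changing at most two coordinates. -/
theorem fix_Cd (p q : Fin 8 → ℤ) (h : ∀ i, (q i - p i) % 2 = 1) :
    ∃ F : Finset (Fin 8), F.card ≤ 2 ∧ Cd (fun i => if i ∈ F then q i else p i) := by
  have h0 := h 0
  have h1 := h 1
  have h2 := h 2
  have h3 := h 3
  have h4 := h 4
  have h5 := h 5
  have h6 := h 6
  have h7 := h 7
  unfold Cd
  rcases Int.emod_two_eq_zero_or_one (p 0 - p 1 - p 5 - p 6) with s1 | s1 <;>
  rcases Int.emod_two_eq_zero_or_one (p 1 - p 4 - p 6 - p 7) with s2 | s2 <;>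
  rcases Int.emod_two_eq_zero_or_one (p 2 - p 3 - p 4 - p 7) with s3 | s3 <;>
  rcases Int.emod_two_eq_zero_or_one (p 3 - p 4 - p 5 - p 6) with s4 | s4
  · exact ⟨∅, by decide, by simp; omega⟩
  · exact ⟨{0, 5}, by decide, by simp; omega⟩
  · exact ⟨{2}, by decide, by simp; omega⟩
  · exact ⟨{3}, by decide, by simp; omega⟩
  · exact ⟨{0, 1}, by decide, by simp; omega⟩
  · exact ⟨{0, 6}, by decide, by simp; omega⟩
  · exact ⟨{7}, by decide, by simp; omega⟩
  · exact ⟨{4}, by decide, by simp; omega⟩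
  · exact ⟨{0}, by decide, by simp; omega⟩
  · exact ⟨{5}, by decide, by simp; omega⟩
  · exact ⟨{0, 2}, by decide, by simp; omega⟩
  · exact ⟨{0, 3}, by decide, by simp; omega⟩
  · exact ⟨{1}, by decide, by simp; omega⟩
  · exact ⟨{6}, by decide, by simp; omega⟩
  · exact ⟨{0, 7}, by decide, by simp; omega⟩
  · exact ⟨{0, 4}, by decide, by simp; omega⟩

/-- Rounding of one coordinate, with second choice. -/
theorem round1 (v m : ℤ) (hm : 0 < m) : ∃ p q : ℤ, (q - p) % 2 = 1 ∧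
    4 * (v - m * p) ^ 2 ≤ m ^ 2 ∧ (v - m * q) ^ 2 ≤ m ^ 2 := by
  obtain ⟨p, hp⟩ : ∃ p : ℤ, |2 * (v - m * p)| ≤ m := by
    refine ⟨(2 * v + m) / (2 * m), ?_⟩
    have h1 := Int.emod_nonneg (2 * v + m) (show 2 * m ≠ 0 by omega)
    have h2 := Int.emod_lt_of_pos (2 * v + m) (show 0 < 2 * m by omega)
    have h3 := Int.mul_ediv_add_emod (2 * v + m) (2 * m)
    rw [abs_le]
    constructor <;> nlinarith
  rw [abs_le] at hp
  rcases le_total 0 (v - m * p) with h | h
  · refine ⟨p, p + 1, by omega, ?_, ?_⟩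
    · nlinarith
    · have e : v - m * (p + 1) = (v - m * p) - m := by ring
      rw [e]
      nlinarith
  · refine ⟨p, p - 1, by omega, ?_, ?_⟩
    · nlinarith
    · have e : v - m * (p - 1) = (v - m * p) + m := by ring
      rw [e]
      nlinarith

theorem round8 (z : Ico) (m : ℤ) (hm : 0 < m) : ∃ q : Ico,
    8 * ((z - Ico.ofO (m : O5) * q).N.re + (z - Ico.ofO (m : O5) * q).N.im) ≤ 7 * m ^ 2 := by
  choose p q hpq hp hq using fun i : Fin 8 => round1 (cv z i) m hm
  obtain ⟨F, hF, hC⟩ := fix_Cd p q hpq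
  obtain ⟨y, hy⟩ := exists_of_Cd hC
  refine ⟨y, ?_⟩
  have h1 := four_n_cv (z - Ico.ofO (m : O5) * y)
  have h2 : ∀ i, 4 * (cv (z - Ico.ofO (m : O5) * y) i) ^ 2 ≤
      m ^ 2 + if i ∈ F then 3 * m ^ 2 else 0 := by
    intro i
    rw [cv_sub_mul, hy]
    by_cases hi : i ∈ F
    · simp only [hi, if_true]
      have := hq i
      linarith
    · simp only [hi, if_false]
      have := hp i
      linarith
  have h3 := Finset.sum_le_sum (s := Finset.univ) fun i _ => h2 i
  rw [← Finset.mul_sum, ← h1, Finset.sum_add_distrib, Finset.sum_ite_mem, Finset.univ_inter,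
    Finset.sum_const, Finset.sum_const, Finset.card_univ, Fintype.card_fin] at h3
  have h4 : (F.card : ℤ) * (3 * m ^ 2) ≤ 2 * (3 * m ^ 2) :=
    mul_le_mul_of_nonneg_right (by exact_mod_cast hF) (by positivity)
  simp only [nsmul_eq_mul] at h3
  push_cast at h3
  linarith

theorem round_norm (z : Ico) (m : ℤ) (hm : 0 < m) : ∃ q : Ico,
    norm (z - Ico.ofO (m : O5) * q).N < m ^ 4 := by
  obtain ⟨q, hq⟩ := round8 z m hm
  refine ⟨q, ?_⟩
  have h1 := four_norm_le (z - Ico.ofO (m : O5) * q).N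
  have h0 : 0 ≤ 4 * ((z - Ico.ofO (m : O5) * q).N.re + (z - Ico.ofO (m : O5) * q).N.im) := by
    rw [four_n_cv]
    exact Finset.sum_nonneg fun i _ => sq_nonneg _
  generalize (z - Ico.ofO (m : O5) * q).N.re + (z - Ico.ofO (m : O5) * q).N.im = n at *
  have h2 : (8 * n) ^ 2 ≤ (7 * m ^ 2) ^ 2 := pow_le_pow_left₀ (by linarith) hq 2
  have h3 : 0 < m ^ 4 := by positivity
  nlinarith

/-! ### Division -/

/-- the size of an icosian -/
def mu (x : Ico) : ℕ := (norm x.N).toNat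

theorem ofO_intCast (m : ℤ) (x : Ico) : (Ico.ofO (m : O5)) * x = x * Ico.ofO (m : O5) :=
  (Ico.mul_ofO _ _).symm

theorem mul_star_norm (M : O5) : M * star M = ((norm M : ℤ) : O5) := by
  have := algebraMap_norm_eq_mul_star M
  rw [← this]
  rfl

theorem N_ofO (r : O5) : (Ico.ofO r).N = r ^ 2 := by
  simp [Ico.N]

theorem Ico_div (x y : Ico) (hy : y ≠ 0) : ∃ q, mu (x - y * q) < mu y := by
  have hm : 0 < norm y.N := norm_pos_of_Pos (DI1_pos y hy)
  obtain ⟨q, hq⟩ := round_norm (Ico.bar y * x * Ico.ofO (star y.N)) (norm y.N) hm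
  refine ⟨q, ?_⟩
  generalize hmm : norm y.N = m at *
  have e1 : y * (Ico.bar y * x * Ico.ofO (star y.N)) = Ico.ofO (m : O5) * x := by
    calc y * (Ico.bar y * x * Ico.ofO (star y.N))
        = (y * Ico.bar y) * (x * Ico.ofO (star y.N)) := by simp only [mul_assoc]
      _ = Ico.ofO y.N * (Ico.ofO (star y.N) * x) := by rw [Ico.mul_bar, Ico.mul_ofO]
      _ = Ico.ofO (y.N * star y.N) * x := by rw [map_mul, mul_assoc]
      _ = _ := by rw [mul_star_norm, hmm]
  have e2 : Ico.ofO (m : O5) * (x - y * q)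
      = y * (Ico.bar y * x * Ico.ofO (star y.N) - Ico.ofO (m : O5) * q) := by
    rw [mul_sub, mul_sub, e1, ← mul_assoc (Ico.ofO (m : O5)) y q,
      ← mul_assoc y (Ico.ofO (m : O5)) q, Ico.mul_ofO]
  have e3 := congrArg (fun u : Ico => norm u.N) e2
  simp only [Ico.N_mul, N_ofO, map_mul, map_pow, norm_intCast, hmm] at e3
  have h4 : m ^ 4 * norm (x - y * q).N < m ^ 4 * m := by
    calc m ^ 4 * norm (x - y * q).N = (m ^ 2) ^ 2 * norm (x - y * q).N := by ring
      _ = m * norm (Ico.bar y * x * Ico.ofO (star y.N) - Ico.ofO (m : O5) * q).N := e3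
      _ < m * m ^ 4 := mul_lt_mul_of_pos_left hq hm
      _ = _ := by ring
  have h5 : norm (x - y * q).N < m := lt_of_mul_lt_mul_left h4 (by positivity)
  unfold mu
  rw [hmm]
  have := norm_N_nonneg (x - y * q)
  omega

/-- right ideals with two generators are principal -/
theorem principal (x y : Ico) :
    ∃ d a b s t : Ico, d = x * a + y * b ∧ x = d * s ∧ y = d * t :=
  principal_of_div mu Ico_div x y

end H53M
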