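import Pool.Agent.Lib.H53M.IDefs

/-!
# H53M, module D, DR: the homomorphism `ρ : Ico → M₂(𝔽₅)` and the character `ψ`
-/

namespace H53M

open QuadraticAlgebra Ico Matrix

theorem r5_add (x y : O5) : r5 (x + y) = r5 x + r5 y := by
  simp only [r5, re_add, im_add]
  push_cast
  ring

theorem r5_neg (x : O5) : r5 (-x) = -r5 x := by
  simp only [r5, re_neg, im_neg]
  push_cast
  ring

theorem r5_sub (x y : O5) : r5 (x - y) = r5 x - r5 y := by
  rw [sub_eq_add_neg, r5_add, r5_neg, sub_eq_add_neg]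

theorem r5_mul (x y : O5) : r5 (x * y) = r5 x * r5 y := by
  have h : (10 : ZMod 5) = 0 := by decide
  have h5 : (5 : ZMod 5) = 0 := by decide
  simp only [r5, re_mul, im_mul]
  push_cast
  linear_combination (-(x.im : ZMod 5) * (y.im : ZMod 5)) * h5

theorem r5_one : r5 1 = 1 := by decide

theorem r5_zero : r5 0 = 0 := by decide

theorem r5_om : r5 om = 3 := by decide

theorem r5_pow (x : O5) (n : ℕ) : r5 (x ^ n) = r5 x ^ n := by
  induction n with
  | zero => rw [pow_zero, pow_zero, r5_one]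
  | succ n ih => rw [pow_succ, pow_succ, r5_mul, ih]

theorem r5_star (x : O5) : r5 (star x) = r5 x := by
  have h5 : (5 : ZMod 5) = 0 := by decide
  simp only [r5, re_star, im_star]
  push_cast
  linear_combination (-(x.im : ZMod 5)) * h5

theorem r5_ofNat2 : r5 2 = 2 := by decide

theorem rho_add (x y : Ico) : rho (x + y) = rho x + rho y := by
  ext i j
  fin_cases i <;> fin_cases j <;> simp [rho, r5_add] <;> ring

theorem rho_one : rho 1 = 1 := by decide

theorem rho_mul (x y : Ico) : rho (x * y) = rho x * rho y := by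
  have h5 : (5 : ZMod 5) = 0 := by decide
  ext i j
  fin_cases i <;> fin_cases j <;>
    simp only [rho, mul_a, mul_b, mul_c, mul_d, r5_add, r5_sub, r5_mul, r5_pow, r5_om,
      Matrix.mul_apply, Fin.sum_univ_two, Fin.zero_eta, Fin.mk_one, Fin.isValue, Matrix.of_apply,
      Matrix.cons_val_zero, Matrix.cons_val_one, Matrix.cons_val', Matrix.cons_val_fin_one] <;>
    generalize r5 x.a = a <;> generalize r5 x.b = b <;> generalize r5 x.c = c <;>
    generalize r5 x.d = d <;> generalize r5 y.a = a' <;> generalize r5 y.b = b' <;>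
    generalize r5 y.c = c' <;> generalize r5 y.d = d'
  all_goals
    rw [← sub_eq_zero]
    ring_nf
    reduce_mod_char

theorem det_rho (x : Ico) : (rho x).det = r5 (N x) := by
  rw [Matrix.det_fin_two]
  simp only [rho, N, r5_add, r5_mul, r5_pow, r5_om, Fin.isValue, Matrix.of_apply,
      Matrix.cons_val_zero, Matrix.cons_val_one, Matrix.cons_val', Matrix.cons_val_fin_one]
  rw [← sub_eq_zero]
  ring_nf
  reduce_mod_char

/-- `ρ(x*) ρ(g) = ρ(g) adj ρ(x)`. -/
theorem rho_st (x : Ico) : rho (st x) * rg = rg * (rho x).adjugate := by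
  rw [Matrix.adjugate_fin_two]
  have h2 : r5 (-2) = -2 := by decide
  ext i j
  fin_cases i <;> fin_cases j <;>
    simp only [rho, rg, st, r5_add, r5_sub, r5_mul, r5_pow, r5_om, r5_star, r5_one, h2,
      r5_ofNat2, Matrix.mul_apply, Fin.sum_univ_two, Fin.zero_eta, Fin.mk_one, Fin.isValue,
      Matrix.of_apply, Matrix.cons_val_zero, Matrix.cons_val_one, Matrix.cons_val',
      Matrix.cons_val_fin_one]
  all_goals
    rw [← sub_eq_zero]
    ring_nf
    reduce_mod_char

/-- The nilpotent matrix `c v ⟨v, ·⟩`. -/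
def nil5 (c v w : ZMod 5) : Matrix (Fin 2) (Fin 2) (ZMod 5) :=
  !![-(c * v * w), c * v ^ 2; -(c * w ^ 2), c * v * w]

/-- The class of a nilpotent matrix. -/
def fM (M : Matrix (Fin 2) (Fin 2) (ZMod 5)) : ℤ :=
  if M 0 1 = 0 then chi5 (-M 1 0) else chi5 (M 0 1)

theorem psi_eq (x : Ico) : psi x = if r5 x.N = 0 then fM (rho x * rg) else 0 := rfl

theorem exists_nil5 : ∀ a b c : ZMod 5, a ^ 2 + b * c = 0 → ∃ c0 v w : ZMod 5,
    !![a, b; c, -a] = nil5 c0 v w := by
  decide +kernel

theorem fM_nil5 : ∀ c v w : ZMod 5, fM (nil5 c v w) = if v = 0 ∧ w = 0 then 0 else chi5 c := by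
  decide +kernel

theorem conj_nil5 (Y : Matrix (Fin 2) (Fin 2) (ZMod 5)) (c v w : ZMod 5) :
    Y * nil5 c v w * Y.adjugate =
      nil5 c (Y 0 0 * v + Y 0 1 * w) (Y 1 0 * v + Y 1 1 * w) := by
  rw [Matrix.adjugate_fin_two]
  ext i j
  fin_cases i <;> fin_cases j <;>
    simp only [nil5, Matrix.mul_apply, Fin.sum_univ_two, Fin.zero_eta, Fin.mk_one, Fin.isValue,
      Matrix.of_apply, Matrix.cons_val_zero, Matrix.cons_val_one, Matrix.cons_val',
      Matrix.cons_val_fin_one] <;> ring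

/-- For `z = z*` the matrix `ρ(z) ρ(g)` has trace zero and determinant `2 N(z)`. -/
theorem rho_rg_of_st {z : Ico} (hz : st z = z) : ∃ a b c : ZMod 5,
    rho z * rg = !![a, b; c, -a] ∧ a ^ 2 + b * c = -(2 * r5 (N z)) := by
  have h5 : (5 : ZMod 5) = 0 := by decide
  have h1 := rho_st z
  rw [hz, Matrix.adjugate_fin_two] at h1
  have hd := det_rho z
  rw [Matrix.det_fin_two] at hd
  have h00 := congrFun (congrFun h1 0) 0
  simp only [rg, Matrix.mul_apply, Fin.sum_univ_two, Fin.isValue,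
        Matrix.of_apply, Matrix.cons_val_zero, Matrix.cons_val_one, Matrix.cons_val',
        Matrix.cons_val_fin_one] at h00
  have htr : (rho z * rg) 1 1 = -(rho z * rg) 0 0 := by
    simp only [rg, Matrix.mul_apply, Fin.sum_univ_two, Fin.isValue,
        Matrix.of_apply, Matrix.cons_val_zero, Matrix.cons_val_one, Matrix.cons_val',
        Matrix.cons_val_fin_one]
    linear_combination h00 + rho z 1 1 * h5
  refine ⟨(rho z * rg) 0 0, (rho z * rg) 0 1, (rho z * rg) 1 0, ?_, ?_⟩
  · ext i j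
    fin_cases i <;> fin_cases j
    · rfl
    · rfl
    · rfl
    · exact htr
  · have h2 : (rho z * rg) 0 0 ^ 2 + (rho z * rg) 0 1 * (rho z * rg) 1 0 =
        -((rho z * rg) 0 0 * (rho z * rg) 1 1 - (rho z * rg) 0 1 * (rho z * rg) 1 0) := by
      rw [htr]
      ring
    rw [h2, ← hd]
    simp only [rg, Matrix.mul_apply, Fin.sum_univ_two, Fin.isValue,
        Matrix.of_apply, Matrix.cons_val_zero, Matrix.cons_val_one, Matrix.cons_val',
        Matrix.cons_val_fin_one]
    ring

/-- **`ψ(y z y*) = ψ(z)`** for `z = z*`, `√5 ∤ N y`. -/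
theorem psi_conj {z : Ico} (hz : st z = z) (y : Ico) (hy : r5 (N y) ≠ 0) :
    psi (y * z * st y) = psi z := by
  have hN : r5 (N (y * z * st y)) = r5 (N y) ^ 2 * r5 (N z) := by
    rw [N_mul, N_mul, N_st, r5_mul, r5_mul, r5_star]
    ring
  rw [psi_eq, psi_eq, hN]
  by_cases h0 : r5 (N z) = 0
  · rw [if_pos h0, h0, mul_zero, if_pos rfl]
    obtain ⟨a, b, c, hM, hdet⟩ := rho_rg_of_st hz
    rw [h0, mul_zero, neg_zero] at hdet
    obtain ⟨c0, v, w, hn⟩ := exists_nil5 a b c hdet
    have h1 : rho (y * z * st y) * rg = rho y * nil5 c0 v w * (rho y).adjugate := by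
      rw [rho_mul, rho_mul, mul_assoc (rho y * rho z), rho_st, ← mul_assoc, mul_assoc (rho y), hM,
        hn]
    rw [h1, conj_nil5, hM, hn, fM_nil5, fM_nil5]
    congr 1
    have hdy := det_rho y
    rw [Matrix.det_fin_two] at hdy
    rw [eq_iff_iff]
    constructor
    · rintro ⟨h2, h3⟩
      have e1 : r5 (N y) * v = 0 := by
        rw [← hdy]
        linear_combination rho y 1 1 * h2 - rho y 0 1 * h3
      have e2 : r5 (N y) * w = 0 := by
        rw [← hdy]
        linear_combination rho y 0 0 * h3 - rho y 1 0 * h2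
      have : Fact (Nat.Prime 5) := ⟨by norm_num⟩
      exact ⟨(mul_eq_zero.1 e1).resolve_left hy, (mul_eq_zero.1 e2).resolve_left hy⟩
    · rintro ⟨rfl, rfl⟩
      simp
  · have : Fact (Nat.Prime 5) := ⟨by norm_num⟩
    rw [if_neg h0, if_neg (mul_ne_zero (pow_ne_zero 2 hy) h0)]

theorem chi5_mul : ∀ a b : ZMod 5, chi5 (a * b) = chi5 a * chi5 b := by
  decide +kernel

theorem chi5_neg : ∀ a : ZMod 5, chi5 (-a) = chi5 a := by
  decide +kernel

theorem chi5_zero : chi5 0 = 0 := rfl

theorem fM_zero : fM 0 = 0 := by decide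

theorem rho_ofO (r : O5) : rho (ofO r) = r5 r • (1 : Matrix (Fin 2) (Fin 2) (ZMod 5)) := by
  ext i j
  fin_cases i <;> fin_cases j <;> simp [rho, ofO, r5_zero]

/-- `ψ(r z) = χ₅(r mod √5) ψ(z)`. -/
theorem psi_ofO (r : O5) (z : Ico) : psi (ofO r * z) = chi5 (r5 r) * psi z := by
  have : Fact (Nat.Prime 5) := ⟨by norm_num⟩
  have hN : r5 (N (ofO r * z)) = r5 r ^ 2 * r5 (N z) := by
    rw [N_mul, r5_mul]
    congr 1
    simp [N, r5_pow]
  rw [psi_eq, psi_eq, hN]
  by_cases hr : r5 r = 0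
  · rw [hr, chi5_zero, zero_mul]
    rw [rho_mul, rho_ofO, hr, zero_smul, zero_mul, zero_mul]
    split_ifs
    · exact fM_zero
    · rfl
  · by_cases h0 : r5 (N z) = 0
    · rw [if_pos h0, h0, mul_zero, if_pos rfl]
      rw [rho_mul, rho_ofO, Matrix.smul_mul, one_mul, Matrix.smul_mul]
      unfold fM
      simp only [Matrix.smul_apply, smul_eq_mul, mul_eq_zero, hr, false_or]
      split_ifs with h1
      · rw [← mul_neg, chi5_mul]
      · rw [chi5_mul]
    · rw [if_neg h0, if_neg (mul_ne_zero (pow_ne_zero 2 hr) h0), mul_zero]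

/-- `ψ(z) = 0` if `√5 ∤ N z`. -/
theorem psi_of_ne {z : Ico} (h : r5 (N z) ≠ 0) : psi z = 0 := by
  rw [psi_eq, if_neg h]

end H53M
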