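import Pool.Agent.Lib.H53M.HDefs
import Pool.Agent.Lib.H53M.DR

/-!
# H53M, module D, DL: the lattice `L = {z : z* = z}`
-/

namespace H53M

open QuadraticAlgebra Ico

/-- The norm form of `L`. -/
def nL (A D e f : ℤ) : ℤ :=
  A ^ 2 + 2 * D ^ 2 + 2 * A * D + 2 * e ^ 2 + 3 * D * e + A * e + 3 * f ^ 2 + 3 * A * f + 4 * D * f
    + 2 * e * f

theorem lp_st (A D e f : ℤ) : st (lp A D e f) = lp A D e f := by
  have h2 : (-2 : O5) = ⟨-2, 0⟩ := by decide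
  have h3 : (2 : O5) = ⟨2, 0⟩ := by decide
  have h4 : om ^ 2 = ⟨1, 1⟩ := by decide
  simp only [lp]
  ext1 <;> simp only [st, h4] <;> (ext <;> simp [om, h3] <;> ring)

theorem lp_N (A D e f : ℤ) : N (lp A D e f) = ⟨nL A D e f, 0⟩ := by
  simp only [lp, N, nL, om_sq, om_cube]
  have h3 : (2 : O5) = ⟨2, 0⟩ := by decide
  ext <;> simp [om, h3, pow_two] <;> ring

theorem lp_inj {A D e f A' D' e' f' : ℤ} (h : lp A D e f = lp A' D' e' f') :
    A = A' ∧ D = D' ∧ e = e' ∧ f = f' := by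
  simp only [lp, Ico.mk.injEq, QuadraticAlgebra.mk.injEq] at h
  obtain ⟨⟨h1, h2⟩, ⟨h3, h4⟩, ⟨h5, h6⟩, h7, h8⟩ := h
  refine ⟨by linarith, by linarith, by linarith, by linarith⟩

theorem lp_surj {z : Ico} (h : st z = z) : ∃ A D e f : ℤ, z = lp A D e f := by
  obtain ⟨⟨a1, a2⟩, ⟨b1, b2⟩, ⟨c1, c2⟩, ⟨d1, d2⟩⟩ := z
  have h2 : (-2 : O5) = ⟨-2, 0⟩ := by decide
  have h3 : (2 : O5) = ⟨2, 0⟩ := by decide
  have h4 : om ^ 2 = ⟨1, 1⟩ := by decide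
  have ha1 := congrArg (fun x : Ico ↦ x.a.re) h
  have ha2 := congrArg (fun x : Ico ↦ x.a.im) h
  have hb1 := congrArg (fun x : Ico ↦ x.b.re) h
  have hb2 := congrArg (fun x : Ico ↦ x.b.im) h
  have hc1 := congrArg (fun x : Ico ↦ x.c.re) h
  have hc2 := congrArg (fun x : Ico ↦ x.c.im) h
  have hd1 := congrArg (fun x : Ico ↦ x.d.re) h
  have hd2 := congrArg (fun x : Ico ↦ x.d.im) h
  simp only [st, h4] at ha1 ha2 hb1 hb2 hc1 hc2 hd1 hd2
  simp [om, h3] at ha1 ha2 hb1 hb2 hc1 hc2 hd1 hd2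
  refine ⟨c2 - d1 - 2 * (-a1 - d1), d1, b2, -a1 - d1, ?_⟩
  simp only [lp, Ico.mk.injEq, QuadraticAlgebra.mk.injEq]
  refine ⟨⟨?_, ?_⟩, ⟨?_, ?_⟩, ⟨?_, ?_⟩, ?_⟩ <;>
    first | trivial | omega

theorem four_nL (A D e f : ℤ) : 4 * nL A D e f = A ^ 2 + D ^ 2 + 2 * (D + 2 * e) ^ 2 +
    2 * (D + 2 * e) * (A + D + 2 * f) + 3 * (A + D + 2 * f) ^ 2 := by
  rw [nL]
  ring

/-- `lq_norm` -/
theorem lq_norm (u : Fin 4 → ℤ) : (lq u).N = (qL u : O5) := by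
  rw [qL, lq, lp_N]
  rfl

/-- A vector of norm 5 has small coordinates. -/
theorem nL_small {A D e f : ℤ} (h : nL A D e f = 5) :
    (-4 ≤ A ∧ A ≤ 4) ∧ (-4 ≤ D ∧ D ≤ 4) ∧ (-4 ≤ e ∧ e ≤ 4) ∧ (-5 ≤ f ∧ f ≤ 5) := by
  have h4 := four_nL A D e f
  rw [h] at h4
  set X := D + 2 * e with hX
  set Y := A + D + 2 * f with hY
  have h5 : A ^ 2 + D ^ 2 + X ^ 2 + 2 * Y ^ 2 + (X + Y) ^ 2 = 20 := by linarith [h4]
  have hA : A ^ 2 ≤ 20 := by nlinarith [sq_nonneg D, sq_nonneg X, sq_nonneg Y, sq_nonneg (X + Y)]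
  have hD : D ^ 2 ≤ 20 := by nlinarith [sq_nonneg A, sq_nonneg X, sq_nonneg Y, sq_nonneg (X + Y)]
  have hA1 : -4 ≤ A ∧ A ≤ 4 := by constructor <;> nlinarith
  have hD1 : -4 ≤ D ∧ D ≤ 4 := by constructor <;> nlinarith
  refine ⟨hA1, hD1, ?_, ?_⟩
  · constructor
    · by_contra hcon
      push Not at hcon
      nlinarith
    · by_contra hcon
      push Not at hcon
      nlinarith
  · constructor
    · by_contra hcon
      push Not at hcon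
      nlinarith
    · by_contra hcon
      push Not at hcon
      nlinarith

/-- `mem_L5` -/
theorem mem_L5' (A D e f : ℤ) : (A, D, e, f) ∈ L5 ↔ (lp A D e f).N = 5 := by
  have h5 : (5 : O5) = ⟨5, 0⟩ := by decide
  unfold L5
  simp only [Finset.mem_filter, Finset.mem_product, Finset.mem_Icc]
  constructor
  · exact fun h ↦ h.2
  · intro h
    refine ⟨?_, h⟩
    rw [lp_N, h5, QuadraticAlgebra.mk.injEq] at h
    obtain ⟨h1, h2, h3, h4⟩ := nL_small h.1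
    exact ⟨h1, h2, h3, h4⟩

theorem lq_inj : Function.Injective lq := by
  intro u v h
  obtain ⟨h1, h2, h3, h4⟩ := lp_inj h
  ext i
  fin_cases i
  · exact h1
  · exact h2
  · exact h3
  · exact h4

theorem lq_surj {z : Ico} (h : st z = z) : ∃ u : Fin 4 → ℤ, z = lq u := by
  obtain ⟨A, D, e, f, rfl⟩ := lp_surj h
  exact ⟨![A, D, e, f], rfl⟩

theorem zsmul_eq (n : ℤ) (z : Ico) : n • z = ofO (n : O5) * z := by
  rw [map_intCast, zsmul_eq_mul]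

theorem psi_smul (n : ℤ) (z : Ico) : psi (n • z) = chi5 (n : ZMod 5) * psi z := by
  rw [zsmul_eq, psi_ofO]
  congr 2
  simp [r5]

theorem psi_supp {z : Ico} (h : psi z ≠ 0) : r5 z.N = 0 := by
  by_contra h0
  exact h (psi_of_ne h0)

end H53M
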