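import Pool.Agent.Lib.H53M.Chain

/-!
Helper file for MP_251428_co: the numerators of the Pell chain as sums of monomials.
-/

namespace Pool.Agent.Lib.H53M

open Finset Polynomial

lemma natDegree_row (N s : ℕ) (hs : s ≤ N) : (cp N s * (1 + X) ^ (2 * s)).natDegree < N + s + 1 := by
  have h1 : (cp N s).natDegree ≤ N - s := by
    rw [natDegree_le_iff_coeff_eq_zero]
    intro p hp
    rw [coeff_cp]
    exact cc_high N s p (by omega)
  have h2 : ((1 + X : ℚ[X]) ^ (2 * s)).natDegree ≤ 2 * s := by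
    refine le_trans natDegree_pow_le ?_
    have : (1 + X : ℚ[X]).natDegree ≤ 1 := by
      refine le_trans (natDegree_add_le _ _) ?_
      simp
    calc 2 * s * (1 + X : ℚ[X]).natDegree ≤ 2 * s * 1 := Nat.mul_le_mul_left _ this
      _ = 2 * s := by ring
  have := natDegree_mul_le (p := cp N s) (q := (1 + X : ℚ[X]) ^ (2 * s))
  omega

section field

variable {K : Type*} [Field K] [Algebra ℚ K]

/-- one term. -/
noncomputable def tm (n : ℕ) (x y z : K) (i j : ℕ) : K :=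
  algebraMap ℚ K (AA n i j) * x ^ (2 * i) * y ^ (2 * j) * z ^ (2 * (2 * n + 2 - i - j))

lemma row_expand (n s : ℕ) (x y z : K) (hx : x ≠ 0) (hs : s < n + 2) :
    (x ^ 2) ^ (2 * (n + 1)) * ((z ^ 2 / x ^ 2) ^ (n + 1 - s) * (1 + y ^ 2 / x ^ 2) ^ (2 * s) *
      aeval (y ^ 2 / x ^ 2) (cp (n + 1) s)) =
    ∑ j ∈ range (n + 1 + s + 1), tm n x y z (n + 1 + s - j) j := by
  have e1 : (1 + y ^ 2 / x ^ 2) ^ (2 * s) * aeval (y ^ 2 / x ^ 2) (cp (n + 1) s) =
      aeval (y ^ 2 / x ^ 2) (cp (n + 1) s * (1 + X) ^ (2 * s)) := by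
    simp only [map_mul, map_pow, map_add, map_one, aeval_X]
    ring
  rw [mul_assoc ((z ^ 2 / x ^ 2) ^ (n + 1 - s)), e1,
    aeval_eq_sum_range' (natDegree_row (n + 1) s (by omega)), mul_sum, mul_sum]
  refine sum_congr rfl fun j hj => ?_
  have hj' : j < n + 1 + s + 1 := mem_range.1 hj
  have e2 : (cp (n + 1) s * (1 + X) ^ (2 * s)).coeff j = AA n (n + 1 + s - j) j := by
    rw [coeff_mul_row, AA_eq n (n + 1 + s - j) j s (by omega)]
    have : (cp (n + 1) s).coeff = cc (n + 1) s := funext fun p => coeff_cp _ _ _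
    rw [this]
  rw [e2]
  unfold tm
  rw [Algebra.smul_def]
  have e3 : 2 * n + 2 - (n + 1 + s - j) - j = n + 1 - s := by omega
  rw [e3, div_pow, div_pow]
  have hx2 : x ^ 2 ≠ 0 := pow_ne_zero _ hx
  have e4 : (x ^ 2) ^ (2 * (n + 1)) =
      x ^ (2 * (n + 1 + s - j)) * ((x ^ 2) ^ (n + 1 - s) * (x ^ 2) ^ j) := by
    rw [← pow_mul, ← pow_mul, ← pow_mul, ← pow_add, ← pow_add]
    congr 1
    omega
  rw [e4]
  have h3 : (x ^ 2) ^ (n + 1 - s) ≠ 0 := pow_ne_zero _ hx2
  have h4 : (x ^ 2) ^ j ≠ 0 := pow_ne_zero _ hx2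
  rw [pow_mul y 2 j, pow_mul z 2 (n + 1 - s)]
  field_simp

theorem GG_expand (n : ℕ) (x y z : K) (hx : x ≠ 0) :
    GG (n + 1) x y z = ∑ i ∈ range (2 * n + 3), ∑ j ∈ range (2 * n + 3 - i), tm n x y z i j := by
  have hT : ∑ i ∈ range (2 * n + 3), ∑ j ∈ range (2 * n + 3 - i), tm n x y z i j =
      ∑ m ∈ range (2 * n + 3), ∑ j ∈ range (m + 1), tm n x y z (m - j) j := by
    rw [← sum_range_diag_flip (2 * n + 3) (fun i j => tm n x y z i j)]
    refine sum_congr rfl fun m _ => ?_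
    rw [← sum_range_reflect]
    refine sum_congr rfl fun k hk => ?_
    have hk' : k < m + 1 := mem_range.1 hk
    have h1 : m + 1 - 1 - k = m - k := by omega
    have h2 : m - (m - k) = k := by omega
    rw [h1, h2]
  rw [hT]
  have h3 : 2 * n + 3 = (n + 1) + (n + 2) := by omega
  rw [h3, sum_range_add, sum_eq_zero, zero_add]
  · unfold GG Qf
    rw [mul_sum]
    refine sum_congr rfl fun s hs => ?_
    exact row_expand n s x y z hx (mem_range.1 hs)
  · intro m hm
    have hm' : m < n + 1 := mem_range.1 hm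
    refine sum_eq_zero fun j hj => ?_
    have hj' : j < m + 1 := mem_range.1 hj
    unfold tm
    rw [AA_low n (m - j) j (by omega)]
    simp

end field

lemma cc_nat (N s p : ℕ) : ∃ k : ℕ, cc N s p = k := by
  rcases s with _ | s
  · simp only [cc]
    split_ifs
    · exact ⟨1, by simp⟩
    · exact ⟨0, by simp⟩
  · simp only [cc]
    split_ifs
    · exact ⟨(N - 1 - p).choose s * (s + 1 + p).choose (s + 1), by push_cast; ring⟩
    · exact ⟨0, by simp⟩

lemma E_nat (a : ℕ → ℚ) (h : ∀ i, ∃ k : ℕ, a i = k) (m i : ℕ) : ∃ k : ℕ, E a m i = k := by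
  choose b hb using h
  refine ⟨∑ p ∈ range (i + 1), b p * m.choose (i - p), ?_⟩
  unfold E
  push_cast
  refine sum_congr rfl fun p _ => ?_
  rw [hb p]

lemma AA_nat (n i j : ℕ) : ∃ k : ℕ, AA n i j = k := by
  unfold AA
  split_ifs
  · exact E_nat _ (cc_nat _ _) _ _
  · exact ⟨0, by simp⟩

end Pool.Agent.Lib.H53M
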