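import Pool.Agent.Lib.H53M.HB2

/-!
# H53M, chunk HB3 (M): `phi k` is a combination of the functions `F2`
-/

namespace H53M

open Matrix

/-- the base of `F2` -/
noncomputable def HB3_b (r s : Fin 2 → ℂ) (A M N : Matrix (Fin 2) (Fin 2) ℂ) : ℂ :=
  dotProduct (vecMul (vecMul r M) A) (mulVec N s)

theorem HB3_conj (r s : Fin 2 → ℂ) (A M N : Matrix (Fin 2) (Fin 2) ℂ) :
    (starRingEnd ℂ) (HB3_b r s A M N) = HB3_b (fun i => (starRingEnd ℂ) (r i))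
      (fun i => (starRingEnd ℂ) (s i)) (A.map (starRingEnd ℂ)) (M.map (starRingEnd ℂ))
      (N.map (starRingEnd ℂ)) := by
  simp only [HB3_b, dotProduct, vecMul, mulVec, Fin.sum_univ_two, map_add, map_mul,
    Matrix.map_apply]

theorem HB3_J (r s : Fin 2 → ℂ) (A M N : Matrix (Fin 2) (Fin 2) ℂ) :
    HB3_b r s A (-(JJ * M * JJ)) (-(JJ * N * JJ)) =
      HB3_b (vecMul r JJ) (mulVec JJ s) (JJ * A * JJ) M N := by
  simp only [HB3_b, dotProduct, vecMul, mulVec, Fin.sum_univ_two, Matrix.neg_apply,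
    Matrix.mul_apply, JJ, Matrix.of_apply, Matrix.cons_val', Matrix.cons_val_zero,
    Matrix.cons_val_one, Matrix.cons_val_fin_one]
  ring

theorem HB3_one (e w : Fin 2 → ℂ) (M V G N C : Matrix (Fin 2) (Fin 2) ℂ) :
    2 * dotProduct (vecMul e (M * V * (G * N * C))) w =
      HB3_b e (fun i => 2 * (mulVec C w) i) (V * G) M N := by
  simp only [HB3_b, dotProduct, vecMul, mulVec, Fin.sum_univ_two, Matrix.mul_apply]
  ring

theorem HB3_two (e w : Fin 2 → ℂ) (M V G N C : Matrix (Fin 2) (Fin 2) ℂ) :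
    2 * dotProduct (vecMul e ((-JJ * Nᵀ * JJ) * V * (G * (-JJ * Mᵀ * JJ) * C))) w =
      HB3_b (vecMul (fun i => 2 * (mulVec C w) i) JJ) (mulVec JJ e) (JJ * (V * G)ᵀ * JJ) M N := by
  simp only [HB3_b, dotProduct, vecMul, mulVec, Fin.sum_univ_two, Matrix.neg_apply,
    Matrix.mul_apply, Matrix.transpose_apply, JJ, Matrix.of_apply, Matrix.cons_val',
    Matrix.cons_val_zero, Matrix.cons_val_one, Matrix.cons_val_fin_one]
  ring

theorem HB3_E1 (v : Ico) : ∃ (r s : Fin 2 → ℂ) (A : Matrix (Fin 2) (Fin 2) ℂ), ∀ x : Ico,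
    emb f1 (ell (x * v * Ico.st x)) = HB3_b r s A (cm (H1 x)) (cm (star (H2 x))) := by
  refine ⟨![1, 0], fun i => 2 * (mulVec (cm ((-(1 / 2 : ℝ)) • gH)) ![1, 1 + Complex.I]) i,
    cm (H1 v) * cm gH, fun x => ?_⟩
  rw [(HB2_ell _).1, map_mul, map_mul, (HB1_st x).1, HB1_mul, HB1_mul, HB1_mul, HB1_mul]
  exact HB3_one _ _ _ _ _ _ _

theorem HB3_E2 (v : Ico) : ∃ (r s : Fin 2 → ℂ) (A : Matrix (Fin 2) (Fin 2) ℂ), ∀ x : Ico,
    emb f2 (ell (x * v * Ico.st x)) = HB3_b r s A (cm (H1 x)) (cm (star (H2 x))) := by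
  refine ⟨vecMul (fun i => 2 * (mulVec (cm ((-(1 / 2 : ℝ)) • gH)) ![1, 1 + Complex.I]) i) JJ,
    mulVec JJ ![1, 0], JJ * (cm (H2 v) * cm gH)ᵀ * JJ, fun x => ?_⟩
  have h1 : cm (H2 x) = -JJ * (cm (star (H2 x)))ᵀ * JJ := by
    conv_lhs => rw [← star_star (H2 x)]
    exact HB1_star _
  rw [(HB2_ell _).2, map_mul, map_mul, (HB1_st x).2, HB1_mul, HB1_mul, HB1_mul, HB1_mul, h1,
    HB1_star (H1 x)]
  exact HB3_two _ _ _ _ _ _ _

theorem HB3_c (F : Ico → ℂ) (h : ∃ (r s : Fin 2 → ℂ) (A : Matrix (Fin 2) (Fin 2) ℂ), ∀ x : Ico,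
    F x = HB3_b r s A (cm (H1 x)) (cm (star (H2 x)))) :
    ∃ (r s : Fin 2 → ℂ) (A : Matrix (Fin 2) (Fin 2) ℂ), ∀ x : Ico,
    (starRingEnd ℂ) (F x) = HB3_b r s A (cm (H1 x)) (cm (star (H2 x))) := by
  obtain ⟨r, s, A, h⟩ := h
  refine ⟨vecMul (fun i => (starRingEnd ℂ) (r i)) JJ, mulVec JJ (fun i => (starRingEnd ℂ) (s i)),
    JJ * A.map (starRingEnd ℂ) * JJ, fun x => ?_⟩
  rw [h x, HB3_conj, HB1_conj, HB1_conj]
  exact HB3_J _ _ _ _ _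

/-- the four terms -/
noncomputable def HB3_T (z : Ico) : Fin 4 → ℂ :=
  ![emb f1 (ell z), (starRingEnd ℂ) (emb f1 (ell z)), emb f2 (ell z),
    (starRingEnd ℂ) (emb f2 (ell z))]

theorem HB3_key (v : Ico) (j : Fin 4) :
    ∃ (r s : Fin 2 → ℂ) (A : Matrix (Fin 2) (Fin 2) ℂ), ∀ x : Ico,
    HB3_T (x * v * Ico.st x) j = HB3_b r s A (cm (H1 x)) (cm (star (H2 x))) := by
  fin_cases j
  · exact HB3_E1 v
  · exact HB3_c (fun x => emb f1 (ell (x * v * Ico.st x))) (HB3_E1 v)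
  · exact HB3_E2 v
  · exact HB3_c (fun x => emb f2 (ell (x * v * Ico.st x))) (HB3_E2 v)

/-- Proof.  `phi k x = Σ_{u ∈ L5} ψ(u) PP (k-2) (x u x*)`; by `HB2_PP`, `HB2_ell`, for `z = x u x*`:
`emb f1 (ell z) = 2 (1,0) cm(H1 x) cm(H1 u) cm(g) cm(conj H2 x) cm(-g/2) (1,1+i)ᵀ` (`HB1_st`,
`HB1_mul`), which is the base of `F2` with `r = (1,0)`, `A = cm (H1 u * gH)`,
`s = 2 cm(-g/2)(1,1+i)`.
`emb f2 (ell z) = 2 (1,0) cm(H2 x) B cm(conj H1 x) s'` is a scalar, hence equal to its transpose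
`s'ᵀ cm(conj H1 x)ᵀ Bᵀ cm(H2 x)ᵀ (1,0)ᵀ 2`, and `cm(ȳ)ᵀ = J.. cm(y) J..`, `cm(y)ᵀ = J.. cm(ȳ) J..`
(`HB1_star`), again of the form `F2`.  Complex conjugates: `HB1_conj`.  So each of the four terms
is `F2 (k-2) r s A x` for suitable `r, s, A` depending on `u`. -/
theorem HB3 (k : ℕ) : ∃ (N : ℕ) (c : Fin N → ℂ) (r s : Fin N → Fin 2 → ℂ)
    (A : Fin N → Matrix (Fin 2) (Fin 2) ℂ), ∀ x : Ico,
      (phi k x : ℂ) = ∑ i, c i * F2 (k - 2) (r i) (s i) (A i) x := by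
  classical
  choose r s A h using HB3_key
  let ι := L5 × Fin 4
  let e : Fin (Fintype.card ι) ≃ ι := (Fintype.equivFin ι).symm
  let v : L5 → Ico := fun u => lp u.1.1 u.1.2.1 u.1.2.2.1 u.1.2.2.2
  refine ⟨Fintype.card ι, fun i => (1 / 2) * (psi (v (e i).1) : ℂ), fun i => r (v (e i).1) (e i).2,
    fun i => s (v (e i).1) (e i).2, fun i => A (v (e i).1) (e i).2, fun x => ?_⟩
  have h1 : ∀ p : ι, F2 (k - 2) (r (v p.1) p.2) (s (v p.1) p.2) (A (v p.1) p.2) x =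
      (HB3_T (x * v p.1 * Ico.st x) p.2) ^ (k - 2) := by
    intro p
    rw [h]
    rfl
  rw [Equiv.sum_comp e fun p : ι => (1 / 2) * (psi (v p.1) : ℂ) *
    F2 (k - 2) (r (v p.1) p.2) (s (v p.1) p.2) (A (v p.1) p.2) x]
  simp only [h1]
  rw [Fintype.sum_prod_type]
  unfold phi
  push_cast
  rw [← Finset.sum_coe_sort L5]
  refine Finset.sum_congr rfl fun u _ => ?_
  rw [HB2_PP, Fin.sum_univ_four]
  have e0 : HB3_T (x * v u * Ico.st x) 0 = emb f1 (ell (x * v u * Ico.st x)) := rfl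
  have e1 : HB3_T (x * v u * Ico.st x) 1 = (starRingEnd ℂ) (emb f1 (ell (x * v u * Ico.st x))) :=
    rfl
  have e2 : HB3_T (x * v u * Ico.st x) 2 = emb f2 (ell (x * v u * Ico.st x)) := rfl
  have e3 : HB3_T (x * v u * Ico.st x) 3 = (starRingEnd ℂ) (emb f2 (ell (x * v u * Ico.st x))) :=
    rfl
  rw [e0, e1, e2, e3]
  ring

end H53M
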