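import Pool.Agent.Lib.H53M.HA1
import Pool.Agent.Lib.H53M.HB3

/-!
# H53M, chunk HC (M): size of `phi`
-/

namespace H53M

theorem HC_entry (y : Quaternion ℝ) (i j : Fin 2) : ‖cm y i j‖ ≤ Real.sqrt (Quaternion.normSq y) := by
  have key : ∀ z : ℂ, Complex.normSq z ≤ Quaternion.normSq y →
      ‖z‖ ≤ Real.sqrt (Quaternion.normSq y) := by
    intro z hz
    rw [Complex.normSq_eq_norm_sq] at hz
    exact Real.le_sqrt_of_sq_le hz
  apply key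
  rw [Quaternion.normSq_def']
  have h1 := sq_nonneg y.re
  have h2 := sq_nonneg y.imI
  have h3 := sq_nonneg y.imJ
  have h4 := sq_nonneg y.imK
  fin_cases i <;> fin_cases j <;> simp [cm, Complex.normSq_apply] <;> nlinarith

theorem HC_base (r s : Fin 2 → ℂ) (A M N : Matrix (Fin 2) (Fin 2) ℂ) (m n : ℝ)
    (hm : ∀ i j, ‖M i j‖ ≤ m) (hn : ∀ i j, ‖N i j‖ ≤ n) :
    ‖dotProduct (Matrix.vecMul (Matrix.vecMul r M) A) (Matrix.mulVec N s)‖ ≤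
      (∑ i, ∑ j, ∑ k, ∑ l, ‖r i‖ * ‖A j k‖ * ‖s l‖) * (m * n) := by
  have hm0 : 0 ≤ m := (norm_nonneg _).trans (hm 0 0)
  have h1 : dotProduct (Matrix.vecMul (Matrix.vecMul r M) A) (Matrix.mulVec N s) =
      ∑ i, ∑ j, ∑ k, ∑ l, r i * M i j * A j k * (N k l * s l) := by
    simp only [dotProduct, Matrix.vecMul, Matrix.mulVec, Fin.sum_univ_two]
    ring
  rw [h1]
  simp only [Finset.sum_mul]
  refine norm_sum_le_of_le _ fun i _ => norm_sum_le_of_le _ fun j _ =>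
    norm_sum_le_of_le _ fun k _ => norm_sum_le_of_le _ fun l _ => ?_
  rw [norm_mul, norm_mul, norm_mul, norm_mul]
  have h2 := hm i j
  have h3 := hn k l
  have h4 : ‖M i j‖ * ‖N k l‖ ≤ m * n := mul_le_mul h2 h3 (norm_nonneg _) hm0
  calc ‖r i‖ * ‖M i j‖ * ‖A j k‖ * (‖N k l‖ * ‖s l‖)
      = (‖r i‖ * ‖A j k‖ * ‖s l‖) * (‖M i j‖ * ‖N k l‖) := by ring
    _ ≤ (‖r i‖ * ‖A j k‖ * ‖s l‖) * (m * n) :=
      mul_le_mul_of_nonneg_left h4 (by positivity)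

theorem HC_F2 (k : ℕ) (hke : Even k) (r s : Fin 2 → ℂ) (A : Matrix (Fin 2) (Fin 2) ℂ) :
    ∃ C : ℝ, 0 ≤ C ∧ ∀ x : Ico,
      ‖F2 (k - 2) r s A x‖ ≤ C * ((QuadraticAlgebra.norm x.N : ℤ) : ℝ) ^ (k / 2 - 1) := by
  set K : ℝ := ∑ i, ∑ j, ∑ k, ∑ l, ‖r i‖ * ‖A j k‖ * ‖s l‖ with hK
  have hK0 : 0 ≤ K := by
    rw [hK]
    exact Finset.sum_nonneg fun i _ => Finset.sum_nonneg fun j _ => Finset.sum_nonneg fun k _ =>
      Finset.sum_nonneg fun l _ => by positivity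
  refine ⟨K ^ (k - 2), pow_nonneg hK0 _, fun x => ?_⟩
  unfold F2
  rw [norm_pow]
  have h1 := HC_base r s A (cm (H1 x)) (cm (star (H2 x))) _ _ (HC_entry (H1 x))
    (HC_entry (star (H2 x)))
  rw [← hK, Quaternion.normSq_star, ← HA1_f1, ← HA1_f2] at h1
  have hf1 : 0 ≤ f1 x.N := by
    rw [HA1_f1]
    exact Quaternion.normSq_nonneg
  rw [← Real.sqrt_mul hf1, HA1_norm] at h1
  have hnn : (0 : ℝ) ≤ ((QuadraticAlgebra.norm x.N : ℤ) : ℝ) := by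
    rw [← HA1_norm]
    refine mul_nonneg hf1 ?_
    rw [HA1_f2]
    exact Quaternion.normSq_nonneg
  have h2 : k - 2 = 2 * (k / 2 - 1) := by
    obtain ⟨t, rfl⟩ := hke
    omega
  calc ‖dotProduct (Matrix.vecMul (Matrix.vecMul r (cm (H1 x))) A)
        (Matrix.mulVec (cm (star (H2 x))) s)‖ ^ (k - 2)
      ≤ (K * Real.sqrt ((QuadraticAlgebra.norm x.N : ℤ) : ℝ)) ^ (k - 2) :=
        pow_le_pow_left₀ (norm_nonneg _) h1 _
    _ = K ^ (k - 2) * (Real.sqrt ((QuadraticAlgebra.norm x.N : ℤ) : ℝ) ^ 2) ^ (k / 2 - 1) := by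
        rw [mul_pow]
        congr 1
        rw [← pow_mul, ← h2]
    _ = K ^ (k - 2) * ((QuadraticAlgebra.norm x.N : ℤ) : ℝ) ^ (k / 2 - 1) := by
        rw [Real.sq_sqrt hnn]

/-- `|φ(x)| ≤ C (norm N(x))^{(k-2)/2}`.

Proof.  By `HB3` it suffices to bound `|F2 d r s A x| ≤ C (|x₁| |x₂|)^d`, `d = k-2`: each entry of
`cm y` is at most `2 ‖y‖` in absolute value (`‖y‖² = normSq y`), so
`|r cm(x₁) A cm(x̄₂) s| ≤ C ‖x₁‖ ‖x₂‖` and `(‖x₁‖ ‖x₂‖)^2 = f1 N f2 N = norm (N x)` (`HA1_f1`,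
`HA1_f2`, `HA1_norm`), `d = 2 (k/2 - 1)` as `k` is even. -/
theorem HC (k : ℕ) (hk : 12 ≤ k) (hke : Even k) : ∃ C : ℝ, 0 ≤ C ∧ ∀ x : Ico,
    |(phi k x : ℝ)| ≤ C * ((QuadraticAlgebra.norm x.N : ℤ) : ℝ) ^ (k / 2 - 1) := by
  obtain ⟨N, c, r, s, A, h⟩ := HB3 k
  choose K hK0 hK using fun i => HC_F2 k hke (r i) (s i) (A i)
  refine ⟨∑ i, ‖c i‖ * K i, Finset.sum_nonneg fun i _ => mul_nonneg (norm_nonneg _) (hK0 i),
    fun x => ?_⟩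
  have h1 : |(phi k x : ℝ)| = ‖(phi k x : ℂ)‖ := by
    rw [Complex.norm_intCast]
  rw [h1, h x, Finset.sum_mul]
  refine norm_sum_le_of_le _ fun i _ => ?_
  rw [norm_mul, mul_assoc]
  exact mul_le_mul_of_nonneg_left (hK i x) (norm_nonneg _)

end H53M
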