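import Pool.Agent.Lib.H53M.HDefs

/-!
# H53M, chunk HA1 (S/M): norms and the coordinates (n, m)

All statements are explicit computations: `f1 ω = (1+√5)/2`, `f2 ω = (1-√5)/2`, `√5² = 5`.
-/

namespace H53M

theorem HA1_s5 : Real.sqrt 5 ^ 2 = 5 := Real.sq_sqrt (by norm_num)

theorem HA1_s5pos : 0 < Real.sqrt 5 := Real.sqrt_pos.2 (by norm_num)

theorem HA1_phi (φ : O5 →+* ℝ) (x : Ico) : φ x.N = Quaternion.normSq (toH φ x) := by
  have h0 : φ 2 = 2 := map_ofNat φ 2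
  have h2 : φ om ^ 2 = φ om + 1 := by rw [← map_pow, Ico.om_sq, map_add, map_one]
  have h1 : Quaternion.normSq (toH φ x) =
      (φ x.a + φ x.c * φ om / 2 + φ x.d * φ om ^ 2 / 2) ^ 2 +
      (φ x.b + φ x.c * φ om ^ 2 / 2 + φ x.d * φ om / 2) ^ 2 + (φ x.c / 2) ^ 2 +
      (φ x.d / 2) ^ 2 := by
    rw [Quaternion.normSq_def']
    rfl
  rw [h1]
  simp only [Ico.N, map_add, map_mul, map_pow]
  generalize φ om = w at h2
  have h3 : w ^ 3 = 2 * w + 1 := by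
    have : w ^ 3 = w * w ^ 2 := by ring
    rw [this, h2]
    linear_combination h2
  have h4 : w ^ 4 = 3 * w + 2 := by
    have : w ^ 4 = w * w ^ 3 := by ring
    rw [this, h3]
    linear_combination 2 * h2
  ring_nf
  simp only [h2, h3, h4]
  ring

/-- `f1 (N x) = |x₁|²`.  (Expand `toH`, `Quaternion.normSq_def'`, or use `mul_bar`:
`H1 (bar x) = star (H1 x)` and `H1 (ofO r) = f1 r`.) -/
theorem HA1_f1 (x : Ico) : f1 x.N = Quaternion.normSq (H1 x) := HA1_phi f1 x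

/-- `f2 (N x) = |x₂|²`. -/
theorem HA1_f2 (x : Ico) : f2 x.N = Quaternion.normSq (H2 x) := HA1_phi f2 x

theorem HA1_f1_def (x : O5) : f1 x = x.re + x.im * ((1 + Real.sqrt 5) / 2) := rfl

theorem HA1_f2_def (x : O5) : f2 x = x.re + x.im * ((1 - Real.sqrt 5) / 2) := rfl

/-- `f1 α * f2 α = norm α`. -/
theorem HA1_norm (α : O5) : f1 α * f2 α = (QuadraticAlgebra.norm α : ℤ) := by
  rw [HA1_f1_def, HA1_f2_def, QuadraticAlgebra.norm_def]
  push_cast
  linear_combination (-(α.im : ℝ) ^ 2 / 4) * HA1_s5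

/-- `f1 (star α) = f2 α` and conversely -/
theorem HA1_star (α : O5) : f1 (star α) = f2 α ∧ f2 (star α) = f1 α := by
  rw [HA1_f1_def, HA1_f2_def, HA1_f1_def, HA1_f2_def, QuadraticAlgebra.re_star,
    QuadraticAlgebra.im_star]
  push_cast
  constructor
  · ring
  · ring

/-- For `α = α₀ + α₁ω`: `δ f1 α = u(n,m)`, `δ' f2 α = v(n,m)` with `n = α₀ + α₁`,
`m = α₀ + 3α₁`. -/
theorem HA1_nu (x : Ico) (n : ℕ) (m : ℤ) (hn : x.N.re + x.N.im = n)
    (hm : x.N.re + 3 * x.N.im = m) : nu1 x = uu n m ∧ nu2 x = vv n m := by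
  have hn' : (n : ℝ) = x.N.re + x.N.im := by exact_mod_cast hn.symm
  have hm' : (m : ℝ) = x.N.re + 3 * x.N.im := by exact_mod_cast hm.symm
  have hs := HA1_s5
  have hp := HA1_s5pos
  unfold nu1 nu2 uu vv dl1 dl2
  rw [← HA1_f1, ← HA1_f2, HA1_f1_def, HA1_f2_def, hn', hm']
  constructor
  · field_simp
    linear_combination (x.N.im : ℝ) * hs
  · field_simp
    linear_combination (-(x.N.im : ℝ)) * hs

/-- `N(n,m) = norm α` for `α = (3n-m)/2 + ((m-n)/2) ω`, `n ≡ m mod 2`. -/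
theorem HA1_NN (n : ℕ) (m : ℤ) (h : Even ((n : ℤ) - m)) :
    QuadraticAlgebra.norm (⟨(3 * (n : ℤ) - m) / 2, (m - (n : ℤ)) / 2⟩ : O5) = NN n m := by
  obtain ⟨t, ht⟩ := h
  have hm : m = (n : ℤ) - 2 * t := by omega
  subst hm
  rw [QuadraticAlgebra.norm_def]
  have e1 : (3 * (n : ℤ) - ((n : ℤ) - 2 * t)) / 2 = n + t := by omega
  have e2 : ((n : ℤ) - 2 * t - (n : ℤ)) / 2 = -t := by omega
  simp only [e1, e2]
  unfold NN
  have e3 : 5 * (n : ℤ) ^ 2 - ((n : ℤ) - 2 * t) ^ 2 = 4 * ((n : ℤ) ^ 2 + n * t - t ^ 2) := by ring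
  rw [e3, Int.mul_ediv_cancel_left _ (by norm_num)]
  ring

/-- `α₀ + α₁ = n`, `α₀ + 3 α₁ = m` for that `α`. -/
theorem HA1_coord (n : ℕ) (m : ℤ) (h : Even ((n : ℤ) - m)) :
    (3 * (n : ℤ) - m) / 2 + (m - (n : ℤ)) / 2 = n ∧
      (3 * (n : ℤ) - m) / 2 + 3 * ((m - (n : ℤ)) / 2) = m := by
  obtain ⟨t, ht⟩ := h
  constructor
  · omega
  · omega

/-- If `α` is totally positive then `α₀ + α₁ ≥ 1` and, for `n = α₀+α₁`, `m = α₀+3α₁`:
`m² < 5 n²`.  (`u, v > 0`: `α₀ + α₁ = δ f1 α + δ' f2 α` with `δ, δ' > 0`;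
`4 norm α = 5 n² - m²`.) -/
theorem HA1_pos (α : O5) (h : Pos α) : 1 ≤ α.re + α.im ∧
    (α.re + 3 * α.im) ^ 2 < 5 * (α.re + α.im) ^ 2 := by
  obtain ⟨h1, h2⟩ := h
  have hn : 0 < QuadraticAlgebra.norm α := by
    have h3 := mul_pos h1 h2
    rw [HA1_norm] at h3
    exact_mod_cast h3
  rw [QuadraticAlgebra.norm_def] at hn
  have hs := HA1_s5
  have hp := HA1_s5pos
  have hs1 : 1 < Real.sqrt 5 := by
    rw [show (1 : ℝ) = Real.sqrt 1 by simp]
    exact Real.sqrt_lt_sqrt (by norm_num) (by norm_num)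
  constructor
  · have h4 : (0 : ℝ) < (α.re : ℝ) + α.im := by
      rw [HA1_f1_def] at h1
      rw [HA1_f2_def] at h2
      have h5 : 0 < (1 + Real.sqrt 5) / 2 * (α.re + α.im * ((1 + Real.sqrt 5) / 2)) +
          (Real.sqrt 5 - 1) / 2 * (α.re + α.im * ((1 - Real.sqrt 5) / 2)) := by
        have h6 : 0 < (1 + Real.sqrt 5) / 2 := by positivity
        have h7 : 0 < (Real.sqrt 5 - 1) / 2 := by linarith
        exact add_pos (mul_pos h6 h1) (mul_pos h7 h2)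
      have h8 : (1 + Real.sqrt 5) / 2 * (α.re + α.im * ((1 + Real.sqrt 5) / 2)) +
          (Real.sqrt 5 - 1) / 2 * (α.re + α.im * ((1 - Real.sqrt 5) / 2)) =
          Real.sqrt 5 * ((α.re : ℝ) + α.im) := by ring
      rw [h8] at h5
      exact (mul_pos_iff_of_pos_left hp).1 h5
    have h5 : 0 < α.re + α.im := by exact_mod_cast h4
    omega
  · nlinarith

end H53M
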