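import Pool.Agent.Lib.H53M.HU
import Pool.Agent.Lib.H53M.HA1

/-!
# H53M, chunk HN (S/M): non-vanishing
-/

namespace H53M

theorem HN_w1 (hD : DFacts) : 0 < w1 := by
  unfold w1
  rw [Set.ncard_pos (hD.fin 1)]
  exact ⟨1, Ico.N_one⟩

/-- sums over sets on which the function is constant -/
theorem HN_const {S : Set Ico} (hS : S.Finite) (f : Ico → ℤ) (c : ℤ) (h : ∀ x ∈ S, f x = c) :
    ∑ᶠ x ∈ S, f x = S.ncard * c := by
  rw [finsum_mem_eq_finite_toFinset_sum _ hS, Finset.sum_congr rfl fun x hx =>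
    h x (hS.mem_toFinset.1 hx), Finset.sum_const, Set.ncard_eq_toFinset_card _ hS, nsmul_eq_mul]

theorem HN_phi (hD : DFacts) (k : ℕ) {x : Ico} (hx : x ∈ IN 1) : phi k x = phi k 1 := by
  have h := HU_unit hD k 1 x hx
  rwa [one_mul] at h

/-- `C(1) = w₁ φ(1)` (all `x` of norm one: `φ(x) = φ(1·x) = φ(1)`). -/
theorem HN_one (hD : DFacts) (k : ℕ) : CC k 1 = w1 * phi k 1 :=
  HN_const (hD.fin 1) _ _ fun x hx => HN_phi hD k hx

theorem HN_N_ofO (c : O5) : (Ico.ofO c).N = c ^ 2 := by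
  simp [Ico.N]

/-- `C(ω⁻²) = w₁ φ(1)`, `ω⁻² = 2 - ω = ⟨2,-1⟩`: `x ↦ ofO (ω - 1) * x` is a bijection from norm 1
to norm `(ω-1)² = 2 - ω` (inverse: multiplication by `ω`), `norm (ω-1) = -1`, `k - 2` even. -/
theorem HN_two (hD : DFacts) (k : ℕ) (hke : Even k) : CC k ⟨2, -1⟩ = w1 * phi k 1 := by
  have h1 : (om - 1) ^ 2 = (⟨2, -1⟩ : O5) := by decide
  have h2 : om * (om - 1) = 1 := by decide
  have h3 : (om - 1) * om = 1 := by decide
  have h4 : QuadraticAlgebra.norm (om - 1) = -1 := by decide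
  have hS : (fun x => Ico.ofO (om - 1) * x) '' IN 1 = IN ⟨2, -1⟩ := by
    ext y
    constructor
    · rintro ⟨x, hx, rfl⟩
      show (Ico.ofO (om - 1) * x).N = ⟨2, -1⟩
      have hx' : x.N = 1 := hx
      rw [Ico.N_mul, HN_N_ofO, hx', mul_one, h1]
    · intro hy
      have hy' : y.N = ⟨2, -1⟩ := hy
      refine ⟨Ico.ofO om * y, ?_, ?_⟩
      · show (Ico.ofO om * y).N = 1
        rw [Ico.N_mul, HN_N_ofO, hy', ← h1, ← mul_pow, h2, one_pow]
      · show Ico.ofO (om - 1) * (Ico.ofO om * y) = y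
        rw [← mul_assoc, ← map_mul, h3, map_one, one_mul]
  have hinj : Function.Injective fun x : Ico => Ico.ofO (om - 1) * x := by
    intro x y hxy
    have h5 : Ico.ofO om * (Ico.ofO (om - 1) * x) = Ico.ofO om * (Ico.ofO (om - 1) * y) :=
      congrArg (fun z => Ico.ofO om * z) hxy
    rwa [← mul_assoc, ← mul_assoc, ← map_mul, h2, map_one, one_mul, one_mul] at h5
  have hcard : (IN ⟨2, -1⟩).ncard = w1 := by
    rw [← hS, Set.ncard_image_of_injective _ hinj, w1]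
  have h6 : CC k ⟨2, -1⟩ = (IN ⟨2, -1⟩).ncard * phi k 1 := by
    refine HN_const (hD.fin _) _ _ fun y hy => ?_
    rw [← hS] at hy
    obtain ⟨x, hx, rfl⟩ := hy
    show phi k (Ico.ofO (om - 1) * x) = phi k 1
    have hk2 : Even (k - 2) := by
      rcases hke with ⟨r, hr⟩
      exact ⟨r - 1, by omega⟩
    rw [HU_scal, h4, hk2.neg_one_pow, one_mul, HN_phi hD k hx]
  rw [h6, hcard]

theorem HN (hD : DFacts) (k a b : ℕ) (hk : IsSix k a b) : carr k 1 1 + carr k 1 (-1) ≠ 0 := by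
  have hke : Even k := by have := hk.1; exact ⟨6 + 2 * a + 3 * b, by omega⟩
  have h1 : carr k 1 1 = w1 * phi k 1 := by
    rw [← HN_one hD k, carr, if_pos (by decide)]
    rfl
  have h2 : carr k 1 (-1) = w1 * phi k 1 := by
    rw [← HN_two hD k hke, carr, if_pos (by decide)]
    rfl
  rw [h1, h2]
  have h3 : (w1 : ℤ) ≠ 0 := by
    have := HN_w1 hD
    exact_mod_cast this.ne'
  have h4 := mul_ne_zero h3 (hD.phi_one k a b hk)
  intro h5
  apply h4
  linarith

end H53M
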