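import Pool.Agent.Lib.H53M.HA2
import Pool.Agent.Lib.H53M.HC
import Pool.Agent.Lib.H53M.HN

/-!
# H53M, chunk HARR (M): `Arr k (carr k)`
-/

namespace H53M

theorem HARR_im {z : ℂ} (hz : 0 < z.im) : 0 < (-1 / z).im := by
  have hz0 : z ≠ 0 := by rintro rfl; simp at hz
  have h1 : 0 < Complex.normSq z := Complex.normSq_pos.2 hz0
  have h2 : (-1 / z).im = z.im / Complex.normSq z := by
    rw [show -1 / z = -(z⁻¹) by ring, Complex.neg_im, Complex.inv_im]; ring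
  rw [h2]
  exact div_pos hz h1

theorem HARR_comb (hT : StT2) (d N : ℕ) (c : Fin N → ℂ) (r s : Fin N → Fin 2 → ℂ)
    (A : Fin N → Matrix (Fin 2) (Fin 2) ℂ) (z₁ z₂ : ℂ) (h₁ : 0 < z₁.im) (h₂ : 0 < z₂.im) :
    Summable (fun x : Ico => (∑ i, c i * F2 d (r i) (s i) (A i) x) *
      Complex.exp (2 * Real.pi * Complex.I * ((nu1 x : ℂ) * z₁ + (nu2 x : ℂ) * z₂))) ∧
    ThI (fun x => ∑ i, c i * F2 d (r i) (s i) (A i) x) z₁ z₂ =
      ∑ i, c i * ThI (F2 d (r i) (s i) (A i)) z₁ z₂ := by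
  have hs : ∀ i, Summable (fun x : Ico => c i * (F2 d (r i) (s i) (A i) x *
      Complex.exp (2 * Real.pi * Complex.I * ((nu1 x : ℂ) * z₁ + (nu2 x : ℂ) * z₂)))) :=
    fun i => (hT d (r i) (s i) (A i) z₁ z₂ h₁ h₂).1.mul_left (c i)
  have e : ∀ x : Ico, (∑ i, c i * F2 d (r i) (s i) (A i) x) *
      Complex.exp (2 * Real.pi * Complex.I * ((nu1 x : ℂ) * z₁ + (nu2 x : ℂ) * z₂)) =
      ∑ i, c i * (F2 d (r i) (s i) (A i) x *
      Complex.exp (2 * Real.pi * Complex.I * ((nu1 x : ℂ) * z₁ + (nu2 x : ℂ) * z₂))) := by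
    intro x
    rw [Finset.sum_mul]
    exact Finset.sum_congr rfl fun i _ => by ring
  constructor
  · simp only [e]
    exact summable_sum fun i _ => hs i
  · unfold ThI
    simp only [e]
    rw [Summable.tsum_finsetSum fun i _ => hs i]
    exact Finset.sum_congr rfl fun i _ => tsum_mul_left

/-- the series of `phi` is summable and has the transformation property (`HB3` and `StT2`). -/
theorem HARR_trans (hT : StT2) (k : ℕ) (hk : 12 ≤ k) (z₁ z₂ : ℂ) (h₁ : 0 < z₁.im)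
    (h₂ : 0 < z₂.im) :
    Summable (fun x : Ico => (phi k x : ℂ) *
      Complex.exp (2 * Real.pi * Complex.I * ((nu1 x : ℂ) * z₁ + (nu2 x : ℂ) * z₂))) ∧
    ThI (fun x => (phi k x : ℂ)) (-1 / z₁) (-1 / z₂) =
      (z₁ * z₂) ^ k * ThI (fun x => (phi k x : ℂ)) z₁ z₂ := by
  obtain ⟨N, c, r, s, A, h⟩ := HB3 k
  have e : (fun x : Ico => (phi k x : ℂ)) =
      fun x => ∑ i, c i * F2 (k - 2) (r i) (s i) (A i) x := funext h
  have hsum := HARR_comb hT (k - 2) N c r s A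
  constructor
  · simp only [h]
    exact (hsum z₁ z₂ h₁ h₂).1
  · rw [e, (hsum _ _ (HARR_im h₁) (HARR_im h₂)).2, (hsum z₁ z₂ h₁ h₂).2, Finset.mul_sum]
    refine Finset.sum_congr rfl fun i _ => ?_
    rw [(hT (k - 2) (r i) (s i) (A i) z₁ z₂ h₁ h₂).2]
    have hk2 : k - 2 + 2 = k := by omega
    rw [hk2]
    ring

/-- a nonzero coefficient comes from an icosian -/
theorem HARR_ex (k : ℕ) (hk : 12 ≤ k) (α : O5) (h : CC k α ≠ 0) :
    ∃ x : Ico, x ≠ 0 ∧ x.N = α := by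
  by_contra hcon
  push Not at hcon
  apply h
  unfold CC
  refine finsum_mem_eq_zero_of_forall_eq_zero fun x hx => ?_
  by_cases h0 : x = 0
  · rw [h0, HU_zero k hk]
  · exact absurd hx (hcon x h0)

theorem HARR_pos (hD : DFacts) (k : ℕ) (hk : 12 ≤ k) (α : O5) (h : CC k α ≠ 0) : Pos α := by
  obtain ⟨x, hx, rfl⟩ := HARR_ex k hk α h
  exact hD.pos x hx

/-- support and growth: if `carr k n m ≠ 0` there is `x ≠ 0` with `N x = α(n,m)` (`phi k 0 = 0`),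
so `HA1_pos` applies; `|carr| ≤ #{x : N x = α} C norm(α)^{k/2-1}`, and `{x : N x = α}` is contained
in `{x : N.re + N.im = n}` (`hD.count`, `Set.ncard_le_ncard`). -/
theorem HARR_bound (hD : DFacts) (k : ℕ) (hk : 12 ≤ k) (hke : Even k) :
    (∀ n m, carr k n m ≠ 0 → m ^ 2 < 5 * (n : ℤ) ^ 2 ∧ Even ((n : ℤ) - m)) ∧
    ∃ C : ℝ, ∀ n m, carr k n m ≠ 0 →
      |(carr k n m : ℝ)| ≤ C * (n : ℝ) ^ 4 * (NN n m : ℝ) ^ (k / 2 - 1) := by
  have hev : ∀ (n : ℕ) (m : ℤ), carr k n m ≠ 0 → Even ((n : ℤ) - m) := by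
    intro n m h
    by_contra hcon
    apply h
    unfold carr
    rw [if_neg hcon]
  have hcc : ∀ (n : ℕ) (m : ℤ), Even ((n : ℤ) - m) →
      carr k n m = CC k ⟨(3 * (n : ℤ) - m) / 2, (m - (n : ℤ)) / 2⟩ := by
    intro n m h
    unfold carr
    rw [if_pos h]
  have hpos : ∀ (n : ℕ) (m : ℤ), carr k n m ≠ 0 →
      Pos (⟨(3 * (n : ℤ) - m) / 2, (m - (n : ℤ)) / 2⟩ : O5) ∧ 1 ≤ (n : ℤ) ∧
        m ^ 2 < 5 * (n : ℤ) ^ 2 := by
    intro n m h
    have h1 := hev n m h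
    have h2 := h
    rw [hcc n m h1] at h2
    have h3 := HARR_pos hD k hk _ h2
    have h4 := HA1_pos _ h3
    obtain ⟨h5, h6⟩ := HA1_coord n m h1
    simp only [h5, h6] at h4
    exact ⟨h3, h4.1, h4.2⟩
  refine ⟨fun n m h => ⟨(hpos n m h).2.2, hev n m h⟩, ?_⟩
  obtain ⟨C1, hC1, hphi⟩ := HC k hk hke
  obtain ⟨C2, hC2⟩ := hD.count
  refine ⟨C2 * C1, fun n m h => ?_⟩
  obtain ⟨h1, h2, h3⟩ := hpos n m h
  have h4 := hev n m h
  obtain ⟨α, hα⟩ : ∃ α : O5, α = ⟨(3 * (n : ℤ) - m) / 2, (m - (n : ℤ)) / 2⟩ := ⟨_, rfl⟩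
  have hNN : QuadraticAlgebra.norm α = NN n m := by rw [hα]; exact HA1_NN n m h4
  have hN0 : (0 : ℝ) ≤ (NN n m : ℝ) := by
    have h5 := mul_pos (hα ▸ h1 : Pos α).1 (hα ▸ h1 : Pos α).2
    rw [HA1_norm, hNN] at h5
    exact h5.le
  rw [hcc n m h4, ← hα]
  have hfin := hD.fin α
  have e1 : CC k α = ∑ x ∈ hfin.toFinset, phi k x := by
    unfold CC
    exact finsum_mem_eq_finite_toFinset_sum _ hfin
  rw [e1]
  push_cast
  have hb : |∑ x ∈ hfin.toFinset, (phi k x : ℝ)| ≤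
      (hfin.toFinset.card : ℝ) * (C1 * (NN n m : ℝ) ^ (k / 2 - 1)) := by
    refine (Finset.abs_sum_le_sum_abs _ _).trans ?_
    rw [← nsmul_eq_mul]
    refine Finset.sum_le_card_nsmul _ _ _ fun x hx => ?_
    have hx' : x.N = α := (Set.Finite.mem_toFinset hfin).1 hx
    have h5 := hphi x
    rw [hx', hNN] at h5
    exact h5
  have hcard : (hfin.toFinset.card : ℝ) ≤ C2 * (n : ℝ) ^ 4 := by
    have h5 := hC2 n (by exact_mod_cast h2)
    refine le_trans ?_ h5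
    have h6 : (IN α).ncard ≤ {x : Ico | x.N.re + x.N.im = (n : ℤ)}.ncard := by
      refine Set.ncard_le_ncard ?_ (hD.fin2 n)
      intro x hx
      have hx' : x.N = α := hx
      show x.N.re + x.N.im = (n : ℤ)
      rw [hx', hα]
      exact (HA1_coord n m h4).1
    rw [Set.ncard_eq_toFinset_card _ hfin] at h6
    exact_mod_cast h6
  have hnn : 0 ≤ C1 * (NN n m : ℝ) ^ (k / 2 - 1) := by positivity
  calc |∑ x ∈ hfin.toFinset, (phi k x : ℝ)| ≤
      (hfin.toFinset.card : ℝ) * (C1 * (NN n m : ℝ) ^ (k / 2 - 1)) := hb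
    _ ≤ (C2 * (n : ℝ) ^ 4) * (C1 * (NN n m : ℝ) ^ (k / 2 - 1)) :=
        mul_le_mul_of_nonneg_right hcard hnn
    _ = _ := by ring

theorem HARR (hD : DFacts) (hT : StT2) (k a b : ℕ) (hk : IsSix k a b) : Arr k (carr k) := by
  have h12 : 12 ≤ k := by have := hk.1; omega
  have hke : Even k := by have := hk.1; exact ⟨6 + 2 * a + 3 * b, by omega⟩
  exact
  { supp := (HARR_bound hD k h12 hke).1
    bound := (HARR_bound hD k h12 hke).2
    trans := by
      intro z₁ z₂ h₁ h₂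
      have him : ∀ z : ℂ, 0 < z.im → 0 < (-1 / z).im := by
        intro z hz
        have hz0 : z ≠ 0 := by rintro rfl; simp at hz
        have h1 : 0 < Complex.normSq z := Complex.normSq_pos.2 hz0
        have h2 : (-1 / z).im = z.im / Complex.normSq z := by
          rw [show -1 / z = -(z⁻¹) by ring, Complex.neg_im, Complex.inv_im]; ring
        rw [h2]
        exact div_pos hz h1
      rw [HA2 hD k h12 _ _ (HARR_trans hT k h12 _ _ (him z₁ h₁) (him z₂ h₂)).1,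
        HA2 hD k h12 _ _ (HARR_trans hT k h12 z₁ z₂ h₁ h₂).1]
      exact (HARR_trans hT k h12 z₁ z₂ h₁ h₂).2
    ne := HN hD k a b hk }

end H53M
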