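import Pool.Agent.Lib.H53M.HD1
import Pool.Agent.Lib.H53M.HARR

/-!
# H53M, chunk HD2 (S/M): the divisibility (d)
-/

namespace H53M

/-- Proof.  `carr k n m = CC k α`, `NN n m = norm α` (`HA1_NN`), `Pos α` (some icosian `x ≠ 0` has
norm `α`, since `CC k α ≠ 0` and `phi k 0 = 0`); apply `HD1_split` / `HD1_inert` with
`e = padicValInt p (norm α)`, then `padicValInt.mul_..`/`padicValInt_dvd_iff`. -/
theorem HD2 (hD : DFacts) (k a b : ℕ) (hk : IsSix k a b) (hE : StHE k a b)
    (hF : ∀ p : ℕ, p.Prime → ak a b (p ^ 2) = (ak a b p) ^ 2 - (p : ℤ) ^ (k - 1)) :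
    ∀ p : ℕ, p.Prime → max 5 w1 < p → (p : ℤ) ∣ ak a b p → ∀ n m, carr k n m ≠ 0 →
      padicValInt p (NN n m) ≤ padicValInt p (carr k n m) := by
  intro p hp hpw ha n m hc
  haveI : Fact p.Prime := ⟨hp⟩
  have h12 : 12 ≤ k := by have := hk.1; omega
  have h5 : 5 < p := (le_max_left _ _).trans_lt hpw
  have hw : w1 < p := (le_max_right _ _).trans_lt hpw
  have hev : Even ((n : ℤ) - m) := by
    by_contra h
    rw [carr, if_neg h] at hc
    exact hc rfl
  rw [carr, if_pos hev] at hc ⊢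
  rw [← HA1_NN n m hev]
  set α : O5 := ⟨(3 * (n : ℤ) - m) / 2, (m - (n : ℤ)) / 2⟩ with hα
  have hpos : Pos α := by
    obtain ⟨x, hx, hx0⟩ : ∃ x ∈ {x : Ico | x.N = α}, phi k x ≠ 0 := by
      by_contra hcon
      push Not at hcon
      apply hc
      unfold CC
      exact finsum_mem_of_eqOn_zero hcon
    have hx1 : x ≠ 0 := by
      rintro rfl
      exact hx0 (HU_zero k h12)
    have h1 := hD.pos x hx1
    have hx' : x.N = α := hx
    rwa [hx'] at h1
  set e := padicValInt p (QuadraticAlgebra.norm α) with he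
  have hdvd : (p : ℤ) ^ e ∣ QuadraticAlgebra.norm α :=
    (padicValInt_dvd_iff e _).2 (Or.inr le_rfl)
  have hmod : (p % 5 = 1 ∨ p % 5 = 4) ∨ (p % 5 = 2 ∨ p % 5 = 3) := by
    have h1 : p % 5 < 5 := Nat.mod_lt _ (by norm_num)
    have h2 : p % 5 ≠ 0 := by
      intro h0
      have h3 : 5 ∣ p := Nat.dvd_of_mod_eq_zero h0
      rcases (Nat.dvd_prime hp).1 h3 with h4 | h4
      · norm_num at h4
      · omega
    omega
  have hmain : (p : ℤ) ^ e ∣ CC k α := by
    rcases hmod with h | h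
    · exact HD1_split hD k a b h12 hE p hp h hw ha e α hpos hdvd
    · exact HD1_inert hD k a b h12 hE p hp h hw ha (hF p hp) e α hpos hdvd
  exact ((padicValInt_dvd_iff e _).1 hmain).resolve_left hc

end H53M
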