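import Pool.Agent.Lib.H53M.HE1
import Pool.Agent.Lib.H53M.K0

/-!
# H53M, chunk HE2 (size M/L): the theta series of `L` as a `q`-series

`4 qL(u) = A² + D² + B₀² + (B₀+B₁)² + 2 B₁²`, `B₀ = D + 2e`, `B₁ = A + D + 2f`, so `qL ≥ 0`, finite
fibres, and `qL u = 0` iff `u = 0`; `psi (lq u) ≠ 0` implies `5 ∣ qL u`; `psi 0 = 0`.
-/

namespace H53M

open PowerSeries

/-- `Σ_{qL u = 5n} ψ(u) g(u)` as a power series. -/
noncomputable def lser (g : (Fin 4 → ℤ) → ℂ) : PowerSeries ℂ :=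
  PowerSeries.mk fun n => ∑ᶠ u ∈ {u : Fin 4 → ℤ | qL u = 5 * (n : ℤ)}, (psi (lq u) : ℂ) * g u

theorem HE2_qL (u : Fin 4 → ℤ) : 4 * qL u = u 0 ^ 2 + u 1 ^ 2 + (u 1 + 2 * u 2) ^ 2 +
    (u 1 + 2 * u 2 + (u 0 + u 1 + 2 * u 3)) ^ 2 + 2 * (u 0 + u 1 + 2 * u 3) ^ 2 := by
  simp only [qL, lq, lp, Ico.N, om, pow_succ, pow_zero, one_mul, QuadraticAlgebra.re_add,
    QuadraticAlgebra.re_mul, QuadraticAlgebra.im_mul]
  ring

theorem HE2_im (u : Fin 4 → ℤ) : (lq u).N.im = 0 := by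
  simp only [lq, lp, Ico.N, om, pow_succ, pow_zero, one_mul, QuadraticAlgebra.im_add,
    QuadraticAlgebra.re_mul, QuadraticAlgebra.im_mul]
  ring

theorem HE2_nonneg (u : Fin 4 → ℤ) : 0 ≤ qL u := by
  have h := HE2_qL u
  nlinarith [sq_nonneg (u 0), sq_nonneg (u 1), sq_nonneg (u 1 + 2 * u 2),
    sq_nonneg (u 1 + 2 * u 2 + (u 0 + u 1 + 2 * u 3)), sq_nonneg (u 0 + u 1 + 2 * u 3)]

theorem HE2_supp (u : Fin 4 → ℤ) (h : psi (lq u) ≠ 0) : (5 : ℤ) ∣ qL u := by
  unfold psi at h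
  by_cases h0 : r5 (lq u).N = 0
  · unfold r5 at h0
    rw [HE2_im] at h0
    simp only [Int.cast_zero, mul_zero, add_zero] at h0
    have := (ZMod.intCast_zmod_eq_zero_iff_dvd (lq u).N.re 5).1 h0
    exact_mod_cast this
  · rw [if_neg h0] at h
    exact absurd rfl h

theorem HE2_psi_zero : psi (lq 0) = 0 := by
  decide

theorem HE2_abs (x M : ℤ) (h : x ^ 2 ≤ M) : -M ≤ x ∧ x ≤ M := by
  have h1 : |x| ≤ M := by
    have h2 : |x| ≤ |x| ^ 2 := by
      rcases eq_or_ne x 0 with rfl | hx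
      · simp
      · have : 1 ≤ |x| := Int.one_le_abs hx
        nlinarith
    rw [sq_abs] at h2
    linarith
  exact abs_le.1 h1

theorem HE2_bd (u : Fin 4 → ℤ) (m : ℤ) (h : qL u ≤ m) : ∀ j, -(8 * m) ≤ u j ∧ u j ≤ 8 * m := by
  have h4 := HE2_qL u
  have h0 := HE2_nonneg u
  have s0 := sq_nonneg (u 0)
  have s1 := sq_nonneg (u 1)
  have s2 := sq_nonneg (u 1 + 2 * u 2)
  have s3 := sq_nonneg (u 1 + 2 * u 2 + (u 0 + u 1 + 2 * u 3))
  have s4 := sq_nonneg (u 0 + u 1 + 2 * u 3)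
  obtain ⟨a1, a2⟩ := HE2_abs (u 0) (4 * m) (by linarith)
  obtain ⟨b1, b2⟩ := HE2_abs (u 1) (4 * m) (by linarith)
  obtain ⟨c1, c2⟩ := HE2_abs (u 1 + 2 * u 2) (4 * m) (by linarith)
  obtain ⟨d1, d2⟩ := HE2_abs (u 0 + u 1 + 2 * u 3) (4 * m) (by linarith)
  intro j
  fin_cases j <;> simp <;> constructor <;> linarith

theorem HE2_fin' (m : ℤ) : {u : Fin 4 → ℤ | qL u ≤ m}.Finite := by
  refine (Set.finite_Icc (fun _ : Fin 4 => -(8 * m)) (fun _ => 8 * m)).subset ?_
  intro u hu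
  rw [Set.mem_Icc, Pi.le_def, Pi.le_def]
  exact ⟨fun j => (HE2_bd u m hu j).1, fun j => (HE2_bd u m hu j).2⟩

theorem HE2_fin (m : ℤ) : {u : Fin 4 → ℤ | qL u = m}.Finite :=
  (HE2_fin' m).subset fun u hu => by
    have : qL u = m := hu
    exact this.le

theorem HE2_zero (g : (Fin 4 → ℤ) → ℂ) : coeff 0 (lser g) = 0 := by
  rw [lser, coeff_mk]
  refine finsum_mem_of_eqOn_zero ?_
  intro u hu
  have hu' : qL u = 0 := by simpa using hu
  have hu0 : u = 0 := by
    funext j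
    obtain ⟨h1, h2⟩ := HE2_bd u 0 hu'.le j
    simp only [mul_zero, neg_zero] at h1 h2
    exact le_antisymm h2 h1
  simp only [hu0, HE2_psi_zero]
  simp

/-- the index of the fibre -/
def HE2_n (u : Fin 4 → ℤ) : ℕ := (qL u / 5).toNat

theorem HE2_n_fin (n : ℕ) : (HE2_n ⁻¹' {n}).Finite := by
  refine (HE2_fin' (5 * n + 5)).subset ?_
  intro u hu
  have h1 : (qL u / 5).toNat = n := hu
  have h2 := HE2_nonneg u
  have h3 : qL u / 5 = n := by omega
  change qL u ≤ 5 * n + 5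
  omega

theorem HE2_fibre (g : (Fin 4 → ℤ) → ℂ) (z : ℂ) (n : ℕ) :
    ∑' u : (HE2_n ⁻¹' {n}), (psi (lq (u : Fin 4 → ℤ)) : ℂ) * g u *
        Complex.exp (2 * Real.pi * Complex.I * z * (qL (u : Fin 4 → ℤ) : ℂ) / 5) =
      coeff n (lser g) * Complex.exp (2 * Real.pi * Complex.I * (n * z)) := by
  rw [tsum_subtype (HE2_n ⁻¹' {n}) (fun u : Fin 4 → ℤ => (psi (lq u) : ℂ) * g u *
        Complex.exp (2 * Real.pi * Complex.I * z * (qL u : ℂ) / 5))]
  rw [tsum_eq_finsum]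
  · rw [lser, coeff_mk, finsum_mem_def, finsum_mul]
    · refine finsum_congr fun u => ?_
      by_cases hu : u ∈ HE2_n ⁻¹' {n}
      · rw [Set.indicator_of_mem hu]
        have h1 : (qL u / 5).toNat = n := hu
        have h2 := HE2_nonneg u
        by_cases h5 : (5 : ℤ) ∣ qL u
        · have h3 : qL u = 5 * n := by omega
          rw [Set.indicator_of_mem (show u ∈ {u : Fin 4 → ℤ | qL u = 5 * (n : ℤ)} from h3), h3]
          congr 2
          push_cast
          ring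
        · have h3 : psi (lq u) = 0 := by
            by_contra hne
            exact h5 (HE2_supp u hne)
          rw [Set.indicator_of_notMem, h3]
          · simp
          · intro hmem
            have : qL u = 5 * n := hmem
            exact h5 ⟨n, this⟩
      · rw [Set.indicator_of_notMem hu, Set.indicator_of_notMem, zero_mul]
        intro hmem
        have h3 : qL u = 5 * n := hmem
        apply hu
        change (qL u / 5).toNat = n
        omega
  · exact (HE2_n_fin n).subset fun u hu => by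
      by_contra hne
      exact hu (Set.indicator_of_notMem hne _)

/-- If the theta series converges absolutely it is the `q`-series. -/
theorem HE2 (g : (Fin 4 → ℤ) → ℂ)
    (hs : ∀ z : ℂ, 0 < z.im → Summable fun u : Fin 4 → ℤ =>
      (psi (lq u) : ℂ) * g u * Complex.exp (2 * Real.pi * Complex.I * z * (qL u : ℂ) / 5)) :
    Cv (lser g) ∧ ∀ z : ℂ, 0 < z.im → ev (lser g) z =
      ∑' u : Fin 4 → ℤ, (psi (lq u) : ℂ) * g u *
        Complex.exp (2 * Real.pi * Complex.I * z * (qL u : ℂ) / 5) := by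
  constructor
  · intro z hz
    have h1 := (hs z hz).norm.hasSum.tsum_fiberwise HE2_n
    refine Summable.of_nonneg_of_le (fun n => norm_nonneg _) (fun n => ?_) h1.summable
    rw [← HE2_fibre g z n]
    have : Finite (HE2_n ⁻¹' {n}) := (HE2_n_fin n).to_subtype
    refine norm_tsum_le_tsum_norm ?_
    exact Summable.of_finite
  · intro z hz
    have h1 := (hs z hz).hasSum.tsum_fiberwise HE2_n
    unfold ev
    rw [← h1.tsum_eq]
    exact tsum_congr fun n => (HE2_fibre g z n).symm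

end H53M
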