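import Pool.Agent.Lib.H53M.TStat

/-!
# H53M, module H: definitions

`DFacts` collects the facts on the icosian ring supplied by module D; `StHE` is the identity
supplied by the theta series of `L` (part HE).
-/

namespace H53M

/-- `(k, a, b)`: the six weights with one-dimensional space of cusp forms. -/
def IsSix (k a b : ℕ) : Prop :=
  k = 12 + 4 * a + 6 * b ∧ ((a, b) = (0, 0) ∨ (a, b) = (1, 0) ∨ (a, b) = (0, 1) ∨
    (a, b) = (2, 0) ∨ (a, b) = (1, 1) ∨ (a, b) = (2, 1))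

/-- the coefficients of the cusp form -/
noncomputable def ak (a b n : ℕ) : ℤ := PowerSeries.coeff n (fser a b)

/-- icosians of norm `α` -/
def IN (α : O5) : Set Ico := {x | x.N = α}

/-- totally positive -/
def Pos (α : O5) : Prop := 0 < f1 α ∧ 0 < f2 α

/-- number of icosians of norm one -/
noncomputable def w1 : ℕ := (IN 1).ncard

/-- `π` divides the icosian `x` -/
def IDvd (π : O5) (x : Ico) : Prop := ∃ y : Ico, x = Ico.ofO π * y

/-- Facts on the icosian ring (module D). -/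
structure DFacts : Prop where
  /-- finitely many icosians of given norm -/
  fin : ∀ α : O5, (IN α).Finite
  /-- count of vectors of given `E8`-norm -/
  fin2 : ∀ n : ℤ, {x : Ico | x.N.re + x.N.im = n}.Finite
  count : ∃ C : ℝ, ∀ n : ℕ, 1 ≤ n →
    ({x : Ico | x.N.re + x.N.im = (n : ℤ)}.ncard : ℝ) ≤ C * (n : ℝ) ^ 4
  /-- norms are totally positive -/
  pos : ∀ x : Ico, x ≠ 0 → Pos x.N
  /-- `L` is parametrised by `ℤ⁴` -/
  fixed : ∀ z : Ico, Ico.st z = z → ∃ u : Fin 4 → ℤ, z = lq u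
  lq_fixed : ∀ u : Fin 4 → ℤ, Ico.st (lq u) = lq u
  lq_inj : Function.Injective lq
  lq_norm : ∀ u : Fin 4 → ℤ, (lq u).N = (qL u : O5)
  /-- `L5` is the set of all vectors of norm 5 -/
  mem_L5 : ∀ A D e f : ℤ, (A, D, e, f) ∈ L5 ↔ (lp A D e f).N = 5
  /-- invariance of `ψ` -/
  psi_conj : ∀ y z : Ico, Ico.st z = z → r5 y.N ≠ 0 → psi (y * z * Ico.st y) = psi z
  psi_smul : ∀ (n : ℤ) (z : Ico), Ico.st z = z → psi (n • z) = chi5 (n : ZMod 5) * psi z
  psi_supp : ∀ z : Ico, psi z ≠ 0 → r5 z.N = 0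
  /-- Lemma F, left version -/
  left_ex : ∀ (π : O5) (x : Ico), Prime π → Pos π → ¬ IDvd π x → π ∣ x.N →
    ∃ y z : Ico, y.N = π ∧ x = y * z
  left_un : ∀ (π : O5) (x y z y' z' : Ico), Prime π → Pos π → ¬ IDvd π x → y.N = π →
    y'.N = π → x = y * z → x = y' * z' → ∃ e : Ico, e.N = 1 ∧ y' = y * e
  /-- Lemma F, right version -/
  right_ex : ∀ (π : O5) (x : Ico), Prime π → Pos π → ¬ IDvd π x → π ∣ x.N →
    ∃ y z : Ico, y.N = π ∧ x = z * y
  right_un : ∀ (π : O5) (x y z y' z' : Ico), Prime π → Pos π → ¬ IDvd π x → y.N = π →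
    y'.N = π → x = z * y → x = z' * y' → ∃ e : Ico, e.N = 1 ∧ y' = e * y
  /-- D5, split case: `π π' = p` a rational prime different from 5 -/
  d5_split : ∀ (p : ℕ) (π : O5) (y w z : Ico), p.Prime → p ≠ 5 → Pos π →
    π * star π = (p : O5) → Ico.st z = z → ¬ IDvd π z → y.N = π → z = y * w →
    ∃ z' : Ico, Ico.st z' = z' ∧ z = y * z' * Ico.st y
  /-- D5, inert case -/
  d5_inert : ∀ (p : ℕ) (y w z : Ico), p.Prime → (p % 5 = 2 ∨ p % 5 = 3) →
    Ico.st z = z → ¬ IDvd (p : O5) z → (p : O5) ^ 2 ∣ z.N → y.N = (p : O5) → z = y * w →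
    ∃ z' : Ico, Ico.st z' = z' ∧ z = y * z' * Ico.st y
  /-- the vectors of norm 5 form one orbit under units and conjugation -/
  orbit : ∀ z z' : Ico, Ico.st z = z → Ico.st z' = z' → z.N = 5 → z'.N = 5 →
    ∃ e : Ico, e.N = 1 ∧ (z' = e * z * Ico.st e ∨ z' = e * Ico.bar z * Ico.st e)
  /-- primes of `O5` -/
  split : ∀ p : ℕ, p.Prime → (p % 5 = 1 ∨ p % 5 = 4) →
    ∃ π : O5, Pos π ∧ π * star π = (p : O5)
  prime_split : ∀ (p : ℕ) (π : O5), p.Prime → p ≠ 5 → π * star π = (p : O5) → Prime π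
  prime_inert : ∀ p : ℕ, p.Prime → (p % 5 = 2 ∨ p % 5 = 3) → Prime (p : O5)
  inert_dvd : ∀ (p : ℕ) (α : O5), p.Prime → (p % 5 = 2 ∨ p % 5 = 3) →
    (p : ℤ) ∣ QuadraticAlgebra.norm α → (p : O5) ∣ α
  /-- non-vanishing -/
  phi_one : ∀ k a b : ℕ, IsSix k a b → phi k 1 ≠ 0

/-- The identity obtained from the theta series of `L` (part HE). -/
def StHE (k a b : ℕ) : Prop := ∀ (x : Ico) (n : ℕ), 1 ≤ n →
  ∑ᶠ u ∈ {u : Fin 4 → ℤ | qL u = 5 * (n : ℤ)},
    psi (lq u) * PP (k - 2) (x * lq u * Ico.st x) = ak a b n * phi k x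

end H53M
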