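import Pool.Agent.Lib.H53M.KMF
import Pool.Agent.Lib.H53M.Q4B
import Pool.Agent.Lib.H53M.HDefs

/-!
# H53M, chunk HE3 (size M): one-dimensionality of the space of cusp forms of weight `k`

By `KMF` there is a Mathlib modular form `F` of weight `k` with `qExpansion 1 F = f`.  As in `Q4B`
(`Q4B_mono`) there is a modular form `M` of weight `k` with q-expansion `toC (fser a b)`
(`Δ` times `E₄^a E₆^b`; coefficients `0, 1` in degrees `0, 1`, see `coeff_zero_dl`, `coeff_one_dl`,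
`coeff_zero_e4`, `coeff_zero_e6`).  `G = F - (coeff 1 f) M` has the coefficients 0 and 1 equal to 0.
`ModularForm.qExpansion_eq_qExpansion_discriminant_mul`: `G = Δ G₁`, `G₁` of weight `k - 12` with
coefficient 0 equal to 0 (compare the coefficients of `q^1`; the one of `Δ` is 1), again
`G₁ = Δ G₂`, `G₂` of weight `k - 24 ∈ {-12, -8, -6, -4, -2, 2}`, so `G₂ = 0`
(`ModularForm.levelOne_neg_weight_rank_zero`, `ModularForm.levelOne_weight_two_rank_zero`; compare
`Q4B_aux`).  Hence `qExpansion 1 G = 0`.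
-/

namespace H53M

open PowerSeries UpperHalfPlane MatrixGroups

theorem HE3_fser_zero (a b : ℕ) : coeff 0 (fser a b) = 0 := by
  rw [fser, mul_assoc, coeff_zero_eq_constantCoeff_apply, map_mul,
    ← coeff_zero_eq_constantCoeff_apply, coeff_zero_dl, zero_mul]

theorem HE3_e (a b : ℕ) : coeff 0 (e4 ^ a * e6 ^ b) = 1 := by
  rw [coeff_zero_eq_constantCoeff_apply, map_mul, map_pow, map_pow,
      ← coeff_zero_eq_constantCoeff_apply, ← coeff_zero_eq_constantCoeff_apply, coeff_zero_e4,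
      coeff_zero_e6]
  simp

theorem HE3_fser_one (a b : ℕ) : coeff 1 (fser a b) = 1 := by
  rw [fser, mul_assoc, coeff_mul, Finset.Nat.antidiagonal_succ, Finset.sum_cons]
  simp [HE3_e, coeff_one_dl, coeff_zero_dl]

/-- one step of the division by the discriminant -/
theorem HE3_step {k : ℤ} (G : ModularForm 𝒮ℒ k) (h0 : coeff 0 (qExpansion 1 (G : ℍ → ℂ)) = 0) :
    ∃ G₁ : ModularForm 𝒮ℒ (k - 12), qExpansion 1 (G : ℍ → ℂ) =
      toC dl * qExpansion 1 (G₁ : ℍ → ℂ) := by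
  refine ⟨CuspForm.discriminantEquiv (ModularForm.toCuspForm G h0), ?_⟩
  rw [← qExp_dl]
  exact ModularForm.qExpansion_eq_qExpansion_discriminant_mul G h0

theorem HE3_dl_c0 : coeff 0 (toC dl) = 0 := by
  rw [coeff_map, coeff_zero_dl, map_zero]

theorem HE3_dl_c1 : coeff 1 (toC dl) = 1 := by
  rw [coeff_map, coeff_one_dl, map_one]

theorem HE3_mul_c1 (g : PowerSeries ℂ) : coeff 1 (toC dl * g) = coeff 0 g := by
  have h0 := HE3_dl_c0
  have h1 := HE3_dl_c1
  rw [coeff_mul, Finset.Nat.antidiagonal_succ, Finset.sum_cons]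
  rw [Finset.Nat.antidiagonal_zero, Finset.map_singleton, Finset.sum_singleton]
  change coeff 0 (toC dl) * coeff 1 g + coeff 1 (toC dl) * coeff 0 g = coeff 0 g
  rw [h0, h1, zero_mul, zero_add, one_mul]

/-- a form with two vanishing coefficients is divisible by the square of the discriminant -/
theorem HE3_two {k : ℤ} (G : ModularForm 𝒮ℒ k) (h0 : coeff 0 (qExpansion 1 (G : ℍ → ℂ)) = 0)
    (h1 : coeff 1 (qExpansion 1 (G : ℍ → ℂ)) = 0)
    (hk : ∀ H : ModularForm 𝒮ℒ (k - 12 - 12), H = 0) : qExpansion 1 (G : ℍ → ℂ) = 0 := by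
  obtain ⟨G₁, hG₁⟩ := HE3_step G h0
  have h2 : coeff 0 (qExpansion 1 (G₁ : ℍ → ℂ)) = 0 := by
    rw [← HE3_mul_c1, ← hG₁, h1]
  obtain ⟨G₂, hG₂⟩ := HE3_step G₁ h2
  rw [hG₁, hG₂, hk G₂]
  simp [qExpansion_zero]

theorem HE3_vanish {k a b : ℕ} (hk : IsSix k a b) (H : ModularForm 𝒮ℒ ((k : ℤ) - 12 - 12)) :
    H = 0 := by
  have h1 : ((k : ℤ) - 12 - 12) < 0 ∨ ((k : ℤ) - 12 - 12) = 2 := by
    rcases hk with ⟨hk, h | h | h | h | h | h⟩ <;>
    · simp only [Prod.mk.injEq] at h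
      omega
  rcases h1 with h1 | h1
  · exact rank_zero_iff_forall_zero.mp (ModularForm.levelOne_neg_weight_rank_zero h1) H
  · generalize ((k : ℤ) - 12 - 12) = j at *
    subst h1
    exact rank_zero_iff_forall_zero.mp ModularForm.levelOne_weight_two_rank_zero H

/-- the modular form -/
theorem HE3_M {k a b : ℕ} (hk : IsSix k a b) : ∃ M : ModularForm 𝒮ℒ (k : ℤ),
    qExpansion 1 (M : ℍ → ℂ) = toC (fser a b) := by
  obtain ⟨M, hM⟩ := Q4B_mono (w := 4 * a + 6 * b) (x := a) (y := b) rfl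
  have hw : (12 + ((4 * a + 6 * b : ℕ) : ℤ)) = (k : ℤ) := by
    rw [hk.1]
    push_cast
    ring
  refine ⟨ModularForm.mcast hw (((CuspForm.discriminant : ModularForm 𝒮ℒ 12)).mul M), ?_⟩
  have h1 : ((CuspForm.discriminant : ModularForm 𝒮ℒ 12) : ℍ → ℂ) = ModularForm.discriminant := rfl
  rw [ModularForm.coe_mcast, ModularForm.qExpansion_mul one_pos one_mem_strictPeriods_SL, hM, h1,
    qExp_dl, fser, mul_assoc, map_mul toC dl]

theorem HE3 {k a b : ℕ} (hk : IsSix k a b) (f : PowerSeries ℂ) (hf : Cv f) (h0 : coeff 0 f = 0)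
    (h : ∀ z : ℂ, 0 < z.im → ev f (-1 / z) = z ^ k * ev f z) :
    f = (coeff 1 f) • PowerSeries.map (Int.castRingHom ℂ) (fser a b) := by
  obtain ⟨F, hF⟩ := KMF f hf k h
  obtain ⟨M, hM⟩ := HE3_M hk
  have hG : qExpansion 1 ((F - (coeff 1 f) • M : ModularForm 𝒮ℒ (k : ℤ)) : ℍ → ℂ) =
      f - (coeff 1 f) • toC (fser a b) := by
    rw [FunLike.coe_sub, ModularForm.qExpansion_sub one_pos one_mem_strictPeriods_SL,
      FunLike.coe_smul, ModularForm.qExpansion_smul one_pos one_mem_strictPeriods_SL, hF, hM]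
  have h2 := HE3_two (F - (coeff 1 f) • M : ModularForm 𝒮ℒ (k : ℤ)) (by
    rw [hG, map_sub, coeff_smul, coeff_map, HE3_fser_zero, h0]
    simp) (by
    rw [hG, map_sub, coeff_smul, coeff_map, HE3_fser_one]
    simp) (HE3_vanish hk)
  rw [hG, sub_eq_zero] at h2
  exact h2

end H53M
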