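import Pool.Agent.Lib.H53M.HE1
import Pool.Agent.Lib.H53M.HE2
import Pool.Agent.Lib.H53M.HE3

/-!
# H53M, part HE: the identity from the theta series of `L`
-/

namespace H53M

open PowerSeries

/-- the vector attached to a parameter tuple -/
def HE_v (u : ℤ × ℤ × ℤ × ℤ) : Fin 4 → ℤ := ![u.1, u.2.1, u.2.2.1, u.2.2.2]

theorem HE_v_inj : Function.Injective HE_v := by
  rintro ⟨a, b, c, d⟩ ⟨a', b', c', d'⟩ h
  have h0 := congrFun h 0
  have h1 := congrFun h 1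
  have h2 := congrFun h 2
  have h3 := congrFun h 3
  simp [HE_v] at h0 h1 h2 h3
  rw [h0, h1, h2, h3]

theorem HE_lq_v (u : ℤ × ℤ × ℤ × ℤ) : lq (HE_v u) = lp u.1 u.2.1 u.2.2.1 u.2.2.2 := rfl

theorem HE_L5 (g : (Fin 4 → ℤ) → ℤ)
    (hL5 : ∀ A D e f : ℤ, (A, D, e, f) ∈ L5 ↔ (lp A D e f).N = 5)
    (hN : ∀ u : Fin 4 → ℤ, (lq u).N = (qL u : O5)) :
    ∑ᶠ u ∈ {u : Fin 4 → ℤ | qL u = 5 * ((1 : ℕ) : ℤ)}, g u = ∑ u ∈ L5, g (HE_v u) := by
  have hset : {u : Fin 4 → ℤ | qL u = 5 * ((1 : ℕ) : ℤ)} = HE_v '' (L5 : Set (ℤ × ℤ × ℤ × ℤ)) := by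
    ext u
    rw [Set.mem_ofPred_eq, Set.mem_image]
    constructor
    · intro h
      refine ⟨(u 0, u 1, u 2, u 3), ?_, ?_⟩
      · rw [Finset.mem_coe, hL5]
        have h1 := hN u
        rw [h] at h1
        have h2 : lq u = lp (u 0) (u 1) (u 2) (u 3) := rfl
        rw [← h2, h1]
        norm_num
      · funext j
        fin_cases j <;> rfl
    · rintro ⟨⟨A, D, e, f⟩, hv, rfl⟩
      rw [Finset.mem_coe, hL5] at hv
      have h1 := hN (HE_v (A, D, e, f))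
      rw [HE_lq_v] at h1
      simp only at h1
      rw [hv] at h1
      have h2 := congrArg QuadraticAlgebra.re h1
      simp at h2
      rw [← h2]
      rfl
  rw [hset, finsum_mem_image (HE_v_inj.injOn), finsum_mem_coe_finset]

theorem HE {k a b : ℕ} (hk : IsSix k a b) (hD : DFacts) (hT : StT3) : StHE k a b := by
  intro x n _
  obtain ⟨ζ, hζ, hPP⟩ := HE1 (k - 2) x
  have hk2 : k - 2 + 2 = k := by
    have := hk.1
    omega
  have hev : Even (k - 2) := by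
    have := hk.1
    refine ⟨5 + 2 * a + 3 * b, ?_⟩
    omega
  set g : (Fin 4 → ℤ) → ℂ := fun u => ((PP (k - 2) (x * lq u * Ico.st x) : ℤ) : ℂ) with hg
  have hterm : ∀ (z : ℂ) (u : Fin 4 → ℤ), (psi (lq u) : ℂ) * g u *
      Complex.exp (2 * Real.pi * Complex.I * z * (qL u : ℂ) / 5) =
      (1 / 2 : ℂ) * ∑ j, (psi (lq u) : ℂ) * lin4 (ζ j) (H1 (lq u)) ^ (k - 2) *
        Complex.exp (2 * Real.pi * Complex.I * z * (qL u : ℂ) / 5) := by
    intro z u
    rw [hg]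
    simp only
    rw [hPP u, Finset.mul_sum, Finset.mul_sum, Finset.mul_sum, Finset.sum_mul]
    refine Finset.sum_congr rfl fun j _ => ?_
    ring
  have hsum : ∀ z : ℂ, 0 < z.im → ∀ j, Summable fun u : Fin 4 → ℤ =>
      (psi (lq u) : ℂ) * lin4 (ζ j) (H1 (lq u)) ^ (k - 2) *
        Complex.exp (2 * Real.pi * Complex.I * z * (qL u : ℂ) / 5) :=
    fun z hz j => (hT (k - 2) (ζ j) z hev (hζ j) hz).1
  have hs : ∀ z : ℂ, 0 < z.im → Summable fun u : Fin 4 → ℤ =>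
      (psi (lq u) : ℂ) * g u * Complex.exp (2 * Real.pi * Complex.I * z * (qL u : ℂ) / 5) := by
    intro z hz
    refine ((summable_sum (s := Finset.univ) fun j _ => hsum z hz j).mul_left (1 / 2 : ℂ)).congr ?_
    intro u
    exact (hterm z u).symm
  have hts : ∀ z : ℂ, 0 < z.im → ∑' u : Fin 4 → ℤ, (psi (lq u) : ℂ) * g u *
      Complex.exp (2 * Real.pi * Complex.I * z * (qL u : ℂ) / 5) =
      (1 / 2 : ℂ) * ∑ j, ThL (k - 2) (ζ j) z := by
    intro z hz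
    rw [tsum_congr (hterm z), tsum_mul_left, Summable.tsum_finsetSum fun j _ => hsum z hz j]
    rfl
  obtain ⟨hCv, hev2⟩ := HE2 g hs
  have himp : ∀ z : ℂ, 0 < z.im → 0 < (-1 / z).im := by
    intro z hz
    have h1 := UpperHalfPlane.im_inv_neg_coe_pos ⟨z, hz⟩
    have h2 : -1 / z = (-z)⁻¹ := by rw [div_eq_mul_inv, inv_neg, neg_mul, one_mul]
    rw [h2]
    exact h1
  have htrans : ∀ z : ℂ, 0 < z.im → ev (lser g) (-1 / z) = z ^ k * ev (lser g) z := by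
    intro z hz
    rw [hev2 _ (himp z hz), hev2 _ hz, hts _ (himp z hz), hts _ hz]
    have h1 : ∀ j, ThL (k - 2) (ζ j) (-1 / z) = z ^ k * ThL (k - 2) (ζ j) z := by
      intro j
      have := (hT (k - 2) (ζ j) z hev (hζ j) hz).2
      rwa [hk2] at this
    rw [Finset.sum_congr rfl fun j _ => h1 j, ← Finset.mul_sum]
    ring
  have hser := HE3 hk (lser g) hCv (HE2_zero g) htrans
  have hcoef : ∀ m : ℕ, coeff m (lser g) =
      ((∑ᶠ u ∈ {u : Fin 4 → ℤ | qL u = 5 * (m : ℤ)},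
        psi (lq u) * PP (k - 2) (x * lq u * Ico.st x) : ℤ) : ℂ) := by
    intro m
    rw [lser, coeff_mk]
    have h1 := (Int.castAddHom ℂ).map_finsum_mem
      (fun u : Fin 4 → ℤ => psi (lq u) * PP (k - 2) (x * lq u * Ico.st x)) (HE2_fin (5 * (m : ℤ)))
    simp only [Int.coe_castAddHom] at h1
    rw [h1]
    refine finsum_mem_congr rfl fun u _ => ?_
    rw [Int.cast_mul]
  have h1 := congrArg (coeff n) hser
  rw [PowerSeries.coeff_smul, PowerSeries.coeff_map, hcoef n, hcoef 1,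
    HE_L5 _ hD.mem_L5 hD.lq_norm, smul_eq_mul] at h1
  have h2 : (∑ u ∈ L5, psi (lq (HE_v u)) * PP (k - 2) (x * lq (HE_v u) * Ico.st x)) =
      phi k x := rfl
  rw [h2] at h1
  have h3 : ((∑ᶠ u ∈ {u : Fin 4 → ℤ | qL u = 5 * (n : ℤ)},
        psi (lq u) * PP (k - 2) (x * lq u * Ico.st x) : ℤ) : ℂ) =
      ((ak a b n * phi k x : ℤ) : ℂ) := by
    rw [h1]
    push_cast
    rw [mul_comm]
    rfl
  exact_mod_cast h3

end H53M
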