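import Pool.Agent.Lib.H53M.KEV

/-!
# H53M, chunk HF2: the Hecke operator `T_p` on `q`-series
-/

namespace H53M

open PowerSeries

/-- The coefficients `a(p n)`. -/
noncomputable def HF2_A (p : ℕ) (f : PowerSeries ℂ) : PowerSeries ℂ :=
  PowerSeries.mk fun n => coeff (p * n) f

/-- The coefficients `a(n / p)`. -/
noncomputable def HF2_B (p : ℕ) (f : PowerSeries ℂ) : PowerSeries ℂ :=
  PowerSeries.mk fun n => if p ∣ n then coeff (n / p) f else 0

/-- `T_p f`. -/
noncomputable def HF2_T (p k : ℕ) (f : PowerSeries ℂ) : PowerSeries ℂ :=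
  HF2_A p f + ((p : ℂ) ^ (k - 1)) • HF2_B p f

theorem HF2_B_term (p : ℕ) (hp : 0 < p) (f : PowerSeries ℂ) (z : ℂ) (m : ℕ) :
    coeff (p * m) (HF2_B p f) * Complex.exp (2 * Real.pi * Complex.I * (((p * m : ℕ) : ℂ) * z)) =
      coeff m f * Complex.exp (2 * Real.pi * Complex.I * (m * (p * z))) := by
  rw [HF2_B, coeff_mk, if_pos (dvd_mul_right _ _), Nat.mul_div_cancel_left _ hp]
  congr 2
  push_cast
  ring

theorem HF2_B_supp (p : ℕ) (f : PowerSeries ℂ) (z : ℂ) : Function.support (fun n : ℕ =>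
    coeff n (HF2_B p f) * Complex.exp (2 * Real.pi * Complex.I * (n * z))) ⊆
      Set.range fun m : ℕ => p * m := by
  intro n hn
  by_contra h
  apply hn
  have h1 : ¬ p ∣ n := fun ⟨m, hm⟩ => h ⟨m, hm.symm⟩
  simp only [HF2_B, coeff_mk, if_neg h1, zero_mul]

theorem HF2_B_Cv {p : ℕ} (hp : 0 < p) {f : PowerSeries ℂ} (hf : Cv f) : Cv (HF2_B p f) := by
  intro z hz
  have hinj : Function.Injective fun m : ℕ => p * m := fun a b h => Nat.eq_of_mul_eq_mul_left hp h
  refine (hinj.summable_iff ?_).1 ?_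
  · intro n hn
    have h1 : n ∉ Function.support (fun n : ℕ =>
      coeff n (HF2_B p f) * Complex.exp (2 * Real.pi * Complex.I * (n * z))) :=
      fun h => hn (HF2_B_supp p f z h)
    rw [Function.notMem_support.1 h1, norm_zero]
  · have hz' : 0 < ((p : ℂ) * z).im := by
      have : (0 : ℝ) < p := by exact_mod_cast hp
      simp only [Complex.mul_im, Complex.natCast_re, Complex.natCast_im, zero_mul, add_zero]
      positivity
    refine (hf _ hz').congr fun m => ?_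
    simp only [Function.comp]
    rw [HF2_B_term p hp]

theorem HF2_B_ev {p : ℕ} (hp : 0 < p) (f : PowerSeries ℂ) (z : ℂ) :
    ev (HF2_B p f) z = ev f (p * z) := by
  have hinj : Function.Injective fun m : ℕ => p * m := fun a b h => Nat.eq_of_mul_eq_mul_left hp h
  rw [ev, ← hinj.tsum_eq (HF2_B_supp p f z), ev]
  exact tsum_congr fun m => HF2_B_term p hp f z m

theorem HF2_A_term (p : ℕ) (hp : 0 < p) (f : PowerSeries ℂ) (z : ℂ) (n : ℕ) :
    coeff n (HF2_A p f) * Complex.exp (2 * Real.pi * Complex.I * ((n : ℂ) * z)) =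
      coeff (p * n) f * Complex.exp (2 * Real.pi * Complex.I * (((p * n : ℕ) : ℂ) * (z / p))) := by
  have hp0 : (p : ℂ) ≠ 0 := by exact_mod_cast hp.ne'
  rw [HF2_A, coeff_mk]
  congr 2
  push_cast
  field_simp

theorem HF2_im {p : ℕ} (hp : 0 < p) {z : ℂ} (hz : 0 < z.im) (b : ℕ) :
    0 < ((z + b) / p).im := by
  have : (0 : ℝ) < p := by exact_mod_cast hp
  rw [Complex.div_natCast_im]
  simp only [Complex.add_im, Complex.natCast_im, add_zero]
  positivity

theorem HF2_A_Cv {p : ℕ} (hp : 0 < p) {f : PowerSeries ℂ} (hf : Cv f) : Cv (HF2_A p f) := by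
  intro z hz
  have hinj : Function.Injective fun m : ℕ => p * m := fun a b h => Nat.eq_of_mul_eq_mul_left hp h
  have hz' : 0 < (z / p).im := by simpa using HF2_im hp hz 0
  refine ((hf _ hz').comp_injective hinj).congr fun m => ?_
  simp only [Function.comp]
  rw [HF2_A_term p hp]

/-- The exponential sum. -/
theorem HF2_sum {p : ℕ} (hp : 0 < p) (m : ℕ) :
    ∑ b ∈ Finset.range p, Complex.exp (2 * Real.pi * Complex.I * (m * (b / p))) =
      if p ∣ m then (p : ℂ) else 0 := by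
  have hp0 : (p : ℂ) ≠ 0 := by exact_mod_cast hp.ne'
  set ζ : ℂ := Complex.exp (2 * Real.pi * Complex.I / p) ^ m with hζ
  have h1 : ∀ b : ℕ, Complex.exp (2 * Real.pi * Complex.I * (m * (b / p))) = ζ ^ b := by
    intro b
    rw [hζ, ← pow_mul, ← Complex.exp_nat_mul]
    congr 1
    push_cast
    ring
  have hprim := Complex.isPrimitiveRoot_exp p hp.ne'
  simp only [h1]
  by_cases h : p ∣ m
  · have h2 : ζ = 1 := (hprim.pow_eq_one_iff_dvd m).2 h
    rw [if_pos h, h2]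
    simp
  · have h2 : ζ ≠ 1 := fun h3 => h ((hprim.pow_eq_one_iff_dvd m).1 h3)
    have h3 : ζ ^ p = 1 := by
      rw [hζ, ← pow_mul, mul_comm m p, pow_mul, hprim.pow_eq_one, one_pow]
    rw [if_neg h, geom_sum_eq h2, h3, sub_self, zero_div]

theorem HF2_A_ev {p : ℕ} (hp : 0 < p) {f : PowerSeries ℂ} (hf : Cv f) {z : ℂ} (hz : 0 < z.im) :
    ev (HF2_A p f) z = (1 / p : ℂ) * ∑ b ∈ Finset.range p, ev f ((z + b) / p) := by
  have hp0 : (p : ℂ) ≠ 0 := by exact_mod_cast hp.ne'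
  have hinj : Function.Injective fun m : ℕ => p * m := fun a b h => Nat.eq_of_mul_eq_mul_left hp h
  have hs : ∀ b ∈ Finset.range p, Summable fun n : ℕ =>
      coeff n f * Complex.exp (2 * Real.pi * Complex.I * (n * ((z + b) / p))) :=
    fun b _ => (hf _ (HF2_im hp hz b)).of_norm
  have h1 : ∑ b ∈ Finset.range p, ev f ((z + b) / p) =
      ∑' n : ℕ, (p : ℂ) * if p ∣ n then coeff n f *
        Complex.exp (2 * Real.pi * Complex.I * (n * (z / p))) else 0 := by
    simp only [ev]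
    rw [← Summable.tsum_finsetSum hs]
    refine tsum_congr fun n => ?_
    have h2 : ∀ b : ℕ, coeff n f * Complex.exp (2 * Real.pi * Complex.I * (n * ((z + b) / p))) =
        coeff n f * Complex.exp (2 * Real.pi * Complex.I * (n * (z / p))) *
          Complex.exp (2 * Real.pi * Complex.I * (n * (b / p))) := by
      intro b
      rw [mul_assoc (coeff n f), ← Complex.exp_add]
      congr 2
      ring
    simp only [h2]
    rw [← Finset.mul_sum, HF2_sum hp]
    by_cases h : p ∣ n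
    · rw [if_pos h, if_pos h, mul_comm]
    · rw [if_neg h, if_neg h, mul_zero, mul_zero]
  rw [h1, tsum_mul_left, ← mul_assoc, one_div, inv_mul_cancel₀ hp0, one_mul,
    ← hinj.tsum_eq]
  · rw [ev]
    refine tsum_congr fun n => ?_
    rw [HF2_A_term p hp, if_pos (dvd_mul_right _ _)]
  · intro n hn
    by_contra h
    apply hn
    have h3 : ¬ p ∣ n := fun ⟨m, hm⟩ => h ⟨m, hm.symm⟩
    simp only [if_neg h3]

theorem HF2_Cv {p : ℕ} (hp : 0 < p) (k : ℕ) {f : PowerSeries ℂ} (hf : Cv f) :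
    Cv (HF2_T p k f) :=
  Cv_add (HF2_A_Cv hp hf) (Cv_smul _ (HF2_B_Cv hp hf))

theorem HF2_ev {p : ℕ} (hp : 0 < p) (k : ℕ) {f : PowerSeries ℂ} (hf : Cv f) {z : ℂ}
    (hz : 0 < z.im) : ev (HF2_T p k f) z =
      (1 / p : ℂ) * ∑ b ∈ Finset.range p, ev f ((z + b) / p) + (p : ℂ) ^ (k - 1) * ev f (p * z) := by
  rw [HF2_T, ev_add (HF2_A_Cv hp hf) (Cv_smul _ (HF2_B_Cv hp hf)) hz,
    ev_smul _ (HF2_B_Cv hp hf) hz, HF2_A_ev hp hf hz, HF2_B_ev hp f z]

/-- The sum over `ZMod p`. -/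
theorem HF2_zmod (p : ℕ) [NeZero p] (g : ℕ → ℂ) :
    ∑ b ∈ Finset.range p, g b = ∑ b : ZMod p, g b.val := by
  refine Finset.sum_nbij' (fun b => (b : ZMod p)) (fun b => b.val) (fun b _ => Finset.mem_univ _)
    (fun b _ => Finset.mem_range.2 (ZMod.val_lt b)) (fun b hb => ?_) (fun b _ => ?_)
    (fun b hb => ?_)
  · exact ZMod.val_cast_of_lt (Finset.mem_range.1 hb)
  · exact ZMod.natCast_zmod_val b
  · rw [ZMod.val_cast_of_lt (Finset.mem_range.1 hb)]

/-- Transformation of `T_p f` under `z ↦ -1/z`. -/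
theorem HF2_trans {p : ℕ} (hp : p.Prime) {k : ℕ} (hk : 1 ≤ k) {f : PowerSeries ℂ} (hf : Cv f)
    (H : ∀ α β γ δ : ℤ, α * δ - β * γ = 1 → ∀ z : ℂ, 0 < z.im →
      ev f (((α : ℂ) * z + β) / ((γ : ℂ) * z + δ)) = ((γ : ℂ) * z + δ) ^ k * ev f z)
    {z : ℂ} (hz : 0 < z.im) : ev (HF2_T p k f) (-1 / z) = z ^ k * ev (HF2_T p k f) z := by
  have hp0 : (p : ℂ) ≠ 0 := by exact_mod_cast hp.ne_zero
  have hpr : (0 : ℝ) < p := by exact_mod_cast hp.pos
  have hz0 : z ≠ 0 := by
    rintro rfl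
    simp at hz
  have : Fact p.Prime := ⟨hp⟩
  have : NeZero p := ⟨hp.ne_zero⟩
  have hz1 : 0 < (-1 / z).im := by
    rw [neg_div, one_div, Complex.neg_im, Complex.inv_im, neg_div, neg_neg]
    exact div_pos hz (Complex.normSq_pos.2 hz0)
  rw [HF2_ev hp.pos k hf hz1, HF2_ev hp.pos k hf hz, HF2_zmod, HF2_zmod]
  -- the two special terms
  have h1 : ev f (p * (-1 / z)) = (z / p) ^ k * ev f (z / p) := by
    have h2 := H 0 (-1) 1 0 (by norm_num) (z / p) (by
      rw [Complex.div_natCast_im]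
      positivity)
    rw [← show (((0 : ℤ) : ℂ) * (z / p) + ((-1 : ℤ) : ℂ)) / (((1 : ℤ) : ℂ) * (z / p) +
      ((0 : ℤ) : ℂ)) = p * (-1 / z) by
        push_cast
        rw [zero_mul, zero_add, one_mul, add_zero]
        field_simp, h2]
    congr 2
    push_cast
    ring
  have h2 : ev f ((-1 / z + ((0 : ZMod p).val : ℂ)) / p) = (p * z) ^ k * ev f (p * z) := by
    have h3 := H 0 (-1) 1 0 (by norm_num) (p * z) (by
      simp only [Complex.mul_im, Complex.natCast_re, Complex.natCast_im, zero_mul, add_zero]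
      positivity)
    rw [← show (((0 : ℤ) : ℂ) * (p * z) + ((-1 : ℤ) : ℂ)) / (((1 : ℤ) : ℂ) * (p * z) +
      ((0 : ℤ) : ℂ)) = (-1 / z + ((0 : ZMod p).val : ℂ)) / p by
        rw [ZMod.val_zero]
        push_cast
        field_simp
        ring, h3]
    congr 2
    push_cast
    ring
  have h3 : ∀ b : ZMod p, b ≠ 0 → ev f ((-1 / z + (b.val : ℂ)) / p) =
      z ^ k * ev f ((z + ((-b⁻¹ : ZMod p).val : ℂ)) / p) := by
    intro b hb
    set b' : ZMod p := -b⁻¹ with hb'
    have e1 : ((b.val * b'.val + 1 : ℕ) : ZMod p) = 0 := by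
      push_cast
      rw [ZMod.natCast_zmod_val, ZMod.natCast_zmod_val, hb', mul_neg, mul_inv_cancel₀ hb]
      ring
    obtain ⟨c, hc⟩ := (ZMod.natCast_eq_zero_iff _ _).1 e1
    have hcz : (b.val : ℤ) * b'.val + 1 = p * c := by exact_mod_cast hc
    have hcc : (b.val : ℂ) * b'.val + 1 = p * c := by exact_mod_cast hc
    have e2 := H b.val (-(c : ℤ)) p (-(b'.val : ℤ)) (by linear_combination -hcz)
      ((z + (b'.val : ℂ)) / p) (HF2_im hp.pos hz _)
    have e3 : ((p : ℤ) : ℂ) * ((z + (b'.val : ℂ)) / p) + ((-(b'.val : ℤ) : ℤ) : ℂ) = z := by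
      push_cast
      field_simp
      ring
    have e4 : (((b.val : ℤ) : ℂ) * ((z + (b'.val : ℂ)) / p) + ((-(c : ℤ) : ℤ) : ℂ)) / z =
        (-1 / z + (b.val : ℂ)) / p := by
      push_cast
      field_simp
      linear_combination hcc
    rw [e3, e4] at e2
    exact e2
  have h4 : ∀ g : ZMod p → ℂ, ∑ b, g b = g 0 + ∑ b ∈ Finset.univ.erase 0, g b :=
    fun g => (Finset.add_sum_erase _ _ (Finset.mem_univ 0)).symm
  have h5 : ∑ b ∈ Finset.univ.erase (0 : ZMod p), ev f ((-1 / z + (b.val : ℂ)) / p) =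
      z ^ k * ∑ b ∈ Finset.univ.erase (0 : ZMod p), ev f ((z + (b.val : ℂ)) / p) := by
    rw [Finset.mul_sum]
    refine Finset.sum_nbij' (fun b => -b⁻¹) (fun b => -b⁻¹) ?_ ?_ ?_ ?_ ?_
    · intro b hb
      simpa using hb
    · intro b hb
      simpa using hb
    · intro b _
      simp
    · intro b _
      simp
    · intro b hb
      exact h3 b (Finset.ne_of_mem_erase hb)
  rw [h4, h4 fun b => ev f ((z + (b.val : ℂ)) / p), h5, h1]
  simp only [h2]
  rw [ZMod.val_zero, Nat.cast_zero, add_zero]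
  obtain ⟨j, rfl⟩ : ∃ j, k = j + 1 := ⟨k - 1, by omega⟩
  rw [Nat.add_sub_cancel]
  generalize ev f (p * z) = A
  generalize ev f (z / p) = B
  generalize ∑ b ∈ Finset.univ.erase (0 : ZMod p), ev f ((z + (b.val : ℂ)) / p) = S
  rw [mul_pow, div_pow, pow_succ (p : ℂ), pow_succ z]
  have hpj : (p : ℂ) ^ j ≠ 0 := pow_ne_zero _ hp0
  field_simp
  ring

end H53M
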