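import Pool.Agent.Lib.H53M.HF1
import Pool.Agent.Lib.H53M.HF2

/-!
# H53M, part HF: the Hecke relation `a_{p²} = a_p² - p^{k-1}`

`T_p f` (`HF2_T`) is the `q`-series of a cusp form of weight `k` and level one, hence a multiple of
`f` (`HE3`).
-/

namespace H53M

open PowerSeries

/-- `T_p f = a_p f`. -/
theorem HF_eigen {k a b : ℕ} (hk : IsSix k a b) {p : ℕ} (hp : p.Prime) (n : ℕ) :
    ak a b (p * n) + (if p ∣ n then (p : ℤ) ^ (k - 1) * ak a b (n / p) else 0) =
      ak a b p * ak a b n := by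
  obtain ⟨M, hM⟩ := HF1_form (a := a) (b := b) hk.1
  have hf := (HF1_ev M hM).1
  have hk1 : 1 ≤ k := by
    have := hk.1
    omega
  have h1 := HE3 hk (HF2_T p k (toC (fser a b))) (HF2_Cv hp.pos k hf) (by
    rw [HF2_T, map_add, coeff_smul, HF2_A, HF2_B, coeff_mk, coeff_mk, if_pos (dvd_zero p),
      Nat.zero_div, mul_zero, coeff_map, HE3_fser_zero]
    simp) fun z hz => HF2_trans hp hk1 hf (fun α β γ δ hdet z hz => HF1_sl M hM α β γ δ hdet hz) hz
  have h2 := congrArg (coeff n) h1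
  have h3 : coeff 1 (HF2_T p k (toC (fser a b))) = ((ak a b p : ℤ) : ℂ) := by
    rw [HF2_T, map_add, coeff_smul, HF2_A, HF2_B, coeff_mk, coeff_mk,
      if_neg (fun h => hp.one_lt.ne' (Nat.dvd_one.1 h)), mul_one, coeff_map]
    simp [ak]
  rw [h3] at h2
  rw [HF2_T, map_add, coeff_smul, coeff_smul, HF2_A, HF2_B, coeff_mk, coeff_mk, coeff_map,
    coeff_map, coeff_map] at h2
  have h4 : ((ak a b (p * n) + (if p ∣ n then (p : ℤ) ^ (k - 1) * ak a b (n / p) else 0) : ℤ) : ℂ) =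
      ((ak a b p * ak a b n : ℤ) : ℂ) := by
    rw [Int.cast_add, Int.cast_mul, Int.cast_ite]
    by_cases h : p ∣ n
    · rw [if_pos h] at h2 ⊢
      simpa [ak] using h2
    · rw [if_neg h] at h2 ⊢
      simpa [ak] using h2
  exact_mod_cast h4

theorem HF_one (a b : ℕ) : ak a b 1 = 1 := HE3_fser_one a b

theorem HF_zero (a b : ℕ) : ak a b 0 = 0 := HE3_fser_zero a b

theorem HF {k a b : ℕ} (hk : IsSix k a b) {p : ℕ} (hp : p.Prime) :
    ak a b (p ^ 2) = ak a b p ^ 2 - (p : ℤ) ^ (k - 1) := by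
  have h1 := HF_eigen hk hp p
  rw [if_pos dvd_rfl, Nat.div_self hp.pos, HF_one, mul_one] at h1
  rw [sq, sq]
  linarith

end H53M
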