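import Pool.Agent.Lib.H53M.NP
import Pool.Agent.Lib.H53M.XFin
import Pool.Agent.Lib.H53M.HD2
import Pool.Agent.Lib.H53M.HE
import Pool.Agent.Lib.H53M.HF
import Pool.Agent.Lib.H53M.DFin

/-!
# H53M: the main theorem from the two Poisson statements
-/

namespace H53M

theorem Fin_main (hT2 : StT2) (hT3 : StT3) {k a b : ℕ} (hk : IsSix k a b) :
    ¬ ∀ ε : ℝ, 0 < ε → ∃ X₀ : ℕ, ∀ X ≥ X₀,
      (Set.ncard {p : ℕ | p ≤ X ∧ p.Prime ∧ ¬ (p : ℤ) ∣ ak a b p} : ℝ) * Real.log X ≤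
        ε * Real.sqrt X := by
  intro hsp
  have h12 : 12 ≤ k := by have := hk.1; omega
  have hke : Even k := by have := hk.1; exact ⟨6 + 2 * a + 3 * b, by omega⟩
  have hA : Arr k (carr k) := HARR dFacts hT2 k a b hk
  have hE : StHE k a b := HE hk dFacts hT3
  have hd := HD2 dFacts k a b hk hE (fun p hp => HF hk hp)
  set p0 : ℕ := max 5 w1 with hp0
  refine not_rel h12 hke hA (partII_rel (by omega) hA
    (fun p => p ≤ p0 ∨ ¬ (p : ℤ) ∣ ak a b p) ?_ ?_)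
  · intro ε hε
    obtain ⟨X1, hX1⟩ := hsp (ε / 2) (by positivity)
    -- `(p0 + 1) log X ≤ (ε/2) √X` for large `X`
    have hlog : ∃ X2 : ℕ, ∀ X : ℕ, X2 ≤ X →
        ((p0 : ℝ) + 1) * Real.log X ≤ ε / 2 * Real.sqrt X := by
      have h1 := (isLittleO_log_rpow_atTop (r := 1 / 2) (by norm_num)).def
        (c := ε / 2 / ((p0 : ℝ) + 1)) (by positivity)
      have h2 := (tendsto_natCast_atTop_atTop (R := ℝ)).eventually
        (h1.and (Filter.eventually_ge_atTop 1))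
      obtain ⟨X2, h3⟩ := Filter.eventually_atTop.1 h2
      refine ⟨X2, fun X hX => ?_⟩
      obtain ⟨h4, h5⟩ := h3 X hX
      rw [Real.norm_of_nonneg (Real.log_nonneg h5),
        Real.norm_of_nonneg (by positivity), ← Real.sqrt_eq_rpow] at h4
      calc ((p0 : ℝ) + 1) * Real.log X
          ≤ ((p0 : ℝ) + 1) * (ε / 2 / ((p0 : ℝ) + 1) * Real.sqrt X) :=
            mul_le_mul_of_nonneg_left h4 (by positivity)
        _ = ε / 2 * Real.sqrt X := by field_simp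
    obtain ⟨X2, hX2⟩ := hlog
    refine ⟨max X1 X2, fun X hX => ?_⟩
    have h1 := hX1 X (le_trans (le_max_left _ _) hX)
    have h2 := hX2 X (le_trans (le_max_right _ _) hX)
    have hl : 0 ≤ Real.log X := Real.log_natCast_nonneg X
    have hsub : {p : ℕ | p ≤ X ∧ p.Prime ∧ (p ≤ p0 ∨ ¬ (p : ℤ) ∣ ak a b p)} ⊆
        Set.Iic p0 ∪ {p : ℕ | p ≤ X ∧ p.Prime ∧ ¬ (p : ℤ) ∣ ak a b p} := by
      rintro p ⟨hp1, hp2, hp3⟩
      rcases hp3 with h | h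
      · exact Or.inl h
      · exact Or.inr ⟨hp1, hp2, h⟩
    have hfin : (Set.Iic p0 ∪ {p : ℕ | p ≤ X ∧ p.Prime ∧ ¬ (p : ℤ) ∣ ak a b p}).Finite :=
      (Set.finite_Iic p0).union ((Set.finite_Iic X).subset fun p hp => hp.1)
    have hcard : (Set.ncard {p : ℕ | p ≤ X ∧ p.Prime ∧ (p ≤ p0 ∨ ¬ (p : ℤ) ∣ ak a b p)} : ℝ) ≤
        ((p0 : ℝ) + 1) + (Set.ncard {p : ℕ | p ≤ X ∧ p.Prime ∧ ¬ (p : ℤ) ∣ ak a b p} : ℝ) := by
      have h3 := Set.ncard_le_ncard hsub hfin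
      have h4 := Set.ncard_union_le (Set.Iic p0)
        {p : ℕ | p ≤ X ∧ p.Prime ∧ ¬ (p : ℤ) ∣ ak a b p}
      have h5 : (Set.Iic p0).ncard = p0 + 1 := by
        rw [← Finset.coe_Iic, Set.ncard_coe_finset, Nat.card_Iic]
      rw [h5] at h4
      exact_mod_cast h3.trans h4
    calc (Set.ncard {p : ℕ | p ≤ X ∧ p.Prime ∧ (p ≤ p0 ∨ ¬ (p : ℤ) ∣ ak a b p)} : ℝ) *
          Real.log X
        ≤ (((p0 : ℝ) + 1) +
          (Set.ncard {p : ℕ | p ≤ X ∧ p.Prime ∧ ¬ (p : ℤ) ∣ ak a b p} : ℝ)) * Real.log X :=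
          mul_le_mul_of_nonneg_right hcard hl
      _ ≤ ε / 2 * Real.sqrt X + ε / 2 * Real.sqrt X := by rw [add_mul]; exact add_le_add h2 h1
      _ = ε * Real.sqrt X := by ring
  · intro p hp hpE
    rw [not_or, not_not] at hpE
    exact hd p hp (by omega) hpE.2

end H53M
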