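import Mathlib

/-!
# H53M: the Hecke polynomial at an ordinary prime
-/

namespace H53M

open Polynomial

/-- If `p` does not divide `a` then `X² - a X + p^{k-1}` has two roots in `ℤ_p`, of valuations
`0` and `k - 1`: the Newton polygon is the Hodge polygon with slopes `0` and `k - 1`. -/
theorem ORD (p : ℕ) [hp : Fact p.Prime] (a : ℤ) (k : ℕ) (hk : 2 ≤ k) (ha : ¬ (p : ℤ) ∣ a) :
    ∃ x y : ℤ_[p], x + y = (a : ℤ_[p]) ∧ x * y = (p : ℤ_[p]) ^ (k - 1) ∧ x.valuation = 0 ∧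
      y.valuation = k - 1 := by
  have hau : ‖(a : ℤ_[p])‖ = 1 := by
    have h1 : ‖(a : ℤ_[p])‖ ≤ 1 := PadicInt.norm_le_one _
    have h2 : ¬ ‖(a : ℤ_[p])‖ < 1 := by
      rw [PadicInt.norm_int_lt_one_iff_dvd]; exact ha
    linarith [not_lt.1 h2]
  set F : ℤ_[p][X] := X ^ 2 - C (a : ℤ_[p]) * X + C ((p : ℤ_[p]) ^ (k - 1)) with hF
  have hFa : F.eval (a : ℤ_[p]) = (p : ℤ_[p]) ^ (k - 1) := by
    simp [hF]; ring
  have hF' : F.derivative.eval (a : ℤ_[p]) = (a : ℤ_[p]) := by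
    rw [hF, derivative_add, derivative_C, derivative_sub, derivative_X_pow,
      derivative_mul, derivative_C, derivative_X]
    simp
    ring
  have hnp : ‖((p : ℤ_[p]) ^ (k - 1))‖ < 1 := by
    rw [norm_pow]
    have : ‖(p : ℤ_[p])‖ < 1 := by
      rw [PadicInt.norm_p]
      exact inv_lt_one_of_one_lt₀ (by exact_mod_cast hp.out.one_lt)
    exact pow_lt_one₀ (norm_nonneg _) this (by omega)
  have hnorm : ‖F.eval (a : ℤ_[p])‖ < ‖F.derivative.eval (a : ℤ_[p])‖ ^ 2 := by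
    rw [hFa, hF', hau]; simpa using hnp
  obtain ⟨x, hx, hxa, hx', -⟩ := hensels_lemma (F := F) (a := (a : ℤ_[p])) (by simpa using hnorm)
  have hx0 : x ^ 2 - (a : ℤ_[p]) * x + (p : ℤ_[p]) ^ (k - 1) = 0 := by
    simpa [hF] using hx
  have hxa' : ‖x - (a : ℤ_[p])‖ < 1 := by
    have : ‖x - (a : ℤ_[p])‖ < ‖F.derivative.eval (a : ℤ_[p])‖ := by simpa using hxa
    rwa [hF', hau] at this
  have hxn : ‖x‖ = 1 := by
    have h := PadicInt.norm_add_eq_max_of_ne (q := x - (a : ℤ_[p])) (r := (a : ℤ_[p]))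
      (by rw [hau]; exact ne_of_lt hxa')
    rw [sub_add_cancel, hau] at h
    rw [h]; exact max_eq_right hxa'.le
  have hxne : x ≠ 0 := by
    intro h; rw [h, norm_zero] at hxn; exact zero_ne_one hxn
  have hyx : x * ((a : ℤ_[p]) - x) = (p : ℤ_[p]) ^ (k - 1) := by linear_combination -hx0
  have hvx : x.valuation = 0 := by
    have := PadicInt.norm_eq_zpow_neg_valuation hxne
    rw [hxn] at this
    by_contra hne
    have hp1 : (1 : ℝ) < p := by exact_mod_cast hp.out.one_lt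
    have h3 : ((p : ℝ) ^ (-(x.valuation : ℤ))) < 1 := by
      rw [zpow_neg, zpow_natCast]
      exact inv_lt_one_of_one_lt₀ (one_lt_pow₀ hp1 hne)
    linarith
  have hyne : (a : ℤ_[p]) - x ≠ 0 := by
    intro h
    rw [h, mul_zero] at hyx
    exact pow_ne_zero (k - 1) (by exact_mod_cast hp.out.ne_zero) hyx.symm
  refine ⟨x, (a : ℤ_[p]) - x, by ring, hyx, hvx, ?_⟩
  have hv := PadicInt.valuation_mul hxne hyne
  rw [hyx, PadicInt.valuation_pow, PadicInt.valuation_p, hvx] at hv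
  omega

end H53M
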