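import Pool.Agent.Lib.H53M.Fin
import Pool.Agent.Lib.H53M.ORD

/-!
# H53M: the main theorem for cusp forms of Mathlib
-/

namespace H53M

open PowerSeries UpperHalfPlane MatrixGroups Filter Topology

/-- `(k, a, b)` for the six weights -/
theorem Fin2_six {k : ℕ} (hk : k = 12 ∨ k = 16 ∨ k = 18 ∨ k = 20 ∨ k = 22 ∨ k = 26) :
    ∃ a b : ℕ, IsSix k a b := by
  rcases hk with rfl | rfl | rfl | rfl | rfl | rfl
  · exact ⟨0, 0, by norm_num, by simp⟩
  · exact ⟨1, 0, by norm_num, by simp⟩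
  · exact ⟨0, 1, by norm_num, by simp⟩
  · exact ⟨2, 0, by norm_num, by simp⟩
  · exact ⟨1, 1, by norm_num, by simp⟩
  · exact ⟨2, 1, by norm_num, by simp⟩

/-- the normalised cusp form has the q-expansion `fser a b` -/
theorem Fin2_coeff {k a b : ℕ} (hk : IsSix k a b) (f : CuspForm 𝒮ℒ (k : ℤ))
    (hf : (qExpansion 1 (f : ℍ → ℂ)).coeff 1 = 1) (n : ℕ) :
    (qExpansion 1 (f : ℍ → ℂ)).coeff n = (ak a b n : ℂ) := by
  obtain ⟨M, hM⟩ := HE3_M hk
  have h0f : coeff 0 (qExpansion 1 (f : ℍ → ℂ)) = 0 := by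
    rw [CuspFormClass.qExpansion_coeff_zero f one_pos one_mem_strictPeriods_SL]
  have hG : qExpansion 1 (((f : ModularForm 𝒮ℒ (k : ℤ)) - M : ModularForm 𝒮ℒ (k : ℤ)) : ℍ → ℂ) =
      qExpansion 1 (f : ℍ → ℂ) - toC (fser a b) := by
    rw [FunLike.coe_sub, ModularForm.qExpansion_sub one_pos one_mem_strictPeriods_SL, hM]
    rfl
  have h2 := HE3_two ((f : ModularForm 𝒮ℒ (k : ℤ)) - M : ModularForm 𝒮ℒ (k : ℤ)) (by
    rw [hG, map_sub, coeff_map, HE3_fser_zero, h0f]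
    simp) (by
    rw [hG, map_sub, coeff_map, HE3_fser_one, hf]
    simp) (HE3_vanish hk)
  rw [hG, sub_eq_zero] at h2
  rw [h2, coeff_map]
  rfl

/-- ordinary primes: the Hecke polynomial has roots of valuations `0` and `k - 1` -/
theorem Fin2_ord {k p : ℕ} (hk : 2 ≤ k) [hp : Fact p.Prime] (a : ℤ) :
    (∃ x y : ℤ_[p], x + y = (a : ℤ_[p]) ∧ x * y = (p : ℤ_[p]) ^ (k - 1) ∧ x.valuation = 0 ∧
      y.valuation = k - 1) ↔ ¬ (p : ℤ) ∣ a := by
  constructor
  · rintro ⟨x, y, h1, h2, h3, h4⟩ hdvd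
    have hxy : x * y ≠ 0 := by
      rw [h2]; exact pow_ne_zero _ (by exact_mod_cast hp.out.ne_zero)
    have hx : x ≠ 0 := left_ne_zero_of_mul hxy
    have hy : y ≠ 0 := right_ne_zero_of_mul hxy
    have hxn : ‖x‖ = 1 := by
      rw [PadicInt.norm_eq_zpow_neg_valuation hx, h3]; simp
    have hyn : ‖y‖ < 1 := by
      rw [PadicInt.norm_eq_zpow_neg_valuation hy, h4, zpow_neg, zpow_natCast]
      exact inv_lt_one_of_one_lt₀ (one_lt_pow₀ (by exact_mod_cast hp.out.one_lt) (by omega))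
    have han : ‖(a : ℤ_[p])‖ = 1 := by
      rw [← h1, PadicInt.norm_add_eq_max_of_ne (by rw [hxn]; exact (ne_of_lt hyn).symm), hxn]
      exact max_eq_left hyn.le
    have := PadicInt.norm_int_lt_one_iff_dvd a |>.2 hdvd
    rw [han] at this
    exact lt_irrefl _ this
  · exact fun h => ORD p a k hk h

theorem Fin2_main (hT2 : StT2) (hT3 : StT3) {k a b : ℕ} (hk : IsSix k a b) :
    ¬ Tendsto (fun X : ℕ => ({p : ℕ | p ≤ X ∧ p.Prime ∧ ¬ (p : ℤ) ∣ ak a b p}.ncard : ℝ) *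
      Real.log X / Real.sqrt X) atTop (𝓝 0) := by
  intro ht
  refine Fin_main hT2 hT3 hk fun ε hε => ?_
  have h1 := ht.eventually (gt_mem_nhds hε)
  obtain ⟨X₀, h2⟩ := eventually_atTop.1 (h1.and (eventually_ge_atTop 1))
  refine ⟨X₀, fun X hX => ?_⟩
  obtain ⟨h3, h4⟩ := h2 X hX
  have hs : 0 < Real.sqrt X := Real.sqrt_pos.2 (by exact_mod_cast h4)
  rw [div_lt_iff₀ hs] at h3
  exact h3.le

theorem Fin2_inf {S : Set ℕ}
    (h : ¬ Tendsto (fun X : ℕ => ({p : ℕ | p ≤ X ∧ p ∈ S}.ncard : ℝ) *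
      Real.log X / Real.sqrt X) atTop (𝓝 0)) : S.Infinite := by
  intro hfin
  apply h
  have h1 : Tendsto (fun X : ℕ => (S.ncard : ℝ) * (Real.log X / Real.sqrt X)) atTop (𝓝 0) := by
    have h2 : Tendsto (fun x : ℝ => Real.log x / Real.sqrt x) atTop (𝓝 0) := by
      have := (isLittleO_log_rpow_atTop (r := 1 / 2) (by norm_num)).tendsto_div_nhds_zero
      simpa [Real.sqrt_eq_rpow] using this
    have h3 := (h2.comp (tendsto_natCast_atTop_atTop (R := ℝ))).const_mul (S.ncard : ℝ)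
    simpa using h3
  refine squeeze_zero' (Eventually.of_forall fun X => ?_) ?_ h1
  · have := Real.log_natCast_nonneg X
    positivity
  · refine Eventually.of_forall fun X => ?_
    have h4 : {p : ℕ | p ≤ X ∧ p ∈ S}.ncard ≤ S.ncard :=
      Set.ncard_le_ncard (fun p hp => hp.2) hfin
    have h5 : (({p : ℕ | p ≤ X ∧ p ∈ S}.ncard : ℕ) : ℝ) ≤ S.ncard := by exact_mod_cast h4
    have h6 := Real.log_natCast_nonneg X
    rw [mul_div_assoc]
    exact mul_le_mul_of_nonneg_right h5 (div_nonneg h6 (Real.sqrt_nonneg _))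

end H53M
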