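import Pool.Agent.Lib.H53M.HA1

/-!
# H53M, chunk HA2 (M): regrouping the theta series of the icosians by (n, m)
-/

namespace H53M

/-- nonnegativity of `n(x)` -/
theorem HA2_nonneg (hD : DFacts) (x : Ico) : 0 ≤ x.N.re + x.N.im := by
  by_cases hx : x = 0
  · subst hx
    decide
  · have h := HA1_pos x.N (hD.pos x hx)
    linarith [h.1]

/-- `m(x) ∈ ms n(x)` -/
theorem HA2_ms (hD : DFacts) (x : Ico) (n : ℕ) (hn : x.N.re + x.N.im = n) :
    x.N.re + 3 * x.N.im ∈ ms n := by
  unfold ms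
  rw [Finset.mem_Icc]
  by_cases hx : x = 0
  · subst hx
    have h0 : (0 : Ico).N = 0 := by decide
    rw [h0]
    simp
  · have h := (HA1_pos x.N (hD.pos x hx)).2
    rw [hn] at h
    have hn0 : (0 : ℤ) ≤ (n : ℤ) := by positivity
    constructor <;> nlinarith

/-- the coefficient as a finite sum over a fibre -/
theorem HA2_coef (k n : ℕ) (m : ℤ) (S : Finset Ico)
    (hS : ∀ x : Ico, x ∈ S ↔ x.N.re + x.N.im = (n : ℤ) ∧ x.N.re + 3 * x.N.im = m) :
    ∑ x ∈ S, phi k x = carr k n m := by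
  unfold carr
  by_cases he : Even ((n : ℤ) - m)
  · rw [if_pos he]
    unfold CC
    have hset : {x : Ico | x.N = ⟨(3 * (n : ℤ) - m) / 2, (m - (n : ℤ)) / 2⟩} = (S : Set Ico) := by
      ext x
      rw [Set.mem_ofPred_eq, Finset.mem_coe, hS]
      have hc := HA1_coord n m he
      constructor
      · intro h
        rw [h]
        exact hc
      · rintro ⟨h1, h2⟩
        obtain ⟨c1, c2⟩ := hc
        ext
        · show x.N.re = (3 * (n : ℤ) - m) / 2
          linarith
        · show x.N.im = (m - (n : ℤ)) / 2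
          linarith
    rw [hset, finsum_mem_coe_finset]
  · rw [if_neg he]
    have hE : S = ∅ := by
      apply Finset.eq_empty_of_forall_notMem
      intro x hx
      obtain ⟨h1, h2⟩ := (hS x).1 hx
      apply he
      refine ⟨-x.N.im, ?_⟩
      rw [← h1, ← h2]
      ring
    rw [hE]
    simp

/-- `Σ_x φ(x) e(ν z₁ + ν' z₂) = Σ_n Σ_m c(n,m) e(u z₁ + v z₂)`.

Proof.  Map every icosian `x` to `(n, m) = (N.re + N.im, N.re + 3 N.im)`, `n ≥ 0`
(`n ≥ 1` if `x ≠ 0` by `hD.pos` and `HA1_pos`; `phi k 0 = 0` because `PP d 0 = 0` for `d ≥ 1`).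
`m ∈ ms n` since `m² < 5n² ≤ 9n²`.  Sum first over the fibres of `n`: `Ico ≃ Σ n, {x | n(x) = n}`
(`Summable.tsum_sigma'` or `HasSum.tsum_fiberwise`, `hs` is the summability), each fibre is finite
(`hD.fin2`), and the sum over a fibre is the finite sum over `m ∈ ms n` of the sums over
`{x | N x = α(n,m)}`; on the latter the exponential is constant (`HA1_nu`, `HA1_coord`) and the
sum of `phi k` is `CC k α = carr k n m`; `n - m` is even automatically. -/
theorem HA2 (hD : DFacts) (k : ℕ) (hk : 12 ≤ k) (z₁ z₂ : ℂ)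
    (hs : Summable (fun x : Ico => (phi k x : ℂ) *
      Complex.exp (2 * Real.pi * Complex.I * ((nu1 x : ℂ) * z₁ + (nu2 x : ℂ) * z₂)))) :
    GS (fun n m => (carr k n m : ℂ)) z₁ z₂ = ThI (fun x => (phi k x : ℂ)) z₁ z₂ := by
  classical
  have h1 := hs.hasSum.tsum_fiberwise (fun x : Ico => (x.N.re + x.N.im).toNat)
  unfold ThI GS
  rw [← h1.tsum_eq]
  refine tsum_congr fun n => ?_
  have hfin := hD.fin2 (n : ℤ)
  have hpre : (fun x : Ico => (x.N.re + x.N.im).toNat) ⁻¹' {n} =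
      ((hfin.toFinset : Finset Ico) : Set Ico) := by
    ext x
    rw [Set.mem_preimage, Set.mem_singleton_iff, Set.Finite.coe_toFinset, Set.mem_ofPred_eq]
    have h0 := HA2_nonneg hD x
    omega
  rw [hpre]
  have h2 := Finset.tsum_subtype' hfin.toFinset (fun x : Ico => (phi k x : ℂ) *
      Complex.exp (2 * Real.pi * Complex.I * ((nu1 x : ℂ) * z₁ + (nu2 x : ℂ) * z₂)))
  rw [h2]
  have hmem : ∀ x ∈ hfin.toFinset, x.N.re + 3 * x.N.im ∈ ms n := by
    intro x hx
    rw [Set.Finite.mem_toFinset, Set.mem_ofPred_eq] at hx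
    exact HA2_ms hD x n hx
  rw [← Finset.sum_fiberwise_of_maps_to hmem]
  refine Finset.sum_congr rfl fun m _ => ?_
  have hS : ∀ x : Ico, x ∈ hfin.toFinset.filter (fun x : Ico => x.N.re + 3 * x.N.im = m) ↔
      x.N.re + x.N.im = (n : ℤ) ∧ x.N.re + 3 * x.N.im = m := by
    intro x
    rw [Finset.mem_filter, Set.Finite.mem_toFinset, Set.mem_ofPred_eq]
  beta_reduce
  rw [← HA2_coef k n m _ hS, Int.cast_sum, Finset.sum_mul]
  refine Finset.sum_congr rfl fun x hx => ?_
  obtain ⟨e1, e2⟩ := (hS x).1 hx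
  obtain ⟨g1, g2⟩ := HA1_nu x n m e1 e2
  rw [g1, g2]

end H53M
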