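import Pool.Agent.Lib.H53M.HDefs

/-!
# H53M, chunk HB1 (S/M): the matrices `cm x`, explicit 2×2 computations
-/

namespace H53M

open Matrix

/-- `J` -/
noncomputable def JJ : Matrix (Fin 2) (Fin 2) ℂ := !![0, 1; -1, 0]

theorem HB1_mul (x y : Quaternion ℝ) : cm (x * y) = cm x * cm y := by
  have hI := Complex.I_sq
  ext i j
  fin_cases i <;> fin_cases j <;>
    simp only [cm, Matrix.mul_apply, Fin.sum_univ_two, Quaternion.re_mul, Quaternion.imI_mul,
      Quaternion.imJ_mul, Quaternion.imK_mul, Matrix.of_apply, Matrix.cons_val', Matrix.cons_val_zero,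
      Matrix.cons_val_one, Matrix.cons_val_fin_one, Fin.zero_eta, Fin.mk_one, Fin.isValue] <;>
    push_cast
  · linear_combination (-(x.imI : ℂ) * y.imI - (x.imK : ℂ) * y.imK) * hI
  · linear_combination (-(x.imI : ℂ) * y.imK + (x.imK : ℂ) * y.imI) * hI
  · linear_combination (-(x.imK : ℂ) * y.imI + (x.imI : ℂ) * y.imK) * hI
  · linear_combination (-(x.imI : ℂ) * y.imI - (x.imK : ℂ) * y.imK) * hI

theorem HB1_one : cm 1 = 1 := by
  ext i j
  fin_cases i <;> fin_cases j <;> simp [cm, Quaternion.re_one, Quaternion.imI_one,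
    Quaternion.imJ_one, Quaternion.imK_one]

/-- `cm (x̄) = J⁻¹ (cm x)ᵀ J`, `J⁻¹ = -J`. -/
theorem HB1_star (x : Quaternion ℝ) : cm (star x) = -JJ * (cm x)ᵀ * JJ := by
  have ht : (cm x)ᵀ = !![(x.re : ℂ) + x.imI * Complex.I, -(x.imJ : ℂ) + x.imK * Complex.I;
      (x.imJ : ℂ) + x.imK * Complex.I, (x.re : ℂ) - x.imI * Complex.I] := by
    ext i j
    fin_cases i <;> fin_cases j <;> rfl
  rw [ht]
  ext i j
  fin_cases i <;> fin_cases j <;>
    simp [cm, JJ, Matrix.mul_apply, Fin.sum_univ_two, Quaternion.re_star, Quaternion.imI_star,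
      Quaternion.imJ_star, Quaternion.imK_star] <;> ring

/-- complex conjugate of `cm x`: `J (cm x) J⁻¹`. -/
theorem HB1_conj (x : Quaternion ℝ) :
    (cm x).map (starRingEnd ℂ) = -(JJ * cm x * JJ) := by
  ext i j
  fin_cases i <;> fin_cases j <;>
    simp [cm, JJ, Matrix.mul_apply, Fin.sum_univ_two] <;> ring

lemma HB1_f1_star (z : O5) : f1 (star z) = f2 z := by
  have h1 : (star z).re = z.re + z.im := by
    rw [QuadraticAlgebra.re_star]
    ring
  have h2 : (star z).im = -z.im := by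
    rw [QuadraticAlgebra.im_star]
  change ((star z).re : ℝ) + ((star z).im : ℝ) * ((1 + Real.sqrt 5) / 2) =
    (z.re : ℝ) + (z.im : ℝ) * ((1 - Real.sqrt 5) / 2)
  rw [h1, h2]
  push_cast
  ring

lemma HB1_f2_star (z : O5) : f2 (star z) = f1 z := by
  rw [← HB1_f1_star, star_star]

lemma HB1_f2_om : f2 om = 1 - f1 om := by
  change ((0 : ℤ) : ℝ) + ((1 : ℤ) : ℝ) * ((1 - Real.sqrt 5) / 2) =
    1 - (((0 : ℤ) : ℝ) + ((1 : ℤ) : ℝ) * ((1 + Real.sqrt 5) / 2))
  push_cast
  ring

lemma HB1_om_sq (φ : O5 →+* ℝ) : φ om ^ 2 = φ om + 1 := by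
  rw [← map_pow, Ico.om_sq, map_add, map_one]

lemma HB1_aux (p q : O5 →+* ℝ) (hs : ∀ z, p (star z) = q z) (ho : q om = 1 - p om) (x : Ico) :
    toH p (Ico.st x) = gH * star (toH q x) * ((-(1/2 : ℝ)) • gH) := by
  have h2 := HB1_om_sq p
  have h3 : p om ^ 3 = 2 * p om + 1 := by linear_combination (p om + 1) * h2
  have e2 : p 2 = 2 := map_ofNat p 2
  have key : ∀ y : Ico, toH q y = ⟨q y.a + q y.c * q om / 2 + q y.d * q om ^ 2 / 2,
    q y.b + q y.c * q om ^ 2 / 2 + q y.d * q om / 2, q y.c / 2, q y.d / 2⟩ := fun y => rfl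
  have key' : ∀ y : Ico, toH p y = ⟨p y.a + p y.c * p om / 2 + p y.d * p om ^ 2 / 2,
    p y.b + p y.c * p om ^ 2 / 2 + p y.d * p om / 2, p y.c / 2, p y.d / 2⟩ := fun y => rfl
  rw [key, key']
  ext
  · simp only [Quaternion.re_mul, Quaternion.imI_mul, Quaternion.imJ_mul, Quaternion.imK_mul,
      Quaternion.re_star, Quaternion.imI_star, Quaternion.imJ_star, Quaternion.imK_star,
      Quaternion.re_smul, Quaternion.imI_smul, Quaternion.imJ_smul, Quaternion.imK_smul,
      gH, Ico.st, map_add, map_sub, map_mul, map_neg, map_pow, map_one, hs, ho, e2, smul_eq_mul]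
    ring_nf
    simp only [h2]
    ring_nf
  · simp only [Quaternion.re_mul, Quaternion.imI_mul, Quaternion.imJ_mul, Quaternion.imK_mul,
      Quaternion.re_star, Quaternion.imI_star, Quaternion.imJ_star, Quaternion.imK_star,
      Quaternion.re_smul, Quaternion.imI_smul, Quaternion.imJ_smul, Quaternion.imK_smul,
      gH, Ico.st, map_add, map_sub, map_mul, map_neg, map_pow, map_one, hs, ho, e2, smul_eq_mul]
    ring_nf
    try simp only [h2, h3]
    try ring_nf
  · simp only [Quaternion.re_mul, Quaternion.imI_mul, Quaternion.imJ_mul, Quaternion.imK_mul,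
      Quaternion.re_star, Quaternion.imI_star, Quaternion.imJ_star, Quaternion.imK_star,
      Quaternion.re_smul, Quaternion.imI_smul, Quaternion.imJ_smul, Quaternion.imK_smul,
      gH, Ico.st, map_add, map_sub, map_mul, map_neg, map_pow, map_one, hs, ho, e2, smul_eq_mul]
    ring_nf
    try simp only [h2, h3]
    try ring_nf
  · simp only [Quaternion.re_mul, Quaternion.imI_mul, Quaternion.imJ_mul, Quaternion.imK_mul,
      Quaternion.re_star, Quaternion.imI_star, Quaternion.imJ_star, Quaternion.imK_star,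
      Quaternion.re_smul, Quaternion.imI_smul, Quaternion.imJ_smul, Quaternion.imK_smul,
      gH, Ico.st, map_add, map_sub, map_mul, map_neg, map_pow, map_one, hs, ho, e2, smul_eq_mul]
    ring_nf

/-- `H1 (x*) = g · conj (H2 x) · g⁻¹` with `g⁻¹ = -g/2`, and the same with `H1, H2` exchanged. -/
theorem HB1_st (x : Ico) :
    H1 (Ico.st x) = gH * star (H2 x) * ((-(1/2 : ℝ)) • gH) ∧
    H2 (Ico.st x) = gH * star (H1 x) * ((-(1/2 : ℝ)) • gH) := by
  refine ⟨HB1_aux f1 f2 HB1_f1_star HB1_f2_om x, HB1_aux f2 f1 HB1_f2_star ?_ x⟩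
  rw [HB1_f2_om]
  ring

end H53M
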