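import Pool.Agent.Lib.H53M.HB1

/-!
# H53M, chunk HB2 (M): `PP` through the complex embeddings of `ell`
-/

namespace H53M

open Matrix

/-- the complex number `f(re) + f(im) i` attached to an element of `O5[i]` -/
noncomputable def emb (f : O5 →+* ℝ) (w : O5i) : ℂ := (f w.re : ℂ) + (f w.im : ℂ) * Complex.I

theorem HB2_emb_mul (f : O5 →+* ℝ) (w w' : O5i) : emb f (w * w') = emb f w * emb f w' := by
  simp only [emb, QuadraticAlgebra.re_mul, QuadraticAlgebra.im_mul, map_add, map_mul, map_neg,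
    map_one, map_zero]
  push_cast
  linear_combination (-(f w.im : ℂ) * (f w'.im : ℂ)) * Complex.I_sq

lemma HB2_emb_one (f : O5 →+* ℝ) : emb f 1 = 1 := by
  have h1 : (1 : O5i).re = 1 := rfl
  have h2 : (1 : O5i).im = 0 := rfl
  rw [emb, h1, h2, map_one, map_zero]
  simp

lemma HB2_emb_pow (f : O5 →+* ℝ) (w : O5i) (n : ℕ) : emb f (w ^ n) = emb f w ^ n := by
  induction n with
  | zero => rw [pow_zero, pow_zero, HB2_emb_one]
  | succ n ih => rw [pow_succ, pow_succ, HB2_emb_mul, ih]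

lemma HB2_trace (z : O5) : ((QuadraticAlgebra.trace z : ℤ) : ℝ) = f1 z + f2 z := by
  have h1 : f1 z = (z.re : ℝ) + (z.im : ℝ) * ((1 + Real.sqrt 5) / 2) := rfl
  have h2 : f2 z = (z.re : ℝ) + (z.im : ℝ) * ((1 - Real.sqrt 5) / 2) := rfl
  rw [h1, h2, QuadraticAlgebra.trace_def]
  push_cast
  ring

/-- `Tr Re (w^d) = ½ Σ_{f = f1, f2} (emb f w ^ d + conj (emb f w) ^ d)`. -/
theorem HB2_PP (d : ℕ) (x : Ico) : (PP d x : ℂ) =
    (1/2) * (emb f1 (ell x) ^ d + (starRingEnd ℂ) (emb f1 (ell x)) ^ d +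
      emb f2 (ell x) ^ d + (starRingEnd ℂ) (emb f2 (ell x)) ^ d) := by
  have h1 : ((PP d x : ℤ) : ℝ) = f1 ((ell x) ^ d).re + f2 ((ell x) ^ d).re := HB2_trace _
  have h2 : (PP d x : ℂ) = (f1 ((ell x) ^ d).re : ℂ) + (f2 ((ell x) ^ d).re : ℂ) := by
    rw [← Complex.ofReal_add, ← h1]
    push_cast
    rfl
  have h3 : ∀ f : O5 →+* ℝ, emb f (ell x) ^ d + (starRingEnd ℂ) (emb f (ell x)) ^ d =
      2 * (f ((ell x) ^ d).re : ℂ) := by
    intro f
    rw [← map_pow, ← HB2_emb_pow]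
    simp only [emb, map_add, map_mul, Complex.conj_ofReal, Complex.conj_I]
    ring
  rw [h2]
  linear_combination (-1/2) * h3 f1 + (-1/2) * h3 f2

lemma HB2_ell_aux (f : O5 →+* ℝ) (x : Ico) :
    emb f (ell x) = 2 * dotProduct (vecMul ![1, 0] (cm (toH f x))) ![1, 1 + Complex.I] := by
  have e2 : f 2 = 2 := map_ofNat f 2
  have key : toH f x = ⟨f x.a + f x.c * f om / 2 + f x.d * f om ^ 2 / 2,
    f x.b + f x.c * f om ^ 2 / 2 + f x.d * f om / 2, f x.c / 2, f x.d / 2⟩ := rfl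
  rw [key]
  simp only [emb, ell, cm, vecMul, dotProduct, Fin.sum_univ_two, Matrix.of_apply,
    Matrix.cons_val', Matrix.cons_val_zero, Matrix.cons_val_one, Matrix.cons_val_fin_one,
    map_add, map_sub, map_mul, map_pow, e2]
  push_cast
  linear_combination (-(f x.d : ℂ)) * Complex.I_sq

/-- `emb f1 (ell x) = 2 (1,0) · cm (H1 x) · (1, 1+i)ᵀ` and the same for `f2, H2`. -/
theorem HB2_ell (x : Ico) :
    emb f1 (ell x) = 2 * dotProduct (vecMul ![1, 0] (cm (H1 x))) ![1, 1 + Complex.I] ∧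
    emb f2 (ell x) = 2 * dotProduct (vecMul ![1, 0] (cm (H2 x))) ![1, 1 + Complex.I] :=
  ⟨HB2_ell_aux f1 x, HB2_ell_aux f2 x⟩

lemma HB2_emb_smul (f : O5 →+* ℝ) (n : ℤ) (x : Ico) :
    emb f (ell (n • x)) = n * emb f (ell x) := by
  have h1 : n • x = ⟨(n : O5) * x.a, (n : O5) * x.b, (n : O5) * x.c, (n : O5) * x.d⟩ := by
    rw [← Ico.ofO_mul, zsmul_eq_mul, map_intCast]
  rw [h1]
  simp only [emb, ell, map_add, map_sub, map_mul, map_pow, map_intCast]
  push_cast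
  ring

/-- `PP d (n • x) = n^d PP d x`, `PP d 0 = 0` for `d ≥ 1`. -/
theorem HB2_smul (d : ℕ) (n : ℤ) (x : Ico) : PP d (n • x) = n ^ d * PP d x := by
  have h1 : ((PP d (n • x) : ℤ) : ℂ) = ((n ^ d * PP d x : ℤ) : ℂ) := by
    push_cast
    rw [HB2_PP, HB2_PP, HB2_emb_smul, HB2_emb_smul, map_mul, map_mul, map_intCast,
      mul_pow, mul_pow, mul_pow, mul_pow]
    ring
  exact_mod_cast h1

theorem HB2_zero (d : ℕ) (hd : 1 ≤ d) : PP d 0 = 0 := by
  have h := HB2_smul d 0 0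
  rw [zero_smul, zero_pow (by omega), zero_mul] at h
  exact h

end H53M
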