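import Pool.Agent.Lib.H53M.HU

/-!
# H53M, chunk HG (M/L): products of icosians of norm α and π (H4)
-/

namespace H53M

private theorem hg_O5_ext {a b : O5} (h1 : f1 a = f1 b) (h2 : f2 a = f2 b) : a = b := by
  have e1 : (a.re : ℝ) + a.im * ((1 + Real.sqrt 5) / 2) =
      b.re + b.im * ((1 + Real.sqrt 5) / 2) := h1
  have e2 : (a.re : ℝ) + a.im * ((1 - Real.sqrt 5) / 2) =
      b.re + b.im * ((1 - Real.sqrt 5) / 2) := h2
  have h5 : 0 < Real.sqrt 5 := Real.sqrt_pos.2 (by norm_num)
  have e3 : ((a.im : ℝ) - b.im) * Real.sqrt 5 = 0 := by linear_combination e1 - e2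
  have e4 : (a.im : ℝ) = b.im := by
    rcases mul_eq_zero.1 e3 with h | h
    · linarith
    · exact absurd h h5.ne'
  have e5 : (a.re : ℝ) = b.re := by
    rw [e4] at e1
    linarith
  apply QuadraticAlgebra.ext
  · exact_mod_cast e5
  · exact_mod_cast e4

/-- cancellation of a totally positive factor in `O5` -/
private theorem hg_cancel {π a b : O5} (hπ : Pos π) (h : π * a = π * b) : a = b := by
  refine hg_O5_ext ?_ ?_
  · have := congrArg f1 h
    rw [map_mul, map_mul] at this
    exact mul_left_cancel₀ hπ.1.ne' this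
  · have := congrArg f2 h
    rw [map_mul, map_mul] at this
    exact mul_left_cancel₀ hπ.2.ne' this

/-- cancellation of a totally positive central factor -/
private theorem hg_cancelI {π : O5} {x y : Ico} (hπ : Pos π)
    (h : Ico.ofO π * x = Ico.ofO π * y) : x = y := by
  rw [Ico.ofO_mul, Ico.ofO_mul] at h
  have ha := congrArg Ico.a h
  have hb := congrArg Ico.b h
  have hc := congrArg Ico.c h
  have hd := congrArg Ico.d h
  simp only at ha hb hc hd
  ext1
  · exact hg_cancel hπ ha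
  · exact hg_cancel hπ hb
  · exact hg_cancel hπ hc
  · exact hg_cancel hπ hd

/-- right cancellation of an element of totally positive norm -/
private theorem hg_rcancel {x x' y : Ico} (hy : Pos y.N) (h : x * y = x' * y) : x = x' := by
  have h1 : x * y * Ico.bar y = x' * y * Ico.bar y := by rw [h]
  rw [mul_assoc, mul_assoc, Ico.mul_bar, Ico.mul_ofO, Ico.mul_ofO] at h1
  exact hg_cancelI hy h1

private theorem hg_N_ofO (π : O5) : (Ico.ofO π).N = π ^ 2 := by
  simp [Ico.N]

/-- Number of factorisations `w = x y`, `N y = π`.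
(i) `π ∤ w`, `π ∣ N w`: exactly `w₁` (classes `e y₀`, `hD.right_ex`, `hD.right_un`).
(ii) `w = π w'`: every `y` of norm `π` occurs: `w = (w' ȳ) y`. -/
theorem HG_count (hD : DFacts) (π : O5) (w : Ico) (hP : Prime π) (hπ : Pos π) :
    (¬ IDvd π w → π ∣ w.N → {y : Ico | y.N = π ∧ ∃ x : Ico, w = x * y}.ncard = w1) ∧
    (IDvd π w → {y : Ico | y.N = π ∧ ∃ x : Ico, w = x * y}.ncard = (IN π).ncard) := by
  constructor
  · intro hnd hd
    obtain ⟨y₀, z₀, hy₀, hw⟩ := hD.right_ex π w hP hπ hnd hd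
    have himg : {y : Ico | y.N = π ∧ ∃ x : Ico, w = x * y} = (fun e => e * y₀) '' (IN 1) := by
      ext y
      constructor
      · rintro ⟨hy, x, hx⟩
        obtain ⟨e, he, hey⟩ := hD.right_un π w y₀ z₀ y x hP hπ hnd hy₀ hy hw hx
        exact ⟨e, he, hey.symm⟩
      · rintro ⟨e, he, rfl⟩
        have he' : e.N = 1 := he
        refine ⟨?_, z₀ * Ico.bar e, ?_⟩
        · simp only
          rw [Ico.N_mul, he', hy₀, one_mul]
        · simp only
          rw [mul_assoc, ← mul_assoc (Ico.bar e), Ico.bar_mul_self, he', map_one, one_mul]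
          exact hw
    rw [himg]
    unfold w1
    refine Set.ncard_image_of_injective _ fun e e' h => ?_
    exact hg_rcancel (y := y₀) (by rw [hy₀]; exact hπ) h
  · rintro ⟨w', hw'⟩
    congr 1
    ext y
    constructor
    · rintro ⟨hy, -⟩
      exact hy
    · intro hy
      have hy' : y.N = π := hy
      refine ⟨hy', w' * Ico.bar y, ?_⟩
      rw [mul_assoc, Ico.bar_mul_self, hy', Ico.mul_ofO, hw']

/-- `Σ_{x ∈ IN α} Σ_{y ∈ IN π} φ(xy) = w₁ C(πα) + (#IN π - w₁) (norm π)^{k-2} C(β)` if `α = π β`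
and `= w₁ C(πα)` if `π ∤ α`.
Proof.  Exchange the finite sums: `Σ_w φ(w) #{(x,y) : xy = w}` over `w ∈ IN (πα)`; `x` is
determined by `y` (cancellation) and `N x = α` automatically.  `HG_count`; the `w` divisible by
`π` are `w = π w'`, `π² N w' = π α`, i.e. `N w' = β` with `α = π β` (none if `π ∤ α`), and
`φ(π w') = (norm π)^{k-2} φ(w')` (`HU_scal`). -/
theorem HG (hD : DFacts) (k : ℕ) (π α : O5) (hP : Prime π) (hπ : Pos π) (hα : Pos α) :
    (∀ β : O5, α = π * β → ∑ᶠ x ∈ IN α, ∑ᶠ y ∈ IN π, phi k (x * y) =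
      w1 * CC k (π * α) +
        (((IN π).ncard : ℤ) - w1) * (QuadraticAlgebra.norm π) ^ (k - 2) * CC k β) ∧
    (¬ π ∣ α → ∑ᶠ x ∈ IN α, ∑ᶠ y ∈ IN π, phi k (x * y) = w1 * CC k (π * α)) := by
  classical
  have hfA := hD.fin α
  have hfB := hD.fin π
  have hfW := hD.fin (π * α)
  set A := hfA.toFinset with hA
  set B := hfB.toFinset with hB
  set W := hfW.toFinset with hW
  have mA : ∀ x, x ∈ A ↔ x.N = α := fun x => by rw [hA, Set.Finite.mem_toFinset]; rfl
  have mB : ∀ x, x ∈ B ↔ x.N = π := fun x => by rw [hB, Set.Finite.mem_toFinset]; rfl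
  have mW : ∀ x, x ∈ W ↔ x.N = π * α := fun x => by rw [hW, Set.Finite.mem_toFinset]; rfl
  have hCC : CC k (π * α) = ∑ w ∈ W, phi k w := by
    unfold CC
    exact finsum_mem_eq_finite_toFinset_sum _ hfW
  -- the double sum
  have hLHS : ∑ᶠ x ∈ IN α, ∑ᶠ y ∈ IN π, phi k (x * y) =
      ∑ w ∈ W, ({y : Ico | y.N = π ∧ ∃ x : Ico, w = x * y}.ncard : ℤ) * phi k w := by
    rw [finsum_mem_eq_finite_toFinset_sum _ hfA, ← hA]
    have h1 : ∀ x ∈ A, ∑ᶠ y ∈ IN π, phi k (x * y) = ∑ y ∈ B, phi k (x * y) := fun x _ =>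
      finsum_mem_eq_finite_toFinset_sum _ hfB
    rw [Finset.sum_congr rfl h1, ← Finset.sum_product',
      ← Finset.sum_fiberwise_of_maps_to (s := A ×ˢ B) (t := W) (g := fun p => p.1 * p.2)
        (fun p hp => by
          rw [Finset.mem_product] at hp
          rw [mW, Ico.N_mul, (mA _).1 hp.1, (mB _).1 hp.2, mul_comm])]
    refine Finset.sum_congr rfl fun w hw => ?_
    have h2 : ∀ p ∈ (A ×ˢ B).filter (fun p => p.1 * p.2 = w), phi k (p.1 * p.2) = phi k w := by
      intro p hp
      rw [(Finset.mem_filter.1 hp).2]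
    rw [Finset.sum_congr rfl h2, Finset.sum_const, nsmul_eq_mul]
    congr 2
    -- the number of pairs
    have hset : {y : Ico | y.N = π ∧ ∃ x : Ico, w = x * y} =
        (((A ×ˢ B).filter (fun p => p.1 * p.2 = w)).image Prod.snd : Finset Ico) := by
      ext y
      simp only [Set.mem_setOf_eq, Finset.coe_image, Set.mem_image, Finset.mem_coe,
        Finset.mem_filter, Finset.mem_product, Prod.exists, exists_eq_right]
      constructor
      · rintro ⟨hy, x, hx⟩
        refine ⟨x, ⟨?_, (mB y).2 hy⟩, hx.symm⟩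
        rw [mA]
        have h3 := (mW w).1 hw
        rw [hx, Ico.N_mul, hy, mul_comm] at h3
        exact hg_cancel hπ h3
      · rintro ⟨x, ⟨-, hy⟩, hx⟩
        exact ⟨(mB y).1 hy, x, hx.symm⟩
    rw [hset, Set.ncard_coe_finset, Finset.card_image_of_injOn]
    rintro ⟨x, y⟩ h ⟨x', y'⟩ h' hyy
    simp only [Finset.coe_filter, Set.mem_setOf_eq, Finset.mem_product] at h h'
    simp only at hyy
    subst hyy
    have h3 : x * y = x' * y := by rw [h.2, h'.2]
    have h4 := hg_rcancel (by rw [(mB y).1 h.1.2]; exact hπ) h3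
    rw [h4]
  have hdvd : ∀ w ∈ W, π ∣ w.N := fun w hw => by
    rw [(mW w).1 hw]
    exact dvd_mul_right π α
  constructor
  · intro β hβ
    have hfC := hD.fin β
    set C := hfC.toFinset with hC
    have mC : ∀ x, x ∈ C ↔ x.N = β := fun x => by rw [hC, Set.Finite.mem_toFinset]; rfl
    have hCβ : CC k β = ∑ w ∈ C, phi k w := by
      unfold CC
      exact finsum_mem_eq_finite_toFinset_sum _ hfC
    have himg : W.filter (fun w => IDvd π w) = C.image (fun w' => Ico.ofO π * w') := by
      ext w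
      rw [Finset.mem_filter, Finset.mem_image, mW]
      constructor
      · rintro ⟨hw, w', hw'⟩
        refine ⟨w', ?_, hw'.symm⟩
        rw [mC]
        rw [hw', Ico.N_mul, hg_N_ofO, hβ, sq, mul_assoc] at hw
        exact hg_cancel hπ (hg_cancel hπ hw)
      · rintro ⟨w', hw', rfl⟩
        refine ⟨?_, w', rfl⟩
        rw [Ico.N_mul, hg_N_ofO, (mC w').1 hw', hβ, sq, mul_assoc]
    have hsum : ∑ w ∈ W.filter (fun w => IDvd π w), phi k w =
        (QuadraticAlgebra.norm π) ^ (k - 2) * CC k β := by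
      rw [himg, Finset.sum_image (fun x _ y _ h => hg_cancelI hπ h), hCβ, Finset.mul_sum]
      exact Finset.sum_congr rfl fun w _ => HU_scal k π w
    rw [hLHS, hCC]
    have h5 : ∀ w ∈ W, ({y : Ico | y.N = π ∧ ∃ x : Ico, w = x * y}.ncard : ℤ) * phi k w =
        w1 * phi k w + (if IDvd π w then (((IN π).ncard : ℤ) - w1) * phi k w else 0) := by
      intro w hw
      by_cases h : IDvd π w
      · rw [if_pos h, (HG_count hD π w hP hπ).2 h]
        ring
      · rw [if_neg h, (HG_count hD π w hP hπ).1 h (hdvd w hw)]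
        ring
    rw [Finset.sum_congr rfl h5, Finset.sum_add_distrib, ← Finset.mul_sum, ← Finset.sum_filter,
      ← Finset.mul_sum, hsum]
    ring
  · intro hnd
    rw [hLHS, hCC, Finset.mul_sum]
    refine Finset.sum_congr rfl fun w hw => ?_
    have h6 : ¬ IDvd π w := by
      rintro ⟨w', hw'⟩
      have h7 := (mW w).1 hw
      rw [hw', Ico.N_mul, hg_N_ofO, sq, mul_assoc] at h7
      exact hnd ⟨w'.N, (hg_cancel hπ h7).symm⟩
    rw [(HG_count hD π w hP hπ).1 h6 (hdvd w hw)]

end H53M
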