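import Pool.Agent.Lib.H53M.HS0

/-!
# H53M, chunk HI (L): the Hecke relation at inert primes (H3)
-/

namespace H53M

theorem HI_lq_smul (n : ℤ) (u : Fin 4 → ℤ) : lq (n • u) = n • lq u := by
  have h : ∀ (n : ℤ) (x : Ico), n • x = Ico.ofO (n : O5) * x := by
    intro n x
    rw [map_intCast, zsmul_eq_mul]
  rw [h, Ico.ofO_mul]
  have h2 : ∀ y : O5, (n : O5) * y = ⟨n * y.re, n * y.im⟩ := by
    intro y
    ext <;> simp
  rw [h2, h2, h2, h2]
  ext <;> simp only [lq, lp, Pi.smul_apply, smul_eq_mul] <;> ring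

theorem HI_zsmul (n : ℤ) (x : Ico) : n • x = Ico.ofO (n : O5) * x := by
  rw [map_intCast, zsmul_eq_mul]

theorem HI_nat_inj {p : ℕ} (hp : 0 < p) {x y : Ico}
    (h : Ico.ofO (p : O5) * x = Ico.ofO (p : O5) * y) : x = y := by
  rw [Ico.ofO_mul, Ico.ofO_mul] at h
  have hp' : (p : ℤ) ≠ 0 := by exact_mod_cast hp.ne'
  have key : ∀ a b : O5, (p : O5) * a = (p : O5) * b → a = b := by
    intro a b hab
    have h1 := congrArg QuadraticAlgebra.re hab
    have h2 := congrArg QuadraticAlgebra.im hab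
    simp at h1 h2
    have h1' := h1.resolve_right hp.ne'
    have h2' := h2.resolve_right hp.ne'
    ext
    · exact h1'
    · exact h2'
  ext1
  · exact key _ _ (congrArg Ico.a h)
  · exact key _ _ (congrArg Ico.b h)
  · exact key _ _ (congrArg Ico.c h)
  · exact key _ _ (congrArg Ico.d h)

theorem HI_star_nat (p : ℕ) : star (p : O5) = (p : O5) := by
  ext <;> simp

theorem HI_st_ofO (p : ℕ) : Ico.st (Ico.ofO (p : O5)) = Ico.ofO (p : O5) := by
  ext1 <;> simp only [Ico.st, Ico.ofO_a, Ico.ofO_b, Ico.ofO_c, Ico.ofO_d, star_zero, HI_star_nat,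
    mul_zero, add_zero, sub_zero]

theorem HI_N_ofO (p : ℕ) : (Ico.ofO (p : O5)).N = (p : O5) ^ 2 := by
  simp only [Ico.N, Ico.ofO_a, Ico.ofO_b, Ico.ofO_c, Ico.ofO_d]
  ring

theorem HI_O5_nat_mul {m n : ℤ} (h : (m : O5) = (n : O5)) : m = n := by
  have := congrArg QuadraticAlgebra.re h
  simpa using this

/-- cancellation `y z st y = y z' st y` -/
theorem HI_cancel {p : ℕ} (hp : 0 < p) {y z z' : Ico} (hy : y.N = (p : O5))
    (h : y * z * Ico.st y = y * z' * Ico.st y) : z = z' := by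
  have h1 : Ico.bar y * (y * z * Ico.st y) * Ico.bar (Ico.st y) =
      Ico.bar y * (y * z' * Ico.st y) * Ico.bar (Ico.st y) := by rw [h]
  have hs : (Ico.st y).N = (p : O5) := by rw [Ico.N_st, hy, HI_star_nat]
  have e : ∀ w : Ico, Ico.bar y * (y * w * Ico.st y) * Ico.bar (Ico.st y) =
      Ico.ofO (p : O5) * (Ico.ofO (p : O5) * w) := by
    intro w
    calc Ico.bar y * (y * w * Ico.st y) * Ico.bar (Ico.st y)
        = (Ico.bar y * y) * w * (Ico.st y * Ico.bar (Ico.st y)) := by simp only [mul_assoc]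
      _ = Ico.ofO (p : O5) * w * Ico.ofO (p : O5) := by
          rw [Ico.bar_mul_self, Ico.mul_bar, hy, hs]
      _ = Ico.ofO (p : O5) * (Ico.ofO (p : O5) * w) := by rw [Ico.mul_ofO]
  rw [e, e] at h1
  exact HI_nat_inj hp (HI_nat_inj hp h1)

theorem HI_chi (p : ℕ) (h5 : p % 5 = 2 ∨ p % 5 = 3) : chi5 (((p : ℤ) : ℤ) : ZMod 5) = -1 := by
  have h1 : (((p : ℤ) : ℤ) : ZMod 5) = ((p % 5 : ℕ) : ZMod 5) := by
    rw [Int.cast_natCast, ZMod.natCast_mod]
  rw [h1]
  rcases h5 with h | h <;> rw [h] <;> decide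

/-- Proof.  As in `HS`: `Σ_{y ∈ IN p} phi k (x y) = Σ_{v : qL v = 5p²} ψ(lq v) PP (x lq v x*) c(v)`,
`c(v) = #{y : N y = p, ∃ z' ∈ L, lq v = y z' y*}`.  If `p` does not divide `lq v`: `c(v) = w₁`
(`HS0_count'`).  Otherwise `lq v = p z₀`, `z₀ ∈ L`, `N z₀ = 5` and `c(v) = mz p z₀ = m` (constant,
`HS0_mz`; if there is no vector of norm 5 every sum below is empty).  Hence the sum is
`w₁ Σ_v ψ(lq v) PP(...) - (w₁ - m) Σ_{z₀} ψ(p z₀) PP (x p z₀ x*)
 = w₁ a_{p²} φ(x) - (w₁ - m) chi5(p) p^{k-2} φ(x)` (`hE` with `n = p²`, `hD.psi_smul`, `HB2_smul`,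
`HU_sum`), `chi5 p = -1`.  So `lam = w₁ a_{p²} + (w₁ - m) p^{k-2}`; if `p ∣ a_p` then
`p² ∣ a_{p²} = a_p² - p^{k-1}`. -/
theorem HI (hD : DFacts) (k a b : ℕ) (hk : 12 ≤ k) (hE : StHE k a b) (p : ℕ) (hp : p.Prime)
    (h5 : p % 5 = 2 ∨ p % 5 = 3) (hF : ak a b (p ^ 2) = (ak a b p) ^ 2 - (p : ℤ) ^ (k - 1)) :
    ∃ lam : ℤ, (∀ x : Ico, ∑ᶠ y ∈ IN (p : O5), phi k (x * y) = lam * phi k x) ∧
      ((p : ℤ) ∣ ak a b p → (p : ℤ) ^ 2 ∣ lam) := by
  classical
  have hp0 : 0 < p := hp.pos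
  have hpZ : (p : ℤ) ≠ 0 := by exact_mod_cast hp0.ne'
  -- the constant `m`
  obtain ⟨m, hm⟩ : ∃ m : ℕ, ∀ z : Ico, z.N = 5 → Ico.st z = z → mz p z = m := by
    by_cases hex : ∃ z : Ico, z.N = 5 ∧ Ico.st z = z
    · obtain ⟨z₀, hz₀, hz₀L⟩ := hex
      exact ⟨mz p z₀, fun z hz hzL => HS0_mz hD p z z₀ hz hz₀ hzL hz₀L⟩
    · exact ⟨0, fun z hz hzL => absurd ⟨z, hz, hzL⟩ hex⟩
  refine ⟨w1 * ak a b (p ^ 2) + (w1 - m) * (p : ℤ) ^ (k - 2), ?_, ?_⟩
  swap
  · intro hdvd
    have h1 : (p : ℤ) ^ 2 ∣ ak a b (p ^ 2) := by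
      rw [hF]
      refine dvd_sub (pow_dvd_pow_of_dvd hdvd 2) (pow_dvd_pow _ (by omega))
    exact dvd_add (Dvd.dvd.mul_left h1 _) (Dvd.dvd.mul_left (pow_dvd_pow _ (by omega)) _)
  intro x
  set A : Finset Ico := (hD.fin (p : O5)).toFinset with hA
  set U : Finset (Fin 4 → ℤ) := (HU_fin hD 5).toFinset with hU
  set V : Finset (Fin 4 → ℤ) := (HU_fin hD (5 * ((p ^ 2 : ℕ) : ℤ))).toFinset with hV
  have memA : ∀ y, y ∈ A ↔ y.N = (p : O5) := by
    intro y
    rw [hA, Set.Finite.mem_toFinset]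
    rfl
  have memU : ∀ u, u ∈ U ↔ qL u = 5 := by
    intro u
    rw [hU, Set.Finite.mem_toFinset]
    rfl
  have memV : ∀ u, u ∈ V ↔ qL u = 5 * ((p ^ 2 : ℕ) : ℤ) := by
    intro u
    rw [hV, Set.Finite.mem_toFinset]
    rfl
  set F : (Fin 4 → ℤ) → ℤ := fun v => psi (lq v) * PP (k - 2) (x * lq v * Ico.st x) with hFdef
  -- the map T
  have hfix : ∀ (y : Ico) (u : Fin 4 → ℤ), Ico.st (y * lq u * Ico.st y) = y * lq u * Ico.st y := by
    intro y u
    rw [Ico.st_mul, Ico.st_mul, Ico.st_st, hD.lq_fixed, mul_assoc]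
  choose T hT using fun (y : Ico) (u : Fin 4 → ℤ) => hD.fixed _ (hfix y u)
  have hTV : ∀ y ∈ A, ∀ u ∈ U, T y u ∈ V := by
    intro y hy u hu
    rw [memV]
    have h1 := hD.lq_norm (T y u)
    rw [← hT, Ico.N_mul, Ico.N_mul, Ico.N_st, (memA y).1 hy, hD.lq_norm, (memU u).1 hu,
      HI_star_nat] at h1
    apply HI_O5_nat_mul
    rw [← h1]
    push_cast
    ring
  have hr5 : ∀ y ∈ A, r5 y.N ≠ 0 := by
    intro y hy
    rw [(memA y).1 hy]
    unfold r5
    have h1 : (((p : O5).re : ℤ) : ZMod 5) = (p : ZMod 5) := by simp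
    have h2 : (((p : O5).im : ℤ) : ZMod 5) = 0 := by simp
    rw [h1, h2, mul_zero, add_zero]
    intro h3
    have := (ZMod.natCast_eq_zero_iff p 5).1 h3
    omega
  have hFT : ∀ y ∈ A, ∀ u ∈ U, psi (lq u) * PP (k - 2) (x * y * lq u * Ico.st (x * y)) =
      F (T y u) := by
    intro y hy u _
    rw [hFdef]
    simp only
    rw [← hT, hD.psi_conj y (lq u) (hD.lq_fixed u) (hr5 y hy), Ico.st_mul]
    simp only [mul_assoc]
  -- left side as a finite double sum
  have hL : ∑ᶠ y ∈ IN (p : O5), phi k (x * y) = ∑ y ∈ A, ∑ u ∈ U, F (T y u) := by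
    rw [finsum_mem_eq_finite_toFinset_sum _ (hD.fin (p : O5))]
    refine Finset.sum_congr rfl fun y hy => ?_
    rw [HU_sum hD, finsum_mem_eq_finite_toFinset_sum _ (HU_fin hD 5)]
    exact Finset.sum_congr rfl fun u hu => hFT y hy u hu
  -- the counting function
  set cnt : (Fin 4 → ℤ) → ℕ := fun v => {y : Ico | y.N = (p : O5) ∧
    ∃ z' : Ico, Ico.st z' = z' ∧ lq v = y * z' * Ico.st y}.ncard with hcnt
  have hcard : ∀ v ∈ V, ((A ×ˢ U).filter fun q => T q.1 q.2 = v).card = cnt v := by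
    intro v hv
    have hinj : Set.InjOn Prod.fst
        (((A ×ˢ U).filter fun q => T q.1 q.2 = v : Finset (Ico × (Fin 4 → ℤ))) :
          Set (Ico × (Fin 4 → ℤ))) := by
      rintro ⟨y, u⟩ h1 ⟨y', u'⟩ h2 h3
      rw [Finset.mem_coe, Finset.mem_filter, Finset.mem_product] at h1 h2
      simp only at h1 h2 h3
      subst h3
      have h4 : lq u = lq u' := by
        refine HI_cancel hp0 ((memA y).1 h1.1.1) ?_
        rw [hT, hT, h1.2, h2.2]
      rw [hD.lq_inj h4]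
    rw [← Finset.card_image_of_injOn hinj, ← Set.ncard_coe_finset, hcnt]
    congr 1
    ext y
    rw [Finset.mem_coe, Finset.mem_image]
    constructor
    · rintro ⟨⟨y', u⟩, h1, rfl⟩
      rw [Finset.mem_filter, Finset.mem_product] at h1
      simp only at h1
      refine ⟨(memA y').1 h1.1.1, lq u, hD.lq_fixed u, ?_⟩
      rw [hT, h1.2]
    · rintro ⟨hy, z', hz', hv'⟩
      obtain ⟨u, rfl⟩ := hD.fixed z' hz'
      refine ⟨(y, u), ?_, rfl⟩
      rw [Finset.mem_filter, Finset.mem_product]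
      refine ⟨⟨(memA y).2 hy, (memU u).2 ?_⟩, hD.lq_inj ?_⟩
      · have h1 := congrArg Ico.N hv'
        rw [Ico.N_mul, Ico.N_mul, Ico.N_st, hy, hD.lq_norm, hD.lq_norm, (memV v).1 hv,
          HI_star_nat] at h1
        have h2 : (((5 * ((p ^ 2 : ℕ) : ℤ)) : ℤ) : O5) = (((p : ℤ) * qL u * (p : ℤ) : ℤ) : O5) := by
          rw [h1]
          push_cast
          ring
        have h3 := HI_O5_nat_mul h2
        have h4 : ((p : ℤ) ^ 2) * qL u = ((p : ℤ) ^ 2) * 5 := by
          push_cast at h3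
          linarith
        exact mul_left_cancel₀ (pow_ne_zero 2 hpZ) h4
      · simp only
        rw [← hT, hv']
  have hdouble : ∑ y ∈ A, ∑ u ∈ U, F (T y u) = ∑ v ∈ V, (cnt v : ℤ) * F v := by
    rw [← Finset.sum_product' A U fun y u => F (T y u)]
    rw [← Finset.sum_fiberwise_of_maps_to (s := A ×ˢ U) (t := V) (g := fun q => T q.1 q.2)]
    · refine Finset.sum_congr rfl fun v hv => ?_
      rw [← hcard v hv, ← nsmul_eq_mul, ← Finset.sum_const]
      refine Finset.sum_congr rfl fun q hq => ?_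
      rw [(Finset.mem_filter.1 hq).2]
    · intro q hq
      rw [Finset.mem_product] at hq
      exact hTV q.1 hq.1 q.2 hq.2
  -- the value of the counting function
  have hstmul : ∀ z : Ico, Ico.st (Ico.ofO (p : O5) * z) = Ico.ofO (p : O5) * Ico.st z := by
    intro z
    rw [Ico.st_mul, HI_st_ofO, Ico.mul_ofO]
  have hval : ∀ v ∈ V, (cnt v : ℤ) = w1 - (if IDvd (p : O5) (lq v) then ((w1 : ℤ) - m) else 0) := by
    intro v hv
    have hNv : (lq v).N = 5 * (p : O5) ^ 2 := by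
      rw [hD.lq_norm, (memV v).1 hv]
      push_cast
      ring
    by_cases hdiv : IDvd (p : O5) (lq v)
    · rw [if_pos hdiv]
      obtain ⟨z₀, hz₀⟩ := hdiv
      have hfix₀ : Ico.st z₀ = z₀ := by
        have h1 := hD.lq_fixed v
        rw [hz₀, hstmul] at h1
        exact HI_nat_inj hp0 h1
      have hN₀ : z₀.N = 5 := by
        obtain ⟨u, rfl⟩ := hD.fixed z₀ hfix₀
        rw [hz₀, Ico.N_mul, hD.lq_norm] at hNv
        have h1 := HI_N_ofO p
        rw [h1] at hNv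
        have h2 : (((p : ℤ) ^ 2 * qL u : ℤ) : O5) = ((5 * (p : ℤ) ^ 2 : ℤ) : O5) := by
          push_cast
          exact hNv
        have h3 := HI_O5_nat_mul h2
        have h4 : ((p : ℤ) ^ 2) * qL u = ((p : ℤ) ^ 2) * 5 := by linarith
        have h5' := mul_left_cancel₀ (pow_ne_zero 2 hpZ) h4
        rw [hD.lq_norm, h5']
        norm_num
      have h1 := hm z₀ hN₀ hfix₀
      have h2 : cnt v = m := by
        rw [← h1, hcnt]
        simp only
        rw [hz₀]
        rfl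
      rw [h2]
      ring
    · rw [if_neg hdiv, hcnt]
      simp only
      rw [HS0_count' hD p (lq v) hp h5 hNv (hD.lq_fixed v) hdiv]
      ring
  have hsplit : ∑ v ∈ V, (cnt v : ℤ) * F v = w1 * ∑ v ∈ V, F v -
      ((w1 : ℤ) - m) * ∑ v ∈ V.filter (fun v => IDvd (p : O5) (lq v)), F v := by
    rw [Finset.sum_congr rfl fun v hv => by rw [hval v hv]]
    rw [Finset.mul_sum, Finset.mul_sum, Finset.sum_filter, ← Finset.sum_sub_distrib]
    refine Finset.sum_congr rfl fun v _ => ?_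
    split_ifs <;> ring
  have hV1 : ∑ v ∈ V, F v = ak a b (p ^ 2) * phi k x := by
    rw [← hE x (p ^ 2) (Nat.one_le_pow _ _ hp0),
      finsum_mem_eq_finite_toFinset_sum _ (HU_fin hD (5 * ((p ^ 2 : ℕ) : ℤ)))]
  have hV2 : ∑ v ∈ V.filter (fun v => IDvd (p : O5) (lq v)), F v =
      -((p : ℤ) ^ (k - 2) * phi k x) := by
    have himg : V.filter (fun v => IDvd (p : O5) (lq v)) = U.image (fun u => (p : ℤ) • u) := by
      ext v
      rw [Finset.mem_filter, Finset.mem_image, memV]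
      constructor
      · rintro ⟨hv, z₀, hz₀⟩
        have hfix₀ : Ico.st z₀ = z₀ := by
          have h1 := hD.lq_fixed v
          rw [hz₀, hstmul] at h1
          exact HI_nat_inj hp0 h1
        obtain ⟨u, rfl⟩ := hD.fixed z₀ hfix₀
        have hNv : (lq v).N = 5 * (p : O5) ^ 2 := by
          rw [hD.lq_norm, hv]
          push_cast
          ring
        refine ⟨u, ?_, ?_⟩
        · rw [memU]
          rw [hz₀, Ico.N_mul, hD.lq_norm] at hNv
          have h1 := HI_N_ofO p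
          rw [h1] at hNv
          have h2 : (((p : ℤ) ^ 2 * qL u : ℤ) : O5) = ((5 * (p : ℤ) ^ 2 : ℤ) : O5) := by
            push_cast
            exact hNv
          have h3 := HI_O5_nat_mul h2
          have h4 : ((p : ℤ) ^ 2) * qL u = ((p : ℤ) ^ 2) * 5 := by linarith
          exact mul_left_cancel₀ (pow_ne_zero 2 hpZ) h4
        · apply hD.lq_inj
          rw [HI_lq_smul, HI_zsmul, hz₀]
          simp
      · rintro ⟨u, hu, rfl⟩
        rw [memU] at hu
        have e : lq ((p : ℤ) • u) = Ico.ofO (p : O5) * lq u := by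
          rw [HI_lq_smul, HI_zsmul]
          simp
        refine ⟨?_, lq u, e⟩
        apply HI_O5_nat_mul
        rw [← hD.lq_norm, e, Ico.N_mul, hD.lq_norm, hu]
        have h1 := HI_N_ofO p
        rw [h1]
        push_cast
        ring
    rw [himg, Finset.sum_image]
    · have h1 : ∀ u ∈ U, F ((p : ℤ) • u) = -((p : ℤ) ^ (k - 2) *
          (psi (lq u) * PP (k - 2) (x * lq u * Ico.st x))) := by
        intro u _
        rw [hFdef]
        simp only
        rw [HI_lq_smul, hD.psi_smul (p : ℤ) (lq u) (hD.lq_fixed u), HI_chi p h5]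
        have h2 : x * ((p : ℤ) • lq u) * Ico.st x = (p : ℤ) • (x * lq u * Ico.st x) := by
          rw [mul_smul_comm, smul_mul_assoc]
        rw [h2, HB2_smul]
        ring
      rw [Finset.sum_congr rfl h1, Finset.sum_neg_distrib, ← Finset.mul_sum, HU_sum hD,
        finsum_mem_eq_finite_toFinset_sum _ (HU_fin hD 5)]
    · intro u _ u' _ h
      exact smul_right_injective _ hpZ h
  rw [hL, hdouble, hsplit, hV1, hV2]
  ring

end H53M
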