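import Pool.Agent.Lib.H53M.HS
import Pool.Agent.Lib.H53M.HI
import Pool.Agent.Lib.H53M.HG
import Pool.Agent.Lib.H53M.HN

/-!
# H53M, chunk HD1 (M): divisibility of C(α)
-/

namespace H53M

theorem HD1_pow {p : ℤ} (hp : p ≠ 0) (a b : ℕ) {n : ℤ} (h : p ^ a ∣ p ^ b * n) :
    p ^ (a - b) ∣ n := by
  rcases Nat.lt_or_ge b a with hab | hab
  · have e : a = b + (a - b) := by omega
    rw [e, pow_add] at h
    have e2 : b + (a - b) - b = a - b := by omega
    rw [e] 
    rw [e2]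
    exact (mul_dvd_mul_iff_left (pow_ne_zero b hp)).1 h
  · have e : a - b = 0 := by omega
    rw [e, pow_zero]
    exact one_dvd _

theorem HD1_posMul {π α : O5} (hπ : Pos π) (h : Pos (π * α)) : Pos α := by
  obtain ⟨h1, h2⟩ := hπ
  obtain ⟨h3, h4⟩ := h
  rw [map_mul] at h3 h4
  exact ⟨(mul_pos_iff_of_pos_left h1).1 h3, (mul_pos_iff_of_pos_left h2).1 h4⟩

/-- the induction step -/
theorem HD1_step (hD : DFacts) (k : ℕ) (hk : 12 ≤ k) (p : ℕ) (hp : p.Prime) (hw : w1 < p)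
    (π : O5) (f : ℕ) (T : ℤ) (hP : Prime π) (hπ : Pos π) (hf : 1 ≤ f)
    (hnorm : QuadraticAlgebra.norm π = (p : ℤ) ^ f) (hT : (p : ℤ) ^ f ∣ T)
    (hHecke : ∀ x : Ico, ∑ᶠ y ∈ IN π, phi k (x * y) = T * phi k x) (e : ℕ) (he : 1 ≤ e)
    (IH : ∀ j < e, ∀ α : O5, Pos α → (p : ℤ) ^ j ∣ QuadraticAlgebra.norm α →
      (p : ℤ) ^ j ∣ CC k α) (α₁ : O5) (hα : Pos (π * α₁))
    (hdiv : (p : ℤ) ^ e ∣ QuadraticAlgebra.norm (π * α₁)) : (p : ℤ) ^ e ∣ CC k (π * α₁) := by
  have hp0 : (p : ℤ) ≠ 0 := by exact_mod_cast hp.ne_zero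
  have hα₁ := HD1_posMul hπ hα
  rw [map_mul, hnorm] at hdiv
  have h1 : (p : ℤ) ^ (e - f) ∣ QuadraticAlgebra.norm α₁ := HD1_pow hp0 e f hdiv
  have h2 := IH (e - f) (by omega) α₁ hα₁ h1
  have h3 : (p : ℤ) ^ e ∣ T * CC k α₁ := by
    refine dvd_trans (pow_dvd_pow (p : ℤ) (by omega : e ≤ f + (e - f))) ?_
    rw [pow_add]
    exact mul_dvd_mul hT h2
  have hsum : ∑ᶠ x ∈ IN α₁, ∑ᶠ y ∈ IN π, phi k (x * y) = T * CC k α₁ := by
    have e1 : ∑ᶠ x ∈ IN α₁, ∑ᶠ y ∈ IN π, phi k (x * y) = ∑ᶠ x ∈ IN α₁, T * phi k x :=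
      finsum_mem_congr rfl fun x _ => hHecke x
    rw [e1]
    exact (mul_finsum_mem (s := IN α₁) (phi k) T).symm
  obtain ⟨g1, g2⟩ := HG hD k π α₁ hP hπ hα₁
  have h4 : (p : ℤ) ^ e ∣ w1 * CC k (π * α₁) := by
    by_cases hdv : π ∣ α₁
    · obtain ⟨β, hβ⟩ := hdv
      have h5 := g1 β hβ
      rw [hsum, hnorm, ← pow_mul] at h5
      have hβpos : Pos β := HD1_posMul hπ (hβ ▸ hα₁)
      have h6 : (p : ℤ) ^ ((e - f) - f) ∣ QuadraticAlgebra.norm β := by
        rw [hβ, map_mul, hnorm] at h1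
        exact HD1_pow hp0 (e - f) f h1
      have h7 := IH ((e - f) - f) (by omega) β hβpos h6
      have h8 : (p : ℤ) ^ e ∣ (((IN π).ncard : ℤ) - w1) * (p : ℤ) ^ (f * (k - 2)) * CC k β := by
        rw [mul_assoc]
        refine Dvd.dvd.mul_left ?_ _
        refine dvd_trans (pow_dvd_pow (p : ℤ) (?_ : e ≤ f * (k - 2) + ((e - f) - f))) ?_
        · have h9 : f * 2 ≤ f * (k - 2) := Nat.mul_le_mul_left f (by omega)
          omega
        · rw [pow_add]
          exact mul_dvd_mul_left _ h7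
      have h9 : (w1 : ℤ) * CC k (π * α₁) = T * CC k α₁ -
          (((IN π).ncard : ℤ) - w1) * (p : ℤ) ^ (f * (k - 2)) * CC k β := by
        rw [h5]
        ring
      rw [h9]
      exact dvd_sub h3 h8
    · rw [← g2 hdv, hsum]
      exact h3
  have hcop : IsCoprime ((p : ℤ) ^ e) (w1 : ℤ) := by
    refine IsCoprime.pow_left ?_
    rw [Nat.isCoprime_iff_coprime]
    exact Nat.coprime_of_lt_prime (HN_w1 hD).ne' hw hp
  exact hcop.dvd_of_dvd_mul_left h4

theorem HD1_nat (p : ℕ) (hp : p.Prime) : Pos (p : O5) := by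
  have h : (0 : ℝ) < p := by exact_mod_cast hp.pos
  exact ⟨by rw [map_natCast]; exact h, by rw [map_natCast]; exact h⟩

theorem HD1_norm_of {p : ℕ} {π : O5} (h : π * star π = (p : O5)) :
    QuadraticAlgebra.norm π = (p : ℤ) := by
  have h1 : (f1 π : ℝ) * f2 π = p := by
    rw [← (HA1_star π).1, ← map_mul, h, map_natCast]
  rw [HA1_norm] at h1
  exact_mod_cast h1

/-- Split primes.  Proof.  Strong induction on `e`; `e = 0` trivial.  Let `p^(e+1) ∣ norm α`.
`hD.split` gives `π`; `norm α = α α'`, `π` and `star π` prime, so `π ∣ α` or `star π ∣ α`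
(`star π ∣ α` is the same with `π` replaced by `star π`: `Pos (star π)`,
`star π * star (star π) = p`).  Say `α = π α₁`, `Pos α₁`, `norm α₁ = norm α / p`, so
`p^e ∣ norm α₁`.  Sum `HS` over `x ∈ IN α₁`: `Σ Σ φ(xy) = w₁ a_p C(α₁)`, and `HG`:
`w₁ C(α) = w₁ a_p C(α₁) - (#IN π - w₁) p^{k-2} C(α₂)` (last term only if `α₁ = π α₂`, then
`p^{e-1} ∣ norm α₂`).  `p^{e+1}` divides both terms by induction, and `p ∤ w₁` as `w₁ < p`. -/
theorem HD1_split (hD : DFacts) (k a b : ℕ) (hk : 12 ≤ k) (hE : StHE k a b) (p : ℕ)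
    (hp : p.Prime) (h5 : p % 5 = 1 ∨ p % 5 = 4) (hw : w1 < p) (ha : (p : ℤ) ∣ ak a b p) :
    ∀ (e : ℕ) (α : O5), Pos α → (p : ℤ) ^ e ∣ QuadraticAlgebra.norm α →
      (p : ℤ) ^ e ∣ CC k α := by
  have hp5 : p ≠ 5 := by omega
  obtain ⟨π, hπ, hππ⟩ := hD.split p hp h5
  intro e
  induction e using Nat.strong_induction_on with
  | _ e IH =>
    intro α hα hdiv
    rcases Nat.eq_zero_or_pos e with rfl | he
    · rw [pow_zero]
      exact one_dvd _
    have hpos' : Pos (star π) := ⟨by rw [(HA1_star π).1]; exact hπ.2,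
      by rw [(HA1_star π).2]; exact hπ.1⟩
    have hπ' : star π * star (star π) = (p : O5) := by
      rw [star_star, mul_comm]
      exact hππ
    -- the step for one of the two primes
    have key : ∀ ρ : O5, Pos ρ → ρ * star ρ = (p : O5) → ρ ∣ α → (p : ℤ) ^ e ∣ CC k α := by
      intro ρ hρ hρρ hdv
      obtain ⟨α₁, rfl⟩ := hdv
      refine HD1_step hD k hk p hp hw ρ 1 (w1 * ak a b p) (hD.prime_split p ρ hp hp5 hρρ) hρ
        le_rfl ?_ ?_ (fun x => HS hD k a b hE p ρ hp hp5 hρ hρρ x) e he IH α₁ hα hdiv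
      · rw [pow_one]
        exact HD1_norm_of hρρ
      · rw [pow_one]
        exact Dvd.dvd.mul_left ha _
    have hprime := hD.prime_split p π hp hp5 hππ
    have h1 : π ∣ α * star α := by
      have h2 : (p : ℤ) ∣ QuadraticAlgebra.norm α := (dvd_pow_self (p : ℤ) (by omega)).trans hdiv
      obtain ⟨t, ht⟩ := h2
      have h3 : α * star α = (p : O5) * (t : O5) := by
        have h4 : α * star α = ((QuadraticAlgebra.norm α : ℤ) : O5) := by
          ext
          · rw [QuadraticAlgebra.re_mul, QuadraticAlgebra.re_star, QuadraticAlgebra.im_star,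
              QuadraticAlgebra.norm_def, QuadraticAlgebra.re_intCast]
            simp only [Int.cast_id]
            ring
          · rw [QuadraticAlgebra.im_mul, QuadraticAlgebra.re_star, QuadraticAlgebra.im_star,
              QuadraticAlgebra.im_intCast]
            ring
        rw [h4, ht]
        push_cast
        rfl
      rw [h3, ← hππ, mul_assoc]
      exact dvd_mul_right _ _
    rcases hprime.dvd_or_dvd h1 with h2 | h2
    · exact key π hπ hππ h2
    · refine key (star π) hpos' hπ' ?_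
      obtain ⟨c, hc⟩ := h2
      refine ⟨star c, ?_⟩
      have h3 := congrArg star hc
      rw [star_star, Ico.star_O5_mul] at h3
      exact h3

/-- Inert primes: the same with `π = p`, `norm p = p²`, `lam` instead of `w₁ a_p`; `p ∣ norm α`
implies `p ∣ α` (`hD.inert_dvd`), `α = p α₁`, `norm α = p² norm α₁`. -/
theorem HD1_inert (hD : DFacts) (k a b : ℕ) (hk : 12 ≤ k) (hE : StHE k a b) (p : ℕ)
    (hp : p.Prime) (h5 : p % 5 = 2 ∨ p % 5 = 3) (hw : w1 < p) (ha : (p : ℤ) ∣ ak a b p)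
    (hF : ak a b (p ^ 2) = (ak a b p) ^ 2 - (p : ℤ) ^ (k - 1)) :
    ∀ (e : ℕ) (α : O5), Pos α → (p : ℤ) ^ e ∣ QuadraticAlgebra.norm α →
      (p : ℤ) ^ e ∣ CC k α := by
  obtain ⟨lam, hlam, hlam2⟩ := HI hD k a b hk hE p hp h5 hF
  intro e
  induction e using Nat.strong_induction_on with
  | _ e IH =>
    intro α hα hdiv
    rcases Nat.eq_zero_or_pos e with rfl | he
    · rw [pow_zero]
      exact one_dvd _
    have h2 : (p : ℤ) ∣ QuadraticAlgebra.norm α := (dvd_pow_self (p : ℤ) (by omega)).trans hdiv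
    obtain ⟨α₁, rfl⟩ := hD.inert_dvd p α hp h5 h2
    refine HD1_step hD k hk p hp hw (p : O5) 2 lam (hD.prime_inert p hp h5) (HD1_nat p hp)
      (by norm_num) ?_ (hlam2 ha) hlam e he IH α₁ hα hdiv
    rw [QuadraticAlgebra.norm_natCast]

end H53M
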