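import Pool.Agent.Lib.H53M.HDefs

/-!
# H53M, chunk HE1 (size M): `P(x z x*)` as a sum of four powers of isotropic linear forms

Pure algebra.
* `HE1_pull` : for quaternions `p, q` and an isotropic `ζ` there is an isotropic `ζ'` with
  `lin4 ζ (p * h * q) = lin4 ζ' h` for all `h` : `ζ'_j = lin4 ζ (p * e_j * q)`,
  and `Σ ζ'_j² = |p|² |q|² Σ ζ_j²` (polynomial identity).
* `HE1_H2` : for `z = lq u` the coordinates of `H2 z` are `(x₀, -x₂, -x₁, x₃)` if those of `H1 z` are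
  `(x₀, x₁, x₂, x₃)`.
* for the four ring homomorphisms `O5i → ℂ` (`f1` or `f2`, `i ↦ ± I`):
  `PP d y = (1/2) Σ (hom (ell y))^d` (`QuadraticAlgebra.trace` of `re`), and `hom (ell y) =`
  `lin4 ζ (H_ε y)` with `ζ = 2 (1, ± I, 1 ± I, -1 ± I)`, isotropic.
-/

namespace H53M

/-- isotropic vectors -/
def Iso4 (ζ : Fin 4 → ℂ) : Prop := ζ 0 ^ 2 + ζ 1 ^ 2 + ζ 2 ^ 2 + ζ 3 ^ 2 = 0

/-- left multiplication -/
noncomputable def HE1_L (ζ : Fin 4 → ℂ) (p : Quaternion ℝ) : Fin 4 → ℂ :=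
  ![ζ 0 * p.re + ζ 1 * p.imI + ζ 2 * p.imJ + ζ 3 * p.imK,
    -(ζ 0 * p.imI) + ζ 1 * p.re + ζ 2 * p.imK - ζ 3 * p.imJ,
    -(ζ 0 * p.imJ) - ζ 1 * p.imK + ζ 2 * p.re + ζ 3 * p.imI,
    -(ζ 0 * p.imK) + ζ 1 * p.imJ - ζ 2 * p.imI + ζ 3 * p.re]

/-- right multiplication -/
noncomputable def HE1_R (ζ : Fin 4 → ℂ) (q : Quaternion ℝ) : Fin 4 → ℂ :=
  ![ζ 0 * q.re + ζ 1 * q.imI + ζ 2 * q.imJ + ζ 3 * q.imK,
    -(ζ 0 * q.imI) + ζ 1 * q.re - ζ 2 * q.imK + ζ 3 * q.imJ,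
    -(ζ 0 * q.imJ) + ζ 1 * q.imK + ζ 2 * q.re - ζ 3 * q.imI,
    -(ζ 0 * q.imK) - ζ 1 * q.imJ + ζ 2 * q.imI + ζ 3 * q.re]

theorem HE1_L_lin (ζ : Fin 4 → ℂ) (p h : Quaternion ℝ) :
    lin4 ζ (p * h) = lin4 (HE1_L ζ p) h := by
  simp only [lin4, HE1_L, Quaternion.re_mul, Quaternion.imI_mul, Quaternion.imJ_mul,
    Quaternion.imK_mul, Matrix.cons_val_zero, Matrix.cons_val_one, Matrix.cons_val,
    Complex.ofReal_sub, Complex.ofReal_add, Complex.ofReal_mul]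
  ring

theorem HE1_R_lin (ζ : Fin 4 → ℂ) (q h : Quaternion ℝ) :
    lin4 ζ (h * q) = lin4 (HE1_R ζ q) h := by
  simp only [lin4, HE1_R, Quaternion.re_mul, Quaternion.imI_mul, Quaternion.imJ_mul,
    Quaternion.imK_mul, Matrix.cons_val_zero, Matrix.cons_val_one, Matrix.cons_val,
    Complex.ofReal_sub, Complex.ofReal_add, Complex.ofReal_mul]
  ring

theorem HE1_L_iso {ζ : Fin 4 → ℂ} (h : Iso4 ζ) (p : Quaternion ℝ) : Iso4 (HE1_L ζ p) := by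
  have e : HE1_L ζ p 0 ^ 2 + HE1_L ζ p 1 ^ 2 + HE1_L ζ p 2 ^ 2 + HE1_L ζ p 3 ^ 2 =
      ((p.re : ℂ) ^ 2 + (p.imI : ℂ) ^ 2 + (p.imJ : ℂ) ^ 2 + (p.imK : ℂ) ^ 2) *
        (ζ 0 ^ 2 + ζ 1 ^ 2 + ζ 2 ^ 2 + ζ 3 ^ 2) := by
    simp only [HE1_L, Matrix.cons_val_zero, Matrix.cons_val_one, Matrix.cons_val]
    ring
  unfold Iso4 at h ⊢
  rw [e, h, mul_zero]

theorem HE1_R_iso {ζ : Fin 4 → ℂ} (h : Iso4 ζ) (p : Quaternion ℝ) : Iso4 (HE1_R ζ p) := by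
  have e : HE1_R ζ p 0 ^ 2 + HE1_R ζ p 1 ^ 2 + HE1_R ζ p 2 ^ 2 + HE1_R ζ p 3 ^ 2 =
      ((p.re : ℂ) ^ 2 + (p.imI : ℂ) ^ 2 + (p.imJ : ℂ) ^ 2 + (p.imK : ℂ) ^ 2) *
        (ζ 0 ^ 2 + ζ 1 ^ 2 + ζ 2 ^ 2 + ζ 3 ^ 2) := by
    simp only [HE1_R, Matrix.cons_val_zero, Matrix.cons_val_one, Matrix.cons_val]
    ring
  unfold Iso4 at h ⊢
  rw [e, h, mul_zero]

theorem HE1_pull (ζ : Fin 4 → ℂ) (hζ : Iso4 ζ) (p q : Quaternion ℝ) :
    ∃ ζ' : Fin 4 → ℂ, Iso4 ζ' ∧ ∀ h : Quaternion ℝ, lin4 ζ (p * h * q) = lin4 ζ' h :=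
  ⟨HE1_L (HE1_R ζ q) p, HE1_L_iso (HE1_R_iso hζ q) p, fun h => by
    rw [HE1_R_lin, HE1_L_lin]⟩

/-- coordinates of a point of `L` -/
theorem HE1_coord (φ : O5 →+* ℝ) (w : ℝ) (hφ : ∀ x : O5, φ x = x.re + x.im * w)
    (hw : w ^ 2 = w + 1) (A D e f : ℤ) :
    (toH φ (lp A D e f)).re = A / 2 ∧
    (toH φ (lp A D e f)).imI = ((D + 2 * e) + (A + D + 2 * f) * w) / 2 ∧
    (toH φ (lp A D e f)).imJ = -((D + 2 * e) + (A + D + 2 * f) * (1 - w)) / 2 ∧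
    (toH φ (lp A D e f)).imK = D / 2 := by
  have hom : φ om = w := by rw [hφ]; simp [om]
  have h1 : (toH φ (lp A D e f)).re = φ (lp A D e f).a + φ (lp A D e f).c * φ om / 2 +
      φ (lp A D e f).d * φ om ^ 2 / 2 := rfl
  have h2 : (toH φ (lp A D e f)).imI = φ (lp A D e f).b + φ (lp A D e f).c * φ om ^ 2 / 2 +
      φ (lp A D e f).d * φ om / 2 := rfl
  have h3 : (toH φ (lp A D e f)).imJ = φ (lp A D e f).c / 2 := rfl
  have h4 : (toH φ (lp A D e f)).imK = φ (lp A D e f).d / 2 := rfl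
  rw [h1, h2, h3, h4, hom, hφ, hφ, hφ, hφ]
  simp only [lp]
  push_cast
  refine ⟨?_, ?_, ?_, ?_⟩
  · linear_combination ((A : ℝ) / 2 + D + f) * hw
  · have hw3 : w ^ 3 = 2 * w + 1 := by
      have : w ^ 3 = w * w ^ 2 := by ring
      rw [this, hw]
      linear_combination hw
    linear_combination (-((A : ℝ) + 2 * D + 2 * e + 2 * f) / 2) * hw +
      (((A : ℝ) + D + 2 * f) / 2) * hw3
  · ring
  · ring

theorem HE1_f1 (x : O5) : f1 x = x.re + x.im * ((1 + Real.sqrt 5) / 2) := rfl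

theorem HE1_f2 (x : O5) : f2 x = x.re + x.im * ((1 - Real.sqrt 5) / 2) := rfl

theorem HE1_w1 : ((1 + Real.sqrt 5) / 2) ^ 2 = (1 + Real.sqrt 5) / 2 + 1 := by
  have h : Real.sqrt 5 ^ 2 = 5 := Real.sq_sqrt (by norm_num)
  linear_combination h / 4

theorem HE1_w2 : ((1 - Real.sqrt 5) / 2) ^ 2 = (1 - Real.sqrt 5) / 2 + 1 := by
  have h : Real.sqrt 5 ^ 2 = 5 := Real.sq_sqrt (by norm_num)
  linear_combination h / 4

theorem HE1_H2 (u : Fin 4 → ℤ) : (H2 (lq u)).re = (H1 (lq u)).re ∧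
    (H2 (lq u)).imI = -(H1 (lq u)).imJ ∧ (H2 (lq u)).imJ = -(H1 (lq u)).imI ∧
    (H2 (lq u)).imK = (H1 (lq u)).imK := by
  obtain ⟨a1, a2, a3, a4⟩ := HE1_coord f1 _ HE1_f1 HE1_w1 (u 0) (u 1) (u 2) (u 3)
  obtain ⟨b1, b2, b3, b4⟩ := HE1_coord f2 _ HE1_f2 HE1_w2 (u 0) (u 1) (u 2) (u 3)
  unfold lq
  rw [a1, a2, a3, a4, b1, b2, b3, b4]
  refine ⟨rfl, ?_, ?_, rfl⟩
  · ring
  · ring

/-- the swap of the coordinates -/
theorem HE1_swap (ζ : Fin 4 → ℂ) (hζ : Iso4 ζ) : ∃ ζ' : Fin 4 → ℂ, Iso4 ζ' ∧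
    ∀ u : Fin 4 → ℤ, lin4 ζ (H2 (lq u)) = lin4 ζ' (H1 (lq u)) := by
  refine ⟨![ζ 0, -ζ 2, -ζ 1, ζ 3], ?_, fun u => ?_⟩
  · unfold Iso4 at hζ ⊢
    simp only [Matrix.cons_val_zero, Matrix.cons_val_one, Matrix.cons_val]
    linear_combination hζ
  · obtain ⟨h1, h2, h3, h4⟩ := HE1_H2 u
    unfold lin4
    rw [h1, h2, h3, h4]
    simp only [Matrix.cons_val_zero, Matrix.cons_val_one, Matrix.cons_val, Complex.ofReal_neg]
    ring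

/-- the ring homomorphisms `O5i → ℂ` -/
noncomputable def HE1_hom (φ : O5 →+* ℝ) (ι : ℂ) (hι : ι ^ 2 = -1) : O5i →+* ℂ where
  toFun x := (φ x.re : ℂ) + (φ x.im : ℂ) * ι
  map_one' := by
    show (φ (1 : O5i).re : ℂ) + (φ (1 : O5i).im : ℂ) * ι = 1
    rw [QuadraticAlgebra.re_one, QuadraticAlgebra.im_one, map_one, map_zero]
    push_cast
    ring
  map_zero' := by
    show (φ (0 : O5i).re : ℂ) + (φ (0 : O5i).im : ℂ) * ι = 0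
    rw [QuadraticAlgebra.re_zero, QuadraticAlgebra.im_zero, map_zero]
    push_cast
    ring
  map_add' x y := by
    simp only [QuadraticAlgebra.re_add, QuadraticAlgebra.im_add, map_add, Complex.ofReal_add]
    ring
  map_mul' x y := by
    simp only [QuadraticAlgebra.re_mul, QuadraticAlgebra.im_mul, map_add, map_mul, map_neg,
      map_one, map_zero, Complex.ofReal_add, Complex.ofReal_mul, Complex.ofReal_neg,
      Complex.ofReal_one, Complex.ofReal_zero]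
    linear_combination (-((φ x.im : ℂ) * (φ y.im : ℂ))) * hι

/-- the isotropic vector of `ell` -/
noncomputable def HE1_z (ι : ℂ) : Fin 4 → ℂ := ![2, 2 * ι, 2 * (1 + ι), 2 * (-1 + ι)]

theorem HE1_z_iso {ι : ℂ} (hι : ι ^ 2 = -1) : Iso4 (HE1_z ι) := by
  unfold Iso4 HE1_z
  simp only [Matrix.cons_val_zero, Matrix.cons_val_one, Matrix.cons_val]
  linear_combination 12 * hι

theorem HE1_ell (φ : O5 →+* ℝ) (ι : ℂ) (hι : ι ^ 2 = -1) (y : Ico) :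
    HE1_hom φ ι hι (ell y) = lin4 (HE1_z ι) (toH φ y) := by
  have h1 : (toH φ y).re = φ y.a + φ y.c * φ om / 2 + φ y.d * φ om ^ 2 / 2 := rfl
  have h2 : (toH φ y).imI = φ y.b + φ y.c * φ om ^ 2 / 2 + φ y.d * φ om / 2 := rfl
  have h3 : (toH φ y).imJ = φ y.c / 2 := rfl
  have h4 : (toH φ y).imK = φ y.d / 2 := rfl
  have h5 : φ 2 = 2 := map_ofNat φ 2
  have h0 : HE1_hom φ ι hι (ell y) = (φ (ell y).re : ℂ) + (φ (ell y).im : ℂ) * ι := rfl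
  rw [h0]
  unfold lin4
  rw [h1, h2, h3, h4]
  simp only [ell, HE1_z, map_add, map_sub, map_mul, map_pow, h5, Matrix.cons_val_zero,
    Matrix.cons_val_one, Matrix.cons_val, Complex.ofReal_add, Complex.ofReal_sub,
    Complex.ofReal_mul, Complex.ofReal_div, Complex.ofReal_pow, Complex.ofReal_ofNat]
  ring

theorem HE1_trace (r : O5) : ((QuadraticAlgebra.trace r : ℤ) : ℝ) = f1 r + f2 r := by
  rw [QuadraticAlgebra.trace_def, HE1_f1, HE1_f2]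
  push_cast
  ring

theorem HE1_re (φ : O5 →+* ℝ) (y : O5i) :
    ((φ y.re : ℝ) : ℂ) = (1 / 2 : ℂ) * (HE1_hom φ Complex.I Complex.I_sq y +
      HE1_hom φ (-Complex.I) (by rw [neg_sq, Complex.I_sq]) y) := by
  have h1 : HE1_hom φ Complex.I Complex.I_sq y = (φ y.re : ℂ) + (φ y.im : ℂ) * Complex.I := rfl
  have h2 : HE1_hom φ (-Complex.I) (by rw [neg_sq, Complex.I_sq]) y =
      (φ y.re : ℂ) + (φ y.im : ℂ) * (-Complex.I) := rfl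
  rw [h1, h2]
  ring

theorem HE1_PP (d : ℕ) (y : Ico) : ((PP d y : ℤ) : ℂ) = (1 / 2 : ℂ) *
    (lin4 (HE1_z Complex.I) (H1 y) ^ d + lin4 (HE1_z (-Complex.I)) (H1 y) ^ d +
      lin4 (HE1_z Complex.I) (H2 y) ^ d + lin4 (HE1_z (-Complex.I)) (H2 y) ^ d) := by
  have hI : (-Complex.I) ^ 2 = -1 := by rw [neg_sq, Complex.I_sq]
  have h1 : ((PP d y : ℤ) : ℂ) = (f1 ((ell y) ^ d).re : ℂ) + (f2 ((ell y) ^ d).re : ℂ) := by
    have h := HE1_trace ((ell y) ^ d).re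
    have h' : (((PP d y : ℤ) : ℝ) : ℂ) = ((f1 ((ell y) ^ d).re + f2 ((ell y) ^ d).re : ℝ) : ℂ) := by
      rw [← h]
      rfl
    rw [Complex.ofReal_add] at h'
    rw [← h']
    push_cast
    rfl
  rw [h1, HE1_re f1, HE1_re f2]
  simp only [map_pow, HE1_ell]
  ring

theorem HE1 (d : ℕ) (x : Ico) : ∃ ζ : Fin 4 → Fin 4 → ℂ, (∀ j, Iso4 (ζ j)) ∧
    ∀ u : Fin 4 → ℤ, ((PP d (x * lq u * Ico.st x) : ℤ) : ℂ) =
      (1 / 2 : ℂ) * ∑ j, lin4 (ζ j) (H1 (lq u)) ^ d := by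
  have hI : (-Complex.I) ^ 2 = -1 := by rw [neg_sq, Complex.I_sq]
  have i1 := HE1_z_iso Complex.I_sq
  have i2 := HE1_z_iso hI
  obtain ⟨a, ha, ha'⟩ := HE1_pull _ i1 (H1 x) (H1 (Ico.st x))
  obtain ⟨b, hb, hb'⟩ := HE1_pull _ i2 (H1 x) (H1 (Ico.st x))
  obtain ⟨c0, hc0, hc0'⟩ := HE1_pull _ i1 (H2 x) (H2 (Ico.st x))
  obtain ⟨e0, he0, he0'⟩ := HE1_pull _ i2 (H2 x) (H2 (Ico.st x))
  obtain ⟨c, hc, hc'⟩ := HE1_swap c0 hc0
  obtain ⟨e, he, he'⟩ := HE1_swap e0 he0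
  refine ⟨![a, b, c, e], ?_, fun u => ?_⟩
  · intro j
    fin_cases j
    · exact ha
    · exact hb
    · exact hc
    · exact he
  · rw [HE1_PP, Fin.sum_univ_four]
    simp only [map_mul, ha', hb', hc0', he0', hc', he', Matrix.cons_val_zero,
      Matrix.cons_val_one, Matrix.cons_val]

end H53M
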