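import Pool.Agent.Lib.H53M.HE3
import Pool.Agent.Lib.H53M.KEV

/-!
# H53M, chunk HF1: the cusp form `Δ E₄^a E₆^b` under `SL₂(ℤ)`
-/

namespace H53M

open PowerSeries UpperHalfPlane MatrixGroups

/-- The modular form with `q`-expansion `fser a b`. -/
theorem HF1_form {k a b : ℕ} (hk : k = 12 + 4 * a + 6 * b) : ∃ M : ModularForm 𝒮ℒ (k : ℤ),
    qExpansion 1 (M : ℍ → ℂ) = toC (fser a b) := by
  obtain ⟨M1, hM1⟩ := Q4B_mono (w := k) (x := a + 3) (y := b) (by omega)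
  obtain ⟨M2, hM2⟩ := Q4B_mono (w := k) (x := a) (y := b + 2) (by omega)
  refine ⟨(1 / 1728 : ℂ) • (M1 - M2), ?_⟩
  rw [FunLike.coe_smul, ModularForm.qExpansion_smul one_pos one_mem_strictPeriods_SL,
    FunLike.coe_sub, ModularForm.qExpansion_sub one_pos one_mem_strictPeriods_SL, hM1, hM2,
    ← map_sub]
  have h1 : e4 ^ (a + 3) * e6 ^ b - e4 ^ a * e6 ^ (b + 2) = 1728 * fser a b := by
    have h2 : e4 ^ (a + 3) * e6 ^ b - e4 ^ a * e6 ^ (b + 2) =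
        (e4 ^ 3 - e6 ^ 2) * (e4 ^ a * e6 ^ b) := by ring
    rw [h2, ← dl_eq, fser]
    ring
  rw [h1, map_mul, map_ofNat]
  ext n
  have h3 : (1728 : PowerSeries ℂ) = C (1728 : ℂ) := (map_ofNat (C : ℂ →+* PowerSeries ℂ) 1728).symm
  rw [coeff_smul, h3, coeff_C_mul, smul_eq_mul]
  ring

/-- The value of a modular form is the value of its `q`-series. -/
theorem HF1_ev {w : ℕ} (M : ModularForm 𝒮ℒ (w : ℤ)) {f : PowerSeries ℂ}
    (hM : qExpansion 1 (M : ℍ → ℂ) = f) : Cv f ∧ ∀ τ : ℍ, ev f (τ : ℂ) = M τ := by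
  have h1 : ∀ τ : ℍ, HasSum (fun n : ℕ => PowerSeries.coeff n f *
      Complex.exp (2 * Real.pi * Complex.I * (n * (τ : ℂ)))) (M τ) := by
    intro τ
    have h2 := ModularForm.hasSum_qExpansion M one_pos one_mem_strictPeriods_SL τ
    rw [hM] at h2
    refine h2.congr_fun fun n => ?_
    rw [Function.Periodic.qParam, ← Complex.exp_nat_mul]
    congr 2
    push_cast
    ring
  exact ⟨fun z hz => (h1 ⟨z, hz⟩).summable.norm, fun τ => (h1 τ).tsum_eq⟩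

/-- Invariance under `SL₂(ℤ)`. -/
theorem HF1_sl {w : ℕ} (M : ModularForm 𝒮ℒ (w : ℤ)) {f : PowerSeries ℂ}
    (hM : qExpansion 1 (M : ℍ → ℂ) = f) (α β γ δ : ℤ) (hdet : α * δ - β * γ = 1) {z : ℂ}
    (hz : 0 < z.im) :
    ev f (((α : ℂ) * z + β) / ((γ : ℂ) * z + δ)) = ((γ : ℂ) * z + δ) ^ w * ev f z := by
  set g : SL(2, ℤ) := ⟨!![α, β; γ, δ], by rw [Matrix.det_fin_two_of, hdet]⟩ with hg
  set τ : ℍ := ⟨z, hz⟩ with hτ
  have h1 : ((g • τ : ℍ) : ℂ) = ((α : ℂ) * z + β) / ((γ : ℂ) * z + δ) := by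
    rw [coe_specialLinearGroup_apply]
    simp [hg, hτ]
  have h2 := SlashInvariantForm.slash_action_eqn' M
    (γ := Matrix.SpecialLinearGroup.mapGL ℝ g) (MonoidHom.mem_range.2 ⟨g, rfl⟩) τ
  have h3 := (HF1_ev M hM).2 (g • τ)
  have h4 := (HF1_ev M hM).2 τ
  have h5 : M (g • τ) = ((γ : ℂ) * z + δ) ^ w * M τ := by
    have h6 : (Matrix.SpecialLinearGroup.mapGL ℝ g) • τ = g • τ := rfl
    rw [h6] at h2
    rw [h2, zpow_natCast]
    have h7 : ∀ i j, ((Matrix.SpecialLinearGroup.mapGL ℝ g : GL (Fin 2) ℝ) i j : ℝ) =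
        ((g : Matrix (Fin 2) (Fin 2) ℤ) i j : ℝ) := fun i j => rfl
    rw [h7, h7]
    simp [hg, hτ]
  rw [h1] at h3
  rw [h3, h5, ← h4]

end H53M
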