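import Pool.Agent.Lib.H53M.HI

/-!
# H53M, chunk HS (M/L): the Hecke relation at split primes (H2)
-/

namespace H53M

theorem HS_cancel {π : O5} (hπ : Pos π) {y z z' : Ico} (hy : y.N = π)
    (h : y * z * Ico.st y = y * z' * Ico.st y) : z = z' := by
  have h0 : y.N ≠ 0 := by
    rw [hy]
    exact HS0_pos_ne hπ
  rw [mul_assoc, mul_assoc] at h
  have h1 := HS0_cancel h0 h
  have h2 := congrArg Ico.st h1
  rw [Ico.st_mul, Ico.st_mul, Ico.st_st] at h2
  have h3 := HS0_cancel h0 h2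
  have h4 := congrArg Ico.st h3
  rwa [Ico.st_st, Ico.st_st] at h4

theorem HS_r5 (p : ℕ) (π : O5) (hp : p.Prime) (hp5 : p ≠ 5) (hππ : π * star π = (p : O5)) :
    r5 π ≠ 0 := by
  intro h
  have hre : π.re ^ 2 + π.re * π.im - π.im ^ 2 = p := by
    have h := congrArg QuadraticAlgebra.re hππ
    simp [QuadraticAlgebra.re_mul] at h
    linear_combination h
  have h1 : ((π.re ^ 2 + π.re * π.im - π.im ^ 2 : ℤ) : ZMod 5) = (r5 π) ^ 2 := by
    unfold r5
    push_cast
    have h5 : (5 : ZMod 5) = 0 := by decide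
    linear_combination (-(π.re : ZMod 5) * (π.im : ZMod 5) - 2 * (π.im : ZMod 5) ^ 2) * h5
  rw [h, hre] at h1
  have h2 : ((p : ℕ) : ZMod 5) = 0 := by
    have h3 : (((p : ℤ) : ℤ) : ZMod 5) = ((p : ℕ) : ZMod 5) := by push_cast; rfl
    rw [← h3, h1]
    ring
  have h3 := (ZMod.natCast_eq_zero_iff p 5).1 h2
  exact hp5 ((Nat.prime_dvd_prime_iff_eq (by norm_num) hp).1 h3).symm

/-- Proof.  `phi k (x y) = Σ_{u: qL u = 5} ψ(u) PP (x (y u y*) x*)` (`HU_sum`, `st_mul`).  Put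
`z = y (lq u) y*`: `st z = z`, `N z = π · 5 · π' = 5p`, so `z = lq v` with `qL v = 5p`
(`hD.fixed`, `hD.lq_norm`), `ψ(z) = ψ(u)` by `hD.psi_conj` (`r5 (N y) = r5 π ≠ 0`, because
`r5 (star π) = r5 π` and `r5 π ^ 2 = p ≠ 0` in `ZMod 5`).  Conversely, for `v` with `qL v = 5p` and
`y ∈ IN π` there is at most one `u` with `y (lq u) y* = lq v` (cancel).  Exchange the finite sums:
`Σ_y Σ_u = Σ_v ψ(lq v) PP (x lq v x*) #{y : ...}` and the number is `w₁` (`HS0_count`).  Finally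
`hE x p`. -/
theorem HS (hD : DFacts) (k a b : ℕ) (hE : StHE k a b) (p : ℕ) (π : O5) (hp : p.Prime)
    (hp5 : p ≠ 5) (hπ : Pos π) (hππ : π * star π = (p : O5)) (x : Ico) :
    ∑ᶠ y ∈ IN π, phi k (x * y) = w1 * ak a b p * phi k x := by
  classical
  have hp0 : 0 < p := hp.pos
  have hpZ : (p : ℤ) ≠ 0 := by exact_mod_cast hp0.ne'
  set A : Finset Ico := (hD.fin π).toFinset with hA
  set U : Finset (Fin 4 → ℤ) := (HU_fin hD 5).toFinset with hU
  set V : Finset (Fin 4 → ℤ) := (HU_fin hD (5 * (p : ℤ))).toFinset with hV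
  have memA : ∀ y, y ∈ A ↔ y.N = π := by
    intro y
    rw [hA, Set.Finite.mem_toFinset]
    rfl
  have memU : ∀ u, u ∈ U ↔ qL u = 5 := by
    intro u
    rw [hU, Set.Finite.mem_toFinset]
    rfl
  have memV : ∀ u, u ∈ V ↔ qL u = 5 * (p : ℤ) := by
    intro u
    rw [hV, Set.Finite.mem_toFinset]
    rfl
  set F : (Fin 4 → ℤ) → ℤ := fun v => psi (lq v) * PP (k - 2) (x * lq v * Ico.st x) with hFdef
  -- the map T
  have hfix : ∀ (y : Ico) (u : Fin 4 → ℤ), Ico.st (y * lq u * Ico.st y) = y * lq u * Ico.st y := by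
    intro y u
    rw [Ico.st_mul, Ico.st_mul, Ico.st_st, hD.lq_fixed, mul_assoc]
  choose T hT using fun (y : Ico) (u : Fin 4 → ℤ) => hD.fixed _ (hfix y u)
  have hTV : ∀ y ∈ A, ∀ u ∈ U, T y u ∈ V := by
    intro y hy u hu
    rw [memV]
    have h1 := hD.lq_norm (T y u)
    rw [← hT, Ico.N_mul, Ico.N_mul, Ico.N_st, (memA y).1 hy, hD.lq_norm, (memU u).1 hu] at h1
    apply HI_O5_nat_mul
    rw [← h1]
    push_cast
    linear_combination 5 * hππ
  have hr5 : ∀ y ∈ A, r5 y.N ≠ 0 := by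
    intro y hy
    rw [(memA y).1 hy]
    exact HS_r5 p π hp hp5 hππ
  have hFT : ∀ y ∈ A, ∀ u ∈ U, psi (lq u) * PP (k - 2) (x * y * lq u * Ico.st (x * y)) =
      F (T y u) := by
    intro y hy u _
    rw [hFdef]
    simp only
    rw [← hT, hD.psi_conj y (lq u) (hD.lq_fixed u) (hr5 y hy), Ico.st_mul]
    simp only [mul_assoc]
  -- left side as a finite double sum
  have hL : ∑ᶠ y ∈ IN π, phi k (x * y) = ∑ y ∈ A, ∑ u ∈ U, F (T y u) := by
    rw [finsum_mem_eq_finite_toFinset_sum _ (hD.fin π)]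
    refine Finset.sum_congr rfl fun y hy => ?_
    rw [HU_sum hD, finsum_mem_eq_finite_toFinset_sum _ (HU_fin hD 5)]
    exact Finset.sum_congr rfl fun u hu => hFT y hy u hu
  -- the counting function
  have hcard : ∀ v ∈ V, ((A ×ˢ U).filter fun q => T q.1 q.2 = v).card = w1 := by
    intro v hv
    have hinj : Set.InjOn Prod.fst
        (((A ×ˢ U).filter fun q => T q.1 q.2 = v : Finset (Ico × (Fin 4 → ℤ))) :
          Set (Ico × (Fin 4 → ℤ))) := by
      rintro ⟨y, u⟩ h1 ⟨y', u'⟩ h2 h3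
      rw [Finset.mem_coe, Finset.mem_filter, Finset.mem_product] at h1 h2
      simp only at h1 h2 h3
      subst h3
      have h4 : lq u = lq u' := by
        refine HS_cancel hπ ((memA y).1 h1.1.1) ?_
        rw [hT, hT, h1.2, h2.2]
      rw [hD.lq_inj h4]
    have hNv : (lq v).N = 5 * (p : O5) := by
      rw [hD.lq_norm, (memV v).1 hv]
      push_cast
      ring
    rw [← Finset.card_image_of_injOn hinj, ← Set.ncard_coe_finset,
      ← HS0_count hD p π (lq v) hp hp5 hπ hππ hNv (hD.lq_fixed v)]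
    congr 1
    ext y
    rw [Finset.mem_coe, Finset.mem_image]
    constructor
    · rintro ⟨⟨y', u⟩, h1, rfl⟩
      rw [Finset.mem_filter, Finset.mem_product] at h1
      simp only at h1
      refine ⟨(memA y').1 h1.1.1, lq u, hD.lq_fixed u, ?_⟩
      rw [hT, h1.2]
    · rintro ⟨hy, z', hz', hv'⟩
      obtain ⟨u, rfl⟩ := hD.fixed z' hz'
      refine ⟨(y, u), ?_, rfl⟩
      rw [Finset.mem_filter, Finset.mem_product]
      refine ⟨⟨(memA y).2 hy, (memU u).2 ?_⟩, hD.lq_inj ?_⟩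
      · have h1 := congrArg Ico.N hv'
        rw [Ico.N_mul, Ico.N_mul, Ico.N_st, hy, hD.lq_norm, hD.lq_norm, (memV v).1 hv] at h1
        have h2 : (((p : ℤ) * 5 : ℤ) : O5) = (((p : ℤ) * qL u : ℤ) : O5) := by
          push_cast at h1 ⊢
          linear_combination h1 + (qL u : O5) * hππ
        have h3 := HI_O5_nat_mul h2
        exact (mul_left_cancel₀ hpZ h3).symm
      · simp only
        rw [← hT, hv']
  have hdouble : ∑ y ∈ A, ∑ u ∈ U, F (T y u) = ∑ v ∈ V, (w1 : ℤ) * F v := by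
    rw [← Finset.sum_product' A U fun y u => F (T y u)]
    rw [← Finset.sum_fiberwise_of_maps_to (s := A ×ˢ U) (t := V) (g := fun q => T q.1 q.2)]
    · refine Finset.sum_congr rfl fun v hv => ?_
      rw [← hcard v hv, ← nsmul_eq_mul, ← Finset.sum_const]
      refine Finset.sum_congr rfl fun q hq => ?_
      rw [(Finset.mem_filter.1 hq).2]
    · intro q hq
      rw [Finset.mem_product] at hq
      exact hTV q.1 hq.1 q.2 hq.2
  have hV1 : ∑ v ∈ V, F v = ak a b p * phi k x := by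
    rw [← hE x p hp.one_le,
      finsum_mem_eq_finite_toFinset_sum _ (HU_fin hD (5 * (p : ℤ)))]
  rw [hL, hdouble, ← Finset.mul_sum, hV1]
  ring

end H53M
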