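import Pool.Agent.Lib.H53M.HU

/-!
# H53M, chunk HS0 (M): divisor counts for z in L, split and inert case
-/

namespace H53M

/-- `st` and `bar` commute -/
theorem HS0_st_bar (x : Ico) : Ico.st (Ico.bar x) = Ico.bar (Ico.st x) := by
  ext1 <;> simp only [Ico.st, Ico.bar, star_add, Ico.star_O5_mul, star_pow, Ico.star_om,
    star_neg] <;>
    (try simp only [Ico.om_sq]) <;> ring_nf <;> (try simp only [Ico.om_sq]) <;> (try ring_nf)

theorem HS0_f1_zero (x : O5) (h : f1 x = 0) : x = 0 := by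
  have h1 : (x.re : ℝ) + x.im * ((1 + Real.sqrt 5) / 2) = 0 := h
  have hirr : Irrational (Real.sqrt 5) := by
    have := Nat.Prime.irrational_sqrt (p := 5) (by norm_num)
    simpa using this
  have him : x.im = 0 := by
    by_contra hne
    apply hirr
    refine ⟨(-(2 * x.re + x.im) / x.im : ℚ), ?_⟩
    have hne' : (x.im : ℝ) ≠ 0 := by exact_mod_cast hne
    push_cast
    field_simp
    linarith
  have hre : x.re = 0 := by
    rw [him] at h1
    simp at h1
    exact h1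
  exact QuadraticAlgebra.ext hre him

theorem HS0_nzd : NoZeroDivisors O5 :=
  Function.Injective.noZeroDivisors f1 ((injective_iff_map_eq_zero f1).2 HS0_f1_zero)
    (map_zero f1) (map_mul f1)

attribute [local instance] HS0_nzd

theorem HS0_pos_ne {π : O5} (h : Pos π) : π ≠ 0 := by
  rintro rfl
  have := h.1
  simp at this

theorem HS0_dvd_cast (n : ℤ) (x : O5) (h : (n : O5) ∣ x) : n ∣ x.re ∧ n ∣ x.im := by
  obtain ⟨y, rfl⟩ := h
  refine ⟨⟨y.re, ?_⟩, ⟨y.im, ?_⟩⟩
  · simp [QuadraticAlgebra.re_mul]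
  · simp [QuadraticAlgebra.im_mul]

theorem HS0_N_bar (x : Ico) : (Ico.bar x).N = x.N := by
  apply Ico.ofO_injective
  rw [← Ico.mul_bar, Ico.bar_bar, Ico.bar_mul_self]

theorem HS0_bar_ofO (r : O5) : Ico.bar (Ico.ofO r) = Ico.ofO r := by
  ext1 <;> simp [Ico.bar]

theorem HS0_ofO_cancel {π : O5} (hπ : π ≠ 0) {x y : Ico}
    (h : Ico.ofO π * x = Ico.ofO π * y) : x = y := by
  rw [Ico.ofO_mul, Ico.ofO_mul] at h
  have ha := congrArg Ico.a h
  have hb := congrArg Ico.b h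
  have hc := congrArg Ico.c h
  have hd := congrArg Ico.d h
  exact Ico.ext (mul_left_cancel₀ hπ ha) (mul_left_cancel₀ hπ hb) (mul_left_cancel₀ hπ hc)
    (mul_left_cancel₀ hπ hd)

theorem HS0_cancel {y x x' : Ico} (hy : y.N ≠ 0) (h : y * x = y * x') : x = x' := by
  apply HS0_ofO_cancel hy
  rw [← Ico.bar_mul_self, mul_assoc, mul_assoc, h]

/-- Split case: `π π' = p`, `z ∈ L`, `N z = 5p`: `π` does not divide `z`.
Proof.  If `z = π z''` then `π² N(z'') = 5 π π'`, so `π ∣ 5 π'` (cancel, `O5` is a domain: `f1` is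
injective), `π` prime (`hD.prime_split`).  `π ∣ 5` gives `p = norm π ∣ 25`, so `p = 5`.
`π ∣ π'`: write `π = a + bω`, `π' = π - b(2ω - 1)`... `π ∣ b (2ω-1)`, take norms: `p ∣ 5b²`
(`norm (2ω-1) = -5`), so `p ∣ b`, and `p = norm π = a² + ab - b²` gives `p ∣ a²`, `p ∣ a`,
`p² ∣ p`: contradiction. -/
theorem HS0_ndvd (hD : DFacts) (p : ℕ) (π : O5) (z : Ico) (hp : p.Prime) (hp5 : p ≠ 5)
    (hπ : Pos π) (hππ : π * star π = (p : O5)) (hz : z.N = 5 * (p : O5)) :
    ¬ IDvd π z := by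
  rintro ⟨w, rfl⟩
  have hpr := hD.prime_split p π hp hp5 hππ
  have hN : (Ico.ofO π * w).N = π ^ 2 * w.N := by
    rw [Ico.N_mul]
    congr 1
    simp [Ico.N]
  rw [hN, ← hππ] at hz
  have h1 : π * w.N = 5 * star π := by
    apply mul_left_cancel₀ (HS0_pos_ne hπ)
    linear_combination hz
  have h2 : π ∣ 5 * star π := ⟨w.N, h1.symm⟩
  have hre : π.re ^ 2 + π.re * π.im - π.im ^ 2 = p := by
    have h := congrArg QuadraticAlgebra.re hππ
    simp [QuadraticAlgebra.re_mul] at h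
    linear_combination h
  have hpz : Prime (p : ℤ) := Nat.prime_iff_prime_int.1 hp
  rcases hpr.dvd_or_dvd h2 with h3 | h3
  · obtain ⟨c, hc⟩ := h3
    have h4 : (25 : O5) = (p : O5) * (c * star c) := by
      have h5 := congrArg star hc
      rw [Ico.star_O5_mul] at h5
      have h6 : star (5 : O5) = 5 := by decide
      rw [h6] at h5
      calc (25 : O5) = 5 * 5 := by norm_num
        _ = (π * c) * (star π * star c) := by rw [← h5, ← hc]
        _ = (π * star π) * (c * star c) := by ring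
        _ = _ := by rw [hππ]
    have h5 := (HS0_dvd_cast p 25 ⟨c * star c, by rw [h4]; simp⟩).1
    have h6 : (25 : O5).re = 25 := rfl
    rw [h6] at h5
    have h7 : p ∣ 5 ^ 2 := by
      norm_num
      exact_mod_cast h5
    exact hp5 ((Nat.prime_dvd_prime_iff_eq hp (by norm_num)).1 (hp.dvd_of_dvd_pow h7))
  · have h4 : π ∣ (⟨π.im, -2 * π.im⟩ : O5) := by
      have h5 : (⟨π.im, -2 * π.im⟩ : O5) = star π - π := by
        ext
        · simp
        · simp; ring
      rw [h5]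
      exact dvd_sub h3 dvd_rfl
    obtain ⟨c, hc⟩ := h4
    have h5 : (p : O5) * (c * star c) = ⟨-5 * π.im ^ 2, 0⟩ := by
      have h6 := congrArg star hc
      rw [Ico.star_O5_mul] at h6
      calc (p : O5) * (c * star c) = (π * c) * (star π * star c) := by rw [← hππ]; ring
        _ = (⟨π.im, -2 * π.im⟩ : O5) * star (⟨π.im, -2 * π.im⟩ : O5) := by rw [← h6, ← hc]
        _ = _ := by
          ext
          · simp [QuadraticAlgebra.re_mul]; ring
          · simp [QuadraticAlgebra.im_mul]; ring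
    have h7 := (HS0_dvd_cast p (⟨-5 * π.im ^ 2, 0⟩ : O5) ⟨c * star c, by rw [← h5]; simp⟩).1
    have h8 : (p : ℤ) ∣ 5 * π.im ^ 2 := by
      have h9 : (p : ℤ) ∣ -5 * π.im ^ 2 := h7
      rw [neg_mul, dvd_neg] at h9
      exact h9
    have h9 : (p : ℤ) ∣ π.im := by
      rcases hpz.dvd_or_dvd h8 with h | h
      · exfalso
        have h10 : p ∣ 5 := by exact_mod_cast h
        exact hp5 ((Nat.prime_dvd_prime_iff_eq hp (by norm_num)).1 h10)
      · exact hpz.dvd_of_dvd_pow h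
    have h10 : (p : ℤ) ∣ π.re := by
      apply hpz.dvd_of_dvd_pow (n := 2)
      have h11 : π.re ^ 2 = p - π.re * π.im + π.im ^ 2 := by linear_combination hre
      rw [h11]
      exact dvd_add (dvd_sub dvd_rfl (h9.mul_left _)) (dvd_pow h9 (by norm_num))
    obtain ⟨u, hu⟩ := h9
    obtain ⟨v, hv⟩ := h10
    rw [hu, hv] at hre
    have h12 : (p : ℤ) * (p * (v ^ 2 + v * u - u ^ 2) - 1) = 0 := by linear_combination hre
    rcases mul_eq_zero.1 h12 with h | h
    · exact hpz.ne_zero h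
    · exact hpz.not_isUnit (IsUnit.of_mul_eq_one (v ^ 2 + v * u - u ^ 2) (by linear_combination h))

theorem HS0_gen (hD : DFacts) (π : O5) (z : Ico) (hpr : Prime π) (hpos : Pos π)
    (hnd : ¬ IDvd π z) (hdvd : π ∣ z.N)
    (h5 : ∀ y w : Ico, y.N = π → z = y * w → ∃ z', Ico.st z' = z' ∧ z = y * z' * Ico.st y) :
    {y : Ico | y.N = π ∧ ∃ z' : Ico, Ico.st z' = z' ∧ z = y * z' * Ico.st y}.ncard = w1 := by
  obtain ⟨y₀, w, hy₀, hw⟩ := hD.left_ex π z hpr hpos hnd hdvd
  obtain ⟨z₀, hz₀, hz₀'⟩ := h5 y₀ w hy₀ hw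
  have himg : {y : Ico | y.N = π ∧ ∃ z' : Ico, Ico.st z' = z' ∧ z = y * z' * Ico.st y} =
      (fun e => y₀ * e) '' IN 1 := by
    ext y
    simp only [Set.mem_ofPred_eq, Set.mem_image]
    constructor
    · rintro ⟨hy, z', -, hz'⟩
      obtain ⟨e, he, hye⟩ := hD.left_un π z y₀ (z₀ * Ico.st y₀) y (z' * Ico.st y) hpr hpos hnd hy₀ hy
        (by rw [← mul_assoc]; exact hz₀') (by rw [← mul_assoc]; exact hz')
      exact ⟨e, he, hye.symm⟩
    · rintro ⟨e, he, rfl⟩
      have he1 : e.N = 1 := he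
      have hee : e * Ico.bar e = 1 := by rw [Ico.mul_bar, he1, map_one]
      refine ⟨by rw [Ico.N_mul, hy₀, he1, mul_one], Ico.bar e * z₀ * Ico.st (Ico.bar e), ?_, ?_⟩
      · rw [Ico.st_mul, Ico.st_mul, Ico.st_st, hz₀, mul_assoc]
      · have h1 : Ico.st (Ico.bar e) * Ico.st e = 1 := by
          rw [← Ico.st_mul, hee]
          decide
        calc z = y₀ * z₀ * Ico.st y₀ := hz₀'
          _ = y₀ * (e * Ico.bar e) * z₀ * (Ico.st (Ico.bar e) * Ico.st e) * Ico.st y₀ := by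
            rw [hee, h1, mul_one, mul_one]
          _ = y₀ * e * (Ico.bar e * z₀ * Ico.st (Ico.bar e)) * Ico.st (y₀ * e) := by
            rw [Ico.st_mul]
            simp only [mul_assoc]
  rw [himg, Set.ncard_image_of_injective, w1]
  intro x x' h
  exact HS0_cancel (by rw [hy₀]; exact HS0_pos_ne hpos) h

/-- Split case: the `y` of norm `π` with `z = y z' y*`, `z' ∈ L`, form one class `y₀ e`,
`N e = 1`: there are `w₁` of them.
Proof.  Existence: `π ∣ N z`, `hD.left_ex`, `hD.d5_split`.  If `y₀` is one of them, then so is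
`y₀ e` (`z = y₀ e (e⁻¹ z' e*⁻¹) (y₀ e)*`, `e⁻¹ = bar e`, `st (bar e) = bar (st e)`), and conversely
`hD.left_un`.  `e ↦ y₀ e` is injective (`bar y₀ y₀ = π`, no zero divisors: `Ico` embeds in a
division ring by `H1`). -/
theorem HS0_count (hD : DFacts) (p : ℕ) (π : O5) (z : Ico) (hp : p.Prime) (hp5 : p ≠ 5)
    (hπ : Pos π) (hππ : π * star π = (p : O5)) (hz : z.N = 5 * (p : O5)) (hzL : Ico.st z = z) :
    {y : Ico | y.N = π ∧ ∃ z' : Ico, Ico.st z' = z' ∧ z = y * z' * Ico.st y}.ncard = w1 := by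
  have hnd := HS0_ndvd hD p π z hp hp5 hπ hππ hz
  refine HS0_gen hD π z (hD.prime_split p π hp hp5 hππ) hπ hnd
    ⟨5 * star π, by rw [hz, ← hππ]; ring⟩ fun y w hy hw => ?_
  exact hD.d5_split p π y w z hp hp5 hπ hππ hzL hnd hy hw

/-- Inert case, `p` does not divide `z`, `N z = 5p²`: the same count. -/
theorem HS0_count' (hD : DFacts) (p : ℕ) (z : Ico) (hp : p.Prime)
    (h5 : p % 5 = 2 ∨ p % 5 = 3) (hz : z.N = 5 * (p : O5) ^ 2) (hzL : Ico.st z = z)
    (hzp : ¬ IDvd (p : O5) z) :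
    {y : Ico | y.N = (p : O5) ∧ ∃ z' : Ico, Ico.st z' = z' ∧ z = y * z' * Ico.st y}.ncard
      = w1 := by
  refine HS0_gen hD (p : O5) z (hD.prime_inert p hp h5) ?_ hzp
    ⟨5 * (p : O5), by rw [hz]; ring⟩ fun y w hy hw => ?_
  · have h0 : (0 : ℝ) < p := by exact_mod_cast hp.pos
    exact ⟨by rw [map_natCast]; exact h0, by rw [map_natCast]; exact h0⟩
  · exact hD.d5_inert p y w z hp h5 hzL hzp ⟨5, by rw [hz]; ring⟩ hy hw

/-- `mz p z = #{y : N y = p, p z = y z' y* for some z' ∈ L}` -/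
noncomputable def mz (p : ℕ) (z : Ico) : ℕ :=
  {y : Ico | y.N = (p : O5) ∧ ∃ z' : Ico, Ico.st z' = z' ∧
    Ico.ofO (p : O5) * z = y * z' * Ico.st y}.ncard

theorem HS0_mz_unit_le (p : ℕ) (z e y : Ico) (he : e.N = 1)
    (hy : y.N = (p : O5) ∧ ∃ z' : Ico, Ico.st z' = z' ∧
      Ico.ofO (p : O5) * z = y * z' * Ico.st y) :
    (e * y).N = (p : O5) ∧ ∃ z' : Ico, Ico.st z' = z' ∧
      Ico.ofO (p : O5) * (e * z * Ico.st e) = (e * y) * z' * Ico.st (e * y) := by
  obtain ⟨h1, z', h2, h3⟩ := hy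
  refine ⟨by rw [Ico.N_mul, he, h1, one_mul], z', h2, ?_⟩
  calc Ico.ofO (p : O5) * (e * z * Ico.st e) = (Ico.ofO (p : O5) * e) * z * Ico.st e := by
        simp only [mul_assoc]
    _ = e * (Ico.ofO (p : O5) * z) * Ico.st e := by
        rw [← Ico.mul_ofO]
        simp only [mul_assoc]
    _ = e * (y * z' * Ico.st y) * Ico.st e := by rw [h3]
    _ = (e * y) * z' * Ico.st (e * y) := by
        rw [Ico.st_mul]
        simp only [mul_assoc]

theorem HS0_mz_unit (p : ℕ) (z e : Ico) (he : e.N = 1) :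
    mz p (e * z * Ico.st e) = mz p z := by
  have hee : e * Ico.bar e = 1 := by rw [Ico.mul_bar, he, map_one]
  have hee' : Ico.bar e * e = 1 := by rw [Ico.bar_mul_self, he, map_one]
  have heb : (Ico.bar e).N = 1 := by rw [HS0_N_bar, he]
  have himg : {y : Ico | y.N = (p : O5) ∧ ∃ z' : Ico, Ico.st z' = z' ∧
      Ico.ofO (p : O5) * (e * z * Ico.st e) = y * z' * Ico.st y} =
      (fun y => e * y) '' {y : Ico | y.N = (p : O5) ∧ ∃ z' : Ico, Ico.st z' = z' ∧
        Ico.ofO (p : O5) * z = y * z' * Ico.st y} := by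
    ext y
    constructor
    · intro hy
      refine ⟨Ico.bar e * y, ?_, ?_⟩
      · have h1 := HS0_mz_unit_le p (e * z * Ico.st e) (Ico.bar e) y heb hy
        have h2 : Ico.bar e * (e * z * Ico.st e) * Ico.st (Ico.bar e) = z := by
          have h3 : Ico.st e * Ico.st (Ico.bar e) = 1 := by
            rw [← Ico.st_mul, hee']
            decide
          calc Ico.bar e * (e * z * Ico.st e) * Ico.st (Ico.bar e)
              = (Ico.bar e * e) * z * (Ico.st e * Ico.st (Ico.bar e)) := by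
                simp only [mul_assoc]
            _ = z := by rw [hee', h3, one_mul, mul_one]
        rw [h2] at h1
        exact h1
      · show e * (Ico.bar e * y) = y
        rw [← mul_assoc, hee, one_mul]
    · rintro ⟨y', hy', rfl⟩
      exact HS0_mz_unit_le p z e y' he hy'
  unfold mz
  rw [himg, Set.ncard_image_of_injective]
  intro x x' h
  exact HS0_cancel (by rw [he]; exact one_ne_zero) h

theorem HS0_mz_bar_le (p : ℕ) (z y : Ico)
    (hy : y.N = (p : O5) ∧ ∃ z' : Ico, Ico.st z' = z' ∧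
      Ico.ofO (p : O5) * z = y * z' * Ico.st y) :
    (Ico.bar (Ico.st y)).N = (p : O5) ∧ ∃ z' : Ico, Ico.st z' = z' ∧
      Ico.ofO (p : O5) * Ico.bar z = Ico.bar (Ico.st y) * z' * Ico.st (Ico.bar (Ico.st y)) := by
  obtain ⟨h1, z', h2, h3⟩ := hy
  refine ⟨?_, Ico.bar z', by rw [HS0_st_bar, h2], ?_⟩
  · rw [HS0_N_bar, Ico.N_st, h1, star_natCast]
  · have h4 := congrArg Ico.bar h3
    have h5 : Ico.bar (Ico.ofO (p : O5)) = Ico.ofO (p : O5) := HS0_bar_ofO _
    rw [Ico.bar_mul, Ico.bar_mul, Ico.bar_mul, h5, Ico.mul_ofO] at h4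
    rw [h4, HS0_st_bar, Ico.st_st, mul_assoc]

theorem HS0_mz_bar (p : ℕ) (z : Ico) : mz p (Ico.bar z) = mz p z := by
  have hinv : ∀ y : Ico, Ico.bar (Ico.st (Ico.bar (Ico.st y))) = y := by
    intro y
    rw [HS0_st_bar, Ico.st_st, Ico.bar_bar]
  have himg : {y : Ico | y.N = (p : O5) ∧ ∃ z' : Ico, Ico.st z' = z' ∧
      Ico.ofO (p : O5) * Ico.bar z = y * z' * Ico.st y} =
      (fun y => Ico.bar (Ico.st y)) '' {y : Ico | y.N = (p : O5) ∧ ∃ z' : Ico, Ico.st z' = z' ∧
        Ico.ofO (p : O5) * z = y * z' * Ico.st y} := by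
    ext y
    constructor
    · intro hy
      refine ⟨Ico.bar (Ico.st y), ?_, hinv y⟩
      have h1 := HS0_mz_bar_le p (Ico.bar z) y hy
      rw [Ico.bar_bar] at h1
      exact h1
    · rintro ⟨y', hy', rfl⟩
      exact HS0_mz_bar_le p z y' hy'
  unfold mz
  rw [himg, Set.ncard_image_of_injective]
  intro x x' h
  have h1 := congrArg (fun y => Ico.bar (Ico.st y)) h
  simpa only [hinv] using h1

/-- `mz p` is constant on the vectors of norm 5 of `L`.
Proof.  `hD.orbit`.  If `z₂ = e z₁ e*`: `y ↦ e⁻¹ y` is a bijection.  If `z₂ = bar z₁`: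
`y z' y* = p z̄₁` gives, applying `bar`, `w (z̄') w* = p z₁` with `w = bar (y*)`, since
`st (bar x) = bar (st x)`; `y ↦ bar (st y)` is a bijection of the elements of norm `p`
(`N (st y) = star p = p`). -/
theorem HS0_mz (hD : DFacts) (p : ℕ) (z z₂ : Ico) (hz : z.N = 5) (hz₂ : z₂.N = 5)
    (hzL : Ico.st z = z) (hz₂L : Ico.st z₂ = z₂) : mz p z = mz p z₂ := by
  obtain ⟨e, he, h | h⟩ := hD.orbit z z₂ hzL hz₂L hz hz₂
  · rw [h, HS0_mz_unit p z e he]
  · rw [h, HS0_mz_unit p (Ico.bar z) e he, HS0_mz_bar]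

end H53M
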