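import Pool.Agent.Lib.H53M.HB2

/-!
# H53M, chunk HU (M): transformation of `phi` under units and scalars
-/

namespace H53M

theorem HU_cast (n : ℤ) (h : ((n : ℤ) : O5) = 5) : n = 5 := by
  have h1 := congrArg QuadraticAlgebra.re h
  have h2 : (5 : O5).re = 5 := rfl
  rw [h2, QuadraticAlgebra.re_intCast] at h1
  exact_mod_cast h1

theorem HU_fin (hD : DFacts) (n : ℤ) : {u : Fin 4 → ℤ | qL u = n}.Finite := by
  refine ((hD.fin (n : O5)).preimage hD.lq_inj.injOn).subset fun u hu => ?_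
  show (lq u).N = (n : O5)
  rw [hD.lq_norm u]
  have h : qL u = n := hu
  rw [h]

/-- `phi` as a sum over `{u : Fin 4 → ℤ | qL u = 5}` (finite, by `hD.mem_L5`, `hD.lq_norm`). -/
theorem HU_sum (hD : DFacts) (k : ℕ) (x : Ico) : phi k x =
    ∑ᶠ u ∈ {u : Fin 4 → ℤ | qL u = 5}, psi (lq u) * PP (k - 2) (x * lq u * Ico.st x) := by
  rw [finsum_mem_eq_finite_toFinset_sum _ (HU_fin hD 5)]
  unfold phi
  have h5 : ∀ A D e f : ℤ, (A, D, e, f) ∈ L5 ↔ qL ![A, D, e, f] = 5 := by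
    intro A D e f
    rw [hD.mem_L5]
    have h1 : lq ![A, D, e, f] = lp A D e f := rfl
    have h2 := hD.lq_norm ![A, D, e, f]
    rw [h1] at h2
    rw [h2]
    constructor
    · intro h
      exact HU_cast _ h
    · intro h
      rw [h]
      norm_num
  refine Finset.sum_nbij' (fun u => ![u.1, u.2.1, u.2.2.1, u.2.2.2])
    (fun u => (u 0, u 1, u 2, u 3)) ?_ ?_ ?_ ?_ ?_
  · rintro ⟨A, D, e, f⟩ hu
    rw [Set.Finite.mem_toFinset]
    exact (h5 A D e f).1 hu
  · intro u hu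
    rw [Set.Finite.mem_toFinset] at hu
    have h6 : qL u = 5 := hu
    rw [h5]
    have h7 : ![u 0, u 1, u 2, u 3] = u := by
      funext i
      fin_cases i <;> rfl
    rw [h7]
    exact h6
  · rintro ⟨A, D, e, f⟩ _
    rfl
  · intro u _
    funext i
    fin_cases i <;> rfl
  · rintro ⟨A, D, e, f⟩ _
    rfl

theorem HU_conj (hD : DFacts) (e z : Ico) (he : e.N = 1) (u : Fin 4 → ℤ) (hu : qL u = 5)
    (hz : z = e * lq u * Ico.st e) :
    Ico.st z = z ∧ z.N = 5 ∧ psi z = psi (lq u) := by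
  have hf := hD.lq_fixed u
  refine ⟨?_, ?_, ?_⟩
  · rw [hz, Ico.st_mul, Ico.st_mul, Ico.st_st, hf, mul_assoc]
  · rw [hz, Ico.N_mul, Ico.N_mul, Ico.N_st, he, star_one, hD.lq_norm, hu]
    norm_num
  · rw [hz]
    refine hD.psi_conj e (lq u) hf ?_
    rw [he]
    decide

/-- right multiplication by units of norm one: `u ↦ e u e*` permutes the vectors of norm 5 of `L`
and preserves `ψ` (`hD.psi_conj`, `hD.fixed`, `hD.lq_inj`). -/
theorem HU_unit (hD : DFacts) (k : ℕ) (x e : Ico) (he : e.N = 1) : phi k (x * e) = phi k x := by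
  rw [HU_sum hD, HU_sum hD]
  have hex : ∀ (e : Ico), e.N = 1 → ∀ u : Fin 4 → ℤ, qL u = 5 →
      ∃ v : Fin 4 → ℤ, lq v = e * lq u * Ico.st e ∧ qL v = 5 ∧ psi (lq v) = psi (lq u) := by
    intro e he u hu
    obtain ⟨h1, h2, h3⟩ := HU_conj hD e _ he u hu rfl
    obtain ⟨v, hv⟩ := hD.fixed _ h1
    refine ⟨v, hv.symm, ?_, ?_⟩
    · have h4 := hD.lq_norm v
      rw [← hv, h2] at h4
      exact HU_cast _ h4.symm
    · rw [← hv]
      exact h3
  have hbe : (Ico.bar e).N = 1 := by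
    have h1 := congrArg Ico.N (Ico.mul_bar e)
    rw [Ico.N_mul, he, one_mul, map_one, Ico.N_one] at h1
    exact h1
  choose! τ hτ1 hτ2 hτ3 using hex
  have hcancel1 : Ico.bar e * e = 1 := by rw [Ico.bar_mul_self, he, map_one]
  have hcancel2 : e * Ico.bar e = 1 := by rw [Ico.mul_bar, he, map_one]
  have hst1 : Ico.st (1 : Ico) = 1 := by
    have h1 := Ico.st_mul (Ico.st 1) 1
    rw [mul_one, Ico.st_st] at h1
    rw [mul_one] at h1
    exact h1.symm
  have hcancel3 : Ico.st e * Ico.st (Ico.bar e) = 1 := by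
    rw [← Ico.st_mul, hcancel1, hst1]
  have hcancel4 : Ico.st (Ico.bar e) * Ico.st e = 1 := by
    rw [← Ico.st_mul, hcancel2, hst1]
  refine finsum_mem_eq_of_bijOn (τ e) ⟨?_, ?_, ?_⟩ ?_
  · intro u hu
    exact hτ2 e he u hu
  · intro u hu v hv huv
    apply hD.lq_inj
    have h1 : e * lq u * Ico.st e = e * lq v * Ico.st e := by
      rw [← hτ1 e he u hu, ← hτ1 e he v hv, huv]
    have h2 : ∀ z : Ico, Ico.bar e * (e * z * Ico.st e) * Ico.st (Ico.bar e) = z := by
      intro z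
      calc Ico.bar e * (e * z * Ico.st e) * Ico.st (Ico.bar e) =
          (Ico.bar e * e) * z * (Ico.st e * Ico.st (Ico.bar e)) := by simp only [mul_assoc]
        _ = z := by rw [hcancel1, hcancel3, one_mul, mul_one]
    rw [← h2 (lq u), h1, h2]
  · intro v hv
    refine ⟨τ (Ico.bar e) v, hτ2 _ hbe v hv, ?_⟩
    apply hD.lq_inj
    rw [hτ1 e he _ (hτ2 _ hbe v hv), hτ1 _ hbe v hv]
    generalize lq v = z
    generalize Ico.st (Ico.bar e) = e1 at hcancel4
    generalize Ico.st e = e2 at hcancel4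
    calc e * (Ico.bar e * z * e1) * e2 =
        (e * Ico.bar e) * z * (e1 * e2) := by simp only [mul_assoc]
      _ = z := by rw [hcancel2, hcancel4, one_mul, mul_one]
  · intro u hu
    have h1 : x * (e * lq u * Ico.st e) * Ico.st x = x * e * lq u * (Ico.st e * Ico.st x) := by
      simp only [mul_assoc]
    rw [hτ3 e he u hu, hτ1 e he u hu, Ico.st_mul x e, h1]

theorem HU_norm (c : O5) : c * star c = ((QuadraticAlgebra.norm c : ℤ) : O5) := by
  ext
  · simp [QuadraticAlgebra.norm_def]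
    ring
  · simp
    ring

theorem HU_st_ofO (c : O5) : Ico.st (Ico.ofO c) = Ico.ofO (star c) := by
  ext1 <;> simp [Ico.st]

/-- scalars: `(c x) u (c x)* = (c c') (x u x*)`, `c c' = norm c ∈ ℤ`. -/
theorem HU_scal (k : ℕ) (c : O5) (x : Ico) :
    phi k (Ico.ofO c * x) = (QuadraticAlgebra.norm c) ^ (k - 2) * phi k x := by
  unfold phi
  rw [Finset.mul_sum]
  refine Finset.sum_congr rfl fun u _ => ?_
  have h1 : Ico.ofO c * x * lp u.1 u.2.1 u.2.2.1 u.2.2.2 * Ico.st (Ico.ofO c * x) =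
      (QuadraticAlgebra.norm c : ℤ) • (x * lp u.1 u.2.1 u.2.2.1 u.2.2.2 * Ico.st x) := by
    rw [Ico.st_mul, HU_st_ofO, zsmul_eq_mul]
    have h2 : ((QuadraticAlgebra.norm c : ℤ) : Ico) = Ico.ofO c * Ico.ofO (star c) := by
      rw [← map_mul, HU_norm, map_intCast]
    rw [h2]
    generalize lp u.1 u.2.1 u.2.2.1 u.2.2.2 = v
    generalize Ico.st x = y
    calc Ico.ofO c * x * v * (y * Ico.ofO (star c)) =
        Ico.ofO c * x * v * (Ico.ofO (star c) * y) := by rw [Ico.mul_ofO (star c) y]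
      _ = Ico.ofO c * ((x * v) * Ico.ofO (star c)) * y := by simp only [mul_assoc]
      _ = Ico.ofO c * (Ico.ofO (star c) * (x * v)) * y := by rw [Ico.mul_ofO (star c) (x * v)]
      _ = Ico.ofO c * Ico.ofO (star c) * (x * v * y) := by simp only [mul_assoc]
  rw [h1, HB2_smul]
  ring

theorem HU_zero (k : ℕ) (hk : 12 ≤ k) : phi k 0 = 0 := by
  unfold phi
  refine Finset.sum_eq_zero fun u _ => ?_
  rw [zero_mul, zero_mul, HB2_zero (k - 2) (by omega), mul_zero]

end H53M
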