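import Pool.Agent.Lib.H53M.Defs

/-!
# H53M, definitions of Part I: the icosian ring

`O5 = ℤ[ω]`, `ω² = ω + 1`.  The icosian ring has the `O5`-basis `1, i, s, t` with
`s = (ω + ω² i + j)/2`, `t = (ω² + ω i + k)/2`; `Ico` is the type of coordinate vectors.
-/

namespace H53M

open QuadraticAlgebra

/-- `ℤ[ω]`, `ω² = 1 + ω`. -/
abbrev O5 := QuadraticAlgebra ℤ 1 1

/-- `ω`. -/
def om : O5 := ⟨0, 1⟩

/-- The icosian ring, coordinates with respect to `1, i, s, t`. -/
@[ext] structure Ico where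
  a : O5
  b : O5
  c : O5
  d : O5
  deriving DecidableEq

namespace Ico

instance : Zero Ico := ⟨⟨0, 0, 0, 0⟩⟩
instance : One Ico := ⟨⟨1, 0, 0, 0⟩⟩
instance : Add Ico := ⟨fun x y => ⟨x.a + y.a, x.b + y.b, x.c + y.c, x.d + y.d⟩⟩
instance : Neg Ico := ⟨fun x => ⟨-x.a, -x.b, -x.c, -x.d⟩⟩
instance : Sub Ico := ⟨fun x y => ⟨x.a - y.a, x.b - y.b, x.c - y.c, x.d - y.d⟩⟩
/-- multiplication table: `i² = -1`, `i s = t - ω²`, `i t = ω² i - s`, `s i = ω i - t`,
`s² = ω s - ω²`, `s t = ω² i`, `t i = s - ω`, `t s = -ω³ - ω² i + ω² s + ω t`,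
`t² = ω² t - ω²`. -/
instance : Mul Ico := ⟨fun x y =>
  ⟨x.a * y.a - x.b * y.b - om ^ 2 * (x.b * y.c) - om ^ 2 * (x.c * y.c) - om * (x.d * y.b)
      - om ^ 3 * (x.d * y.c) - om ^ 2 * (x.d * y.d),
    x.a * y.b + x.b * y.a + om ^ 2 * (x.b * y.d) + om * (x.c * y.b) + om ^ 2 * (x.c * y.d)
      - om ^ 2 * (x.d * y.c),
    x.a * y.c + x.c * y.a - x.b * y.d + om * (x.c * y.c) + x.d * y.b + om ^ 2 * (x.d * y.c),
    x.a * y.d + x.d * y.a + x.b * y.c - x.c * y.b + om * (x.d * y.c) + om ^ 2 * (x.d * y.d)⟩⟩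

@[simp] theorem zero_a : (0 : Ico).a = 0 := rfl
@[simp] theorem zero_b : (0 : Ico).b = 0 := rfl
@[simp] theorem zero_c : (0 : Ico).c = 0 := rfl
@[simp] theorem zero_d : (0 : Ico).d = 0 := rfl
@[simp] theorem one_a : (1 : Ico).a = 1 := rfl
@[simp] theorem one_b : (1 : Ico).b = 0 := rfl
@[simp] theorem one_c : (1 : Ico).c = 0 := rfl
@[simp] theorem one_d : (1 : Ico).d = 0 := rfl
@[simp] theorem add_a (x y : Ico) : (x + y).a = x.a + y.a := rfl
@[simp] theorem add_b (x y : Ico) : (x + y).b = x.b + y.b := rfl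
@[simp] theorem add_c (x y : Ico) : (x + y).c = x.c + y.c := rfl
@[simp] theorem add_d (x y : Ico) : (x + y).d = x.d + y.d := rfl
@[simp] theorem neg_a (x : Ico) : (-x).a = -x.a := rfl
@[simp] theorem neg_b (x : Ico) : (-x).b = -x.b := rfl
@[simp] theorem neg_c (x : Ico) : (-x).c = -x.c := rfl
@[simp] theorem neg_d (x : Ico) : (-x).d = -x.d := rfl
@[simp] theorem sub_a (x y : Ico) : (x - y).a = x.a - y.a := rfl
@[simp] theorem sub_b (x y : Ico) : (x - y).b = x.b - y.b := rfl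
@[simp] theorem sub_c (x y : Ico) : (x - y).c = x.c - y.c := rfl
@[simp] theorem sub_d (x y : Ico) : (x - y).d = x.d - y.d := rfl
theorem mul_a (x y : Ico) : (x * y).a = x.a * y.a - x.b * y.b - om ^ 2 * (x.b * y.c)
    - om ^ 2 * (x.c * y.c) - om * (x.d * y.b) - om ^ 3 * (x.d * y.c) - om ^ 2 * (x.d * y.d) := rfl
theorem mul_b (x y : Ico) : (x * y).b = x.a * y.b + x.b * y.a + om ^ 2 * (x.b * y.d)
    + om * (x.c * y.b) + om ^ 2 * (x.c * y.d) - om ^ 2 * (x.d * y.c) := rfl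
theorem mul_c (x y : Ico) : (x * y).c = x.a * y.c + x.c * y.a - x.b * y.d + om * (x.c * y.c)
    + x.d * y.b + om ^ 2 * (x.d * y.c) := rfl
theorem mul_d (x y : Ico) : (x * y).d = x.a * y.d + x.d * y.a + x.b * y.c - x.c * y.b
    + om * (x.d * y.c) + om ^ 2 * (x.d * y.d) := rfl

theorem om_sq : om ^ 2 = om + 1 := by decide

theorem om_cube : om ^ 3 = 2 * om + 1 := by decide

instance : Ring Ico where
  add_assoc x y z := by ext1 <;> simp [add_assoc]
  zero_add x := by ext1 <;> simp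
  add_zero x := by ext1 <;> simp
  add_comm x y := by ext1 <;> simp [add_comm]
  neg_add_cancel x := by ext1 <;> simp
  sub_eq_add_neg x y := by ext1 <;> simp [sub_eq_add_neg]
  nsmul := nsmulRec
  zsmul := zsmulRec
  left_distrib x y z := by
    ext1 <;> simp only [mul_a, mul_b, mul_c, mul_d, add_a, add_b, add_c, add_d] <;> ring
  right_distrib x y z := by
    ext1 <;> simp only [mul_a, mul_b, mul_c, mul_d, add_a, add_b, add_c, add_d] <;> ring
  zero_mul x := by ext1 <;> simp [mul_a, mul_b, mul_c, mul_d]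
  mul_zero x := by ext1 <;> simp [mul_a, mul_b, mul_c, mul_d]
  one_mul x := by ext1 <;> simp [mul_a, mul_b, mul_c, mul_d]
  mul_one x := by ext1 <;> simp [mul_a, mul_b, mul_c, mul_d]
  mul_assoc x y z := by
    have h := om_sq
    have h3 := om_cube
    ext1 <;> simp only [mul_a, mul_b, mul_c, mul_d, h, h3] <;> ring_nf <;>
      simp only [show om ^ 2 = om + 1 by decide] <;> ring_nf

/-- the central embedding `O5 → Ico` -/
def ofO : O5 →+* Ico where
  toFun r := ⟨r, 0, 0, 0⟩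
  map_one' := rfl
  map_zero' := rfl
  map_add' x y := by ext1 <;> simp
  map_mul' x y := by ext1 <;> simp [mul_a, mul_b, mul_c, mul_d]

@[simp] theorem ofO_a (r : O5) : (ofO r).a = r := rfl
@[simp] theorem ofO_b (r : O5) : (ofO r).b = 0 := rfl
@[simp] theorem ofO_c (r : O5) : (ofO r).c = 0 := rfl
@[simp] theorem ofO_d (r : O5) : (ofO r).d = 0 := rfl

theorem ofO_mul (r : O5) (x : Ico) : ofO r * x = ⟨r * x.a, r * x.b, r * x.c, r * x.d⟩ := by
  ext1 <;> simp [mul_a, mul_b, mul_c, mul_d]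

theorem mul_ofO (r : O5) (x : Ico) : x * ofO r = ofO r * x := by
  ext1 <;> simp [mul_a, mul_b, mul_c, mul_d, mul_comm]

/-- quaternion conjugation: `ī = -i`, `s̄ = ω - s`, `t̄ = ω² - t` -/
def bar (x : Ico) : Ico := ⟨x.a + om * x.c + om ^ 2 * x.d, -x.b, -x.c, -x.d⟩

/-- reduced norm -/
def N (x : Ico) : O5 :=
  x.a ^ 2 + x.b ^ 2 + om ^ 2 * x.c ^ 2 + om ^ 2 * x.d ^ 2 + om * (x.a * x.c)
    + om ^ 2 * (x.a * x.d) + om ^ 2 * (x.b * x.c) + om * (x.b * x.d) + om ^ 3 * (x.c * x.d)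

/-- the involution `x* = g x̄^σ g⁻¹`, `g = i + j`, `σ` = conjugation of `ℚ(√5)`:
`i* = -j = ω + ω² i - 2 s`, `s* = (ω - 2) s`, `t* = -ω - ω i + (ω - 1) s + t`. -/
def st (x : Ico) : Ico :=
  ⟨star x.a + om * star x.b - om * star x.d, om ^ 2 * star x.b - om * star x.d,
    -2 * star x.b + (om - 2) * star x.c + (om - 1) * star x.d, star x.d⟩

theorem mul_bar (x : Ico) : x * bar x = ofO (N x) := by
  ext1 <;> simp only [mul_a, mul_b, mul_c, mul_d, bar, N, ofO_a, ofO_b, ofO_c, ofO_d] <;>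
    simp only [om_sq, om_cube] <;> ring_nf <;> (try simp only [om_sq]) <;> (try ring_nf)

theorem bar_mul_self (x : Ico) : bar x * x = ofO (N x) := by
  ext1 <;> simp only [mul_a, mul_b, mul_c, mul_d, bar, N, ofO_a, ofO_b, ofO_c, ofO_d] <;>
    simp only [om_sq, om_cube] <;> ring_nf <;> (try simp only [om_sq]) <;> (try ring_nf)

theorem bar_mul (x y : Ico) : bar (x * y) = bar y * bar x := by
  ext1 <;> simp only [mul_a, mul_b, mul_c, mul_d, bar] <;>
    simp only [om_sq, om_cube] <;> ring_nf <;> (try simp only [om_sq]) <;> (try ring_nf)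

theorem bar_bar (x : Ico) : bar (bar x) = x := by
  ext1 <;> simp only [bar] <;> ring_nf

theorem ofO_injective : Function.Injective ofO := fun x y h => by
  simpa using congrArg Ico.a h

theorem N_mul (x y : Ico) : N (x * y) = N x * N y := by
  apply ofO_injective
  rw [← mul_bar, bar_mul, map_mul]
  calc x * y * (bar y * bar x) = x * (y * bar y) * bar x := by simp only [mul_assoc]
    _ = x * ofO (N y) * bar x := by rw [mul_bar]
    _ = ofO (N y) * (x * bar x) := by rw [mul_ofO, mul_assoc]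
    _ = ofO (N y) * ofO (N x) := by rw [mul_bar]
    _ = ofO (N x) * ofO (N y) := by rw [← map_mul, ← map_mul, mul_comm]

theorem N_one : N 1 = 1 := by decide

theorem star_om : star om = 1 - om := by decide

theorem star_O5_mul (x y : O5) : star (x * y) = star x * star y := by
  rw [star_mul, mul_comm]

theorem st_add (x y : Ico) : st (x + y) = st x + st y := by
  ext1 <;> simp only [st, add_a, add_b, add_c, add_d, star_add] <;> ring

theorem st_mul (x y : Ico) : st (x * y) = st y * st x := by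
  ext1 <;> simp only [mul_a, mul_b, mul_c, mul_d, st, star_add, star_sub, star_O5_mul, star_pow,
    star_om, star_one] <;>
    simp only [om_sq, om_cube] <;> ring_nf <;> (try simp only [om_sq, om_cube]) <;> (try ring_nf)
    <;> (try simp only [om_sq, om_cube]) <;> (try ring_nf)

theorem st_st (x : Ico) : st (st x) = x := by
  have h2 : star (2 : O5) = 2 := by decide
  ext1 <;> simp only [st, star_add, star_sub, star_O5_mul, star_pow, star_om, star_one,
    star_star, star_neg, h2] <;>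
    (try simp only [om_sq, om_cube]) <;> ring_nf <;> (try simp only [om_sq, om_cube]) <;>
    (try ring_nf)

theorem N_st (x : Ico) : N (st x) = star (N x) := by
  simp only [N, st, star_add, star_sub, star_O5_mul, star_pow, star_om, star_one]
  simp only [om_sq, om_cube]
  ring_nf
  simp only [om_sq, om_cube]
  ring_nf

end Ico

/-! ### Real embeddings -/

/-- `ω ↦ (1 + √5)/2`. -/
noncomputable def f1 : O5 →+* ℝ where
  toFun x := x.re + x.im * ((1 + Real.sqrt 5) / 2)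
  map_one' := by simp
  map_zero' := by simp
  map_add' x y := by simp; ring
  map_mul' x y := by
    have h : Real.sqrt 5 ^ 2 = 5 := Real.sq_sqrt (by norm_num)
    simp only [re_mul, im_mul]
    push_cast
    linear_combination (-(x.im : ℝ) * y.im / 4) * h

/-- `ω ↦ (1 - √5)/2`. -/
noncomputable def f2 : O5 →+* ℝ where
  toFun x := x.re + x.im * ((1 - Real.sqrt 5) / 2)
  map_one' := by simp
  map_zero' := by simp
  map_add' x y := by simp; ring
  map_mul' x y := by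
    have h : Real.sqrt 5 ^ 2 = 5 := Real.sq_sqrt (by norm_num)
    simp only [re_mul, im_mul]
    push_cast
    linear_combination (-(x.im : ℝ) * y.im / 4) * h

/-- The quaternion attached to an icosian by an embedding `φ` of `O5`. -/
noncomputable def toH (φ : O5 →+* ℝ) : Ico →+* Quaternion ℝ where
  toFun x := ⟨φ x.a + φ x.c * φ om / 2 + φ x.d * φ om ^ 2 / 2,
    φ x.b + φ x.c * φ om ^ 2 / 2 + φ x.d * φ om / 2, φ x.c / 2, φ x.d / 2⟩
  map_one' := by
    ext
    · simp [Quaternion.re_one]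
    · simp [Quaternion.imI_one]
    · simp [Quaternion.imJ_one]
    · simp [Quaternion.imK_one]
  map_zero' := by
    ext
    · simp [Quaternion.re_zero]
    · simp [Quaternion.imI_zero]
    · simp [Quaternion.imJ_zero]
    · simp [Quaternion.imK_zero]
  map_add' x y := by
    ext
    · simp only [Ico.add_a, Ico.add_b, Ico.add_c, Ico.add_d, map_add, Quaternion.re_add]; ring
    · simp only [Ico.add_a, Ico.add_b, Ico.add_c, Ico.add_d, map_add, Quaternion.imI_add]; ring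
    · simp only [Ico.add_a, Ico.add_b, Ico.add_c, Ico.add_d, map_add, Quaternion.imJ_add]; ring
    · simp only [Ico.add_a, Ico.add_b, Ico.add_c, Ico.add_d, map_add, Quaternion.imK_add]; ring
  map_mul' x y := by
    have h0 : φ 2 = 2 := map_ofNat φ 2
    have h2 : φ om ^ 2 = φ om + 1 := by rw [← map_pow, Ico.om_sq, map_add, map_one]
    have h3 : φ om ^ 3 = 2 * φ om + 1 := by
      rw [← map_pow, Ico.om_cube, map_add, map_one, map_mul, h0]
    ext <;> simp only [Quaternion.re_mul, Quaternion.imI_mul, Quaternion.imJ_mul,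
      Quaternion.imK_mul, Ico.mul_a, Ico.mul_b, Ico.mul_c, Ico.mul_d, map_add, map_sub, map_mul,
      map_pow] <;> (try simp only [h2, h3]) <;> ring_nf <;> (try simp only [h2]) <;> (try ring_nf)

/-- first embedding -/
noncomputable abbrev H1 : Ico →+* Quaternion ℝ := toH f1

/-- second embedding -/
noncomputable abbrev H2 : Ico →+* Quaternion ℝ := toH f2

/-- `δ = ω/√5` in the first embedding -/
noncomputable def dl1 : ℝ := (1 + Real.sqrt 5) / 2 / Real.sqrt 5

/-- `δ' = -ω'/√5`, the conjugate of `δ` -/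
noncomputable def dl2 : ℝ := (Real.sqrt 5 - 1) / 2 / Real.sqrt 5

/-- the ring homomorphism `ℍ → M₂(ℂ)` -/
noncomputable def cm (x : Quaternion ℝ) : Matrix (Fin 2) (Fin 2) ℂ :=
  !![(x.re : ℂ) + x.imI * Complex.I, (x.imJ : ℂ) + x.imK * Complex.I;
    -(x.imJ : ℂ) + x.imK * Complex.I, (x.re : ℂ) - x.imI * Complex.I]

/-- `g = i + j` -/
noncomputable def gH : Quaternion ℝ := ⟨0, 1, 1, 0⟩

/-! ### The lattice `L`, the character `ψ`, the polynomial `P` -/

/-- Parametrisation of `L = {x : x* = x}` by `ℤ⁴`: in quaternion coordinates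
`2x = A + (B₀ + B₁ω) i - (B₀ + B₁ω)' j + D k`, `B₀ = D + 2e`, `B₁ = A + D + 2f`. -/
def lp (A D e f : ℤ) : Ico :=
  ⟨⟨-D - f, e⟩, ⟨D + 2 * e, e⟩, ⟨-(A + 2 * D + 2 * e + 2 * f), A + D + 2 * f⟩, ⟨D, 0⟩⟩

/-- reduction modulo `√5`: `ω ↦ 3` -/
def r5 (x : O5) : ZMod 5 := (x.re : ZMod 5) + 3 * (x.im : ZMod 5)

/-- `ρ : Ico → M₂(𝔽₅)`: `1, i = diag(2,3), s = [[3,3],[2,0]], t = [[0,1],[1,4]]`. -/
def rho (x : Ico) : Matrix (Fin 2) (Fin 2) (ZMod 5) :=
  !![r5 x.a + 2 * r5 x.b + 3 * r5 x.c, 3 * r5 x.c + r5 x.d;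
    2 * r5 x.c + r5 x.d, r5 x.a + 3 * r5 x.b + 4 * r5 x.d]

/-- `ρ(g)`, `g = i + j` -/
def rg : Matrix (Fin 2) (Fin 2) (ZMod 5) := !![2, 1; 4, 3]

/-- the quadratic character modulo 5 -/
def chi5 (x : ZMod 5) : ℤ := if x = 0 then 0 else if x = 1 ∨ x = 4 then 1 else -1

/-- `ψ(x)`: the class of the nilpotent matrix `ρ(x)ρ(g)`; zero if `√5 ∤ N x`. -/
def psi (x : Ico) : ℤ :=
  if r5 x.N = 0 then
    (if (rho x * rg) 0 1 = 0 then chi5 (-(rho x * rg) 1 0) else chi5 ((rho x * rg) 0 1))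
  else 0

/-- Gaussian ring over `O5` -/
abbrev O5i := QuadraticAlgebra O5 (-1) 0

/-- the isotropic linear form `ℓ(x) = (X₀ + X₂ - X₃) + (X₁ + X₂ + X₃) i`, `X = 2x` -/
def ell (x : Ico) : O5i :=
  ⟨2 * x.a + om * x.c + om ^ 2 * x.d + x.c - x.d, 2 * x.b + om ^ 2 * x.c + om * x.d + x.c + x.d⟩

/-- `P(x) = Tr_{ℚ(√5)/ℚ} Re ℓ(x)^d` -/
def PP (d : ℕ) (x : Ico) : ℤ := QuadraticAlgebra.trace ((ell x) ^ d).re

/-- parameters of the vectors of norm 5 of `L` -/
noncomputable def L5 : Finset (ℤ × ℤ × ℤ × ℤ) :=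
  ((Finset.Icc (-4) 4 ×ˢ (Finset.Icc (-4) 4 ×ˢ (Finset.Icc (-4) 4 ×ˢ Finset.Icc (-5) 5)))).filter
    fun u => (lp u.1 u.2.1 u.2.2.1 u.2.2.2).N = 5

/-- `φ(x) = Σ_{u ∈ L, N(u) = 5} ψ(u) P(x u x*)`, `P` of degree `k - 2`. -/
noncomputable def phi (k : ℕ) (x : Ico) : ℤ :=
  ∑ u ∈ L5, psi (lp u.1 u.2.1 u.2.2.1 u.2.2.2) *
    PP (k - 2) (x * lp u.1 u.2.1 u.2.2.1 u.2.2.2 * Ico.st x)

/-- `C(α) = Σ_{N(x) = α} φ(x)`. -/
noncomputable def CC (k : ℕ) (α : O5) : ℤ := ∑ᶠ x ∈ {x : Ico | x.N = α}, phi k x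

/-- The array: `ν = δ α` has `n = α₀ + α₁`, `m = α₀ + 3 α₁` (`α = α₀ + α₁ ω`). -/
noncomputable def carr (k : ℕ) (n : ℕ) (m : ℤ) : ℤ :=
  if Even ((n : ℤ) - m) then CC k ⟨(3 * (n : ℤ) - m) / 2, (m - (n : ℤ)) / 2⟩ else 0

/-- integral `q`-expansion of the cusp form `Δ E₄^a E₆^b` -/
noncomputable def fser (a b : ℕ) : PowerSeries ℤ := dl * e4 ^ a * e6 ^ b

end H53M
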