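import Pool.Agent.Lib.H53M.K7

/-!
# H53M, chunk K8 (size M): `h` is `p`-integral and modular modulo `p`

Termwise for `c = c(n,m) ≠ 0`, `N = N(n,m) > 0`.  `v_p(N) ≤ v_p(c)` gives `c/N` `p`-integral
(`pi_*`).  If `p ∤ N` then `c/N = c N^(p-2)` in `ZMod p` (Fermat).  If `p ∣ N` then
`p ∣ 4N = 5n² - m²`; as `5` is not a square modulo `p` (`p ≡ ±2 mod 5`, quadratic reciprocity:
`ZMod.exists_sq_eq_prime_iff_of_mod_four_eq_one` with `p = 5`, or `legendreSym`), `p ∣ n`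
(and `p ∣ m`); so `n c/N` and `n c N^(p-2)` are both `0` modulo `p`.
Hence `redQ p (hser c) = 5 • th (redZ p (nser p c))`, in `MP` of weight
`2k-4 + (p-1)(2k-2) + p + 1 = 2k-2 + (p-1)(2k-1)` (`KQ_th`).
-/

namespace H53M

open PowerSeries

theorem K8_five (p : ℕ) [Fact p.Prime] (h5 : p % 5 = 2 ∨ p % 5 = 3) (x y : ZMod p)
    (h : 5 * x ^ 2 = y ^ 2) (hp : 5 < p) : x = 0 ∧ y = 0 := by
  have hx : x = 0 := by
    by_contra hx
    have hsq : IsSquare ((5 : ℕ) : ZMod p) := by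
      refine ⟨y / x, ?_⟩
      field_simp
      push_cast
      linear_combination h
    have hd2 : ∀ r : ZMod 5, (2 : ZMod 5) ≠ r * r := by decide
    have hd3 : ∀ r : ZMod 5, (3 : ZMod 5) ≠ r * r := by decide
    have : Fact (Nat.Prime 5) := ⟨by norm_num⟩
    have h1 := (ZMod.exists_sq_eq_prime_iff_of_mod_four_eq_one (p := 5) (q := p) (by norm_num)
      (by omega)).2 hsq
    have h2 : ((p : ℕ) : ZMod 5) = 2 ∨ ((p : ℕ) : ZMod 5) = 3 := by
      rcases h5 with h5 | h5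
      · left
        have : ((p : ℕ) : ZMod 5) = ((p % 5 : ℕ) : ZMod 5) := by simp
        rw [this, h5]
        rfl
      · right
        have : ((p : ℕ) : ZMod 5) = ((p % 5 : ℕ) : ZMod 5) := by simp
        rw [this, h5]
        rfl
    rcases h2 with h2 | h2
    · rw [h2] at h1
      obtain ⟨r, hr⟩ := h1
      exact hd2 r hr
    · rw [h2] at h1
      obtain ⟨r, hr⟩ := h1
      exact hd3 r hr
  subst hx
  refine ⟨rfl, ?_⟩
  have h1 : y ^ 2 = 0 := by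
    rw [← h]
    ring
  exact pow_eq_zero_iff (by norm_num) |>.1 h1

/-- positivity of the norm on the support -/
theorem K8_pos {k : ℕ} {c : ℕ → ℤ → ℤ} (hA : Arr k c) {n : ℕ} {m : ℤ} (h : c n m ≠ 0) :
    0 < NN n m ∧ 4 * NN n m = 5 * (n : ℤ) ^ 2 - m ^ 2 := by
  obtain ⟨h1, a, ha⟩ := hA.supp n m h
  have h2 : 4 * NN n m = 5 * (n : ℤ) ^ 2 - m ^ 2 := by
    have h3 : (n : ℤ) = m + (a + a) := by linarith
    have h4 : 5 * (n : ℤ) ^ 2 - m ^ 2 = 4 * (m ^ 2 + 5 * m * a + 5 * a ^ 2) := by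
      rw [h3]
      ring
    unfold NN
    rw [h4, Int.mul_ediv_cancel_left _ (by norm_num)]
  exact ⟨by omega, h2⟩

theorem K8_quot (p : ℕ) [Fact p.Prime] {c N : ℤ} (hN : 0 < N)
    (h : padicValInt p N ≤ padicValInt p c) : ¬ p ∣ ((c : ℚ) / (N : ℚ)).den := by
  obtain ⟨v, hv⟩ : ∃ v, v = padicValInt p N := ⟨_, rfl⟩
  obtain ⟨M, rfl⟩ : ∃ M : ℕ, N = M := ⟨N.toNat, by omega⟩
  have hM : M ≠ 0 := by omega
  have h1 : p ^ v ∣ M := by
    rw [hv, padicValInt.of_nat]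
    exact pow_padicValNat_dvd
  have h2 : ((p : ℤ) ^ v) ∣ c := by
    rw [padicValInt_dvd_iff]
    right
    rw [hv]
    exact h
  obtain ⟨M', hM'⟩ := h1
  obtain ⟨c', hc'⟩ := h2
  have hp0 : (p : ℚ) ≠ 0 := by exact_mod_cast (Fact.out : p.Prime).ne_zero
  have h3 : ((c : ℚ) / ((M : ℤ) : ℚ)) = (c' : ℚ) / (M' : ℚ) := by
    rw [hM', hc']
    push_cast
    rw [mul_div_mul_left _ _ (pow_ne_zero _ hp0)]
  rw [h3]
  apply pi_div
  intro hd
  have h4 : p ^ (v + 1) ∣ M := by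
    rw [hM', pow_succ]
    exact mul_dvd_mul_left _ hd
  have h5 : v + 1 ≤ padicValNat p M := (padicValNat_dvd_iff_le hM).1 h4
  rw [hv, padicValInt.of_nat] at h5
  omega

theorem K8_term {k : ℕ} {c : ℕ → ℤ → ℤ} (hA : Arr k c) (p : ℕ) [Fact p.Prime]
    (hd : ∀ n m, c n m ≠ 0 → padicValInt p (NN n m) ≤ padicValInt p (c n m)) (n : ℕ) (m : ℤ) :
    ¬ p ∣ ((c n m : ℚ) / (NN n m : ℚ)).den := by
  by_cases h : c n m = 0
  · rw [h]
    have := pi_int (p := p) 0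
    simpa using this
  · exact K8_quot p (K8_pos hA h).1 (hd n m h)

theorem K8_PI {k : ℕ} {c : ℕ → ℤ → ℤ} (hA : Arr k c) (p : ℕ) [Fact p.Prime] (hp : 5 < p)
    (hd : ∀ n m, c n m ≠ 0 → padicValInt p (NN n m) ≤ padicValInt p (c n m)) :
    PI p (hser c) := by
  intro n
  unfold hser
  rw [coeff_mk]
  apply pi_mul
  · apply pi_mul
    · exact pi_nat 5
    · exact pi_nat n
  · apply pi_sum
    intro m _
    exact K8_term hA p hd n m

theorem K8_eq {k : ℕ} {c : ℕ → ℤ → ℤ} (hA : Arr k c) (p : ℕ) [Fact p.Prime] (hp : 5 < p)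
    (h5 : p % 5 = 2 ∨ p % 5 = 3)
    (hd : ∀ n m, c n m ≠ 0 → padicValInt p (NN n m) ≤ padicValInt p (c n m)) :
    redQ p (hser c) = (5 : ZMod p) • th (redZ p (nser p c)) := by
  have hP : p.Prime := Fact.out
  ext n
  have hL : coeff n (redQ p (hser c)) = 5 * (n : ZMod p) *
      ∑ m ∈ ms n, (((c n m : ℚ) / (NN n m : ℚ) : ℚ) : ZMod p) := by
    unfold redQ hser
    rw [coeff_mk, coeff_mk, cast_mul_pi, cast_mul_pi, cast_sum_pi]
    · push_cast
      rfl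
    · intro m _
      exact K8_term hA p hd n m
    · exact pi_nat 5
    · exact pi_nat n
    · exact pi_mul (pi_nat 5) (pi_nat n)
    · exact pi_sum _ _ fun m _ => K8_term hA p hd n m
  have hR : coeff n ((5 : ZMod p) • th (redZ p (nser p c))) =
      5 * ((n : ZMod p) * ∑ m ∈ ms n, (c n m : ZMod p) * (NN n m : ZMod p) ^ (p - 2)) := by
    rw [coeff_smul, smul_eq_mul]
    unfold th nser
    rw [coeff_mk, coeff_map, coeff_mk]
    congr 2
    rw [map_sum]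
    apply Finset.sum_congr rfl
    intro m _
    rw [map_mul, map_pow]
    rfl
  rw [hL, hR, mul_assoc]
  congr 1
  rw [Finset.mul_sum, Finset.mul_sum]
  apply Finset.sum_congr rfl
  intro m _
  by_cases hc : c n m = 0
  · rw [hc]
    simp
  obtain ⟨hpos, hN⟩ := K8_pos hA hc
  by_cases hpN : ((NN n m : ℤ) : ZMod p) = 0
  · have h1 : (5 : ZMod p) * (n : ZMod p) ^ 2 = ((m : ℤ) : ZMod p) ^ 2 := by
      have h2 := congrArg (fun x : ℤ => (x : ZMod p)) hN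
      push_cast at h2
      rw [hpN] at h2
      linear_combination -h2
    rw [(K8_five p h5 _ _ h1 hp).1]
    ring
  · have h1 : (((c n m : ℚ) / (NN n m : ℚ) : ℚ) : ZMod p) * ((NN n m : ℤ) : ZMod p) =
        ((c n m : ℤ) : ZMod p) := by
      have h2 := cast_mul_pi (K8_term hA p hd n m) (pi_int (p := p) (NN n m))
      rw [div_mul_cancel₀ _ (by exact_mod_cast hpos.ne')] at h2
      rw [Rat.cast_intCast, Rat.cast_intCast] at h2
      exact h2.symm
    have h3 : ((NN n m : ℤ) : ZMod p) ^ (p - 1) = 1 := ZMod.pow_card_sub_one_eq_one hpN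
    have h4 : ((NN n m : ℤ) : ZMod p) ^ (p - 1) =
        ((NN n m : ℤ) : ZMod p) * ((NN n m : ℤ) : ZMod p) ^ (p - 2) := by
      rw [← pow_succ']
      congr 1
      omega
    have h5' : (((c n m : ℚ) / (NN n m : ℚ) : ℚ) : ZMod p) =
        ((c n m : ℤ) : ZMod p) * ((NN n m : ℤ) : ZMod p) ^ (p - 2) := by
      rw [← h1, mul_assoc, ← h4, h3, mul_one]
    rw [h5']

theorem K8 {k : ℕ} (hk : 3 ≤ k) {c : ℕ → ℤ → ℤ} (hA : Arr k c) (p : ℕ) [Fact p.Prime] (hp : 5 < p)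
    (h5 : p % 5 = 2 ∨ p % 5 = 3)
    (hd : ∀ n m, c n m ≠ 0 → padicValInt p (NN n m) ≤ padicValInt p (c n m)) :
    redQ p (hser c) ∈ MP p (2 * k - 2 + (p - 1) * (2 * k - 1)) := by
  rw [K8_eq hA p hp h5 hd]
  have h := KQ_th (by omega) (K7 hk hA p hp)
  have e : 2 * k - 4 + (p - 1) * (2 * k - 2) + p + 1 = 2 * k - 2 + (p - 1) * (2 * k - 1) := by
    obtain ⟨q, rfl⟩ : ∃ q, p = q + 1 := ⟨p - 1, by omega⟩
    obtain ⟨j, rfl⟩ : ∃ j, k = j + 2 := ⟨k - 2, by omega⟩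
    have h1 : 2 * (j + 2) - 4 = 2 * j := by omega
    have h2 : 2 * (j + 2) - 2 = 2 * j + 2 := by omega
    have h3 : 2 * (j + 2) - 1 = 2 * j + 3 := by omega
    rw [h1, h2, h3, Nat.add_sub_cancel]
    ring
  rw [e] at h
  exact Submodule.smul_mem _ _ h

end H53M
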