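import Pool.Agent.Lib.H53M.T2S

/-!
# Chunk T2B (M): coordinates of icosians

`m = icoE x`. `fst4 (A8 *ᵥ m)` = coordinates of `H1 x`, `snd4 (A8 *ᵥ m)` = coordinates of `H2 x`
(unfold `toH`, `f1`, `f2`, `row4`, with `φ² = φ + 1`, `φ³ = 2φ + 1`, `f1 om = ph1`, `f2 om = ph2`).
`normSq q = re² + imI² + imJ² + imK²`.
-/

namespace H53M

open Matrix

/-- real version of an integral vector -/
noncomputable abbrev rv {n : ℕ} (m : Fin n → ℤ) : Fin n → ℝ := fun j => (m j : ℝ)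

theorem T2B_A8_fst (v : Fin 8 → ℝ) (i : Fin 4) : fst4 (A8 *ᵥ v) i = (row4 ph1 *ᵥ v) i := by
  unfold fst4 A8
  simp only [mulVec, dotProduct, of_apply, Fin.append_left]

theorem T2B_A8_snd (v : Fin 8 → ℝ) (i : Fin 4) : snd4 (A8 *ᵥ v) i = (row4 ph2 *ᵥ v) i := by
  unfold snd4 A8
  simp only [mulVec, dotProduct, of_apply, Fin.append_right]

theorem T2B_r0 (φ : ℝ) (v : Fin 8 → ℝ) : (row4 φ *ᵥ v) 0 =
    v 0 + φ * v 1 + φ / 2 * v 4 + (φ + 1) / 2 * v 5 + (φ + 1) / 2 * v 6 +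
      (2 * φ + 1) / 2 * v 7 := by
  rw [mulVec, dotProduct, Fin.sum_univ_eight]
  simp [row4]

theorem T2B_r1 (φ : ℝ) (v : Fin 8 → ℝ) : (row4 φ *ᵥ v) 1 =
    v 2 + φ * v 3 + (φ + 1) / 2 * v 4 + (2 * φ + 1) / 2 * v 5 + φ / 2 * v 6 +
      (φ + 1) / 2 * v 7 := by
  rw [mulVec, dotProduct, Fin.sum_univ_eight]
  simp [row4]

theorem T2B_r2 (φ : ℝ) (v : Fin 8 → ℝ) : (row4 φ *ᵥ v) 2 = 1 / 2 * v 4 + φ / 2 * v 5 := by
  rw [mulVec, dotProduct, Fin.sum_univ_eight]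
  simp [row4]

theorem T2B_r3 (φ : ℝ) (v : Fin 8 → ℝ) : (row4 φ *ᵥ v) 3 = 1 / 2 * v 6 + φ / 2 * v 7 := by
  rw [mulVec, dotProduct, Fin.sum_univ_eight]
  simp [row4]

theorem T2B_toH (φ : O5 →+* ℝ) (p : ℝ) (hp : p ^ 2 = p + 1)
    (hφ : ∀ x : O5, φ x = x.re + x.im * p) (x : Ico) :
    (⟨(row4 p *ᵥ rv (icoE x)) 0, (row4 p *ᵥ rv (icoE x)) 1, (row4 p *ᵥ rv (icoE x)) 2,
      (row4 p *ᵥ rv (icoE x)) 3⟩ : Quaternion ℝ) = toH φ x := by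
  have hom : φ om = p := by
    rw [hφ]
    simp [om]
  rw [T2B_r0, T2B_r1, T2B_r2, T2B_r3]
  have e0 : rv (icoE x) 0 = (x.a.re : ℝ) := rfl
  have e1 : rv (icoE x) 1 = (x.a.im : ℝ) := rfl
  have e2 : rv (icoE x) 2 = (x.b.re : ℝ) := rfl
  have e3 : rv (icoE x) 3 = (x.b.im : ℝ) := rfl
  have e4 : rv (icoE x) 4 = (x.c.re : ℝ) := rfl
  have e5 : rv (icoE x) 5 = (x.c.im : ℝ) := rfl
  have e6 : rv (icoE x) 6 = (x.d.re : ℝ) := rfl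
  have e7 : rv (icoE x) 7 = (x.d.im : ℝ) := rfl
  rw [e0, e1, e2, e3, e4, e5, e6, e7]
  have ht : toH φ x = ⟨φ x.a + φ x.c * φ om / 2 + φ x.d * φ om ^ 2 / 2,
    φ x.b + φ x.c * φ om ^ 2 / 2 + φ x.d * φ om / 2, φ x.c / 2, φ x.d / 2⟩ := rfl
  rw [ht, hom, hφ, hφ, hφ, hφ]
  refine QuaternionAlgebra.ext ?_ ?_ ?_ ?_
  · simp only
    linear_combination (-((x.c.im : ℝ) + x.d.re + x.d.im * (p + 1)) / 2) * hp
  · simp only
    linear_combination (-((x.c.re : ℝ) + x.d.im + x.c.im * (p + 1)) / 2) * hp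
  · simp only
    ring
  · simp only
    ring

theorem T2B_ph1 : ph1 ^ 2 = ph1 + 1 := by
  have h : Real.sqrt 5 ^ 2 = 5 := Real.sq_sqrt (by norm_num)
  unfold ph1
  linear_combination (1 / 4) * h

theorem T2B_ph2 : ph2 ^ 2 = ph2 + 1 := by
  have h : Real.sqrt 5 ^ 2 = 5 := Real.sq_sqrt (by norm_num)
  unfold ph2
  linear_combination (1 / 4) * h

theorem T2B_fst (x : Ico) : qv (fst4 (A8 *ᵥ rv (icoE x))) = H1 x := by
  unfold qv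
  rw [T2B_A8_fst, T2B_A8_fst, T2B_A8_fst, T2B_A8_fst]
  exact T2B_toH f1 ph1 T2B_ph1 (fun _ => rfl) x

theorem T2B_snd (x : Ico) : qv (snd4 (A8 *ᵥ rv (icoE x))) = H2 x := by
  unfold qv
  rw [T2B_A8_snd, T2B_A8_snd, T2B_A8_snd, T2B_A8_snd]
  exact T2B_toH f2 ph2 T2B_ph2 (fun _ => rfl) x

theorem T2B_normSq (x : Fin 4 → ℝ) : Quaternion.normSq (qv x) = ∑ j, x j ^ 2 := by
  rw [Quaternion.normSq_def', Fin.sum_univ_four]
  rfl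

/-- the terms of the theta series -/
theorem T2B_term (d : ℕ) (r s : Fin 2 → ℂ) (A : Matrix (Fin 2) (Fin 2) ℂ) (z₁ z₂ : ℂ) (x : Ico) :
    F2 d r s A x * Complex.exp (2 * Real.pi * Complex.I * ((nu1 x : ℂ) * z₁ + (nu2 x : ℂ) * z₂)) =
      Ph d r s A (-(2 * Real.pi * Complex.I * dl1 * z₁)) (-(2 * Real.pi * Complex.I * dl2 * z₂))
        (fst4 (A8 *ᵥ rv (icoE x))) (snd4 (A8 *ᵥ rv (icoE x))) := by
  have h1 : F2 d r s A x =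
      BL r s A (fst4 (A8 *ᵥ rv (icoE x))) (snd4 (A8 *ᵥ rv (icoE x))) ^ d := by
    unfold F2 BL
    rw [T2B_fst, T2B_snd]
  have h2 : (∑ j, ((fst4 (A8 *ᵥ rv (icoE x)) j : ℝ) : ℂ) ^ 2) =
      ((Quaternion.normSq (H1 x) : ℝ) : ℂ) := by
    rw [← T2B_fst, T2B_normSq]
    push_cast
    rfl
  have h3 : (∑ j, ((snd4 (A8 *ᵥ rv (icoE x)) j : ℝ) : ℂ) ^ 2) =
      ((Quaternion.normSq (H2 x) : ℝ) : ℂ) := by
    rw [← T2B_snd, T2B_normSq]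
    push_cast
    rfl
  unfold Ph
  rw [h1, h2, h3, mul_assoc (BL r s A _ _ ^ d) (Complex.exp _) (Complex.exp _),
    ← Complex.exp_add]
  congr 2
  unfold nu1 nu2
  push_cast
  ring

end H53M
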