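import Pool.Agent.Lib.H53M.T2D

/-!
# Chunk T2E (M): the Fourier transform of `Ph` on `ℝ⁸`

`TF` (Fubini; integrability by `TP_integrable`, `T2D_cont`, `T2D_EDec`): first over `x` for fixed `y`:
`Ph(x,y) = exp(-b₂|y|²) gz (zet1 y) d b₁ x` (`T2C_1`), so by `TG4` (`T2C_iso1`) the inner transform at
`w₁ = fst4 w` is `exp(-b₂|y|²) (π/b₁)² ((-iπ) BL(w₁,y)/b₁)^d exp(-π²|w₁|²/b₁)`; as a function of `y` it is
a constant times `gz (zet2 w₁) d b₂ y` (`T2C_2`), apply `TG4` again (`T2C_iso2`).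
-/

namespace H53M

open Matrix MeasureTheory

theorem T2E_FT (d : ℕ) (r s : Fin 2 → ℂ) (A : Matrix (Fin 2) (Fin 2) ℂ) {b₁ b₂ : ℂ}
    (h₁ : 0 < b₁.re) (h₂ : 0 < b₂.re) (w : Fin 8 → ℝ) :
    FT (fun x : Fin 8 → ℝ => Ph d r s A b₁ b₂ (fst4 x) (snd4 x)) w =
      (Real.pi / b₁ : ℂ) ^ 2 * (Real.pi / b₂ : ℂ) ^ 2 *
        ((-(Complex.I * Real.pi) / b₁) * (-(Complex.I * Real.pi) / b₂)) ^ d *
        Ph d r s A (Real.pi ^ 2 / b₁) (Real.pi ^ 2 / b₂) (fst4 w) (snd4 w) := by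
  have hint : Integrable fun x : Fin 8 → ℝ => Ph d r s A b₁ b₂ (fst4 x) (snd4 x) :=
    TP_integrable (T2D_cont d r s A b₁ b₂) (T2D_EDec d r s A h₁ h₂)
  rw [TF (fun x y => Ph d r s A b₁ b₂ x y) hint w]
  obtain ⟨W₁, hW₁⟩ : ∃ W₁ : Fin 4 → ℝ, W₁ = fst4 w := ⟨_, rfl⟩
  obtain ⟨W₂, hW₂⟩ : ∃ W₂ : Fin 4 → ℝ, W₂ = snd4 w := ⟨_, rfl⟩
  rw [← hW₁, ← hW₂]
  have hdiv : ∀ b S : ℂ, -(Real.pi ^ 2 * S) / b = -(Real.pi ^ 2 / b * S) := fun b S => by ring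
  have hin : ∀ y : Fin 4 → ℝ, FT (fun x => Ph d r s A b₁ b₂ x y) W₁ =
      ((Real.pi / b₁ : ℂ) ^ 2 * (-(Complex.I * Real.pi) / b₁) ^ d *
        Complex.exp (-(Real.pi ^ 2 / b₁ * ∑ j, (W₁ j : ℂ) ^ 2))) *
        gz (zet2 r s A W₁) d b₂ y := by
    intro y
    have e1 : FT (fun x => Ph d r s A b₁ b₂ x y) W₁ =
        Complex.exp (-(b₂ * ∑ j, (y j : ℂ) ^ 2)) * FT (gz (zet1 r s A y) d b₁) W₁ := by
      unfold FT
      rw [← integral_const_mul]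
      refine integral_congr_ae (Filter.Eventually.of_forall fun x => ?_)
      simp only
      unfold Ph gz
      rw [T2C_1]
      ring
    have e3 : (-(Complex.I * Real.pi) * ∑ j, zet1 r s A y j * (W₁ j : ℂ)) / b₁ =
        (-(Complex.I * Real.pi) / b₁) * ∑ j, zet2 r s A W₁ j * (y j : ℂ) := by
      rw [← T2C_1, T2C_2]
      ring
    rw [e1, TG4 _ (T2C_iso1 r s A y) d b₁ h₁ W₁, e3, hdiv]
    unfold gz
    ring
  have e2 : FT (fun y => FT (fun x => Ph d r s A b₁ b₂ x y) W₁) W₂ =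
      ((Real.pi / b₁ : ℂ) ^ 2 * (-(Complex.I * Real.pi) / b₁) ^ d *
        Complex.exp (-(Real.pi ^ 2 / b₁ * ∑ j, (W₁ j : ℂ) ^ 2))) *
        FT (gz (zet2 r s A W₁) d b₂) W₂ := by
    have e4 : (fun y => FT (fun x => Ph d r s A b₁ b₂ x y) W₁) = fun y =>
      ((Real.pi / b₁ : ℂ) ^ 2 * (-(Complex.I * Real.pi) / b₁) ^ d *
        Complex.exp (-(Real.pi ^ 2 / b₁ * ∑ j, (W₁ j : ℂ) ^ 2))) *
        gz (zet2 r s A W₁) d b₂ y := funext hin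
    rw [e4]
    unfold FT
    rw [← integral_const_mul]
    refine integral_congr_ae (Filter.Eventually.of_forall fun y => ?_)
    simp only
    ring
  have e5 : (-(Complex.I * Real.pi) * ∑ j, zet2 r s A W₁ j * (W₂ j : ℂ)) / b₂ =
      (-(Complex.I * Real.pi) / b₂) * BL r s A W₁ W₂ := by
    rw [← T2C_2]
    ring
  rw [e2, TG4 _ (T2C_iso2 r s A W₁) d b₂ h₂ W₂, e5, hdiv]
  unfold Ph
  generalize -(Complex.I * (Real.pi : ℂ)) = u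
  ring

end H53M
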