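import Pool.Agent.Lib.H53M.T2A
import Pool.Agent.Lib.H53M.T2B
import Pool.Agent.Lib.H53M.T2E

/-!
# H53M, T2F: assembly of `StT2`
-/

namespace H53M

open Matrix MeasureTheory

theorem T2F_dl1_pos : 0 < dl1 := by
  unfold dl1
  positivity

theorem T2F_dl2_pos : 0 < dl2 := by
  unfold dl2
  have h : (1 : ℝ) < Real.sqrt 5 := by
    rw [Real.lt_sqrt (by norm_num)]
    norm_num
  have h1 : 0 < Real.sqrt 5 - 1 := by linarith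
  positivity

/-- the Gaussian parameter -/
noncomputable def T2F_b (δ : ℝ) (z : ℂ) : ℂ := -(2 * Real.pi * Complex.I * δ * z)

theorem T2F_b_re {δ : ℝ} (hδ : 0 < δ) {z : ℂ} (hz : 0 < z.im) : 0 < (T2F_b δ z).re := by
  unfold T2F_b
  have e : -(2 * Real.pi * Complex.I * δ * z) = ((2 * Real.pi * δ : ℝ) : ℂ) * (-(Complex.I * z)) := by
    push_cast
    ring
  rw [e, Complex.re_ofReal_mul]
  have h1 : (-(Complex.I * z)).re = z.im := by simp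
  rw [h1]
  have := Real.pi_pos
  positivity

theorem T2F_inv_im {z : ℂ} (hz : 0 < z.im) : 0 < (-1 / z).im := by
  have h := UpperHalfPlane.im_inv_neg_coe_pos ⟨z, hz⟩
  have e : (-1 / z) = (-z)⁻¹ := by
    rw [neg_div, one_div, inv_neg]
  rw [e]
  exact h

theorem T2F_ne {z : ℂ} (hz : 0 < z.im) : z ≠ 0 := by
  rintro rfl
  simp at hz

/-- the unimodular equivalence -/
def T2F_e : (Fin 8 → ℤ) ≃ (Fin 8 → ℤ) where
  toFun m := G8i *ᵥ m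
  invFun m := G8 *ᵥ m
  left_inv m := by
    change G8 *ᵥ (G8i *ᵥ m) = m
    rw [Matrix.mulVec_mulVec, T2A_GG.1, Matrix.one_mulVec]
  right_inv m := by
    change G8i *ᵥ (G8 *ᵥ m) = m
    rw [Matrix.mulVec_mulVec, T2A_GG.2, Matrix.one_mulVec]

theorem T2F_cast (m : Fin 8 → ℤ) :
    (G8i.map (Int.cast : ℤ → ℝ)) *ᵥ rv m = rv (T2F_e m) := by
  funext j
  change ∑ i, (G8i.map (Int.cast : ℤ → ℝ)) j i * (m i : ℝ) = ((∑ i, G8i j i * m i : ℤ) : ℝ)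
  push_cast
  rfl

/-- `f ∘ A8` -/
noncomputable def T2F_g (d : ℕ) (r s : Fin 2 → ℂ) (A : Matrix (Fin 2) (Fin 2) ℂ) (b₁ b₂ : ℂ)
    (x : Fin 8 → ℝ) : ℂ := Ph d r s A b₁ b₂ (fst4 (A8 *ᵥ x)) (snd4 (A8 *ᵥ x))

theorem T2F_EDec (d : ℕ) (r s : Fin 2 → ℂ) (A : Matrix (Fin 2) (Fin 2) ℂ) {b₁ b₂ : ℂ}
    (h₁ : 0 < b₁.re) (h₂ : 0 < b₂.re) : EDec (T2F_g d r s A b₁ b₂) :=
  TL_EDec (T2D_EDec d r s A h₁ h₂) A8 T2A_det_ne

theorem T2F_cont (d : ℕ) (r s : Fin 2 → ℂ) (A : Matrix (Fin 2) (Fin 2) ℂ) (b₁ b₂ : ℂ) :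
    Continuous (T2F_g d r s A b₁ b₂) := by
  have h := T2D_cont d r s A b₁ b₂
  have h2 : Continuous fun x : Fin 8 → ℝ => A8 *ᵥ x := by fun_prop
  exact h.comp h2

theorem T2F_summable (d : ℕ) (r s : Fin 2 → ℂ) (A : Matrix (Fin 2) (Fin 2) ℂ) {b₁ b₂ : ℂ}
    (h₁ : 0 < b₁.re) (h₂ : 0 < b₂.re) :
    Summable fun m : Fin 8 → ℤ => T2F_g d r s A b₁ b₂ (rv m) := by
  have h := TP_summable_shift (T2F_EDec d r s A h₁ h₂) 0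
  refine h.congr fun m => ?_
  congr 1
  funext j
  simp

theorem T2F_FT (d : ℕ) (r s : Fin 2 → ℂ) (A : Matrix (Fin 2) (Fin 2) ℂ) {z₁ z₂ : ℂ}
    (h₁ : 0 < z₁.im) (h₂ : 0 < z₂.im) (m : Fin 8 → ℤ) :
    FT (T2F_g d r s A (T2F_b dl1 (-1 / z₁)) (T2F_b dl2 (-1 / z₂))) (rv m) =
      (z₁ * z₂) ^ (d + 2) * T2F_g d r s A (T2F_b dl1 z₁) (T2F_b dl2 z₂) (rv (T2F_e m)) := by
  have hb1 := T2F_b_re T2F_dl1_pos (T2F_inv_im h₁)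
  have hb2 := T2F_b_re T2F_dl2_pos (T2F_inv_im h₂)
  have e1 : FT (T2F_g d r s A (T2F_b dl1 (-1 / z₁)) (T2F_b dl2 (-1 / z₂))) (rv m) =
      ((|A8.det|⁻¹ : ℝ) : ℂ) * FT (fun x : Fin 8 → ℝ =>
        Ph d r s A (T2F_b dl1 (-1 / z₁)) (T2F_b dl2 (-1 / z₂)) (fst4 x) (snd4 x))
        ((A8⁻¹)ᵀ *ᵥ rv m) :=
    TL (fun x : Fin 8 → ℝ =>
        Ph d r s A (T2F_b dl1 (-1 / z₁)) (T2F_b dl2 (-1 / z₂)) (fst4 x) (snd4 x)) A8
        T2A_det_ne (rv m)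
  rw [e1, T2E_FT d r s A hb1 hb2, T2A_inv, T2F_cast, T2A_det]
  have hf : fst4 (Matrix.diagonal D8 *ᵥ (A8 *ᵥ rv (T2F_e m))) =
      fun j => (2 * dl1) * fst4 (A8 *ᵥ rv (T2F_e m)) j := by
    funext j
    change (Matrix.diagonal D8 *ᵥ (A8 *ᵥ rv (T2F_e m))) (Fin.castAdd 4 j) = _
    rw [Matrix.mulVec_diagonal]
    have : D8 (Fin.castAdd 4 j) = 2 * dl1 := Fin.append_left _ _ j
    rw [this]
    rfl
  have hs : snd4 (Matrix.diagonal D8 *ᵥ (A8 *ᵥ rv (T2F_e m))) =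
      fun j => (2 * dl2) * snd4 (A8 *ᵥ rv (T2F_e m)) j := by
    funext j
    change (Matrix.diagonal D8 *ᵥ (A8 *ᵥ rv (T2F_e m))) (Fin.natAdd 4 j) = _
    rw [Matrix.mulVec_diagonal]
    have : D8 (Fin.natAdd 4 j) = 2 * dl2 := Fin.append_right _ _ j
    rw [this]
    rfl
  rw [hf, hs]
  unfold T2F_g Ph
  rw [T2C_smul]
  generalize fst4 (A8 *ᵥ rv (T2F_e m)) = X
  generalize snd4 (A8 *ᵥ rv (T2F_e m)) = Y
  generalize BL r s A X Y = b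
  have hz1 := T2F_ne h₁
  have hz2 := T2F_ne h₂
  have hpi : (Real.pi : ℂ) ≠ 0 := by exact_mod_cast Real.pi_ne_zero
  have hI : Complex.I ≠ 0 := Complex.I_ne_zero
  have hd1 : (dl1 : ℂ) ≠ 0 := by exact_mod_cast T2F_dl1_pos.ne'
  have hd2 : (dl2 : ℂ) ≠ 0 := by exact_mod_cast T2F_dl2_pos.ne'
  have hdd : (dl1 : ℂ) * (dl2 : ℂ) = 1 / 5 := by
    rw [← Complex.ofReal_mul, T2A_delta]
    norm_num
  -- exponents
  have ex : ∀ (δ : ℝ) (z : ℂ) (W : Fin 4 → ℝ), (δ : ℂ) ≠ 0 → z ≠ 0 →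
      Real.pi ^ 2 / T2F_b δ (-1 / z) * ∑ j, (((2 * δ * W j : ℝ)) : ℂ) ^ 2 =
        T2F_b δ z * ∑ j, (W j : ℂ) ^ 2 := by
    intro δ z W hδ hz
    have h1 : ∑ j, (((2 * δ * W j : ℝ)) : ℂ) ^ 2 = 4 * (δ : ℂ) ^ 2 * ∑ j, (W j : ℂ) ^ 2 := by
      rw [Finset.mul_sum]
      refine Finset.sum_congr rfl fun j _ => ?_
      push_cast
      ring
    rw [h1]
    have h2 : (T2F_b δ (-1 / z))⁻¹ = -(Complex.I * z) / (2 * Real.pi * δ) := by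
      unfold T2F_b
      rw [inv_eq_iff_eq_inv, inv_div]
      field_simp
      linear_combination Complex.I_sq
    rw [div_eq_mul_inv, h2]
    unfold T2F_b
    field_simp
    ring
  rw [ex dl1 z₁ X hd1 hz1, ex dl2 z₂ Y hd2 hz2]
  have c1 : (Real.pi / T2F_b dl1 (-1 / z₁) : ℂ) = z₁ / (2 * Complex.I * dl1) := by
    unfold T2F_b
    field_simp
  have c2 : (Real.pi / T2F_b dl2 (-1 / z₂) : ℂ) = z₂ / (2 * Complex.I * dl2) := by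
    unfold T2F_b
    field_simp
  have c3 : (-(Complex.I * Real.pi) / T2F_b dl1 (-1 / z₁) : ℂ) = -(z₁ / (2 * dl1)) := by
    unfold T2F_b
    field_simp
  have c4 : (-(Complex.I * Real.pi) / T2F_b dl2 (-1 / z₂) : ℂ) = -(z₂ / (2 * dl2)) := by
    unfold T2F_b
    field_simp
  rw [c1, c2, c3, c4]
  have k1 : (((|A8.det| : ℝ)⁻¹ : ℝ) : ℂ) = (((|A8.det| : ℝ)⁻¹ : ℝ) : ℂ) := rfl
  have k2 : (z₁ / (2 * Complex.I * dl1)) ^ 2 * (z₂ / (2 * Complex.I * dl2)) ^ 2 =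
      25 / 16 * (z₁ * z₂) ^ 2 := by
    have : (z₁ / (2 * Complex.I * dl1)) ^ 2 * (z₂ / (2 * Complex.I * dl2)) ^ 2 =
        (z₁ * z₂) ^ 2 / (16 * (Complex.I ^ 2) ^ 2 * ((dl1 : ℂ) * dl2) ^ 2) := by
      field_simp
      ring
    rw [this, hdd, Complex.I_sq]
    ring
  have k3 : (-(z₁ / (2 * dl1)) * -(z₂ / (2 * dl2))) ^ d *
      (((2 * dl1 : ℝ) : ℂ) * ((2 * dl2 : ℝ) : ℂ) * b) ^ d = (z₁ * z₂) ^ d * b ^ d := by
    rw [← mul_pow, ← mul_pow]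
    congr 1
    push_cast
    field_simp
  have k4 : ((((25 : ℝ) / 16)⁻¹ : ℝ) : ℂ) = 16 / 25 := by
    push_cast
    norm_num
  rw [k4]
  generalize Complex.exp (-(T2F_b dl1 z₁ * ∑ j, (X j : ℂ) ^ 2)) = E1 at *
  generalize Complex.exp (-(T2F_b dl2 z₂ * ∑ j, (Y j : ℂ) ^ 2)) = E2 at *
  calc 16 / 25 * ((z₁ / (2 * Complex.I * dl1)) ^ 2 * (z₂ / (2 * Complex.I * dl2)) ^ 2 *
        (-(z₁ / (2 * dl1)) * -(z₂ / (2 * dl2))) ^ d *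
        ((((2 * dl1 : ℝ) : ℂ) * ((2 * dl2 : ℝ) : ℂ) * b) ^ d * E1 * E2))
      = 16 / 25 * ((z₁ / (2 * Complex.I * dl1)) ^ 2 * (z₂ / (2 * Complex.I * dl2)) ^ 2) *
        ((-(z₁ / (2 * dl1)) * -(z₂ / (2 * dl2))) ^ d *
        (((2 * dl1 : ℝ) : ℂ) * ((2 * dl2 : ℝ) : ℂ) * b) ^ d) * E1 * E2 := by ring
    _ = _ := by
      rw [k2, k3, pow_add]
      ring

theorem T2F : StT2 := by
  intro d r s A z₁ z₂ h₁ h₂
  have hterm : ∀ w₁ w₂ : ℂ, (fun x : Ico => F2 d r s A x *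
      Complex.exp (2 * Real.pi * Complex.I * ((nu1 x : ℂ) * w₁ + (nu2 x : ℂ) * w₂))) =
      (fun m : Fin 8 → ℤ => T2F_g d r s A (T2F_b dl1 w₁) (T2F_b dl2 w₂) (rv m)) ∘ icoE := by
    intro w₁ w₂
    funext x
    exact T2B_term d r s A w₁ w₂ x
  have hsum : ∀ w₁ w₂ : ℂ, ThI (F2 d r s A) w₁ w₂ =
      ∑' m : Fin 8 → ℤ, T2F_g d r s A (T2F_b dl1 w₁) (T2F_b dl2 w₂) (rv m) := by
    intro w₁ w₂
    unfold ThI
    rw [hterm w₁ w₂]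
    exact icoE.tsum_eq (fun m : Fin 8 → ℤ => T2F_g d r s A (T2F_b dl1 w₁) (T2F_b dl2 w₂) (rv m))
  have hS := T2F_summable d r s A (T2F_b_re T2F_dl1_pos h₁) (T2F_b_re T2F_dl2_pos h₂)
  refine ⟨?_, ?_⟩
  · rw [hterm z₁ z₂]
    exact icoE.summable_iff.mpr hS
  · rw [hsum, hsum]
    have hFT : Summable fun m : Fin 8 → ℤ =>
        FT (T2F_g d r s A (T2F_b dl1 (-1 / z₁)) (T2F_b dl2 (-1 / z₂))) (fun j => (m j : ℝ)) := by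
      have h1 := (T2F_e.summable_iff.mpr hS).mul_left ((z₁ * z₂) ^ (d + 2))
      exact h1.congr fun m => (T2F_FT d r s A h₁ h₂ m).symm
    have hP := TP (T2F_cont d r s A (T2F_b dl1 (-1 / z₁)) (T2F_b dl2 (-1 / z₂)))
      (T2F_EDec d r s A (T2F_b_re T2F_dl1_pos (T2F_inv_im h₁))
        (T2F_b_re T2F_dl2_pos (T2F_inv_im h₂))) hFT 0
    have l1 : ∑' m : Fin 8 → ℤ, T2F_g d r s A (T2F_b dl1 (-1 / z₁)) (T2F_b dl2 (-1 / z₂)) (rv m) =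
        ∑' m : Fin 8 → ℤ, T2F_g d r s A (T2F_b dl1 (-1 / z₁)) (T2F_b dl2 (-1 / z₂))
          (fun j => (0 : Fin 8 → ℝ) j + m j) := by
      refine tsum_congr fun m => ?_
      congr 1
      funext j
      simp
    rw [l1, hP]
    have l2 : ∀ m : Fin 8 → ℤ, FT (T2F_g d r s A (T2F_b dl1 (-1 / z₁)) (T2F_b dl2 (-1 / z₂)))
        (fun j => (m j : ℝ)) * Complex.exp (2 * Real.pi * Complex.I *
          ∑ j, (m j : ℂ) * (((0 : Fin 8 → ℝ) j : ℝ) : ℂ)) =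
        (z₁ * z₂) ^ (d + 2) * T2F_g d r s A (T2F_b dl1 z₁) (T2F_b dl2 z₂) (rv (T2F_e m)) := by
      intro m
      have e0 : Complex.exp (2 * Real.pi * Complex.I *
          ∑ j, (m j : ℂ) * (((0 : Fin 8 → ℝ) j : ℝ) : ℂ)) = 1 := by
        simp
      rw [e0, mul_one]
      exact T2F_FT d r s A h₁ h₂ m
    have h5 : ∑' m : Fin 8 → ℤ, T2F_g d r s A (T2F_b dl1 z₁) (T2F_b dl2 z₂) (rv (T2F_e m)) =
        ∑' m : Fin 8 → ℤ, T2F_g d r s A (T2F_b dl1 z₁) (T2F_b dl2 z₂) (rv m) :=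
      T2F_e.tsum_eq (fun m : Fin 8 → ℤ => T2F_g d r s A (T2F_b dl1 z₁) (T2F_b dl2 z₂) (rv m))
    rw [tsum_congr l2, tsum_mul_left, h5]

end H53M
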