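import Pool.Agent.Lib.H53M.TP0

/-!
# H53M, chunk TG (size L): Fourier transform of Gaussians times powers of isotropic linear forms

`GaussianFourier.integral_cexp_neg_mul_sum_add` (or `..._neg_sum_mul_add`) with the complex vector
`c = t ζ - 2πi w`, `t ∈ ℝ` (or `ℂ`):
`∫ exp(-b Σ x_j² + Σ c_j x_j) dx = (π/b)^(n/2) exp(Σ c_j² / (4b))` and, as `Σ ζ_j² = 0`,
`Σ c_j² / (4b) = -iπ t (ζ·w)/b - π² |w|²/b`.
Both sides are power series in `t`: left side `Σ_d t^d/d! ∫ (ζ·x)^d exp(-b|x|² - 2πi w·x) dx`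
(`hasSum_integral_of_summable_integral_norm`, the norms are dominated because
`Σ_d |t|^d/d! ∫ |ζ·x|^d e^{-Re b |x|²} = ∫ exp(|t| |ζ·x|) e^{-Re b |x|²} < ∞`), right side
`(π/b)^(n/2) exp(-π²|w|²/b) Σ_d t^d/d! (-iπ(ζ·w)/b)^d`.  Compare the coefficients of `t^d`
(`HasFPowerSeriesAt.eq_formalMultilinearSeries`, or differentiate `d` times at `t = 0` with
`hasDerivAt_integral_of_dominated_loc_of_deriv_le` and `iteratedDeriv`).
ALTERNATIVE (induction on `d`, perhaps shorter): let `I(t) = ∫ (ζ·x)^d exp(t ζ·x) exp(-b|x|²-2πi w·x)`;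
the statement `I_d(t) = (π/b)^(n/2) (-iπ(ζ·w)/b)^d exp(-iπ t(ζ·w)/b - π²|w|²/b)` for ALL real `t`
follows by induction on `d`: differentiate under the integral sign in `t`
(`hasDerivAt_integral_of_dominated_loc_of_deriv_le`); then put `t = 0`.
`TG_EDec`: `|ζ·x| ≤ Z |x|₁`, `(Z s)^d ≤ C e^{s}`, `|x|₁² ≤ n |x|²`, so
`|gz| ≤ C exp(|x|₁ - Re b |x|₁²/(n+1)) ≤ C' exp(-|x|₁)` (complete the square).
-/

namespace H53M

open MeasureTheory

/-- `f(x) = (ζ·x)^d exp(-b |x|²)` -/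
noncomputable def gz {n : ℕ} (ζ : Fin n → ℂ) (d : ℕ) (b : ℂ) (x : Fin n → ℝ) : ℂ :=
  (∑ j, ζ j * (x j : ℂ)) ^ d * Complex.exp (-(b * ∑ j, (x j : ℂ) ^ 2))

theorem TG_cont {n : ℕ} (ζ : Fin n → ℂ) (d : ℕ) (b : ℂ) : Continuous (gz ζ d b) := by
  unfold gz
  fun_prop

/-- the size of the linear form -/
theorem TG_lin {n : ℕ} (ζ : Fin n → ℂ) (x : Fin n → ℝ) :
    ‖∑ j, ζ j * (x j : ℂ)‖ ≤ (∑ j, ‖ζ j‖) * ∑ j, |x j| := by
  refine (norm_sum_le _ _).trans ?_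
  rw [Finset.sum_mul]
  refine Finset.sum_le_sum fun j _ => ?_
  rw [norm_mul, Complex.norm_real, Real.norm_eq_abs]
  exact mul_le_mul_of_nonneg_left
    (Finset.single_le_sum (f := fun j => |x j|) (fun j _ => abs_nonneg _) (Finset.mem_univ j))
    (norm_nonneg _)

/-- the size of the Gaussian -/
theorem TG_gauss {n : ℕ} (b : ℂ) (x : Fin n → ℝ) :
    ‖Complex.exp (-(b * ∑ j, (x j : ℂ) ^ 2))‖ = Real.exp (-(b.re * ∑ j, x j ^ 2)) := by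
  rw [Complex.norm_exp]
  congr 1
  have h1 : ∑ j, (x j : ℂ) ^ 2 = ((∑ j, x j ^ 2 : ℝ) : ℂ) := by push_cast; rfl
  rw [h1, Complex.neg_re, Complex.re_mul_ofReal]

/-- powers are bounded by exponentials -/
theorem TG_pow (y : ℝ) (hy : 0 ≤ y) (d : ℕ) : y ^ d ≤ (d.factorial : ℝ) * Real.exp y := by
  have h := Real.pow_div_factorial_le_exp y hy d
  rw [div_le_iff₀ (by positivity)] at h
  linarith

/-- completing the square -/
theorem TG_sq {n : ℕ} (K β : ℝ) (hβ : 0 < β) (x : Fin n → ℝ) :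
    K * ∑ j, |x j| - β * ∑ j, x j ^ 2 ≤ n * (K ^ 2 / (4 * β)) := by
  have h1 : ∀ j : Fin n, K * |x j| - β * x j ^ 2 ≤ K ^ 2 / (4 * β) := by
    intro j
    rw [le_div_iff₀ (by positivity)]
    have h2 : x j ^ 2 = |x j| ^ 2 := (sq_abs _).symm
    rw [h2]
    nlinarith [sq_nonneg (K - 2 * β * |x j|)]
  calc K * ∑ j, |x j| - β * ∑ j, x j ^ 2 = ∑ j : Fin n, (K * |x j| - β * x j ^ 2) := by
        rw [Finset.sum_sub_distrib, Finset.mul_sum, Finset.mul_sum]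
    _ ≤ ∑ _j : Fin n, K ^ 2 / (4 * β) := Finset.sum_le_sum fun j _ => h1 j
    _ = _ := by simp

theorem TG_EDec {n : ℕ} (ζ : Fin n → ℂ) (d : ℕ) (b : ℂ) (hb : 0 < b.re) : EDec (gz ζ d b) := by
  obtain ⟨Z, hZ⟩ : ∃ Z : ℝ, Z = ∑ j, ‖ζ j‖ := ⟨_, rfl⟩
  have hZ0 : 0 ≤ Z := by rw [hZ]; exact Finset.sum_nonneg fun j _ => norm_nonneg _
  refine ⟨(d.factorial : ℝ) * Real.exp (n * ((Z + 1) ^ 2 / (4 * b.re))), 1, one_pos,
    fun x => ?_⟩
  have hs : 0 ≤ ∑ j, |x j| := Finset.sum_nonneg fun j _ => abs_nonneg _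
  unfold gz
  rw [norm_mul, norm_pow, TG_gauss]
  have h1 : ‖∑ j, ζ j * (x j : ℂ)‖ ^ d ≤ (d.factorial : ℝ) * Real.exp (Z * ∑ j, |x j|) := by
    refine (pow_le_pow_left₀ (norm_nonneg _) (TG_lin ζ x) d).trans ?_
    rw [← hZ]
    exact TG_pow _ (mul_nonneg hZ0 hs) d
  refine (mul_le_mul_of_nonneg_right h1 (Real.exp_pos _).le).trans ?_
  rw [mul_assoc, mul_assoc, ← Real.exp_add, ← Real.exp_add]
  refine mul_le_mul_of_nonneg_left (Real.exp_le_exp.2 ?_) (by positivity)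
  have h2 := TG_sq (Z + 1) b.re hb x
  linarith

/-- the integrand with a parameter -/
noncomputable def TG_F {n : ℕ} (ζ : Fin n → ℂ) (d : ℕ) (b : ℂ) (w : Fin n → ℝ) (t : ℝ)
    (x : Fin n → ℝ) : ℂ :=
  (∑ j, ζ j * (x j : ℂ)) ^ d * Complex.exp (-(b * ∑ j, (x j : ℂ) ^ 2)) *
    Complex.exp (-(2 * Real.pi * Complex.I * ∑ j, (w j : ℂ) * (x j : ℂ))) *
    Complex.exp ((t : ℂ) * ∑ j, ζ j * (x j : ℂ))

theorem TG_F_cont {n : ℕ} (ζ : Fin n → ℂ) (d : ℕ) (b : ℂ) (w : Fin n → ℝ) (t : ℝ) :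
    Continuous (TG_F ζ d b w t) := by
  unfold TG_F
  fun_prop

theorem TG_phase {n : ℕ} (w x : Fin n → ℝ) :
    ‖Complex.exp (-(2 * Real.pi * Complex.I * ∑ j, (w j : ℂ) * (x j : ℂ)))‖ = 1 := by
  have h1 : -(2 * Real.pi * Complex.I * ∑ j, (w j : ℂ) * (x j : ℂ)) =
      ((-(2 * Real.pi * ∑ j, w j * x j) : ℝ) : ℂ) * Complex.I := by
    push_cast
    ring
  rw [h1, Complex.norm_exp_ofReal_mul_I]

/-- domination -/
theorem TG_F_bound {n : ℕ} (ζ : Fin n → ℂ) (d : ℕ) (b : ℂ) (hb : 0 < b.re) (w : Fin n → ℝ)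
    (T : ℝ) (hT : 0 ≤ T) : ∃ C : ℝ, ∀ t : ℝ, |t| ≤ T → ∀ x : Fin n → ℝ,
      ‖TG_F ζ d b w t x‖ ≤ C * Real.exp (-(b.re / 2 * ∑ j, x j ^ 2)) := by
  obtain ⟨Z, hZ⟩ : ∃ Z : ℝ, Z = ∑ j, ‖ζ j‖ := ⟨_, rfl⟩
  have hZ0 : 0 ≤ Z := by rw [hZ]; exact Finset.sum_nonneg fun j _ => norm_nonneg _
  obtain ⟨K, hK⟩ : ∃ K : ℝ, K = (T + 1) * Z := ⟨_, rfl⟩
  refine ⟨(d.factorial : ℝ) * Real.exp (n * (K ^ 2 / (4 * (b.re / 2)))), fun t ht x => ?_⟩
  have hs : 0 ≤ ∑ j, |x j| := Finset.sum_nonneg fun j _ => abs_nonneg _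
  unfold TG_F
  rw [norm_mul, norm_mul, norm_mul, norm_pow, TG_gauss, TG_phase, mul_one]
  have h1 : ‖∑ j, ζ j * (x j : ℂ)‖ ^ d ≤ (d.factorial : ℝ) * Real.exp (Z * ∑ j, |x j|) := by
    refine (pow_le_pow_left₀ (norm_nonneg _) (TG_lin ζ x) d).trans ?_
    rw [← hZ]
    exact TG_pow _ (mul_nonneg hZ0 hs) d
  have h2 : ‖Complex.exp ((t : ℂ) * ∑ j, ζ j * (x j : ℂ))‖ ≤
      Real.exp (T * (Z * ∑ j, |x j|)) := by
    rw [Complex.norm_exp]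
    refine Real.exp_le_exp.2 ?_
    refine (Complex.re_le_norm _).trans ?_
    rw [norm_mul, Complex.norm_real, Real.norm_eq_abs]
    have h3 := TG_lin ζ x
    rw [← hZ] at h3
    exact mul_le_mul ht h3 (norm_nonneg _) hT
  have h3 : ‖∑ j, ζ j * (x j : ℂ)‖ ^ d * Real.exp (-(b.re * ∑ j, x j ^ 2)) *
      ‖Complex.exp ((t : ℂ) * ∑ j, ζ j * (x j : ℂ))‖ ≤
      ((d.factorial : ℝ) * Real.exp (Z * ∑ j, |x j|)) * Real.exp (-(b.re * ∑ j, x j ^ 2)) *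
        Real.exp (T * (Z * ∑ j, |x j|)) :=
    mul_le_mul (mul_le_mul_of_nonneg_right h1 (Real.exp_pos _).le) h2 (norm_nonneg _)
      (by positivity)
  refine h3.trans ?_
  rw [mul_assoc, mul_assoc, ← Real.exp_add, ← Real.exp_add, mul_assoc, ← Real.exp_add]
  refine mul_le_mul_of_nonneg_left (Real.exp_le_exp.2 ?_) (by positivity)
  have h4 := TG_sq K (b.re / 2) (by linarith) x
  have h5 : Z * ∑ j, |x j| + T * (Z * ∑ j, |x j|) = K * ∑ j, |x j| := by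
    rw [hK]
    ring
  linarith

theorem TG_int {n : ℕ} {β : ℝ} (hβ : 0 < β) :
    Integrable fun x : Fin n → ℝ => Real.exp (-(β * ∑ j, x j ^ 2)) := by
  have h := (GaussianFourier.integrable_cexp_neg_mul_sum_add (ι := Fin n) (b := (β : ℂ))
    (by simpa using hβ) (fun _ => 0)).norm
  refine h.congr (Filter.Eventually.of_forall fun x => ?_)
  simp only
  rw [Complex.norm_exp]
  congr 1
  have h1 : -(β : ℂ) * ∑ i, (x i : ℂ) ^ 2 + ∑ i, (0 : ℂ) * (x i : ℂ) =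
      ((-(β * ∑ i, x i ^ 2) : ℝ) : ℂ) := by
    simp only [zero_mul, Finset.sum_const_zero, add_zero]
    push_cast
    ring
  rw [h1, Complex.ofReal_re]

theorem TG_F_int {n : ℕ} (ζ : Fin n → ℂ) (d : ℕ) (b : ℂ) (hb : 0 < b.re) (w : Fin n → ℝ)
    (t : ℝ) : Integrable (TG_F ζ d b w t) := by
  obtain ⟨C, hC⟩ := TG_F_bound ζ d b hb w |t| (abs_nonneg t)
  exact Integrable.mono' ((TG_int (by linarith : 0 < b.re / 2)).const_mul C)
    (TG_F_cont ζ d b w t).aestronglyMeasurable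
    (Filter.Eventually.of_forall fun x => hC t le_rfl x)

theorem TG_F_der {n : ℕ} (ζ : Fin n → ℂ) (d : ℕ) (b : ℂ) (hb : 0 < b.re) (w : Fin n → ℝ)
    (t₀ : ℝ) : HasDerivAt (fun t => ∫ x, TG_F ζ d b w t x) (∫ x, TG_F ζ (d + 1) b w t₀ x) t₀ := by
  obtain ⟨C, hC⟩ := TG_F_bound ζ (d + 1) b hb w (|t₀| + 1) (by positivity)
  refine (hasDerivAt_integral_of_dominated_loc_of_deriv_le (s := Metric.ball t₀ 1)
    (bound := fun x => C * Real.exp (-(b.re / 2 * ∑ j, x j ^ 2)))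
    (F' := TG_F ζ (d + 1) b w) (Metric.ball_mem_nhds t₀ one_pos) ?_
    (TG_F_int ζ d b hb w t₀) (TG_F_cont ζ (d + 1) b w t₀).aestronglyMeasurable ?_
    ((TG_int (by linarith : 0 < b.re / 2)).const_mul C) ?_).2
  · exact Filter.Eventually.of_forall fun t => (TG_F_cont ζ d b w t).aestronglyMeasurable
  · refine Filter.Eventually.of_forall fun x t ht => hC t ?_ x
    rw [Metric.mem_ball, Real.dist_eq] at ht
    have h1 := abs_sub_abs_le_abs_sub t t₀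
    linarith
  · refine Filter.Eventually.of_forall fun x t _ => ?_
    have h1 : HasDerivAt (fun t : ℝ => (t : ℂ) * ∑ j, ζ j * (x j : ℂ))
        (∑ j, ζ j * (x j : ℂ)) t := by
      have h2 := (Complex.ofRealCLM.hasDerivAt (x := t)).mul_const (∑ j, ζ j * (x j : ℂ))
      simpa using h2
    have h2 := (h1.cexp).const_mul ((∑ j, ζ j * (x j : ℂ)) ^ d *
      Complex.exp (-(b * ∑ j, (x j : ℂ) ^ 2)) *
      Complex.exp (-(2 * Real.pi * Complex.I * ∑ j, (w j : ℂ) * (x j : ℂ))))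
    refine h2.congr_deriv ?_
    unfold TG_F
    ring

theorem TG_zero {n : ℕ} (ζ : Fin n → ℂ) (hζ : ∑ j, ζ j ^ 2 = 0) (b : ℂ) (hb : 0 < b.re)
    (w : Fin n → ℝ) (t : ℝ) :
    ∫ x, TG_F ζ 0 b w t x = (Real.pi / b : ℂ) ^ ((n : ℂ) / 2) *
      Complex.exp (-(Complex.I * Real.pi) * (∑ j, ζ j * (w j : ℂ)) / b * t +
        -(Real.pi ^ 2 * ∑ j, (w j : ℂ) ^ 2) / b) := by
  have hb0 : b ≠ 0 := by rintro rfl; simp at hb
  have h1 := GaussianFourier.integral_cexp_neg_mul_sum_add (ι := Fin n) hb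
    (fun j => (t : ℂ) * ζ j - 2 * Real.pi * Complex.I * (w j : ℂ))
  rw [Fintype.card_fin] at h1
  have h2 : ∀ x : Fin n → ℝ, TG_F ζ 0 b w t x = Complex.exp (-b * ∑ i, (x i : ℂ) ^ 2 +
      ∑ i, ((t : ℂ) * ζ i - 2 * Real.pi * Complex.I * (w i : ℂ)) * (x i : ℂ)) := by
    intro x
    unfold TG_F
    rw [pow_zero, one_mul, ← Complex.exp_add, ← Complex.exp_add]
    congr 1
    simp only [sub_mul, Finset.sum_sub_distrib, Finset.mul_sum]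
    have e1 : ∑ i, (t : ℂ) * ζ i * (x i : ℂ) = ∑ i, (t : ℂ) * (ζ i * (x i : ℂ)) :=
      Finset.sum_congr rfl fun i _ => by ring
    have e2 : ∑ i, 2 * Real.pi * Complex.I * (w i : ℂ) * (x i : ℂ) =
        ∑ i, 2 * Real.pi * Complex.I * ((w i : ℂ) * (x i : ℂ)) :=
      Finset.sum_congr rfl fun i _ => by ring
    have e3 : ∑ i, -b * (x i : ℂ) ^ 2 = -∑ i, b * (x i : ℂ) ^ 2 := by
      rw [← Finset.sum_neg_distrib]
      exact Finset.sum_congr rfl fun i _ => by ring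
    rw [e1, e2, e3]
    ring
  rw [integral_congr_ae (Filter.Eventually.of_forall h2), h1]
  congr 2
  have h3 : ∑ i, ((t : ℂ) * ζ i - 2 * Real.pi * Complex.I * (w i : ℂ)) ^ 2 =
      (t : ℂ) ^ 2 * ∑ i, ζ i ^ 2 - 4 * Real.pi * Complex.I * t * (∑ i, ζ i * (w i : ℂ)) -
        4 * Real.pi ^ 2 * ∑ i, (w i : ℂ) ^ 2 := by
    simp only [Finset.mul_sum]
    rw [← Finset.sum_sub_distrib, ← Finset.sum_sub_distrib]
    refine Finset.sum_congr rfl fun i _ => ?_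
    linear_combination (4 * (Real.pi : ℂ) ^ 2 * (w i : ℂ) ^ 2) * Complex.I_sq
  rw [h3, hζ]
  field_simp
  ring

theorem TG_all {n : ℕ} (ζ : Fin n → ℂ) (hζ : ∑ j, ζ j ^ 2 = 0) (b : ℂ) (hb : 0 < b.re)
    (w : Fin n → ℝ) (d : ℕ) : ∀ t : ℝ,
    ∫ x, TG_F ζ d b w t x = (Real.pi / b : ℂ) ^ ((n : ℂ) / 2) *
      ((-(Complex.I * Real.pi) * ∑ j, ζ j * (w j : ℂ)) / b) ^ d *
      Complex.exp (-(Complex.I * Real.pi) * (∑ j, ζ j * (w j : ℂ)) / b * t +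
        -(Real.pi ^ 2 * ∑ j, (w j : ℂ) ^ 2) / b) := by
  induction d with
  | zero =>
    intro t
    rw [TG_zero ζ hζ b hb w t, pow_zero, mul_one]
  | succ d ih =>
    intro t
    have h1 := TG_F_der ζ d b hb w t
    have h2 : (fun t : ℝ => ∫ x, TG_F ζ d b w t x) = fun t : ℝ =>
        (Real.pi / b : ℂ) ^ ((n : ℂ) / 2) *
        ((-(Complex.I * Real.pi) * ∑ j, ζ j * (w j : ℂ)) / b) ^ d *
        Complex.exp (-(Complex.I * Real.pi) * (∑ j, ζ j * (w j : ℂ)) / b * t +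
          -(Real.pi ^ 2 * ∑ j, (w j : ℂ) ^ 2) / b) := funext ih
    rw [h2] at h1
    have h3 : HasDerivAt (fun t : ℝ =>
        -(Complex.I * Real.pi) * (∑ j, ζ j * (w j : ℂ)) / b * (t : ℂ) +
          -(Real.pi ^ 2 * ∑ j, (w j : ℂ) ^ 2) / b)
        (-(Complex.I * Real.pi) * (∑ j, ζ j * (w j : ℂ)) / b) t := by
      have h4 := ((Complex.ofRealCLM.hasDerivAt (x := t)).const_mul
        (-(Complex.I * Real.pi) * (∑ j, ζ j * (w j : ℂ)) / b)).add_const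
          (-(Real.pi ^ 2 * ∑ j, (w j : ℂ) ^ 2) / b)
      simpa using h4
    have h4 := (h3.cexp).const_mul ((Real.pi / b : ℂ) ^ ((n : ℂ) / 2) *
      ((-(Complex.I * Real.pi) * ∑ j, ζ j * (w j : ℂ)) / b) ^ d)
    rw [h1.unique h4]
    ring

/-- The Fourier transform of `(ζ·x)^d exp(-b |x|²)`, `ζ` isotropic. -/
theorem TG {n : ℕ} (ζ : Fin n → ℂ) (hζ : ∑ j, ζ j ^ 2 = 0) (d : ℕ) (b : ℂ) (hb : 0 < b.re)
    (w : Fin n → ℝ) :
    FT (gz ζ d b) w = (Real.pi / b : ℂ) ^ ((n : ℂ) / 2) *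
      ((-(Complex.I * Real.pi) * ∑ j, ζ j * (w j : ℂ)) / b) ^ d *
      Complex.exp (-(Real.pi ^ 2 * ∑ j, (w j : ℂ) ^ 2) / b) := by
  have h1 := TG_all ζ hζ b hb w d 0
  rw [Complex.ofReal_zero, mul_zero, zero_add] at h1
  rw [← h1]
  unfold FT
  refine integral_congr_ae (Filter.Eventually.of_forall fun x => ?_)
  simp only [gz, TG_F, Complex.ofReal_zero, zero_mul, Complex.exp_zero, mul_one]

/-- the case `n = 4`: no fractional power -/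
theorem TG4 (ζ : Fin 4 → ℂ) (hζ : ∑ j, ζ j ^ 2 = 0) (d : ℕ) (b : ℂ) (hb : 0 < b.re)
    (w : Fin 4 → ℝ) :
    FT (gz ζ d b) w = (Real.pi / b : ℂ) ^ 2 *
      ((-(Complex.I * Real.pi) * ∑ j, ζ j * (w j : ℂ)) / b) ^ d *
      Complex.exp (-(Real.pi ^ 2 * ∑ j, (w j : ℂ) ^ 2) / b) := by
  rw [TG ζ hζ d b hb w]
  have h1 : (((4 : ℕ) : ℂ) / 2) = ((2 : ℕ) : ℂ) := by
    push_cast
    norm_num
  rw [h1, Complex.cpow_natCast]

end H53M
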