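import Pool.Agent.Lib.H53M.T3H
import Pool.Agent.Lib.H53M.TP
import Pool.Agent.Lib.H53M.TG

/-!
# H53M, module T3: the theta series of `L` with the character `ψ` (proof of `StT3`)
-/

namespace H53M

open Complex Matrix MeasureTheory

/-- the exponent `-2πiz/5` -/
noncomputable def T3_b (z : ℂ) : ℂ := -(2 * (Real.pi : ℂ) * I * z / 5)

theorem T3_b_re (z : ℂ) (hz : 0 < z.im) : 0 < (T3_b z).re := by
  have h1 : (T3_b z).re = 2 * Real.pi * z.im / 5 := by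
    have : T3_b z = ((-(2 * Real.pi / 5) : ℝ) : ℂ) * (I * z) := by
      unfold T3_b
      push_cast
      ring
    rw [this, Complex.re_ofReal_mul]
    simp
    ring
  rw [h1]
  positivity

theorem T3_b_ne (z : ℂ) (hz : 0 < z.im) : T3_b z ≠ 0 := by
  intro h
  have := T3_b_re z hz
  rw [h] at this
  simp at this

theorem T3_inv_im (z : ℂ) (hz : 0 < z.im) : 0 < (-1 / z).im := by
  have h : (-1 / z).im = z.im / normSq z := by
    rw [neg_div, one_div, Complex.neg_im, Complex.inv_im]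
    ring
  rw [h]
  have : z ≠ 0 := by
    intro h0
    rw [h0] at hz
    simp at hz
  exact div_pos hz (normSq_pos.2 this)

/-- `M u` -/
noncomputable def T3_x (u : Fin 4 → ℤ) : Fin 4 → ℝ := T3_M *ᵥ (fun j => (u j : ℝ))

theorem T3_term (d : ℕ) (ζ : Fin 4 → ℂ) (z : ℂ) (u : Fin 4 → ℤ) :
    lin4 ζ (H1 (lq u)) ^ d * Complex.exp (2 * Real.pi * Complex.I * z * (qL u : ℂ) / 5) =
      gz ζ d (T3_b z) (T3_x u) := by
  unfold gz
  rw [T3_lin]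
  have h1 : (qL u : ℂ) = ∑ j, (T3_x u j : ℂ) ^ 2 := by
    have := congrArg (fun r : ℝ => (r : ℂ)) (T3_norm u)
    push_cast at this
    exact this
  rw [h1]
  congr 2
  unfold T3_b
  ring

theorem T3_psi_le (u : Fin 4 → ℤ) : |psi (lq u)| ≤ 1 := by
  rw [T3_psi]
  have : ∀ A D h : ZMod 5, |T3_pz A D h| ≤ 1 := by decide
  exact this _ _ _

theorem T3_M0 : T3_M.det ≠ 0 := by
  intro h
  apply T3_Adet0
  rw [T3_A, Matrix.det_smul, h, mul_zero]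

theorem T3_sum1 (d : ℕ) (ζ : Fin 4 → ℂ) (b : ℂ) (hb : 0 < b.re) :
    Summable fun u : Fin 4 → ℤ => gz ζ d b (T3_x u) := by
  have h := TP_summable_shift (TL_EDec (TG_EDec ζ d b hb) T3_M T3_M0) 0
  refine h.congr fun u => ?_
  unfold T3_x
  congr 2
  funext j
  simp

theorem T3_sum2 (d : ℕ) (ζ : Fin 4 → ℂ) (b : ℂ) (hb : 0 < b.re) :
    Summable fun u : Fin 4 → ℤ => (psi (lq u) : ℂ) * gz ζ d b (T3_x u) := by
  refine Summable.of_norm_bounded (T3_sum1 d ζ b hb).norm fun u => ?_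
  rw [norm_mul]
  have h1 : ‖(psi (lq u) : ℂ)‖ ≤ 1 := by
    rw [Complex.norm_intCast]
    exact_mod_cast T3_psi_le u
  nlinarith [norm_nonneg (gz ζ d b (T3_x u))]

/-- `F(x) = gz (A x)` -/
noncomputable def T3_F (d : ℕ) (ζ : Fin 4 → ℂ) (b : ℂ) (x : Fin 4 → ℝ) : ℂ :=
  gz ζ d b (T3_A *ᵥ x)

theorem T3_F_E2 (d : ℕ) (ζ : Fin 4 → ℂ) (b : ℂ) (c : Fin 4 → ZMod 5) (m : Fin 4 → ℤ) :
    gz ζ d b (T3_x (T3_E2 (c, m))) = T3_F d ζ b (fun j => ((c j).val / 5 : ℝ) + m j) := by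
  unfold T3_F T3_x T3_A
  congr 1
  rw [Matrix.smul_mulVec, ← Matrix.mulVec_smul]
  congr 1
  funext j
  have : T3_E2 (c, m) j = 5 * m j + ((c j).val : ℤ) := rfl
  rw [this]
  simp only [Pi.smul_apply, smul_eq_mul]
  push_cast
  ring

theorem T3_FT (d : ℕ) (ζ : Fin 4 → ℂ) (hζ : ∑ j, ζ j ^ 2 = 0) (b : ℂ) (hb : 0 < b.re)
    (w : Fin 4 → ℝ) :
    FT (T3_F d ζ b) w = ((|T3_A.det|⁻¹ : ℝ) : ℂ) * ((Real.pi / b : ℂ) ^ 2 *
      ((-(Complex.I * Real.pi) * ∑ j, ζ j * (((T3_A⁻¹)ᵀ *ᵥ w) j : ℂ)) / b) ^ d *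
      Complex.exp (-(Real.pi ^ 2 * ∑ j, (((T3_A⁻¹)ᵀ *ᵥ w) j : ℂ) ^ 2) / b)) := by
  unfold T3_F
  rw [TL _ T3_A T3_Adet0, TG4 ζ hζ d b hb]

theorem T3_FT_sum (d : ℕ) (ζ : Fin 4 → ℂ) (hζ : ∑ j, ζ j ^ 2 = 0) (b : ℂ) (hb : 0 < b.re) :
    Summable fun m : Fin 4 → ℤ => FT (T3_F d ζ b) (fun j => (m j : ℝ)) := by
  have hb0 : b ≠ 0 := by
    intro h
    rw [h] at hb
    simp at hb
  have hb2 : 0 < ((Real.pi : ℂ) ^ 2 / b).re := by
    have h1 : ((Real.pi : ℂ) ^ 2 / b) = ((Real.pi ^ 2 : ℝ) : ℂ) * b⁻¹ := by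
      push_cast
      rw [div_eq_mul_inv]
    rw [h1, Complex.re_ofReal_mul, Complex.inv_re]
    have := normSq_pos.2 hb0
    positivity
  have hdet : ((T3_A⁻¹)ᵀ).det ≠ 0 := by
    rw [Matrix.det_transpose, Matrix.det_nonsing_inv]
    exact (isUnit_iff_ne_zero.2 T3_Adet0).ringInverse.ne_zero
  have h := (TP_summable_shift (TL_EDec (TG_EDec ζ d _ hb2) ((T3_A⁻¹)ᵀ) hdet) 0).mul_left
    (((|T3_A.det|⁻¹ : ℝ) : ℂ) * (Real.pi / b : ℂ) ^ 2 * (-(Complex.I * Real.pi) / b) ^ d)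
  refine h.congr fun m => ?_
  rw [T3_FT d ζ hζ b hb]
  have e1 : (fun j => (0 : Fin 4 → ℝ) j + (m j : ℝ)) = fun j => (m j : ℝ) := by
    funext j; simp
  rw [e1]
  unfold gz
  have e2 : -((Real.pi : ℂ) ^ 2 / b * ∑ j, (((T3_A⁻¹)ᵀ *ᵥ fun j => (m j : ℝ)) j : ℂ) ^ 2) =
      -((Real.pi : ℂ) ^ 2 * ∑ j, (((T3_A⁻¹)ᵀ *ᵥ fun j => (m j : ℝ)) j : ℂ) ^ 2) / b := by
    ring
  rw [e2, div_pow, div_pow, div_pow, mul_pow]
  ring

theorem T3_exp (m : Fin 4 → ℤ) (c : Fin 4 → ZMod 5) :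
    Complex.exp (2 * Real.pi * Complex.I * ∑ j, (m j : ℂ) * (((c j).val / 5 : ℝ) : ℂ)) =
      ZMod.stdAddChar (N := 5) (∑ j, (m j : ZMod 5) * c j) := by
  have h1 : (∑ j, (m j : ZMod 5) * c j) = ((∑ j, m j * ((c j).val : ℤ) : ℤ) : ZMod 5) := by
    push_cast
    refine Finset.sum_congr rfl fun j _ => ?_
    rw [ZMod.natCast_zmod_val]
  rw [h1, ZMod.stdAddChar_coe]
  congr 1
  push_cast
  rw [Finset.mul_sum, Finset.mul_sum, Finset.sum_div]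
  refine Finset.sum_congr rfl fun j _ => ?_
  ring

theorem T3_main (d : ℕ) (ζ : Fin 4 → ℂ) (hζ : ∑ j, ζ j ^ 2 = 0) (b : ℂ) (hb : 0 < b.re) :
    ∑' u : Fin 4 → ℤ, (psi (lq u) : ℂ) * gz ζ d b (T3_x u) =
      ∑' u : Fin 4 → ℤ, FT (T3_F d ζ b) (fun j => (T3_Q u j : ℝ)) * T3_hat (T3_Q u) := by
  have hS := T3_sum2 d ζ b hb
  have hFT := T3_FT_sum d ζ hζ b hb
  have hF : Continuous (T3_F d ζ b) :=
    (TG_cont ζ d b).comp (by
      refine continuous_pi fun i => ?_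
      simp only [Matrix.mulVec, dotProduct]
      fun_prop)
  have hE : EDec (T3_F d ζ b) := TL_EDec (TG_EDec ζ d b hb) T3_A T3_Adet0
  -- decomposition
  have h1 : ∑' u : Fin 4 → ℤ, (psi (lq u) : ℂ) * gz ζ d b (T3_x u) =
      ∑ c : Fin 4 → ZMod 5, ∑' m : Fin 4 → ℤ,
        (T3_pz (c 0) (c 1) (4 * c 2 + 2 * c 3) : ℂ) *
          T3_F d ζ b (fun j => ((c j).val / 5 : ℝ) + m j) := by
    have hp : Summable fun p : (Fin 4 → ZMod 5) × (Fin 4 → ℤ) =>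
        (psi (lq (T3_E2 p)) : ℂ) * gz ζ d b (T3_x (T3_E2 p)) := (T3_E2.summable_iff).2 hS
    rw [← T3_E2.tsum_eq, hp.tsum_prod, tsum_fintype]
    refine Finset.sum_congr rfl fun c _ => tsum_congr fun m => ?_
    rw [T3_psi_E2, T3_F_E2]
  have hsumc : ∀ c : Fin 4 → ZMod 5, Summable fun m : Fin 4 → ℤ =>
      (T3_pz (c 0) (c 1) (4 * c 2 + 2 * c 3) : ℂ) *
        (FT (T3_F d ζ b) (fun j => (m j : ℝ)) *
          ZMod.stdAddChar (N := 5) (∑ j, (m j : ZMod 5) * c j)) := by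
    intro c
    refine Summable.mul_left _ (Summable.of_norm_bounded hFT.norm fun m => ?_)
    rw [norm_mul, AddChar.norm_apply, mul_one]
  have h2 : ∀ c : Fin 4 → ZMod 5, ∑' m : Fin 4 → ℤ,
        (T3_pz (c 0) (c 1) (4 * c 2 + 2 * c 3) : ℂ) *
          T3_F d ζ b (fun j => ((c j).val / 5 : ℝ) + m j) =
      ∑' m : Fin 4 → ℤ, (T3_pz (c 0) (c 1) (4 * c 2 + 2 * c 3) : ℂ) *
        (FT (T3_F d ζ b) (fun j => (m j : ℝ)) *
          ZMod.stdAddChar (N := 5) (∑ j, (m j : ZMod 5) * c j)) := by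
    intro c
    rw [tsum_mul_left, tsum_mul_left, TP hF hE hFT (fun j => ((c j).val / 5 : ℝ))]
    congr 1
    refine tsum_congr fun m => ?_
    rw [T3_exp]
  rw [h1, Finset.sum_congr rfl fun c _ => h2 c, ← Summable.tsum_finsetSum fun c _ => hsumc c]
  have h3 : ∀ m : Fin 4 → ℤ, ∑ c : Fin 4 → ZMod 5,
      (T3_pz (c 0) (c 1) (4 * c 2 + 2 * c 3) : ℂ) *
        (FT (T3_F d ζ b) (fun j => (m j : ℝ)) *
          ZMod.stdAddChar (N := 5) (∑ j, (m j : ZMod 5) * c j)) =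
      FT (T3_F d ζ b) (fun j => (m j : ℝ)) * T3_hat m := by
    intro m
    rw [T3_hat, Finset.mul_sum]
    refine Finset.sum_congr rfl fun c _ => ?_
    ring
  rw [tsum_congr h3]
  refine (T3_Q_inj.tsum_eq (f := fun m => FT (T3_F d ζ b) (fun j => (m j : ℝ)) * T3_hat m)
    fun m hm => ?_).symm
  by_contra hr
  apply hm
  have : ¬ (5 : ℤ) ∣ m 2 + 3 * m 3 := fun h => hr (T3_Q_range m h)
  simp only
  rw [T3_hat_zero m this, mul_zero]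

theorem T3_value (d : ℕ) (ζ : Fin 4 → ℂ) (hζ : ∑ j, ζ j ^ 2 = 0) (z : ℂ) (hz : 0 < z.im)
    (u : Fin 4 → ℤ) :
    z ^ (d + 2) * (FT (T3_F d ζ (T3_b z)) (fun j => (T3_Q u j : ℝ)) * T3_hat (T3_Q u)) =
      (psi (lq u) : ℂ) * gz ζ d (T3_b (-1 / z)) (T3_x u) := by
  have hz0 : z ≠ 0 := by
    intro h0
    rw [h0] at hz
    simp at hz
  have hpi : (Real.pi : ℂ) ≠ 0 := by exact_mod_cast Real.pi_ne_zero
  have hs : ((√5 : ℝ) : ℂ) ≠ 0 := by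
    have : (√5 : ℝ) ≠ 0 := by positivity
    exact_mod_cast this
  rw [T3_FT d ζ hζ _ (T3_b_re z hz), T3_hat_main, T3_Ainv]
  have e1 : ∑ j, ζ j * ((((2 / 5 : ℝ) • (T3_M *ᵥ (fun j => (u j : ℝ)))) j : ℝ) : ℂ) =
      2 / 5 * ∑ j, ζ j * (T3_x u j : ℂ) := by
    rw [Finset.mul_sum]
    refine Finset.sum_congr rfl fun j _ => ?_
    simp only [Pi.smul_apply, smul_eq_mul]
    unfold T3_x
    push_cast
    ring
  have e2 : ∑ j, ((((2 / 5 : ℝ) • (T3_M *ᵥ (fun j => (u j : ℝ)))) j : ℝ) : ℂ) ^ 2 =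
      4 / 25 * ∑ j, (T3_x u j : ℂ) ^ 2 := by
    rw [Finset.mul_sum]
    refine Finset.sum_congr rfl fun j _ => ?_
    simp only [Pi.smul_apply, smul_eq_mul]
    unfold T3_x
    push_cast
    ring
  rw [e1, e2]
  obtain ⟨L, hL⟩ : ∃ L : ℂ, L = ∑ j, ζ j * (T3_x u j : ℂ) := ⟨_, rfl⟩
  obtain ⟨s, hs'⟩ : ∃ s : ℂ, s = ∑ j, (T3_x u j : ℂ) ^ 2 := ⟨_, rfl⟩
  unfold gz
  rw [← hL, ← hs']
  have hb1 : (Real.pi : ℂ) / T3_b z = 5 * I / (2 * z) := by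
    unfold T3_b
    have hI : I ≠ 0 := I_ne_zero
    field_simp
    ring_nf
    rw [I_sq]
  have e3 : (-(I * (Real.pi : ℂ)) * (2 / 5 * L)) / T3_b z = L / z := by
    have : (-(I * (Real.pi : ℂ)) * (2 / 5 * L)) / T3_b z =
        -(I * (2 / 5 * L)) * ((Real.pi : ℂ) / T3_b z) := by ring
    rw [this, hb1]
    field_simp
    ring_nf
    rw [I_sq]
    ring
  have e4 : -((Real.pi : ℂ) ^ 2 * (4 / 25 * s)) / T3_b z = -(T3_b (-1 / z) * s) := by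
    have : -((Real.pi : ℂ) ^ 2 * (4 / 25 * s)) / T3_b z =
        -(Real.pi * (4 / 25 * s)) * ((Real.pi : ℂ) / T3_b z) := by ring
    rw [this, hb1]
    unfold T3_b
    field_simp
    ring
  have e5 : ((|T3_A.det|⁻¹ : ℝ) : ℂ) = 4 / (625 * ((√5 : ℝ) : ℂ)) := by
    rw [T3_Adet, abs_of_nonneg (by positivity)]
    push_cast
    field_simp
  rw [e3, e4, e5, hb1]
  have e6 : (5 * I / (2 * z)) ^ 2 = -25 / (4 * z ^ 2) := by
    rw [div_pow, mul_pow, I_sq]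
    ring
  rw [e6, div_pow, pow_add]
  field_simp
  ring

theorem T3 : StT3 := by
  intro d ζ z _ hζ hz
  have hζ' : ∑ j, ζ j ^ 2 = 0 := by
    rw [Fin.sum_univ_four]
    exact hζ
  have ht : ∀ z : ℂ, (fun u : Fin 4 → ℤ => (psi (lq u) : ℂ) * lin4 ζ (H1 (lq u)) ^ d *
      Complex.exp (2 * Real.pi * Complex.I * z * (qL u : ℂ) / 5)) =
      fun u => (psi (lq u) : ℂ) * gz ζ d (T3_b z) (T3_x u) := by
    intro z
    funext u
    rw [mul_assoc, T3_term]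
  refine ⟨?_, ?_⟩
  · rw [ht z]
    exact T3_sum2 d ζ _ (T3_b_re z hz)
  · unfold ThL
    rw [ht z, ht (-1 / z), T3_main d ζ hζ' _ (T3_b_re z hz), ← tsum_mul_left]
    exact tsum_congr fun u => (T3_value d ζ hζ' z hz u).symm

end H53M
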