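import Pool.Agent.Lib.H53M.Seq

/-!
Helper file for MP_251428_co: three consecutive levels of the Pell chain coefficients.
-/

namespace Pool.Agent.Lib.H53M

open Finset

/-- the inner coefficients. -/
def KK (k l nn p : ℕ) : ℚ :=
  if p ≤ nn then ((nn - p).choose l : ℚ) * ((k + p).choose k : ℚ) else 0

lemma KK_nonneg (k l nn p : ℕ) : 0 ≤ KK k l nn p := by
  unfold KK; split_ifs <;> positivity

lemma choose_cmp (a b l : ℕ) (h : a ≤ b) :
    ((b + 1).choose l : ℚ) * (a.choose l : ℚ) ≤ (b.choose l : ℚ) * ((a + 1).choose l : ℚ) := by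
  rcases Nat.lt_or_ge a l with hl | hl
  · rw [Nat.choose_eq_zero_of_lt hl]; simp only [Nat.cast_zero, mul_zero]; positivity
  · have e1 := q1 b l
    have e2 := q1 a l
    have hab : (a : ℚ) ≤ b := by exact_mod_cast h
    have hl' : (l : ℚ) ≤ a := by exact_mod_cast hl
    have hpos : (0 : ℚ) < ((a : ℚ) + 1) * (b + 1) := by positivity
    refine le_of_mul_le_mul_right ?_ hpos
    have c0 : (0 : ℚ) ≤ ((b + 1).choose l : ℚ) * ((a + 1).choose l : ℚ) := by positivity
    calc ((b + 1).choose l : ℚ) * (a.choose l : ℚ) * (((a : ℚ) + 1) * (b + 1))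
        = ((b + 1).choose l : ℚ) * ((a.choose l : ℚ) * (a + 1)) * (b + 1) := by ring
      _ = ((b + 1).choose l : ℚ) * ((a + 1).choose l : ℚ) * (((a : ℚ) + 1 - l) * (b + 1)) := by
          rw [e2]; ring
      _ ≤ ((b + 1).choose l : ℚ) * ((a + 1).choose l : ℚ) * (((b : ℚ) + 1 - l) * (a + 1)) := by
          refine mul_le_mul_of_nonneg_left ?_ c0
          have hl0 : (0 : ℚ) ≤ l := by positivity
          nlinarith
      _ = (((b + 1).choose l : ℚ) * ((b : ℚ) + 1 - l)) * ((a + 1).choose l : ℚ) * (a + 1) := by ring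
      _ = (b.choose l : ℚ) * ((a + 1).choose l : ℚ) * (((a : ℚ) + 1) * (b + 1)) := by
          rw [← e1]; ring

lemma KK_LC (k l nn : ℕ) : LC (KK k l nn) := by
  refine ⟨KK_nonneg k l nn, fun i j hij => ?_⟩
  rcases Nat.lt_or_ge nn (j + 1) with h | h
  · have : KK k l nn (j + 1) = 0 := by unfold KK; rw [if_neg (by omega)]
    rw [this, mul_zero]
    exact mul_nonneg (KK_nonneg _ _ _ _) (KK_nonneg _ _ _ _)
  · unfold KK
    rw [if_pos (by omega : i ≤ nn), if_pos (by omega : j + 1 ≤ nn), if_pos (by omega : i + 1 ≤ nn),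
      if_pos (by omega : j ≤ nn)]
    have e1 : nn - i = (nn - (i + 1)) + 1 := by omega
    have e2 : nn - j = (nn - (j + 1)) + 1 := by omega
    have a1 := choose_cmp (nn - (j + 1)) (nn - (i + 1)) l (by omega)
    have a2 := choose_cmp (k + i) (k + j) k (by omega)
    rw [← e1, ← e2] at a1
    have a3 := mul_le_mul a1 a2 (by positivity) (by positivity)
    have e3 : k + (j + 1) = k + j + 1 := by ring
    have e4 : k + (i + 1) = k + i + 1 := by ring
    rw [e3, e4]
    calc _ = ((nn - i).choose l : ℚ) * ((nn - (j + 1)).choose l : ℚ) *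
          (((k + j + 1).choose k : ℚ) * ((k + i).choose k : ℚ)) := by ring
      _ ≤ _ := a3
      _ = _ := by ring

section level

variable (k l nn i : ℕ)

/-- lower level -/
def sf (p : ℕ) : ℚ := if p ≤ i then KK k l nn p * ((k + l + 1).choose (i - p) : ℚ) else 0
/-- middle level, long row -/
def sg (p : ℕ) : ℚ :=
  if p ≤ i then KK (k + 1) (l + 1) nn p * ((k + l + 4).choose (i - p) : ℚ) else 0
/-- upper level, shifted by one -/
def sh : ℕ → ℚ
  | 0 => 0
  | p + 1 => KK (k + 2) (l + 2) nn p * ((k + l + 5).choose (i - p) : ℚ)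
/-- middle level, short row, shifted by one -/
def sr : ℕ → ℚ
  | 0 => 0
  | p + 1 => KK (k + 1) (l + 1) nn p * ((k + l + 2).choose (i - p) : ℚ)

/-- common factor -/
def base (p : ℕ) : ℚ := ((nn + 1 - p).choose (l + 1) : ℚ) * ((k + 1 + p).choose (k + 1) : ℚ) *
  ((k + l + 5).choose (i + 1 - p) : ℚ)

lemma base_nonneg (p : ℕ) : 0 ≤ base k l nn i p := by unfold base; positivity

lemma F1 (hi : i ≤ nn) (p : ℕ) (hp : p ≤ i + 1) :
    sf k l nn i p * (((nn + 1 - p : ℕ) : ℚ) * ((k : ℚ) + 1 + p) *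
      (((k : ℚ) + l + 3 + 2) * ((k : ℚ) + l + 3 + 1) * ((k : ℚ) + l + 3) * ((k : ℚ) + l + 3 - 1))) =
    base k l nn i p * (((l : ℚ) + 1) * ((k : ℚ) + 1) * ((i + 1 - p : ℕ) : ℚ) *
      HH ((k : ℚ) + l + 3) ((i + 1 - p : ℕ) : ℚ)) := by
  rcases Nat.lt_or_ge i p with h | h
  · have : i + 1 - p = 0 := by omega
    unfold sf
    rw [if_neg (by omega), this]
    simp
  · obtain ⟨P, hP⟩ : ∃ P, nn - p = P := ⟨_, rfl⟩
    obtain ⟨A, hA⟩ : ∃ A, i - p = A := ⟨_, rfl⟩
    have e1 : nn + 1 - p = P + 1 := by omega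
    have e2 : i + 1 - p = A + 1 := by omega
    unfold sf base KK
    rw [if_pos h, if_pos (by omega : p ≤ nn), hP, hA, e1, e2]
    have a1 := q2 P l
    have a2 := q2 (k + p) k
    have a3 := mark3 (k + l + 1) A
    have e3 : k + 1 + p = k + p + 1 := by ring
    have e4 : k + l + 5 = k + l + 1 + 4 := by ring
    rw [e3, e4]
    push_cast at a1 a2 a3 ⊢
    have e5 : (k : ℚ) + l + 1 + 2 = k + l + 3 := by ring
    rw [e5] at a3
    calc _ = (((P : ℚ) + 1) * P.choose l) * (((k : ℚ) + p + 1) * (k + p).choose k) *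
          (((k + l + 1).choose A : ℚ) *
            (((k : ℚ) + l + 1 + 4) * (k + l + 1 + 3) * (k + l + 3) * (k + l + 1 + 1))) := by ring
      _ = _ := by rw [← a1, ← a2, a3]; ring

lemma F2 (hi : i ≤ nn) (p : ℕ) (hp : p ≤ i + 1) :
    sg k l nn i p * (((nn + 1 - p : ℕ) : ℚ) * ((k : ℚ) + l + 3 + 2)) =
    base k l nn i p * ((((nn + 1 - p : ℕ) : ℚ) - (l + 1)) * ((i + 1 - p : ℕ) : ℚ)) := by
  rcases Nat.lt_or_ge i p with h | h
  · have : i + 1 - p = 0 := by omega
    unfold sg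
    rw [if_neg (by omega), this]
    simp
  · obtain ⟨P, hP⟩ : ∃ P, nn - p = P := ⟨_, rfl⟩
    obtain ⟨A, hA⟩ : ∃ A, i - p = A := ⟨_, rfl⟩
    have e1 : nn + 1 - p = P + 1 := by omega
    have e2 : i + 1 - p = A + 1 := by omega
    unfold sg base KK
    rw [if_pos h, if_pos (by omega : p ≤ nn), hP, hA, e1, e2]
    have a1 := q1 P (l + 1)
    have a3 := mark1 (k + l + 3) A
    have e4 : k + l + 3 + 2 = k + l + 5 := by ring
    have e5 : k + l + 3 + 1 = k + l + 4 := by ring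
    rw [e4, e5] at a3
    push_cast at a1 a3 ⊢
    calc _ = ((P.choose (l + 1) : ℚ) * ((P : ℚ) + 1)) * ((k + 1 + p).choose (k + 1) : ℚ) *
          (((k : ℚ) + l + 3 + 2) * ((k + l + 4).choose A : ℚ)) := by ring
      _ = _ := by rw [a1, ← a3]; ring

lemma F3 (p : ℕ) (hp : p ≤ nn + 1) :
    sh k l nn i p * (((l : ℚ) + 2) * ((k : ℚ) + 2)) =
    base k l nn i p * ((((nn + 1 - p : ℕ) : ℚ) - (l + 1)) * (p : ℚ)) := by
  rcases p with _ | p
  · simp [sh]
  · have e1 : nn + 1 - (p + 1) = nn - p := by omega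
    have e2 : i + 1 - (p + 1) = i - p := by omega
    unfold base
    rw [e1, e2]
    simp only [sh]
    unfold KK
    rw [if_pos (by omega : p ≤ nn)]
    have a1 := q3 (nn - p) (l + 1)
    have a2 := q3 (k + 2 + p) (k + 1)
    have e3 : k + 1 + (p + 1) = k + 2 + p := by ring
    rw [e3]
    push_cast at a1 a2 ⊢
    have a2' : ((k + 2 + p).choose (k + 1 + 1) : ℚ) * (k + 1 + 1) =
        ((k + 2 + p).choose (k + 1) : ℚ) * (p + 1) := by rw [a2]; ring
    calc _ = (((nn - p).choose (l + 1 + 1) : ℚ) * (l + 1 + 1)) *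
          (((k + 2 + p).choose (k + 1 + 1) : ℚ) * (k + 1 + 1)) *
            ((k + l + 5).choose (i - p) : ℚ) := by ring
      _ = _ := by rw [a1, a2']; ring

lemma F4 (p : ℕ) (hp : p ≤ nn + 1) :
    sr k l nn i p * (((k : ℚ) + 1 + p) *
      (((k : ℚ) + l + 3 + 2) * ((k : ℚ) + l + 3 + 1) * ((k : ℚ) + l + 3))) =
    base k l nn i p * ((p : ℚ) * HH ((k : ℚ) + l + 3) ((i + 1 - p : ℕ) : ℚ)) := by
  rcases p with _ | p
  · simp [sr]
  · have e1 : nn + 1 - (p + 1) = nn - p := by omega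
    have e2 : i + 1 - (p + 1) = i - p := by omega
    unfold base
    rw [e1, e2]
    simp only [sr]
    unfold KK
    rw [if_pos (by omega : p ≤ nn)]
    have a2 := q1 (k + 1 + p) (k + 1)
    have a3 := mark2 (k + l + 2) (i - p)
    have e3 : k + 1 + (p + 1) = k + 1 + p + 1 := by ring
    have e4 : k + l + 2 + 3 = k + l + 5 := by ring
    rw [e3]
    rw [e4] at a3
    push_cast at a2 a3 ⊢
    have e5 : (k : ℚ) + l + 2 + 1 = k + l + 3 := by ring
    rw [e5] at a3
    have a2' : ((k + 1 + p).choose (k + 1) : ℚ) * (k + 1 + p + 1) =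
        ((k + 1 + p + 1).choose (k + 1) : ℚ) * (p + 1) := by rw [a2]; ring
    calc _ = ((nn - p).choose (l + 1) : ℚ) * (((k + 1 + p).choose (k + 1) : ℚ) * (k + 1 + p + 1)) *
          (((k + l + 2).choose (i - p) : ℚ) * (((k : ℚ) + l + 2 + 3) * (k + l + 2 + 2) *
            (k + l + 3))) := by ring
      _ = _ := by rw [a2', a3]; ring

end level

end Pool.Agent.Lib.H53M
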