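import Pool.Agent.Lib.H53M.Level

/-!
Helper file for MP_251428_co: the inequality between three consecutive levels.
-/

namespace Pool.Agent.Lib.H53M

open Finset

variable (k l nn i : ℕ)

lemma sf_nonneg (p : ℕ) : 0 ≤ sf k l nn i p := by
  unfold sf; split_ifs
  · exact mul_nonneg (KK_nonneg _ _ _ _) (by positivity)
  · exact le_refl _

lemma sg_nonneg (p : ℕ) : 0 ≤ sg k l nn i p := by
  unfold sg; split_ifs
  · exact mul_nonneg (KK_nonneg _ _ _ _) (by positivity)
  · exact le_refl _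

lemma sh_nonneg (p : ℕ) : 0 ≤ sh k l nn i p := by
  rcases p with _ | p
  · exact le_refl _
  · exact mul_nonneg (KK_nonneg _ _ _ _) (by positivity)

lemma sr_nonneg (p : ℕ) : 0 ≤ sr k l nn i p := by
  rcases p with _ | p
  · exact le_refl _
  · exact mul_nonneg (KK_nonneg _ _ _ _) (by positivity)

/-- if the common factor at `p` vanishes, the outer levels vanish at `p`. -/
lemma vanish (hi : i ≤ nn) (p : ℕ) (hp : p ≤ i + 1) (h0 : base k l nn i p = 0) :
    sf k l nn i p = 0 ∧ sh k l nn i p = 0 := by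
  constructor
  · rcases Nat.lt_or_ge i p with h | h
    · unfold sf; rw [if_neg (by omega)]
    · have := F1 k l nn i hi p hp
      rw [h0, zero_mul] at this
      have hP : (0 : ℚ) < ((nn + 1 - p : ℕ) : ℚ) := by
        have : 0 < nn + 1 - p := by omega
        exact_mod_cast this
      have hpos : (0 : ℚ) < (((nn + 1 - p : ℕ) : ℚ) * ((k : ℚ) + 1 + p) *
        (((k : ℚ) + l + 3 + 2) * ((k : ℚ) + l + 3 + 1) * ((k : ℚ) + l + 3) *
          ((k : ℚ) + l + 3 - 1))) := by
        have : (0 : ℚ) < (k : ℚ) + l + 3 - 1 := by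
          have h1 : (0 : ℚ) ≤ k := by positivity
          have h2 : (0 : ℚ) ≤ l := by positivity
          linarith
        positivity
      rcases mul_eq_zero.1 this with h1 | h1
      · exact h1
      · exact absurd h1 hpos.ne'
  · have := F3 k l nn i p (by omega)
    rw [h0, zero_mul] at this
    have hpos : (0 : ℚ) < (((l : ℚ) + 2) * ((k : ℚ) + 2)) := by positivity
    rcases mul_eq_zero.1 this with h1 | h1
    · exact h1
    · exact absurd h1 hpos.ne'

lemma pair_ineq (hi : i ≤ nn) (hl : l ≤ 2 * k + 1) (p q : ℕ) (hpq : p ≤ q) (hq : q ≤ i + 1) :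
    sf k l nn i p * sh k l nn i q + sf k l nn i q * sh k l nn i p ≤
      sg k l nn i p * sr k l nn i q + sg k l nn i q * sr k l nn i p := by
  have hR : 0 ≤ sg k l nn i p * sr k l nn i q + sg k l nn i q * sr k l nn i p :=
    add_nonneg (mul_nonneg (sg_nonneg _ _ _ _ _) (sr_nonneg _ _ _ _ _))
      (mul_nonneg (sg_nonneg _ _ _ _ _) (sr_nonneg _ _ _ _ _))
  by_cases hbp : base k l nn i p = 0
  · obtain ⟨h1, h2⟩ := vanish k l nn i hi p (by omega) hbp
    rw [h1, h2]; simpa using hR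
  by_cases hbq : base k l nn i q = 0
  · obtain ⟨h1, h2⟩ := vanish k l nn i hi q hq hbq
    rw [h1, h2]; simpa using hR
  -- nondegenerate case
  obtain ⟨Q, hQ⟩ : ∃ Q, nn + 1 - q = Q := ⟨_, rfl⟩
  obtain ⟨B, hB⟩ : ∃ B, i + 1 - q = B := ⟨_, rfl⟩
  obtain ⟨δ, hδ⟩ : ∃ δ, q = p + δ := ⟨q - p, by omega⟩
  have hP : nn + 1 - p = Q + δ := by omega
  have hA : i + 1 - p = B + δ := by omega
  have hlQ : l + 1 ≤ Q := by
    by_contra hcon
    apply hbq
    unfold base
    rw [hQ, Nat.choose_eq_zero_of_lt (by omega)]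
    simp
  have hAm : B + δ ≤ k + l + 5 := by
    by_contra hcon
    apply hbp
    unfold base
    rw [hA, Nat.choose_eq_zero_of_lt (by omega : k + l + 5 < B + δ)]
    simp
  have f1p := F1 k l nn i hi p (by omega)
  have f1q := F1 k l nn i hi q hq
  have f2p := F2 k l nn i hi p (by omega)
  have f2q := F2 k l nn i hi q hq
  have f3p := F3 k l nn i p (by omega)
  have f3q := F3 k l nn i q (by omega)
  have f4p := F4 k l nn i p (by omega)
  have f4q := F4 k l nn i q (by omega)
  rw [hP, hA] at f1p f2p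
  rw [hQ, hB] at f1q f2q
  rw [hP] at f3p
  rw [hQ] at f3q
  rw [hA] at f4p
  rw [hB] at f4q
  have hcore := core (k + 1) (l + 1) (k + l + 3) Q p B δ (by omega) (by omega) (by omega) hlQ
    (by omega) (by omega) (by omega)
  push_cast at hcore f1p f1q f2p f2q f3p f3q f4p f4q
  have hbb : 0 ≤ base k l nn i p * base k l nn i q :=
    mul_nonneg (base_nonneg _ _ _ _ _) (base_nonneg _ _ _ _ _)
  have hkey := mul_le_mul_of_nonneg_left hcore hbb
  have hqq : (q : ℚ) = p + δ := by rw [hδ]; push_cast; ring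
  rw [hqq] at f1q f3q f4q
  set M : ℚ := (k : ℚ) + l + 3 with hM
  have hMpos : 0 < M - 1 := by
    rw [hM]
    have h1 : (0 : ℚ) ≤ k := by positivity
    have h2 : (0 : ℚ) ≤ l := by positivity
    linarith
  have hMpos' : 0 < M := by linarith
  have hQpos : (0 : ℚ) < Q := by
    have : 0 < Q := by omega
    exact_mod_cast this
  have hk0 : (0 : ℚ) ≤ k := by positivity
  have hl0 : (0 : ℚ) ≤ l := by positivity
  have hp0 : (0 : ℚ) ≤ p := by positivity
  have hδ0 : (0 : ℚ) ≤ δ := by positivity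
  have hD : 0 < ((Q : ℚ) + δ) * Q * (k + 1 + p) * (k + 1 + (p + δ)) * ((l + 2) * (k + 2)) *
      ((M + 2) * (M + 2) * (M + 1) * M * (M - 1)) := by positivity
  refine le_of_mul_le_mul_right ?_ hD
  -- the four products
  have t1 : sf k l nn i p * sh k l nn i q * (((Q : ℚ) + δ) * Q * (k + 1 + p) * (k + 1 + (p + δ)) *
      ((l + 2) * (k + 2)) * ((M + 2) * (M + 2) * (M + 1) * M * (M - 1))) =
      base k l nn i p * base k l nn i q * ((M + 2) * (l + 1) * (k + 1) *
        (Q * (Q - (l + 1)) * (k + 1 + (p + δ)) * (p + δ) * (B + δ) * HH M (B + δ))) := by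
    calc _ = (sf k l nn i p * (((Q : ℚ) + δ) * (k + 1 + p) * ((M + 2) * (M + 1) * M * (M - 1)))) *
          (sh k l nn i q * ((l + 2) * (k + 2))) * (Q * (k + 1 + (p + δ)) * (M + 2)) := by ring
      _ = _ := by rw [f1p, f3q]; ring
  have t2 : sf k l nn i q * sh k l nn i p * (((Q : ℚ) + δ) * Q * (k + 1 + p) * (k + 1 + (p + δ)) *
      ((l + 2) * (k + 2)) * ((M + 2) * (M + 2) * (M + 1) * M * (M - 1))) =
      base k l nn i p * base k l nn i q * ((M + 2) * (l + 1) * (k + 1) *
        ((Q + δ) * (Q + δ - (l + 1)) * (k + 1 + p) * p * B * HH M B)) := by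
    calc _ = (sf k l nn i q * ((Q : ℚ) * (k + 1 + (p + δ)) * ((M + 2) * (M + 1) * M * (M - 1)))) *
          (sh k l nn i p * ((l + 2) * (k + 2))) * ((Q + δ) * (k + 1 + p) * (M + 2)) := by ring
      _ = _ := by rw [f1q, f3p]; ring
  have t3 : sg k l nn i p * sr k l nn i q * (((Q : ℚ) + δ) * Q * (k + 1 + p) * (k + 1 + (p + δ)) *
      ((l + 2) * (k + 2)) * ((M + 2) * (M + 2) * (M + 1) * M * (M - 1))) =
      base k l nn i p * base k l nn i q * ((M - 1) * (l + 1 + 1) * (k + 1 + 1) *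
        ((Q + δ - (l + 1)) * Q * (k + 1 + p) * (p + δ) * (B + δ) * HH M B)) := by
    calc _ = (sg k l nn i p * (((Q : ℚ) + δ) * (M + 2))) *
          (sr k l nn i q * ((k + 1 + (p + δ)) * ((M + 2) * (M + 1) * M))) *
            (Q * (k + 1 + p) * ((l + 2) * (k + 2)) * (M - 1)) := by ring
      _ = _ := by rw [f2p, f4q]; ring
  have t4 : sg k l nn i q * sr k l nn i p * (((Q : ℚ) + δ) * Q * (k + 1 + p) * (k + 1 + (p + δ)) *
      ((l + 2) * (k + 2)) * ((M + 2) * (M + 2) * (M + 1) * M * (M - 1))) =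
      base k l nn i p * base k l nn i q * ((M - 1) * (l + 1 + 1) * (k + 1 + 1) *
        ((Q - (l + 1)) * (Q + δ) * (k + 1 + (p + δ)) * p * B * HH M (B + δ))) := by
    calc _ = (sg k l nn i q * ((Q : ℚ) * (M + 2))) *
          (sr k l nn i p * ((k + 1 + p) * ((M + 2) * (M + 1) * M))) *
            ((Q + δ) * (k + 1 + (p + δ)) * ((l + 2) * (k + 2)) * (M - 1)) := by ring
      _ = _ := by rw [f2q, f4p]; ring
  rw [add_mul (sf k l nn i p * sh k l nn i q), add_mul (sg k l nn i p * sr k l nn i q),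
    t1, t2, t3, t4]
  calc _ = base k l nn i p * base k l nn i q * ((M + 2) * (l + 1) * (k + 1) *
        (Q * (Q - (l + 1)) * (k + 1 + (p + δ)) * (p + δ) * (B + δ) * HH M (B + δ) +
        (Q + δ) * (Q + δ - (l + 1)) * (k + 1 + p) * p * B * HH M B)) := by ring
    _ ≤ _ := hkey
    _ = _ := by ring

lemma sum_zero (i : ℕ) (f : ℕ → ℚ) (g : ℕ → ℚ) (h : ∀ p, p ≤ i → f p = g p) (h0 : f (i + 1) = 0) :
    ∑ p ∈ range (i + 1 + 1), f p = ∑ p ∈ range (i + 1), g p := by
  rw [sum_range_succ, h0, add_zero]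
  exact sum_congr rfl fun p hp => h p (by have := mem_range.1 hp; omega)

/-- Three consecutive levels. -/
theorem level (hi : i ≤ nn) (hl : l ≤ 2 * k + 1) :
    E (KK k l nn) (k + l + 1) i * E (KK (k + 2) (l + 2) nn) (k + l + 5) i ≤
      E (KK (k + 1) (l + 1) nn) (k + l + 3) i ^ 2 := by
  have h1 := pair_sum (i + 1) (sf k l nn i) (sh k l nn i) (sg k l nn i) (sr k l nn i)
    (fun p q hpq hq => pair_ineq k l nn i hi hl p q hpq hq)
  have e1 : ∑ p ∈ range (i + 1 + 1), sf k l nn i p = E (KK k l nn) (k + l + 1) i := by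
    unfold E
    refine sum_zero i _ _ (fun p hp => ?_) ?_
    · unfold sf; rw [if_pos hp]
    · unfold sf; rw [if_neg (by omega)]
  have e2 : ∑ p ∈ range (i + 1 + 1), sg k l nn i p = E (KK (k + 1) (l + 1) nn) (k + l + 4) i := by
    unfold E
    refine sum_zero i _ _ (fun p hp => ?_) ?_
    · unfold sg; rw [if_pos hp]
    · unfold sg; rw [if_neg (by omega)]
  have e3 : ∑ p ∈ range (i + 1 + 1), sh k l nn i p =
      E (KK (k + 2) (l + 2) nn) (k + l + 5) i := by
    rw [sum_range_succ']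
    simp only [sh, add_zero]
    rfl
  have e4 : ∑ p ∈ range (i + 1 + 1), sr k l nn i p =
      E (KK (k + 1) (l + 1) nn) (k + l + 2) i := by
    rw [sum_range_succ']
    simp only [sr, add_zero]
    rfl
  rw [e1, e2, e3, e4] at h1
  exact h1.trans (E_mid _ (KK_LC _ _ _) (k + l + 2) i)

end Pool.Agent.Lib.H53M
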