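import Pool.Agent.Lib.PNT.PNT

/-!
# H53M, module N, file N1: primes p ≡ 2 mod 5 have positive lower density (theta form)

From the prime number theorem in arithmetic progressions of `Pool.Agent.Lib.PNT`.
-/

open Finset Filter Topology

namespace H53M

theorem N1_theta : ∃ X₀ : ℕ, ∀ X ≥ X₀, (1 / 8 : ℝ) * X ≤
    ∑ q ∈ (Icc 1 X).filter (fun q => q.Prime ∧ q ≡ 2 [MOD 5]), Real.log q := by
  have h23 : (2 : ZMod 5) * 3 = 1 := by decide
  have hu : IsUnit (2 : ZMod 5) := IsUnit.of_mul_eq_one 3 h23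
  have h := Pool.Agent.Lib.PNT.thetaAP_tendsto (q := 5) hu
  have ht : ((Nat.totient 5 : ℕ) : ℝ)⁻¹ = 1 / 4 := by
    have : Nat.totient 5 = 4 := by decide
    rw [this]; norm_num
  rw [ht] at h
  have h2 := h.eventually (lt_mem_nhds (show (1 / 8 : ℝ) < 1 / 4 by norm_num))
  obtain ⟨R, hR⟩ := Filter.eventually_atTop.1 (h2.and (eventually_gt_atTop (0 : ℝ)))
  obtain ⟨X₀, hX₀⟩ := exists_nat_ge R
  refine ⟨X₀, fun X hX => ?_⟩
  have hXR : R ≤ (X : ℝ) := hX₀.trans (by exact_mod_cast hX)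
  obtain ⟨h3, h4⟩ := hR (X : ℝ) hXR
  rw [lt_div_iff₀ h4] at h3
  refine h3.le.trans (le_of_eq ?_)
  unfold Pool.Agent.Lib.PNT.thetaP
  rw [Nat.floor_natCast]
  apply Finset.sum_congr _ fun _ _ => rfl
  ext q
  simp only [mem_filter, mem_Ioc, mem_Icc]
  have : ((q : ZMod 5) = 2) ↔ q ≡ 2 [MOD 5] := by
    have := ZMod.natCast_eq_natCast_iff q 2 5
    simpa using this
  rw [this]
  constructor
  · rintro ⟨⟨a, b⟩, c⟩
    exact ⟨⟨by omega, b⟩, c⟩
  · rintro ⟨⟨a, b⟩, c⟩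
    exact ⟨⟨by omega, b⟩, c⟩

end H53M
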