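import Pool.Agent.Lib.H53M.K8

/-!
# H53M, module N, file N2: the denominators D(n) of h

`DN E n = ∏ p^(log_p (2 n²))` over the primes `p ≤ 2 n²` with `E p`.
-/

open Finset

namespace H53M

open PowerSeries

/-- The denominator of `h(n)`. -/
def DN (E : ℕ → Prop) [DecidablePred E] (n : ℕ) : ℕ :=
  ∏ p ∈ (range (2 * n ^ 2 + 1)).filter (fun p => p.Prime ∧ E p), p ^ Nat.log p (2 * n ^ 2)

theorem DN_pos (E : ℕ → Prop) [DecidablePred E] (n : ℕ) : 0 < DN E n := by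
  unfold DN
  refine Finset.prod_pos fun p hp => ?_
  exact Nat.pow_pos (Finset.mem_filter.1 hp).2.1.pos

theorem DN_dvd (E : ℕ → Prop) [DecidablePred E] (n : ℕ) : DN E n ∣ DN E (n + 1) := by
  unfold DN
  have hle : 2 * n ^ 2 ≤ 2 * (n + 1) ^ 2 :=
    Nat.mul_le_mul_left 2 (Nat.pow_le_pow_left (Nat.le_succ n) 2)
  refine (Finset.prod_dvd_prod_of_dvd _ (fun p => p ^ Nat.log p (2 * (n + 1) ^ 2)) ?_).trans
    (Finset.prod_dvd_prod_of_subset _ _ _ ?_)
  · intro p _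
    exact pow_dvd_pow p (Nat.log_mono_right hle)
  · intro p hp
    rw [mem_filter, mem_range] at hp ⊢
    exact ⟨by omega, hp.2⟩

theorem N2_dvd (E : ℕ → Prop) [DecidablePred E] {n : ℕ} {c N : ℤ} (hN : 0 < N)
    (hNn : N ≤ 2 * (n : ℤ) ^ 2) (hc : c ≠ 0)
    (hd : ∀ p : ℕ, p.Prime → ¬ E p → padicValInt p N ≤ padicValInt p c) :
    N ∣ (DN E n : ℤ) * c := by
  have hD := DN_pos E n
  obtain ⟨M, rfl⟩ : ∃ M : ℕ, N = M := ⟨N.toNat, by omega⟩
  have hM0 : M ≠ 0 := by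
    rintro rfl
    exact absurd hN (by norm_num)
  have hMn : M ≤ 2 * n ^ 2 := by exact_mod_cast hNn
  rw [← Int.natAbs_dvd_natAbs, Int.natAbs_mul, Int.natAbs_natCast, Int.natAbs_natCast]
  have hc' : c.natAbs ≠ 0 := Int.natAbs_ne_zero.2 hc
  rw [← Nat.factorization_le_iff_dvd hM0 (mul_ne_zero hD.ne' hc'),
    Nat.factorization_mul hD.ne' hc']
  intro p
  by_cases hp : p.Prime
  · haveI : Fact p.Prime := ⟨hp⟩
    rw [Finsupp.add_apply]
    by_cases hE : E p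
    · by_cases hpM : p ∣ M
      · have hpn : p ≤ 2 * n ^ 2 := (Nat.le_of_dvd (Nat.pos_of_ne_zero hM0) hpM).trans hMn
        have h1 : p ^ Nat.log p (2 * n ^ 2) ∣ DN E n := by
          unfold DN
          exact Finset.dvd_prod_of_mem (fun p => p ^ Nat.log p (2 * n ^ 2))
            (by rw [mem_filter, mem_range]; exact ⟨by omega, hp, hE⟩)
        have h2 : Nat.log p (2 * n ^ 2) ≤ (DN E n).factorization p :=
          (hp.pow_dvd_iff_le_factorization hD.ne').1 h1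
        have h3 : M.factorization p ≤ Nat.log p (2 * n ^ 2) := by
          refine Nat.le_log_of_pow_le hp.one_lt ?_
          exact (Nat.le_of_dvd (Nat.pos_of_ne_zero hM0) (Nat.ordProj_dvd M p)).trans hMn
        omega
      · rw [Nat.factorization_eq_zero_of_not_dvd hpM]
        exact Nat.zero_le _
    · have h := hd p hp hE
      have h1 : padicValInt p (M : ℤ) = M.factorization p := by
        rw [padicValInt.of_nat, Nat.factorization_def _ hp]
      have h2 : padicValInt p c = c.natAbs.factorization p := by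
        rw [padicValInt, Nat.factorization_def _ hp]
      omega
  · rw [Nat.factorization_eq_zero_of_not_prime _ hp]
    exact Nat.zero_le _

theorem DN_hser {k : ℕ} {c : ℕ → ℤ → ℤ} (hA : Arr k c) (E : ℕ → Prop) [DecidablePred E]
    (hd : ∀ p : ℕ, p.Prime → ¬ E p → ∀ n m, c n m ≠ 0 →
      padicValInt p (NN n m) ≤ padicValInt p (c n m)) (n : ℕ) :
    ∃ z : ℤ, (DN E n : ℚ) * coeff n (hser c) = z := by
  have h1 : ∀ m : ℤ, ∃ z : ℤ, (DN E n : ℚ) * ((c n m : ℚ) / (NN n m : ℚ)) = z := by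
    intro m
    by_cases hc : c n m = 0
    · exact ⟨0, by rw [hc]; simp⟩
    obtain ⟨hpos, hN⟩ := K8_pos hA hc
    have hle : NN n m ≤ 2 * (n : ℤ) ^ 2 := by nlinarith [sq_nonneg m, sq_nonneg (n : ℤ)]
    obtain ⟨z, hz⟩ := N2_dvd E hpos hle hc (fun p hp hE => hd p hp hE n m hc)
    refine ⟨z, ?_⟩
    have hNQ : (NN n m : ℚ) ≠ 0 := by exact_mod_cast hpos.ne'
    rw [mul_div_assoc', div_eq_iff hNQ]
    have : ((DN E n : ℤ) : ℚ) * (c n m : ℚ) = (NN n m : ℚ) * (z : ℚ) := by exact_mod_cast hz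
    rw [mul_comm (z : ℚ), ← this]
    push_cast
    rfl
  choose z hz using h1
  refine ⟨5 * n * ∑ m ∈ ms n, z m, ?_⟩
  unfold hser
  rw [coeff_mk]
  push_cast
  rw [Finset.mul_sum, Finset.mul_sum, Finset.mul_sum]
  refine Finset.sum_congr rfl fun m _ => ?_
  rw [← hz m]
  ring

/-- `log D(n) ≤ #{p ≤ 2n² : E p} log (2 n²)` -/
theorem log_DN_le (E : ℕ → Prop) [DecidablePred E] (n : ℕ) : Real.log (DN E n) ≤
    (((range (2 * n ^ 2 + 1)).filter (fun p => p.Prime ∧ E p)).card : ℝ) *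
      Real.log ((2 * n ^ 2 : ℕ) : ℝ) := by
  rcases Nat.eq_zero_or_pos n with h0 | h0
  · subst h0
    have : DN E 0 = 1 := by
      unfold DN
      refine Finset.prod_eq_one fun p hp => ?_
      rw [mem_filter, mem_range] at hp
      have h1 := hp.2.1.two_le
      omega
    rw [this]
    simp
  have hpos : 2 * n ^ 2 ≠ 0 := by positivity
  unfold DN
  push_cast
  rw [Real.log_prod (fun p hp => by
    have := (mem_filter.1 hp).2.1.pos
    positivity), ← nsmul_eq_mul]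
  refine Finset.sum_le_card_nsmul _ _ _ ?_
  intro p hp
  have hpp := (mem_filter.1 hp).2.1
  have h1 : p ^ Nat.log p (2 * n ^ 2) ≤ 2 * n ^ 2 := Nat.pow_log_le_self p hpos
  have h2 : ((p : ℝ)) ^ Nat.log p (2 * n ^ 2) ≤ ((2 * n ^ 2 : ℕ) : ℝ) := by exact_mod_cast h1
  have h3 : (0 : ℝ) < (p : ℝ) ^ Nat.log p (2 * n ^ 2) := by
    have := hpp.pos
    positivity
  have h4 := Real.log_le_log h3 h2
  push_cast at h4
  exact h4

theorem log_DN_small (E : ℕ → Prop) [DecidablePred E]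
    (hE : ∀ ε : ℝ, 0 < ε → ∃ X₀ : ℕ, ∀ X ≥ X₀,
      (((range (X + 1)).filter (fun p => p.Prime ∧ E p)).card : ℝ) * Real.log X ≤
        ε * Real.sqrt X) (ε : ℝ) (hε : 0 < ε) :
    ∃ N₀ : ℕ, ∀ n ≥ N₀, Real.log (DN E n) ≤ ε * n := by
  obtain ⟨X₀, hX⟩ := hE (ε / 2) (by positivity)
  refine ⟨X₀, fun n hn => ?_⟩
  have h1 : X₀ ≤ 2 * n ^ 2 := by nlinarith
  have h2 := (log_DN_le E n).trans (hX (2 * n ^ 2) h1)
  refine h2.trans ?_
  have h3 : Real.sqrt ((2 * n ^ 2 : ℕ) : ℝ) ≤ 2 * n := by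
    rw [Real.sqrt_le_left (by positivity)]
    push_cast
    nlinarith [sq_nonneg (n : ℝ)]
  calc ε / 2 * Real.sqrt ((2 * n ^ 2 : ℕ) : ℝ) ≤ ε / 2 * (2 * n) :=
        mul_le_mul_of_nonneg_left h3 (by positivity)
    _ = ε * n := by ring

end H53M
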