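import Pool.Agent.Lib.H53M.K8

/-!
# H53M, module N, file N3: polynomial growth of h
-/

open Finset

namespace H53M

open PowerSeries

theorem hser_growth {k : ℕ} {c : ℕ → ℤ → ℤ} (hA : Arr k c) : ∃ (C : ℝ) (κ : ℕ),
    ∀ n, |((coeff n (hser c) : ℚ) : ℝ)| ≤ C * ((n : ℝ) + 1) ^ κ := by
  obtain ⟨C0, hC0⟩ := hA.bound
  obtain ⟨C, hC⟩ : ∃ C, C = max C0 0 := ⟨_, rfl⟩
  obtain ⟨e, he⟩ : ∃ e, e = k / 2 - 1 := ⟨_, rfl⟩
  have hCpos : 0 ≤ C := by
    rw [hC]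
    exact le_max_right _ _
  -- one term
  have h1 : ∀ (n : ℕ) (m : ℤ), |((c n m : ℝ) / (NN n m : ℝ))| ≤
      C * 2 ^ e * ((n : ℝ) + 1) ^ (4 + 2 * e) := by
    intro n m
    have hn0 : (0 : ℝ) ≤ n := Nat.cast_nonneg n
    by_cases hc : c n m = 0
    · rw [hc]
      simp only [Int.cast_zero, zero_div, abs_zero]
      positivity
    obtain ⟨hpos, hN⟩ := K8_pos hA hc
    have hNr : (1 : ℝ) ≤ (NN n m : ℝ) := by exact_mod_cast hpos
    have hle : NN n m ≤ 2 * (n : ℤ) ^ 2 := by nlinarith [sq_nonneg m, sq_nonneg (n : ℤ)]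
    have hler : (NN n m : ℝ) ≤ 2 * (n : ℝ) ^ 2 := by exact_mod_cast hle
    rw [abs_div, abs_of_pos (by linarith : (0 : ℝ) < (NN n m : ℝ))]
    have h2 : |(c n m : ℝ)| / (NN n m : ℝ) ≤ |(c n m : ℝ)| :=
      div_le_self (abs_nonneg _) hNr
    refine h2.trans ((hC0 n m hc).trans ?_)
    rw [← he]
    have h3 : (NN n m : ℝ) ^ e ≤ (2 * ((n : ℝ) + 1) ^ 2) ^ e := by
      refine pow_le_pow_left₀ (by linarith) (hler.trans ?_) e
      nlinarith
    have h4 : (n : ℝ) ^ 4 ≤ ((n : ℝ) + 1) ^ 4 := pow_le_pow_left₀ hn0 (by linarith) 4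
    calc C0 * (n : ℝ) ^ 4 * (NN n m : ℝ) ^ e ≤ C * (n : ℝ) ^ 4 * (NN n m : ℝ) ^ e := by
          have : C0 ≤ C := by
            rw [hC]
            exact le_max_left _ _
          have h5 : 0 ≤ (NN n m : ℝ) ^ e := pow_nonneg (by linarith) e
          exact mul_le_mul_of_nonneg_right (mul_le_mul_of_nonneg_right this (by positivity)) h5
      _ ≤ C * ((n : ℝ) + 1) ^ 4 * (2 * ((n : ℝ) + 1) ^ 2) ^ e := by
          refine mul_le_mul (mul_le_mul_of_nonneg_left h4 hCpos) h3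
            (pow_nonneg (by linarith) e) (by positivity)
      _ = C * 2 ^ e * ((n : ℝ) + 1) ^ (4 + 2 * e) := by
          rw [mul_pow, ← pow_mul, pow_add]
          ring
  refine ⟨5 * 7 * (C * 2 ^ e), 1 + (1 + (4 + 2 * e)), fun n => ?_⟩
  have hn0 : (0 : ℝ) ≤ n := Nat.cast_nonneg n
  have h2 : ((coeff n (hser c) : ℚ) : ℝ) =
      5 * (n : ℝ) * ∑ m ∈ ms n, (c n m : ℝ) / (NN n m : ℝ) := by
    unfold hser
    rw [coeff_mk]
    push_cast
    rfl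
  rw [h2, abs_mul, abs_of_nonneg (by positivity : (0 : ℝ) ≤ 5 * (n : ℝ))]
  have hcard : ((ms n).card : ℝ) ≤ 7 * ((n : ℝ) + 1) := by
    unfold ms
    rw [Int.card_Icc]
    have h3 : (3 * (n : ℤ) + 1 - -(3 * (n : ℤ))).toNat = 6 * n + 1 := by omega
    rw [h3]
    push_cast
    linarith
  have h3 : |∑ m ∈ ms n, (c n m : ℝ) / (NN n m : ℝ)| ≤
      (7 * ((n : ℝ) + 1)) * (C * 2 ^ e * ((n : ℝ) + 1) ^ (4 + 2 * e)) := by
    refine (Finset.abs_sum_le_sum_abs _ _).trans ?_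
    refine (Finset.sum_le_card_nsmul _ _ _ (fun m _ => h1 n m)).trans ?_
    rw [nsmul_eq_mul]
    exact mul_le_mul_of_nonneg_right hcard (by positivity)
  calc 5 * (n : ℝ) * |∑ m ∈ ms n, (c n m : ℝ) / (NN n m : ℝ)|
      ≤ 5 * ((n : ℝ) + 1) * ((7 * ((n : ℝ) + 1)) *
          (C * 2 ^ e * ((n : ℝ) + 1) ^ (4 + 2 * e))) := by
        refine mul_le_mul (by linarith) h3 (abs_nonneg _) (by positivity)
    _ = 5 * 7 * (C * 2 ^ e) * ((n : ℝ) + 1) ^ (1 + (1 + (4 + 2 * e))) := by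
        rw [pow_add _ 1, pow_add _ 1]
        ring

end H53M
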