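import Pool.Agent.Lib.H53M.N1

/-!
# H53M, module N, file N4: the good primes have positive lower density (theta form)
-/

open Finset

namespace H53M


/-- The good primes: `p > 5`, `p ≡ 2 mod 5`, not exceptional. -/
def GP (E : ℕ → Prop) (p : ℕ) : Prop := p.Prime ∧ 5 < p ∧ p % 5 = 2 ∧ ¬ E p

theorem GP_theta (E : ℕ → Prop) [DecidablePred E] [DecidablePred (GP E)]
    (hE : ∀ ε : ℝ, 0 < ε → ∃ X₀ : ℕ, ∀ X ≥ X₀,
      (((range (X + 1)).filter (fun p => p.Prime ∧ E p)).card : ℝ) * Real.log X ≤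
        ε * Real.sqrt X) :
    ∃ X₀ : ℕ, ∀ X ≥ X₀, (1 / 10 : ℝ) * (X : ℝ) ≤
      ∑ p ∈ (range (X + 1)).filter (GP E), Real.log p := by
  obtain ⟨X1, h1⟩ := N1_theta
  obtain ⟨X2, h2⟩ := hE (1 / 100) (by norm_num)
  refine ⟨max (max X1 X2) 10000, fun X hX => ?_⟩
  have hX1 : X1 ≤ X := le_trans (le_trans (le_max_left _ _) (le_max_left _ _)) hX
  have hX2 : X2 ≤ X := le_trans (le_trans (le_max_right _ _) (le_max_left _ _)) hX
  have hX3 : 10000 ≤ X := le_trans (le_max_right _ _) hX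
  have hX3' : (10000 : ℝ) ≤ X := by exact_mod_cast hX3
  have a1 := h1 X hX1
  have a2 := h2 X hX2
  have hlog : ∀ p : ℕ, 0 ≤ Real.log (p : ℝ) := fun p => Real.log_natCast_nonneg p
  have hsub : (Icc 1 X).filter (fun q => q.Prime ∧ q ≡ 2 [MOD 5]) ⊆
      ((range (X + 1)).filter (GP E) ∪ (range (X + 1)).filter (fun p => p.Prime ∧ E p)) ∪
        {2} := by
    intro q hq
    rw [mem_filter, mem_Icc] at hq
    obtain ⟨⟨hq1, hqX⟩, hqp, hq5⟩ := hq
    rw [mem_union, mem_union, mem_filter, mem_filter, mem_singleton, mem_range]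
    by_cases hE' : E q
    · exact Or.inl (Or.inr ⟨by omega, hqp, hE'⟩)
    by_cases h5 : 5 < q
    · exact Or.inl (Or.inl ⟨by omega, hqp, h5, hq5, hE'⟩)
    · right
      have : q % 5 = 2 := hq5
      omega
  have h3 : ∑ q ∈ (Icc 1 X).filter (fun q => q.Prime ∧ q ≡ 2 [MOD 5]), Real.log q ≤ (∑ p ∈ (range (X + 1)).filter (GP E), Real.log p) +
      (∑ p ∈ (range (X + 1)).filter (fun p => p.Prime ∧ E p), Real.log p) + Real.log 2 := by
    refine (sum_le_sum_of_subset_of_nonneg hsub (fun p _ _ => hlog p)).trans ?_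
    have b1 := sum_union_inter (s₁ := (range (X + 1)).filter (GP E) ∪
      (range (X + 1)).filter (fun p => p.Prime ∧ E p)) (s₂ := ({2} : Finset ℕ))
      (f := fun p : ℕ => Real.log (p : ℝ))
    have b2 := sum_union_inter (s₁ := (range (X + 1)).filter (GP E))
      (s₂ := (range (X + 1)).filter (fun p => p.Prime ∧ E p))
      (f := fun p : ℕ => Real.log (p : ℝ))
    have b3 : 0 ≤ ∑ p ∈ ((range (X + 1)).filter (GP E) ∪
      (range (X + 1)).filter (fun p => p.Prime ∧ E p)) ∩ ({2} : Finset ℕ),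
        Real.log (p : ℝ) := sum_nonneg fun p _ => hlog p
    have b4 : 0 ≤ ∑ p ∈ ((range (X + 1)).filter (GP E) ∩
      (range (X + 1)).filter (fun p => p.Prime ∧ E p)),
        Real.log (p : ℝ) := sum_nonneg fun p _ => hlog p
    rw [sum_singleton] at b1
    push_cast at b1
    linarith
  have h4 : ∑ p ∈ (range (X + 1)).filter (fun p => p.Prime ∧ E p), Real.log p ≤
      (((range (X + 1)).filter (fun p => p.Prime ∧ E p)).card : ℝ) * Real.log X := by
    rw [← nsmul_eq_mul]
    refine sum_le_card_nsmul _ _ _ fun p hp => ?_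
    rw [mem_filter, mem_range] at hp
    have hp0 : (0 : ℝ) < p := by exact_mod_cast hp.2.1.pos
    exact Real.log_le_log hp0 (by exact_mod_cast (by omega : p ≤ X))
  have h5 : Real.sqrt X ≤ X := by
    rw [Real.sqrt_le_left (by linarith)]
    nlinarith
  have h6 := Real.log_two_lt_d9
  linarith

end H53M
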