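import Pool.Agent.Lib.H53M.SH
import Pool.Agent.Lib.H53M.N2
import Pool.Agent.Lib.H53M.N3
import Pool.Agent.Lib.H53M.N4

/-!
# H53M, module N: assembly of Part II (up to module X)

If the exceptional primes are o(sqrt X / log X) then h satisfies a nontrivial isobaric relation.
-/

open Finset

namespace H53M

open PowerSeries

theorem partII_rel {k : ℕ} (hk : 3 ≤ k) {c : ℕ → ℤ → ℤ} (hA : Arr k c) (E : ℕ → Prop)
    (hE : ∀ ε : ℝ, 0 < ε → ∃ X₀ : ℕ, ∀ X ≥ X₀,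
      (Set.ncard {p : ℕ | p ≤ X ∧ p.Prime ∧ E p} : ℝ) * Real.log X ≤ ε * Real.sqrt X)
    (hd : ∀ p : ℕ, p.Prime → ¬ E p → ∀ n m, c n m ≠ 0 →
      padicValInt p (NN n m) ≤ padicValInt p (c n m)) :
    Rel (k - 1) (hser c) := by
  classical
  have hE' : ∀ ε : ℝ, 0 < ε → ∃ X₀ : ℕ, ∀ X ≥ X₀,
      (((range (X + 1)).filter (fun p => p.Prime ∧ E p)).card : ℝ) * Real.log X ≤
        ε * Real.sqrt X := by
    intro ε hε
    obtain ⟨X₀, h⟩ := hE ε hε
    refine ⟨X₀, fun X hX => ?_⟩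
    have h1 := h X hX
    have h2 : {p : ℕ | p ≤ X ∧ p.Prime ∧ E p} =
        (((range (X + 1)).filter (fun p => p.Prime ∧ E p) : Finset ℕ) : Set ℕ) := by
      ext p
      simp only [Set.mem_setOf_eq, coe_filter, mem_range]
      constructor
      · rintro ⟨a, b⟩
        exact ⟨by omega, b⟩
      · rintro ⟨a, b⟩
        exact ⟨by omega, b⟩
    rw [h2, Set.ncard_coe_finset] at h1
    exact h1
  obtain ⟨C, κ, hC⟩ := hser_growth hA
  refine thmS (k - 1) (2 * k - 1) (by omega) (hser c) C κ hC (DN E) (DN_pos E) (DN_dvd E)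
    (DN_hser hA E hd) (log_DN_small E hE') (GP E) (fun p hp => ⟨hp.1, by have := hp.2.1; omega⟩)
    (1 / 10) (by norm_num) (GP_theta E hE') ?_ ?_
  · intro p hp
    haveI : Fact p.Prime := ⟨hp.1⟩
    exact K8_PI hA p hp.2.1 (hd p hp.1 hp.2.2.2)
  · intro p _ hp
    have h := K8 hk hA p hp.2.1 (Or.inl hp.2.2.1) (hd p hp.1 hp.2.2.2)
    have e : 2 * (k - 1) + (p - 1) * (2 * k - 1) = 2 * k - 2 + (p - 1) * (2 * k - 1) := by
      omega
    rw [e]
    exact h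

end H53M
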