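import Pool.Agent.Lib.H53M.Seq

/-!
Helper file for MP_251428_co: the coefficients of `(1 + y)^a (1 - y)^(-s)` and their inequalities.
-/

namespace Pool.Agent.Lib.H53M

open Finset

/-- shift. -/
def sft (f : ℕ → ℚ) : ℕ → ℚ
  | 0 => 0
  | i + 1 => f i

lemma sft_zero (f : ℕ → ℚ) : sft f 0 = 0 := rfl
lemma sft_succ (f : ℕ → ℚ) (i : ℕ) : sft f (i + 1) = f i := rfl

lemma sft_nonneg (f : ℕ → ℚ) (h : ∀ i, 0 ≤ f i) (i : ℕ) : 0 ≤ sft f i := by
  rcases i with _ | i
  · exact le_refl _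
  · exact h i

/-- coefficients of `(1 - y)^(-s)`. -/
def MM (s i : ℕ) : ℚ := (Nat.multichoose s i : ℚ)

lemma MM_nonneg (s i : ℕ) : 0 ≤ MM s i := by unfold MM; positivity

lemma MM_zero (s : ℕ) : MM s 0 = 1 := by unfold MM; rw [Nat.multichoose_zero_right]; simp

lemma MM_up (s i : ℕ) : MM (s + 1) (i + 1) = MM s (i + 1) + MM (s + 1) i := by
  unfold MM; rw [Nat.multichoose_succ_succ]; push_cast; ring

lemma MM_rat (s i : ℕ) : MM s (i + 1) * (i + 1) = ((s : ℚ) + i) * MM s i := by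
  rcases s with _ | s
  · rcases i with _ | i
    · unfold MM; simp
    · unfold MM; simp
  · unfold MM
    rw [Nat.multichoose_eq, Nat.multichoose_eq]
    have e1 : s + 1 + (i + 1) - 1 = (s + i) + 1 := by omega
    have e2 : s + 1 + i - 1 = s + i := by omega
    rw [e1, e2]
    have := q2 (s + i) i
    push_cast at this ⊢
    rw [this]; ring

lemma MM_LC (s : ℕ) : LC (MM s) := by
  refine ⟨MM_nonneg s, fun i j hij => ?_⟩
  rcases s with _ | s
  · have : MM 0 (j + 1) = 0 := by unfold MM; simp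
    rw [this, mul_zero]
    exact mul_nonneg (MM_nonneg _ _) (MM_nonneg _ _)
  · have h1 := MM_rat (s + 1) i
    have h2 := MM_rat (s + 1) j
    have hp : (0 : ℚ) < ((i : ℚ) + 1) * (j + 1) := by positivity
    refine le_of_mul_le_mul_right ?_ hp
    have e1 : MM (s + 1) i * MM (s + 1) (j + 1) * (((i : ℚ) + 1) * (j + 1)) =
        MM (s + 1) i * MM (s + 1) j * ((((s + 1 : ℕ) : ℚ) + j) * (i + 1)) := by
      calc _ = MM (s + 1) i * (MM (s + 1) (j + 1) * (j + 1)) * (i + 1) := by ring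
        _ = _ := by rw [h2]; ring
    have e2 : MM (s + 1) (i + 1) * MM (s + 1) j * (((i : ℚ) + 1) * (j + 1)) =
        MM (s + 1) i * MM (s + 1) j * ((((s + 1 : ℕ) : ℚ) + i) * (j + 1)) := by
      calc _ = (MM (s + 1) (i + 1) * (i + 1)) * MM (s + 1) j * (j + 1) := by ring
        _ = _ := by rw [h1]; ring
    rw [e1, e2]
    refine mul_le_mul_of_nonneg_left ?_ (mul_nonneg (MM_nonneg _ _) (MM_nonneg _ _))
    have hij' : (i : ℚ) ≤ j := by exact_mod_cast hij
    have hs : (0 : ℚ) ≤ s := by positivity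
    push_cast
    nlinarith

/-- coefficients of `(1 + y)^a (1 - y)^(-s)`. -/
def ee (s a k : ℕ) : ℚ := E (MM s) a k

lemma ee_LC (s a : ℕ) : LC (ee s a) := LC_E _ (MM_LC s) a

lemma ee_nonneg (s a k : ℕ) : 0 ≤ ee s a k := (ee_LC s a).1 k

lemma ee_idx_zero (s a : ℕ) : ee s a 0 = 1 := by unfold ee; rw [E_idx_zero, MM_zero]

lemma ee_up (s a k : ℕ) : ee s (a + 1) k = ee s a k + sft (ee s a) k := by
  rcases k with _ | k
  · rw [ee_idx_zero, ee_idx_zero, sft_zero, add_zero]
  · rw [sft_succ]; unfold ee; rw [E_succ]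

lemma ee_sig (s a k : ℕ) : ee (s + 1) a k = ee s a k + sft (ee (s + 1) a) k := by
  induction a generalizing k with
  | zero =>
    rcases k with _ | k
    · rw [ee_idx_zero, ee_idx_zero, sft_zero, add_zero]
    · rw [sft_succ]; unfold ee; rw [E_row_zero, E_row_zero, E_row_zero, MM_up]
  | succ a ih =>
    rcases k with _ | k
    · rw [ee_idx_zero, ee_idx_zero, sft_zero, add_zero]
    · rw [sft_succ, ee_up, ee_up, ee_up, sft_succ, sft_succ]
      have h1 := ih (k + 1)
      have h2 := ih k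
      rw [sft_succ] at h1
      linarith

lemma ee_mono (s a k : ℕ) : ee (s + 1) a k ≤ ee (s + 1) a (k + 1) := by
  have := ee_sig s a (k + 1)
  rw [sft_succ] at this
  have := ee_nonneg s a (k + 1)
  linarith

lemma ee_pos (s a k : ℕ) : 0 < ee (s + 1) a k := by
  induction k with
  | zero => rw [ee_idx_zero]; norm_num
  | succ k ih => exact lt_of_lt_of_le ih (ee_mono s a k)

/-- three-term recurrence. -/
lemma ee_rec (s a k : ℕ) : ((k : ℚ) + 1) * ee s a (k + 1) =
    ((a : ℚ) + s) * ee s a k + ((k : ℚ) - 1 + s - a) * sft (ee s a) k := by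
  induction a generalizing k with
  | zero =>
    unfold ee
    rcases k with _ | k
    · rw [E_row_zero, E_row_zero, sft_zero]
      have := MM_rat s 0
      push_cast at this ⊢
      linarith
    · rw [sft_succ, E_row_zero, E_row_zero, E_row_zero]
      have h1 := MM_rat s (k + 1)
      have h2 := MM_rat s k
      push_cast at h1 h2 ⊢
      linarith
  | succ a ih =>
    rcases k with _ | k
    · rw [sft_zero, ee_up, ee_up, sft_succ, sft_zero]
      have h := ih 0
      rw [sft_zero] at h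
      rw [ee_idx_zero] at *
      push_cast at h ⊢
      linarith
    · have h1 := ih (k + 1)
      have h2 := ih k
      rw [sft_succ] at h1
      rw [sft_succ, ee_up, ee_up, ee_up, sft_succ, sft_succ]
      push_cast at h1 h2 ⊢
      linear_combination h1 + h2

/-- derivative identity. -/
lemma ee_der (s a k : ℕ) : ((k : ℚ) + 1) * ee s a (k + 1) =
    ((a : ℚ) + s) * ee (s + 1) a k - 2 * (a * sft (ee (s + 1) (a - 1)) k) := by
  rcases a with _ | a
  · unfold ee
    rw [E_row_zero, E_row_zero]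
    have h1 := MM_rat s k
    -- (k+1) M_s(k+1) = (s + k) M_s k = s M_{s+1} k
    have h3 : (s : ℚ) * MM (s + 1) k = ((s : ℚ) + k) * MM s k := by
      clear h1
      induction k with
      | zero => rw [MM_zero, MM_zero]; push_cast; ring
      | succ k ih =>
        rw [MM_up]
        have := MM_rat s k
        push_cast
        linarith
    push_cast
    rw [zero_mul, mul_zero, sub_zero, zero_add, h3]
    linarith
  · rw [Nat.add_sub_cancel]
    have h1 := ee_rec (s + 1) a k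
    have h2 := ee_sig s a (k + 1)
    have h3 := ee_sig s a k
    rw [sft_succ] at h2
    rw [ee_up, sft_succ, ee_up]
    push_cast at h1 ⊢
    linear_combination h1 - ((k : ℚ) + 1) * h2 - ((k : ℚ) + 1) * h3

/-- partial sums of a log-concave sequence. -/
lemma LS (c S : ℕ → ℚ) (hc : LC c) (hS : ∀ k, S k = c k + sft S k) (k i : ℕ) (hi : i ≤ k + 1) :
    c (k + 1) * sft S i ≤ c k * S i := by
  have hS0 : ∀ i, 0 ≤ S i := by
    intro i
    induction i with
    | zero => rw [hS, sft_zero, add_zero]; exact hc.1 0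
    | succ i ih => rw [hS, sft_succ]; exact add_nonneg (hc.1 _) ih
  induction i with
  | zero => rw [sft_zero, mul_zero]; exact mul_nonneg (hc.1 _) (hS0 _)
  | succ i ih =>
    have h1 := ih (by omega)
    have h2 := hc.2 i k (by omega)
    rw [sft_succ, hS (i + 1), sft_succ, hS i]
    rw [hS i] at h1
    nlinarith

lemma LSe (s a k i : ℕ) (hi : i ≤ k + 1) :
    ee s a (k + 1) * sft (ee (s + 1) a) i ≤ ee s a k * ee (s + 1) a i :=
  LS _ _ (ee_LC s a) (ee_sig s a) k i hi

/-- ratio in `a`, `s + 1` against `s`. -/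
lemma ratio (s a K : ℕ) :
    ee (s + 1) (a + 1) K * ee s a (K + 1) ≤ ee s (a + 1) (K + 1) * ee (s + 1) a K := by
  rw [ee_up, ee_up s a (K + 1), sft_succ]
  have := LSe s a K K (by omega)
  nlinarith

lemma rho6e (s b K : ℕ) :
    ee (s + 1) (b + 2) K * ee s b (K + 1) ≤ ee (s + 1) (b + 1) K * ee s (b + 1) (K + 1) := by
  rw [show b + 2 = (b + 1) + 1 from rfl, ee_up (s + 1) (b + 1) K, ee_up s b (K + 1), sft_succ,
    ee_up (s + 1) b K]
  have h1 := LSe s b K K (by omega)
  rcases K with _ | K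
  · rw [sft_zero, sft_zero, ee_idx_zero, ee_idx_zero]
    have := ee_nonneg s b 1
    norm_num
  · rw [sft_succ, sft_succ, ee_up]
    rw [sft_succ] at h1
    have h2 := LSe s b (K + 1) K (by omega)
    nlinarith

/-- (Y1) -/
lemma Y1 (s a K : ℕ) : (a * sft (ee (s + 1) (a - 1)) K) * ee s a (K + 1) ≤
    (a * ee s (a - 1) K) * ee (s + 1) a K := by
  rcases a with _ | a
  · simp
  · rw [Nat.add_sub_cancel]
    have h := LSe s a K K (by omega)
    rw [ee_up, sft_succ, ee_up]
    have ha : (0 : ℚ) ≤ ((a + 1 : ℕ) : ℚ) := by positivity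
    have : sft (ee (s + 1) a) K * (ee s a (K + 1) + ee s a K) ≤
        ee s a K * (ee (s + 1) a K + sft (ee (s + 1) a) K) := by nlinarith
    calc _ = ((a + 1 : ℕ) : ℚ) * (sft (ee (s + 1) a) K * (ee s a (K + 1) + ee s a K)) := by ring
      _ ≤ ((a + 1 : ℕ) : ℚ) * (ee s a K * (ee (s + 1) a K + sft (ee (s + 1) a) K)) :=
        mul_le_mul_of_nonneg_left this ha
      _ = _ := by ring

/-- (SL) -/
lemma SL (s a K : ℕ) :
    ((s : ℚ) + 1 + a) * (ee s a (K + 2) * ee (s + 2) a K) ≤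
      ((s : ℚ) + a) * ee (s + 1) a (K + 1) ^ 2 := by
  have d1 := ee_der s a (K + 1)
  have d2 := ee_der (s + 1) a K
  have y := Y1 (s + 1) a K
  rw [sft_succ] at d1
  have hz : 0 ≤ (a : ℚ) * ee (s + 1) (a - 1) K := mul_nonneg (by positivity) (ee_nonneg _ _ _)
  have hS := ee_nonneg (s + 2) a K
  generalize hz1 : (a : ℚ) * ee (s + 1) (a - 1) K = z at *
  generalize hz2 : (a : ℚ) * sft (ee (s + 1 + 1) (a - 1)) K = z' at *
  rw [show s + 1 + 1 = s + 2 from rfl] at *
  rw [show K + 1 + 1 = K + 2 from rfl] at d1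
  generalize ee (s + 2) a K = S at *
  generalize hA : ee (s + 1) a (K + 1) = A at *
  generalize ee s a (K + 2) = e0 at *
  push_cast at d1 d2
  have hK : (0 : ℚ) < (K : ℚ) + 2 := by positivity
  have hA0 : 0 ≤ A := by rw [← hA]; exact ee_nonneg _ _ _
  refine le_of_mul_le_mul_left ?_ hK
  have hs : (0 : ℚ) ≤ (s : ℚ) + a := by positivity
  -- (K+1) A^2 ≥ (a + s + 1) S A - 2 z S
  have k1 : ((a : ℚ) + (s + 1)) * S * A - 2 * (z * S) ≤ ((K : ℚ) + 1) * A ^ 2 := by
    have : ((K : ℚ) + 1) * A ^ 2 = (((a : ℚ) + (s + 1)) * S - 2 * z') * A := by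
      rw [← d2]; ring
    rw [this]
    nlinarith
  have k2 : ((K : ℚ) + 2) * (((s : ℚ) + 1 + a) * (e0 * S)) =
      ((s : ℚ) + a) * (((a : ℚ) + (s + 1)) * S * A - 2 * (z * S)) - 2 * (z * S) := by
    have e : ((K : ℚ) + 2) * e0 = ((a : ℚ) + s) * A - 2 * z := by linarith
    calc ((K : ℚ) + 2) * (((s : ℚ) + 1 + a) * (e0 * S))
        = ((s : ℚ) + 1 + a) * S * (((K : ℚ) + 2) * e0) := by ring
      _ = _ := by rw [e]; ring
  rw [k2]
  have hzS : 0 ≤ z * S := mul_nonneg hz hS
  have k3 : ((s : ℚ) + a) * (((a : ℚ) + (s + 1)) * S * A - 2 * (z * S)) ≤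
      ((s : ℚ) + a) * (((K : ℚ) + 1) * A ^ 2) := mul_le_mul_of_nonneg_left k1 hs
  have k4 : 0 ≤ ((s : ℚ) + a) * A ^ 2 := by positivity
  nlinarith

/-- (H1) for the coefficients. -/
lemma H1e (s a K : ℕ) :
    ((s : ℚ) + 1 + a) * (ee s a (K + 2) * ee (s + 2) (a + 1) K) ≤
      ((s : ℚ) + a) * (ee (s + 1) a (K + 1) * ee (s + 1) (a + 1) (K + 1)) := by
  have h1 := SL s a K
  have h2 := ratio (s + 1) a K
  have hA := ee_pos s a (K + 1)
  have h0 := ee_nonneg s a (K + 2)
  have hB := ee_nonneg (s + 1) (a + 1) (K + 1)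
  refine le_of_mul_le_mul_right ?_ hA
  have hc : (0 : ℚ) ≤ ((s : ℚ) + 1 + a) * ee s a (K + 2) := by positivity
  calc ((s : ℚ) + 1 + a) * (ee s a (K + 2) * ee (s + 2) (a + 1) K) * ee (s + 1) a (K + 1)
      = ((s : ℚ) + 1 + a) * ee s a (K + 2) * (ee (s + 2) (a + 1) K * ee (s + 1) a (K + 1)) := by
        ring
    _ ≤ ((s : ℚ) + 1 + a) * ee s a (K + 2) * (ee (s + 1) (a + 1) (K + 1) * ee (s + 2) a K) :=
        mul_le_mul_of_nonneg_left h2 hc
    _ = (((s : ℚ) + 1 + a) * (ee s a (K + 2) * ee (s + 2) a K)) * ee (s + 1) (a + 1) (K + 1) := by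
        ring
    _ ≤ (((s : ℚ) + a) * ee (s + 1) a (K + 1) ^ 2) * ee (s + 1) (a + 1) (K + 1) :=
        mul_le_mul_of_nonneg_right h1 hB
    _ = _ := by ring

/-- (Y2), one step. -/
lemma Y2step (s a K : ℕ) (ha : a + 1 ≤ s) :
    (a : ℚ) * ((s : ℚ) + a + 1) * (ee s (a - 1) K * ee s (a + 1) (K + 1)) ≤
      ((a : ℚ) + 1) * ((s : ℚ) + a) * (ee s a K * ee s a (K + 1)) := by
  rcases a with _ | a
  · have := mul_nonneg (ee_nonneg s 0 K) (ee_nonneg s 0 (K + 1))
    rw [Nat.cast_zero, zero_mul, zero_mul]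
    exact mul_nonneg (by positivity) this
  · rw [Nat.add_sub_cancel, ee_up s (a + 1) (K + 1), sft_succ, ee_up s a (K + 1), sft_succ,
      ee_up s a K]
    have r1 := ee_rec s a K
    have hp := sft_nonneg _ (ee_nonneg s a) K
    have hq := ee_nonneg s a K
    have hr := ee_nonneg s a (K + 1)
    have hsa : (a : ℚ) + 2 ≤ s := by exact_mod_cast ha
    have key : (K : ℚ) * ee s a K ^ 2 ≤ ((a : ℚ) + s) * (sft (ee s a) K * ee s a K) +
        ((K : ℚ) - 2 + s - a) * sft (ee s a) K ^ 2 := by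
      rcases K with _ | K
      · rw [sft_zero]; push_cast; simp
      · rw [sft_succ]
        have r2 := ee_rec s a K
        have o := sft_nonneg _ (ee_nonneg s a) K
        have lc : sft (ee s a) K * ee s a (K + 1) ≤ ee s a K ^ 2 := by
          rcases K with _ | K
          · rw [sft_zero, zero_mul]; positivity
          · rw [sft_succ]
            have := (ee_LC s a).2 K (K + 1) (by omega)
            rw [show K + 1 + 1 = K + 2 from rfl] at this ⊢
            nlinarith
        have hc : (0 : ℚ) ≤ (K : ℚ) - 1 + s - a := by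
          have : (0 : ℚ) ≤ K := by positivity
          linarith
        push_cast
        have e : ((K : ℚ) + 1) * ee s a (K + 1) ^ 2 =
            (((K : ℚ) + 1) * ee s a (K + 1)) * ee s a (K + 1) := by ring
        rw [e, r2]
        have := mul_le_mul_of_nonneg_left lc hc
        nlinarith
    generalize sft (ee s a) K = p at *
    generalize ee s a K = q at *
    generalize ee s a (K + 1) = r at *
    have hK : (0 : ℚ) ≤ K := by positivity
    have ha0 : (0 : ℚ) ≤ a := by positivity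
    have hK1 : (0 : ℚ) < (K : ℚ) + 1 := by positivity
    refine le_of_mul_le_mul_left ?_ hK1
    -- (K+1) p r ≥ K q² + p²
    have k1 : (K : ℚ) * q ^ 2 + p ^ 2 ≤ ((K : ℚ) + 1) * (p * r) := by
      have : ((K : ℚ) + 1) * (p * r) = p * (((K : ℚ) + 1) * r) := by ring
      rw [this, r1]
      nlinarith
    push_cast
    -- difference
    have hd : ((K : ℚ) + 1) * (((a : ℚ) + 1 + 1) * ((s : ℚ) + (a + 1)) * ((q + p) * (r + q))) -
        ((K : ℚ) + 1) * (((a : ℚ) + 1) * ((s : ℚ) + (a + 1) + 1) * (q * (r + q + (q + p)))) =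
        (q + p) * (s * (((K : ℚ) + 1) * r + ((K : ℚ) + 1) * q)) -
        ((a : ℚ) + 1) * ((s : ℚ) + (a + 1) + 1) * (((K : ℚ) + 1) * q ^ 2 - ((K : ℚ) + 1) * (p * r)) := by
      ring
    have hco : (0 : ℚ) ≤ ((a : ℚ) + 1) * ((s : ℚ) + (a + 1) + 1) := by positivity
    have k2 : ((a : ℚ) + 1) * ((s : ℚ) + (a + 1) + 1) *
        (((K : ℚ) + 1) * q ^ 2 - ((K : ℚ) + 1) * (p * r)) ≤
        ((a : ℚ) + 1) * ((s : ℚ) + (a + 1) + 1) * ((q + p) * (q - p)) := by
      refine mul_le_mul_of_nonneg_left ?_ hco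
      nlinarith
    have k3 : (0 : ℚ) ≤ (q + p) * (s * (((K : ℚ) + 1) * r + ((K : ℚ) + 1) * q)) -
        ((a : ℚ) + 1) * ((s : ℚ) + (a + 1) + 1) * ((q + p) * (q - p)) := by
      have e : (q + p) * (s * (((K : ℚ) + 1) * r + ((K : ℚ) + 1) * q)) -
        ((a : ℚ) + 1) * ((s : ℚ) + (a + 1) + 1) * ((q + p) * (q - p)) =
        (q + p) * (s * (((K : ℚ) + 1) * r + ((K : ℚ) + 1) * q) -
        ((a : ℚ) + 1) * ((s : ℚ) + (a + 1) + 1) * (q - p)) := by ring
      rw [e, r1]
      refine mul_nonneg (add_nonneg hq hp) ?_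
      have c1 : (0 : ℚ) ≤ s * ((a : ℚ) + s + K + 1) - ((a : ℚ) + 1) * ((s : ℚ) + (a + 1) + 1) := by
        nlinarith
      have c2 : (0 : ℚ) ≤ s * ((K : ℚ) - 1 + s - a) := by
        refine mul_nonneg (by positivity) ?_
        linarith
      have t1 := mul_nonneg c1 hq
      have t2 := mul_nonneg c2 hp
      have t3 := mul_nonneg hco hp
      nlinarith
    linarith

end Pool.Agent.Lib.H53M
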