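import Pool.Agent.Lib.H53M.PA

/-!
Helper file for MP_251428_co: three consecutive levels in the corner, abstract form.
-/

namespace Pool.Agent.Lib.H53M

open Finset

lemma Y2chain (s a' K d : ℕ) (h : a' + d ≤ s) :
    ((a' : ℚ) * ee s (a' - 1) K) * (((s : ℚ) + (a' + d : ℕ)) * ee s (a' + d) (K + 1)) ≤
      (((a' + d : ℕ) : ℚ) * ee s (a' + d - 1) K) * (((s : ℚ) + a') * ee s a' (K + 1)) := by
  induction d with
  | zero => simp
  | succ d ih =>
    have h1 := ih (by omega)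
    have h2 := Y2step s (a' + d) K (by omega)
    rcases s with _ | s
    · have ha : a' = 0 := by omega
      have hd : d + 1 = 0 := by omega
      omega
    have hA := ee_pos s (a' + d) (K + 1)
    have e1 : a' + (d + 1) - 1 = a' + d := by omega
    have e2 : a' + (d + 1) = a' + d + 1 := by omega
    rw [e1, e2]
    generalize ee (s + 1) (a' + d) (K + 1) = A at *
    generalize hA1 : ee (s + 1) (a' + d + 1) (K + 1) = A1 at *
    generalize ee (s + 1) (a' + d - 1) K = x at *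
    generalize hz : ee (s + 1) (a' - 1) K = y at *
    generalize ee (s + 1) (a' + d) K = x1 at *
    generalize hB : ee (s + 1) a' (K + 1) = B at *
    have hA1' : 0 ≤ A1 := by rw [← hA1]; exact ee_nonneg _ _ _
    have hB' : 0 ≤ B := by rw [← hB]; exact ee_nonneg _ _ _
    have hy : 0 ≤ y := by rw [← hz]; exact ee_nonneg _ _ _
    push_cast at *
    have hc : (0 : ℚ) < ((s : ℚ) + 1 + (a' + d)) * A := by positivity
    refine le_of_mul_le_mul_right ?_ hc
    have k1 := mul_le_mul_of_nonneg_right h1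
      (show (0 : ℚ) ≤ ((s : ℚ) + 1 + (a' + d) + 1) * A1 by positivity)
    have k2 := mul_le_mul_of_nonneg_right h2
      (show (0 : ℚ) ≤ ((s : ℚ) + 1 + a') * B by positivity)
    calc (a' : ℚ) * y * (((s : ℚ) + 1 + ((a' : ℚ) + d + 1)) * A1) * (((s : ℚ) + 1 + (a' + d)) * A)
        = (a' : ℚ) * y * (((s : ℚ) + 1 + (a' + d)) * A) * (((s : ℚ) + 1 + (a' + d) + 1) * A1) := by
          ring
      _ ≤ _ := k1
      _ = ((a' : ℚ) + d) * ((s : ℚ) + 1 + (a' + d) + 1) * (x * A1) * (((s : ℚ) + 1 + a') * B) := by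
          ring
      _ ≤ _ := k2
      _ = _ := by ring

/-- (Y) -/
lemma YY (s a' a K : ℕ) (h : a' ≤ a) (ha : a ≤ s) (hs : 1 ≤ s) :
    ((s : ℚ) + a) * ((a' * sft (ee (s + 1) (a' - 1)) K) * ee s a (K + 1)) ≤
      ((s : ℚ) + 1 + a') * ((a * ee s (a - 1) K) * ee (s + 1) a' K) := by
  obtain ⟨d, rfl⟩ : ∃ d, a = a' + d := ⟨a - a', by omega⟩
  obtain ⟨s, rfl⟩ : ∃ t, s = t + 1 := ⟨s - 1, by omega⟩
  have h1 := Y1 (s + 1) a' K
  have h2 := Y2chain (s + 1) a' K d ha
  have hB := ee_pos s a' (K + 1)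
  have hA := ee_nonneg (s + 1) (a' + d) (K + 1)
  have hS := ee_nonneg (s + 1 + 1) a' K
  have hz : 0 ≤ ((a' + d : ℕ) : ℚ) * ee (s + 1) (a' + d - 1) K :=
    mul_nonneg (by positivity) (ee_nonneg _ _ _)
  generalize (a' : ℚ) * sft (ee (s + 1 + 1) (a' - 1)) K = z' at *
  generalize ((a' + d : ℕ) : ℚ) * ee (s + 1) (a' + d - 1) K = z at *
  generalize (a' : ℚ) * ee (s + 1) (a' - 1) K = y at *
  generalize ee (s + 1) a' (K + 1) = B at *
  generalize ee (s + 1) (a' + d) (K + 1) = A at *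
  generalize ee (s + 1 + 1) a' K = S at *
  push_cast at *
  refine le_of_mul_le_mul_right ?_ hB
  have k1 := mul_le_mul_of_nonneg_left h1
    (show (0 : ℚ) ≤ ((s : ℚ) + 1 + (a' + d)) * A by positivity)
  have k2 := mul_le_mul_of_nonneg_right h2 hS
  have k3 : 0 ≤ z * B * S := by positivity
  calc ((s : ℚ) + 1 + (a' + d)) * (z' * A) * B
      = ((s : ℚ) + 1 + (a' + d)) * A * (z' * B) := by ring
    _ ≤ _ := k1
    _ = y * (((s : ℚ) + 1 + (a' + d)) * A) * S := by ring
    _ ≤ _ := k2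
    _ ≤ _ := by nlinarith

/-- (V9) -/
lemma V9 (s a a' K : ℕ) (h : a' ≤ a) (ha : a ≤ s) :
    ((s : ℚ) + 1) * ((s : ℚ) + 2 + a') * (ee s a (K + 2) * ee (s + 2) a' K) ≤
      ((s : ℚ) + 2) * ((s : ℚ) + 1 + a) * (ee (s + 1) a (K + 1) * ee (s + 1) a' (K + 1)) := by
  have d1 := ee_der s a (K + 1)
  have d2 := ee_der (s + 1) a' K
  have y := YY (s + 1) a' a K h (by omega) (by omega)
  rw [sft_succ] at d1
  rw [show K + 1 + 1 = K + 2 from rfl] at d1
  rw [show s + 1 + 1 = s + 2 from rfl] at *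
  have hz2 : 2 * ((a : ℚ) * ee (s + 1) (a - 1) K) ≤ a * ee (s + 1) a (K + 1) := by
    rcases a with _ | a
    · simp
    · rw [Nat.add_sub_cancel, ee_up, sft_succ]
      have := ee_mono s a K
      have ha0 : (0 : ℚ) ≤ ((a + 1 : ℕ) : ℚ) := by positivity
      nlinarith
  have hz : 0 ≤ (a : ℚ) * ee (s + 1) (a - 1) K := mul_nonneg (by positivity) (ee_nonneg _ _ _)
  have hS := ee_nonneg (s + 2) a' K
  have he := ee_nonneg s a (K + 2)
  have hA := ee_nonneg (s + 1) a (K + 1)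
  generalize (a : ℚ) * ee (s + 1) (a - 1) K = z at *
  generalize (a' : ℚ) * sft (ee (s + 2) (a' - 1)) K = z' at *
  generalize ee (s + 2) a' K = S at *
  generalize ee (s + 1) a (K + 1) = A at *
  generalize ee (s + 1) a' (K + 1) = B at *
  generalize ee s a (K + 2) = e0 at *
  push_cast at *
  have hK2 : (0 : ℚ) < ((K : ℚ) + 2) * (K + 1) := by positivity
  refine le_of_mul_le_mul_left ?_ hK2
  have hh : (a' : ℚ) ≤ a := by exact_mod_cast h
  have has : (a : ℚ) ≤ s := by exact_mod_cast ha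
  have ha'0 : (0 : ℚ) ≤ a' := by positivity
  have hK : (0 : ℚ) ≤ K := by positivity
  have hs0 : (0 : ℚ) ≤ s := by positivity
  -- Lt, Rt
  have eL : ((K : ℚ) + 2) * (K + 1) * (((s : ℚ) + 1) * ((s : ℚ) + 2 + a') * (e0 * S)) =
      ((K : ℚ) + 1) * (((s : ℚ) + 1) * ((s : ℚ) + 2 + a') * ((((a : ℚ) + s) * A - 2 * z) * S)) := by
    have e : ((K : ℚ) + 2) * e0 = ((a : ℚ) + s) * A - 2 * z := by linarith
    rw [← e]; ring
  have eR : ((K : ℚ) + 2) * (K + 1) * (((s : ℚ) + 2) * ((s : ℚ) + 1 + a) * (A * B)) =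
      ((K : ℚ) + 2) * (((s : ℚ) + 2) * ((s : ℚ) + 1 + a) * (A * (((a' : ℚ) + (s + 1)) * S - 2 * z')))
      := by
    rw [← d2]; ring
  rw [eL, eR]
  have hLt : 0 ≤ ((s : ℚ) + 1) * ((s : ℚ) + 2 + a') * ((((a : ℚ) + s) * A - 2 * z) * S) := by
    have e : ((a : ℚ) + s) * A - 2 * z = ((K : ℚ) + 2) * e0 := by linarith
    rw [e]; positivity
  have hLR : ((s : ℚ) + 1) * ((s : ℚ) + 2 + a') * ((((a : ℚ) + s) * A - 2 * z) * S) ≤
      ((s : ℚ) + 2) * ((s : ℚ) + 1 + a) * (A * (((a' : ℚ) + (s + 1)) * S - 2 * z')) := by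
    have c1 : ((s : ℚ) + 2) * (((s : ℚ) + 1 + a) * (z' * A)) ≤
        ((s : ℚ) + 2) * (((s : ℚ) + 1 + 1 + a') * (z * S)) :=
      mul_le_mul_of_nonneg_left y (by positivity)
    have c2 : 2 * z * S ≤ a * A * S := mul_le_mul_of_nonneg_right hz2 hS
    have c3 : ((s : ℚ) + 2 + a') * (2 * z * S) ≤ ((s : ℚ) + 2 + a') * (a * A * S) :=
      mul_le_mul_of_nonneg_left c2 (by positivity)
    have hAS : 0 ≤ A * S := mul_nonneg hA hS
    -- remaining coefficient of A S
    have c4 : (0 : ℚ) ≤ ((s : ℚ) + 2) * ((s : ℚ) + 1 + a) * ((a' : ℚ) + (s + 1)) -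
        ((s : ℚ) + 1) * ((s : ℚ) + 2 + a') * ((a : ℚ) + s) - ((s : ℚ) + 2 + a') * a := by
      have e : ((s : ℚ) + 2) * ((s : ℚ) + 1 + a) * ((a' : ℚ) + (s + 1)) -
        ((s : ℚ) + 1) * ((s : ℚ) + 2 + a') * ((a : ℚ) + s) - ((s : ℚ) + 2 + a') * a =
        2 * ((s : ℚ) + 1) * ((s : ℚ) + 2 + a') - ((s : ℚ) + 1 + a) * ((s : ℚ) + 2) := by ring
      rw [e]
      nlinarith
    have c5 := mul_nonneg c4 hAS
    nlinarith
  calc ((K : ℚ) + 1) * (((s : ℚ) + 1) * ((s : ℚ) + 2 + a') * ((((a : ℚ) + s) * A - 2 * z) * S))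
      ≤ ((K : ℚ) + 2) * (((s : ℚ) + 1) * ((s : ℚ) + 2 + a') * ((((a : ℚ) + s) * A - 2 * z) * S)) :=
        mul_le_mul_of_nonneg_right (by linarith) hLt
    _ ≤ _ := mul_le_mul_of_nonneg_left hLR (by positivity)

/-- the terms. -/
def fT (β s b K : ℕ) : ℚ := ((β + b).choose b : ℚ) * ee s b K

lemma fT_nonneg (β s b K : ℕ) : 0 ≤ fT β s b K :=
  mul_nonneg (by positivity) (ee_nonneg _ _ _)

lemma fT_pos (β s b K : ℕ) : 0 < fT β (s + 1) b K := by
  refine mul_pos ?_ (ee_pos _ _ _)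
  have : 0 < (β + b).choose b := Nat.choose_pos (by omega)
  exact_mod_cast this

lemma binA (β a : ℕ) : ((β + 1 + a).choose a : ℚ) * (β + 1) = ((β + a).choose a : ℚ) * (β + 1 + a) := by
  have := q1 (β + a) a
  have e : β + a + 1 = β + 1 + a := by omega
  rw [e] at this
  push_cast at this
  have e2 : (β : ℚ) + a + 1 - a = β + 1 := by ring
  rw [e2] at this
  rw [← this]; ring

lemma binB (β b : ℕ) : ((β + 1 + b).choose (b + 1) : ℚ) * (b + 1) =
    ((β + b).choose b : ℚ) * (β + 1 + b) := by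
  have := q2 (β + b) b
  have e : β + b + 1 = β + 1 + b := by omega
  rw [e] at this
  push_cast at this
  rw [this]; ring

lemma H1t (β s a K : ℕ) (C1 : ((β : ℚ) + 1) * (β + 3 + a) * (s + a) ≤
    ((β : ℚ) + 1 + a) * (β + 2) * (s + a + 1)) :
    fT β s a (K + 2) * fT (β + 2) (s + 2) (a + 1) K ≤
      fT (β + 1) (s + 1) (a + 1) (K + 1) * fT (β + 1) (s + 1) a (K + 1) := by
  unfold fT
  have h1 := H1e s a K
  have b1 := binA β a
  have b2 := binA (β + 1) (a + 1)
  have n0 := ee_nonneg s a (K + 2)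
  have n1 := ee_nonneg (s + 1) a (K + 1)
  have n2 := ee_nonneg (s + 1) (a + 1) (K + 1)
  have n3 := ee_nonneg (s + 2) (a + 1) K
  rw [show β + 1 + 1 = β + 2 from rfl] at b2
  have hP : (0 : ℚ) ≤ ((β + a).choose a : ℚ) := by positivity
  have hQ : (0 : ℚ) ≤ ((β + 1 + a).choose a : ℚ) := by positivity
  have hR : (0 : ℚ) ≤ ((β + 1 + (a + 1)).choose (a + 1) : ℚ) := by positivity
  generalize ((β + a).choose a : ℚ) = P at *
  generalize ((β + 1 + a).choose a : ℚ) = Q at *
  generalize ((β + 1 + (a + 1)).choose (a + 1) : ℚ) = R at *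
  generalize ((β + 2 + (a + 1)).choose (a + 1) : ℚ) = T at *
  generalize ee s a (K + 2) = e0 at *
  generalize ee (s + 1) a (K + 1) = e1 at *
  generalize ee (s + 1) (a + 1) (K + 1) = e2 at *
  generalize ee (s + 2) (a + 1) K = e3 at *
  push_cast at b1 b2
  have hc : (0 : ℚ) < ((β : ℚ) + 1 + a) * (β + 2) * (s + a + 1) := by positivity
  refine le_of_mul_le_mul_right ?_ hc
  calc P * e0 * (T * e3) * (((β : ℚ) + 1 + a) * (β + 2) * (s + a + 1))
      = (P * (β + 1 + a)) * (T * (β + 2)) * (((s : ℚ) + 1 + a) * (e0 * e3)) := by ring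
    _ = (Q * (β + 1)) * (R * (β + 3 + a)) * (((s : ℚ) + 1 + a) * (e0 * e3)) := by
        rw [← b1]
        have : T * ((β : ℚ) + 2) = R * (β + 3 + a) := by
          have e : (β : ℚ) + 2 = β + 1 + 1 := by ring
          rw [e, b2]; ring
        rw [this]
    _ ≤ (Q * (β + 1)) * (R * (β + 3 + a)) * (((s : ℚ) + a) * (e1 * e2)) :=
        mul_le_mul_of_nonneg_left h1 (by positivity)
    _ = (Q * R * (e1 * e2)) * (((β : ℚ) + 1) * (β + 3 + a) * (s + a)) := by ring
    _ ≤ (Q * R * (e1 * e2)) * (((β : ℚ) + 1 + a) * (β + 2) * (s + a + 1)) :=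
        mul_le_mul_of_nonneg_left C1 (by positivity)
    _ = _ := by ring

lemma H2t (β s a a' K : ℕ) (h : a' ≤ a) (ha : a ≤ s)
    (C2 : ((β : ℚ) + 1) * (β + 2 + a') * ((s + 2) * (s + 1 + a)) ≤
    ((β : ℚ) + 1 + a) * (β + 2) * ((s + 1) * (s + 2 + a'))) :
    fT β s a (K + 2) * fT (β + 2) (s + 2) a' K ≤
      fT (β + 1) (s + 1) a (K + 1) * fT (β + 1) (s + 1) a' (K + 1) := by
  unfold fT
  have h1 := V9 s a a' K h ha
  have b1 := binA β a
  have b2 := binA (β + 1) a'
  have n0 := ee_nonneg s a (K + 2)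
  have n1 := ee_nonneg (s + 1) a (K + 1)
  have n2 := ee_nonneg (s + 1) a' (K + 1)
  have n3 := ee_nonneg (s + 2) a' K
  rw [show β + 1 + 1 = β + 2 from rfl] at b2
  have hQ : (0 : ℚ) ≤ ((β + 1 + a).choose a : ℚ) := by positivity
  have hR : (0 : ℚ) ≤ ((β + 1 + a').choose a' : ℚ) := by positivity
  generalize ((β + a).choose a : ℚ) = P at *
  generalize ((β + 1 + a).choose a : ℚ) = Q at *
  generalize ((β + 1 + a').choose a' : ℚ) = R at *
  generalize ((β + 2 + a').choose a' : ℚ) = T at *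
  generalize ee s a (K + 2) = e0 at *
  generalize ee (s + 1) a (K + 1) = e1 at *
  generalize ee (s + 1) a' (K + 1) = e2 at *
  generalize ee (s + 2) a' K = e3 at *
  push_cast at b1 b2
  have hc : (0 : ℚ) < ((β : ℚ) + 1 + a) * (β + 2) * ((s + 1) * (s + 2 + a')) := by positivity
  refine le_of_mul_le_mul_right ?_ hc
  calc P * e0 * (T * e3) * (((β : ℚ) + 1 + a) * (β + 2) * ((s + 1) * (s + 2 + a')))
      = (P * (β + 1 + a)) * (T * (β + 2)) * (((s : ℚ) + 1) * (s + 2 + a') * (e0 * e3)) := by ring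
    _ = (Q * (β + 1)) * (R * (β + 2 + a')) * (((s : ℚ) + 1) * (s + 2 + a') * (e0 * e3)) := by
        rw [← b1]
        have : T * ((β : ℚ) + 2) = R * (β + 2 + a') := by
          have e : (β : ℚ) + 2 = β + 1 + 1 := by ring
          rw [e, b2]
        rw [this]
    _ ≤ (Q * (β + 1)) * (R * (β + 2 + a')) * (((s : ℚ) + 2) * (s + 1 + a) * (e1 * e2)) :=
        mul_le_mul_of_nonneg_left h1 (by positivity)
    _ = (Q * R * (e1 * e2)) * (((β : ℚ) + 1) * (β + 2 + a') * ((s + 2) * (s + 1 + a))) := by ring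
    _ ≤ (Q * R * (e1 * e2)) * (((β : ℚ) + 1 + a) * (β + 2) * ((s + 1) * (s + 2 + a'))) :=
        mul_le_mul_of_nonneg_left C2 (by positivity)
    _ = _ := by ring

lemma R6t (β s b K : ℕ) (hb : b ≤ β) :
    fT (β + 2) (s + 2) (b + 2) K * fT (β + 1) (s + 1) b (K + 1) ≤
      fT (β + 2) (s + 2) (b + 1) K * fT (β + 1) (s + 1) (b + 1) (K + 1) := by
  unfold fT
  have h1 := rho6e (s + 1) b K
  rw [show s + 1 + 1 = s + 2 from rfl] at h1
  have b1 := binB (β + 1) b
  have b2 := binB (β + 2) (b + 1)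
  have n1 := ee_nonneg (s + 1) b (K + 1)
  have n2 := ee_nonneg (s + 1) (b + 1) (K + 1)
  have n3 := ee_nonneg (s + 2) (b + 1) K
  have n4 := ee_nonneg (s + 2) (b + 2) K
  have i1 : β + 1 + 1 + b = β + 1 + (b + 1) := by omega
  have i2 : β + 2 + 1 + (b + 1) = β + 2 + (b + 2) := by omega
  rw [i1] at b1
  rw [i2, show b + 1 + 1 = b + 2 from rfl] at b2
  have hQ : (0 : ℚ) ≤ ((β + 1 + (b + 1)).choose (b + 1) : ℚ) := by positivity
  have hT : (0 : ℚ) ≤ ((β + 2 + (b + 1)).choose (b + 1) : ℚ) := by positivity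
  have hR : (0 : ℚ) ≤ ((β + 1 + b).choose b : ℚ) := by positivity
  have hZ : (0 : ℚ) ≤ ((β + 2 + (b + 2)).choose (b + 2) : ℚ) := by positivity
  generalize ((β + 1 + b).choose b : ℚ) = R at *
  generalize ((β + 1 + (b + 1)).choose (b + 1) : ℚ) = Q at *
  generalize ((β + 2 + (b + 1)).choose (b + 1) : ℚ) = T at *
  generalize ((β + 2 + (b + 2)).choose (b + 2) : ℚ) = Z at *
  generalize ee (s + 1) b (K + 1) = e1 at *
  generalize ee (s + 1) (b + 1) (K + 1) = e2 at *
  generalize ee (s + 2) (b + 1) K = e3 at *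
  generalize ee (s + 2) (b + 2) K = e4 at *
  push_cast at b1 b2
  have hbβ : (b : ℚ) ≤ β := by exact_mod_cast hb
  have hc : (0 : ℚ) < ((b : ℚ) + 2) * (β + 2 + b) := by positivity
  refine le_of_mul_le_mul_right ?_ hc
  have c1 : ((β : ℚ) + 4 + b) * (b + 1) ≤ ((b : ℚ) + 2) * (β + 2 + b) := by nlinarith
  calc Z * e4 * (R * e1) * (((b : ℚ) + 2) * (β + 2 + b))
      = (Z * (b + 2)) * (R * (β + 2 + b)) * (e4 * e1) := by ring
    _ = (T * (β + 4 + b)) * (Q * (b + 1)) * (e4 * e1) := by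
        have t1 : Z * ((b : ℚ) + 2) = T * (β + 4 + b) := by
          have e : (b : ℚ) + 2 = b + 1 + 1 := by ring
          rw [e, b2]; ring
        have t2 : R * ((β : ℚ) + 2 + b) = Q * (b + 1) := by rw [b1]; ring
        rw [t1, t2]
    _ ≤ (T * (β + 4 + b)) * (Q * (b + 1)) * (e3 * e2) :=
        mul_le_mul_of_nonneg_left h1 (by positivity)
    _ = (T * Q * (e3 * e2)) * (((β : ℚ) + 4 + b) * (b + 1)) := by ring
    _ ≤ (T * Q * (e3 * e2)) * (((b : ℚ) + 2) * (β + 2 + b)) :=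
        mul_le_mul_of_nonneg_left c1 (by positivity)
    _ = _ := by ring

lemma H3t (β s a K d : ℕ) (hb : a + d ≤ β + 1) (C1 : ((β : ℚ) + 1) * (β + 3 + a) * (s + a) ≤
    ((β : ℚ) + 1 + a) * (β + 2) * (s + a + 1)) :
    fT β s a (K + 2) * fT (β + 2) (s + 2) (a + d + 1) K ≤
      fT (β + 1) (s + 1) (a + 1) (K + 1) * fT (β + 1) (s + 1) (a + d) (K + 1) := by
  induction d with
  | zero => exact H1t β s a K C1
  | succ d ih =>
    have h1 := ih (by omega)
    have h2 := R6t β s (a + d) K (by omega)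
    have hv := fT_pos (β + 1) s (a + d) (K + 1)
    have n0 := fT_nonneg β s a (K + 2)
    have n1 := fT_nonneg (β + 1) (s + 1) (a + d + 1) (K + 1)
    rw [show a + (d + 1) = a + d + 1 from rfl, show a + d + 1 + 1 = a + d + 2 from rfl]
    refine le_of_mul_le_mul_right ?_ hv
    calc fT β s a (K + 2) * fT (β + 2) (s + 2) (a + d + 2) K * fT (β + 1) (s + 1) (a + d) (K + 1)
        = fT β s a (K + 2) * (fT (β + 2) (s + 2) (a + d + 2) K *
            fT (β + 1) (s + 1) (a + d) (K + 1)) := by ring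
      _ ≤ fT β s a (K + 2) * (fT (β + 2) (s + 2) (a + d + 1) K *
            fT (β + 1) (s + 1) (a + d + 1) (K + 1)) := mul_le_mul_of_nonneg_left h2 n0
      _ = (fT β s a (K + 2) * fT (β + 2) (s + 2) (a + d + 1) K) *
            fT (β + 1) (s + 1) (a + d + 1) (K + 1) := by ring
      _ ≤ _ := mul_le_mul_of_nonneg_right h1 n1
      _ = _ := by ring

/-- sums of pairs. -/
lemma pair3 (n : ℕ) (U V W : ℕ → ℚ) (hU : ∀ i, 0 ≤ U i) (hV : ∀ i, 0 ≤ V i) (hW : ∀ i, 0 ≤ W i)
    (h1 : ∀ c, c ≤ n → U c * W (c + 1) ≤ V c * V (c + 1))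
    (h2 : ∀ p q, p < q → q ≤ n → U p * W (q + 1) ≤ V (p + 1) * V q)
    (h3 : ∀ p q, p ≤ q → q ≤ n → U q * W p ≤ V q * V p) :
    (∑ p ∈ range (n + 1), U p) * (∑ q ∈ range (n + 2), W q) ≤
      (∑ p ∈ range (n + 1), V p) * (∑ q ∈ range (n + 2), V q) := by
  have k := pair_sum n U (fun q => W (q + 1)) V (fun q => V (q + 1)) (by
    intro p q hpq hq
    show U p * W (q + 1) + U q * W (p + 1) ≤ V p * V (q + 1) + V q * V (p + 1)
    rcases Nat.eq_or_lt_of_le hpq with rfl | hlt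
    · have := h1 p hq
      linarith
    · have x := h2 p q hlt hq
      have y := h3 (p + 1) q (by omega) hq
      have c1 := h1 p (by omega)
      have c2 := h1 q hq
      have nX := mul_nonneg (hU p) (hW (q + 1))
      have nY := mul_nonneg (hU q) (hW (p + 1))
      have nZ := mul_nonneg (hV p) (hV (q + 1))
      have nM := mul_nonneg (hV (p + 1)) (hV q)
      have xy : (U p * W (q + 1)) * (U q * W (p + 1)) ≤ (V p * V (q + 1)) * (V (p + 1) * V q) := by
        have := mul_le_mul c1 c2 (mul_nonneg (hU q) (hW (q + 1)))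
          (mul_nonneg (hV p) (hV (p + 1)))
        calc _ = U p * W (p + 1) * (U q * W (q + 1)) := by ring
          _ ≤ _ := this
          _ = _ := by ring
      have y' : U q * W (p + 1) ≤ V (p + 1) * V q := by rw [mul_comm (V (p + 1))]; exact y
      have e : V q * V (p + 1) = V (p + 1) * V q := mul_comm _ _
      rw [e]
      generalize U p * W (q + 1) = X at *
      generalize U q * W (p + 1) = Y at *
      generalize V p * V (q + 1) = Z at *
      generalize V (p + 1) * V q = M at *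
      rcases eq_or_lt_of_le nM with hM | hM
      · have hX : X ≤ 0 := by rw [hM]; exact x
        have hY : Y ≤ 0 := by rw [hM]; exact y'
        linarith
      · refine le_of_mul_le_mul_right ?_ hM
        nlinarith [mul_nonneg (sub_nonneg.2 x) (sub_nonneg.2 y')])
  rw [sum_range_succ' W (n + 1), sum_range_succ' V (n + 1), mul_add, mul_add]
  refine add_le_add k ?_
  rw [sum_mul, sum_mul]
  refine sum_le_sum fun p hp => ?_
  have hp' : p ≤ n := by have := mem_range.1 hp; omega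
  exact h3 0 p (by omega) hp'

/-- three consecutive levels. -/
theorem level3 (β s j K : ℕ) (om : ℕ → ℚ) (hom : LC om) (hj : j ≤ β) (hjs : j ≤ s)
    (C1 : ∀ a : ℕ, a ≤ j → ((β : ℚ) + 1) * (β + 3 + a) * (s + a) ≤
      ((β : ℚ) + 1 + a) * (β + 2) * (s + a + 1))
    (C2 : ∀ a a' : ℕ, a' ≤ a → a ≤ j → ((β : ℚ) + 1) * (β + 2 + a') * ((s + 2) * (s + 1 + a)) ≤
      ((β : ℚ) + 1 + a) * (β + 2) * ((s + 1) * (s + 2 + a'))) :
    (∑ q ∈ range (j + 1), om q * fT β s (j - q) (K + 2)) *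
      (∑ q ∈ range (j + 3), om q * fT (β + 2) (s + 2) (j + 2 - q) K) ≤
      (∑ q ∈ range (j + 2), om q * fT (β + 1) (s + 1) (j + 1 - q) (K + 1)) ^ 2 := by
  obtain ⟨hom0, hom1⟩ := hom
  set U : ℕ → ℚ := fun q => if q ≤ j then om q * fT β s (j - q) (K + 2) else 0 with hUdef
  set V : ℕ → ℚ := fun q => if q ≤ j + 1 then om q * fT (β + 1) (s + 1) (j + 1 - q) (K + 1) else 0
    with hVdef
  set W : ℕ → ℚ := fun q => if q ≤ j + 2 then om q * fT (β + 2) (s + 2) (j + 2 - q) K else 0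
    with hWdef
  have hU : ∀ i, 0 ≤ U i := by
    intro i; simp only [hUdef]; split_ifs
    · exact mul_nonneg (hom0 _) (fT_nonneg _ _ _ _)
    · exact le_refl _
  have hV : ∀ i, 0 ≤ V i := by
    intro i; simp only [hVdef]; split_ifs
    · exact mul_nonneg (hom0 _) (fT_nonneg _ _ _ _)
    · exact le_refl _
  have hW : ∀ i, 0 ≤ W i := by
    intro i; simp only [hWdef]; split_ifs
    · exact mul_nonneg (hom0 _) (fT_nonneg _ _ _ _)
    · exact le_refl _
  have key := pair3 (j + 1) U V W hU hV hW ?_ ?_ ?_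
  · have eU : ∑ p ∈ range (j + 1 + 1), U p = ∑ q ∈ range (j + 1), om q * fT β s (j - q) (K + 2) := by
      rw [sum_range_succ]
      have : U (j + 1) = 0 := by simp only [hUdef]; rw [if_neg (by omega)]
      rw [this, add_zero]
      refine sum_congr rfl fun q hq => ?_
      simp only [hUdef]; rw [if_pos (by have := mem_range.1 hq; omega)]
    have eW : ∑ p ∈ range (j + 1 + 2), W p =
        ∑ q ∈ range (j + 3), om q * fT (β + 2) (s + 2) (j + 2 - q) K := by
      refine sum_congr rfl fun q hq => ?_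
      simp only [hWdef]; rw [if_pos (by have := mem_range.1 hq; omega)]
    have eV : ∑ p ∈ range (j + 1 + 1), V p =
        ∑ q ∈ range (j + 2), om q * fT (β + 1) (s + 1) (j + 1 - q) (K + 1) := by
      refine sum_congr rfl fun q hq => ?_
      simp only [hVdef]; rw [if_pos (by have := mem_range.1 hq; omega)]
    have eV2 : ∑ p ∈ range (j + 1 + 2), V p = ∑ p ∈ range (j + 1 + 1), V p := by
      rw [sum_range_succ]
      have : V (j + 1 + 1) = 0 := by simp only [hVdef]; rw [if_neg (by omega)]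
      rw [this, add_zero]
    rw [eU, eW, eV2, eV] at key
    rw [sq]; exact key
  · intro c hc
    rcases Nat.lt_or_ge j c with h | h
    · have : U c = 0 := by simp only [hUdef]; rw [if_neg (by omega)]
      rw [this, zero_mul]; exact mul_nonneg (hV _) (hV _)
    · simp only [hUdef, hVdef, hWdef]
      rw [if_pos h, if_pos (by omega), if_pos (by omega), if_pos (by omega)]
      obtain ⟨a, ha⟩ : ∃ a, j = c + a := ⟨j - c, by omega⟩
      have e1 : j - c = a := by omega
      have e2 : j + 2 - (c + 1) = a + 1 := by omega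
      have e3 : j + 1 - c = a + 1 := by omega
      have e4 : j + 1 - (c + 1) = a := by omega
      rw [e1, e2, e3, e4]
      have t := H1t β s a K (C1 a (by omega))
      have o := mul_nonneg (hom0 c) (hom0 (c + 1))
      calc _ = (om c * om (c + 1)) * (fT β s a (K + 2) * fT (β + 2) (s + 2) (a + 1) K) := by ring
        _ ≤ _ := mul_le_mul_of_nonneg_left t o
        _ = _ := by ring
  · intro p q hpq hq
    simp only [hUdef, hVdef, hWdef]
    rw [if_pos (by omega), if_pos (by omega), if_pos (by omega), if_pos (by omega)]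
    obtain ⟨a, ha⟩ : ∃ a, j = p + a := ⟨j - p, by omega⟩
    obtain ⟨a', ha'⟩ : ∃ a', j + 1 = q + a' := ⟨j + 1 - q, by omega⟩
    have e1 : j - p = a := by omega
    have e2 : j + 2 - (q + 1) = a' := by omega
    have e3 : j + 1 - (p + 1) = a := by omega
    have e4 : j + 1 - q = a' := by omega
    rw [e1, e2, e3, e4]
    have t := H2t β s a a' K (by omega) (by omega) (C2 a a' (by omega) (by omega))
    have o := hom1 p q (by omega)
    have o1 := mul_nonneg (hom0 p) (hom0 (q + 1))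
    have f1 := mul_nonneg (fT_nonneg (β + 1) (s + 1) a (K + 1)) (fT_nonneg (β + 1) (s + 1) a' (K + 1))
    calc _ = (om p * om (q + 1)) * (fT β s a (K + 2) * fT (β + 2) (s + 2) a' K) := by ring
      _ ≤ (om p * om (q + 1)) * (fT (β + 1) (s + 1) a (K + 1) * fT (β + 1) (s + 1) a' (K + 1)) :=
        mul_le_mul_of_nonneg_left t o1
      _ ≤ (om (p + 1) * om q) * (fT (β + 1) (s + 1) a (K + 1) * fT (β + 1) (s + 1) a' (K + 1)) :=
        mul_le_mul_of_nonneg_right o f1
      _ = _ := by ring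
  · intro p q hpq hq
    rcases Nat.lt_or_ge j q with h | h
    · have : U q = 0 := by simp only [hUdef]; rw [if_neg (by omega)]
      rw [this, zero_mul]; exact mul_nonneg (hV _) (hV _)
    · simp only [hUdef, hVdef, hWdef]
      rw [if_pos h, if_pos (by omega), if_pos (by omega), if_pos (by omega)]
      obtain ⟨a, ha⟩ : ∃ a, j = q + a := ⟨j - q, by omega⟩
      obtain ⟨d, hd⟩ : ∃ d, j + 1 = p + (a + d) := ⟨j + 1 - p - a, by omega⟩
      have e1 : j - q = a := by omega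
      have e2 : j + 2 - p = a + d + 1 := by omega
      have e3 : j + 1 - q = a + 1 := by omega
      have e4 : j + 1 - p = a + d := by omega
      rw [e1, e2, e3, e4]
      have t := H3t β s a K d (by omega) (C1 a (by omega))
      have o := mul_nonneg (hom0 q) (hom0 p)
      calc _ = (om q * om p) * (fT β s a (K + 2) * fT (β + 2) (s + 2) (a + d + 1) K) := by ring
        _ ≤ _ := mul_le_mul_of_nonneg_left t o
        _ = _ := by ring

end Pool.Agent.Lib.H53M
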