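import Pool.Agent.Lib.H53M.PB
import Pool.Agent.Lib.H53M.Arr

/-!
Helper file for MP_251428_co: the corner form of the coefficients.
-/

namespace Pool.Agent.Lib.H53M

open Finset

lemma MM_vm (A B J : ℕ) : ∑ t ∈ range (J + 1), MM A t * MM B (J - t) = MM (A + B) J := by
  induction A generalizing J with
  | zero =>
    rw [sum_range_succ', sum_eq_zero]
    · rw [MM_zero, Nat.sub_zero]; simp
    · intro t _
      have : MM 0 (t + 1) = 0 := by unfold MM; simp
      rw [this, zero_mul]
  | succ A ih =>
    induction J with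
    | zero => simp [MM_zero]
    | succ J ihJ =>
      have h1 := ih (J + 1)
      rw [sum_range_succ'] at h1 ⊢
      have e : ∑ t ∈ range (J + 1), MM (A + 1) (t + 1) * MM B (J + 1 - (t + 1)) =
          ∑ t ∈ range (J + 1), MM A (t + 1) * MM B (J + 1 - (t + 1)) +
          ∑ t ∈ range (J + 1), MM (A + 1) t * MM B (J - t) := by
        rw [← sum_add_distrib]
        refine sum_congr rfl fun t _ => ?_
        rw [MM_up]
        have : J + 1 - (t + 1) = J - t := by omega
        rw [this]; ring
      rw [e, ihJ]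
      have e2 : A + 1 + B = A + B + 1 := by omega
      rw [e2, MM_up, ← h1, MM_zero, MM_zero]
      ring

lemma MM_choose (s i : ℕ) : MM (s + 1) i = ((s + i).choose i : ℚ) := by
  unfold MM
  rw [Nat.multichoose_eq]
  have : s + 1 + i - 1 = s + i := by omega
  rw [this]

lemma trinom (k p t : ℕ) : ((k + (p + t)).choose (p + t) : ℚ) * ((p + t).choose p : ℚ) =
    ((k + p).choose p : ℚ) * ((k + p + t).choose t : ℚ) := by
  have h1 : (k + (p + t)).choose (p + t) * (p + t).choose t =
      (k + (p + t)).choose t * (k + (p + t) - t).choose (p + t - t) :=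
    Nat.choose_mul (by omega)
  have e1 : k + (p + t) - t = k + p := by omega
  have e2 : p + t - t = p := by omega
  have e3 : k + (p + t) = k + p + t := by omega
  have e4 : (p + t).choose t = (p + t).choose p := by
    have := Nat.choose_symm_add (a := p) (b := t)
    exact this.symm
  rw [e1, e2, e4, e3] at h1
  rw [e3]
  have h2 : (((k + p + t).choose (p + t) * (p + t).choose p : ℕ) : ℚ) =
      (((k + p + t).choose t * (k + p).choose p : ℕ) : ℚ) := by rw [h1]
  push_cast at h2
  rw [h2]; ring

lemma JJ (k R m j p : ℕ) (hm : j + k + R = m) (hp : p ≤ j) :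
    (m.choose (j - p) : ℚ) * ((k + p).choose p : ℚ) =
    ∑ a ∈ range (j + 1), ((k + a).choose a : ℚ) * (a.choose p : ℚ) * MM R (j - a) := by
  have e : j + 1 = p + (j - p + 1) := by omega
  rw [e, sum_range_add, sum_eq_zero, zero_add]
  · have h1 : ∀ t ∈ range (j - p + 1), ((k + (p + t)).choose (p + t) : ℚ) * ((p + t).choose p : ℚ) *
        MM R (j - (p + t)) = ((k + p).choose p : ℚ) * (MM (k + p + 1) t * MM R (j - p - t)) := by
      intro t _
      rw [trinom, MM_choose]
      have : j - (p + t) = j - p - t := by omega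
      rw [this]; ring
    rw [sum_congr rfl h1, ← mul_sum, MM_vm]
    have e2 : k + p + 1 + R = (k + p + R) + 1 := by omega
    rw [e2, MM_choose]
    have e3 : k + p + R + (j - p) = m := by omega
    rw [e3]; ring
  · intro a ha
    have : a < p := mem_range.1 ha
    rw [Nat.choose_eq_zero_of_lt this]; simp

lemma inner (l n j a : ℕ) (hl : l ≤ n) (ha : a ≤ j) :
    ∑ p ∈ range (j + 1), (if p ≤ n then ((n - p).choose l : ℚ) else 0) * (a.choose p : ℚ) =
      ee (l + 1) a (n - l) := by
  have h1 : ∑ p ∈ range (j + 1), (if p ≤ n then ((n - p).choose l : ℚ) else 0) * (a.choose p : ℚ) =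
      ∑ p ∈ range (n + j + 1), (if p ≤ n then ((n - p).choose l : ℚ) else 0) * (a.choose p : ℚ) := by
    refine sum_subset (range_subset_range.2 (by omega)) fun p _ hp => ?_
    have : a < p := by by_contra hc; apply hp; rw [mem_range]; omega
    rw [Nat.choose_eq_zero_of_lt this]; simp
  have h2 : ∑ p ∈ range (n - l + 1), (if p ≤ n then ((n - p).choose l : ℚ) else 0) *
      (a.choose p : ℚ) =
      ∑ p ∈ range (n + j + 1), (if p ≤ n then ((n - p).choose l : ℚ) else 0) * (a.choose p : ℚ) := by
    refine sum_subset (range_subset_range.2 (by omega)) fun p _ hp => ?_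
    have hp' : n - l < p := by by_contra hc; apply hp; rw [mem_range]; omega
    split_ifs with h
    · rw [Nat.choose_eq_zero_of_lt (by omega : n - p < l)]; simp
    · simp
  rw [h1, ← h2]
  unfold ee E
  rw [← sum_range_reflect]
  refine sum_congr rfl fun p hp => ?_
  have hp' : p ≤ n - l := by have := mem_range.1 hp; omega
  have e0 : n - l + 1 - 1 - p = n - l - p := by omega
  rw [e0, if_pos (by omega), MM_choose]
  have e2 : n - (n - l - p) = l + p := by omega
  have e3 : (l + p).choose l = (l + p).choose p := by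
    have := Nat.choose_symm_add (a := l) (b := p)
    exact this
  rw [e2, e3]

/-- corner form. -/
theorem corner (k l n m j R : ℕ) (hm : j + k + R = m) (hl : l ≤ n) :
    E (KK k l n) m j = ∑ q ∈ range (j + 1), MM R q * (((k + (j - q)).choose (j - q) : ℚ) *
      ee (l + 1) (j - q) (n - l)) := by
  have h0 : E (KK k l n) m j = ∑ p ∈ range (j + 1), ∑ a ∈ range (j + 1),
      (if p ≤ n then ((n - p).choose l : ℚ) else 0) * (a.choose p : ℚ) *
        (((k + a).choose a : ℚ) * MM R (j - a)) := by
    unfold E
    refine sum_congr rfl fun p hp => ?_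
    have hp' : p ≤ j := by have := mem_range.1 hp; omega
    have h1 := JJ k R m j p hm hp'
    have e1 : KK k l n p = (if p ≤ n then ((n - p).choose l : ℚ) else 0) *
        ((k + p).choose p : ℚ) := by
      unfold KK
      have : (k + p).choose k = (k + p).choose p := by
        have := Nat.choose_symm_add (a := k) (b := p)
        exact this
      split_ifs
      · rw [this]
      · simp
    rw [e1, mul_assoc, mul_comm ((k + p).choose p : ℚ), h1, mul_sum]
    refine sum_congr rfl fun a _ => ?_
    ring
  rw [h0, sum_comm]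
  have h2 : ∀ a ∈ range (j + 1), ∑ p ∈ range (j + 1),
      (if p ≤ n then ((n - p).choose l : ℚ) else 0) * (a.choose p : ℚ) *
        (((k + a).choose a : ℚ) * MM R (j - a)) =
      ee (l + 1) a (n - l) * (((k + a).choose a : ℚ) * MM R (j - a)) := by
    intro a ha
    rw [← sum_mul, inner l n j a hl (by have := mem_range.1 ha; omega)]
  rw [sum_congr rfl h2, ← sum_range_reflect]
  refine sum_congr rfl fun q hq => ?_
  have hq' : q ≤ j := by have := mem_range.1 hq; omega
  have e0 : j + 1 - 1 - q = j - q := by omega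
  have e1 : j - (j - q) = q := by omega
  rw [e0, e1]
  ring

/-- vertical lines beyond the middle one. -/
theorem AA_vert2 (n i j : ℕ) (hi : n + 2 ≤ i) :
    AA n i j * AA n i (j + 2) ≤ AA n i (j + 1) ^ 2 := by
  obtain ⟨R, hR⟩ : ∃ R, i = n + 1 + (R + 1) := ⟨i - n - 2, by omega⟩
  -- level of the first one is `s + 1`
  obtain ⟨s, hs⟩ : ∃ s, s = j + R := ⟨_, rfl⟩
  rcases Nat.lt_or_ge n (s + 2) with h | h
  · rw [AA_high n i (j + 2) (by omega), mul_zero]; positivity
  · obtain ⟨K, hK⟩ : ∃ K, n = s + 2 + K := ⟨n - s - 2, by omega⟩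
    rw [AA_eq n i j (s + 1) (by omega), AA_eq n i (j + 2) (s + 3) (by omega),
      AA_eq n i (j + 1) (s + 2) (by omega), cc_succ, cc_succ, cc_succ]
    rw [corner (s + 1) s n (2 * (s + 1)) j (R + 1) (by omega) (by omega),
      corner (s + 2 + 1) (s + 2) n (2 * (s + 3)) (j + 2) (R + 1) (by omega) (by omega),
      corner (s + 1 + 1) (s + 1) n (2 * (s + 2)) (j + 1) (R + 1) (by omega) (by omega)]
    have key := level3 (s + 1) (s + 1) j K (MM (R + 1)) (MM_LC _) (by omega) (by omega) (by
        intro a _
        have h1 : (0 : ℚ) ≤ a := by positivity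
        have h2 : (0 : ℚ) ≤ s := by positivity
        push_cast
        nlinarith [mul_nonneg h1 h1, mul_nonneg h1 h2]) (by
        intro a a' _ _
        apply le_of_eq
        push_cast
        ring)
    have e1 : n - s = K + 2 := by omega
    have e2 : n - (s + 2) = K := by omega
    have e3 : n - (s + 1) = K + 1 := by omega
    rw [e1, e2, e3]
    exact key

/-- horizontal lines beyond the middle one. -/
theorem AA_horiz2 (n i j : ℕ) (hj : n + 2 ≤ j) :
    AA n i j * AA n (i + 2) j ≤ AA n (i + 1) j ^ 2 := by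
  obtain ⟨R, hR⟩ : ∃ R, j = n + 2 + R := ⟨j - n - 2, by omega⟩
  obtain ⟨s, hs⟩ : ∃ s, s = i + R := ⟨_, rfl⟩
  rcases Nat.lt_or_ge n (s + 2) with h | h
  · rw [AA_high n (i + 2) j (by omega), mul_zero]; positivity
  · obtain ⟨K, hK⟩ : ∃ K, n = s + 2 + K := ⟨n - s - 2, by omega⟩
    rw [AA_eq n i j (s + 1) (by omega), AA_eq n (i + 2) j (s + 3) (by omega),
      AA_eq n (i + 1) j (s + 2) (by omega), cc_succ, cc_succ, cc_succ]
    have r0 : E (KK (s + 1) s n) (2 * (s + 1)) j =
        E (KK s (s + 1) (n + 1)) (2 * s + 2) i := reflect s n i j (by omega)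
    have r1 : E (KK (s + 1 + 1) (s + 1) n) (2 * (s + 2)) j =
        E (KK (s + 1) (s + 2) (n + 1)) (2 * (s + 1) + 2) (i + 1) := by
      have := reflect (s + 1) n (i + 1) j (by omega)
      rw [← this]; rfl
    have r2 : E (KK (s + 2 + 1) (s + 2) n) (2 * (s + 3)) j =
        E (KK (s + 2) (s + 3) (n + 1)) (2 * (s + 2) + 2) (i + 2) := by
      have := reflect (s + 2) n (i + 2) j (by omega)
      rw [← this]; rfl
    rw [r0, r1, r2]
    rw [corner s (s + 1) (n + 1) (2 * s + 2) i (R + 2) (by omega) (by omega),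
      corner (s + 1) (s + 2) (n + 1) (2 * (s + 1) + 2) (i + 1) (R + 2) (by omega) (by omega),
      corner (s + 2) (s + 3) (n + 1) (2 * (s + 2) + 2) (i + 2) (R + 2) (by omega) (by omega)]
    have key := level3 s (s + 2) i K (MM (R + 2)) (MM_LC _) (by omega) (by omega) (by
        intro a _
        have h1 : (0 : ℚ) ≤ a := by positivity
        have h2 : (0 : ℚ) ≤ s := by positivity
        push_cast
        nlinarith [mul_nonneg h1 h1, mul_nonneg h1 h2, mul_nonneg (mul_nonneg h1 h1) h2]) (by
        intro a a' haa _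
        obtain ⟨e, he⟩ : ∃ e, a = a' + e := ⟨a - a', by omega⟩
        subst he
        have h1 : (0 : ℚ) ≤ a' := by positivity
        have h2 : (0 : ℚ) ≤ s := by positivity
        have h3 : (0 : ℚ) ≤ e := by positivity
        push_cast
        have hd : ((s : ℚ) + 1 + (a' + e)) * (s + 2) * ((s + 2 + 1) * (s + 2 + 2 + a')) -
            ((s : ℚ) + 1) * (s + 2 + a') * ((s + 2 + 2) * (s + 2 + 1 + (a' + e))) =
            2 * e * (((s : ℚ) + 1) * (s + 4)) + 2 * (((s : ℚ) + 1 + a' + e) * (s + 4 + a') -
              (s + 1) * (s + 4)) := by ring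
        have : (0 : ℚ) ≤ 2 * e * (((s : ℚ) + 1) * (s + 4)) + 2 * (((s : ℚ) + 1 + a' + e) * (s + 4 + a') -
              (s + 1) * (s + 4)) := by
          have k1 : (0 : ℚ) ≤ 2 * e * (((s : ℚ) + 1) * (s + 4)) := by positivity
          have k2 : ((s : ℚ) + 1 + a' + e) * (s + 4 + a') - (s + 1) * (s + 4) =
            (s + 1) * a' + (a' + e) * (s + 4 + a') := by ring
          rw [k2]; positivity
        linarith)
    have e1 : n + 1 - (s + 1) = K + 2 := by omega
    have e2 : n + 1 - (s + 2) = K + 1 := by omega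
    have e3 : n + 1 - (s + 3) = K := by omega
    rw [e1, e2, e3]
    exact key

end Pool.Agent.Lib.H53M
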