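import Pool.Agent.Lib.H53M.PC

/-!
Helper file for MP_251428_co: the middle horizontal line.
-/

namespace Pool.Agent.Lib.H53M

open Finset

lemma E2 (s a K : ℕ) :
    ((s : ℚ) + 1 + a) * (ee s a (K + 2) * ee (s + 2) (a + 2) K) ≤
      ((s : ℚ) + a) * (ee (s + 1) (a + 1) (K + 1) * ee (s + 1) (a + 1) (K + 1)) := by
  have h1 := H1e s a K
  have h2 := rho6e (s + 1) a K
  rw [show s + 1 + 1 = s + 2 from rfl] at h2
  have hA := ee_pos s a (K + 1)
  have h0 := ee_nonneg s a (K + 2)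
  have hB := ee_nonneg (s + 1) (a + 1) (K + 1)
  refine le_of_mul_le_mul_right ?_ hA
  have hc : (0 : ℚ) ≤ ((s : ℚ) + 1 + a) * ee s a (K + 2) := by positivity
  calc ((s : ℚ) + 1 + a) * (ee s a (K + 2) * ee (s + 2) (a + 2) K) * ee (s + 1) a (K + 1)
      = ((s : ℚ) + 1 + a) * ee s a (K + 2) * (ee (s + 2) (a + 2) K * ee (s + 1) a (K + 1)) := by
        ring
    _ ≤ ((s : ℚ) + 1 + a) * ee s a (K + 2) *
          (ee (s + 2) (a + 1) K * ee (s + 1) (a + 1) (K + 1)) :=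
        mul_le_mul_of_nonneg_left h2 hc
    _ = (((s : ℚ) + 1 + a) * (ee s a (K + 2) * ee (s + 2) (a + 1) K)) *
          ee (s + 1) (a + 1) (K + 1) := by ring
    _ ≤ (((s : ℚ) + a) * (ee (s + 1) a (K + 1) * ee (s + 1) (a + 1) (K + 1))) *
          ee (s + 1) (a + 1) (K + 1) := mul_le_mul_of_nonneg_right h1 hB
    _ = _ := by ring

lemma E3 (s a K : ℕ) :
    ((s : ℚ) + 1 + a) * (ee s a (K + 2) * ee (s + 2) (a + 3) K) ≤
      ((s : ℚ) + a) * (ee (s + 1) (a + 1) (K + 1) * ee (s + 1) (a + 2) (K + 1)) := by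
  have h1 := E2 s a K
  have h2 := rho6e (s + 1) (a + 1) K
  rw [show s + 1 + 1 = s + 2 from rfl, show a + 1 + 2 = a + 3 from rfl,
    show a + 1 + 1 = a + 2 from rfl] at h2
  have hA := ee_pos s (a + 1) (K + 1)
  have h0 := ee_nonneg s a (K + 2)
  have hB := ee_nonneg (s + 1) (a + 2) (K + 1)
  refine le_of_mul_le_mul_right ?_ hA
  have hc : (0 : ℚ) ≤ ((s : ℚ) + 1 + a) * ee s a (K + 2) := by positivity
  calc ((s : ℚ) + 1 + a) * (ee s a (K + 2) * ee (s + 2) (a + 3) K) * ee (s + 1) (a + 1) (K + 1)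
      = ((s : ℚ) + 1 + a) * ee s a (K + 2) *
          (ee (s + 2) (a + 3) K * ee (s + 1) (a + 1) (K + 1)) := by ring
    _ ≤ ((s : ℚ) + 1 + a) * ee s a (K + 2) *
          (ee (s + 2) (a + 2) K * ee (s + 1) (a + 2) (K + 1)) :=
        mul_le_mul_of_nonneg_left h2 hc
    _ = (((s : ℚ) + 1 + a) * (ee s a (K + 2) * ee (s + 2) (a + 2) K)) *
          ee (s + 1) (a + 2) (K + 1) := by ring
    _ ≤ (((s : ℚ) + a) * (ee (s + 1) (a + 1) (K + 1) * ee (s + 1) (a + 1) (K + 1))) *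
          ee (s + 1) (a + 2) (K + 1) := mul_le_mul_of_nonneg_right h1 hB
    _ = _ := by ring

/-- `q = 0` -/
lemma T0 (β K : ℕ) :
    fT β (β + 2) (β + 1) (K + 2) * fT (β + 2) (β + 2 + 2) (β + 3) K ≤
      fT (β + 1) (β + 2 + 1) (β + 2) (K + 1) * fT (β + 1) (β + 2 + 1) (β + 2) (K + 1) := by
  unfold fT
  have h1 := E2 (β + 2) (β + 1) K
  rw [show β + 1 + 2 = β + 3 from rfl, show β + 1 + 1 = β + 2 from rfl] at h1
  have b1 := binA β (β + 1)
  have b2 := binB (β + 1) (β + 1)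
  have b3 := binA (β + 1) (β + 2)
  have b4 := binB (β + 2) (β + 2)
  have i1 : β + 1 + 1 + (β + 1) = β + 1 + (β + 2) := by omega
  have i2 : β + 2 + 1 + (β + 2) = β + 2 + (β + 3) := by omega
  rw [i1, show β + 1 + 1 = β + 2 from rfl] at b2
  rw [show β + 1 + 1 = β + 2 from rfl] at b3
  rw [i2, show β + 2 + 1 = β + 3 from rfl] at b4
  have n1 := ee_nonneg (β + 2 + 1) (β + 2) (K + 1)
  have hQ : (0 : ℚ) ≤ ((β + 1 + (β + 2)).choose (β + 2) : ℚ) := by positivity
  generalize ((β + (β + 1)).choose (β + 1) : ℚ) = P at *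
  generalize ((β + 1 + (β + 1)).choose (β + 1) : ℚ) = P1 at *
  generalize ((β + 1 + (β + 2)).choose (β + 2) : ℚ) = Q at *
  generalize ((β + 2 + (β + 2)).choose (β + 2) : ℚ) = R at *
  generalize ((β + 2 + (β + 3)).choose (β + 3) : ℚ) = T at *
  generalize ee (β + 2) (β + 1) (K + 2) = e0 at *
  generalize ee (β + 2 + 1) (β + 2) (K + 1) = e1 at *
  generalize ee (β + 2 + 2) (β + 3) K = e2 at *
  push_cast at b1 b2 b3 b4 h1
  -- P (2β+2) = P1 (β+1), P1 (2β+3) = Q (β+2); R (β+2) = Q (2β+4), T (β+3) = R (2β+5)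
  have hβ : (0 : ℚ) ≤ β := by positivity
  have p1 : P1 = 2 * P := by
    have : ((β : ℚ) + 1) * (P1 - 2 * P) = 0 := by linarith
    rcases mul_eq_zero.1 this with h | h
    · linarith
    · linarith
  have p2 : Q * (β + 2) = 2 * P * (2 * β + 3) := by rw [p1] at b2; linarith
  have p3 : R = 2 * Q := by
    have : ((β : ℚ) + 2) * (R - 2 * Q) = 0 := by linarith
    rcases mul_eq_zero.1 this with h | h
    · linarith
    · linarith
  have p4 : T * (β + 3) = 2 * Q * (2 * β + 5) := by rw [p3] at b4; linarith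
  have hc : (0 : ℚ) < 2 * (2 * (β : ℚ) + 3) * (β + 3) := by positivity
  refine le_of_mul_le_mul_right ?_ hc
  have h1' : (2 * (β : ℚ) + 4) * (e0 * e2) ≤ (2 * β + 3) * (e1 * e1) := by linarith
  have hx : (0 : ℚ) ≤ Q * Q := mul_nonneg hQ hQ
  calc P * e0 * (T * e2) * (2 * (2 * (β : ℚ) + 3) * (β + 3))
      = (2 * P * (2 * β + 3)) * (T * (β + 3)) * (e0 * e2) := by ring
    _ = Q * Q * (2 * β + 5) * ((2 * (β : ℚ) + 4) * (e0 * e2)) := by rw [← p2, p4]; ring
    _ ≤ Q * Q * (2 * β + 5) * ((2 * β + 3) * (e1 * e1)) :=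
        mul_le_mul_of_nonneg_left h1' (by positivity)
    _ ≤ _ := by
        have he : 0 ≤ e1 * e1 := mul_nonneg n1 n1
        have := mul_nonneg hx he
        have k : Q * e1 * (Q * e1) * (2 * (2 * (β : ℚ) + 3) * (β + 3)) -
            Q * Q * (2 * β + 5) * ((2 * β + 3) * (e1 * e1)) = (Q * Q * (e1 * e1)) * (2 * β + 3) := by
          ring
        have k2 : 0 ≤ (Q * Q * (e1 * e1)) * (2 * (β : ℚ) + 3) := by positivity
        linarith

/-- `q = 1` -/
lemma T1 (β K : ℕ) (hb : 1 ≤ β) :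
    fT β (β + 2) β (K + 2) * fT (β + 2) (β + 2 + 2) (β + 3) K ≤
      fT (β + 1) (β + 2 + 1) (β + 1) (K + 1) * fT (β + 1) (β + 2 + 1) (β + 2) (K + 1) := by
  unfold fT
  have h1 := E3 (β + 2) β K
  have b1 := binA β β
  have b2 := binB (β + 1) β
  have b3 := binA (β + 1) (β + 2)
  have b4 := binB (β + 2) (β + 2)
  have i1 : β + 1 + 1 + β = β + 1 + (β + 1) := by omega
  have i2 : β + 2 + 1 + (β + 2) = β + 2 + (β + 3) := by omega
  rw [i1] at b2
  rw [show β + 1 + 1 = β + 2 from rfl] at b3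
  rw [i2, show β + 2 + 1 = β + 3 from rfl] at b4
  have n1 := ee_nonneg (β + 2 + 1) (β + 2) (K + 1)
  have n2 := ee_nonneg (β + 2 + 1) (β + 1) (K + 1)
  have hQ : (0 : ℚ) ≤ ((β + 1 + (β + 2)).choose (β + 2) : ℚ) := by positivity
  have hP2 : (0 : ℚ) ≤ ((β + 1 + (β + 1)).choose (β + 1) : ℚ) := by positivity
  generalize ((β + β).choose β : ℚ) = P at *
  generalize ((β + 1 + β).choose β : ℚ) = P1 at *
  generalize ((β + 1 + (β + 1)).choose (β + 1) : ℚ) = P2 at *
  generalize ((β + 1 + (β + 2)).choose (β + 2) : ℚ) = Q at *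
  generalize ((β + 2 + (β + 2)).choose (β + 2) : ℚ) = R at *
  generalize ((β + 2 + (β + 3)).choose (β + 3) : ℚ) = T at *
  generalize ee (β + 2) β (K + 2) = e0 at *
  generalize ee (β + 2 + 1) (β + 1) (K + 1) = e1 at *
  generalize ee (β + 2 + 1) (β + 2) (K + 1) = e2 at *
  generalize ee (β + 2 + 2) (β + 3) K = e3 at *
  push_cast at b1 b2 b3 b4 h1
  have hβ : (1 : ℚ) ≤ β := by exact_mod_cast hb
  -- P1 (β+1) = P (2β+1), P2 (β+1) = P1 (2β+2), R (β+2) = Q (2β+4), T (β+3) = R (2β+5)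
  have p1 : P2 = 2 * P1 := by
    have : ((β : ℚ) + 1) * (P2 - 2 * P1) = 0 := by linarith
    rcases mul_eq_zero.1 this with h | h
    · linarith
    · linarith
  have p2 : P2 * (β + 1) = 2 * P * (2 * β + 1) := by rw [p1]; linarith
  have p3 : R = 2 * Q := by
    have : ((β : ℚ) + 2) * (R - 2 * Q) = 0 := by linarith
    rcases mul_eq_zero.1 this with h | h
    · linarith
    · linarith
  have p4 : T * (β + 3) = 2 * Q * (2 * β + 5) := by rw [p3] at b4; linarith
  have hc : (0 : ℚ) < (2 * (β : ℚ) + 1) * (β + 3) * (2 * β + 3) := by positivity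
  refine le_of_mul_le_mul_right ?_ hc
  have h1' : (2 * (β : ℚ) + 3) * (e0 * e3) ≤ (2 * β + 2) * (e1 * e2) := by linarith
  calc P * e0 * (T * e3) * ((2 * (β : ℚ) + 1) * (β + 3) * (2 * β + 3))
      = (2 * P * (2 * β + 1)) * (T * (β + 3)) * ((2 * (β : ℚ) + 3) * (e0 * e3)) / 2 := by ring
    _ = P2 * Q * ((β + 1) * (2 * β + 5)) * ((2 * (β : ℚ) + 3) * (e0 * e3)) := by
        rw [← p2, p4]; ring
    _ ≤ P2 * Q * ((β + 1) * (2 * β + 5)) * ((2 * β + 2) * (e1 * e2)) :=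
        mul_le_mul_of_nonneg_left h1' (by positivity)
    _ ≤ _ := by
        have he : 0 ≤ e1 * e2 := mul_nonneg n2 n1
        have hx : (0 : ℚ) ≤ P2 * Q := mul_nonneg hP2 hQ
        have hxe := mul_nonneg hx he
        have k : P2 * e1 * (Q * e2) * ((2 * (β : ℚ) + 1) * (β + 3) * (2 * β + 3)) -
            P2 * Q * ((β + 1) * (2 * β + 5)) * ((2 * β + 2) * (e1 * e2)) =
            (P2 * Q * (e1 * e2)) * (2 * β ^ 2 + 3 * β - 1) := by
          ring
        have k2 : 0 ≤ (P2 * Q * (e1 * e2)) * (2 * (β : ℚ) ^ 2 + 3 * β - 1) :=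
          mul_nonneg hxe (by nlinarith)
        linarith

/-- all `q`. -/
lemma Tall (β K a d : ℕ) (hb : 1 ≤ β) (had : a + d = β) :
    fT β (β + 2) a (K + 2) * fT (β + 2) (β + 2 + 2) (β + 3) K ≤
      fT (β + 1) (β + 2 + 1) (a + 1) (K + 1) * fT (β + 1) (β + 2 + 1) (β + 2) (K + 1) := by
  induction d generalizing a with
  | zero =>
    have : a = β := by omega
    rw [this]; exact T1 β K hb
  | succ d ih =>
    have h1 := ih (a + 1) (by omega)
    obtain ⟨γ, rfl⟩ : ∃ γ, β = γ + 1 := ⟨β - 1, by omega⟩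
    -- u(a) v(a+2) ≤ u(a+1) v(a+1)
    have h2 : fT (γ + 2) (γ + 1 + 1 + 2) (a + 2) (K + 1) * fT (γ + 1) (γ + 1 + 1 + 1) a (K + 1 + 1) ≤
        fT (γ + 2) (γ + 1 + 1 + 2) (a + 1) (K + 1) * fT (γ + 1) (γ + 1 + 1 + 1) (a + 1) (K + 1 + 1) :=
      R6t γ (γ + 1 + 1) a (K + 1) (by omega)
    have i1 : γ + 1 + 1 + 2 = γ + 1 + 2 + 1 := by omega
    have i2 : γ + 1 + 1 + 1 = γ + 1 + 2 := by omega
    rw [i1, i2, show K + 1 + 1 = K + 2 from rfl, show γ + 2 = γ + 1 + 1 from rfl] at h2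
    have hv : 0 < fT (γ + 1 + 1) (γ + 1 + 2 + 1) (a + 2) (K + 1) := fT_pos _ _ _ _
    have n0 := fT_nonneg (γ + 1 + 2) (γ + 1 + 2 + 2) (γ + 1 + 3) K
    have n1 := fT_nonneg (γ + 1 + 1) (γ + 1 + 2 + 1) (a + 1) (K + 1)
    rw [show a + 1 + 1 = a + 2 from rfl] at h1
    refine le_of_mul_le_mul_right ?_ hv
    calc fT (γ + 1) (γ + 1 + 2) a (K + 2) * fT (γ + 1 + 2) (γ + 1 + 2 + 2) (γ + 1 + 3) K *
          fT (γ + 1 + 1) (γ + 1 + 2 + 1) (a + 2) (K + 1)
        = (fT (γ + 1 + 1) (γ + 1 + 2 + 1) (a + 2) (K + 1) * fT (γ + 1) (γ + 1 + 2) a (K + 2)) *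
          fT (γ + 1 + 2) (γ + 1 + 2 + 2) (γ + 1 + 3) K := by ring
      _ ≤ (fT (γ + 1 + 1) (γ + 1 + 2 + 1) (a + 1) (K + 1) *
          fT (γ + 1) (γ + 1 + 2) (a + 1) (K + 2)) *
          fT (γ + 1 + 2) (γ + 1 + 2 + 2) (γ + 1 + 3) K := mul_le_mul_of_nonneg_right h2 n0
      _ = fT (γ + 1 + 1) (γ + 1 + 2 + 1) (a + 1) (K + 1) *
          (fT (γ + 1) (γ + 1 + 2) (a + 1) (K + 2) *
          fT (γ + 1 + 2) (γ + 1 + 2 + 2) (γ + 1 + 3) K) := by ring
      _ ≤ fT (γ + 1 + 1) (γ + 1 + 2 + 1) (a + 1) (K + 1) *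
          (fT (γ + 1 + 1) (γ + 1 + 2 + 1) (a + 2) (K + 1) *
          fT (γ + 1 + 1) (γ + 1 + 2 + 1) (γ + 1 + 2) (K + 1)) := mul_le_mul_of_nonneg_left h1 n1
      _ = _ := by ring

/-- three consecutive levels, `j ≤ β + 1`. -/
theorem level3g (β s j K : ℕ) (om : ℕ → ℚ) (hom : LC om) (hj : j ≤ β + 1) (hjs : j ≤ s)
    (C1 : ∀ a : ℕ, a ≤ j → ((β : ℚ) + 1) * (β + 3 + a) * (s + a) ≤
      ((β : ℚ) + 1 + a) * (β + 2) * (s + a + 1))
    (C2 : ∀ a a' : ℕ, a' ≤ a → a ≤ j → ((β : ℚ) + 1) * (β + 2 + a') * ((s + 2) * (s + 1 + a)) ≤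
      ((β : ℚ) + 1 + a) * (β + 2) * ((s + 1) * (s + 2 + a')))
    (H0 : ∀ a : ℕ, a ≤ j → fT β s a (K + 2) * fT (β + 2) (s + 2) (j + 2) K ≤
      fT (β + 1) (s + 1) (a + 1) (K + 1) * fT (β + 1) (s + 1) (j + 1) (K + 1)) :
    (∑ q ∈ range (j + 1), om q * fT β s (j - q) (K + 2)) *
      (∑ q ∈ range (j + 3), om q * fT (β + 2) (s + 2) (j + 2 - q) K) ≤
      (∑ q ∈ range (j + 2), om q * fT (β + 1) (s + 1) (j + 1 - q) (K + 1)) ^ 2 := by
  obtain ⟨hom0, hom1⟩ := hom
  set U : ℕ → ℚ := fun q => if q ≤ j then om q * fT β s (j - q) (K + 2) else 0 with hUdef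
  set V : ℕ → ℚ := fun q => if q ≤ j + 1 then om q * fT (β + 1) (s + 1) (j + 1 - q) (K + 1) else 0
    with hVdef
  set W : ℕ → ℚ := fun q => if q ≤ j + 2 then om q * fT (β + 2) (s + 2) (j + 2 - q) K else 0
    with hWdef
  have hU : ∀ i, 0 ≤ U i := by
    intro i; simp only [hUdef]; split_ifs
    · exact mul_nonneg (hom0 _) (fT_nonneg _ _ _ _)
    · exact le_refl _
  have hV : ∀ i, 0 ≤ V i := by
    intro i; simp only [hVdef]; split_ifs
    · exact mul_nonneg (hom0 _) (fT_nonneg _ _ _ _)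
    · exact le_refl _
  have hW : ∀ i, 0 ≤ W i := by
    intro i; simp only [hWdef]; split_ifs
    · exact mul_nonneg (hom0 _) (fT_nonneg _ _ _ _)
    · exact le_refl _
  have key := pair3 (j + 1) U V W hU hV hW ?_ ?_ ?_
  · have eU : ∑ p ∈ range (j + 1 + 1), U p = ∑ q ∈ range (j + 1), om q * fT β s (j - q) (K + 2) := by
      rw [sum_range_succ]
      have : U (j + 1) = 0 := by simp only [hUdef]; rw [if_neg (by omega)]
      rw [this, add_zero]
      refine sum_congr rfl fun q hq => ?_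
      simp only [hUdef]; rw [if_pos (by have := mem_range.1 hq; omega)]
    have eW : ∑ p ∈ range (j + 1 + 2), W p =
        ∑ q ∈ range (j + 3), om q * fT (β + 2) (s + 2) (j + 2 - q) K := by
      refine sum_congr rfl fun q hq => ?_
      simp only [hWdef]; rw [if_pos (by have := mem_range.1 hq; omega)]
    have eV : ∑ p ∈ range (j + 1 + 1), V p =
        ∑ q ∈ range (j + 2), om q * fT (β + 1) (s + 1) (j + 1 - q) (K + 1) := by
      refine sum_congr rfl fun q hq => ?_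
      simp only [hVdef]; rw [if_pos (by have := mem_range.1 hq; omega)]
    have eV2 : ∑ p ∈ range (j + 1 + 2), V p = ∑ p ∈ range (j + 1 + 1), V p := by
      rw [sum_range_succ]
      have : V (j + 1 + 1) = 0 := by simp only [hVdef]; rw [if_neg (by omega)]
      rw [this, add_zero]
    rw [eU, eW, eV2, eV] at key
    rw [sq]; exact key
  · intro c hc
    rcases Nat.lt_or_ge j c with h | h
    · have : U c = 0 := by simp only [hUdef]; rw [if_neg (by omega)]
      rw [this, zero_mul]; exact mul_nonneg (hV _) (hV _)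
    · simp only [hUdef, hVdef, hWdef]
      rw [if_pos h, if_pos (by omega), if_pos (by omega), if_pos (by omega)]
      obtain ⟨a, ha⟩ : ∃ a, j = c + a := ⟨j - c, by omega⟩
      have e1 : j - c = a := by omega
      have e2 : j + 2 - (c + 1) = a + 1 := by omega
      have e3 : j + 1 - c = a + 1 := by omega
      have e4 : j + 1 - (c + 1) = a := by omega
      rw [e1, e2, e3, e4]
      have t := H1t β s a K (C1 a (by omega))
      have o := mul_nonneg (hom0 c) (hom0 (c + 1))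
      calc _ = (om c * om (c + 1)) * (fT β s a (K + 2) * fT (β + 2) (s + 2) (a + 1) K) := by ring
        _ ≤ _ := mul_le_mul_of_nonneg_left t o
        _ = _ := by ring
  · intro p q hpq hq
    simp only [hUdef, hVdef, hWdef]
    rw [if_pos (by omega), if_pos (by omega), if_pos (by omega), if_pos (by omega)]
    obtain ⟨a, ha⟩ : ∃ a, j = p + a := ⟨j - p, by omega⟩
    obtain ⟨a', ha'⟩ : ∃ a', j + 1 = q + a' := ⟨j + 1 - q, by omega⟩
    have e1 : j - p = a := by omega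
    have e2 : j + 2 - (q + 1) = a' := by omega
    have e3 : j + 1 - (p + 1) = a := by omega
    have e4 : j + 1 - q = a' := by omega
    rw [e1, e2, e3, e4]
    have t := H2t β s a a' K (by omega) (by omega) (C2 a a' (by omega) (by omega))
    have o := hom1 p q (by omega)
    have o1 := mul_nonneg (hom0 p) (hom0 (q + 1))
    have f1 := mul_nonneg (fT_nonneg (β + 1) (s + 1) a (K + 1)) (fT_nonneg (β + 1) (s + 1) a' (K + 1))
    calc _ = (om p * om (q + 1)) * (fT β s a (K + 2) * fT (β + 2) (s + 2) a' K) := by ring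
      _ ≤ (om p * om (q + 1)) * (fT (β + 1) (s + 1) a (K + 1) * fT (β + 1) (s + 1) a' (K + 1)) :=
        mul_le_mul_of_nonneg_left t o1
      _ ≤ (om (p + 1) * om q) * (fT (β + 1) (s + 1) a (K + 1) * fT (β + 1) (s + 1) a' (K + 1)) :=
        mul_le_mul_of_nonneg_right o f1
      _ = _ := by ring
  · intro p q hpq hq
    rcases Nat.lt_or_ge j q with h | h
    · have : U q = 0 := by simp only [hUdef]; rw [if_neg (by omega)]
      rw [this, zero_mul]; exact mul_nonneg (hV _) (hV _)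
    · simp only [hUdef, hVdef, hWdef]
      rw [if_pos h, if_pos (by omega), if_pos (by omega), if_pos (by omega)]
      obtain ⟨a, ha⟩ : ∃ a, j = q + a := ⟨j - q, by omega⟩
      have e1 : j - q = a := by omega
      have e3 : j + 1 - q = a + 1 := by omega
      rcases Nat.eq_zero_or_pos p with hp0 | hp0
      · subst hp0
        rw [e1, e3, Nat.sub_zero, Nat.sub_zero]
        have t := H0 a (by omega)
        have o := mul_nonneg (hom0 q) (hom0 0)
        calc _ = (om q * om 0) * (fT β s a (K + 2) * fT (β + 2) (s + 2) (j + 2) K) := by ring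
          _ ≤ _ := mul_le_mul_of_nonneg_left t o
          _ = _ := by ring
      · obtain ⟨d, hd⟩ : ∃ d, j + 1 = p + (a + d) := ⟨j + 1 - p - a, by omega⟩
        have e2 : j + 2 - p = a + d + 1 := by omega
        have e4 : j + 1 - p = a + d := by omega
        rw [e1, e2, e3, e4]
        have t := H3t β s a K d (by omega) (C1 a (by omega))
        have o := mul_nonneg (hom0 q) (hom0 p)
        calc _ = (om q * om p) * (fT β s a (K + 2) * fT (β + 2) (s + 2) (a + d + 1) K) := by ring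
          _ ≤ _ := mul_le_mul_of_nonneg_left t o
          _ = _ := by ring

end Pool.Agent.Lib.H53M
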