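import Pool.Agent.Lib.H53M.PD

/-!
Helper file for MP_251428_co: the middle horizontal line, and all lines.
-/

namespace Pool.Agent.Lib.H53M

open Finset

lemma ch2 (m : ℕ) : (m.choose 2 : ℚ) = (m : ℚ) * (m - 1) / 2 := by
  have h := q3 m 1
  rw [Nat.choose_one_right] at h
  push_cast at h
  linarith

lemma ch3 (m : ℕ) : (m.choose 3 : ℚ) = (m : ℚ) * (m - 1) * (m - 2) / 6 := by
  have h := q3 m 2
  rw [ch2] at h
  push_cast at h
  linarith

lemma val1 (n : ℕ) : E (KK 0 1 (n + 1)) 2 1 = 3 * n + 2 := by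
  unfold E
  rw [sum_range_succ, sum_range_one]
  unfold KK
  rw [if_pos (by omega), if_pos (by omega)]
  have e1 : n + 1 - 1 = n := by omega
  rw [e1]
  simp
  ring

lemma val2 (n : ℕ) (hn : 1 ≤ n) : E (KK 1 2 (n + 1)) 4 2 =
    3 * ((n : ℚ) + 1) * n + 4 * n * (n - 1) + 3 / 2 * ((n : ℚ) - 1) * (n - 2) := by
  obtain ⟨k, rfl⟩ : ∃ k, n = k + 1 := ⟨n - 1, by omega⟩
  unfold E
  rw [sum_range_succ, sum_range_succ, sum_range_one]
  unfold KK
  rw [if_pos (by omega), if_pos (by omega), if_pos (by omega)]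
  have e0 : k + 1 + 1 - 0 = k + 2 := by omega
  have e1 : k + 1 + 1 - 1 = k + 1 := by omega
  have e2 : k + 1 + 1 - 2 = k := by omega
  rw [e0, e1, e2]
  have c1 : (1 + 0 : ℕ).choose 1 = 1 := by decide
  have c2 : (1 + 1 : ℕ).choose 1 = 2 := by decide
  have c3 : (1 + 2 : ℕ).choose 1 = 3 := by decide
  have c4 : (4 : ℕ).choose (2 - 0) = 6 := by decide
  have c5 : (4 : ℕ).choose (2 - 1) = 4 := by decide
  have c6 : (4 : ℕ).choose (2 - 2) = 1 := by decide
  rw [c1, c2, c3, c4, c5, c6, ch2 (k + 2), ch2 (k + 1), ch2 k]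
  push_cast
  ring

lemma val3 (K : ℕ) : E (KK 2 3 (K + 3)) 6 3 =
    37 / 2 * (K : ℚ) ^ 3 + 75 / 2 * K ^ 2 + 49 * K + 20 := by
  unfold E
  rw [sum_range_succ, sum_range_succ, sum_range_succ, sum_range_one]
  unfold KK
  rw [if_pos (by omega), if_pos (by omega), if_pos (by omega), if_pos (by omega)]
  have e0 : K + 3 - 0 = K + 3 := by omega
  have e1 : K + 3 - 1 = K + 2 := by omega
  have e2 : K + 3 - 2 = K + 1 := by omega
  have e3 : K + 3 - 3 = K := by omega
  rw [e0, e1, e2, e3]
  have c1 : (2 + 0 : ℕ).choose 2 = 1 := by decide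
  have c2 : (2 + 1 : ℕ).choose 2 = 3 := by decide
  have c3 : (2 + 2 : ℕ).choose 2 = 6 := by decide
  have c3' : (2 + 3 : ℕ).choose 2 = 10 := by decide
  have c4 : (6 : ℕ).choose (3 - 0) = 20 := by decide
  have c5 : (6 : ℕ).choose (3 - 1) = 15 := by decide
  have c6 : (6 : ℕ).choose (3 - 2) = 6 := by decide
  have c7 : (6 : ℕ).choose (3 - 3) = 1 := by decide
  rw [c1, c2, c3, c3', c4, c5, c6, c7, ch3 (K + 3), ch3 (K + 2), ch3 (K + 1), ch3 K]
  push_cast
  ring

/-- the middle horizontal line. -/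
theorem AA_horiz3 (n i : ℕ) :
    AA n i (n + 1) * AA n (i + 2) (n + 1) ≤ AA n (i + 1) (n + 1) ^ 2 := by
  rcases Nat.lt_or_ge n (i + 1) with h | h
  · rw [AA_high n (i + 2) (n + 1) (by omega), mul_zero]; positivity
  · rcases i with _ | s
    · -- i = 0
      rw [AA_eq n 0 (n + 1) 0 (by omega), AA_eq n (0 + 2) (n + 1) (1 + 1) (by omega),
        AA_eq n (0 + 1) (n + 1) (0 + 1) (by omega), cc_succ, cc_succ]
      have r1 : E (KK (0 + 1) 0 n) (2 * (0 + 1)) (n + 1) = E (KK 0 1 (n + 1)) 2 1 :=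
        reflect 0 n 1 (n + 1) (by omega)
      have r2 : E (KK (1 + 1) 1 n) (2 * (1 + 1)) (n + 1) = E (KK 1 2 (n + 1)) 4 2 :=
        reflect 1 n 2 (n + 1) (by omega)
      rw [r1, r2, val1, val2 n (by omega), show 2 * 0 = 0 from rfl, E_row_zero]
      simp only [cc]
      rw [if_pos trivial]
      have hn : (1 : ℚ) ≤ n := by exact_mod_cast (by omega : 1 ≤ n)
      nlinarith
    · -- first level `s + 1`
      obtain ⟨K, hK⟩ : ∃ K, n = s + 2 + K := ⟨n - s - 2, by omega⟩
      rw [AA_eq n (s + 1) (n + 1) (s + 1) (by omega),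
        AA_eq n (s + 1 + 2) (n + 1) (s + 3) (by omega),
        AA_eq n (s + 1 + 1) (n + 1) (s + 2) (by omega), cc_succ, cc_succ, cc_succ]
      have r0 : E (KK (s + 1) s n) (2 * (s + 1)) (n + 1) =
          E (KK s (s + 1) (n + 1)) (2 * s + 2) (s + 1) := reflect s n (s + 1) (n + 1) (by omega)
      have r1 : E (KK (s + 1 + 1) (s + 1) n) (2 * (s + 2)) (n + 1) =
          E (KK (s + 1) (s + 2) (n + 1)) (2 * (s + 1) + 2) (s + 2) := by
        have := reflect (s + 1) n (s + 2) (n + 1) (by omega)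
        rw [← this]; rfl
      have r2 : E (KK (s + 2 + 1) (s + 2) n) (2 * (s + 3)) (n + 1) =
          E (KK (s + 2) (s + 3) (n + 1)) (2 * (s + 2) + 2) (s + 3) := by
        have := reflect (s + 2) n (s + 3) (n + 1) (by omega)
        rw [← this]; rfl
      rw [r0, r1, r2]
      rcases Nat.eq_zero_or_pos s with hs | hs
      · subst hs
        have e : n + 1 = K + 3 := by omega
        have v1 := val1 n
        have v2 := val2 n (by omega)
        have v3 := val3 K
        rw [← e] at v3
        have hn : (n : ℚ) = K + 2 := by rw [hK]; push_cast; ring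
        have hK0 : (0 : ℚ) ≤ K := by positivity
        show E (KK 0 1 (n + 1)) 2 1 * E (KK 2 3 (n + 1)) 6 3 ≤ E (KK 1 2 (n + 1)) 4 2 ^ 2
        rw [v1, v2, v3, hn]
        have hd : (3 * ((K : ℚ) + 1) * (K + 1 + 1)) = 3 * (K + 1) * (K + 2) := by ring
        have h2 := mul_nonneg hK0 hK0
        have h3 := mul_nonneg h2 hK0
        have h4 := mul_nonneg h3 hK0
        have hdiff : (3 * ((K : ℚ) + 2 + 1) * (K + 2) + 4 * (K + 2) * (K + 2 - 1) +
            3 / 2 * ((K : ℚ) + 2 - 1) * (K + 2 - 2)) ^ 2 -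
            (3 * ((K : ℚ) + 2) + 2) * (37 / 2 * (K : ℚ) ^ 3 + 75 / 2 * K ^ 2 + 49 * K + 20) =
            (67 / 4) * (K * K * K * K) + 224 * (K * K * K) + (3229 / 4) * (K * K) + 1030 * K + 516 := by
          ring
        linarith
      · rw [corner s (s + 1) (n + 1) (2 * s + 2) (s + 1) 1 (by omega) (by omega),
          corner (s + 1) (s + 2) (n + 1) (2 * (s + 1) + 2) (s + 2) 1 (by omega) (by omega),
          corner (s + 2) (s + 3) (n + 1) (2 * (s + 2) + 2) (s + 3) 1 (by omega) (by omega)]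
        have key := level3g s (s + 2) (s + 1) K (MM 1) (MM_LC _) (by omega) (by omega) (by
            intro a _
            have h1 : (0 : ℚ) ≤ a := by positivity
            have h2 : (0 : ℚ) ≤ s := by positivity
            push_cast
            nlinarith [mul_nonneg h1 h1, mul_nonneg h1 h2, mul_nonneg (mul_nonneg h1 h1) h2]) (by
            intro a a' haa _
            obtain ⟨e, he⟩ : ∃ e, a = a' + e := ⟨a - a', by omega⟩
            subst he
            have h1 : (0 : ℚ) ≤ a' := by positivity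
            have h2 : (0 : ℚ) ≤ s := by positivity
            have h3 : (0 : ℚ) ≤ e := by positivity
            push_cast
            have hd : ((s : ℚ) + 1 + (a' + e)) * (s + 2) * ((s + 2 + 1) * (s + 2 + 2 + a')) -
                ((s : ℚ) + 1) * (s + 2 + a') * ((s + 2 + 2) * (s + 2 + 1 + (a' + e))) =
                2 * e * (((s : ℚ) + 1) * (s + 4)) + 2 * (((s : ℚ) + 1 + a' + e) * (s + 4 + a') -
                  (s + 1) * (s + 4)) := by ring
            have : (0 : ℚ) ≤ 2 * e * (((s : ℚ) + 1) * (s + 4)) +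
                2 * (((s : ℚ) + 1 + a' + e) * (s + 4 + a') - (s + 1) * (s + 4)) := by
              have k1 : (0 : ℚ) ≤ 2 * e * (((s : ℚ) + 1) * (s + 4)) := by positivity
              have k2 : ((s : ℚ) + 1 + a' + e) * (s + 4 + a') - (s + 1) * (s + 4) =
                (s + 1) * a' + (a' + e) * (s + 4 + a') := by ring
              rw [k2]; positivity
            linarith) (by
            intro a ha
            rcases Nat.eq_or_lt_of_le ha with h1 | h1
            · subst h1
              exact T0 s K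
            · exact Tall s K a (s - a) hs (by omega))
        have e1 : n + 1 - (s + 1) = K + 2 := by omega
        have e2 : n + 1 - (s + 2) = K + 1 := by omega
        have e3 : n + 1 - (s + 3) = K := by omega
        rw [e1, e2, e3]
        exact key

/-- all vertical lines. -/
theorem AA_vert_all (n i j : ℕ) : AA n i j * AA n i (j + 2) ≤ AA n i (j + 1) ^ 2 := by
  rcases Nat.lt_or_ge (n + 1) i with h | h
  · exact AA_vert2 n i j (by omega)
  · exact AA_vert n i j h

/-- all horizontal lines. -/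
theorem AA_horiz_all (n i j : ℕ) : AA n i j * AA n (i + 2) j ≤ AA n (i + 1) j ^ 2 := by
  rcases Nat.lt_trichotomy j (n + 1) with h | h | h
  · exact AA_horiz n i j (by omega)
  · subst h; exact AA_horiz3 n i
  · exact AA_horiz2 n i j (by omega)

end Pool.Agent.Lib.H53M
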