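import Pool.Agent.Lib.H53M.Q1
import Pool.Agent.Lib.H53M.Q2

/-!
# H53M, chunk Q3: the Sturm bound for MP p (12 M)

Size M, algebra of power series.

PROOF. Put D = redZ p dl, A = redZ p (e4 ^ 3), N(M) = span {D^c A^(M-c) : c ≤ M}.
(i) MP p (12 M) ≤ N(M). Take 4a + 6b + 12c = 12 M, i.e. 2a + 3b + 6c = 6M: b is even, b = 2b',
and 3 ∣ a, a = 3a', a' + b' + c = M. redZ p (e6^2) = A - 1728 D by `dl_eq`, so
redZ p (dl^c e4^a e6^b) = D^c A^a' (A - 1728 D)^b'. Multiplication maps N(M) × N(M') to N(M+M')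
(as in Q2), D ∈ N(1), A ∈ N(1), hence A - 1728 D ∈ N(1) and the product is in N(c+a'+b') = N(M).
(N(0) = span {1}; powers by induction.)
(ii) If f ∈ N(M) and the coefficients 0..M of f vanish then f = 0: induction on M. Every element
of N(M) is x A^M + D g with x in ZMod p, g ∈ N(M-1) (g = 0 if M = 0) (span induction). The
constant coefficient of D is 0 and that of A is 1 (Q1), so x = 0. Then f = D g = X u g with u of
constant coefficient 1, a unit of the power series ring; X^(M+1) ∣ X u g gives X^M ∣ u g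
(`PowerSeries.X_pow_dvd_iff`, cancel X), hence X^M ∣ g (multiply by u⁻¹,
`PowerSeries.isUnit_iff_constantCoeff`), so the coefficients 0..M-1 of g vanish and g = 0 by
induction.
-/

namespace H53M

open PowerSeries

/-- The triangular space spanned by `D^c A^(M-c)`, `c ≤ M`. -/
noncomputable def Q3_N {F : Type*} [Field F] (D A : PowerSeries F) (M : ℕ) :
    Submodule F (PowerSeries F) :=
  Submodule.span F {f | ∃ c : ℕ, c ≤ M ∧ f = D ^ c * A ^ (M - c)}

theorem Q3_mem {F : Type*} [Field F] (D A : PowerSeries F) {M c : ℕ} (h : c ≤ M) :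
    D ^ c * A ^ (M - c) ∈ Q3_N D A M :=
  Submodule.subset_span ⟨c, h, rfl⟩

theorem Q3_mul {F : Type*} [Field F] (D A : PowerSeries F) {M M' : ℕ} {f g : PowerSeries F}
    (hf : f ∈ Q3_N D A M) (hg : g ∈ Q3_N D A M') : f * g ∈ Q3_N D A (M + M') := by
  have h : Q3_N D A M * Q3_N D A M' ≤ Q3_N D A (M + M') := by
    unfold Q3_N
    rw [Submodule.span_mul_span]
    refine Submodule.span_le.2 ?_
    rintro _ ⟨_, ⟨c, hc, rfl⟩, _, ⟨c', hc', rfl⟩, rfl⟩
    refine Submodule.subset_span ⟨c + c', by omega, ?_⟩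
    have e : M + M' - (c + c') = (M - c) + (M' - c') := by omega
    simp only []
    rw [e, pow_add, pow_add]
    ring
  exact h (Submodule.mul_mem_mul hf hg)

theorem Q3_one {F : Type*} [Field F] (D A : PowerSeries F) : (1 : PowerSeries F) ∈ Q3_N D A 0 := by
  have h := Q3_mem D A (le_refl 0)
  simpa using h

theorem Q3_pow {F : Type*} [Field F] (D A : PowerSeries F) {M : ℕ} {f : PowerSeries F}
    (hf : f ∈ Q3_N D A M) (n : ℕ) : f ^ n ∈ Q3_N D A (n * M) := by
  induction n with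
  | zero => simpa using Q3_one D A
  | succ n ih =>
    rw [pow_succ, Nat.succ_mul]
    exact Q3_mul D A ih hf

theorem Q3_split {F : Type*} [Field F] (D A : PowerSeries F) (M : ℕ) {f : PowerSeries F}
    (hf : f ∈ Q3_N D A (M + 1)) :
    ∃ (x : F) (g : PowerSeries F), g ∈ Q3_N D A M ∧ f = x • A ^ (M + 1) + D * g := by
  unfold Q3_N at hf
  induction hf using Submodule.span_induction with
  | mem f hf =>
    obtain ⟨c, hc, rfl⟩ := hf
    rcases Nat.eq_zero_or_pos c with rfl | hpos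
    · exact ⟨1, 0, Submodule.zero_mem _, by simp⟩
    · refine ⟨0, D ^ (c - 1) * A ^ (M - (c - 1)), Q3_mem D A (by omega), ?_⟩
      have e1 : M + 1 - c = M - (c - 1) := by omega
      rw [zero_smul, zero_add, e1, ← mul_assoc, ← pow_succ', Nat.sub_add_cancel hpos]
  | zero => exact ⟨0, 0, Submodule.zero_mem _, by simp⟩
  | add f g _ _ hf hg =>
    obtain ⟨x, a, ha, rfl⟩ := hf
    obtain ⟨y, b, hb, rfl⟩ := hg
    refine ⟨x + y, a + b, Submodule.add_mem _ ha hb, ?_⟩
    rw [add_smul]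
    ring
  | smul r f _ hf =>
    obtain ⟨x, a, ha, rfl⟩ := hf
    refine ⟨r * x, r • a, Submodule.smul_mem _ r ha, ?_⟩
    rw [smul_add, smul_smul, mul_smul_comm]

theorem Q3_zero {F : Type*} [Field F] (D A : PowerSeries F) {f : PowerSeries F}
    (hf : f ∈ Q3_N D A 0) : ∃ x : F, f = x • (1 : PowerSeries F) := by
  unfold Q3_N at hf
  induction hf using Submodule.span_induction with
  | mem f hf =>
    obtain ⟨c, hc, rfl⟩ := hf
    obtain rfl : c = 0 := by omega
    exact ⟨1, by simp⟩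
  | zero => exact ⟨0, by simp⟩
  | add f g _ _ hf hg =>
    obtain ⟨x, rfl⟩ := hf
    obtain ⟨y, rfl⟩ := hg
    exact ⟨x + y, by rw [add_smul]⟩
  | smul r f _ hf =>
    obtain ⟨x, rfl⟩ := hf
    exact ⟨r * x, by rw [smul_smul]⟩

theorem Q3_tri {F : Type*} [Field F] (D A u : PowerSeries F) (hD : D = X * u)
    (hu : constantCoeff u = 1) (hA : constantCoeff A = 1) (M : ℕ) :
    ∀ f : PowerSeries F, f ∈ Q3_N D A M → (∀ n, n ≤ M → coeff n f = 0) → f = 0 := by
  induction M with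
  | zero =>
    intro f hf h0
    obtain ⟨x, rfl⟩ := Q3_zero D A hf
    have h := h0 0 le_rfl
    have hx : x = 0 := by simpa using h
    rw [hx, zero_smul]
  | succ M ih =>
    intro f hf h0
    obtain ⟨x, g, hg, rfl⟩ := Q3_split D A M hf
    have hx : x = 0 := by
      have h := h0 0 (Nat.zero_le _)
      rw [hD] at h
      rw [coeff_zero_eq_constantCoeff_apply] at h
      simpa [hA, mul_assoc] using h
    rw [hx, zero_smul, zero_add] at h0 ⊢
    have hug : ∀ n, n ≤ M → coeff n (u * g) = 0 := by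
      intro n hn
      have h := h0 (n + 1) (by omega)
      rw [hD, mul_assoc, coeff_succ_X_mul] at h
      exact h
    have hunit : IsUnit u := by
      rw [PowerSeries.isUnit_iff_constantCoeff, hu]
      exact isUnit_one
    have hdvd : (X : PowerSeries F) ^ (M + 1) ∣ u * g :=
      PowerSeries.X_pow_dvd_iff.2 fun n hn => hug n (by omega)
    have hdvd' : (X : PowerSeries F) ^ (M + 1) ∣ g := by
      obtain ⟨v, hv⟩ := hunit.exists_left_inv
      have : g = v * (u * g) := by rw [← mul_assoc, hv, one_mul]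
      rw [this]
      exact Dvd.dvd.mul_left hdvd v
    have hg0 : g = 0 := ih g hg fun n hn => PowerSeries.X_pow_dvd_iff.1 hdvd' n (by omega)
    rw [hg0, mul_zero]

theorem Q3_incl (p : ℕ) [Fact p.Prime] (M : ℕ) :
    MP p (12 * M) ≤ Q3_N (redZ p dl) (redZ p (e4 ^ 3)) M := by
  unfold MP
  refine Submodule.span_le.2 ?_
  rintro _ ⟨a, b, c, h, rfl⟩
  obtain ⟨b', rfl⟩ : ∃ b', b = 2 * b' := ⟨b / 2, by omega⟩
  obtain ⟨a', rfl⟩ : ∃ a', a = 3 * a' := ⟨a / 3, by omega⟩
  have hM : c + a' + b' = M := by omega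
  have hD : redZ p dl ∈ Q3_N (redZ p dl) (redZ p (e4 ^ 3)) 1 := by
    have := Q3_mem (redZ p dl) (redZ p (e4 ^ 3)) (le_refl 1)
    simpa using this
  have hA : redZ p (e4 ^ 3) ∈ Q3_N (redZ p dl) (redZ p (e4 ^ 3)) 1 := by
    have := Q3_mem (redZ p dl) (redZ p (e4 ^ 3)) (Nat.zero_le 1)
    simpa using this
  have hB : redZ p (e6 ^ 2) ∈ Q3_N (redZ p dl) (redZ p (e4 ^ 3)) 1 := by
    have e : e6 ^ 2 = e4 ^ 3 - (1728 : PowerSeries ℤ) * dl := by rw [dl_eq]; ring
    have e' : (1728 : PowerSeries ℤ) * dl = (1728 : ℕ) • dl := by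
      rw [nsmul_eq_mul]
      norm_num
    rw [e, map_sub, e', map_nsmul]
    exact Submodule.sub_mem _ hA (nsmul_mem hD _)
  have e : redZ p (dl ^ c * e4 ^ (3 * a') * e6 ^ (2 * b')) =
      redZ p dl ^ c * redZ p (e4 ^ 3) ^ a' * redZ p (e6 ^ 2) ^ b' := by
    rw [pow_mul, pow_mul, map_mul, map_mul, map_pow, map_pow, map_pow (redZ p) (e6 ^ 2) b']
  rw [SetLike.mem_coe, e, ← hM]
  have h1 := Q3_pow _ _ hD c
  have h2 := Q3_pow _ _ hA a'
  have h3 := Q3_pow _ _ hB b'
  rw [mul_one] at h1 h2 h3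
  exact Q3_mul _ _ (Q3_mul _ _ h1 h2) h3

theorem sturm (p : ℕ) [Fact p.Prime] (M : ℕ) {f : PowerSeries (ZMod p)}
    (hf : f ∈ MP p (12 * M)) (h0 : ∀ n, n ≤ M → coeff n f = 0) : f = 0 := by
  obtain ⟨u, hu, hdl⟩ := dl_factor
  refine Q3_tri (redZ p dl) (redZ p (e4 ^ 3)) (redZ p u) ?_ ?_ ?_ M f (Q3_incl p M hf) h0
  · rw [hdl, map_mul]
    simp
  · rw [← coeff_zero_eq_constantCoeff_apply, PowerSeries.coeff_map,
      coeff_zero_eq_constantCoeff_apply, hu]
    simp
  · rw [← coeff_zero_eq_constantCoeff_apply, PowerSeries.coeff_map,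
      coeff_zero_eq_constantCoeff_apply, map_pow, ← coeff_zero_eq_constantCoeff_apply,
      coeff_zero_e4]
    simp

end H53M
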