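import Pool.Agent.Lib.H53M.Q4C

/-!
# H53M, module S: definitions (no chunk, fully proved)
-/

namespace H53M

open PowerSeries

/-- The index set of the auxiliary function: `i + A j ≤ B`, `i + w' j + l ≤ W`. -/
def Idx (w' A B W : ℕ) : Finset (ℕ × ℕ × ℕ) :=
  ((Finset.range (B + 1)) ×ˢ (Finset.range (B + 1)) ×ˢ (Finset.range (W + 1))).filter
    fun t => t.1 + A * t.2.1 ≤ B ∧ t.1 + w' * t.2.1 + t.2.2 ≤ W

/-- The monomial attached to an index. -/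
noncomputable def Ft (w' W : ℕ) (h : PowerSeries ℚ) (t : ℕ × ℕ × ℕ) : PowerSeries ℚ :=
  toQ (dl ^ t.2.2 * e4 ^ (3 * (W - t.1 - w' * t.2.1 - t.2.2)) * e2 ^ (6 * t.1)) *
    h ^ (6 * t.2.1)

theorem Phi_eq (w' W : ℕ) (S : Finset (ℕ × ℕ × ℕ)) (g : ℕ × ℕ × ℕ → ℤ) (h : PowerSeries ℚ) :
    Phi w' W S g h = ∑ t ∈ S, (g t : ℚ) • Ft w' W h t := rfl

theorem coeff_Phi (w' W : ℕ) (S : Finset (ℕ × ℕ × ℕ)) (g : ℕ × ℕ × ℕ → ℤ) (h : PowerSeries ℚ)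
    (n : ℕ) : coeff n (Phi w' W S g h) = ∑ t ∈ S, (g t : ℚ) * coeff n (Ft w' W h t) := by
  rw [Phi_eq, map_sum]
  exact Finset.sum_congr rfl fun t _ => by rw [PowerSeries.coeff_smul, smul_eq_mul]

theorem mem_Idx {w' A B W : ℕ} (hA : 1 ≤ A) {t : ℕ × ℕ × ℕ} :
    t ∈ Idx w' A B W ↔ t.1 + A * t.2.1 ≤ B ∧ t.1 + w' * t.2.1 + t.2.2 ≤ W := by
  unfold Idx
  rw [Finset.mem_filter]
  constructor
  · exact fun h => h.2
  · intro h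
    refine ⟨?_, h⟩
    have h1 : t.2.1 ≤ A * t.2.1 := Nat.le_mul_of_pos_left _ hA
    simp only [Finset.mem_product, Finset.mem_range]
    exact ⟨by omega, by omega, by omega⟩

theorem Idx_le_B {w' A B W : ℕ} (hA : 1 ≤ A) {t : ℕ × ℕ × ℕ} (ht : t ∈ Idx w' A B W) :
    t.1 ≤ B ∧ t.2.1 ≤ B ∧ t.2.2 ≤ W ∧ t.1 ≤ W := by
  have h := (mem_Idx hA).1 ht
  have h1 : t.2.1 ≤ A * t.2.1 := Nat.le_mul_of_pos_left _ hA
  exact ⟨by omega, by omega, by omega, by omega⟩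

/-- Coefficientwise domination of a rational series by `K (1-X)^{-d}`. -/
def Maj (d : ℕ) (K : ℝ) (f : PowerSeries ℚ) : Prop :=
  ∀ n, |((coeff n f : ℚ) : ℝ)| ≤ K * coeff n ((invOneSubPow ℝ d).val)

end H53M
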