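import Pool.Agent.Lib.H53M.S0

/-!
# H53M, chunk SA1: the majorant calculus

Size M, elementary.

PROOF. Write m d n = coeff n (invOneSubPow ℝ d).val (the coefficient of (1-X)^{-d}).
* m d n ≥ 0: for d = 0 it is [n = 0] (`invOneSubPow_zero`), for d ≥ 1 it is
  choose (d-1+n) (d-1) (`invOneSubPow_val_eq_mk_sub_one_add_choose_of_pos`).
* `Maj_mul` : coeff n (f g) = Σ over the antidiagonal, triangle inequality, and
  (invOneSubPow (d+d')).val = product (`invOneSubPow_add`, `Units.val_mul`), `coeff_mul`.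
* `Maj_one` : (1-X)^0 = 1.  `Maj_pow` : induction.
* `Maj_mono` : m d n ≤ m (d+1) n since (1-X)^{-(d+1)} = (1-X)^{-d} (1-X)^{-1}, coefficient
  n = Σ_{i+j=n} m d i * m 1 j ≥ m d n * m 1 0 = m d n; induction on the difference, and K ≤ K'.
* `Maj_base` : (n+1)^s ≤ s! choose(s+n, s) (`Nat.pow_le_choose`; or induction on s), and
  m (s+1) n = choose (s+n) s.
-/

namespace H53M

open PowerSeries

theorem SA1_succ (d n : ℕ) : coeff n ((invOneSubPow ℝ (d + 1)).val) = (Nat.choose (d + n) d : ℝ) := by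
  rw [invOneSubPow_val_succ_eq_mk_add_choose, coeff_mk]

theorem SA1_zero (n : ℕ) : coeff n ((invOneSubPow ℝ 0).val) = if n = 0 then (1 : ℝ) else 0 := by
  rw [invOneSubPow_zero, Units.val_one, coeff_one]

theorem m_nonneg (d n : ℕ) : 0 ≤ coeff n ((invOneSubPow ℝ d).val) := by
  rcases d with _ | d
  · rw [SA1_zero]
    split_ifs <;> norm_num
  · rw [SA1_succ]
    positivity

theorem Maj_one : Maj 0 1 1 := by
  intro n
  rw [SA1_zero, coeff_one, one_mul]
  split_ifs <;> simp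

theorem Maj_mul {d d' : ℕ} {K K' : ℝ} {f g : PowerSeries ℚ} (hK : 0 ≤ K) (hf : Maj d K f)
    (hg : Maj d' K' g) : Maj (d + d') (K * K') (f * g) := by
  intro n
  rw [invOneSubPow_add, Units.val_mul, coeff_mul, coeff_mul, Finset.mul_sum, Rat.cast_sum]
  refine (Finset.abs_sum_le_sum_abs _ _).trans (Finset.sum_le_sum fun x _ => ?_)
  rw [Rat.cast_mul, abs_mul]
  have h1 := hf x.1
  have h2 := hg x.2
  calc |((coeff x.1 f : ℚ) : ℝ)| * |((coeff x.2 g : ℚ) : ℝ)|
      ≤ (K * coeff x.1 ((invOneSubPow ℝ d).val)) * (K' * coeff x.2 ((invOneSubPow ℝ d').val)) :=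
        mul_le_mul h1 h2 (abs_nonneg _) (mul_nonneg hK (m_nonneg _ _))
    _ = _ := by ring

theorem Maj_pow {d : ℕ} {K : ℝ} {f : PowerSeries ℚ} (hK : 0 ≤ K) (hf : Maj d K f) (n : ℕ) :
    Maj (n * d) (K ^ n) (f ^ n) := by
  induction n with
  | zero =>
    rw [Nat.zero_mul, pow_zero, pow_zero]
    exact Maj_one
  | succ n ih =>
    rw [Nat.succ_mul, pow_succ, pow_succ]
    exact Maj_mul (pow_nonneg hK n) ih hf

theorem SA1_le_succ (d n : ℕ) : coeff n ((invOneSubPow ℝ d).val) ≤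
    coeff n ((invOneSubPow ℝ (d + 1)).val) := by
  rcases d with _ | d
  · rw [SA1_zero, SA1_succ]
    simp only [zero_add, Nat.choose_zero_right, Nat.cast_one]
    split_ifs <;> norm_num
  · rw [SA1_succ, SA1_succ]
    have h1 : d + 1 + n = (d + n) + 1 := by omega
    rw [h1, Nat.choose_succ_succ]
    push_cast
    have : (0 : ℝ) ≤ ((d + n).choose (d + 1) : ℝ) := by positivity
    linarith

theorem SA1_mono {d d' : ℕ} (hd : d ≤ d') (n : ℕ) : coeff n ((invOneSubPow ℝ d).val) ≤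
    coeff n ((invOneSubPow ℝ d').val) := by
  induction d', hd using Nat.le_induction with
  | base => exact le_rfl
  | succ e _ ih => exact ih.trans (SA1_le_succ e n)

theorem Maj_mono {d d' : ℕ} {K K' : ℝ} {f : PowerSeries ℚ} (hK : 0 ≤ K) (hd : d ≤ d')
    (hKK : K ≤ K') (hf : Maj d K f) : Maj d' K' f := by
  intro n
  refine (hf n).trans ?_
  exact mul_le_mul hKK (SA1_mono hd n) (m_nonneg _ _) (hK.trans hKK)

theorem Maj_base {C : ℝ} (hC : 0 ≤ C) {s : ℕ} {f : PowerSeries ℚ}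
    (hf : ∀ n, |((coeff n f : ℚ) : ℝ)| ≤ C * ((n : ℝ) + 1) ^ s) :
    Maj (s + 1) (C * (s.factorial : ℝ)) f := by
  intro n
  refine (hf n).trans ?_
  rw [SA1_succ, mul_assoc]
  apply mul_le_mul_of_nonneg_left _ hC
  have h1 := Nat.pow_le_choose (α := ℝ) s (s + n)
  have h2 : s + n + 1 - s = n + 1 := by omega
  rw [h2, div_le_iff₀ (by positivity)] at h1
  push_cast at h1
  linarith

end H53M
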