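import Pool.Agent.Lib.H53M.S0

/-!
# H53M, chunk SB: counting the unknowns

Size S/M, elementary.

PROOF. Upper bound: Idx is a subset of a product of ranges. Lower bound: the triples with
i ≤ B/2, j ≤ B/(2A) (natural divisions), l ≤ W/2 are in Idx (i + A j ≤ B/2 + B/2 ≤ B, and
i + w' j + l ≤ B + w' B + W/2 ≤ W because 2 (1+w') B ≤ W): their number is
(B/2+1) (B/(2A)+1) (W/2+1) ≥ (B/2) (B/(2A)) (W/2) (real divisions) = B² W / (8A)
(`Nat.lt_floor_add_one` style: x/k + 1 ≥ x/k as reals, `Nat.lt_succ_of_div...`, `Nat.div_add_mod`).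
-/

namespace H53M

theorem card_Idx_le (w' A B W : ℕ) : (Idx w' A B W).card ≤ (B + 1) ^ 2 * (W + 1) := by
  unfold Idx
  refine (Finset.card_filter_le _ _).trans (le_of_eq ?_)
  rw [Finset.card_product, Finset.card_product, Finset.card_range, Finset.card_range]
  ring

theorem SB_div (x k : ℕ) (hk : 0 < k) : (x : ℝ) / k ≤ ((x / k + 1 : ℕ) : ℝ) := by
  rw [div_le_iff₀ (by exact_mod_cast hk)]
  have h := Nat.lt_succ_iff.1 (Nat.lt_succ_of_lt (Nat.lt_mul_div_succ x hk))
  have h2 : x ≤ (x / k + 1) * k := by rw [mul_comm]; exact h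
  exact_mod_cast h2

theorem card_Idx_ge (w' A B W : ℕ) (hA : 1 ≤ A) (hW : 2 * (1 + w') * B ≤ W) :
    (B : ℝ) ^ 2 * W / (8 * A) ≤ ((Idx w' A B W).card : ℝ) := by
  have hsub : (Finset.range (B / 2 + 1)) ×ˢ (Finset.range (B / (2 * A) + 1)) ×ˢ
      (Finset.range (W / 2 + 1)) ⊆ Idx w' A B W := by
    intro t ht
    simp only [Finset.mem_product, Finset.mem_range] at ht
    obtain ⟨h1, h2, h3⟩ := ht
    rw [mem_Idx hA]
    have h4 : 2 * (A * t.2.1) ≤ B := by
      have h5 : t.2.1 ≤ B / (2 * A) := by omega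
      have h6 := (Nat.le_div_iff_mul_le (by omega : 0 < 2 * A)).1 h5
      calc 2 * (A * t.2.1) = t.2.1 * (2 * A) := by ring
        _ ≤ B := h6
    have h7 : t.2.1 ≤ A * t.2.1 := Nat.le_mul_of_pos_left _ hA
    have h8 : t.2.1 ≤ B := by omega
    have h9 : w' * t.2.1 ≤ w' * B := Nat.mul_le_mul_left _ h8
    have h10 : 2 * B + 2 * (w' * B) ≤ W := by
      calc 2 * B + 2 * (w' * B) = 2 * (1 + w') * B := by ring
        _ ≤ W := hW
    constructor
    · omega
    · omega
  have hcard := Finset.card_le_card hsub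
  rw [Finset.card_product, Finset.card_product, Finset.card_range, Finset.card_range,
    Finset.card_range] at hcard
  have hcardR : (((B / 2 + 1) * ((B / (2 * A) + 1) * (W / 2 + 1)) : ℕ) : ℝ) ≤
      ((Idx w' A B W).card : ℝ) := by exact_mod_cast hcard
  refine le_trans ?_ hcardR
  have hB := SB_div B 2 (by norm_num)
  have hBA := SB_div B (2 * A) (by omega)
  have hWd := SB_div W 2 (by norm_num)
  have hApos : (0 : ℝ) < A := by exact_mod_cast hA
  rw [Nat.cast_mul (B / 2 + 1), Nat.cast_mul (B / (2 * A) + 1)]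
  have e : (B : ℝ) ^ 2 * W / (8 * A) = ((B : ℝ) / (2 : ℕ)) * (((B : ℝ) / ((2 * A : ℕ) : ℝ)) *
      ((W : ℝ) / (2 : ℕ))) := by
    push_cast
    field_simp
    ring
  rw [e]
  gcongr

end H53M
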