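import Pool.Agent.Lib.H53M.S0
import Pool.Agent.Lib.H53M.Q3
import Pool.Agent.Lib.H53M.Q6

/-!
# H53M, chunk SE: divisibility of the leading coefficient by the good primes

Size M.

PROOF. p > 3 prime, h p-integral, redQ p h ∈ MP p (2w' + (p-1)A).
(i) `redQ_Ft` : for t = (i,j,l) ∈ Idx, redQ p (Ft t) = redZ p dl^l * redZ p e4^(3(..)) *
redZ p e2^(6i) * (redQ p h)^(6j) (`redQ_mul`, `redQ_toQ`, `redQ_pow`, with `PInt_toQ`, `PInt_pow`) is in
MP p (12 l + 12 (W - i - w' j - l) + 6 i (p+1) + 6 j (2w' + (p-1)A)) (`MP_mono`, `MP_mul`,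
`MP_pow`, `e2_mem`). The weight equals 12 W + 6(p-1)(i + A j) (p + 1 = (p - 1) + 2; natural
numbers: l ≤ W - i - w' j), so with `MP_shift` and `one_mem`, (B - i - A j) * 6 times,
redQ p (Ft t) ∈ MP p (12 W + 6 (p-1) B). p - 1 is even: 6 (p-1) B = 12 ((p-1)/2 B).
(ii) redQ p (Phi) = Σ (x t : ZMod p) • redQ p (Ft t) (`redQ_sum`, `redQ_smul`) ∈
MP p (12 (W + (p-1)/2 B)).
(iii) `Phi_dvd` : if coeff n Phi = 0 for n < N and W + (p-1)/2 B < N, then `sturm` gives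
redQ p Phi = 0; so (coeff N Phi : ZMod p) = 0; E coeff N Phi = z gives (z : ZMod p) =
(E : ZMod p) * (coeff N Phi : ZMod p) = 0 (the denominator is prime to p: `PInt`), i.e. p ∣ z.
-/

namespace H53M

open PowerSeries

theorem redQ_Ft (p : ℕ) [Fact p.Prime] (hp : 3 < p) (w' A B W : ℕ) (hA : 1 ≤ A)
    (h : PowerSeries ℚ) (hI : PInt p h) (hr : redQ p h ∈ MP p (2 * w' + (p - 1) * A))
    (t : ℕ × ℕ × ℕ) (ht : t ∈ Idx w' A B W) :
    PInt p (Ft w' W h t) ∧ redQ p (Ft w' W h t) ∈ MP p (12 * (W + (p - 1) / 2 * B)) := by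
  obtain ⟨i, j, l⟩ := t
  obtain ⟨h1, h2⟩ := (mem_Idx hA).1 ht
  simp only at h1 h2
  refine ⟨PInt_mul (PInt_toQ _) (PInt_pow hI _), ?_⟩
  unfold Ft
  simp only
  rw [redQ_mul (PInt_toQ _) (PInt_pow hI _), redQ_toQ, redQ_pow hI]
  obtain ⟨r, hr'⟩ : ∃ r, W - i - w' * j - l = r := ⟨_, rfl⟩
  obtain ⟨s, hs⟩ : ∃ s, B = s + i + A * j := ⟨B - i - A * j, by omega⟩
  have hW : W = r + i + w' * j + l := by omega
  obtain ⟨q, hq⟩ : ∃ q, p = 2 * q + 1 := by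
    rcases (Fact.out : p.Prime).eq_two_or_odd' with h | h
    · omega
    · exact h
  rw [hr']
  have e1 : redZ p (dl ^ l * e4 ^ (3 * r) * e2 ^ (6 * i)) =
      redZ p (dl ^ l * e4 ^ (3 * r) * e6 ^ 0) * redZ p e2 ^ (6 * i) := by
    rw [pow_zero, mul_one, map_mul, map_pow (redZ p) e2]
  rw [e1]
  have m1 := MP_mono p (3 * r) 0 l
  have m2 := MP_pow (e2_mem p hp) (6 * i)
  have m3 := MP_pow hr (6 * j)
  have m4 := MP_shift (one_mem p hp) (6 * s) (MP_mul (MP_mul m1 m2) m3)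
  refine MP_cast ?_ m4
  have hp1 : p - 1 = 2 * q := by omega
  have hp2 : (p - 1) / 2 = q := by omega
  rw [hp2, hp1, hW, hs, hq]
  ring

theorem Phi_dvd (p : ℕ) [Fact p.Prime] (hp : 3 < p) (w' A B W : ℕ) (hA : 1 ≤ A)
    (h : PowerSeries ℚ) (hI : PInt p h) (hr : redQ p h ∈ MP p (2 * w' + (p - 1) * A))
    (x : ℕ × ℕ × ℕ → ℤ) (N : ℕ) (h0 : ∀ n, n < N → coeff n (Phi w' W (Idx w' A B W) x h) = 0)
    (hN : W + (p - 1) / 2 * B < N) (E : ℕ) (z : ℤ)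
    (hz : (E : ℚ) * coeff N (Phi w' W (Idx w' A B W) x h) = z) : (p : ℤ) ∣ z := by
  have hden : ∀ n : ℤ, ¬ p ∣ ((n : ℤ) : ℚ).den := by
    intro n
    rw [Rat.den_intCast]
    exact (Fact.out : p.Prime).one_lt.ne' ∘ Nat.dvd_one.1
  have hterm : ∀ t ∈ Idx w' A B W, PInt p ((x t : ℚ) • Ft w' W h t) := fun t ht =>
    PInt_smul (hden (x t)) (redQ_Ft p hp w' A B W hA h hI hr t ht).1
  have hPI : PInt p (Phi w' W (Idx w' A B W) x h) := by
    rw [Phi_eq]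
    exact PInt_sum _ hterm
  have hmem : redQ p (Phi w' W (Idx w' A B W) x h) ∈ MP p (12 * (W + (p - 1) / 2 * B)) := by
    rw [Phi_eq, redQ_sum _ hterm]
    refine Submodule.sum_mem _ fun t ht => ?_
    obtain ⟨a, b⟩ := redQ_Ft p hp w' A B W hA h hI hr t ht
    rw [redQ_smul (hden (x t)) a]
    exact Submodule.smul_mem _ _ b
  have hzero : redQ p (Phi w' W (Idx w' A B W) x h) = 0 := by
    refine sturm p _ hmem fun n hn => ?_
    rw [redQ, coeff_mk, h0 n (by omega)]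
    simp
  have hc : ((coeff N (Phi w' W (Idx w' A B W) x h) : ℚ) : ZMod p) = 0 := by
    have := congrArg (coeff N) hzero
    rwa [redQ, coeff_mk, map_zero] at this
  have hne : ∀ y : ℚ, ¬ p ∣ y.den → (y.den : ZMod p) ≠ 0 := by
    intro y hy h
    exact hy ((ZMod.natCast_eq_zero_iff _ _).1 h)
  have hcast : ((z : ℤ) : ZMod p) = 0 := by
    have e : (((z : ℤ) : ℚ) : ZMod p) = ((z : ℤ) : ZMod p) := Rat.cast_intCast z
    rw [← e, ← hz, Rat.cast_mul_of_ne_zero, hc, mul_zero]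
    · have := hden (E : ℤ)
      exact hne _ (by exact_mod_cast this)
    · exact hne _ (hPI N)
  exact (ZMod.intCast_zmod_eq_zero_iff_dvd z p).1 hcast

end H53M
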