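import Mathlib

/-!
# H53M, chunk SF: an integer divisible by many primes is large

Size S.

PROOF. The product of the distinct primes p ≤ X with P p divides z (pairwise coprime:
`Finset.prod_primes_dvd`, or `Finset.prod_dvd_of_coprime`), z ≠ 0, so it is ≤ |z|; take
logarithms (`Real.log_prod`).
-/

namespace H53M

theorem theta_le_log (P : ℕ → Prop) [DecidablePred P] (hP : ∀ p, P p → p.Prime) (X : ℕ) (z : ℤ)
    (hz : z ≠ 0) (hd : ∀ p, P p → p ≤ X → (p : ℤ) ∣ z) :
    ∑ p ∈ (Finset.range (X + 1)).filter P, Real.log p ≤ Real.log |(z : ℝ)| := by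
  have h1 : ∏ p ∈ (Finset.range (X + 1)).filter P, p ∣ z.natAbs := by
    refine Finset.prod_primes_dvd _ ?_ ?_
    · intro p hp
      exact (hP p (Finset.mem_filter.1 hp).2).prime
    · intro p hp
      rw [Finset.mem_filter, Finset.mem_range] at hp
      exact Int.natCast_dvd.1 (hd p hp.2 (by omega))
  have h2 : ∏ p ∈ (Finset.range (X + 1)).filter P, p ≤ z.natAbs :=
    Nat.le_of_dvd (Int.natAbs_pos.2 hz) h1
  have h3 : 0 < ∏ p ∈ (Finset.range (X + 1)).filter P, p :=
    Finset.prod_pos fun p hp => (hP p (Finset.mem_filter.1 hp).2).pos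
  have h4 : Real.log ((∏ p ∈ (Finset.range (X + 1)).filter P, p : ℕ) : ℝ) =
      ∑ p ∈ (Finset.range (X + 1)).filter P, Real.log p := by
    rw [Nat.cast_prod, Real.log_prod]
    intro p hp
    have := (hP p (Finset.mem_filter.1 hp).2).pos
    have h5 : (0 : ℝ) < p := by exact_mod_cast this
    exact h5.ne'
  rw [← h4]
  apply Real.log_le_log (by exact_mod_cast h3)
  have h5 : ((z.natAbs : ℕ) : ℝ) = |(z : ℝ)| := by
    rw [← Int.cast_abs, Int.abs_eq_natAbs]
    rfl
  rw [← h5]
  exact_mod_cast h2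

end H53M
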