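import Pool.Agent.Lib.H53M.SA4
import Pool.Agent.Lib.H53M.SB
import Pool.Agent.Lib.H53M.SD
import Pool.Agent.Lib.H53M.SE
import Pool.Agent.Lib.H53M.SF
import Pool.Agent.Lib.H53M.SG

/-!
# H53M, chunk SH: Theorem S

Size M.

PROOF. By contradiction, assume `¬ Rel w' h`. C4 from `Ft_bound`; X₀ from hθ; B, W from
`numeric`; U = card Idx (`card_Idx_ge`, `card_Idx_le`); T = U/2. `siegel` with
E = exp (C4 W log(2 + T/W)) ≥ 1 gives x. Phi = Phi w' W Idx x h ≠ 0, since otherwise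
⟨W, Idx, x, ..⟩ is a relation (`mem_Idx`). N := order of Phi, i.e. the least N with
coeff N Phi ≠ 0 (`Nat.find`); N ≥ T. z := the integer D(N)^(6B) coeff N Phi (sum of the
integers x_t D(N)^(6B) coeff N (Ft t), `Ft_int` with m = n = N, `coeff_Phi`), z ≠ 0, and
 |z| ≤ U * (U * D(T)^(6B) * exp(C4 W log(2+T/W))) * D(N)^(6B) * exp(C4 W log(2+N/W)),
 log |z| ≤ 2 log U + 12 B log D(N) + 2 C4 W log(2+N/W)   (T ≤ N, D(T) ≤ D(N)).
Every p with P p, p ≤ X := 2 (N-W)/B divides z (`Phi_dvd` with E := D(N)^(6B)):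
p B ≤ 2 (N-W) implies ((p-1)/2) B < N - W. `theta_le_log` gives
c0 X ≤ Σ log p ≤ log |z| < c0 X, contradiction.
-/

namespace H53M

open PowerSeries

theorem thmS (w' A : ℕ) (hA : 1 ≤ A) (h : PowerSeries ℚ) (C : ℝ) (κ : ℕ)
    (hC : ∀ n, |((coeff n h : ℚ) : ℝ)| ≤ C * ((n : ℝ) + 1) ^ κ)
    (D : ℕ → ℕ) (hD0 : ∀ n, 0 < D n) (hDd : ∀ n, D n ∣ D (n + 1))
    (hDh : ∀ n, ∃ z : ℤ, (D n : ℚ) * coeff n h = z)
    (hDl : ∀ ε : ℝ, 0 < ε → ∃ N₀ : ℕ, ∀ n ≥ N₀, Real.log (D n) ≤ ε * n)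
    (P : ℕ → Prop) [DecidablePred P] (hP : ∀ p, P p → p.Prime ∧ 3 < p)
    (c0 : ℝ) (hc0 : 0 < c0)
    (hθ : ∃ X₀ : ℕ, ∀ X ≥ X₀, c0 * (X : ℝ) ≤
      ∑ p ∈ (Finset.range (X + 1)).filter P, Real.log p)
    (hI : ∀ p, P p → PInt p h)
    (hr : ∀ p [Fact p.Prime], P p → redQ p h ∈ MP p (2 * w' + (p - 1) * A)) :
    Rel w' h := by
  classical
  by_contra hRel
  obtain ⟨C4, hC4, hFb⟩ := Ft_bound w' A hA h C κ hC
  obtain ⟨X₀, hX₀⟩ := hθ
  obtain ⟨B, W, hB, hBW, hW, hnum⟩ := numeric w' A hA D hD0 hDl c0 C4 hc0 hC4 X₀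
  have hWpos : (0 : ℝ) < W := by
    have : 0 < W := lt_of_lt_of_le hB hBW
    exact_mod_cast this
  have hmono : ∀ a b : ℕ, a ≤ b → C4 * W * Real.log (2 + (a : ℝ) / W) ≤
      C4 * W * Real.log (2 + (b : ℝ) / W) := by
    intro a b hab
    have hab' : (a : ℝ) ≤ b := by exact_mod_cast hab
    have h1 : (a : ℝ) / W ≤ (b : ℝ) / W := by gcongr
    have h2 : 0 ≤ (a : ℝ) / W := by positivity
    have h3 : Real.log (2 + (a : ℝ) / W) ≤ Real.log (2 + (b : ℝ) / W) :=
      Real.log_le_log (by linarith) (by linarith)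
    exact mul_le_mul_of_nonneg_left h3 (by positivity)
  obtain ⟨hU2, hNall⟩ := hnum _ (card_Idx_ge w' A B W hA hW) (card_Idx_le w' A B W)
  obtain ⟨U, hU⟩ : ∃ U, U = (Idx w' A B W).card := ⟨_, rfl⟩
  rw [← hU] at hU2 hNall
  obtain ⟨T, hT⟩ : ∃ T, T = U / 2 := ⟨_, rfl⟩
  have hE1 : 1 ≤ Real.exp (C4 * W * Real.log (2 + (T : ℝ) / W)) := by
    rw [Real.one_le_exp_iff]
    have h2 : 0 ≤ (T : ℝ) / W := by positivity
    have h3 : 0 ≤ Real.log (2 + (T : ℝ) / W) := Real.log_nonneg (by linarith)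
    positivity
  obtain ⟨x, hx0, hxb, hxT⟩ := siegel w' A B W hA h D hD0 hDd hDh (by rw [← hU]; exact hU2)
    (Real.exp (C4 * W * Real.log (2 + (T : ℝ) / W))) hE1 (by
      intro t ht n hn
      rw [← hU, ← hT] at hn
      exact (hFb B W hB hBW t ht n).trans (Real.exp_le_exp.2 (hmono n T hn)))
  rw [← hU, ← hT] at hxT
  have hxb' : ∀ t, |(x t : ℝ)| ≤ (U : ℝ) * ((D T : ℝ) ^ (6 * B) *
      Real.exp (C4 * W * Real.log (2 + (T : ℝ) / W))) := by
    intro t
    have := hxb t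
    rw [← hU, ← hT] at this
    exact this
  have hΦ0 : Phi w' W (Idx w' A B W) x h ≠ 0 := by
    intro h0
    exact hRel ⟨W, Idx w' A B W, x, fun t ht => ((mem_Idx hA).1 ht).2, hx0, h0⟩
  have hex : ∃ N, coeff N (Phi w' W (Idx w' A B W) x h) ≠ 0 := by
    by_contra hcon
    push Not at hcon
    exact hΦ0 (PowerSeries.ext (fun n => by rw [hcon n, map_zero]))
  obtain ⟨N, hN⟩ : ∃ N, N = Nat.find hex := ⟨_, rfl⟩
  have hNne : coeff N (Phi w' W (Idx w' A B W) x h) ≠ 0 := by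
    rw [hN]
    exact Nat.find_spec hex
  have hNlt : ∀ n, n < N → coeff n (Phi w' W (Idx w' A B W) x h) = 0 := by
    intro n hn
    rw [hN] at hn
    by_contra h1
    exact Nat.find_min hex hn h1
  have hTN : T ≤ N := by
    by_contra hlt
    push Not at hlt
    exact hNne (hxT N hlt)
  obtain ⟨hXX, hfin⟩ := hNall N (by rw [← hT]; exact hTN)
  have hzt : ∀ t ∈ Idx w' A B W, ∃ z : ℤ,
      ((D N : ℚ)) ^ (6 * B) * coeff N (Ft w' W h t) = z :=
    fun t ht => Ft_int w' A B W hA h D hDd hDh t ht N N le_rfl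
  choose! zt hzt' using hzt
  obtain ⟨z, hzdef⟩ : ∃ z : ℤ, z = ∑ t ∈ Idx w' A B W, x t * zt t := ⟨_, rfl⟩
  have hz : ((D N : ℚ)) ^ (6 * B) * coeff N (Phi w' W (Idx w' A B W) x h) = z := by
    rw [coeff_Phi, Finset.mul_sum, hzdef]
    push_cast
    refine Finset.sum_congr rfl fun t ht => ?_
    rw [← hzt' t ht]
    ring
  have hDN : (0 : ℝ) < (D N : ℝ) := by exact_mod_cast hD0 N
  have hDT : (0 : ℝ) < (D T : ℝ) := by exact_mod_cast hD0 T
  have hz0 : z ≠ 0 := by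
    intro h0
    rw [h0] at hz
    have hDN' : (D N : ℚ) ≠ 0 := by exact_mod_cast (hD0 N).ne'
    have := mul_eq_zero.1 (hz.trans (by norm_num))
    rcases this with h1 | h1
    · exact pow_ne_zero _ hDN' h1
    · exact hNne h1
  -- size of z
  have hzb : |(z : ℝ)| ≤ (U : ℝ) * (((U : ℝ) * ((D T : ℝ) ^ (6 * B) *
      Real.exp (C4 * W * Real.log (2 + (T : ℝ) / W)))) * ((D N : ℝ) ^ (6 * B) *
      Real.exp (C4 * W * Real.log (2 + (N : ℝ) / W)))) := by
    have h1 : |(z : ℝ)| ≤ ∑ t ∈ Idx w' A B W, |(x t : ℝ)| * |(zt t : ℝ)| := by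
      rw [hzdef]
      push_cast
      refine (Finset.abs_sum_le_sum_abs _ _).trans (le_of_eq ?_)
      exact Finset.sum_congr rfl fun t _ => abs_mul _ _
    have h2 : ∀ t ∈ Idx w' A B W, |(x t : ℝ)| * |(zt t : ℝ)| ≤
        ((U : ℝ) * ((D T : ℝ) ^ (6 * B) * Real.exp (C4 * W * Real.log (2 + (T : ℝ) / W)))) *
        ((D N : ℝ) ^ (6 * B) * Real.exp (C4 * W * Real.log (2 + (N : ℝ) / W))) := by
      intro t ht
      have h3 : |(zt t : ℝ)| ≤ (D N : ℝ) ^ (6 * B) *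
          Real.exp (C4 * W * Real.log (2 + (N : ℝ) / W)) := by
        have h4 : (zt t : ℝ) = (D N : ℝ) ^ (6 * B) * ((coeff N (Ft w' W h t) : ℚ) : ℝ) := by
          have := hzt' t ht
          have h5 : (((zt t : ℤ) : ℚ) : ℝ) =
              ((((D N : ℚ)) ^ (6 * B) * coeff N (Ft w' W h t) : ℚ) : ℝ) := by rw [this]
          push_cast at h5
          exact h5
        rw [h4, abs_mul, abs_of_nonneg (by positivity : (0 : ℝ) ≤ (D N : ℝ) ^ (6 * B))]
        exact mul_le_mul_of_nonneg_left (hFb B W hB hBW t ht N) (by positivity)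
      exact mul_le_mul (hxb' t) h3 (abs_nonneg _) (by positivity)
    refine h1.trans ((Finset.sum_le_sum h2).trans (le_of_eq ?_))
    rw [Finset.sum_const, nsmul_eq_mul, ← hU]
  have hUpos : (0 : ℝ) < (U : ℝ) := by
    have : 0 < U := by omega
    exact_mod_cast this
  have hlog : Real.log |(z : ℝ)| ≤ 2 * Real.log U + 12 * B * Real.log (D N) +
      2 * C4 * W * Real.log (2 + (N : ℝ) / W) := by
    have hzpos : 0 < |(z : ℝ)| := by
      rw [abs_pos]
      exact_mod_cast hz0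
    have h1 := Real.log_le_log hzpos hzb
    have hDTp : (0 : ℝ) < (D T : ℝ) ^ (6 * B) := by positivity
    have hDNp : (0 : ℝ) < (D N : ℝ) ^ (6 * B) := by positivity
    rw [Real.log_mul hUpos.ne' (by positivity), Real.log_mul (by positivity) (by positivity),
      Real.log_mul hUpos.ne' (by positivity), Real.log_mul hDTp.ne' (Real.exp_pos _).ne',
      Real.log_mul hDNp.ne' (Real.exp_pos _).ne', Real.log_exp, Real.log_exp, Real.log_pow,
      Real.log_pow] at h1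
    have h2 := hmono T N hTN
    have hdvd : ∀ k, D T ∣ D (T + k) := by
      intro k
      induction k with
      | zero => exact dvd_refl _
      | succ k ih => exact ih.trans (hDd (T + k))
    have h3 : D T ≤ D N := by
      have := hdvd (N - T)
      rw [Nat.add_sub_cancel' hTN] at this
      exact Nat.le_of_dvd (hD0 N) this
    have h4 : Real.log (D T) ≤ Real.log (D N) :=
      Real.log_le_log hDT (by exact_mod_cast h3)
    have h5 : (0 : ℝ) ≤ (B : ℝ) := by positivity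
    push_cast at h1
    have h6 : 6 * (B : ℝ) * Real.log (D T) ≤ 6 * (B : ℝ) * Real.log (D N) :=
      mul_le_mul_of_nonneg_left h4 (by positivity)
    nlinarith [h1, h2, h6]
  -- the primes
  have hθ' : ∑ p ∈ (Finset.range (2 * (N - W) / B + 1)).filter P, Real.log p ≤
      Real.log |(z : ℝ)| := by
    refine theta_le_log P (fun p hp => (hP p hp).1) (2 * (N - W) / B) z hz0 ?_
    intro p hp hpX
    haveI : Fact p.Prime := ⟨(hP p hp).1⟩
    have hp3 := (hP p hp).2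
    have hpB : p * B ≤ 2 * (N - W) := (Nat.le_div_iff_mul_le hB).1 hpX
    have hlt : W + (p - 1) / 2 * B < N := by
      have h1 : 2 * ((p - 1) / 2) ≤ p - 1 := Nat.mul_div_le _ _
      have h2 : 2 * ((p - 1) / 2) * B ≤ (p - 1) * B := Nat.mul_le_mul_right _ h1
      have h3 : (p - 1) * B < p * B := Nat.mul_lt_mul_of_pos_right (by omega) hB
      have h4 : 2 * ((p - 1) / 2 * B) < 2 * (N - W) := by
        calc 2 * ((p - 1) / 2 * B) = 2 * ((p - 1) / 2) * B := by ring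
          _ ≤ (p - 1) * B := h2
          _ < p * B := h3
          _ ≤ 2 * (N - W) := hpB
      omega
    refine Phi_dvd p hp3 w' A B W hA h (hI p hp) (hr p hp) x N hNlt hlt (D N ^ (6 * B)) z ?_
    push_cast
    exact hz
  have hlow := hX₀ _ hXX
  linarith

end H53M
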