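import Pool.Agent.Lib.H53M.Core

/-!
Helper file for MP_251428_co: convolution with binomial rows, 2-positive sequences, and the
inequality between three consecutive levels.
-/

namespace Pool.Agent.Lib.H53M

open Finset

/-- convolution of `K` with the `m`-th row of Pascal's triangle. -/
def E (K : ℕ → ℚ) (m i : ℕ) : ℚ := ∑ p ∈ range (i + 1), K p * (m.choose (i - p) : ℚ)

lemma E_idx_zero (K : ℕ → ℚ) (m : ℕ) : E K m 0 = K 0 := by simp [E]

lemma E_row_zero (K : ℕ → ℚ) (i : ℕ) : E K 0 i = K i := by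
  unfold E
  rw [sum_range_succ, sum_eq_zero]
  · simp
  · intro p hp
    have hp' : p < i := mem_range.1 hp
    have : Nat.choose 0 (i - p) = 0 := Nat.choose_eq_zero_of_lt (by omega)
    rw [this]; simp

lemma E_succ (K : ℕ → ℚ) (m i : ℕ) : E K (m + 1) (i + 1) = E K m (i + 1) + E K m i := by
  unfold E
  rw [sum_range_succ (fun p => K p * ((m + 1).choose (i + 1 - p) : ℚ)),
    sum_range_succ (fun p => K p * (m.choose (i + 1 - p) : ℚ))]
  have h : ∑ p ∈ range (i + 1), K p * ((m + 1).choose (i + 1 - p) : ℚ) =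
      ∑ p ∈ range (i + 1), K p * (m.choose (i + 1 - p) : ℚ) +
        ∑ p ∈ range (i + 1), K p * (m.choose (i - p) : ℚ) := by
    rw [← sum_add_distrib]
    refine sum_congr rfl fun p hp => ?_
    have hp' : p < i + 1 := mem_range.1 hp
    have e : i + 1 - p = (i - p) + 1 := by omega
    rw [e, Nat.choose_succ_succ]
    push_cast
    ring
  rw [h]
  simp only [Nat.sub_self, Nat.choose_zero_right]
  ring

lemma E_nonneg (K : ℕ → ℚ) (h : ∀ i, 0 ≤ K i) (m i : ℕ) : 0 ≤ E K m i :=
  sum_nonneg fun p _ => mul_nonneg (h p) (by positivity)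

/-- nonnegative and 2-positive (log-concave without internal zeros). -/
def LC (c : ℕ → ℚ) : Prop := (∀ i, 0 ≤ c i) ∧ ∀ i j, i ≤ j → c i * c (j + 1) ≤ c (i + 1) * c j

lemma LC_step (c d : ℕ → ℚ) (h : LC c) (d0 : d 0 = c 0) (ds : ∀ i, d (i + 1) = c (i + 1) + c i) :
    LC d := by
  obtain ⟨h0, h1⟩ := h
  refine ⟨fun i => ?_, fun i j hij => ?_⟩
  · rcases i with _ | i
    · rw [d0]; exact h0 0
    · rw [ds]; exact add_nonneg (h0 _) (h0 _)
  · rcases j with _ | j
    · have : i = 0 := by omega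
      subst this
      exact le_of_eq (mul_comm _ _)
    · rcases i with _ | i
      · rw [d0, ds, ds, ds]
        have a1 := h1 0 (j + 1) (by omega)
        have a2 := h1 0 j (by omega)
        have a3 := mul_nonneg (h0 0) (h0 (j + 1))
        have a4 := mul_nonneg (h0 0) (h0 j)
        nlinarith
      · rw [ds, ds, ds, ds]
        rcases Nat.eq_or_lt_of_le (show i ≤ j by omega) with rfl | hlt
        · exact le_of_eq (mul_comm _ _)
        · have a1 := h1 (i + 1) (j + 1) (by omega)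
          have a2 := h1 i j (by omega)
          have a3 := h1 i (j + 1) (by omega)
          have a4 := h1 (i + 1) j (by omega)
          nlinarith

lemma LC_E (K : ℕ → ℚ) (h : LC K) (m : ℕ) : LC (E K m) := by
  induction m with
  | zero =>
    have : E K 0 = K := funext (E_row_zero K)
    rw [this]; exact h
  | succ m ih =>
    refine LC_step (E K m) (E K (m + 1)) ih ?_ (fun i => E_succ K m i)
    rw [E_idx_zero, E_idx_zero]

/-- rows `m + 2` and `m` against row `m + 1`. -/
lemma E_mid (K : ℕ → ℚ) (h : LC K) (m i : ℕ) :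
    E K (m + 2) i * E K m i ≤ E K (m + 1) i ^ 2 := by
  obtain ⟨h0, h1⟩ := LC_E K h m
  rcases i with _ | i
  · rw [E_idx_zero, E_idx_zero, E_idx_zero]; exact le_of_eq (by ring)
  · rw [show m + 2 = (m + 1) + 1 from rfl, E_succ K (m + 1) i, E_succ K m i]
    rcases i with _ | i
    · have e : E K (m + 1) 0 = E K m 0 := by rw [E_idx_zero, E_idx_zero]
      rw [e]
      nlinarith [sq_nonneg (E K m 0)]
    · rw [E_succ K m i]
      have a := h1 i (i + 1) (by omega)
      nlinarith

lemma pair_sum (N : ℕ) (f h G1 G2 : ℕ → ℚ)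
    (hp : ∀ p q, p ≤ q → q ≤ N → f p * h q + f q * h p ≤ G1 p * G2 q + G1 q * G2 p) :
    (∑ p ∈ range (N + 1), f p) * (∑ q ∈ range (N + 1), h q) ≤
      (∑ p ∈ range (N + 1), G1 p) * (∑ q ∈ range (N + 1), G2 q) := by
  have hall : ∀ p ∈ range (N + 1), ∀ q ∈ range (N + 1),
      f p * h q + f q * h p ≤ G1 p * G2 q + G1 q * G2 p := by
    intro p hpp q hqq
    have h1 : p ≤ N := by have := mem_range.1 hpp; omega
    have h2 : q ≤ N := by have := mem_range.1 hqq; omega
    rcases le_total p q with h3 | h3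
    · exact hp p q h3 h2
    · have := hp q p h3 h1
      linarith
  have key : ∑ p ∈ range (N + 1), ∑ q ∈ range (N + 1), (f p * h q + f q * h p) ≤
      ∑ p ∈ range (N + 1), ∑ q ∈ range (N + 1), (G1 p * G2 q + G1 q * G2 p) :=
    sum_le_sum fun p hpp => sum_le_sum fun q hqq => hall p hpp q hqq
  have e : ∀ a b : ℕ → ℚ, ∑ p ∈ range (N + 1), ∑ q ∈ range (N + 1), (a p * b q + a q * b p) =
      2 * ((∑ p ∈ range (N + 1), a p) * (∑ q ∈ range (N + 1), b q)) := by
    intro a b
    have e1 : ∑ p ∈ range (N + 1), ∑ q ∈ range (N + 1), a p * b q =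
        (∑ p ∈ range (N + 1), a p) * (∑ q ∈ range (N + 1), b q) := by
      rw [sum_mul_sum]
    have e2 : ∑ p ∈ range (N + 1), ∑ q ∈ range (N + 1), a q * b p =
        (∑ p ∈ range (N + 1), a p) * (∑ q ∈ range (N + 1), b q) := by
      rw [sum_comm, sum_mul_sum]
    simp only [sum_add_distrib]
    rw [e1, e2]; ring
  rw [e f h, e G1 G2] at key
  linarith

lemma q1 (n k : ℕ) : (n.choose k : ℚ) * (n + 1) = ((n + 1).choose k : ℚ) * ((n : ℚ) + 1 - k) := by
  rcases Nat.lt_or_ge (n + 1) k with h | h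
  · rw [Nat.choose_eq_zero_of_lt h, Nat.choose_eq_zero_of_lt (by omega : n < k)]; simp
  · have := Nat.choose_mul_succ_eq n k
    have e : ((n + 1 - k : ℕ) : ℚ) = (n : ℚ) + 1 - k := by
      rw [Nat.cast_sub h]; push_cast; ring
    rw [← e]
    exact_mod_cast this

lemma q2 (n k : ℕ) : ((n + 1).choose (k + 1) : ℚ) * (k + 1) = ((n : ℚ) + 1) * n.choose k := by
  have := Nat.add_one_mul_choose_eq n k
  exact_mod_cast this.symm

lemma q3 (n k : ℕ) : (n.choose (k + 1) : ℚ) * (k + 1) = n.choose k * ((n : ℚ) - k) := by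
  rcases Nat.lt_or_ge n k with h | h
  · rw [Nat.choose_eq_zero_of_lt h, Nat.choose_eq_zero_of_lt (by omega : n < k + 1)]; simp
  · have := Nat.choose_succ_right_eq n k
    have e : ((n - k : ℕ) : ℚ) = (n : ℚ) - k := by rw [Nat.cast_sub h]
    rw [← e]
    exact_mod_cast this

lemma mark1 (m A : ℕ) : ((m + 2).choose (A + 1) : ℚ) * (A + 1) = ((m : ℚ) + 2) * (m + 1).choose A := by
  have := q2 (m + 1) A
  push_cast at this
  rw [this]; ring

lemma mark2 (m A : ℕ) : (m.choose A : ℚ) * (((m : ℚ) + 3) * (m + 2) * (m + 1)) =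
    HH ((m : ℚ) + 1) A * (m + 3).choose A := by
  have a := q1 m A
  have b := q1 (m + 1) A
  have c := q1 (m + 2) A
  push_cast at a b c
  unfold HH
  calc (m.choose A : ℚ) * (((m : ℚ) + 3) * (m + 2) * (m + 1))
      = (m.choose A : ℚ) * (m + 1) * ((m + 2) * (m + 3)) := by ring
    _ = ((m + 1).choose A : ℚ) * (m + 1 + 1) * (((m : ℚ) + 1 - A) * (m + 3)) := by rw [a]; ring
    _ = ((m + 2).choose A : ℚ) * (m + 2 + 1) * (((m : ℚ) + 1 + 1 - A) * ((m : ℚ) + 1 - A)) := by
        rw [b]; ring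
    _ = _ := by rw [c]; ring

lemma mark3 (m A : ℕ) :
    (m.choose A : ℚ) * (((m : ℚ) + 4) * (m + 3) * (m + 2) * (m + 1)) =
    ((A : ℚ) + 1) * HH ((m : ℚ) + 2) (A + 1) * (m + 4).choose (A + 1) := by
  have a := q2 m A
  have b := mark2 (m + 1) (A + 1)
  push_cast at b
  calc (m.choose A : ℚ) * (((m : ℚ) + 4) * (m + 3) * (m + 2) * (m + 1))
      = (((m : ℚ) + 1) * m.choose A) * ((m + 1 + 3) * (m + 1 + 2) * (m + 1 + 1)) := by ring
    _ = ((m + 1).choose (A + 1) : ℚ) * ((m + 1 + 3) * (m + 1 + 2) * (m + 1 + 1)) * (A + 1) := by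
        rw [← a]; ring
    _ = _ := by
        rw [b]
        have e : (m : ℚ) + 1 + 1 = m + 2 := by ring
        rw [e]; ring

end Pool.Agent.Lib.H53M
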