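import Pool.Agent.Lib.H53M.T2S

/-!
# Chunk T2A (M): the matrix `A8`

`key`: `φ² = φ+1` for `φ = ph1, ph2`; `δ + δ' = 1`, `δφ + δ'φ' = 1` (`δ = (5+√5)/10`,
`δ' = (5-√5)/10`), so `2δ(a+bφ+cφ²) + 2δ'(a+bφ'+cφ'²) = 2a+2b+4c`.
`T2A_bil`: write the four coordinates of `row4 φ *ᵥ x` as `P_k + Q_k φ`.
`T2A_mat`: from `T2A_bil` applied to unit vectors.
-/

namespace H53M

open Matrix

theorem T2A_s : Real.sqrt 5 ^ 2 = 5 := Real.sq_sqrt (by norm_num)

theorem T2A_s0 : Real.sqrt 5 ≠ 0 := by positivity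

theorem T2A_d1 : dl1 = (5 + Real.sqrt 5) / 10 := by
  have h := T2A_s
  have h0 := T2A_s0
  unfold dl1
  field_simp
  linear_combination (-2) * h

theorem T2A_d2 : dl2 = (5 - Real.sqrt 5) / 10 := by
  have h := T2A_s
  have h0 := T2A_s0
  unfold dl2
  field_simp
  linear_combination (2) * h

theorem T2A_delta : dl1 * dl2 = 1 / 5 := by
  rw [T2A_d1, T2A_d2]
  linear_combination (-1 / 100) * T2A_s

theorem T2A_GG : G8 * G8i = 1 ∧ G8i * G8 = 1 := by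
  constructor <;> decide +kernel

def T2A_P : Matrix (Fin 8) (Fin 8) ℤ :=
  !![2, 0, 0, 0, 0, 1, 1, 1;
    0, 2, 0, 0, 1, 1, 1, 2;
    0, 0, 2, 0, 1, 1, 0, 1;
    0, 0, 0, 2, 1, 2, 1, 1;
    0, 1, 1, 1, 2, 2, 1, 2;
    1, 1, 1, 2, 2, 4, 2, 3;
    1, 1, 0, 1, 1, 2, 2, 2;
    1, 2, 1, 1, 2, 3, 2, 4]

def T2A_Q : Matrix (Fin 8) (Fin 8) ℤ :=
  !![0, 2, 0, 0, 1, 1, 1, 2;
    2, 2, 0, 0, 1, 2, 2, 3;
    0, 0, 0, 2, 1, 2, 1, 1;
    0, 0, 2, 2, 2, 3, 1, 2;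
    1, 1, 1, 2, 2, 4, 2, 3;
    1, 2, 2, 3, 4, 6, 3, 5;
    1, 2, 1, 1, 2, 3, 2, 4;
    2, 3, 1, 2, 3, 5, 4, 6]

theorem T2A_G : G8 = T2A_P + T2A_Q := by decide +kernel

theorem T2A_row (φ : ℝ) (hφ : φ ^ 2 = φ + 1) (i j : Fin 8) :
    2 * ∑ k, row4 φ k i * row4 φ k j = (T2A_P i j : ℝ) + (T2A_Q i j : ℝ) * φ := by
  rw [Fin.sum_univ_four]
  fin_cases i <;> fin_cases j <;>
    simp only [row4, T2A_P, T2A_Q, Fin.reduceFinMk, Fin.isValue, Fin.zero_eta, Fin.mk_one,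
      Matrix.of_apply, Matrix.cons_val', Matrix.cons_val_zero, Matrix.cons_val_one,
      Matrix.cons_val_fin_one, Matrix.cons_val, Int.cast_zero, Int.cast_one, Int.cast_ofNat] <;>
    first
      | ring1
      | linear_combination (1) * hφ
      | linear_combination (3 / 2) * hφ
      | linear_combination (2) * hφ
      | linear_combination (3) * hφ

theorem T2A_ph1 : ph1 ^ 2 = ph1 + 1 := by
  unfold ph1
  linear_combination (1 / 4) * T2A_s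

theorem T2A_ph2 : ph2 ^ 2 = ph2 + 1 := by
  unfold ph2
  linear_combination (1 / 4) * T2A_s

theorem T2A_mat : A8ᵀ * (Matrix.diagonal D8 * A8) = G8.map (Int.cast : ℤ → ℝ) := by
  ext i j
  have e1 : (A8ᵀ * (Matrix.diagonal D8 * A8)) i j = ∑ k, A8 k i * (D8 k * A8 k j) := by
    rw [Matrix.mul_apply]
    refine Finset.sum_congr rfl fun k _ => ?_
    rw [Matrix.diagonal_mul, Matrix.transpose_apply]
  have e2 : ∑ k, A8 k i * (D8 k * A8 k j) =
      (∑ k : Fin 4, row4 ph1 k i * (2 * dl1 * row4 ph1 k j)) +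
        ∑ k : Fin 4, row4 ph2 k i * (2 * dl2 * row4 ph2 k j) := by
    have h := Fin.sum_univ_add (a := 4) (b := 4) (fun k : Fin (4 + 4) => A8 k i * (D8 k * A8 k j))
    refine h.trans (congrArg₂ (· + ·) (Finset.sum_congr rfl fun k _ => ?_)
      (Finset.sum_congr rfl fun k _ => ?_))
    · have a1 : A8 (Fin.castAdd 4 k) = row4 ph1 k := Fin.append_left (row4 ph1) (row4 ph2) k
      have a2 : D8 (Fin.castAdd 4 k) = 2 * dl1 := Fin.append_left _ _ k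
      rw [a1, a2]
    · have a1 : A8 (Fin.natAdd 4 k) = row4 ph2 k := Fin.append_right (row4 ph1) (row4 ph2) k
      have a2 : D8 (Fin.natAdd 4 k) = 2 * dl2 := Fin.append_right _ _ k
      rw [a1, a2]
  have e3 : ∀ (φ δ : ℝ), ∑ k : Fin 4, row4 φ k i * (2 * δ * row4 φ k j) =
      δ * (2 * ∑ k, row4 φ k i * row4 φ k j) := by
    intro φ δ
    rw [Finset.mul_sum, Finset.mul_sum]
    refine Finset.sum_congr rfl fun k _ => ?_
    ring
  rw [e1, e2, e3, e3, T2A_row _ T2A_ph1, T2A_row _ T2A_ph2, Matrix.map_apply, T2A_G,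
    Matrix.add_apply, T2A_d1, T2A_d2]
  push_cast
  unfold ph1 ph2
  linear_combination ((T2A_Q i j : ℝ) / 10) * T2A_s

theorem T2A_unit : (G8.det : ℤ) = 1 ∨ G8.det = -1 := by
  have h1 : G8.det * G8i.det = 1 := by
    rw [← Matrix.det_mul, T2A_GG.1, Matrix.det_one]
  exact Int.isUnit_iff.1 (IsUnit.of_mul_eq_one _ h1)

theorem T2A_detD : (Matrix.diagonal D8).det = 256 / 625 := by
  rw [Matrix.det_diagonal]
  have h := Fin.prod_univ_add (a := 4) (b := 4) (fun k : Fin (4 + 4) => D8 k)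
  refine h.trans ?_
  have a1 : ∀ k : Fin 4, D8 (Fin.castAdd 4 k) = 2 * dl1 := fun k => Fin.append_left _ _ k
  have a2 : ∀ k : Fin 4, D8 (Fin.natAdd 4 k) = 2 * dl2 := fun k => Fin.append_right _ _ k
  simp only [a1, a2, Finset.prod_const, Finset.card_univ, Fintype.card_fin]
  have e : (2 * dl1) ^ 4 * (2 * dl2) ^ 4 = 256 * (dl1 * dl2) ^ 4 := by ring
  rw [e, T2A_delta]
  norm_num

theorem T2A_sq : A8.det ^ 2 = 625 / 256 := by
  have h := congrArg Matrix.det T2A_mat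
  have h2 : (G8.map (Int.cast : ℤ → ℝ)).det = (G8.det : ℝ) :=
    ((Int.castRingHom ℝ).map_det G8).symm
  rw [Matrix.det_mul, Matrix.det_mul, Matrix.det_transpose, T2A_detD, h2] at h
  have h3 : 0 ≤ A8.det ^ 2 := sq_nonneg _
  have h4 : (G8.det : ℝ) = 1 ∨ (G8.det : ℝ) = -1 := by
    rcases T2A_unit with h1 | h1
    · left
      exact_mod_cast h1
    · right
      exact_mod_cast h1
  generalize (G8.det : ℝ) = g at h h4
  rcases h4 with rfl | rfl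
  · linarith
  · nlinarith

/-- `det A8 ≠ 0` -/
theorem T2A_det_ne : A8.det ≠ 0 := by
  intro h
  have h1 := T2A_sq
  rw [h] at h1
  norm_num at h1

/-- `|det A8| = 25/16`: `(det A8)² (2δ)⁴ (2δ')⁴ = det G8 = 1`. -/
theorem T2A_det : |A8.det| = 25 / 16 := by
  have h1 : |A8.det| ^ 2 = (25 / 16) ^ 2 := by
    rw [sq_abs, T2A_sq]
    norm_num
  exact (pow_left_inj₀ (abs_nonneg _) (by norm_num) (by norm_num)).1 h1

theorem T2A_inv (w : Fin 8 → ℝ) :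
    (A8⁻¹)ᵀ *ᵥ w = Matrix.diagonal D8 *ᵥ (A8 *ᵥ ((G8i.map (Int.cast : ℤ → ℝ)) *ᵥ w)) := by
  have h0 : G8.map (Int.cast : ℤ → ℝ) * G8i.map (Int.cast : ℤ → ℝ) = 1 := by
    have h2 := congrArg (fun M : Matrix (Fin 8) (Fin 8) ℤ => (Int.castRingHom ℝ).mapMatrix M)
      T2A_GG.1
    simp only [map_mul, map_one] at h2
    exact h2
  have h1 : A8ᵀ * ((Matrix.diagonal D8 * A8) * G8i.map (Int.cast : ℤ → ℝ)) = 1 := by
    rw [← Matrix.mul_assoc, T2A_mat, h0]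
  have h3 : (A8ᵀ)⁻¹ = (Matrix.diagonal D8 * A8) * G8i.map (Int.cast : ℤ → ℝ) :=
    Matrix.inv_eq_right_inv h1
  rw [Matrix.transpose_nonsing_inv, h3, Matrix.mulVec_mulVec, Matrix.mulVec_mulVec,
    Matrix.mul_assoc]

end H53M
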