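import Pool.Agent.Lib.H53M.T2S

/-!
# Chunk T2C (M): the form `BL` is an isotropic linear form in each variable

With `t = A *ᵥ (cm (star (qv y)) *ᵥ s)`: `BL = r · M(x) · t`,
`ζ = (r₀t₀+r₁t₁, i(r₀t₀-r₁t₁), r₀t₁-r₁t₀, i(r₀t₁+r₁t₀))`,
`Σ ζ_j² = (r₀t₀+r₁t₁)² - (r₀t₀-r₁t₁)² + (r₀t₁-r₁t₀)² - (r₀t₁+r₁t₀)² = 0`.
With `t = vecMul (vecMul r (cm (qv x))) A`: `BL = t · M(ȳ) · s`,
`ζ' = (t₀s₀+t₁s₁, -i(t₀s₀-t₁s₁), -(t₀s₁-t₁s₀), -i(t₀s₁+t₁s₀))`.
-/

namespace H53M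

open Matrix

/-- linear form in `x` for fixed `y` -/
noncomputable def zet1 (r s : Fin 2 → ℂ) (A : Matrix (Fin 2) (Fin 2) ℂ) (y : Fin 4 → ℝ) :
    Fin 4 → ℂ :=
  let t := A *ᵥ (cm (star (qv y)) *ᵥ s)
  ![r 0 * t 0 + r 1 * t 1, Complex.I * (r 0 * t 0 - r 1 * t 1), r 0 * t 1 - r 1 * t 0,
    Complex.I * (r 0 * t 1 + r 1 * t 0)]

/-- linear form in `y` for fixed `x` -/
noncomputable def zet2 (r s : Fin 2 → ℂ) (A : Matrix (Fin 2) (Fin 2) ℂ) (x : Fin 4 → ℝ) :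
    Fin 4 → ℂ :=
  let t := vecMul (vecMul r (cm (qv x))) A
  ![t 0 * s 0 + t 1 * s 1, -(Complex.I * (t 0 * s 0 - t 1 * s 1)), -(t 0 * s 1 - t 1 * s 0),
    -(Complex.I * (t 0 * s 1 + t 1 * s 0))]

theorem T2C_core1 (r t : Fin 2 → ℂ) (x : Fin 4 → ℝ) :
    dotProduct (vecMul r (cm (qv x))) t =
      (r 0 * t 0 + r 1 * t 1) * (x 0 : ℂ) + (Complex.I * (r 0 * t 0 - r 1 * t 1)) * (x 1 : ℂ) +
        (r 0 * t 1 - r 1 * t 0) * (x 2 : ℂ) + (Complex.I * (r 0 * t 1 + r 1 * t 0)) * (x 3 : ℂ) := by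
  simp only [dotProduct, vecMul, Fin.sum_univ_two, cm, qv, Matrix.of_apply, Matrix.cons_val_zero,
    Matrix.cons_val_one, Matrix.cons_val', Matrix.cons_val_fin_one]
  ring

theorem T2C_core2 (s t : Fin 2 → ℂ) (y : Fin 4 → ℝ) :
    dotProduct t (mulVec (cm (star (qv y))) s) =
      (t 0 * s 0 + t 1 * s 1) * (y 0 : ℂ) + (-(Complex.I * (t 0 * s 0 - t 1 * s 1))) * (y 1 : ℂ) +
        (-(t 0 * s 1 - t 1 * s 0)) * (y 2 : ℂ) +
          (-(Complex.I * (t 0 * s 1 + t 1 * s 0))) * (y 3 : ℂ) := by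
  simp only [dotProduct, mulVec, Fin.sum_univ_two, cm, qv, Matrix.of_apply, Matrix.cons_val_zero,
    Matrix.cons_val_one, Matrix.cons_val', Matrix.cons_val_fin_one, Quaternion.re_star,
    Quaternion.imI_star, Quaternion.imJ_star, Quaternion.imK_star]
  push_cast
  ring

theorem T2C_1 (r s : Fin 2 → ℂ) (A : Matrix (Fin 2) (Fin 2) ℂ) (x y : Fin 4 → ℝ) :
    BL r s A x y = ∑ j, zet1 r s A y j * (x j : ℂ) := by
  have h1 : BL r s A x y = dotProduct (vecMul r (cm (qv x))) (A *ᵥ (cm (star (qv y)) *ᵥ s)) := by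
    unfold BL
    rw [← Matrix.dotProduct_mulVec]
  rw [h1, T2C_core1, Fin.sum_univ_four]
  simp only [zet1, Matrix.cons_val_zero, Matrix.cons_val_one, Matrix.cons_val]

theorem T2C_2 (r s : Fin 2 → ℂ) (A : Matrix (Fin 2) (Fin 2) ℂ) (x y : Fin 4 → ℝ) :
    BL r s A x y = ∑ j, zet2 r s A x j * (y j : ℂ) := by
  unfold BL
  rw [T2C_core2, Fin.sum_univ_four]
  simp only [zet2, Matrix.cons_val_zero, Matrix.cons_val_one, Matrix.cons_val]

theorem T2C_iso1 (r s : Fin 2 → ℂ) (A : Matrix (Fin 2) (Fin 2) ℂ) (y : Fin 4 → ℝ) :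
    ∑ j, zet1 r s A y j ^ 2 = 0 := by
  rw [Fin.sum_univ_four]
  simp only [zet1, Matrix.cons_val_zero, Matrix.cons_val_one, Matrix.cons_val]
  generalize A *ᵥ (cm (star (qv y)) *ᵥ s) = t
  linear_combination ((r 0 * t 0 - r 1 * t 1) ^ 2 + (r 0 * t 1 + r 1 * t 0) ^ 2) * Complex.I_sq

theorem T2C_iso2 (r s : Fin 2 → ℂ) (A : Matrix (Fin 2) (Fin 2) ℂ) (x : Fin 4 → ℝ) :
    ∑ j, zet2 r s A x j ^ 2 = 0 := by
  rw [Fin.sum_univ_four]
  simp only [zet2, Matrix.cons_val_zero, Matrix.cons_val_one, Matrix.cons_val]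
  generalize vecMul (vecMul r (cm (qv x))) A = t
  linear_combination ((t 0 * s 0 - t 1 * s 1) ^ 2 + (t 0 * s 1 + t 1 * s 0) ^ 2) * Complex.I_sq

/-- homogeneity -/
theorem T2C_smul (r s : Fin 2 → ℂ) (A : Matrix (Fin 2) (Fin 2) ℂ) (x y : Fin 4 → ℝ) (α β : ℝ) :
    BL r s A (fun j => α * x j) (fun j => β * y j) = (α : ℂ) * (β : ℂ) * BL r s A x y := by
  rw [T2C_1]
  have h1 : ∑ j, zet1 r s A (fun j => β * y j) j * ((α * x j : ℝ) : ℂ) =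
      α * BL r s A x (fun j => β * y j) := by
    rw [T2C_1, Finset.mul_sum]
    refine Finset.sum_congr rfl fun j _ => ?_
    push_cast
    ring
  rw [h1, T2C_2, T2C_2, Finset.mul_sum, Finset.mul_sum]
  refine Finset.sum_congr rfl fun j _ => ?_
  push_cast
  ring

/-- coefficients of the bilinear form -/
noncomputable def T2C_c (r s : Fin 2 → ℂ) (A : Matrix (Fin 2) (Fin 2) ℂ) (j k : Fin 4) : ℂ :=
  zet2 r s A (Pi.single j 1) k

theorem T2C_bil (r s : Fin 2 → ℂ) (A : Matrix (Fin 2) (Fin 2) ℂ) (x y : Fin 4 → ℝ) :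
    BL r s A x y = ∑ j, (∑ k, T2C_c r s A j k * (y k : ℂ)) * (x j : ℂ) := by
  rw [T2C_1]
  refine Finset.sum_congr rfl fun j _ => ?_
  congr 1
  have h1 := T2C_1 r s A (Pi.single j 1) y
  have h2 : ∑ i, zet1 r s A y i * (((Pi.single j 1 : Fin 4 → ℝ) i : ℝ) : ℂ) = zet1 r s A y j := by
    rw [Finset.sum_eq_single j]
    · rw [Pi.single_eq_same, Complex.ofReal_one, mul_one]
    · intro i _ hi
      rw [Pi.single_eq_of_ne hi, Complex.ofReal_zero, mul_zero]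
    · exact fun h => absurd (Finset.mem_univ j) h
  rw [T2C_2, h2] at h1
  exact h1.symm

/-- size: `|BL| ≤ K |x|₁ |y|₁` -/
theorem T2C_bound (r s : Fin 2 → ℂ) (A : Matrix (Fin 2) (Fin 2) ℂ) : ∃ K : ℝ, 0 ≤ K ∧
    ∀ x y : Fin 4 → ℝ, ‖BL r s A x y‖ ≤ K * (∑ j, |x j|) * (∑ j, |y j|) := by
  refine ⟨∑ j, ∑ k, ‖T2C_c r s A j k‖, Finset.sum_nonneg fun j _ =>
    Finset.sum_nonneg fun k _ => norm_nonneg _, fun x y => ?_⟩
  have hK : ∀ j k, ‖T2C_c r s A j k‖ ≤ ∑ j, ∑ k, ‖T2C_c r s A j k‖ := by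
    intro j k
    refine le_trans (Finset.single_le_sum (f := fun k => ‖T2C_c r s A j k‖)
      (fun k _ => norm_nonneg _) (Finset.mem_univ k)) ?_
    exact Finset.single_le_sum (f := fun j => ∑ k, ‖T2C_c r s A j k‖)
      (fun j _ => Finset.sum_nonneg fun k _ => norm_nonneg _) (Finset.mem_univ j)
  generalize (∑ j, ∑ k, ‖T2C_c r s A j k‖) = K at hK
  rw [T2C_bil]
  calc ‖∑ j, (∑ k, T2C_c r s A j k * (y k : ℂ)) * (x j : ℂ)‖
      ≤ ∑ j, ‖(∑ k, T2C_c r s A j k * (y k : ℂ)) * (x j : ℂ)‖ := norm_sum_le _ _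
    _ ≤ ∑ j, (K * ∑ k, |y k|) * |x j| := by
        refine Finset.sum_le_sum fun j _ => ?_
        rw [norm_mul, Complex.norm_real, Real.norm_eq_abs]
        apply mul_le_mul_of_nonneg_right _ (abs_nonneg _)
        refine (norm_sum_le _ _).trans ?_
        rw [Finset.mul_sum]
        refine Finset.sum_le_sum fun k _ => ?_
        rw [norm_mul, Complex.norm_real, Real.norm_eq_abs]
        exact mul_le_mul_of_nonneg_right (hK j k) (abs_nonneg _)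
    _ = K * (∑ j, |x j|) * (∑ j, |y j|) := by
        rw [← Finset.mul_sum]
        ring

theorem T2C_cont (r s : Fin 2 → ℂ) (A : Matrix (Fin 2) (Fin 2) ℂ) :
    Continuous fun x : Fin 8 → ℝ => BL r s A (fst4 x) (snd4 x) := by
  simp only [T2C_bil]
  unfold fst4 snd4
  fun_prop

end H53M
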