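import Pool.Agent.Lib.H53M.T2C

/-!
# Chunk T2D (M): decay of `Ph` on `ℝ⁸`

`Ph` is continuous. `T2D_EDec`: `‖Ph‖ ≤ K^d (|x|₁)^d (|y|₁)^d exp(-Re b₁ |x|²) exp(-Re b₂ |y|²)`
(`T2C_bound`), `(s)^d ≤ d! e^s` (`TG_pow`), `TG_gauss`, and `TG_sq` with `K = 2`
(`2|x|₁ - β|x|² ≤ 4·(4/(4β))`), so each factor is `≤ C exp(-|x|₁)`; `|x|₁ + |y|₁` = the `ℓ¹` norm of
the vector of `ℝ⁸` (`Fin.sum_univ_add`).
`T2D_summable`: `TP_summable_shift` with shift `0` (or `TL_EDec` + `TP_summable`).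
-/

namespace H53M

open Matrix MeasureTheory

theorem T2D_cont (d : ℕ) (r s : Fin 2 → ℂ) (A : Matrix (Fin 2) (Fin 2) ℂ) (b₁ b₂ : ℂ) :
    Continuous fun x : Fin 8 → ℝ => Ph d r s A b₁ b₂ (fst4 x) (snd4 x) := by
  unfold Ph
  have h1 := T2C_cont r s A
  have h2 : ∀ j : Fin 4, Continuous fun x : Fin 8 → ℝ => fst4 x j := fun j => continuous_apply _
  have h3 : ∀ j : Fin 4, Continuous fun x : Fin 8 → ℝ => snd4 x j := fun j => continuous_apply _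
  refine Continuous.mul (Continuous.mul (h1.pow d) ?_) ?_
  · refine Complex.continuous_exp.comp (Continuous.neg (Continuous.mul continuous_const ?_))
    exact continuous_finsetSum _ fun j _ => (Complex.continuous_ofReal.comp (h2 j)).pow 2
  · refine Complex.continuous_exp.comp (Continuous.neg (Continuous.mul continuous_const ?_))
    exact continuous_finsetSum _ fun j _ => (Complex.continuous_ofReal.comp (h3 j)).pow 2

/-- one factor -/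
theorem T2D_one {β : ℝ} (hβ : 0 < β) (d : ℕ) (x : Fin 4 → ℝ) :
    (∑ j, |x j|) ^ d * Real.exp (-(β * ∑ j, x j ^ 2)) ≤
      (d.factorial : ℝ) * Real.exp (4 * (2 ^ 2 / (4 * β))) * Real.exp (-(1 * ∑ j, |x j|)) := by
  have hs : 0 ≤ ∑ j, |x j| := Finset.sum_nonneg fun j _ => abs_nonneg _
  have h1 := TG_pow (∑ j, |x j|) hs d
  have h2 := TG_sq 2 β hβ x
  have h3 : Real.exp (∑ j, |x j|) * Real.exp (-(β * ∑ j, x j ^ 2)) ≤
      Real.exp (4 * (2 ^ 2 / (4 * β))) * Real.exp (-(1 * ∑ j, |x j|)) := by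
    rw [← Real.exp_add, ← Real.exp_add, Real.exp_le_exp]
    push_cast at h2
    linarith
  calc (∑ j, |x j|) ^ d * Real.exp (-(β * ∑ j, x j ^ 2))
      ≤ ((d.factorial : ℝ) * Real.exp (∑ j, |x j|)) * Real.exp (-(β * ∑ j, x j ^ 2)) :=
        mul_le_mul_of_nonneg_right h1 (Real.exp_pos _).le
    _ = (d.factorial : ℝ) * (Real.exp (∑ j, |x j|) * Real.exp (-(β * ∑ j, x j ^ 2))) := by ring
    _ ≤ (d.factorial : ℝ) * (Real.exp (4 * (2 ^ 2 / (4 * β))) * Real.exp (-(1 * ∑ j, |x j|))) :=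
        mul_le_mul_of_nonneg_left h3 (by positivity)
    _ = _ := by ring

theorem T2D_EDec (d : ℕ) (r s : Fin 2 → ℂ) (A : Matrix (Fin 2) (Fin 2) ℂ) {b₁ b₂ : ℂ}
    (h₁ : 0 < b₁.re) (h₂ : 0 < b₂.re) :
    EDec fun x : Fin 8 → ℝ => Ph d r s A b₁ b₂ (fst4 x) (snd4 x) := by
  obtain ⟨K, hK0, hK⟩ := T2C_bound r s A
  refine ⟨K ^ d * (((d.factorial : ℝ) * Real.exp (4 * (2 ^ 2 / (4 * b₁.re)))) *
    ((d.factorial : ℝ) * Real.exp (4 * (2 ^ 2 / (4 * b₂.re))))), 1, one_pos, fun x => ?_⟩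
  have hsum : ∑ j, |x j| = (∑ j, |fst4 x j|) + ∑ j, |snd4 x j| :=
    Fin.sum_univ_add (fun j : Fin (4 + 4) => |x j|)
  have hx : 0 ≤ ∑ j, |fst4 x j| := Finset.sum_nonneg fun j _ => abs_nonneg _
  have hy : 0 ≤ ∑ j, |snd4 x j| := Finset.sum_nonneg fun j _ => abs_nonneg _
  have h1 := T2D_one h₁ d (fst4 x)
  have h2 := T2D_one h₂ d (snd4 x)
  have h3 : ‖BL r s A (fst4 x) (snd4 x)‖ ^ d ≤
      K ^ d * ((∑ j, |fst4 x j|) ^ d * (∑ j, |snd4 x j|) ^ d) := by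
    rw [← mul_pow, ← mul_pow, ← mul_assoc]
    exact pow_le_pow_left₀ (norm_nonneg _) (hK _ _) d
  have h4 : 0 ≤ (∑ j, |fst4 x j|) ^ d * Real.exp (-(b₁.re * ∑ j, fst4 x j ^ 2)) := by positivity
  have h5 : 0 ≤ (∑ j, |snd4 x j|) ^ d * Real.exp (-(b₂.re * ∑ j, snd4 x j ^ 2)) := by positivity
  unfold Ph
  rw [norm_mul, norm_mul, norm_pow, TG_gauss, TG_gauss, hsum]
  calc ‖BL r s A (fst4 x) (snd4 x)‖ ^ d * Real.exp (-(b₁.re * ∑ j, fst4 x j ^ 2)) *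
        Real.exp (-(b₂.re * ∑ j, snd4 x j ^ 2))
      ≤ (K ^ d * ((∑ j, |fst4 x j|) ^ d * (∑ j, |snd4 x j|) ^ d)) *
          Real.exp (-(b₁.re * ∑ j, fst4 x j ^ 2)) * Real.exp (-(b₂.re * ∑ j, snd4 x j ^ 2)) := by
        refine mul_le_mul_of_nonneg_right ?_ (Real.exp_pos _).le
        exact mul_le_mul_of_nonneg_right h3 (Real.exp_pos _).le
    _ = K ^ d * (((∑ j, |fst4 x j|) ^ d * Real.exp (-(b₁.re * ∑ j, fst4 x j ^ 2))) *
          ((∑ j, |snd4 x j|) ^ d * Real.exp (-(b₂.re * ∑ j, snd4 x j ^ 2)))) := by ring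
    _ ≤ K ^ d * (((d.factorial : ℝ) * Real.exp (4 * (2 ^ 2 / (4 * b₁.re))) *
          Real.exp (-(1 * ∑ j, |fst4 x j|))) * ((d.factorial : ℝ) *
          Real.exp (4 * (2 ^ 2 / (4 * b₂.re))) * Real.exp (-(1 * ∑ j, |snd4 x j|)))) := by
        refine mul_le_mul_of_nonneg_left ?_ (pow_nonneg hK0 d)
        exact mul_le_mul h1 h2 h5 (h4.trans h1)
    _ = _ := by
        rw [show -(1 * ((∑ j, |fst4 x j|) + ∑ j, |snd4 x j|)) =
          -(1 * ∑ j, |fst4 x j|) + -(1 * ∑ j, |snd4 x j|) by ring, Real.exp_add]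
        ring

end H53M
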