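import Pool.Agent.Lib.H53M.TP0

/-!
# H53M, module T: Fubini for the Fourier transform on `ℝ⁴ × ℝ⁴`
-/

namespace H53M

open MeasureTheory

/-- first half of a vector -/
def fst4 {α : Type*} (x : Fin 8 → α) : Fin 4 → α := fun j => x (Fin.castAdd 4 j)

/-- second half of a vector -/
def snd4 {α : Type*} (x : Fin 8 → α) : Fin 4 → α := fun j => x (Fin.natAdd 4 j)

/-- `ℝ⁴ × ℝ⁴ ≃ ℝ⁸` -/
noncomputable def TF_e : (Fin 4 → ℝ) × (Fin 4 → ℝ) ≃ᵐ (Fin 8 → ℝ) :=
  (MeasurableEquiv.sumPiEquivProdPi (fun _ : Fin 4 ⊕ Fin 4 => ℝ)).symm.trans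
    (MeasurableEquiv.piCongrLeft (fun _ : Fin (4 + 4) => ℝ) finSumFinEquiv)

theorem TF_e_mp : MeasurePreserving TF_e := by
  have h1 := volume_measurePreserving_sumPiEquivProdPi_symm (fun _ : Fin 4 ⊕ Fin 4 => ℝ)
  have h2 := volume_measurePreserving_piCongrLeft (fun _ : Fin (4 + 4) => ℝ)
    (finSumFinEquiv (m := 4) (n := 4))
  exact h2.comp h1

theorem TF_fst (p : (Fin 4 → ℝ) × (Fin 4 → ℝ)) : fst4 (TF_e p) = p.1 := by
  funext j
  have h := MeasurableEquiv.piCongrLeft_apply_apply (finSumFinEquiv (m := 4) (n := 4))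
    (β := fun _ => ℝ) ((MeasurableEquiv.sumPiEquivProdPi (fun _ : Fin 4 ⊕ Fin 4 => ℝ)).symm p)
    (Sum.inl j)
  exact h

theorem TF_snd (p : (Fin 4 → ℝ) × (Fin 4 → ℝ)) : snd4 (TF_e p) = p.2 := by
  funext j
  have h := MeasurableEquiv.piCongrLeft_apply_apply (finSumFinEquiv (m := 4) (n := 4))
    (β := fun _ => ℝ) ((MeasurableEquiv.sumPiEquivProdPi (fun _ : Fin 4 ⊕ Fin 4 => ℝ)).symm p)
    (Sum.inr j)
  exact h

theorem TF_sum (w x : Fin 8 → ℝ) : ∑ j, (w j : ℂ) * (x j : ℂ) =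
    ∑ j, ((fst4 w j : ℝ) : ℂ) * ((fst4 x j : ℝ) : ℂ) +
      ∑ j, ((snd4 w j : ℝ) : ℂ) * ((snd4 x j : ℝ) : ℂ) :=
  Fin.sum_univ_add (fun j : Fin (4 + 4) => (w j : ℂ) * (x j : ℂ))

theorem TF (F : (Fin 4 → ℝ) → (Fin 4 → ℝ) → ℂ)
    (hF : Integrable fun x : Fin 8 → ℝ => F (fst4 x) (snd4 x)) (w : Fin 8 → ℝ) :
    FT (fun x : Fin 8 → ℝ => F (fst4 x) (snd4 x)) w =
      FT (fun y => FT (fun x => F x y) (fst4 w)) (snd4 w) := by
  set h : (Fin 8 → ℝ) → ℂ := fun x => F (fst4 x) (snd4 x) *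
    Complex.exp (-(2 * Real.pi * Complex.I * ∑ j, (w j : ℂ) * (x j : ℂ))) with hh
  have hInt : Integrable h := by
    refine hF.mul_bdd (c := 1) ?_ ?_
    · refine Continuous.aestronglyMeasurable ?_
      fun_prop
    · refine Filter.Eventually.of_forall fun x => ?_
      rw [Complex.norm_exp]
      have : (-(2 * Real.pi * Complex.I * ∑ j, (w j : ℂ) * (x j : ℂ))).re = 0 := by
        have e : ∑ j, (w j : ℂ) * (x j : ℂ) = ((∑ j, w j * x j : ℝ) : ℂ) := by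
          push_cast
          rfl
        rw [e]
        simp
      rw [this, Real.exp_zero]
  have hInt2 : Integrable (fun p : (Fin 4 → ℝ) × (Fin 4 → ℝ) => h (TF_e p))
      ((volume : Measure (Fin 4 → ℝ)).prod volume) :=
    (TF_e_mp.integrable_comp_emb TF_e.measurableEmbedding).2 hInt
  have h1 : FT (fun x : Fin 8 → ℝ => F (fst4 x) (snd4 x)) w =
      ∫ p : (Fin 4 → ℝ) × (Fin 4 → ℝ), h (TF_e p) ∂((volume : Measure (Fin 4 → ℝ)).prod volume) :=
    (TF_e_mp.integral_comp TF_e.measurableEmbedding h).symm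
  rw [h1, integral_prod_symm _ hInt2]
  unfold FT
  refine integral_congr_ae (Filter.Eventually.of_forall fun y => ?_)
  simp only
  rw [← integral_mul_const]
  refine integral_congr_ae (Filter.Eventually.of_forall fun x => ?_)
  simp only [hh]
  rw [TF_fst, TF_snd, TF_sum, TF_fst, TF_snd, mul_add, neg_add, Complex.exp_add]
  ring

end H53M
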