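import Pool.Agent.Lib.H53M.TP0

/-!
# H53M, chunk TL (size M): linear change of variables in the Fourier transform

`TL`: substitute `y = A x` (`Real.map_matrix_volume_pi_eq_smul_volume_pi`, or
`MeasureTheory.Measure.addHaar_...` / `integral_map_equiv` with `Matrix.toLin'`), `x = A⁻¹ y`,
`w·x = w·(A⁻¹ y) = ((A⁻¹)ᵀ w)·y` (`Matrix.dotProduct_mulVec`, `Matrix.vecMul_transpose`).
`TL_EDec`: `|x|₁ ≤ K |A x|₁` with `K = Σ_{ij} |A⁻¹ i j|` (`x = A⁻¹ (A x)`), so the constant `ε`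
becomes `ε / K` (`K > 0` if `n > 0`; take `ε / (K + 1)`).
`TL_EDec_add`: constants `max`/sum, `min ε ε'`.
-/

namespace H53M

open MeasureTheory Matrix

theorem TL_emb {n : ℕ} (A : Matrix (Fin n) (Fin n) ℝ) (hA : A.det ≠ 0) :
    MeasurableEmbedding (fun x : Fin n → ℝ => A *ᵥ x) := by
  have hdet : LinearMap.det (Matrix.toLin' A) ≠ 0 := by
    rw [LinearMap.det_toLin']
    exact hA
  have h := ((Matrix.toLin' A).equivOfDetNeZero
    hdet).toContinuousLinearEquiv.toHomeomorph.measurableEmbedding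
  exact h

theorem TL_int {n : ℕ} (g : (Fin n → ℝ) → ℂ) (A : Matrix (Fin n) (Fin n) ℝ) (hA : A.det ≠ 0) :
    ∫ x : Fin n → ℝ, g (A *ᵥ x) = ((|A.det|⁻¹ : ℝ) : ℂ) * ∫ x : Fin n → ℝ, g x := by
  have h1 := Real.map_matrix_volume_pi_eq_smul_volume_pi hA
  have h2 : ∫ x, g x ∂(Measure.map (Matrix.toLin' A) volume) = ∫ x : Fin n → ℝ, g (A *ᵥ x) :=
    (TL_emb A hA).integral_map g
  rw [← h2, h1, integral_smul_measure, ENNReal.toReal_ofReal (abs_nonneg _), abs_inv]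
  exact Complex.real_smul

theorem TL {n : ℕ} (f : (Fin n → ℝ) → ℂ) (A : Matrix (Fin n) (Fin n) ℝ) (hA : A.det ≠ 0)
    (w : Fin n → ℝ) :
    FT (fun x => f (A *ᵥ x)) w = ((|A.det|⁻¹ : ℝ) : ℂ) * FT f ((A⁻¹)ᵀ *ᵥ w) := by
  unfold FT
  rw [← TL_int _ A hA]
  refine integral_congr_ae (Filter.Eventually.of_forall fun x => ?_)
  simp only
  congr 2
  have h1 : ∑ j, ((A⁻¹)ᵀ *ᵥ w) j * (A *ᵥ x) j = ∑ j, w j * x j := by
    have h2 : ((A⁻¹)ᵀ *ᵥ w) ⬝ᵥ (A *ᵥ x) = w ⬝ᵥ x := by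
      rw [Matrix.mulVec_transpose, ← Matrix.dotProduct_mulVec, Matrix.mulVec_mulVec,
        Matrix.nonsing_inv_mul A (isUnit_iff_ne_zero.2 hA), Matrix.one_mulVec]
    exact h2
  have h3 : ∑ j, (((A⁻¹)ᵀ *ᵥ w) j : ℂ) * ((A *ᵥ x) j : ℂ) = ∑ j, (w j : ℂ) * (x j : ℂ) := by
    have h4 := congrArg (fun r : ℝ => (r : ℂ)) h1
    simp only [Complex.ofReal_sum, Complex.ofReal_mul] at h4
    exact h4
  rw [h3]

theorem TL_Cnn {n : ℕ} {f : (Fin n → ℝ) → ℂ} {C ε : ℝ}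
    (h : ∀ x, ‖f x‖ ≤ C * Real.exp (-(ε * ∑ j, |x j|))) : 0 ≤ C := by
  have h1 := (norm_nonneg _).trans (h 0)
  exact nonneg_of_mul_nonneg_left h1 (Real.exp_pos _)

/-- exponential decay is preserved -/
theorem TL_EDec {n : ℕ} {f : (Fin n → ℝ) → ℂ} (hf : EDec f) (A : Matrix (Fin n) (Fin n) ℝ)
    (hA : A.det ≠ 0) : EDec fun x => f (A *ᵥ x) := by
  obtain ⟨C, ε, hε, h⟩ := hf
  have hC := TL_Cnn h
  obtain ⟨K, hK⟩ : ∃ K : ℝ, K = ∑ i, ∑ j, |A⁻¹ i j| := ⟨_, rfl⟩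
  have hK0 : 0 ≤ K := by
    rw [hK]
    exact Finset.sum_nonneg fun i _ => Finset.sum_nonneg fun j _ => abs_nonneg _
  refine ⟨C, ε / (K + 1), by positivity, fun x => (h (A *ᵥ x)).trans ?_⟩
  refine mul_le_mul_of_nonneg_left (Real.exp_le_exp.2 (neg_le_neg ?_)) hC
  obtain ⟨y, hy⟩ : ∃ y, y = A *ᵥ x := ⟨_, rfl⟩
  have hx : x = A⁻¹ *ᵥ y := by
    rw [hy, Matrix.mulVec_mulVec, Matrix.nonsing_inv_mul A (isUnit_iff_ne_zero.2 hA),
      Matrix.one_mulVec]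
  rw [← hy]
  have h1 : ∑ j, |x j| ≤ K * ∑ j, |y j| := by
    rw [hK, Finset.sum_mul]
    refine Finset.sum_le_sum fun i _ => ?_
    rw [hx, Matrix.mulVec, dotProduct]
    refine (Finset.abs_sum_le_sum_abs _ _).trans ?_
    rw [Finset.sum_mul]
    refine Finset.sum_le_sum fun j _ => ?_
    rw [abs_mul]
    exact mul_le_mul_of_nonneg_left
      (Finset.single_le_sum (f := fun j => |y j|) (fun j _ => abs_nonneg _) (Finset.mem_univ j))
      (abs_nonneg _)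
  have hs : 0 ≤ ∑ j, |y j| := Finset.sum_nonneg fun j _ => abs_nonneg _
  have h2 : ∑ j, |x j| ≤ (K + 1) * ∑ j, |y j| := by
    rw [add_mul, one_mul]
    linarith
  rw [div_mul_eq_mul_div, div_le_iff₀ (by positivity), mul_assoc]
  refine mul_le_mul_of_nonneg_left ?_ hε.le
  rw [mul_comm]
  exact h2

/-- integer matrices of determinant `± 1`, lattice sums are not changed -/
theorem TL_EDec_add {n : ℕ} {f g : (Fin n → ℝ) → ℂ} (hf : EDec f) (hg : EDec g) :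
    EDec fun x => f x + g x := by
  obtain ⟨C, ε, hε, h⟩ := hf
  obtain ⟨C', ε', hε', h'⟩ := hg
  have hC := TL_Cnn h
  have hC' := TL_Cnn h'
  refine ⟨C + C', min ε ε', lt_min hε hε', fun x => (norm_add_le _ _).trans ?_⟩
  have hs : 0 ≤ ∑ j, |x j| := Finset.sum_nonneg fun j _ => abs_nonneg _
  have h1 : Real.exp (-(ε * ∑ j, |x j|)) ≤ Real.exp (-(min ε ε' * ∑ j, |x j|)) :=
    Real.exp_le_exp.2 (neg_le_neg (mul_le_mul_of_nonneg_right (min_le_left _ _) hs))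
  have h2 : Real.exp (-(ε' * ∑ j, |x j|)) ≤ Real.exp (-(min ε ε' * ∑ j, |x j|)) :=
    Real.exp_le_exp.2 (neg_le_neg (mul_le_mul_of_nonneg_right (min_le_right _ _) hs))
  rw [add_mul]
  exact add_le_add ((h x).trans (mul_le_mul_of_nonneg_left h1 hC))
    ((h' x).trans (mul_le_mul_of_nonneg_left h2 hC'))

end H53M
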