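import Pool.Agent.Lib.H53M.TStat
import Pool.Agent.Lib.H53M.TP
import Pool.Agent.Lib.H53M.TL
import Pool.Agent.Lib.H53M.TG
import Pool.Agent.Lib.H53M.TF

/-!
# H53M, T2: definitions

* `ph1 = (1+√5)/2`, `ph2 = (1-√5)/2`; `row4 φ` : matrix of `x ↦ toH φ x` in the integral coordinates
  `(a.re, a.im, b.re, b.im, c.re, c.im, d.re, d.im)` of an icosian, with `φ² = φ+1`, `φ³ = 2φ+1`;
* `A8` : `ℝ⁸ → ℝ⁴ × ℝ⁴`, both embeddings; `D8 = (2δ,2δ,2δ,2δ,2δ',2δ',2δ',2δ')`;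
* `G8` : the Gram matrix of `2 n(x)` (the lattice `E₈`), `G8i` its inverse;
* `BL r s A x y = r · M(x) · A · M(ȳ) · s`;
* `Ph d r s A b₁ b₂ x y = BL^d exp(-b₁|x|²) exp(-b₂|y|²)`.
-/

namespace H53M

open Matrix

noncomputable def ph1 : ℝ := (1 + Real.sqrt 5) / 2

noncomputable def ph2 : ℝ := (1 - Real.sqrt 5) / 2

noncomputable def row4 (φ : ℝ) : Matrix (Fin 4) (Fin 8) ℝ :=
  !![1, φ, 0, 0, φ / 2, (φ + 1) / 2, (φ + 1) / 2, (2 * φ + 1) / 2;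
    0, 0, 1, φ, (φ + 1) / 2, (2 * φ + 1) / 2, φ / 2, (φ + 1) / 2;
    0, 0, 0, 0, 1 / 2, φ / 2, 0, 0;
    0, 0, 0, 0, 0, 0, 1 / 2, φ / 2]

noncomputable def A8 : Matrix (Fin 8) (Fin 8) ℝ := Matrix.of (Fin.append (row4 ph1) (row4 ph2))

noncomputable def D8 : Fin 8 → ℝ := Fin.append (fun _ : Fin 4 => 2 * dl1) (fun _ : Fin 4 => 2 * dl2)

def G8 : Matrix (Fin 8) (Fin 8) ℤ :=
  !![2, 2, 0, 0, 1, 2, 2, 3;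
    2, 4, 0, 0, 2, 3, 3, 5;
    0, 0, 2, 2, 2, 3, 1, 2;
    0, 0, 2, 4, 3, 5, 2, 3;
    1, 2, 2, 3, 4, 6, 3, 5;
    2, 3, 3, 5, 6, 10, 5, 8;
    2, 3, 1, 2, 3, 5, 4, 6;
    3, 5, 2, 3, 5, 8, 6, 10]

def G8i : Matrix (Fin 8) (Fin 8) ℤ :=
  !![2, 0, 0, 1, 1, -1, -1, 0;
    0, 2, 1, 1, -1, 0, 0, -1;
    0, 1, 2, 0, -1, 0, 1, -1;
    1, 1, 0, 2, 0, -1, -1, 0;
    1, -1, -1, 0, 4, -2, 0, 0;
    -1, 0, 0, -1, -2, 2, 0, 0;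
    -1, 0, 1, -1, 0, 0, 4, -2;
    0, -1, -1, 0, 0, 0, -2, 2]

/-- quaternion of a vector -/
def qv (x : Fin 4 → ℝ) : Quaternion ℝ := ⟨x 0, x 1, x 2, x 3⟩

/-- the bilinear form `r · M(x) · A · M(ȳ) · s` -/
noncomputable def BL (r s : Fin 2 → ℂ) (A : Matrix (Fin 2) (Fin 2) ℂ) (x y : Fin 4 → ℝ) : ℂ :=
  dotProduct (vecMul (vecMul r (cm (qv x))) A) (mulVec (cm (star (qv y))) s)

noncomputable def Ph (d : ℕ) (r s : Fin 2 → ℂ) (A : Matrix (Fin 2) (Fin 2) ℂ) (b₁ b₂ : ℂ)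
    (x y : Fin 4 → ℝ) : ℂ :=
  BL r s A x y ^ d * Complex.exp (-(b₁ * ∑ j, (x j : ℂ) ^ 2)) *
    Complex.exp (-(b₂ * ∑ j, (y j : ℂ) ^ 2))

/-- integral coordinates of an icosian -/
def icoE : Ico ≃ (Fin 8 → ℤ) where
  toFun x := ![x.a.re, x.a.im, x.b.re, x.b.im, x.c.re, x.c.im, x.d.re, x.d.im]
  invFun m := ⟨⟨m 0, m 1⟩, ⟨m 2, m 3⟩, ⟨m 4, m 5⟩, ⟨m 6, m 7⟩⟩
  left_inv x := by
    cases x
    rfl
  right_inv m := by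
    funext j
    fin_cases j <;> rfl

end H53M
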