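import Mathlib

namespace H53M

/-- the quadratic character modulo 5 on natural numbers -/
def T3_c5 (t : ℕ) : ℤ := if t % 5 = 0 then 0 else if t % 5 = 1 then 1 else if t % 5 = 4 then 1 else -1

/-- `ψ` in the coordinates `A, D, h = 4 e + 2 f` modulo 5 -/
def T3_pn (A D h : ℕ) : ℤ :=
  if ((A + 4 * D) * (A + 4 * D) + (4 * A + D + h) * (3 * A + h)) % 5 = 0 then
    (if (4 * A + D + h) % 5 = 0 then T3_c5 (4 * (3 * A + h)) else T3_c5 (4 * A + D + h)) else 0

/-- the polar form modulo 5 -/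
def T3_B (A D h A' D' h' : ℕ) : ℕ :=
  (4 * ((A + 4 * D) * (A' + 4 * D')) + 2 * ((4 * A + D + h) * (3 * A' + h')) +
    2 * ((3 * A + h) * (4 * A' + D' + h'))) % 5

/-- the sum over the fibres of the linear form `B(., u')` -/
def T3_S (A' D' h' t : ℕ) : ℤ :=
  ∑ A ∈ Finset.range 5, ∑ D ∈ Finset.range 5, ∑ h ∈ Finset.range 5,
    if T3_B A D h A' D' h' = t then T3_pn A D h else 0

theorem T3_dec : ∀ A' < 5, ∀ D' < 5, ∀ h' < 5, ∀ t < 5,
    T3_S A' D' h' t = -5 * T3_c5 t * T3_pn A' D' h' := by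
  decide +kernel

end H53M
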