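import Pool.Agent.Lib.H53M.TStat
import Pool.Agent.Lib.H53M.T3D

/-!
# H53M, module T3: the finite Fourier transform of `ψ`
-/

namespace H53M

open QuadraticAlgebra

/-- `ψ` in the coordinates `A, D, h = 4 e + 2 f` modulo 5 -/
def T3_pz (A D h : ZMod 5) : ℤ :=
  if (A + 4 * D) * (A + 4 * D) + (4 * A + D + h) * (3 * A + h) = 0 then
    (if 4 * A + D + h = 0 then chi5 (4 * (3 * A + h)) else chi5 (4 * A + D + h)) else 0

theorem T3_five : (5 : ZMod 5) = 0 := by decide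

theorem T3_qL (u : Fin 4 → ℤ) : (lq u).N =
    ((u 0 ^ 2 + 2 * u 1 ^ 2 + 2 * u 2 ^ 2 + 3 * u 3 ^ 2 + 2 * u 0 * u 1 + 3 * u 1 * u 2 +
      4 * u 1 * u 3 + u 0 * u 2 + 2 * u 2 * u 3 + 3 * u 0 * u 3 : ℤ) : O5) := by
  unfold lq lp Ico.N
  simp only [Ico.om_sq, Ico.om_cube]
  ext
  · simp [om, pow_two]
    ring
  · simp [om, pow_two]
    ring

theorem T3_qL' (u : Fin 4 → ℤ) : qL u =
    u 0 ^ 2 + 2 * u 1 ^ 2 + 2 * u 2 ^ 2 + 3 * u 3 ^ 2 + 2 * u 0 * u 1 + 3 * u 1 * u 2 +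
      4 * u 1 * u 3 + u 0 * u 2 + 2 * u 2 * u 3 + 3 * u 0 * u 3 := by
  unfold qL
  rw [T3_qL, re_intCast, Int.cast_id]

theorem T3_rho01 (u : Fin 4 → ℤ) : (rho (lq u) * rg) 0 1 =
    4 * (u 0 : ZMod 5) + u 1 + (4 * (u 2 : ZMod 5) + 2 * u 3) := by
  unfold lq lp rho rg r5
  simp [Matrix.mul_apply, Fin.sum_univ_two]
  push_cast
  linear_combination (4 * (u 0 : ZMod 5) + 3 * u 1 - 3 * u 2 + 9 * u 3) * T3_five

theorem T3_rho10 (u : Fin 4 → ℤ) : (rho (lq u) * rg) 1 0 =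
    3 * (u 0 : ZMod 5) + (4 * (u 2 : ZMod 5) + 2 * u 3) := by
  unfold lq lp rho rg r5
  simp [Matrix.mul_apply, Fin.sum_univ_two]
  push_cast
  linear_combination ((u 0 : ZMod 5) + 6 * u 1 + 12 * u 2 + 2 * u 3) * T3_five


theorem T3_r5N (u : Fin 4 → ℤ) : r5 (lq u).N =
    3 * (-(((u 0 : ZMod 5) + 4 * u 1) * (u 0 + 4 * u 1) +
      (4 * u 0 + u 1 + (4 * u 2 + 2 * u 3)) * (3 * u 0 + (4 * u 2 + 2 * u 3)))) := by
  rw [T3_qL]
  unfold r5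
  rw [re_intCast, im_intCast]
  push_cast
  linear_combination (7 * (u 0 : ZMod 5) * u 1 + 17 * u 0 * u 2 + 9 * u 0 * u 3 + 8 * u 0 ^ 2 +
    3 * u 1 * u 2 + 2 * u 1 * u 3 + 10 * u 1 ^ 2 + 10 * u 2 * u 3 + 10 * u 2 ^ 2 + 3 * u 3 ^ 2) *
    T3_five

theorem T3_psi (u : Fin 4 → ℤ) :
    psi (lq u) = T3_pz (u 0) (u 1) (4 * (u 2 : ZMod 5) + 2 * u 3) := by
  unfold psi T3_pz
  rw [T3_rho01, T3_rho10, T3_r5N]
  have h1 : ∀ t : ZMod 5, (3 * (-t) = 0) ↔ t = 0 := by decide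
  have h2 : ∀ t : ZMod 5, chi5 (-t) = chi5 (4 * t) := by decide
  simp only [h1, h2]

theorem T3_sum5 {M : Type*} [AddCommMonoid M] (g : ZMod 5 → M) :
    ∑ x : ZMod 5, g x = ∑ n ∈ Finset.range 5, g (n : ZMod 5) := by
  rw [Finset.sum_range]
  exact Finset.sum_congr rfl fun x _ => by
    congr 1
    exact (ZMod.natCast_zmod_val x).symm

theorem T3_c5_eq (n : ℕ) : T3_c5 n = chi5 (n : ZMod 5) := by
  have h1 : T3_c5 n = T3_c5 (n % 5) := by simp [T3_c5]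
  have h2 : (n : ZMod 5) = ((n % 5 : ℕ) : ZMod 5) := by simp
  rw [h1, h2]
  have h3 : n % 5 < 5 := Nat.mod_lt _ (by norm_num)
  generalize n % 5 = k at h3
  interval_cases k <;> decide

theorem T3_pn_eq (A D h : ℕ) : T3_pn A D h = T3_pz A D h := by
  unfold T3_pn T3_pz
  have h1 : ∀ t : ℕ, (t % 5 = 0) ↔ ((t : ZMod 5) = 0) := fun t => by
    rw [ZMod.natCast_eq_zero_iff, Nat.dvd_iff_mod_eq_zero]
  simp only [h1, T3_c5_eq]
  push_cast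
  rfl


open Complex

/-- the Gauss sum modulo 5 -/
theorem T3_gs : ∑ t : ZMod 5, (chi5 t : ℂ) * ZMod.stdAddChar (N := 5) t = ((√5 : ℝ) : ℂ) := by
  have h0 : ∀ t : ZMod 5, chi5 t = if t = 0 then 0 else if t = 1 ∨ t = 4 then 1 else -1 := by
    intro t; rfl
  have h5 : ∑ t : ZMod 5, (chi5 t : ℂ) * ZMod.stdAddChar (N := 5) t =
      ZMod.stdAddChar (N := 5) ((1 : ℤ) : ZMod 5) + ZMod.stdAddChar (N := 5) ((-1 : ℤ) : ZMod 5) -
      (ZMod.stdAddChar (N := 5) ((2 : ℤ) : ZMod 5) + ZMod.stdAddChar (N := 5) ((-2 : ℤ) : ZMod 5)) := by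
    rw [T3_sum5]
    have e1 : ((4 : ℕ) : ZMod 5) = ((-1 : ℤ) : ZMod 5) := by decide
    have e2 : ((3 : ℕ) : ZMod 5) = ((-2 : ℤ) : ZMod 5) := by decide
    have e3 : ((2 : ℕ) : ZMod 5) = ((2 : ℤ) : ZMod 5) := by decide
    have e4 : ((1 : ℕ) : ZMod 5) = ((1 : ℤ) : ZMod 5) := by decide
    have c0 : chi5 ((0 : ℕ) : ZMod 5) = 0 := by decide
    have c1 : chi5 ((1 : ℤ) : ZMod 5) = 1 := by decide
    have c2 : chi5 ((2 : ℤ) : ZMod 5) = -1 := by decide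
    have c3 : chi5 ((-2 : ℤ) : ZMod 5) = -1 := by decide
    have c4 : chi5 ((-1 : ℤ) : ZMod 5) = 1 := by decide
    simp only [Finset.sum_range_succ, Finset.sum_range_zero, e1, e2, e3, e4, c0, c1, c2, c3, c4]
    push_cast
    ring
  rw [h5]
  simp only [ZMod.stdAddChar_coe]
  have hcos : ∀ x : ℝ, exp (((x : ℝ) : ℂ) * I) + exp (-(((x : ℝ) : ℂ) * I)) =
      ((2 * Real.cos x : ℝ) : ℂ) := by
    intro x
    push_cast
    rw [Complex.cos]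
    have : -(((x : ℝ) : ℂ) * I) = -((x : ℝ) : ℂ) * I := by ring
    rw [this]
    ring
  have k1 : (2 * (Real.pi : ℂ) * I * ((1 : ℤ) : ℂ) / ((5 : ℕ) : ℂ)) =
      ((2 * Real.pi / 5 : ℝ) : ℂ) * I := by push_cast; ring
  have k2 : (2 * (Real.pi : ℂ) * I * ((-1 : ℤ) : ℂ) / ((5 : ℕ) : ℂ)) =
      -(((2 * Real.pi / 5 : ℝ) : ℂ) * I) := by push_cast; ring
  have k3 : (2 * (Real.pi : ℂ) * I * ((2 : ℤ) : ℂ) / ((5 : ℕ) : ℂ)) =
      ((4 * Real.pi / 5 : ℝ) : ℂ) * I := by push_cast; ring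
  have k4 : (2 * (Real.pi : ℂ) * I * ((-2 : ℤ) : ℂ) / ((5 : ℕ) : ℂ)) =
      -(((4 * Real.pi / 5 : ℝ) : ℂ) * I) := by push_cast; ring
  rw [k1, k2, k3, k4, hcos, hcos, ← Complex.ofReal_sub]
  congr 1
  have c1 : Real.cos (Real.pi / 5) = (1 + √5) / 4 := Real.cos_pi_div_five
  have c2 : Real.cos (2 * Real.pi / 5) = 2 * Real.cos (Real.pi / 5) ^ 2 - 1 := by
    rw [← Real.cos_two_mul]; congr 1; ring
  have c3 : Real.cos (4 * Real.pi / 5) = -Real.cos (Real.pi / 5) := by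
    rw [← Real.cos_pi_sub]; congr 1; ring
  rw [c2, c3, c1]
  have h : √5 ^ 2 = 5 := Real.sq_sqrt (by norm_num)
  linear_combination (1 / 4 : ℝ) * h

end H53M
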