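import Pool.Agent.Lib.H53M.T3F

/-!
# H53M, module T3: the finite Fourier transform of `ψ`, main identities
-/

namespace H53M

open Complex

/-- the finite Fourier transform of `ψ` on `ℤ⁴ / 5` -/
noncomputable def T3_hat (m : Fin 4 → ℤ) : ℂ :=
  ∑ c : Fin 4 → ZMod 5, (T3_pz (c 0) (c 1) (4 * c 2 + 2 * c 3) : ℂ) *
    ZMod.stdAddChar (N := 5) (∑ j, (m j : ZMod 5) * c j)

theorem T3_hat_zero (m : Fin 4 → ℤ) (h : ¬ (5 : ℤ) ∣ m 2 + 3 * m 3) : T3_hat m = 0 := by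
  let v : Fin 4 → ZMod 5 := ![0, 0, 1, 3]
  have h1 : T3_hat m = ZMod.stdAddChar (N := 5) ((m 2 : ZMod 5) + 3 * m 3) * T3_hat m := by
    conv_lhs => rw [T3_hat, ← Equiv.sum_comp (Equiv.addRight v)]
    rw [T3_hat, Finset.mul_sum]
    refine Finset.sum_congr rfl fun c _ => ?_
    have e1 : 4 * ((Equiv.addRight v) c 2) + 2 * ((Equiv.addRight v) c 3) = 4 * c 2 + 2 * c 3 := by
      have a1 : (Equiv.addRight v) c 2 = c 2 + 1 := rfl
      have a2 : (Equiv.addRight v) c 3 = c 3 + 3 := rfl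
      rw [a1, a2]
      linear_combination 2 * T3_five
    have e2 : (Equiv.addRight v) c 0 = c 0 := by
      have : (Equiv.addRight v) c 0 = c 0 + 0 := rfl
      rw [this, add_zero]
    have e3 : (Equiv.addRight v) c 1 = c 1 := by
      have : (Equiv.addRight v) c 1 = c 1 + 0 := rfl
      rw [this, add_zero]
    have e4 : ∑ j, (m j : ZMod 5) * (Equiv.addRight v) c j =
        ((m 2 : ZMod 5) + 3 * m 3) + ∑ j, (m j : ZMod 5) * c j := by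
      rw [Fin.sum_univ_four, Fin.sum_univ_four, e2, e3]
      have a1 : (Equiv.addRight v) c 2 = c 2 + 1 := rfl
      have a2 : (Equiv.addRight v) c 3 = c 3 + 3 := rfl
      rw [a1, a2]
      ring
    rw [e1, e2, e3, e4, AddChar.map_add_eq_mul]
    ring
  have h2 : ZMod.stdAddChar (N := 5) ((m 2 : ZMod 5) + 3 * m 3) ≠ 1 := by
    intro h3
    have h4 : ((m 2 : ZMod 5) + 3 * m 3) = 0 := by
      apply ZMod.injective_stdAddChar (N := 5)
      rw [h3, AddChar.map_zero_eq_one]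
    apply h
    refine (ZMod.intCast_zmod_eq_zero_iff_dvd _ 5).1 ?_
    push_cast
    exact h4
  have h5 : (ZMod.stdAddChar (N := 5) ((m 2 : ZMod 5) + 3 * m 3) - 1) * T3_hat m = 0 := by
    linear_combination -h1
  exact (mul_eq_zero.1 h5).resolve_left (sub_ne_zero.2 h2)

/-- the matrix `2 Q` -/
def T3_Q (u : Fin 4 → ℤ) : Fin 4 → ℤ :=
  ![2 * u 0 + 2 * u 1 + u 2 + 3 * u 3, 2 * u 0 + 4 * u 1 + 3 * u 2 + 4 * u 3,
    u 0 + 3 * u 1 + 4 * u 2 + 2 * u 3, 3 * u 0 + 4 * u 1 + 2 * u 2 + 6 * u 3]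

/-- coordinates `A, D, h, e` -/
def T3_E : (Fin 4 → ZMod 5) ≃ ZMod 5 × ZMod 5 × ZMod 5 × ZMod 5 where
  toFun c := (c 0, c 1, 4 * c 2 + 2 * c 3, c 2)
  invFun p := ![p.1, p.2.1, p.2.2.2, 3 * p.2.2.1 + 3 * p.2.2.2]
  left_inv c := by
    funext j
    fin_cases j
    · rfl
    · rfl
    · rfl
    · change 3 * (4 * c 2 + 2 * c 3) + 3 * c 2 = c 3
      linear_combination (3 * c 2 + c 3) * T3_five
  right_inv p := by
    obtain ⟨a, d, h, e⟩ := p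
    simp only [Matrix.cons_val_zero, Matrix.cons_val_one, Matrix.cons_val, Prod.mk.injEq,
      true_and, and_true]
    linear_combination (2 * e + h) * T3_five

theorem T3_hat_main (u : Fin 4 → ℤ) :
    T3_hat (T3_Q u) = -(25 * ((√5 : ℝ) : ℂ)) * (psi (lq u) : ℂ) := by
  rw [T3_psi]
  obtain ⟨a, ha, ha'⟩ : ∃ a : ℕ, a < 5 ∧ (a : ZMod 5) = (u 0 : ZMod 5) :=
    ⟨(u 0 : ZMod 5).val, ZMod.val_lt _, ZMod.natCast_zmod_val _⟩
  obtain ⟨d, hd, hd'⟩ : ∃ a : ℕ, a < 5 ∧ (a : ZMod 5) = (u 1 : ZMod 5) :=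
    ⟨(u 1 : ZMod 5).val, ZMod.val_lt _, ZMod.natCast_zmod_val _⟩
  obtain ⟨w, hw, hw'⟩ : ∃ a : ℕ, a < 5 ∧ (a : ZMod 5) = 4 * (u 2 : ZMod 5) + 2 * u 3 :=
    ⟨(4 * (u 2 : ZMod 5) + 2 * u 3).val, ZMod.val_lt _, ZMod.natCast_zmod_val _⟩
  have hB : ∀ c : Fin 4 → ZMod 5, ∑ j, (T3_Q u j : ZMod 5) * c j =
      4 * ((c 0 + 4 * c 1) * (a + 4 * d)) + 2 * ((4 * c 0 + c 1 + (4 * c 2 + 2 * c 3)) *
        (3 * a + w)) + 2 * ((3 * c 0 + (4 * c 2 + 2 * c 3)) * (4 * a + d + w)) := by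
    intro c
    rw [ha', hd', hw', Fin.sum_univ_four]
    have q0 : T3_Q u 0 = 2 * u 0 + 2 * u 1 + u 2 + 3 * u 3 := rfl
    have q1 : T3_Q u 1 = 2 * u 0 + 4 * u 1 + 3 * u 2 + 4 * u 3 := rfl
    have q2 : T3_Q u 2 = u 0 + 3 * u 1 + 4 * u 2 + 2 * u 3 := rfl
    have q3 : T3_Q u 3 = 3 * u 0 + 4 * u 1 + 2 * u 2 + 6 * u 3 := rfl
    rw [q0, q1, q2, q3]
    push_cast
    linear_combination (-10 * (u 0 : ZMod 5) * c 0 - 4 * u 0 * c 1 - 11 * u 0 * c 2 -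
      5 * u 0 * c 3 - 4 * u 1 * c 0 - 12 * u 1 * c 1 - u 1 * c 2 - 11 * u 2 * c 0 - u 2 * c 1 -
      12 * u 2 * c 2 - 6 * u 2 * c 3 - 5 * u 3 * c 0 - 6 * u 3 * c 2 - 2 * u 3 * c 3) * T3_five
  rw [T3_hat]
  simp only [hB]
  let G : ZMod 5 → ZMod 5 → ZMod 5 → ℂ := fun A D h => (T3_pz A D h : ℂ) *
    ZMod.stdAddChar (N := 5) (4 * ((A + 4 * D) * (a + 4 * d)) + 2 * ((4 * A + D + h) *
      (3 * a + w)) + 2 * ((3 * A + h) * (4 * a + d + w)))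
  have h1 : ∑ c : Fin 4 → ZMod 5, G (c 0) (c 1) (4 * c 2 + 2 * c 3) =
      ∑ p : ZMod 5 × ZMod 5 × ZMod 5 × ZMod 5, G p.1 p.2.1 p.2.2.1 :=
    Fintype.sum_equiv T3_E _ _ fun c => rfl
  have h2 : ∑ p : ZMod 5 × ZMod 5 × ZMod 5 × ZMod 5, G p.1 p.2.1 p.2.2.1 =
      5 * ∑ A ∈ Finset.range 5, ∑ D ∈ Finset.range 5, ∑ h ∈ Finset.range 5,
        G (A : ZMod 5) (D : ZMod 5) (h : ZMod 5) := by
    simp only [Fintype.sum_prod_type, Finset.sum_const, Finset.card_univ, ZMod.card, nsmul_eq_mul,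
      ← Finset.mul_sum]
    simp only [T3_sum5]
    push_cast
    rfl
  have h3 : ∀ A D h : ℕ, G (A : ZMod 5) (D : ZMod 5) (h : ZMod 5) =
      ∑ t ∈ Finset.range 5, ZMod.stdAddChar (N := 5) (t : ZMod 5) *
        ((if T3_B A D h a d w = t then T3_pn A D h else 0 : ℤ) : ℂ) := by
    intro A D h
    have hlt : T3_B A D h a d w < 5 := Nat.mod_lt _ (by norm_num)
    rw [Finset.sum_eq_single (T3_B A D h a d w)]
    · rw [if_pos rfl, T3_pn_eq, mul_comm]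
      change (T3_pz A D h : ℂ) * ZMod.stdAddChar (N := 5) _ = _
      congr 2
      unfold T3_B
      rw [ZMod.natCast_mod]
      push_cast
      ring
    · intro t _ ht
      rw [if_neg (Ne.symm ht)]
      simp
    · intro h0
      exact absurd (Finset.mem_range.2 hlt) h0
  have h4 : ∑ A ∈ Finset.range 5, ∑ D ∈ Finset.range 5, ∑ h ∈ Finset.range 5,
        G (A : ZMod 5) (D : ZMod 5) (h : ZMod 5) =
      ∑ t ∈ Finset.range 5, ZMod.stdAddChar (N := 5) (t : ZMod 5) * (T3_S a d w t : ℂ) := by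
    simp only [h3]
    simp only [T3_S, Int.cast_sum, Finset.mul_sum]
    refine (Finset.sum_congr rfl fun A _ => (Finset.sum_congr rfl fun D _ =>
      Finset.sum_comm).trans Finset.sum_comm).trans Finset.sum_comm
  have h5 : ∑ t ∈ Finset.range 5, ZMod.stdAddChar (N := 5) (t : ZMod 5) * (T3_S a d w t : ℂ) =
      -5 * (T3_pn a d w : ℂ) * ((√5 : ℝ) : ℂ) := by
    rw [← T3_gs, T3_sum5, Finset.mul_sum]
    refine Finset.sum_congr rfl fun t ht => ?_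
    rw [T3_dec a ha d hd w hw t (Finset.mem_range.1 ht), T3_c5_eq]
    push_cast
    ring
  change ∑ c : Fin 4 → ZMod 5, G (c 0) (c 1) (4 * c 2 + 2 * c 3) = _
  rw [h1, h2, h4, h5, T3_pn_eq, ha', hd', hw']
  ring

end H53M
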