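import Pool.Agent.Lib.H53M.T3G
import Pool.Agent.Lib.H53M.TL

/-!
# H53M, module T3: real coordinates of the lattice `L`
-/

namespace H53M

open Matrix

/-- the matrix of `u ↦ H1 (lq u)` -/
noncomputable def T3_M : Matrix (Fin 4) (Fin 4) ℝ :=
  !![1 / 2, 0, 0, 0;
    (1 + √5) / 4, (3 + √5) / 4, 1, (1 + √5) / 2;
    -((1 - √5) / 4), -((3 - √5) / 4), -1, -((1 - √5) / 2);
    0, 1 / 2, 0, 0]

theorem T3_s5 : √5 ^ 2 = 5 := Real.sq_sqrt (by norm_num)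

theorem T3_H (u : Fin 4 → ℤ) : H1 (lq u) =
    ⟨(T3_M *ᵥ (fun j => (u j : ℝ))) 0, (T3_M *ᵥ (fun j => (u j : ℝ))) 1,
      (T3_M *ᵥ (fun j => (u j : ℝ))) 2, (T3_M *ᵥ (fun j => (u j : ℝ))) 3⟩ := by
  have h := T3_s5
  ext
  all_goals
    simp [toH, f1, lq, lp, om, T3_M, Matrix.mulVec, dotProduct, Fin.sum_univ_four]
  · linear_combination ((u 0 : ℝ) / 8 + u 1 / 8 + u 3 / 4) * h
  · linear_combination ((u 0 : ℝ) / 8 + u 1 / 8 + u 3 / 4) * h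
  · ring
  · ring

theorem T3_lin (ζ : Fin 4 → ℂ) (u : Fin 4 → ℤ) :
    lin4 ζ (H1 (lq u)) = ∑ j, ζ j * ((T3_M *ᵥ (fun j => (u j : ℝ))) j : ℂ) := by
  rw [T3_H, Fin.sum_univ_four]
  rfl

theorem T3_norm (u : Fin 4 → ℤ) :
    (qL u : ℝ) = ∑ j, ((T3_M *ᵥ (fun j => (u j : ℝ))) j) ^ 2 := by
  have h := T3_s5
  rw [T3_qL', Fin.sum_univ_four]
  simp [T3_M, Matrix.mulVec, dotProduct, Fin.sum_univ_four]
  linear_combination (-(u 0 : ℝ) * u 1 / 4 - u 0 * u 3 / 2 - u 0 ^ 2 / 8 - u 1 * u 3 / 2 -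
    u 1 ^ 2 / 8 - u 3 ^ 2 / 2) * h

theorem T3_det : (5 • T3_M).det = 625 / 4 * √5 := by
  have h := T3_s5
  have h1 : (5 • T3_M : Matrix (Fin 4) (Fin 4) ℝ) = (5 : ℝ) • T3_M := by
    ext i j; simp
  rw [h1, Matrix.det_smul, Fintype.card_fin]
  have h2 : T3_M.det = √5 / 4 := by
    rw [T3_M, Matrix.det_succ_row_zero]
    simp [Fin.sum_univ_succ, Matrix.det_fin_three, Fin.succAbove]
    linear_combination (0 : ℝ) * h
  rw [h2]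
  ring


/-- `2 Q = 2 Mᵀ M` -/
theorem T3_QM (u : Fin 4 → ℤ) : (fun j => (T3_Q u j : ℝ)) =
    (2 : ℝ) • (T3_Mᵀ *ᵥ (T3_M *ᵥ (fun j => (u j : ℝ)))) := by
  have h := T3_s5
  funext j
  fin_cases j
  all_goals
    simp only [T3_Q, T3_M, Matrix.mulVec, dotProduct, Fin.sum_univ_four, Matrix.transpose_apply,
      Pi.smul_apply, smul_eq_mul]
    simp
  · linear_combination (-(u 0 : ℝ) / 4 - u 1 / 4 - u 3 / 2) * h
  · linear_combination (-(u 0 : ℝ) / 4 - u 1 / 4 - u 3 / 2) * h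
  · linear_combination (0 : ℝ) * h
  · linear_combination (-(u 0 : ℝ) / 2 - u 1 / 2 - u 3) * h


/-- `A = 5 M` -/
noncomputable def T3_A : Matrix (Fin 4) (Fin 4) ℝ := (5 : ℝ) • T3_M

theorem T3_Adet : T3_A.det = 625 / 4 * √5 := by
  rw [← T3_det, T3_A]
  congr 1
  ext i j
  simp

theorem T3_Adet0 : T3_A.det ≠ 0 := by
  rw [T3_Adet]
  positivity

theorem T3_Ainv (u : Fin 4 → ℤ) : (T3_A⁻¹)ᵀ *ᵥ (fun j => (T3_Q u j : ℝ)) =
    (2 / 5 : ℝ) • (T3_M *ᵥ (fun j => (u j : ℝ))) := by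
  have h1 : (2 : ℝ) • (T3_Mᵀ *ᵥ (T3_M *ᵥ (fun j => (u j : ℝ)))) =
      T3_Aᵀ *ᵥ ((2 / 5 : ℝ) • (T3_M *ᵥ (fun j => (u j : ℝ)))) := by
    rw [T3_A, Matrix.transpose_smul, Matrix.smul_mulVec, Matrix.mulVec_smul, smul_smul]
    norm_num
  rw [T3_QM, h1, Matrix.mulVec_mulVec, ← Matrix.transpose_mul,
    Matrix.mul_nonsing_inv _ (isUnit_iff_ne_zero.2 T3_Adet0), Matrix.transpose_one,
    Matrix.one_mulVec]

/-- `ℤ⁴ = ⋃ (c + 5 ℤ⁴)` -/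
def T3_E2 : (Fin 4 → ZMod 5) × (Fin 4 → ℤ) ≃ (Fin 4 → ℤ) where
  toFun p j := 5 * p.2 j + ((p.1 j).val : ℤ)
  invFun u := (fun j => (u j : ZMod 5), fun j => u j / 5)
  left_inv p := by
    obtain ⟨c, m⟩ := p
    simp only [Prod.mk.injEq]
    constructor
    · funext j
      push_cast
      rw [T3_five, zero_mul, zero_add, ZMod.natCast_zmod_val]
    · funext j
      have h1 : (c j).val < 5 := ZMod.val_lt _
      omega
  right_inv u := by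
    funext j
    simp only
    rw [ZMod.val_intCast]
    have := Int.mul_ediv_add_emod (u j) 5
    exact_mod_cast this

theorem T3_psi_E2 (c : Fin 4 → ZMod 5) (m : Fin 4 → ℤ) :
    psi (lq (T3_E2 (c, m))) = T3_pz (c 0) (c 1) (4 * c 2 + 2 * c 3) := by
  have h1 : ∀ j, ((T3_E2 (c, m) j : ℤ) : ZMod 5) = c j := by
    intro j
    have : T3_E2 (c, m) j = 5 * m j + ((c j).val : ℤ) := rfl
    rw [this]
    push_cast
    rw [T3_five, zero_mul, zero_add, ZMod.natCast_zmod_val]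
  rw [T3_psi, h1, h1, h1, h1]

theorem T3_Q_inj : Function.Injective T3_Q := by
  intro u v h
  have h0 : 2 * u 0 + 2 * u 1 + u 2 + 3 * u 3 = 2 * v 0 + 2 * v 1 + v 2 + 3 * v 3 := congrFun h 0
  have h1 : 2 * u 0 + 4 * u 1 + 3 * u 2 + 4 * u 3 = 2 * v 0 + 4 * v 1 + 3 * v 2 + 4 * v 3 :=
    congrFun h 1
  have h2 : u 0 + 3 * u 1 + 4 * u 2 + 2 * u 3 = v 0 + 3 * v 1 + 4 * v 2 + 2 * v 3 := congrFun h 2
  have h3 : 3 * u 0 + 4 * u 1 + 2 * u 2 + 6 * u 3 = 3 * v 0 + 4 * v 1 + 2 * v 2 + 6 * v 3 :=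
    congrFun h 3
  funext j
  fin_cases j
  · change u 0 = v 0; omega
  · change u 1 = v 1; omega
  · change u 2 = v 2; omega
  · change u 3 = v 3; omega

theorem T3_Q_range (m : Fin 4 → ℤ) (h : (5 : ℤ) ∣ m 2 + 3 * m 3) : m ∈ Set.range T3_Q := by
  obtain ⟨k, hk⟩ := h
  refine ⟨![2 * m 0 - m 3, 2 * m 1 - m 2 - m 3, -m 1 + 4 * k - 2 * m 3, -m 0 - m 1 + 2 * k], ?_⟩
  funext j
  fin_cases j
  · change 2 * (2 * m 0 - m 3) + 2 * (2 * m 1 - m 2 - m 3) + (-m 1 + 4 * k - 2 * m 3) +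
      3 * (-m 0 - m 1 + 2 * k) = m 0
    omega
  · change 2 * (2 * m 0 - m 3) + 4 * (2 * m 1 - m 2 - m 3) + 3 * (-m 1 + 4 * k - 2 * m 3) +
      4 * (-m 0 - m 1 + 2 * k) = m 1
    omega
  · change (2 * m 0 - m 3) + 3 * (2 * m 1 - m 2 - m 3) + 4 * (-m 1 + 4 * k - 2 * m 3) +
      2 * (-m 0 - m 1 + 2 * k) = m 2
    omega
  · change 3 * (2 * m 0 - m 3) + 4 * (2 * m 1 - m 2 - m 3) + 2 * (-m 1 + 4 * k - 2 * m 3) +
      6 * (-m 0 - m 1 + 2 * k) = m 3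
    omega

end H53M
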