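import Pool.Agent.Lib.H53M.IDefs

/-!
# H53M, statements of module T (Poisson summation), definitions only

`T2` and `T3` are the two facts which module T has to supply.
-/

namespace H53M

open Matrix

/-- `(r · M(x₁) · A · M(x̄₂) · s)^d`, `x₁, x₂` the two quaternions attached to the icosian `x`. -/
noncomputable def F2 (d : ℕ) (r s : Fin 2 → ℂ) (A : Matrix (Fin 2) (Fin 2) ℂ) (x : Ico) : ℂ :=
  (dotProduct (Matrix.vecMul (Matrix.vecMul r (cm (H1 x))) A)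
    (Matrix.mulVec (cm (star (H2 x))) s)) ^ d

/-- `ν(x) = δ |x₁|²` -/
noncomputable def nu1 (x : Ico) : ℝ := dl1 * Quaternion.normSq (H1 x)

/-- `ν'(x) = δ' |x₂|²` -/
noncomputable def nu2 (x : Ico) : ℝ := dl2 * Quaternion.normSq (H2 x)

/-- theta series over the icosians -/
noncomputable def ThI (F : Ico → ℂ) (z₁ z₂ : ℂ) : ℂ :=
  ∑' x : Ico, F x * Complex.exp (2 * Real.pi * Complex.I * ((nu1 x : ℂ) * z₁ + (nu2 x : ℂ) * z₂))

/-- Statement T2. -/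
def StT2 : Prop := ∀ (d : ℕ) (r s : Fin 2 → ℂ) (A : Matrix (Fin 2) (Fin 2) ℂ) (z₁ z₂ : ℂ),
  0 < z₁.im → 0 < z₂.im →
    Summable (fun x : Ico => F2 d r s A x *
      Complex.exp (2 * Real.pi * Complex.I * ((nu1 x : ℂ) * z₁ + (nu2 x : ℂ) * z₂))) ∧
    ThI (F2 d r s A) (-1 / z₁) (-1 / z₂) = (z₁ * z₂) ^ (d + 2) * ThI (F2 d r s A) z₁ z₂

/-- integer point of `L` -/
def lq (u : Fin 4 → ℤ) : Ico := lp (u 0) (u 1) (u 2) (u 3)

/-- the norm form of `L`: `N(lq u) = qL u ∈ ℤ` -/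
def qL (u : Fin 4 → ℤ) : ℤ := (lq u).N.re

/-- linear form on `ℍ = ℝ⁴` with complex coefficients -/
noncomputable def lin4 (ζ : Fin 4 → ℂ) (x : Quaternion ℝ) : ℂ :=
  ζ 0 * x.re + ζ 1 * x.imI + ζ 2 * x.imJ + ζ 3 * x.imK

/-- theta series of `L` with the character `ψ` and the power of an isotropic linear form -/
noncomputable def ThL (d : ℕ) (ζ : Fin 4 → ℂ) (z : ℂ) : ℂ :=
  ∑' u : Fin 4 → ℤ, (psi (lq u) : ℂ) * lin4 ζ (H1 (lq u)) ^ d *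
    Complex.exp (2 * Real.pi * Complex.I * z * (qL u : ℂ) / 5)

/-- Statement T3 (`ψ(lq u) ≠ 0` implies `5 ∣ qL u`, so `ThL` is a power series in `q`). -/
def StT3 : Prop := ∀ (d : ℕ) (ζ : Fin 4 → ℂ) (z : ℂ),
  Even d → ζ 0 ^ 2 + ζ 1 ^ 2 + ζ 2 ^ 2 + ζ 3 ^ 2 = 0 → 0 < z.im →
    Summable (fun u : Fin 4 → ℤ => (psi (lq u) : ℂ) * lin4 ζ (H1 (lq u)) ^ d *
      Complex.exp (2 * Real.pi * Complex.I * z * (qL u : ℂ) / 5)) ∧
    ThL d ζ (-1 / z) = z ^ (d + 2) * ThL d ζ z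

end H53M
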