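import Pool.Agent.Lib.H53M.X0

/-!
# Chunk X1 (S): two elementary bounds

Put `x = 2π v y`. For `j : ℕ` and `x ≥ 0`: `x ^ j ≤ j! * exp x` (`Real.pow_div_factorial_le_exp`),
hence `x ^ j * exp (-x) ≤ j!`.

`bound1`: for `s ≤ K`, `v > 0`, `y ≥ y₀`:
`v^{-s} exp(-2πvy) ≤ v^{-s} exp(-2πvy₀) = v^{-K} · v^{K-s} exp(-2πvy₀)
   ≤ v^{-K} · (K-s)! / (2πy₀)^{K-s}`; take `C = Σ_{j ≤ K} j!/(2πy₀)^j`.

`bound2`: `y^{K-s} v^{-s} exp(-2πvy) = v^{-K} (vy)^{K-s} exp(-2πvy) ≤ v^{-K} (K-s)!/(2π)^{K-s}`;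
take `C = Σ_{j ≤ K} j!`.
-/

namespace H53M

namespace X

theorem X1_pow {x : ℝ} (hx : 0 ≤ x) (j : ℕ) : x ^ j * Real.exp (-x) ≤ (j.factorial : ℝ) := by
  have h1 := Real.pow_div_factorial_le_exp x hx j
  have h2 : (0 : ℝ) < (j.factorial : ℝ) := by exact_mod_cast Nat.factorial_pos j
  rw [div_le_iff₀ h2] at h1
  rw [Real.exp_neg, ← div_eq_mul_inv, div_le_iff₀ (Real.exp_pos x)]
  linarith

theorem bound1 (K : ℕ) (y₀ : ℝ) (hy₀ : 0 < y₀) : ∃ C : ℝ, 0 < C ∧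
    ∀ s ≤ K, ∀ v y : ℝ, 0 < v → y₀ ≤ y →
      v⁻¹ ^ s * Real.exp (-(2 * Real.pi * v * y)) ≤ C * v⁻¹ ^ K := by
  have hpi := Real.pi_pos
  refine ⟨∑ j ∈ Finset.range (K + 1), (j.factorial : ℝ) / (2 * Real.pi * y₀) ^ j, ?_, ?_⟩
  · apply Finset.sum_pos
    · intro j _; positivity
    · exact ⟨0, by simp⟩
  · intro s hs v y hv hy
    obtain ⟨j, rfl⟩ := Nat.exists_eq_add_of_le hs
    have h1 : (j.factorial : ℝ) / (2 * Real.pi * y₀) ^ j ≤
        ∑ j ∈ Finset.range (s + j + 1), (j.factorial : ℝ) / (2 * Real.pi * y₀) ^ j := by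
      apply Finset.single_le_sum (f := fun j : ℕ => (j.factorial : ℝ) / (2 * Real.pi * y₀) ^ j)
      · intro i _; positivity
      · simp
    have h2 : Real.exp (-(2 * Real.pi * v * y)) ≤ Real.exp (-(2 * Real.pi * y₀ * v)) := by
      apply Real.exp_le_exp.2
      have : 2 * Real.pi * v * y₀ ≤ 2 * Real.pi * v * y :=
        mul_le_mul_of_nonneg_left hy (by positivity)
      nlinarith
    have h3 := X1_pow (x := 2 * Real.pi * y₀ * v) (by positivity) j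
    have h4 : v ^ j * Real.exp (-(2 * Real.pi * y₀ * v)) ≤ (j.factorial : ℝ) / (2 * Real.pi * y₀) ^ j := by
      rw [le_div_iff₀ (by positivity)]
      calc v ^ j * Real.exp (-(2 * Real.pi * y₀ * v)) * (2 * Real.pi * y₀) ^ j
          = (2 * Real.pi * y₀ * v) ^ j * Real.exp (-(2 * Real.pi * y₀ * v)) := by
            rw [mul_pow (2 * Real.pi * y₀) v j]; ring
        _ ≤ _ := h3
    have h5 : v⁻¹ ^ s = v⁻¹ ^ (s + j) * v ^ j := by
      rw [pow_add, mul_assoc, ← mul_pow, inv_mul_cancel₀ hv.ne', one_pow, mul_one]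
    calc v⁻¹ ^ s * Real.exp (-(2 * Real.pi * v * y))
        ≤ v⁻¹ ^ s * Real.exp (-(2 * Real.pi * y₀ * v)) := mul_le_mul_of_nonneg_left h2 (by positivity)
      _ = v⁻¹ ^ (s + j) * (v ^ j * Real.exp (-(2 * Real.pi * y₀ * v))) := by rw [h5]; ring
      _ ≤ v⁻¹ ^ (s + j) * ∑ j ∈ Finset.range (s + j + 1), (j.factorial : ℝ) / (2 * Real.pi * y₀) ^ j :=
          mul_le_mul_of_nonneg_left (h4.trans h1) (by positivity)
      _ = _ := by ring

theorem bound2 (K : ℕ) : ∃ C : ℝ, 0 < C ∧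
    ∀ s ≤ K, ∀ v y : ℝ, 0 < v → 0 < y →
      y ^ (K - s) * (v⁻¹ ^ s * Real.exp (-(2 * Real.pi * v * y))) ≤ C * v⁻¹ ^ K := by
  have hpi := Real.pi_pos
  refine ⟨∑ j ∈ Finset.range (K + 1), (j.factorial : ℝ) / (2 * Real.pi) ^ j, ?_, ?_⟩
  · apply Finset.sum_pos
    · intro j _; positivity
    · exact ⟨0, by simp⟩
  · intro s hs v y hv hy
    obtain ⟨j, rfl⟩ := Nat.exists_eq_add_of_le hs
    have h1 : (j.factorial : ℝ) / (2 * Real.pi) ^ j ≤
        ∑ j ∈ Finset.range (s + j + 1), (j.factorial : ℝ) / (2 * Real.pi) ^ j := by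
      apply Finset.single_le_sum (f := fun j : ℕ => (j.factorial : ℝ) / (2 * Real.pi) ^ j)
      · intro i _; positivity
      · simp
    have h3 := X1_pow (x := 2 * Real.pi * v * y) (by positivity) j
    have h4 : (v * y) ^ j * Real.exp (-(2 * Real.pi * v * y)) ≤ (j.factorial : ℝ) / (2 * Real.pi) ^ j := by
      rw [le_div_iff₀ (by positivity)]
      calc (v * y) ^ j * Real.exp (-(2 * Real.pi * v * y)) * (2 * Real.pi) ^ j
          = (2 * Real.pi * v * y) ^ j * Real.exp (-(2 * Real.pi * v * y)) := by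
            rw [mul_assoc (2 * Real.pi) v y, mul_pow (2 * Real.pi) (v * y) j]; ring
        _ ≤ _ := h3
    have h5 : v⁻¹ ^ s = v⁻¹ ^ (s + j) * v ^ j := by
      rw [pow_add, mul_assoc, ← mul_pow, inv_mul_cancel₀ hv.ne', one_pow, mul_one]
    have h6 : s + j - s = j := by omega
    calc y ^ (s + j - s) * (v⁻¹ ^ s * Real.exp (-(2 * Real.pi * v * y)))
        = v⁻¹ ^ (s + j) * ((v * y) ^ j * Real.exp (-(2 * Real.pi * v * y))) := by
          rw [h5, h6, mul_pow v y j]; ring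
      _ ≤ v⁻¹ ^ (s + j) * ∑ j ∈ Finset.range (s + j + 1), (j.factorial : ℝ) / (2 * Real.pi) ^ j :=
          mul_le_mul_of_nonneg_left (h4.trans h1) (by positivity)
      _ = _ := by ring

end X

end H53M
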