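import Pool.Agent.Lib.H53M.X0

/-!
# Chunk X10 (S/M): elementary facts and the double sum as a sum over `ℕ × ℤ`

`facts` is `supp_facts` of `K3S.lean` (same proof; only the support hypothesis is used there), plus
`1 ≤ n` (`0 ≤ m² < 5n²`).
`uu_neg`, `vv_neg`: unfold.
`sum_idx`: `Summable.tsum_prod` and `tsum_eq_sum` (the inner sum over `ℤ` has support in `ms n`).
`GS_eq_F`: the terms of `GS` are those of `F` with `s = 0`; apply `sum_idx` (a summable family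
vanishing outside `ms`); if `m ∉ ms n` then `c n m = 0` by `facts`.
-/

namespace H53M

namespace X

/-- The two elementary hypotheses on an array. -/
def Sp (c : ℕ → ℤ → ℤ) : Prop := ∀ n m, c n m ≠ 0 → m ^ 2 < 5 * (n : ℤ) ^ 2 ∧ Even ((n : ℤ) - m)

theorem facts {c : ℕ → ℤ → ℤ} (hs : Sp c) {n : ℕ} {m : ℤ} (h : c n m ≠ 0) :
    0 < uu n m ∧ 0 < vv n m ∧ uu n m + vv n m = n ∧ uu n m * vv n m = (NN n m : ℝ) / 5 ∧
      0 < NN n m ∧ (NN n m : ℝ) ≤ 5 * (n : ℝ) ^ 2 / 4 ∧ 4 * NN n m = 5 * (n : ℤ) ^ 2 - m ^ 2 ∧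
      m ∈ ms n ∧ 1 ≤ n := by
  obtain ⟨h1, h2⟩ := hs n m h
  obtain ⟨r, hr⟩ := h2
  have e1 : 5 * (n : ℤ) ^ 2 - m ^ 2 = 4 * ((n : ℤ) ^ 2 + r * (n - r)) := by
    have hm : m = n - 2 * r := by linarith
    rw [hm]; ring
  have e2 : NN n m = (n : ℤ) ^ 2 + r * (n - r) := by
    unfold NN
    rw [e1]
    exact Int.mul_ediv_cancel_left _ (by norm_num)
  have e3 : 4 * NN n m = 5 * (n : ℤ) ^ 2 - m ^ 2 := by rw [e2, e1]
  have e3' : 4 * (NN n m : ℝ) = 5 * (n : ℝ) ^ 2 - (m : ℝ) ^ 2 := by exact_mod_cast e3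
  have hN : 0 < NN n m := by
    have : 0 < 4 * NN n m := by rw [e3]; linarith
    linarith
  have hn0 : (0 : ℝ) ≤ n := Nat.cast_nonneg n
  have h5 : Real.sqrt 5 ^ 2 = 5 := Real.sq_sqrt (by norm_num)
  have h50 : 0 < Real.sqrt 5 := Real.sqrt_pos.mpr (by norm_num)
  have hq : ((m : ℝ) / Real.sqrt 5) ^ 2 < (n : ℝ) ^ 2 := by
    rw [div_pow, h5]
    have : (m : ℝ) ^ 2 < 5 * (n : ℝ) ^ 2 := by exact_mod_cast h1
    linarith
  have hab := abs_lt_of_sq_lt_sq hq hn0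
  rw [abs_lt] at hab
  refine ⟨by unfold uu; linarith [hab.1], by unfold vv; linarith [hab.2], by unfold uu vv; ring,
    ?_, hN, ?_, e3, ?_, ?_⟩
  · unfold uu vv
    have : ((n : ℝ) + (m : ℝ) / Real.sqrt 5) / 2 * (((n : ℝ) - (m : ℝ) / Real.sqrt 5) / 2) =
        ((n : ℝ) ^ 2 - ((m : ℝ) / Real.sqrt 5) ^ 2) / 4 := by ring
    rw [this, div_pow, h5]
    linarith
  · have := sq_nonneg (m : ℝ)
    linarith
  · unfold ms
    rw [Finset.mem_Icc]
    have h6 : m ^ 2 < (3 * (n : ℤ)) ^ 2 := by nlinarith [sq_nonneg (n : ℤ)]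
    have h7 := abs_lt_of_sq_lt_sq h6 (by positivity)
    rw [abs_lt] at h7
    exact ⟨h7.1.le, h7.2.le⟩
  · rcases Nat.eq_zero_or_pos n with h0 | h0
    · exfalso
      rw [h0] at h1
      have := sq_nonneg m
      simp only [Nat.cast_zero, ne_eq, OfNat.ofNat_ne_zero, not_false_eq_true, zero_pow,
        mul_zero] at h1
      linarith
    · exact h0

theorem uu_neg (n : ℕ) (m : ℤ) : uu n (-m) = vv n m := by
  unfold uu vv
  push_cast
  ring

theorem vv_neg (n : ℕ) (m : ℤ) : vv n (-m) = uu n m := by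
  unfold uu vv
  push_cast
  ring

theorem NN_neg (n : ℕ) (m : ℤ) : NN n (-m) = NN n m := by
  unfold NN
  rw [neg_sq]

theorem sum_idx {f : Idx → ℂ} (hf : Summable f) (h0 : ∀ n m, m ∉ ms n → f (n, m) = 0) :
    ∑' i : Idx, f i = ∑' n : ℕ, ∑ m ∈ ms n, f (n, m) := by
  rw [hf.tsum_prod]
  refine tsum_congr fun n => ?_
  exact tsum_eq_sum fun m hm => h0 n m hm

theorem GS_eq_F {c : ℕ → ℤ → ℤ} (hs : Sp c) {z w : ℂ}
    (hf : Summable fun i : Idx => cc c i * ((V i : ℂ)⁻¹) ^ 0 * ex ((U i : ℂ) * z + (V i : ℂ) * w)) :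
    GS (fun n m => (c n m : ℂ)) z w = F (cc c) U V 0 z w := by
  have h0 : ∀ n m, m ∉ ms n → (fun i : Idx => cc c i * ((V i : ℂ)⁻¹) ^ 0 *
      ex ((U i : ℂ) * z + (V i : ℂ) * w)) (n, m) = 0 := by
    intro n m hm
    have h1 : c n m = 0 := by
      by_contra h
      exact hm (facts hs h).2.2.2.2.2.2.2.1
    simp [cc, h1]
  rw [GS_eq]
  unfold F
  rw [sum_idx hf h0]
  refine tsum_congr fun n => Finset.sum_congr rfl fun m _ => ?_
  simp [cc, U, V]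

end X

end H53M
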