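import Pool.Agent.Lib.H53M.X10

/-!
# Chunk X11 (M/L): the key summability, `Fam (k-1)`

Let `k ≥ 12` be even, `a = k/2 - 1 ≥ 5`, `K = k - 1 = 2a + 1`, `y > 0`, `r = exp(-πy/(2√5)) < 1`,
`s_n = ⌊√5 n⌋`. Claim: there is `C'` with, for all `(n,m)` with `c(n,m) ≠ 0` (so `n ≥ 1`, `u, v > 0`,
`u + v = n`, `1/5 ≤ uv = N/5`):
`|c| v^{-K} exp(-2πuy) ≤ C' n^{-2} r^{|m + s_n|}`.                                     (1)
Proof. `√5 n + m = 2√5 u > 0`, so `l = m + s_n ≥ 0` and `u ≥ l/(2√5)`, `exp(-πuy) ≤ r^l`.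
`|c| ≤ C n^4 N^a = C 5^a n^4 u^a v^a`, so `|c| v^{-K} ≤ C 5^a n^4 u^a v^{-(a+1)}`.
Case `u ≤ v`: `v ≥ n/2`, `u^a exp(-πuy) ≤ a!/(πy)^a` (`Real.pow_div_factorial_le_exp`), so the left
side of (1) is `≤ C 5^a n^4 (a!/(πy)^a) (2/n)^{a+1} exp(-πuy)`, and `n^{4-(a+1)} ≤ n^{-2}` as `a+1 ≥ 6`.
Case `v ≤ u`: `u ≥ n/2`, `v ≥ 1/(5u) ≥ 1/(5n)`, `v^{-(a+1)} ≤ (5n)^{a+1}`, `u^a ≤ n^a`: the left side of
(1) is `≤ C 5^a n^4 n^a (5n)^{a+1} exp(-πny/2) exp(-πuy)` and
`n^{2a+7} exp(-πny/2) ≤ (2a+7)!/(πy/2)^{2a+7}`.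
The right side of (1) is summable over `ℕ × ℤ`: `(n,m) ↦ (n, m + s_n)` is a bijection of `ℕ × ℤ`,
`Σ n^{-2}` and `Σ_l r^{|l|}` converge (`Summable.mul_of_nonneg`). Where `c = 0` the term is `0`.

`fam_swap`: apply `fam` to `c'(n,m) = c(n,-m)` (same support and growth, `NN_neg`) and reindex by
`(n,m) ↦ (n,-m)` (`uu_neg`, `vv_neg`).
-/

namespace H53M

namespace X

/-- growth hypothesis -/
def Gr (k : ℕ) (c : ℕ → ℤ → ℤ) : Prop := ∃ C : ℝ, ∀ n m, c n m ≠ 0 →
    |(c n m : ℝ)| ≤ C * (n : ℝ) ^ 4 * (NN n m : ℝ) ^ (k / 2 - 1)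

theorem X11_exp {x t : ℝ} (hx : 0 < x) (ht : 0 ≤ t) (b : ℕ) :
    t ^ b * Real.exp (-(x * t)) ≤ (b.factorial : ℝ) / x ^ b := by
  have h1 := Real.pow_div_factorial_le_exp (x * t) (by positivity) b
  have hf : (0 : ℝ) < b.factorial := by exact_mod_cast b.factorial_pos
  rw [div_le_iff₀ hf] at h1
  rw [le_div_iff₀ (by positivity), Real.exp_neg, ← div_eq_mul_inv, div_mul_eq_mul_div,
    div_le_iff₀ (Real.exp_pos _)]
  calc t ^ b * x ^ b = (x * t) ^ b := by rw [mul_pow]; ring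
    _ ≤ Real.exp (x * t) * b.factorial := h1
    _ = _ := mul_comm _ _

/-- The elementary inequality. -/
theorem X11_key (a : ℕ) (ha : 5 ≤ a) {x : ℝ} (hx : 0 < x) : ∃ C : ℝ, 0 < C ∧
    ∀ (n : ℕ) (u v : ℝ), 1 ≤ n → 0 < u → 0 < v → u + v = n → 1 / 5 ≤ u * v →
      (n : ℝ) ^ 6 * (u ^ a * Real.exp (-(x * u))) ≤ C * v ^ (a + 1) := by
  refine ⟨2 ^ (a + 1) * ((a.factorial : ℝ) / x ^ a) +
    5 ^ (a + 1) * (((2 * a + 7).factorial : ℝ) / (x / 2) ^ (2 * a + 7)), by positivity,
    fun n u v hn hu hv huv hp => ?_⟩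
  have hn1 : (1 : ℝ) ≤ n := by exact_mod_cast hn
  have hn0 : (0 : ℝ) < n := by linarith
  set A : ℝ := (a.factorial : ℝ) / x ^ a with hA
  set B : ℝ := ((2 * a + 7).factorial : ℝ) / (x / 2) ^ (2 * a + 7) with hB
  have hA0 : 0 < A := by positivity
  have hB0 : 0 < B := by positivity
  have hv1 : 0 < v ^ (a + 1) := by positivity
  rcases le_total u v with h | h
  · have h1 : u ^ a * Real.exp (-(x * u)) ≤ A := X11_exp hx hu.le a
    have h2 : (n : ℝ) ^ 6 ≤ 2 ^ (a + 1) * v ^ (a + 1) := by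
      calc (n : ℝ) ^ 6 ≤ (n : ℝ) ^ (a + 1) := pow_le_pow_right₀ hn1 (by omega)
        _ ≤ (2 * v) ^ (a + 1) := pow_le_pow_left₀ hn0.le (by linarith) _
        _ = _ := mul_pow _ _ _
    calc (n : ℝ) ^ 6 * (u ^ a * Real.exp (-(x * u))) ≤ (2 ^ (a + 1) * v ^ (a + 1)) * A :=
          mul_le_mul h2 h1 (by positivity) (by positivity)
      _ = 2 ^ (a + 1) * A * v ^ (a + 1) := by ring
      _ ≤ _ := by
          apply mul_le_mul_of_nonneg_right _ hv1.le
          have : 0 < 5 ^ (a + 1) * B := by positivity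
          linarith
  · have h1 : (n : ℝ) / 2 ≤ u := by linarith
    have h2 : u ≤ n := by linarith
    have h3 : 1 ≤ 5 * n * v := by nlinarith
    have h4 : (1 : ℝ) ≤ (5 * n) ^ (a + 1) * v ^ (a + 1) := by
      rw [← mul_pow]
      exact one_le_pow₀ h3
    have h5 : Real.exp (-(x * u)) ≤ Real.exp (-(x / 2 * n)) := by
      apply Real.exp_le_exp.2
      nlinarith
    have h6 := X11_exp (x := x / 2) (t := n) (by positivity) hn0.le (2 * a + 7)
    calc (n : ℝ) ^ 6 * (u ^ a * Real.exp (-(x * u))) ≤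
          (n : ℝ) ^ 6 * ((n : ℝ) ^ a * Real.exp (-(x / 2 * n))) := by
          apply mul_le_mul_of_nonneg_left _ (by positivity)
          exact mul_le_mul (pow_le_pow_left₀ hu.le h2 a) h5 (Real.exp_pos _).le (by positivity)
      _ ≤ ((n : ℝ) ^ 6 * ((n : ℝ) ^ a * Real.exp (-(x / 2 * n)))) *
          ((5 * n) ^ (a + 1) * v ^ (a + 1)) := by
          apply le_mul_of_one_le_right _ h4
          have := Real.exp_pos (-(x / 2 * n))
          positivity
      _ = 5 ^ (a + 1) * ((n : ℝ) ^ (2 * a + 7) * Real.exp (-(x / 2 * n))) * v ^ (a + 1) := by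
          rw [mul_pow]
          ring
      _ ≤ 5 ^ (a + 1) * B * v ^ (a + 1) := by
          apply mul_le_mul_of_nonneg_right _ hv1.le
          exact mul_le_mul_of_nonneg_left h6 (by positivity)
      _ ≤ _ := by
          apply mul_le_mul_of_nonneg_right _ hv1.le
          have : 0 < 2 ^ (a + 1) * A := by positivity
          linarith

/-- `⌊√5 n⌋` -/
noncomputable def X11_s (n : ℕ) : ℤ := ⌊Real.sqrt 5 * n⌋

theorem X11_u {n : ℕ} {m : ℤ} (hu : 0 < uu n m) : 0 ≤ m + X11_s n ∧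
    ((m + X11_s n : ℤ) : ℝ) / (2 * Real.sqrt 5) ≤ uu n m := by
  have h5 : 0 < Real.sqrt 5 := Real.sqrt_pos.2 (by norm_num)
  have hu' : uu n m = (Real.sqrt 5 * n + m) / (2 * Real.sqrt 5) := by
    unfold uu
    field_simp
  rw [hu'] at hu ⊢
  have h1 : 0 < Real.sqrt 5 * n + m := by
    by_contra h
    have : (Real.sqrt 5 * n + m) / (2 * Real.sqrt 5) ≤ 0 :=
      div_nonpos_of_nonpos_of_nonneg (not_lt.1 h) (by positivity)
    linarith
  constructor
  · have h2 : -m ≤ X11_s n := by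
      unfold X11_s
      rw [Int.le_floor]
      push_cast
      linarith
    omega
  · apply div_le_div_of_nonneg_right _ (by positivity)
    have h2 : (X11_s n : ℝ) ≤ Real.sqrt 5 * n := Int.floor_le _
    push_cast
    linarith

theorem X11_sumZ {r : ℝ} (h0 : 0 ≤ r) (h1 : r < 1) : Summable fun l : ℤ => r ^ l.natAbs := by
  rw [summable_int_iff_summable_nat_and_neg]
  constructor
  · simpa using summable_geometric_of_lt_one h0 h1
  · simpa using summable_geometric_of_lt_one h0 h1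

theorem X11_sum {r : ℝ} (h0 : 0 ≤ r) (h1 : r < 1) (C : ℝ) :
    Summable fun i : Idx => C * (1 / (i.1 : ℝ) ^ 2 * r ^ (i.2 + X11_s i.1).natAbs) := by
  apply Summable.mul_left
  have h2 : Summable fun n : ℕ => 1 / (n : ℝ) ^ 2 := Real.summable_one_div_nat_pow.2 (by norm_num)
  have h3 := h2.mul_of_nonneg (X11_sumZ h0 h1) (fun n => by positivity) (fun l => by positivity)
  let e : ℕ × ℤ ≃ ℕ × ℤ := Equiv.prodShear (Equiv.refl ℕ) (fun n => Equiv.addRight (X11_s n))
  exact (e.summable_iff (f := fun x : ℕ × ℤ => 1 / (x.1 : ℝ) ^ 2 * r ^ x.2.natAbs)).2 h3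

theorem fam {k : ℕ} (hk : 12 ≤ k) (hke : Even k) {c : ℕ → ℤ → ℤ} (hs : Sp c) (hg : Gr k c) :
    Fam (k - 1) (cc c) U V := by
  refine ⟨fun i hi => ?_, fun y hy => ?_⟩
  · have h : c i.1 i.2 ≠ 0 := by
      intro h
      apply hi
      unfold cc
      rw [h, Int.cast_zero]
    exact ⟨(facts hs h).1, (facts hs h).2.1⟩
  · obtain ⟨C₀, hC₀⟩ := hg
    set a : ℕ := k / 2 - 1 with ha
    have hk2 : k - 1 = 2 * a + 1 := by
      obtain ⟨t, ht⟩ := hke
      omega
    have ha5 : 5 ≤ a := by omega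
    set x : ℝ := Real.pi * y with hx
    have hx0 : 0 < x := by positivity
    obtain ⟨C₂, hC₂, hkey⟩ := X11_key a ha5 hx0
    have h5 : 0 < Real.sqrt 5 := Real.sqrt_pos.2 (by norm_num)
    set r : ℝ := Real.exp (-(x / (2 * Real.sqrt 5))) with hr
    have hr0 : 0 ≤ r := (Real.exp_pos _).le
    have hr1 : r < 1 := by
      rw [hr, Real.exp_lt_one_iff]
      have : 0 < x / (2 * Real.sqrt 5) := by positivity
      linarith
    refine Summable.of_nonneg_of_le (fun i => ?_) (fun i => ?_)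
      (X11_sum hr0 hr1 (|C₀| * 5 ^ a * C₂))
    · by_cases h : c i.1 i.2 = 0
      · unfold cc
        rw [h]
        simp
      · have hv := (facts hs h).2.1
        have hv' : 0 < V i := hv
        positivity
    · obtain ⟨n, m⟩ := i
      by_cases h : c n m = 0
      · have h1 : cc c (n, m) = 0 := by
          unfold cc
          rw [h, Int.cast_zero]
        rw [h1, norm_zero, zero_mul, zero_mul]
        positivity
      · obtain ⟨hu, hv, huv, hprod, hN, -, -, -, hn⟩ := facts hs h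
        change ‖((c n m : ℤ) : ℂ)‖ * (vv n m)⁻¹ ^ (k - 1) *
          Real.exp (-(2 * Real.pi * uu n m * y)) ≤ |C₀| * 5 ^ a * C₂ *
            (1 / (n : ℝ) ^ 2 * r ^ (m + X11_s n).natAbs)
        set u : ℝ := uu n m with hudef
        set v : ℝ := vv n m with hvdef
        have hn1 : (1 : ℝ) ≤ n := by exact_mod_cast hn
        have hn0 : (0 : ℝ) < n := by linarith
        have hN1 : (1 : ℝ) ≤ NN n m := by exact_mod_cast hN
        have hp : 1 / 5 ≤ u * v := by
          rw [hprod]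
          linarith
        have hNuv : (NN n m : ℝ) = 5 * (u * v) := by
          rw [hprod]
          ring
        obtain ⟨hl0, hl1⟩ := X11_u (n := n) (m := m) hu
        rw [← hudef] at hl1
        -- the exponential
        have hexp : Real.exp (-(x * u)) ≤ r ^ (m + X11_s n).natAbs := by
          rw [hr, ← Real.exp_nat_mul]
          apply Real.exp_le_exp.2
          have h6 : (((m + X11_s n).natAbs : ℕ) : ℝ) = ((m + X11_s n : ℤ) : ℝ) := by
            rw [Nat.cast_natAbs, abs_of_nonneg hl0]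
          rw [h6]
          have h8 := mul_le_mul_of_nonneg_left hl1 hx0.le
          have h9 : ((m + X11_s n : ℤ) : ℝ) * -(x / (2 * Real.sqrt 5)) =
              -(x * (((m + X11_s n : ℤ) : ℝ) / (2 * Real.sqrt 5))) := by ring
          rw [h9]
          linarith
        have hsplit : Real.exp (-(2 * Real.pi * u * y)) =
            Real.exp (-(x * u)) * Real.exp (-(x * u)) := by
          rw [← Real.exp_add, hx]
          congr 1
          ring
        have hc : ‖((c n m : ℤ) : ℂ)‖ ≤ |C₀| * (n : ℝ) ^ 4 * (5 * (u * v)) ^ a := by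
          rw [Complex.norm_intCast, ← hNuv]
          refine (hC₀ n m h).trans ?_
          apply mul_le_mul_of_nonneg_right _ (by positivity)
          exact mul_le_mul_of_nonneg_right (le_abs_self _) (by positivity)
        have hk1 := hkey n u v hn hu hv huv hp
        have hkk : (n : ℝ) ^ 4 * (u ^ a * Real.exp (-(x * u))) * (v⁻¹) ^ (a + 1) ≤
            C₂ * (1 / (n : ℝ) ^ 2) := by
          rw [mul_one_div, le_div_iff₀ (by positivity), inv_pow]
          calc (n : ℝ) ^ 4 * (u ^ a * Real.exp (-(x * u))) * (v ^ (a + 1))⁻¹ * (n : ℝ) ^ 2 =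
              ((n : ℝ) ^ 6 * (u ^ a * Real.exp (-(x * u)))) * (v ^ (a + 1))⁻¹ := by ring
            _ ≤ (C₂ * v ^ (a + 1)) * (v ^ (a + 1))⁻¹ :=
                mul_le_mul_of_nonneg_right hk1 (by positivity)
            _ = C₂ := by
                rw [mul_inv_cancel_right₀]
                positivity
        rw [hk2, hsplit]
        calc ‖((c n m : ℤ) : ℂ)‖ * v⁻¹ ^ (2 * a + 1) *
              (Real.exp (-(x * u)) * Real.exp (-(x * u))) ≤
            (|C₀| * (n : ℝ) ^ 4 * (5 * (u * v)) ^ a) * v⁻¹ ^ (2 * a + 1) *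
              (Real.exp (-(x * u)) * r ^ (m + X11_s n).natAbs) := by
              apply mul_le_mul _ _ (by positivity) (by positivity)
              · exact mul_le_mul_of_nonneg_right hc (by positivity)
              · exact mul_le_mul_of_nonneg_left hexp (Real.exp_pos _).le
          _ = |C₀| * 5 ^ a * ((n : ℝ) ^ 4 * (u ^ a * Real.exp (-(x * u))) * (v⁻¹) ^ (a + 1)) *
              r ^ (m + X11_s n).natAbs := by
              have h10 : (v : ℝ) ^ a * v⁻¹ ^ (2 * a + 1) = v⁻¹ ^ (a + 1) := by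
                have h11 : v⁻¹ ^ (2 * a + 1) = v⁻¹ ^ a * v⁻¹ ^ (a + 1) := by
                  rw [← pow_add]
                  congr 1
                  ring
                rw [h11, ← mul_assoc, ← mul_pow, mul_inv_cancel₀ hv.ne', one_pow, one_mul]
              rw [mul_pow, mul_pow, ← h10]
              ring
          _ ≤ |C₀| * 5 ^ a * (C₂ * (1 / (n : ℝ) ^ 2)) * r ^ (m + X11_s n).natAbs := by
              apply mul_le_mul_of_nonneg_right _ (by positivity)
              exact mul_le_mul_of_nonneg_left hkk (by positivity)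
          _ = _ := by ring

theorem fam_swap {k : ℕ} (hk : 12 ≤ k) (hke : Even k) {c : ℕ → ℤ → ℤ} (hs : Sp c) (hg : Gr k c) :
    Fam (k - 1) (cc c) V U := by
  have hs' : Sp (fun n m => c n (-m)) := by
    intro n m h
    obtain ⟨h1, h2⟩ := hs n (-m) h
    refine ⟨by rwa [neg_sq] at h1, ?_⟩
    rw [sub_neg_eq_add] at h2
    have h3 : (n : ℤ) - m = (n + m) - 2 * m := by ring
    rw [h3]
    exact h2.sub (even_two_mul m)
  have hg' : Gr k (fun n m => c n (-m)) := by
    obtain ⟨C, hC⟩ := hg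
    refine ⟨C, fun n m h => ?_⟩
    have := hC n (-m) h
    rwa [NN_neg] at this
  have hf := fam hk hke hs' hg'
  refine ⟨fun i hi => ?_, fun y hy => ?_⟩
  · have h : c i.1 i.2 ≠ 0 := by
      intro h
      apply hi
      unfold cc
      rw [h, Int.cast_zero]
    exact ⟨(facts hs h).2.1, (facts hs h).1⟩
  · have h1 := hf.sum y hy
    let e : ℕ × ℤ ≃ ℕ × ℤ := Equiv.prodCongr (Equiv.refl ℕ) (Equiv.neg ℤ)
    rw [← e.summable_iff] at h1
    refine h1.congr fun i => ?_
    obtain ⟨n, m⟩ := i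
    have e1 : cc (fun n m => c n (-m)) (e (n, m)) = cc c (n, m) := by
      change ((c n (- -m) : ℤ) : ℂ) = ((c n m : ℤ) : ℂ)
      rw [neg_neg]
    have e2 : V (e (n, m)) = U (n, m) := vv_neg n m
    have e3 : U (e (n, m)) = V (n, m) := uu_neg n m
    rw [Function.comp_apply, e1, e2, e3]

end X

end H53M
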