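import Pool.Agent.Lib.H53M.X1

/-!
# Chunk X2 (M): absolute convergence and the derivative of `F_s` in the second variable

`summable_F`. Let `y₀ = Im w > 0`. `‖term i‖ = ‖c i‖ |v_i|^{-s} exp(-2πu_i Im z) exp(-2πv_i y₀)`; if
`c i = 0` it is `0`; otherwise `v_i > 0` and by `bound1 K y₀` it is
`≤ C ‖c i‖ v_i^{-K} exp(-2πu_i Im z)`: summable by `h.sum (Im z)`.

`hasDerivAt_F`. On the open set `O = {w | Im w > y₀}`, `y₀ = Im w₀ / 2`, the terms
`w ↦ c_i v_i^{-(s+1)} e(u_i z + v_i w)` are entire, bounded in norm by the summable sequence of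
`summable_F` (independent of `w ∈ O` by `bound1`), so `Complex.hasSum_deriv_of_summable_norm`,
`Complex.differentiableOn_tsum_of_summable_norm` give the derivative
`Σ c_i v_i^{-(s+1)} 2πi v_i e(..) = 2πi F_s(z,w₀)` (for `c_i ≠ 0` cancel `v_i ≠ 0`).
-/

namespace H53M

namespace X

open Filter Topology

variable {ι : Type*} {K : ℕ} {c : ι → ℂ} {u v : ι → ℝ}

theorem X2_norm (c₀ : ℂ) {a b : ℝ} (hb : 0 < b) (s : ℕ) (z w : ℂ) :
    ‖c₀ * ((b : ℂ)⁻¹) ^ s * ex ((a : ℂ) * z + (b : ℂ) * w)‖ =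
      ‖c₀‖ * b⁻¹ ^ s * (Real.exp (-(2 * Real.pi * a * z.im)) * Real.exp (-(2 * Real.pi * b * w.im))) := by
  rw [norm_mul, norm_mul, norm_pow, norm_inv, norm_ex, Complex.norm_real, Real.norm_of_nonneg hb.le,
    ← Real.exp_add]
  congr 2
  simp only [Complex.add_im, Complex.mul_im, Complex.ofReal_re, Complex.ofReal_im, zero_mul, add_zero]
  ring

theorem X2_bd (h : Fam K c u v) {y₀ : ℝ} (hy₀ : 0 < y₀) : ∃ C : ℝ, 0 < C ∧
    ∀ s ≤ K, ∀ z w : ℂ, y₀ ≤ w.im → ∀ i,
      ‖c i * ((v i : ℂ)⁻¹) ^ s * ex ((u i : ℂ) * z + (v i : ℂ) * w)‖ ≤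
        C * (‖c i‖ * (v i)⁻¹ ^ K * Real.exp (-(2 * Real.pi * u i * z.im))) := by
  obtain ⟨C, hC, hb⟩ := bound1 K y₀ hy₀
  refine ⟨C, hC, fun s hs z w hw i => ?_⟩
  by_cases hc : c i = 0
  · simp [hc]
  · obtain ⟨hu, hv⟩ := h.pos i hc
    rw [X2_norm _ hv]
    have h1 := hb s hs (v i) w.im hv hw
    calc ‖c i‖ * (v i)⁻¹ ^ s * (Real.exp (-(2 * Real.pi * u i * z.im)) * Real.exp (-(2 * Real.pi * v i * w.im)))
        = (‖c i‖ * Real.exp (-(2 * Real.pi * u i * z.im))) *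
            ((v i)⁻¹ ^ s * Real.exp (-(2 * Real.pi * v i * w.im))) := by ring
      _ ≤ (‖c i‖ * Real.exp (-(2 * Real.pi * u i * z.im))) * (C * (v i)⁻¹ ^ K) :=
          mul_le_mul_of_nonneg_left h1 (by positivity)
      _ = _ := by ring

theorem summable_F (h : Fam K c u v) {s : ℕ} (hs : s ≤ K) {z w : ℂ} (hz : 0 < z.im)
    (hw : 0 < w.im) :
    Summable fun i => c i * ((v i : ℂ)⁻¹) ^ s * ex ((u i : ℂ) * z + (v i : ℂ) * w) := by
  obtain ⟨C, hC, hb⟩ := X2_bd h hw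
  exact Summable.of_norm_bounded ((h.sum z.im hz).mul_left C) (fun i => hb s hs z w le_rfl i)

theorem summable_L (h : Fam K c u v) {z : ℂ} (hz : 0 < z.im) :
    Summable fun i => c i * ((v i : ℂ)⁻¹) ^ K * ex ((u i : ℂ) * z) := by
  refine Summable.of_norm_bounded (h.sum z.im hz) (fun i => ?_)
  by_cases hc : c i = 0
  · simp [hc]
  · obtain ⟨hu, hv⟩ := h.pos i hc
    rw [norm_mul, norm_mul, norm_pow, norm_inv, norm_ex, Complex.norm_real, Real.norm_of_nonneg hv.le]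
    apply le_of_eq
    congr 2
    simp only [Complex.mul_im, Complex.ofReal_re, Complex.ofReal_im, zero_mul, add_zero]
    ring

theorem hasDerivAt_F (h : Fam K c u v) {s : ℕ} (hs : s + 1 ≤ K) {z w : ℂ} (hz : 0 < z.im)
    (hw : 0 < w.im) :
    HasDerivAt (fun w => F c u v (s + 1) z w) (2 * Real.pi * Complex.I * F c u v s z w) w := by
  have hy₀ : 0 < w.im / 2 := by linarith
  obtain ⟨C, hC, hb⟩ := X2_bd h hy₀
  have key : HasDerivAt (fun w => ∑' i, c i * ((v i : ℂ)⁻¹) ^ (s + 1) * ex ((u i : ℂ) * z + (v i : ℂ) * w))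
      (∑' i, 2 * Real.pi * Complex.I * (c i * ((v i : ℂ)⁻¹) ^ s * ex ((u i : ℂ) * z + (v i : ℂ) * w))) w := by
    refine hasDerivAt_tsum_of_isPreconnected (t := {w' : ℂ | w.im / 2 < w'.im})
      (u := fun i => ‖(2 * Real.pi * Complex.I : ℂ)‖ * (C * (‖c i‖ * (v i)⁻¹ ^ K * Real.exp (-(2 * Real.pi * u i * z.im)))))
      (g := fun i w => c i * ((v i : ℂ)⁻¹) ^ (s + 1) * ex ((u i : ℂ) * z + (v i : ℂ) * w))
      (g' := fun i w => 2 * Real.pi * Complex.I * (c i * ((v i : ℂ)⁻¹) ^ s * ex ((u i : ℂ) * z + (v i : ℂ) * w)))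
      (y₀ := w) ?_ ?_ ?_ ?_ ?_ ?_ ?_ ?_
    · exact ((h.sum z.im hz).mul_left C).mul_left _
    · exact isOpen_lt continuous_const Complex.continuous_im
    · exact (convex_halfSpace_im_gt (w.im / 2)).isPreconnected
    · intro i w' _
      by_cases hc : c i = 0
      · simp only [hc, zero_mul, mul_zero]
        exact hasDerivAt_const w' (0 : ℂ)
      · obtain ⟨hu, hv⟩ := h.pos i hc
        have hvc : (v i : ℂ) ≠ 0 := by exact_mod_cast hv.ne'
        have d1 : HasDerivAt (fun w : ℂ => (u i : ℂ) * z + (v i : ℂ) * w) (v i : ℂ) w' := by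
          simpa using ((hasDerivAt_id w').const_mul (v i : ℂ)).const_add ((u i : ℂ) * z)
        have d2 : HasDerivAt (fun w : ℂ => 2 * Real.pi * Complex.I * ((u i : ℂ) * z + (v i : ℂ) * w))
            (2 * Real.pi * Complex.I * (v i : ℂ)) w' := d1.const_mul _
        have d3 := (d2.cexp).const_mul (c i * ((v i : ℂ)⁻¹) ^ (s + 1))
        have e : c i * ((v i : ℂ)⁻¹) ^ (s + 1) * (Complex.exp (2 * Real.pi * Complex.I * ((u i : ℂ) * z + (v i : ℂ) * w'))
            * (2 * Real.pi * Complex.I * (v i : ℂ))) =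
            2 * Real.pi * Complex.I * (c i * ((v i : ℂ)⁻¹) ^ s * ex ((u i : ℂ) * z + (v i : ℂ) * w')) := by
          unfold ex
          rw [pow_succ]
          field_simp
        rw [e] at d3
        exact d3
    · intro i w' hw'
      rw [norm_mul]
      exact mul_le_mul_of_nonneg_left (hb s (by omega) z w' (le_of_lt hw') i) (norm_nonneg _)
    · show w.im / 2 < w.im
      linarith
    · exact summable_F h hs hz hw
    · show w.im / 2 < w.im
      linarith
  rw [tsum_mul_left] at key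
  exact key

end X

end H53M
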