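import Pool.Agent.Lib.H53M.X11
import Pool.Agent.Lib.H53M.X2
import Pool.Agent.Lib.H53M.KEV

/-!
# Chunk X12 (M): the series `h` on the diagonal

`ev_hser`: for `c(n,m) ≠ 0`: `5 n c/N = n c/(uv) = c (1/u + 1/v)` as `n = u + v`, and
`e(uτ + vτ) = e(nτ)`. So the coefficient of `h` times `e(nτ)` is the sum over `m ∈ ms n` of the terms
of `F (cc c) U V 1 τ τ` and of `F (cc c) V U 1 τ τ`; both series are absolutely summable over
`ℕ × ℤ` (`summable_F` for `fam`, `fam_swap`, `1 ≤ k - 1`), vanish outside `ms` (`facts`), so `sum_idx`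
applies to the sum of the two families.
-/

namespace H53M

namespace X

/-- The sum of the two families on the diagonal. -/
noncomputable def X12_T (c : ℕ → ℤ → ℤ) (τ : ℂ) (i : Idx) : ℂ :=
  cc c i * ((V i : ℂ)⁻¹) ^ 1 * ex ((U i : ℂ) * τ + (V i : ℂ) * τ) +
    cc c i * ((U i : ℂ)⁻¹) ^ 1 * ex ((V i : ℂ) * τ + (U i : ℂ) * τ)

theorem X12_summable {k : ℕ} (hk : 12 ≤ k) (hke : Even k) {c : ℕ → ℤ → ℤ} (hs : Sp c)
    (hg : Gr k c) {τ : ℂ} (hτ : 0 < τ.im) : Summable (X12_T c τ) :=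
  (summable_F (fam hk hke hs hg) (s := 1) (by omega) hτ hτ).add
    (summable_F (fam_swap hk hke hs hg) (s := 1) (by omega) hτ hτ)

theorem X12_zero {c : ℕ → ℤ → ℤ} {n : ℕ} {m : ℤ} (h : c n m = 0) (τ : ℂ) :
    X12_T c τ (n, m) = 0 := by
  unfold X12_T cc
  simp [h]

theorem X12_zero' {c : ℕ → ℤ → ℤ} (hs : Sp c) (τ : ℂ) (n : ℕ) (m : ℤ) (h : m ∉ ms n) :
    X12_T c τ (n, m) = 0 := by
  apply X12_zero
  by_contra h0
  exact h (facts hs h0).2.2.2.2.2.2.2.1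

theorem X12_val {c : ℕ → ℤ → ℤ} (hs : Sp c) (τ : ℂ) (n : ℕ) (m : ℤ) :
    X12_T c τ (n, m) = 5 * (n : ℂ) * ((c n m : ℂ) / (NN n m : ℂ)) * ex ((n : ℂ) * τ) := by
  by_cases h0 : c n m = 0
  · rw [X12_zero h0, h0]
    simp
  · obtain ⟨hu, hv, huv, huv2, hN, -⟩ := facts hs h0
    have e1 : ((uu n m : ℝ) : ℂ) + ((vv n m : ℝ) : ℂ) = n := by
      rw [← Complex.ofReal_add, huv, Complex.ofReal_natCast]
    have e2 : ((uu n m : ℝ) : ℂ) * ((vv n m : ℝ) : ℂ) = (NN n m : ℂ) / 5 := by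
      rw [← Complex.ofReal_mul, huv2]
      push_cast
      rfl
    have hu' : ((uu n m : ℝ) : ℂ) ≠ 0 := by exact_mod_cast hu.ne'
    have hv' : ((vv n m : ℝ) : ℂ) ≠ 0 := by exact_mod_cast hv.ne'
    have hN' : (NN n m : ℂ) ≠ 0 := by exact_mod_cast hN.ne'
    have e3 : ((uu n m : ℝ) : ℂ) * τ + ((vv n m : ℝ) : ℂ) * τ = (n : ℂ) * τ := by
      rw [← add_mul, e1]
    have e4 : ((vv n m : ℝ) : ℂ) * τ + ((uu n m : ℝ) : ℂ) * τ = (n : ℂ) * τ := by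
      rw [add_comm, e3]
    unfold X12_T cc U V
    simp only
    rw [e3, e4, pow_one, pow_one]
    have e5 : ((vv n m : ℝ) : ℂ)⁻¹ + ((uu n m : ℝ) : ℂ)⁻¹ = 5 * (n : ℂ) / (NN n m : ℂ) := by
      rw [← e1]
      have e6 : (NN n m : ℂ) = 5 * (((uu n m : ℝ) : ℂ) * ((vv n m : ℝ) : ℂ)) := by
        rw [e2]
        ring
      rw [e6]
      field_simp
    calc (c n m : ℂ) * ((vv n m : ℝ) : ℂ)⁻¹ * ex ((n : ℂ) * τ) +
          (c n m : ℂ) * ((uu n m : ℝ) : ℂ)⁻¹ * ex ((n : ℂ) * τ) =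
        (c n m : ℂ) * (((vv n m : ℝ) : ℂ)⁻¹ + ((uu n m : ℝ) : ℂ)⁻¹) * ex ((n : ℂ) * τ) := by ring
      _ = _ := by
        rw [e5]
        ring

theorem X12_coeff {c : ℕ → ℤ → ℤ} (hs : Sp c) (τ : ℂ) (n : ℕ) :
    PowerSeries.coeff n (ktoC (hser c)) * Complex.exp (2 * Real.pi * Complex.I * (n * τ)) =
      ∑ m ∈ ms n, X12_T c τ (n, m) := by
  have e1 : PowerSeries.coeff n (ktoC (hser c)) =
      5 * (n : ℂ) * ∑ m ∈ ms n, (c n m : ℂ) / (NN n m : ℂ) := by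
    unfold hser
    rw [PowerSeries.coeff_map, PowerSeries.coeff_mk]
    simp
  have e2 : Complex.exp (2 * Real.pi * Complex.I * (n * τ)) = ex ((n : ℂ) * τ) := rfl
  rw [e1, e2, Finset.mul_sum, Finset.sum_mul]
  exact Finset.sum_congr rfl fun m _ => (X12_val hs τ n m).symm

theorem Cv_hser {k : ℕ} (hk : 12 ≤ k) (hke : Even k) {c : ℕ → ℤ → ℤ} (hs : Sp c) (hg : Gr k c) :
    Cv (ktoC (hser c)) := by
  intro τ hτ
  have h1 := (X12_summable hk hke hs hg hτ).norm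
  refine Summable.of_nonneg_of_le (fun _ => norm_nonneg _) (fun n => ?_) h1.prod
  rw [X12_coeff hs]
  refine (norm_sum_le _ _).trans ?_
  exact (h1.prod_factor n).sum_le_tsum _ (fun _ _ => norm_nonneg _)

theorem ev_hser {k : ℕ} (hk : 12 ≤ k) (hke : Even k) {c : ℕ → ℤ → ℤ} (hs : Sp c) (hg : Gr k c)
    {τ : ℂ} (hτ : 0 < τ.im) :
    ev (ktoC (hser c)) τ = F (cc c) U V 1 τ τ + F (cc c) V U 1 τ τ := by
  have h1 := summable_F (fam hk hke hs hg) (s := 1) (by omega) hτ hτ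
  have h2 := summable_F (fam_swap hk hke hs hg) (s := 1) (by omega) hτ hτ
  unfold F
  rw [← h1.tsum_add h2]
  have h3 := sum_idx (X12_summable hk hke hs hg hτ) (X12_zero' hs τ)
  refine Eq.trans ?_ h3.symm
  unfold ev
  exact tsum_congr fun n => X12_coeff hs τ n

end X

end H53M
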