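import Pool.Agent.Lib.H53M.X12
import Pool.Agent.Lib.H53M.X5

/-!
# Chunk X13 (M): `h(-1/τ)` along `τ + 2N`

`ev_trans`. `K = k - 1`, `hA : Arr k c`. The transformation rule `hA.trans` for `GS` becomes
`F_0(-1/z,-1/w) = (z w)^{K+1} F_0(z,w)` for `F (cc c) U V` (`GS_eq_F`, `summable_F` with `s = 0`), and,
exchanging `z` and `w`, for `F (cc c) V U` (`F c u v 0 z w = F c v u 0 w z`: the terms are equal).
Apply `transB` to `fam` and `fam_swap` and add.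
-/

namespace H53M

namespace X

theorem X13_im {z : ℂ} (hz : 0 < z.im) : 0 < (-1 / z).im := by
  have h := UpperHalfPlane.im_inv_neg_coe_pos ⟨z, hz⟩
  have h3 : (-((⟨z, hz⟩ : UpperHalfPlane) : ℂ))⁻¹ = -1 / z := by
    simp [neg_div]
  rwa [h3] at h

theorem X13_swap (c : ℕ → ℤ → ℤ) (z w : ℂ) : F (cc c) V U 0 z w = F (cc c) U V 0 w z := by
  unfold F
  refine tsum_congr fun i => ?_
  rw [pow_zero, pow_zero, add_comm]

theorem X13_trans {k : ℕ} (hk : 12 ≤ k) (hke : Even k) {c : ℕ → ℤ → ℤ} (hA : Arr k c)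
    {z w : ℂ} (hz : 0 < z.im) (hw : 0 < w.im) :
    F (cc c) U V 0 (-1 / z) (-1 / w) = (z * w) ^ (k - 1 + 1) * F (cc c) U V 0 z w := by
  have hs : Sp c := hA.supp
  have hg : Gr k c := hA.bound
  have hf := fam hk hke hs hg
  have h1 := hA.trans z w hz hw
  rw [GS_eq_F hs (summable_F hf (s := 0) (Nat.zero_le _) (X13_im hz) (X13_im hw)),
    GS_eq_F hs (summable_F hf (s := 0) (Nat.zero_le _) hz hw)] at h1
  rw [h1]
  have : k - 1 + 1 = k := by omega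
  rw [this]

theorem ev_trans {k : ℕ} (hk : 12 ≤ k) (hke : Even k) {c : ℕ → ℤ → ℤ} (hA : Arr k c)
    {t : ℂ} (ht : 0 < t.im) :
    ev (ktoC (hser c)) (-1 / t) = 2 * Real.pi * Complex.I * t ^ (k - 1 + 1) *
      (∑ j ∈ Finset.range (k - 1), co (k - 1) j * t ^ (k - 1 - 1 - j) * Q c (j + 1) t -
        co (k - 1) (k - 1 - 1) * (L (cc c) U V (k - 1) t + L (cc c) V U (k - 1) t)) := by
  have hs : Sp c := hA.supp
  have hg : Gr k c := hA.bound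
  have hK : 1 ≤ k - 1 := by omega
  have h1 := transB (fam hk hke hs hg) hK (fun z w hz hw => X13_trans hk hke hA hz hw) ht
  have h2 := transB (fam_swap hk hke hs hg) hK (fun z w hz hw => by
    rw [X13_swap, X13_swap, X13_trans hk hke hA hw hz, mul_comm w z]) ht
  rw [ev_hser hk hke hs hg (X13_im ht), h1, h2]
  unfold A Q
  have h3 : ∑ j ∈ Finset.range (k - 1), co (k - 1) j * t ^ (k - 1 - 1 - j) *
      (F (cc c) U V (j + 1) t t + F (cc c) V U (j + 1) t t) =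
      ∑ j ∈ Finset.range (k - 1), co (k - 1) j * t ^ (k - 1 - 1 - j) * F (cc c) U V (j + 1) t t +
      ∑ j ∈ Finset.range (k - 1), co (k - 1) j * t ^ (k - 1 - 1 - j) * F (cc c) V U (j + 1) t t := by
    rw [← Finset.sum_add_distrib]
    exact Finset.sum_congr rfl fun j _ => by ring
  rw [h3]
  ring

theorem X13_ex {c : ℕ → ℤ → ℤ} (hs : Sp c) {n : ℕ} {m : ℤ} (h : c n m ≠ 0) (τ : ℂ) (N : ℕ) :
    ex (((uu n m : ℝ) : ℂ) * (τ + 2 * (N : ℂ)) + ((vv n m : ℝ) : ℂ) * (τ + 2 * (N : ℂ))) =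
      ex (((uu n m : ℝ) : ℂ) * τ + ((vv n m : ℝ) : ℂ) * τ) := by
  obtain ⟨-, -, huv, -⟩ := facts hs h
  have e1 : ((uu n m : ℝ) : ℂ) + ((vv n m : ℝ) : ℂ) = n := by
    rw [← Complex.ofReal_add, huv, Complex.ofReal_natCast]
  have e2 : ((uu n m : ℝ) : ℂ) * (τ + 2 * (N : ℂ)) + ((vv n m : ℝ) : ℂ) * (τ + 2 * (N : ℂ)) =
      (((uu n m : ℝ) : ℂ) * τ + ((vv n m : ℝ) : ℂ) * τ) + ((2 * n * N : ℕ) : ℂ) := by
    push_cast
    rw [← e1]
    ring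
  rw [e2, ex_add, ex_natCast, mul_one]

theorem Q_shift {c : ℕ → ℤ → ℤ} (hs : Sp c) (s : ℕ) (τ : ℂ) (N : ℕ) :
    Q c s (τ + 2 * (N : ℂ)) = Q c s τ := by
  unfold Q F
  congr 1
  · refine tsum_congr fun i => ?_
    obtain ⟨n, m⟩ := i
    by_cases h : c n m = 0
    · simp [cc, h]
    · congr 1
      exact X13_ex hs h τ N
  · refine tsum_congr fun i => ?_
    obtain ⟨n, m⟩ := i
    by_cases h : c n m = 0
    · simp [cc, h]
    · congr 1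
      have := X13_ex hs h τ N
      unfold U V
      simp only
      rw [add_comm, this, add_comm]

theorem X13_im2 {τ : ℂ} (hτ : 0 < τ.im) (N : ℕ) : 0 < (τ + 2 * (N : ℂ)).im := by
  have : (τ + 2 * (N : ℂ)).im = τ.im := by
    simp
  rw [this]
  exact hτ

theorem X13_sqrt : ((Real.sqrt 5 : ℝ) : ℂ) ≠ 0 := by
  have : Real.sqrt 5 ≠ 0 := (Real.sqrt_pos.2 (by norm_num)).ne'
  exact_mod_cast this

theorem X13_u (n : ℕ) (m : ℤ) (τ : ℂ) (N : ℕ) :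
    ex (((uu n m : ℝ) : ℂ) * (τ + 2 * (N : ℂ))) =
      ex (((uu n m : ℝ) : ℂ) * τ) * ex ((m : ℂ) * ((((N : ℝ) / Real.sqrt 5 : ℝ)) : ℂ)) := by
  have e : ((uu n m : ℝ) : ℂ) * (τ + 2 * (N : ℂ)) =
      ((N * n : ℕ) : ℂ) + (((uu n m : ℝ) : ℂ) * τ + (m : ℂ) * ((((N : ℝ) / Real.sqrt 5 : ℝ)) : ℂ)) := by
    unfold uu
    push_cast
    ring
  rw [e, ex_add, ex_natCast, one_mul, ex_add]

theorem X13_v (n : ℕ) (m : ℤ) (τ : ℂ) (N : ℕ) :
    ex (((vv n m : ℝ) : ℂ) * (τ + 2 * (N : ℂ))) =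
      ex (((vv n m : ℝ) : ℂ) * τ) * ex (-((m : ℂ) * ((((N : ℝ) / Real.sqrt 5 : ℝ)) : ℂ))) := by
  have e : ((vv n m : ℝ) : ℂ) * (τ + 2 * (N : ℂ)) =
      ((N * n : ℕ) : ℂ) + (((vv n m : ℝ) : ℂ) * τ + -((m : ℂ) * ((((N : ℝ) / Real.sqrt 5 : ℝ)) : ℂ))) := by
    unfold vv
    push_cast
    ring
  rw [e, ex_add, ex_natCast, one_mul, ex_add]

theorem L_shift {k : ℕ} (hk : 12 ≤ k) (hke : Even k) {c : ℕ → ℤ → ℤ} (hs : Sp c) (hg : Gr k c)
    {τ : ℂ} (hτ : 0 < τ.im) (N : ℕ) :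
    L (cc c) U V (k - 1) (τ + 2 * (N : ℂ)) + L (cc c) V U (k - 1) (τ + 2 * (N : ℂ)) =
      gg (k - 1) c τ ((N : ℝ) / Real.sqrt 5) := by
  have h1 := summable_L (fam hk hke hs hg) (X13_im2 hτ N)
  have h2 := summable_L (fam_swap hk hke hs hg) (X13_im2 hτ N)
  unfold L gg
  rw [← h1.tsum_add h2]
  refine tsum_congr fun i => ?_
  obtain ⟨n, m⟩ := i
  have e1 := X13_u n m τ N
  have e2 := X13_v n m τ N
  unfold U V
  simp only
  rw [e1, e2]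
  ring

end X

end H53M
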