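import Pool.Agent.Lib.H53M.X11
import Pool.Agent.Lib.H53M.X2

/-!
# Chunk X14 (M): `g` is continuous, periodic, and its first Fourier coefficient

Let `Im τ > 0`, `K = k - 1`. For real `s` and an integer `m`, `|e(ms)| = 1`, so the terms of `gg` are
bounded by the summable family `‖c v^{-K} e(uτ)‖ + ‖c u^{-K} e(vτ)‖` (`summable_L` for `fam` and
`fam_swap`); hence `gg` is continuous (`continuous_tsum`); periodic since `e(m(s+1)) = e(ms)`.

`gg_fourier`: integrate term by term over `[0,1]` (`intervalIntegral.hasSum_integral_of_summable_norm`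
or `hasSum_integral_of_dominated_convergence`), `∫₀¹ e(ms) e(-s) ds = 1` if `m = 1` and `0`
otherwise (`integral_exp_mul_complex`); `∫₀¹ e(-ms) e(-s) ds = 1` if `m = -1`, else `0`. The
remaining sum over `i = (n,1)` of `c v(n,1)^{-K} e(u(n,1)τ)` and over `i = (n,-1)` of
`c u(n,-1)^{-K} e(v(n,-1)τ) = c v(n,1)^{-K} e(u(n,1)τ)` (`uu_neg`, `vv_neg`).
-/

namespace H53M

namespace X

open MeasureTheory

theorem X14_norm1 (m : ℤ) (s : ℝ) : ‖ex ((m : ℂ) * (s : ℂ))‖ = 1 := by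
  rw [norm_ex]
  have : ((m : ℂ) * (s : ℂ)).im = 0 := by
    simp [Complex.mul_im]
  rw [this]
  simp

theorem X14_norm2 (m : ℤ) (s : ℝ) : ‖ex (-((m : ℂ) * (s : ℂ)))‖ = 1 := by
  rw [norm_ex]
  have : (-((m : ℂ) * (s : ℂ))).im = 0 := by
    simp [Complex.mul_im]
  rw [this]
  simp

theorem X14_norm3 (s : ℝ) : ‖ex (-(s : ℂ))‖ = 1 := by
  rw [norm_ex]
  simp

theorem X14_cont {f : ℝ → ℂ} (hf : Continuous f) : Continuous fun s => ex (f s) := by
  unfold ex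
  fun_prop

/-- the terms of `gg` -/
noncomputable def X14_t (K : ℕ) (c : ℕ → ℤ → ℤ) (τ : ℂ) (i : Idx) (s : ℝ) : ℂ :=
  cc c i * ((V i : ℂ)⁻¹) ^ K * ex ((U i : ℂ) * τ) * ex ((i.2 : ℂ) * s) +
    cc c i * ((U i : ℂ)⁻¹) ^ K * ex ((V i : ℂ) * τ) * ex (-((i.2 : ℂ) * s))

/-- the bound -/
noncomputable def X14_b (K : ℕ) (c : ℕ → ℤ → ℤ) (τ : ℂ) (i : Idx) : ℝ :=
  ‖cc c i * ((V i : ℂ)⁻¹) ^ K * ex ((U i : ℂ) * τ)‖ +
    ‖cc c i * ((U i : ℂ)⁻¹) ^ K * ex ((V i : ℂ) * τ)‖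

theorem X14_bound (K : ℕ) (c : ℕ → ℤ → ℤ) (τ : ℂ) (i : Idx) (s : ℝ) :
    ‖X14_t K c τ i s‖ ≤ X14_b K c τ i := by
  unfold X14_t X14_b
  refine (norm_add_le _ _).trans ?_
  rw [norm_mul _ (ex ((i.2 : ℂ) * s)), norm_mul _ (ex (-((i.2 : ℂ) * s))), X14_norm1, X14_norm2,
    mul_one, mul_one]

theorem X14_tcont (K : ℕ) (c : ℕ → ℤ → ℤ) (τ : ℂ) (i : Idx) : Continuous (X14_t K c τ i) := by
  unfold X14_t
  refine Continuous.add ?_ ?_
  · exact continuous_const.mul (X14_cont (by fun_prop))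
  · exact continuous_const.mul (X14_cont (by fun_prop))

theorem X14_gg (K : ℕ) (c : ℕ → ℤ → ℤ) (τ : ℂ) (s : ℝ) :
    gg K c τ s = ∑' i, X14_t K c τ i s := rfl

theorem X14_bsum {k : ℕ} (hk : 12 ≤ k) (hke : Even k) {c : ℕ → ℤ → ℤ} (hs : Sp c)
    (hg : Gr k c) {τ : ℂ} (hτ : 0 < τ.im) : Summable (X14_b (k - 1) c τ) := by
  have h1 := (summable_L (fam hk hke hs hg) hτ).norm
  have h2 := (summable_L (fam_swap hk hke hs hg) hτ).norm
  exact h1.add h2

theorem gg_continuous {k : ℕ} (hk : 12 ≤ k) (hke : Even k) {c : ℕ → ℤ → ℤ} (hs : Sp c)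
    (hg : Gr k c) {τ : ℂ} (hτ : 0 < τ.im) : Continuous (gg (k - 1) c τ) := by
  have h : Continuous fun s => ∑' i, X14_t (k - 1) c τ i s :=
    continuous_tsum (fun i => X14_tcont _ _ _ i) (X14_bsum hk hke hs hg hτ)
      (fun i s => X14_bound _ _ _ i s)
  exact h

theorem gg_periodic (K : ℕ) (c : ℕ → ℤ → ℤ) (τ : ℂ) (s : ℝ) :
    gg K c τ (s + 1) = gg K c τ s := by
  unfold gg
  refine tsum_congr fun i => ?_
  have h1 : ex ((i.2 : ℂ) * ((s + 1 : ℝ) : ℂ)) = ex ((i.2 : ℂ) * (s : ℂ)) := by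
    rw [show (i.2 : ℂ) * ((s + 1 : ℝ) : ℂ) = (i.2 : ℂ) * (s : ℂ) + ((i.2 : ℤ) : ℂ) by
      push_cast; ring, ex_add, ex_intCast, mul_one]
  have h2 : ex (-((i.2 : ℂ) * ((s + 1 : ℝ) : ℂ))) = ex (-((i.2 : ℂ) * (s : ℂ))) := by
    rw [show -((i.2 : ℂ) * ((s + 1 : ℝ) : ℂ)) = -((i.2 : ℂ) * (s : ℂ)) + ((-i.2 : ℤ) : ℂ) by
      push_cast; ring, ex_add, ex_intCast, mul_one]
  rw [h1, h2]

theorem X14_int0 (m : ℤ) : ∫ s in (0 : ℝ)..1, ex ((m : ℂ) * (s : ℂ)) = if m = 0 then 1 else 0 := by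
  by_cases hm : m = 0
  · subst hm
    simp [ex]
  · rw [if_neg hm]
    have hc : (2 * Real.pi * Complex.I * (m : ℂ)) ≠ 0 := by
      have h1 : (Real.pi : ℂ) ≠ 0 := by exact_mod_cast Real.pi_ne_zero
      have h2 : (m : ℂ) ≠ 0 := by exact_mod_cast hm
      simp [h1, h2]
    have h := integral_exp_mul_complex (a := 0) (b := 1) hc
    have h3 : ∀ s : ℝ, ex ((m : ℂ) * (s : ℂ)) =
        Complex.exp (2 * Real.pi * Complex.I * (m : ℂ) * (s : ℂ)) := by
      intro s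
      unfold ex
      congr 1
      ring
    simp_rw [h3]
    rw [h]
    have h4 : Complex.exp (2 * Real.pi * Complex.I * (m : ℂ) * ((1 : ℝ) : ℂ)) = 1 := by
      rw [← h3 1]
      simpa using ex_intCast m
    rw [h4]
    simp

theorem X14_int1 (m : ℤ) : ∫ s in (0 : ℝ)..1, ex ((m : ℂ) * (s : ℂ)) * ex (-(s : ℂ)) =
    if m = 1 then 1 else 0 := by
  have h : ∀ s : ℝ, ex ((m : ℂ) * (s : ℂ)) * ex (-(s : ℂ)) = ex (((m - 1 : ℤ) : ℂ) * (s : ℂ)) := by
    intro s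
    rw [← ex_add]
    congr 1
    push_cast
    ring
  simp_rw [h]
  rw [X14_int0]
  by_cases hm : m = 1
  · simp [hm]
  · rw [if_neg hm, if_neg (by omega)]

theorem X14_int2 (m : ℤ) : ∫ s in (0 : ℝ)..1, ex (-((m : ℂ) * (s : ℂ))) * ex (-(s : ℂ)) =
    if m = -1 then 1 else 0 := by
  have h : ∀ s : ℝ, ex (-((m : ℂ) * (s : ℂ))) * ex (-(s : ℂ)) =
      ex (((-m - 1 : ℤ) : ℂ) * (s : ℂ)) := by
    intro s
    rw [← ex_add]
    congr 1
    push_cast
    ring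
  simp_rw [h]
  rw [X14_int0]
  by_cases hm : m = -1
  · simp [hm]
  · rw [if_neg hm, if_neg (by omega)]

theorem X14_intt (K : ℕ) (c : ℕ → ℤ → ℤ) (τ : ℂ) (i : Idx) :
    ∫ s in (0 : ℝ)..1, X14_t K c τ i s * ex (-(s : ℂ)) =
      (if i.2 = 1 then cc c i * ((V i : ℂ)⁻¹) ^ K * ex ((U i : ℂ) * τ) else 0) +
      (if i.2 = -1 then cc c i * ((U i : ℂ)⁻¹) ^ K * ex ((V i : ℂ) * τ) else 0) := by
  have hc1 : Continuous fun s : ℝ => ex ((i.2 : ℂ) * (s : ℂ)) * ex (-(s : ℂ)) :=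
    (X14_cont (by fun_prop)).mul (X14_cont (by fun_prop))
  have hc2 : Continuous fun s : ℝ => ex (-((i.2 : ℂ) * (s : ℂ))) * ex (-(s : ℂ)) :=
    (X14_cont (by fun_prop)).mul (X14_cont (by fun_prop))
  have h : ∀ s : ℝ, X14_t K c τ i s * ex (-(s : ℂ)) =
      (cc c i * ((V i : ℂ)⁻¹) ^ K * ex ((U i : ℂ) * τ)) *
        (ex ((i.2 : ℂ) * (s : ℂ)) * ex (-(s : ℂ))) +
      (cc c i * ((U i : ℂ)⁻¹) ^ K * ex ((V i : ℂ) * τ)) *
        (ex (-((i.2 : ℂ) * (s : ℂ))) * ex (-(s : ℂ))) := by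
    intro s
    unfold X14_t
    ring
  simp_rw [h]
  have hi1 : IntervalIntegrable (fun s : ℝ =>
      (cc c i * ((V i : ℂ)⁻¹) ^ K * ex ((U i : ℂ) * τ)) *
        (ex ((i.2 : ℂ) * (s : ℂ)) * ex (-(s : ℂ)))) volume 0 1 :=
    (continuous_const.mul hc1).intervalIntegrable _ _
  have hi2 : IntervalIntegrable (fun s : ℝ =>
      (cc c i * ((U i : ℂ)⁻¹) ^ K * ex ((V i : ℂ) * τ)) *
        (ex (-((i.2 : ℂ) * (s : ℂ))) * ex (-(s : ℂ)))) volume 0 1 :=
    (continuous_const.mul hc2).intervalIntegrable _ _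
  rw [intervalIntegral.integral_add hi1 hi2,
    intervalIntegral.integral_const_mul, intervalIntegral.integral_const_mul, X14_int1, X14_int2]
  congr 1
  · split_ifs <;> simp
  · split_ifs <;> simp

theorem gg_fourier {k : ℕ} (hk : 12 ≤ k) (hke : Even k) {c : ℕ → ℤ → ℤ} (hs : Sp c)
    (hg : Gr k c) {τ : ℂ} (hτ : 0 < τ.im) :
    ∫ s in (0 : ℝ)..1, gg (k - 1) c τ s * ex (-(s : ℂ)) =
      ∑' n : ℕ, ((c n 1 : ℂ) + (c n (-1) : ℂ)) * ((vv n 1 : ℂ)⁻¹) ^ (k - 1) *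
        ex ((uu n 1 : ℂ) * τ) := by
  set K := k - 1 with hK
  have hb := X14_bsum hk hke hs hg hτ
  rw [← hK] at hb
  have hL1 := summable_L (fam hk hke hs hg) hτ
  have hL2 := summable_L (fam_swap hk hke hs hg) hτ
  rw [← hK] at hL1 hL2
  have h1 : HasSum (fun i => ∫ s in (0 : ℝ)..1, X14_t K c τ i s * ex (-(s : ℂ)))
      (∫ s in (0 : ℝ)..1, gg K c τ s * ex (-(s : ℂ))) := by
    refine intervalIntegral.hasSum_integral_of_dominated_convergence
      (fun i _ => X14_b K c τ i) ?_ ?_ ?_ ?_ ?_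
    · intro i
      exact ((X14_tcont K c τ i).mul (X14_cont (by fun_prop))).aestronglyMeasurable
    · intro i
      refine Filter.Eventually.of_forall fun s _ => ?_
      rw [norm_mul, X14_norm3, mul_one]
      exact X14_bound K c τ i s
    · exact Filter.Eventually.of_forall fun s _ => hb
    · exact intervalIntegrable_const
    · refine Filter.Eventually.of_forall fun s _ => ?_
      have : Summable fun i => X14_t K c τ i s :=
        Summable.of_norm_bounded hb (fun i => X14_bound K c τ i s)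
      have h2 := this.hasSum.mul_right (ex (-(s : ℂ)))
      exact h2
  rw [← h1.tsum_eq]
  simp_rw [X14_intt]
  set A : Idx → ℂ := fun i => if i.2 = 1 then cc c i * ((V i : ℂ)⁻¹) ^ K * ex ((U i : ℂ) * τ) else 0
    with hA
  set B : Idx → ℂ := fun i => if i.2 = -1 then cc c i * ((U i : ℂ)⁻¹) ^ K * ex ((V i : ℂ) * τ) else 0
    with hB
  have hAs : Summable A := by
    refine Summable.of_norm_bounded hL1.norm (fun i => ?_)
    simp only [hA]
    split_ifs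
    · exact le_rfl
    · rw [norm_zero]; exact norm_nonneg _
  have hBs : Summable B := by
    refine Summable.of_norm_bounded hL2.norm (fun i => ?_)
    simp only [hB]
    split_ifs
    · exact le_rfl
    · rw [norm_zero]; exact norm_nonneg _
  have e : ∑' i : Idx, (A i + B i) = ∑' i, A i + ∑' i, B i := hAs.tsum_add hBs
  have e0 : ∑' i : Idx, ((if i.2 = 1 then cc c i * ((V i : ℂ)⁻¹) ^ K * ex ((U i : ℂ) * τ) else 0) +
      (if i.2 = -1 then cc c i * ((U i : ℂ)⁻¹) ^ K * ex ((V i : ℂ) * τ) else 0)) =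
      ∑' i : Idx, (A i + B i) := rfl
  have i1 : Function.Injective (fun n : ℕ => ((n, 1) : Idx)) := by
    intro a b h
    simpa using h
  have i2 : Function.Injective (fun n : ℕ => ((n, -1) : Idx)) := by
    intro a b h
    simpa using h
  have eA : ∑' n : ℕ, A (n, 1) = ∑' i, A i := by
    refine i1.tsum_eq ?_
    rintro ⟨n, m⟩ h
    refine ⟨n, ?_⟩
    simp only [hA, Function.mem_support, ne_eq, ite_eq_right_iff, not_forall] at h
    obtain ⟨h, _⟩ := h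
    rw [h]
  have eB : ∑' n : ℕ, B (n, -1) = ∑' i, B i := by
    refine i2.tsum_eq ?_
    rintro ⟨n, m⟩ h
    refine ⟨n, ?_⟩
    simp only [hB, Function.mem_support, ne_eq, ite_eq_right_iff, not_forall] at h
    obtain ⟨h, _⟩ := h
    rw [h]
  have e3 : ∑' n : ℕ, (A (n, 1) + B (n, -1)) = ∑' n : ℕ, A (n, 1) + ∑' n : ℕ, B (n, -1) :=
    (hAs.comp_injective i1).tsum_add (hBs.comp_injective i2)
  rw [e, ← eA, ← eB, ← e3]
  refine tsum_congr fun n => ?_
  have hV : V ((n, 1) : Idx) = vv n 1 := rfl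
  have hU : U ((n, 1) : Idx) = uu n 1 := rfl
  have hV' : V ((n, -1) : Idx) = uu n 1 := by
    have := vv_neg n 1
    exact this
  have hU' : U ((n, -1) : Idx) = vv n 1 := by
    have := uu_neg n 1
    exact this
  simp only [hA, hB, Function.comp_apply, if_true, hV, hU, hV', hU', cc]
  ring

end X

end H53M
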