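import Pool.Agent.Lib.H53M.X2

/-!
# Chunk X3 (M): `A` and `B` have the same derivative

Hypotheses: `1 ≤ K`, `τ, w` in the upper half plane, and (for `B`) the transformation rule
`F_0(-1/z,-1/w) = (z w)^{K+1} F_0(z,w)`.

`hasDerivAt_A`: by `hasDerivAt_F` and the product rule, `A(w)/(2πiτ^{K+1})` has derivative
`Σ_{j<K} co(K,j) [ (K-1-j) w^{K-2-j} F_{j+1} + w^{K-1-j} 2πi F_j ]`. Since
`2πi co(K,j) = (-1)^j (K-1)_j (2πi)^{-j}` and `(K-1-j)·(K-1)_j = (K-1)_{j+1}` the first part of the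
term `j` cancels the second part of the term `j+1`, the first part of the term `j = K-1` is `0`;
what remains is the second part of the term `j = 0`: `w^{K-1} F_0`.
(Suggestion: prove by induction on `n ≤ K` that the sum over `j < n` equals
`w^{K-1} F_0(τ,w) + (term) ` where `(term) = co(K,n-1)(K-n) w^{K-1-n} F_n` for `n ≥ 1`.)

`hasDerivAt_B`: chain rule: derivative of `w ↦ -1/w` is `1/w^2`, so `B' = 2πi F_0(-1/τ,-1/w)/w^2
= 2πi (τw)^{K+1} F_0(τ,w)/w^2 = 2πi τ^{K+1} w^{K-1} F_0(τ,w)`.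

`AB_const`: the upper half plane is open and convex (preconnected), so a function with zero
derivative on it is constant (`IsOpen.is_const_of_deriv_eq_zero` or
`Convex.is_const_of_fderivWithin_eq_zero`).
-/

namespace H53M

namespace X

open Filter Topology

variable {ι : Type*} {K : ℕ} {c : ι → ℂ} {u v : ι → ℝ}

theorem X3_kappa : (2 * (Real.pi : ℂ) * Complex.I) ≠ 0 := by
  refine mul_ne_zero (mul_ne_zero two_ne_zero ?_) Complex.I_ne_zero
  exact_mod_cast Real.pi_ne_zero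

theorem X3_ne {z : ℂ} (hz : 0 < z.im) : z ≠ 0 := by
  rintro rfl
  simp at hz

theorem X3_im {z : ℂ} (hz : 0 < z.im) : 0 < (-1 / z).im := by
  rw [neg_div, one_div, Complex.neg_im, Complex.inv_im]
  have : 0 < Complex.normSq z := Complex.normSq_pos.2 (X3_ne hz)
  rw [neg_div, neg_neg]
  positivity

theorem X3_co_zero (K : ℕ) : 2 * Real.pi * Complex.I * co K 0 = 1 := by
  unfold co
  rw [pow_zero, Nat.descFactorial_zero, Nat.cast_one, one_mul, one_mul, zero_add, pow_one]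
  exact mul_inv_cancel₀ X3_kappa

theorem X3_co_succ (K j : ℕ) : 2 * Real.pi * Complex.I * co K (j + 1) =
    -(((K - 1 - j : ℕ) : ℂ) * co K j) := by
  unfold co
  rw [Nat.descFactorial_succ, Nat.cast_mul, pow_succ (-1 : ℂ) j,
    pow_succ ((2 * (Real.pi : ℂ) * Complex.I)⁻¹) (j + 1)]
  have h := mul_inv_cancel₀ X3_kappa
  linear_combination (-((-1 : ℂ) ^ j * (((K - 1 - j : ℕ) : ℂ) * ((K - 1).descFactorial j : ℂ)) *
    ((2 * (Real.pi : ℂ) * Complex.I)⁻¹) ^ (j + 1))) * h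

theorem X3_tele (n : ℕ) (w : ℂ) (f : ℕ → ℂ) :
    ∑ j ∈ Finset.range (n + 1), (co (n + 1) j * (((n + 1 - 1 - j : ℕ) : ℂ) *
      w ^ (n + 1 - 1 - j - 1)) * f (j + 1) + co (n + 1) j * w ^ (n + 1 - 1 - j) *
        (2 * Real.pi * Complex.I * f j)) = w ^ n * f 0 := by
  rw [Finset.sum_add_distrib, Finset.sum_range_succ, Finset.sum_range_succ' (fun j =>
    co (n + 1) j * w ^ (n + 1 - 1 - j) * (2 * Real.pi * Complex.I * f j))]
  have h1 : ((n + 1 - 1 - n : ℕ) : ℂ) = 0 := by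
    have : n + 1 - 1 - n = 0 := by omega
    rw [this, Nat.cast_zero]
  rw [h1, zero_mul, mul_zero, zero_mul, add_zero]
  have h2 : co (n + 1) 0 * w ^ (n + 1 - 1 - 0) * (2 * Real.pi * Complex.I * f 0) = w ^ n * f 0 := by
    have h3 := X3_co_zero (n + 1)
    have h4 : n + 1 - 1 - 0 = n := by omega
    rw [h4]
    linear_combination (w ^ n * f 0) * h3
  rw [h2, ← add_assoc, ← Finset.sum_add_distrib, Finset.sum_eq_zero, zero_add]
  intro j hj
  have h3 := X3_co_succ (n + 1) j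
  have h4 : n + 1 - 1 - j - 1 = n + 1 - 1 - (j + 1) := by omega
  rw [h4]
  linear_combination (w ^ (n + 1 - 1 - (j + 1)) * f (j + 1)) * h3

theorem hasDerivAt_A (h : Fam K c u v) (hK : 1 ≤ K) {τ w : ℂ} (hτ : 0 < τ.im) (hw : 0 < w.im) :
    HasDerivAt (fun w => A K c u v τ w)
      (2 * Real.pi * Complex.I * τ ^ (K + 1) * w ^ (K - 1) * F c u v 0 τ w) w := by
  have h1 : ∀ j ∈ Finset.range K, HasDerivAt
      (fun w => co K j * w ^ (K - 1 - j) * F c u v (j + 1) τ w)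
      (co K j * (((K - 1 - j : ℕ) : ℂ) * w ^ (K - 1 - j - 1)) * F c u v (j + 1) τ w +
        co K j * w ^ (K - 1 - j) * (2 * Real.pi * Complex.I * F c u v j τ w)) w := by
    intro j hj
    have hj' : j + 1 ≤ K := Finset.mem_range.1 hj
    exact ((hasDerivAt_pow (K - 1 - j) w).const_mul _).mul (hasDerivAt_F h hj' hτ hw)
  have h2 := (HasDerivAt.fun_sum h1).const_mul (2 * Real.pi * Complex.I * τ ^ (K + 1))
  obtain ⟨n, rfl⟩ : ∃ n, K = n + 1 := ⟨K - 1, by omega⟩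
  rw [X3_tele n w (fun j => F c u v j τ w)] at h2
  unfold A
  refine h2.congr_deriv ?_
  rw [Nat.add_sub_cancel]
  ring

theorem X3_hasDerivAt_inv {w : ℂ} (hw : w ≠ 0) : HasDerivAt (fun z : ℂ => -1 / z) ((w ^ 2)⁻¹) w := by
  have h2 := (hasDerivAt_inv hw).neg
  rw [neg_neg] at h2
  refine h2.congr_of_eventuallyEq ?_
  filter_upwards with w
  rw [neg_div, one_div]
  rfl

theorem hasDerivAt_B (h : Fam K c u v) (hK : 1 ≤ K)
    (htr : ∀ z w : ℂ, 0 < z.im → 0 < w.im →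
      F c u v 0 (-1 / z) (-1 / w) = (z * w) ^ (K + 1) * F c u v 0 z w)
    {τ w : ℂ} (hτ : 0 < τ.im) (hw : 0 < w.im) :
    HasDerivAt (fun w => F c u v 1 (-1 / τ) (-1 / w))
      (2 * Real.pi * Complex.I * τ ^ (K + 1) * w ^ (K - 1) * F c u v 0 τ w) w := by
  have h1 := hasDerivAt_F h (s := 0) (by omega) (X3_im hτ) (X3_im hw)
  have hw0 := X3_ne hw
  have h2 := HasDerivAt.comp w h1 (X3_hasDerivAt_inv hw0)
  rw [htr τ w hτ hw] at h2
  refine h2.congr_deriv ?_
  obtain ⟨n, rfl⟩ : ∃ n, K = n + 1 := ⟨K - 1, by omega⟩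
  have h3 : w ^ 2 * (w ^ 2)⁻¹ = 1 := mul_inv_cancel₀ (pow_ne_zero 2 hw0)
  have h4 : (τ * w) ^ (n + 1 + 1) = τ ^ (n + 1 + 1) * (w ^ n * w ^ 2) := by
    rw [mul_pow, ← pow_add]
  rw [h4, Nat.add_sub_cancel]
  linear_combination (2 * Real.pi * Complex.I * τ ^ (n + 1 + 1) * w ^ n * F c u v 0 τ w) * h3

theorem AB_const (h : Fam K c u v) (hK : 1 ≤ K)
    (htr : ∀ z w : ℂ, 0 < z.im → 0 < w.im →
      F c u v 0 (-1 / z) (-1 / w) = (z * w) ^ (K + 1) * F c u v 0 z w)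
    {τ : ℂ} (hτ : 0 < τ.im) {w w' : ℂ} (hw : 0 < w.im) (hw' : 0 < w'.im) :
    F c u v 1 (-1 / τ) (-1 / w) - A K c u v τ w =
      F c u v 1 (-1 / τ) (-1 / w') - A K c u v τ w' := by
  have h1 : ∀ z : ℂ, 0 < z.im → HasDerivAt
      (fun z => F c u v 1 (-1 / τ) (-1 / z) - A K c u v τ z) 0 z := by
    intro z hz
    have h2 := (hasDerivAt_B h hK htr hτ hz).sub (hasDerivAt_A h hK hτ hz)
    rw [sub_self] at h2
    exact h2
  have hopen : IsOpen {z : ℂ | 0 < z.im} := isOpen_lt continuous_const Complex.continuous_im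
  have hconv : Convex ℝ {z : ℂ | 0 < z.im} := convex_halfSpace_im_gt 0
  exact hopen.is_const_of_deriv_eq_zero hconv.isPreconnected
    (f := fun z => F c u v 1 (-1 / τ) (-1 / z) - A K c u v τ z)
    (fun z hz => (h1 z hz).differentiableAt.differentiableWithinAt)
    (fun z hz => (h1 z hz).deriv) hw hw'

end X

end H53M
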