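import Pool.Agent.Lib.H53M.X0

/-!
# Chunk X7 (M), PURE MATHLIB: a polynomial vanishing along a sequence

Let `R ∈ ℂ[Y][X]` (outer variable `X`, coefficients in `ℂ[Y]`), `x_N → 0`, `x_N ≠ 0`, and let the
sequence `y_N` have infinitely many limit points. If `R(x_N, y_N) = 0` for all `N` then `R = 0`.

Proof. If `R ≠ 0` write `R = X^m R₁` with `R₁.coeff 0 ≠ 0` (for instance `m = natTrailingDegree`,
or strong induction on the degree with `Polynomial.divX`, or
`Polynomial.exists_eq_pow_rootMultiplicity_mul_and_not_dvd` with the root `0`). As `x_N ≠ 0`,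
`R₁(x_N, y_N) = 0`. The map `(x,y) ↦ R₁(x,y)` is continuous (a finite sum of `x^i · coeff_i(y)`), so
at every limit point `z` of `y_N` one gets `R₁(0,z) = 0` (`MapClusterPt`: there is a
frequently/subfilter argument: `(x_N, y_N)` clusters at `(0,z)`). So the nonzero polynomial
`R₁.coeff 0` has infinitely many roots, contradiction.
-/

namespace H53M

namespace X

open Filter Topology

theorem X7_cont (R : Polynomial (Polynomial ℂ)) :
    Continuous fun p : ℂ × ℂ => (R.eval (Polynomial.C p.1)).eval p.2 := by
  induction R using Polynomial.induction_on' with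
  | add p q hp hq =>
    simp only [Polynomial.eval_add]
    exact hp.add hq
  | monomial n a =>
    simp only [Polynomial.eval_monomial, Polynomial.eval_mul, Polynomial.eval_pow,
      Polynomial.eval_C]
    exact (a.continuous.comp continuous_snd).mul (continuous_fst.pow n)

theorem X7_coeff (R : Polynomial (Polynomial ℂ)) (x y : ℕ → ℂ)
    (hx : Tendsto x atTop (𝓝 0)) (hy : {z : ℂ | MapClusterPt z atTop y}.Infinite)
    (h : ∀ N, (R.eval (Polynomial.C (x N))).eval (y N) = 0) : R.coeff 0 = 0 := by
  refine Polynomial.eq_zero_of_infinite_isRoot _ (hy.mono ?_)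
  intro z hz
  obtain ⟨V, hV, hVz⟩ := mapClusterPt_iff_ultrafilter.1 hz
  have h1 : Tendsto (fun N => (x N, y N)) V (𝓝 (0, z)) := (hx.mono_left hV).prodMk_nhds hVz
  have h2 := ((X7_cont R).tendsto (0, z)).comp h1
  have h3 : ((fun p : ℂ × ℂ => (R.eval (Polynomial.C p.1)).eval p.2) ∘ fun N => (x N, y N)) =
      fun _ => 0 := funext fun N => h N
  rw [h3] at h2
  have h4 := tendsto_nhds_unique h2 tendsto_const_nhds
  simp only [map_zero] at h4
  show (R.coeff 0).eval z = 0
  rw [Polynomial.coeff_zero_eq_eval_zero]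
  exact h4

theorem X7_ind (x y : ℕ → ℂ) (hx0 : ∀ N, x N ≠ 0)
    (hx : Tendsto x atTop (𝓝 0)) (hy : {z : ℂ | MapClusterPt z atTop y}.Infinite) (n : ℕ) :
    ∀ R : Polynomial (Polynomial ℂ), R.natDegree ≤ n →
      (∀ N, (R.eval (Polynomial.C (x N))).eval (y N) = 0) → R = 0 := by
  induction n with
  | zero =>
    intro R hR h
    have h1 := X7_coeff R x y hx hy h
    rw [Polynomial.eq_C_of_natDegree_le_zero hR, h1, map_zero]
  | succ n ih =>
    intro R hR h
    have h1 := X7_coeff R x y hx hy h
    have h2 : R.divX * Polynomial.X = R := by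
      have := R.divX_mul_X_add
      rw [h1, map_zero, add_zero] at this
      exact this
    have h3 : R.divX = 0 := by
      apply ih
      · rw [Polynomial.natDegree_divX_eq_natDegree_tsub_one]
        omega
      · intro N
        have h4 := h N
        rw [← h2, Polynomial.eval_mul, Polynomial.eval_X, Polynomial.eval_mul,
          Polynomial.eval_C] at h4
        exact (mul_eq_zero.1 h4).resolve_right (hx0 N)
    rw [← h2, h3, zero_mul]

theorem poly_zero (R : Polynomial (Polynomial ℂ)) (x y : ℕ → ℂ) (hx0 : ∀ N, x N ≠ 0)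
    (hx : Tendsto x atTop (𝓝 0)) (hy : {z : ℂ | MapClusterPt z atTop y}.Infinite)
    (h : ∀ N, (R.eval (Polynomial.C (x N))).eval (y N) = 0) : R = 0 :=
  X7_ind x y hx0 hx hy R.natDegree R le_rfl h

end X

end H53M
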